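import Mathlib
import Pool.Agent.Work.MP_56b8f5_nt.EM.Defs

/-!
MP_56b8f5_nt (eighth moment of the Riemann zeta function), block UB: definitions.

Goal: `∫_0^T |ζ(1/2+it)|^8 dt ≤ C T^(3/2 - 1/200 + ε)` and, for all `A ∈ [4,12]`,
`∫_0^T |ζ(1/2+it)|^A dt ≤ C T^(1 + (A-4)/8 - min(A-4, 12-A)/800 + ε)`.
-/

open MeasureTheory Set Filter Topology

noncomputable section

namespace Pool.Agent.Work.MP_56b8f5_nt.UB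

/-- `e(x) = exp(2 π i x)`. -/
def ee (x : ℝ) : ℂ := Complex.exp (((2 * Real.pi * x : ℝ) : ℂ) * Complex.I)

/-! ### The frequencies `v(n) ≈ 2 √n` -/

/-- `v(y) = 4 X arsinh(√y / (2X))`. -/
def vv (X y : ℝ) : ℝ := 4 * X * Real.arsinh (Real.sqrt y / (2 * X))

/-- the inverse function `n(v) = 2 X² (cosh(v/(2X)) - 1)` -/
def nn (X v : ℝ) : ℝ := 2 * X ^ 2 * (Real.cosh (v / (2 * X)) - 1)

/-- its derivative `n'(v) = X sinh(v/(2X))` -/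
def nd (X v : ℝ) : ℝ := X * Real.sinh (v / (2 * X))

/-- bump function: `1` on `[1,2]`, support in `(1/2, 5/2)` -/
def omB : ContDiffBump (3 / 2 : ℝ) := ⟨1 / 2, 1, by norm_num, by norm_num⟩

/-- the weight `ω` -/
def om (u : ℝ) : ℝ := omB u

/-- bump function: `1` on `[1/2, 9/2]`, support in `(1/4, 19/4)` -/
def chB : ContDiffBump (5 / 2 : ℝ) := ⟨2, 9 / 4, by norm_num, by norm_num⟩

/-- the weight `χ` -/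
def ch (u : ℝ) : ℝ := chB u

/-! ### The kernel -/

/-- `κ(v) = ω(n(v)/N) n'(v)` -/
def kap (X N v : ℝ) : ℝ := om (nn X v / N) * nd X v

/-- `K_m(x) = ∫_{v > 0} κ(v) e(x v - m n(v)) dv` -/
def KK (X N : ℝ) (m : ℤ) (x : ℝ) : ℂ :=
  ∫ v in Ioi (0 : ℝ), (kap X N v : ℂ) * ee (x * v - m * nn X v)

/-- `K(x) = ∑_n ω(n/N) e(x v(n))` -/
def KS (X N x : ℝ) : ℂ := ∑' n : ℕ, (om ((n : ℝ) / N) : ℂ) * ee (x * vv X n)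

/-- `K_m` cut to `J_m = [m √N/2, 2 m √N]`, `m ≥ 1`. -/
def KJ (X N : ℝ) (m : ℕ) (x : ℝ) : ℂ :=
  if m * Real.sqrt N / 2 ≤ x ∧ x ≤ 2 * m * Real.sqrt N then KK X N m x else 0

/-- stationary point `v* = 2 X arsinh(x/(mX))` of `x v - m n(v)` -/
def ws (X m x : ℝ) : ℝ := 2 * X * Real.arsinh (x / (m * X))

/-- critical value `Φ_m(x) = x v* - m n(v*)` -/
def Ph (X m x : ℝ) : ℝ := x * ws X m x - m * nn X (ws X m x)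

/-- `Φ(x-x1) + Φ(x-x2) - Φ(x-x3) - Φ(x-x4)` -/
def DP (X m x1 x2 x3 x4 x : ℝ) : ℝ :=
  Ph X m (x - x1) + Ph X m (x - x2) - Ph X m (x - x3) - Ph X m (x - x4)

/-- `S(x) = ∑_{N < n ≤ 2N} a_n e(x v(n))` -/
def SS (X N : ℝ) (a : ℕ → ℂ) (x : ℝ) : ℂ :=
  ∑ n ∈ Finset.Ioc ⌊N⌋₊ ⌊2 * N⌋₊, a n * ee (x * vv X n)

/-- the measure of a set, as a real number -/
def Rr (W : Set ℝ) : ℝ := (volume W).toReal

/-- the additive energy of a set `W`: measure of `(x1,x2,x3) ∈ W³` with `x1+x2-x3 ∈ W` -/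
def EE (W : Set ℝ) : ENNReal :=
  ∫⁻ x1 in W, ∫⁻ x2 in W, ∫⁻ x3 in W, W.indicator (fun _ => (1 : ENNReal)) (x1 + x2 - x3)

/-- the four-fold correlation of a kernel -/
def HH (k : ℝ → ℂ) (x1 x2 x3 x4 : ℝ) : ℂ :=
  ∫ x : ℝ, k (x - x1) * k (x - x2) * (starRingEnd ℂ) (k (x - x3)) * (starRingEnd ℂ) (k (x - x4))

/-- The logarithmic factor. -/
def Lg (X N M : ℝ) : ℝ := Real.log (2 + M * N) + Real.sqrt M * N / X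

/-! ### Short mean squares of zeta -/

/-- Weights for the short mean square: `φ ≥ 0`, `φ ≥ 1` on `[-1,1]`, Fourier transform `Θ` smooth and
supported in `[-1,1]`. -/
structure IsPhi (φ Θ : ℝ → ℝ) : Prop where
  cont : Continuous φ
  even : ∀ z, φ (-z) = φ z
  nonneg : ∀ z, 0 ≤ φ z
  one_le : ∀ z, |z| ≤ 1 → 1 ≤ φ z
  dec : ∃ C : ℝ, ∀ z, φ z ≤ C / (1 + z ^ 2) ^ 2
  smooth : ContDiff ℝ ((⊤ : ℕ∞) : WithTop ℕ∞) Θ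
  evenT : ∀ x, Θ (-x) = Θ x
  supp : ∀ x, 1 ≤ |x| → Θ x = 0
  four : ∀ x : ℝ, ∫ z : ℝ, (φ z : ℂ) * Complex.exp (Complex.I * ((x * z : ℝ) : ℂ)) = (Θ x : ℂ)

/-- the short mean square `I_G(t)` of `P` (`K = T²`) -/
def IG (φ : ℝ → ℝ) (T G t : ℝ) : ℝ := ∫ u : ℝ, φ (u / G) * ‖EM.P (T ^ 2) (t + u)‖ ^ 2

/-- `coth(l/2)` -/
def cth (l : ℝ) : ℝ := Real.cosh (l / 2) / Real.sinh (l / 2)

/-- The function `f_k(y)`, `y > 0`; zero for `y ≤ 0`. -/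
def ff (Θ : ℝ → ℝ) (K G s : ℝ) (k : ℕ) (y : ℝ) : ℂ :=
  if 0 < y then
    ((Real.exp (-((2 * y + k) / K)) * Θ (G * Real.log (1 + k / y)) / Real.sqrt (y * (y + k)) : ℝ) : ℂ)
      * ee (s * Real.log (1 + k / y))
  else 0

/-- `∫_0^∞ e^{-k coth(l/2)/K} Θ(Gl) (2 sinh(l/2))^{-1} e(s l + (kh/2) coth(l/2)) dl` -/
def II (Θ : ℝ → ℝ) (K G s : ℝ) (k : ℕ) (h : ℤ) : ℂ :=
  ∫ l in Ioi (0 : ℝ), ((Real.exp (-(k * cth l / K)) * Θ (G * l) / (2 * Real.sinh (l / 2)) : ℝ) : ℂ) *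
    ee (s * l + k * h / 2 * cth l)

/-- `J_n(s) = ∫_0^∞ χ(l/√(n/T)) Θ(Gl) (2 sinh(l/2))^{-1} e(s l + (n/2) coth(l/2)) dl` -/
def JJ (Θ : ℝ → ℝ) (T G : ℝ) (n : ℕ) (s : ℝ) : ℂ :=
  ∫ l in Ioi (0 : ℝ),
    ((ch (l / Real.sqrt (n / T)) * Θ (G * l) / (2 * Real.sinh (l / 2)) : ℝ) : ℂ) *
      ee (s * l + n / 2 * cth l)

/-- stationary point `l* = 2 arsinh(√n/(2√s))` -/
def ls (n s : ℝ) : ℝ := 2 * Real.arsinh (Real.sqrt n / (2 * Real.sqrt s))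

/-- critical value `F(n,s) = s l* + (n/2) coth(l*/2)` -/
def FF (n s : ℝ) : ℝ := s * ls n s + n / 2 * cth (ls n s)

/-- block of the dual sum -/
def SJ (Θ : ℝ → ℝ) (T G : ℝ) (a : ℕ → ℂ) (N s : ℝ) : ℂ :=
  ∑ n ∈ Finset.Ioc ⌊N⌋₊ ⌊2 * N⌋₊, a n * JJ Θ T G n s

/-- the interval of `s = t/(2π)` for `t ∈ [T/2, 4T]` -/
def sI (T : ℝ) : Set ℝ := Icc (T / (4 * Real.pi)) (2 * T / Real.pi)

/-- the set of large values of a block -/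
def BS (Θ : ℝ → ℝ) (T G : ℝ) (a : ℕ → ℂ) (N u : ℝ) : Set ℝ :=
  {s | s ∈ sI T ∧ u ≤ ‖SJ Θ T G a N s‖}

/-- the dual sum `∑_{n ≤ C'T/G²} (-1)^n d(n) J_n(r/2π)` -/
def DS (Θ : ℝ → ℝ) (T G C' r : ℝ) : ℂ :=
  ∑ n ∈ Finset.Icc 1 ⌊C' * T / G ^ 2⌋₊,
    (-1 : ℂ) ^ n * (n.divisors.card : ℂ) * JJ Θ T G n (r / (2 * Real.pi))

/-- the part of the second moment of `P` over `[T,2T]` where `V ≤ |P| < 2V` -/
def JV (T V : ℝ) : ℝ :=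
  ∫ t in {t : ℝ | t ∈ Icc T (2 * T) ∧ V ≤ ‖EM.P (T ^ 2) t‖ ∧ ‖EM.P (T ^ 2) t‖ < 2 * V},
    ‖EM.P (T ^ 2) t‖ ^ 2

end Pool.Agent.Work.MP_56b8f5_nt.UB
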