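import Pool.Agent.Work.MP_56b8f5_nt.UB.Defs

/-!
MP_56b8f5_nt (eighth moment of the Riemann zeta function), block UB: statements of the items,
each with its proof in the docstring.  Notes 4032, 4033, 4034 contain the overview.

Conventions: every constant `C` depends only on the parameters quantified before it.  All items are
independent: an item may use any statement listed in its docstring as a hypothesis, i.e. the item is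
`theorem iNAME (h1 : StA) (h2 : StB) : StNAME := ...` in the file `UB/I_NAME.lean`.
-/

open MeasureTheory Set Filter Topology

noncomputable section

namespace Pool.Agent.Work.MP_56b8f5_nt.UB

/-! ### Block V: derivative tests -/

/-- ITEM Vp (partial summation).  `E(y) = ∫_a^y e(f)`, `∫ A e(f) = A(b) E(b) - ∫ A' E`, `|E| ≤ B`.
`A'` is measurable (`measurable_deriv`) and bounded, so interval integrable; use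
`intervalIntegral.integral_eq_sub_of_hasDeriv_right` for `A · E` (continuous on `[a,b]`, differentiable inside). -/
def StVp : Prop := ∀ (a b B D : ℝ) (A : ℝ → ℂ) (f : ℝ → ℝ), a ≤ b → 0 ≤ D → ContinuousOn A (Icc a b) →
  (∀ x ∈ Ioo a b, DifferentiableAt ℝ A x ∧ ‖deriv A x‖ ≤ D) → ContinuousOn f (Icc a b) →
  (∀ y ∈ Icc a b, ‖∫ x in a..y, ee (f x)‖ ≤ B) →
  ‖∫ x in a..b, A x * ee (f x)‖ ≤ B * (‖A b‖ + D * (b - a))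

/-- ITEM V1 (first derivative test).  Part 1: `e(f) = (e(f))'/(2πi f')`, integrate by parts:
`|∫| ≤ (1/2π)(1/|f'(a)| + 1/|f'(b)| + ∫ |f''|/f'^2)`.  Part 2: if moreover `f''` has constant sign then
`∫ |f''|/f'^2 = |1/f'(a) - 1/f'(b)| ≤ 1/l` (`f'` has constant sign). -/
def StV1 : Prop := ∀ (a b l : ℝ) (f f1 f2 : ℝ → ℝ), a ≤ b → 0 < l →
  (∀ x ∈ Icc a b, HasDerivAt f (f1 x) x) → (∀ x ∈ Icc a b, HasDerivAt f1 (f2 x) x) →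
  ContinuousOn f2 (Icc a b) → (∀ x ∈ Icc a b, l ≤ |f1 x|) →
  ‖∫ x in a..b, ee (f x)‖ ≤ 1 / l + ∫ x in a..b, |f2 x| / f1 x ^ 2 ∧
  (((∀ x ∈ Icc a b, 0 ≤ f2 x) ∨ (∀ x ∈ Icc a b, f2 x ≤ 0)) → ‖∫ x in a..b, ee (f x)‖ ≤ 1 / l)

/-- ITEM V2 (second derivative test; uses StV1).  `f'` is strictly monotone; `|f'| ≥ √μ` outside an interval of
length `≤ 2/√μ`; V1 (part 2) on the at most two remaining intervals: total `≤ 4/√μ`.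
The case `f'' ≤ -μ` by complex conjugation (`f ↦ -f`). -/
def StV2 : Prop := ∀ (a b μ : ℝ) (f f1 f2 : ℝ → ℝ), a ≤ b → 0 < μ →
  (∀ x ∈ Icc a b, HasDerivAt f (f1 x) x) → (∀ x ∈ Icc a b, HasDerivAt f1 (f2 x) x) →
  ContinuousOn f2 (Icc a b) →
  ((∀ x ∈ Icc a b, μ ≤ f2 x) ∨ (∀ x ∈ Icc a b, f2 x ≤ -μ)) →
  ‖∫ x in a..b, ee (f x)‖ ≤ 8 / Real.sqrt μ

/-- ITEM IP (integration by parts, once and twice, real amplitude).  `∫ a e(f) = [a e(f)/(2πi f')] - (1/2πi) ∫ (a/f')' e(f)`, and the same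
again with `a/f'` replaced by `(a/f')'/f'`:  `(a/f')' = a'/f' - a f''/f'^2`, and (writing `f1, f2, f3` for the derivatives)
`((a/f1)'/f1)' = a2/f1^2 - 3 a1 f2/f1^3 + 3 a f2^2/f1^4 - a f3/f1^3`. -/
def StIP : Prop := ∀ (α β : ℝ) (a a1 a2 f f1 f2 f3 : ℝ → ℝ), α ≤ β →
  (∀ x ∈ Icc α β, HasDerivAt a (a1 x) x ∧ HasDerivAt f (f1 x) x ∧ HasDerivAt f1 (f2 x) x ∧ f1 x ≠ 0) →
  ContinuousOn a1 (Icc α β) → ContinuousOn f2 (Icc α β) →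
  ‖∫ x in α..β, (a x : ℂ) * ee (f x)‖ ≤ |a β| / |f1 β| + |a α| / |f1 α| +
    ∫ x in α..β, (|a1 x| / |f1 x| + |a x| * |f2 x| / f1 x ^ 2) ∧
  ((∀ x ∈ Icc α β, HasDerivAt a1 (a2 x) x ∧ HasDerivAt f2 (f3 x) x) →
    ContinuousOn a2 (Icc α β) → ContinuousOn f3 (Icc α β) →
    ‖∫ x in α..β, (a x : ℂ) * ee (f x)‖ ≤ |a β| / |f1 β| + |a α| / |f1 α| +
      (|a1 β| / f1 β ^ 2 + |a β| * |f2 β| / |f1 β| ^ 3) + (|a1 α| / f1 α ^ 2 + |a α| * |f2 α| / |f1 α| ^ 3) +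
      3 * ∫ x in α..β, (|a2 x| / f1 x ^ 2 + |a1 x| * |f2 x| / |f1 x| ^ 3 + |a x| * f2 x ^ 2 / f1 x ^ 4 +
        |a x| * |f3 x| / |f1 x| ^ 3))

/-- ITEM AL (amplitude lemma; uses StVp, StV2).  `I(x) = ∫_c^b κ(w) e(xw - Z g(w)) dw`.
(1) `|I| ≤ C/√Z`: StV2 with `μ = Z/B` (`f'' = -Z g''`) and StVp (`|κ(b)| + D(b-c)`, `D = B`).
(2) Let `w* = ws ∈ [c,b]`, `x = Z g'(w*)`, and `Φ' = w*` at `x`.  Then `A(t) = e(-Φ(t)) I(t)` has derivative at `x`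
`A' = 2πi ∫ κ(w) (w - w*) e(x w - Z g(w) - Φ(x)) dw` (differentiation under the integral sign).  With
`q(w) = ∫_0^1 g''(w* + σ(w - w*)) dσ ≥ 1/B` one has `g'(w) - g'(w*) = (w - w*) q(w)`, so the `w`-derivative of the phase is
`x - Z g'(w) = -Z (w - w*) q(w)` and `2πi (w - w*) e(phase) = -(1/(Z q(w))) d/dw e(phase)`.  Integrate by parts
(`κ = 0` at the end points): `A' = (1/Z) ∫ (κ/q)'(w) e(phase) dw`.  Now StVp with amplitude `(κ/q)'` (zero at the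
end points, derivative `(κ/q)'' = κ''/q - 2κ'q'/q² + κ(2q'²/q³ - q''/q²)` bounded) and StV2:
`|A'| ≤ (1/Z) C/√Z`.  Here `q'(w) = ∫ σ g3`, `q''(w) = ∫ σ² g4` (for `w` in the open interval; `κ/q`, `(κ/q)'` are
continuous on `[c,b]`). -/
def StAL : Prop := ∀ c b B : ℝ, 0 < c → c < b → 1 ≤ B → ∃ C : ℝ, 1 ≤ C ∧
  ∀ (κ κ1 κ2 g g1 g2 g3 g4 : ℝ → ℝ) (Z : ℝ), 0 < Z →
  (∀ w ∈ Icc c b, HasDerivAt κ (κ1 w) w ∧ HasDerivAt κ1 (κ2 w) w ∧ HasDerivAt g (g1 w) w ∧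
    HasDerivAt g1 (g2 w) w ∧ HasDerivAt g2 (g3 w) w ∧ HasDerivAt g3 (g4 w) w) →
  ContinuousOn κ2 (Icc c b) → ContinuousOn g4 (Icc c b) →
  κ c = 0 → κ b = 0 → κ1 c = 0 → κ1 b = 0 →
  (∀ w ∈ Icc c b, |κ w| ≤ B ∧ |κ1 w| ≤ B ∧ |κ2 w| ≤ B ∧ 1 / B ≤ g2 w ∧ |g3 w| ≤ B ∧ |g4 w| ≤ B) →
  (∀ x : ℝ, ‖∫ w in c..b, (κ w : ℂ) * ee (x * w - Z * g w)‖ ≤ C / Real.sqrt Z) ∧
  (∀ (x : ℝ) (Φ : ℝ → ℝ) (w0 : ℝ), w0 ∈ Icc c b → Z * g1 w0 = x → HasDerivAt Φ w0 x →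
    ∃ A' : ℂ, HasDerivAt (fun t => ee (-(Φ t)) * ∫ w in c..b, (κ w : ℂ) * ee (t * w - Z * g w)) A' x ∧
      ‖A'‖ ≤ C / (Z * Real.sqrt Z))

/-! ### Block K: the kernel -/

/-- ITEM Ka (elementary facts on the frequencies and the chirps).  `nn X v = 4 X² sinh²(v/4X)`;
`X sinh(ws/(2X)) = x/m`; `Ph' = ws + x ws' - m n'(ws) ws' = ws`. -/
def StKa : Prop := ∀ X : ℝ, 0 < X →
  (∀ y, 0 ≤ y → nn X (vv X y) = y) ∧ (∀ v, 0 ≤ v → vv X (nn X v) = v) ∧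
  (∀ v, HasDerivAt (nn X) (nd X v) v) ∧ (∀ v, HasDerivAt (nd X) (Real.cosh (v / (2 * X)) / 2) v) ∧
  (∀ y, 0 < y → HasDerivAt (vv X) (1 / (Real.sqrt y * Real.sqrt (1 + y / (4 * X ^ 2)))) y) ∧
  (∀ v, 0 ≤ v → nd X v = Real.sqrt (nn X v) * Real.sqrt (1 + nn X v / (4 * X ^ 2))) ∧
  (∀ m x : ℝ, 0 < m → nd X (ws X m x) = x / m ∧ HasDerivAt (Ph X m) (ws X m x) x ∧
    HasDerivAt (ws X m) (2 / m / Real.sqrt (1 + (x / (m * X)) ^ 2)) x)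

/-- ITEM Kn (normal form of the kernel; uses StKa).  `v = √N w`: `g(w) = nn X (√N w)/N`, `κ(w) = om(g(w)) g1(w)`,
`g1(w) = nd X (√N w)/√N`, `g2 = cosh(√N w/2X)/2`, `g3 = (√N/(4X)) sinh(√N w/2X)`, `g4 = (N/(8X²)) cosh(√N w/2X)`.
Since `√N/X ≤ 1/√C` is small, `g(w) ≈ w²/4` on `[1/2,4]`: `g(1/2) < 1/2`, `g(4) > 5/2`, `g` increasing, `wa = g^{-1}(1/2)`,
`wb = g^{-1}(5/2)`; `g1 = √g √(1+gN/4X²) ∈ [0.7, 1.7]` on `[wa,wb]`; `om(g(w)) = 0` off `(wa,wb)` (for `w ≥ 0`; put `κ = 0` for `w < 0`). -/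
def StKn : Prop := ∃ C B : ℝ, 1 ≤ C ∧ 1 ≤ B ∧ ∀ X N : ℝ, 1 ≤ N → 0 < X → C * N ≤ X ^ 2 →
  ∃ (κ κ1 κ2 g g1 g2 g3 g4 : ℝ → ℝ) (wa wb : ℝ),
  (∀ w ∈ Icc (1 / 2 : ℝ) 4, HasDerivAt κ (κ1 w) w ∧ HasDerivAt κ1 (κ2 w) w ∧ HasDerivAt g (g1 w) w ∧
    HasDerivAt g1 (g2 w) w ∧ HasDerivAt g2 (g3 w) w ∧ HasDerivAt g3 (g4 w) w) ∧
  ContinuousOn κ2 (Icc (1 / 2 : ℝ) 4) ∧ ContinuousOn g4 (Icc (1 / 2 : ℝ) 4) ∧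
  1 / 2 < wa ∧ wa < wb ∧ wb < 4 ∧
  (∀ w : ℝ, w ∉ Ioo wa wb → κ w = 0 ∧ κ1 w = 0) ∧
  (∀ w ∈ Icc (1 / 2 : ℝ) 4, |κ w| ≤ B ∧ |κ1 w| ≤ B ∧ |κ2 w| ≤ B ∧ 1 / B ≤ g2 w ∧ g2 w ≤ B ∧ |g3 w| ≤ B ∧
    |g4 w| ≤ B ∧ g1 w = nd X (Real.sqrt N * w) / Real.sqrt N) ∧
  (∀ w ∈ Icc wa wb, 7 / 10 ≤ g1 w ∧ g1 w ≤ 17 / 10) ∧
  ∀ (m : ℤ) (x : ℝ), KK X N m x =
    N * ∫ w in (1 / 2 : ℝ)..4, (κ w : ℂ) * ee (x * Real.sqrt N * w - m * N * g w)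

/-- ITEM K2 (kernel, no stationary point; uses StKn, StIP).  `K_m(x) = N ∫_{wa}^{wb} κ(w) e(x√N w - mN g(w)) dw`.
`m = 0`: trivial bound `C N`, and two integrations by parts `N C/(x√N)²`.  `m ≠ 0`, `x/m ∉ [√N/2, 2√N]`: the derivative of
the phase `D(w) = x√N - mN g1(w)` satisfies `|D| ≥ 0.2 |m| N` on `[wa,wb]`, `|D'|, |D''| ≤ C|m|N`, and `κ = κ1 = 0` at
`wa, wb`: two integrations by parts give `N · C/(mN)²`. -/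
def StK2 : Prop := ∃ C : ℝ, 1 ≤ C ∧ ∀ X N : ℝ, 1 ≤ N → 0 < X → C * N ≤ X ^ 2 →
  (∀ x : ℝ, ‖KK X N 0 x‖ ≤ C * N / (1 + |x| * Real.sqrt N) ^ 2) ∧
  (∀ m : ℤ, m ≠ 0 → ∀ x : ℝ, ¬ (Real.sqrt N / 2 ≤ x / m ∧ x / m ≤ 2 * Real.sqrt N) →
    ‖KK X N m x‖ ≤ C / ((m : ℝ) ^ 2 * N))

/-- ITEM K3 (kernel, stationary part; uses StAL, StKn, StKa).  `Z = |m| N`, interval `[1/2, 4]`
(for `m < 0` take the complex conjugate).  `K_m(x) = N I(x√N)`: (1) `|K_m| ≤ N C/√(|m|N)`.  (2) for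
`m√N/2 ≤ x ≤ 2m√N` the point `w* = ws X m x/√N` lies in `[1/2,4]`
(`x/(mX) ≤ 2√N/X` small, `z - z³/6 ≤ arsinh z ≤ z`), `Z g1(w*) = x√N` (`nd X (ws X m x) = x/m`), chain rule with
`Φ(y) = Ph X m (y/√N)`, `Φ' = ws/√N = w*`: `|d/dx (e(-Ph) K_m)| ≤ N √N C/(mN)^{3/2} = C m^{-3/2}`.  (3) dominated convergence. -/
def StK3 : Prop := ∃ C : ℝ, 1 ≤ C ∧ ∀ X N : ℝ, 1 ≤ N → 0 < X → C * N ≤ X ^ 2 →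
  (∀ m : ℤ, m ≠ 0 → ∀ x : ℝ, ‖KK X N m x‖ ≤ C * Real.sqrt (N / |(m : ℝ)|)) ∧
  (∀ m : ℕ, 1 ≤ m → ∀ x : ℝ, m * Real.sqrt N / 2 ≤ x → x ≤ 2 * m * Real.sqrt N →
    ∃ A' : ℂ, HasDerivAt (fun t => ee (-(Ph X m t)) * KK X N m t) A' x ∧
      ‖A'‖ ≤ C / (m * Real.sqrt m)) ∧
  (∀ m : ℤ, Continuous fun x => KK X N m x)

/-- ITEM KP (Poisson summation; uses StKa, StK2).  `f(y) = om(y/N) e(x vv X y)` for `y > 0`, `0` otherwise: smooth, compact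
support in `[N/2, 5N/2]`.  `𝓕 f (m) = ∫ f(y) e(-my) dy = KK X N m x` by the substitution `y = nn X v`.
`Real.tsum_eq_tsum_fourier_of_rpow_decay_of_summable`; summable by StK2 (for `|m| > 2|x|/√N` the point `x/m` is outside). -/
def StKP : Prop := ∃ C : ℝ, 1 ≤ C ∧ ∀ X N x : ℝ, 1 ≤ N → 0 < X → C * N ≤ X ^ 2 →
  (Summable fun m : ℤ => ‖KK X N m x‖) ∧ KS X N x = ∑' m : ℤ, KK X N m x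

/-- ITEM KB (bound for the kernel; uses StK2, StK3, StKP).  `m = 0`: `C N/(1+|x|√N)²`.  `m ≠ 0` with `x/m ∈ [√N/2, 2√N]`:
then `|m| ≤ 2|x|/√N ≤ 8M`, and `∑_{1 ≤ m ≤ 8M} C√(N/m) ≤ C'√(NM)`.  Other `m`: `∑ C/(m²N) ≤ C'/N`. -/
def StKB : Prop := ∃ C : ℝ, 1 ≤ C ∧ ∀ X N M x : ℝ, 1 ≤ N → 0 < X → C * N ≤ X ^ 2 → 1 ≤ M →
  |x| ≤ 4 * M * Real.sqrt N →
  ‖KS X N x‖ ≤ C * (N / (1 + |x| * Real.sqrt N) ^ 2 + Real.sqrt (N * M))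

/-- ITEM KD (decomposition of the kernel; uses StK2, StKP).  `KK (-m) x = conj (KK m (-x))`.  For `|x| ≤ M√N` and `m > 2M` the
point `x` is not in `J_m`; outside `J_m` use StK2 (`∑ C/(m²N) ≤ C'/N`). -/
def StKD : Prop := ∃ C : ℝ, 1 ≤ C ∧ ∀ X N M x : ℝ, 1 ≤ N → 0 < X → C * N ≤ X ^ 2 → 1 ≤ M →
  |x| ≤ M * Real.sqrt N →
  ‖KS X N x - KK X N 0 x -
    ∑ m ∈ Finset.Icc 1 ⌊2 * M⌋₊, (KJ X N m x + (starRingEnd ℂ) (KJ X N m (-x)))‖ ≤ C / N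

/-! ### Block H: the four-fold correlation of the chirps -/

/-- ITEM Hp (pure exponential integral; uses StV1, StV2, StKa).  Put `β = mX`, `ψ = ws X m`:
`ψ' = (2/m)(1+(x/β)²)^{-1/2}`, `ψ'' = -(2/m)(x/β²)(1+(x/β)²)^{-3/2}`, `ψ''' = -(2/m)β^{-2}(1-2(x/β)²)(1+(x/β)²)^{-5/2}`.  For
`|x| ≤ 5m√N` (so `|x/β| ≤ 5√N/X` small): `ψ' ∈ [1/m, 2/m]`, `|ψ''| ≤ 10√N/(m²X²)`,
`-2/(m³X²) ≤ ψ''' ≤ -1/(m³X²)`.  Let `δ = x1+x2-x3-x4`, `α = x3-x1`, `γ = x3-x2`, `p = x-x3`; then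
`x-x1 = p+α`, `x-x2 = p+γ`, `x-x4 = p+α+γ+δ`, `|α|,|γ| ≤ 3m√N/2`, `b-a ≤ 3m√N/2`, and
`DP' = ψ(p+α)+ψ(p+γ)-ψ(p)-ψ(p+α+γ+δ) = -∬_{[0,α]×[0,γ]} ψ''(p+σ+τ) - ∫_0^δ ψ'(p+α+γ+u)du`,
`DP'' = -∬ ψ''' - ∫_0^δ ψ''(p+α+γ+u) du` (all arguments in `[-5m√N, 5m√N]`).
CASE A `|δ| ≥ 20|αγ|√N/(mX²)`: `|DP'| ≥ |δ|/m - 10|αγ|√N/(m²X²) ≥ |δ|/(2m)`, `∫_a^b |DP''| ≤ 2|δ|/m`, StV1:
`‖∫‖ ≤ 10m/|δ|`.  CASE B `|δ| < 20|αγ|√N/(mX²)`: `|∬ψ'''| ≥ |αγ|/(m³X²)` (constant sign),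
`|∫_0^δ ψ''| ≤ 10|δ|√N/(m²X²) ≤ |αγ|/(2m³X²)`, so `|DP''| ≥ |αγ|/(2m³X²)` with constant sign, StV2 and
`|αγ| ≥ |δ|mX²/(20√N)`: `‖∫‖ ≤ 52 m N^{1/4}/√|δ|`; moreover `|δ| ≤ 45 m N√N/X²` in CASE B. -/
def StHp : Prop := ∃ C : ℝ, 1 ≤ C ∧ ∀ (X N : ℝ) (m : ℕ) (x1 x2 x3 x4 a b : ℝ), 1 ≤ N → 0 < X → C * N ≤ X ^ 2 →
  1 ≤ m → a ≤ b →
  (∀ x ∈ Icc a b, ∀ y ∈ ({x1, x2, x3, x4} : Set ℝ), m * Real.sqrt N / 2 ≤ x - y ∧ x - y ≤ 2 * m * Real.sqrt N) →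
  ‖∫ x in a..b, ee (DP X m x1 x2 x3 x4 x)‖ ≤ C * (m * Real.sqrt N) ∧
  (x1 + x2 - x3 - x4 ≠ 0 → ‖∫ x in a..b, ee (DP X m x1 x2 x3 x4 x)‖ ≤
    C * (m / |x1 + x2 - x3 - x4| + if |x1 + x2 - x3 - x4| ≤ C * (m * N * Real.sqrt N / X ^ 2) then
      m * Real.sqrt (Real.sqrt N) / Real.sqrt |x1 + x2 - x3 - x4| else 0))

/-- ITEM H (the correlation is dominated by a function of `δ`; uses StVp, StK3, StHp).  `HH (KJ m) x1..x4` is the integral over the interval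
`[a,b] = ∩ [x_i + m√N/2, x_i + 2m√N]` (if empty, `HH = 0`; if not, `|δ| ≤ 3m√N`) of `A(x-x1)A(x-x2)conj A(x-x3) conj A(x-x4) e(DP x)`,
`A = e(-Ph) KK`.  The product of the four amplitudes is `≤ C(N/m)²` and its derivative `≤ C (N/m)^{3/2} m^{-3/2}`, times
`b - a ≤ 3m√N/2` this is again `C(N/m)²`.  By StVp and StHp: `|HH| ≤ h(δ)`,
`h(u) = C(N/m)² min(m√N, m/|u| + [|u| ≤ C mN√N/X²] m N^{1/4}/√|u|)` for `0 < |u| ≤ 3m√N`, `h(0) = C(N/m)² m√N`, `h = 0` for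
`|u| > 3m√N`.  `∫ min(m√N, m/|u|) ≤ 2m + 2m log(3mN)`, `∫_{|u| ≤ C m N√N/X²} m N^{1/4}/√|u| = C' m√m N/X`. -/
def StH : Prop := ∃ C : ℝ, 1 ≤ C ∧ ∀ (X N : ℝ) (m : ℕ), 1 ≤ N → 0 < X → C * N ≤ X ^ 2 → 1 ≤ m →
  ∃ h : ℝ → ℝ, Measurable h ∧ (∀ u, 0 ≤ h u) ∧ Integrable h ∧
    ∫ u, h u ≤ C * (N ^ 2 / m) * (Real.log (2 + m * N) + Real.sqrt m * N / X) ∧
    ∀ x1 x2 x3 x4 : ℝ, ‖HH (KJ X N m) x1 x2 x3 x4‖ ≤ h (x1 + x2 - x3 - x4)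

/-! ### Block E: energy, duality -/

/-- ITEM E1.  Tonelli and `x4 ↦ u = x1+x2-x3-x4`: the left side is `∫ h(u) g(u) du`,
`g(u) = |{(x1,x2,x3) ∈ W³ : x1+x2-x3-u ∈ W}| = ∫ r(a) r(a-u) da`, `r(a) = |{x ∈ W : x+a ∈ W}|`, and
`2 r(a) r(a-u) ≤ r(a)² + r(a-u)²` gives `g(u) ≤ ∫ r² = g(0) = EE W`. -/
def StE1 : Prop := ∀ W : Set ℝ, MeasurableSet W → ∀ h : ℝ → ENNReal, Measurable h →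
  ∫⁻ x1 in W, ∫⁻ x2 in W, ∫⁻ x3 in W, ∫⁻ x4 in W, h (x1 + x2 - x3 - x4) ≤ (∫⁻ u, h u) * EE W

/-- ITEM E2a (energy, the identity part).  If `x1,x2,x3 ∈ W`, `x1+x2-x3 ∈ W` then `|S(x1+x2-x3)| ≥ V`, so
`V² E ≤ ∫_{W³} |S(x1+x2-x3)|² = ∑_{n,n'} a_n conj a_n' Rh(ν)² conj Rh(ν)`, `ν = v_n - v_n'`, `Rh(ν) = ∫_W e(νx)dx`,
`≤ ∑ ω ω' |Rh|³ ≤ (∑ ω ω' |Rh|²)^{1/2} (∑ ω ω' |Rh|⁴)^{1/2}` (`ω = om(n/N) = 1` for `N < n ≤ 2N`, `ω ≥ 0`, finite sums), and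
`∑ ω ω' |Rh|² = ∫_{W²} |KS(x-y)|²`, `∑ ω ω' |Rh|⁴ = ∫_{W⁴} |KS(x1+x2-x3-x4)|²`. -/
def StE2a : Prop := ∀ (X N L V : ℝ) (a : ℕ → ℂ) (W : Set ℝ), 1 ≤ N → 0 < X →
  0 ≤ V → (∀ n, ‖a n‖ ≤ 1) → MeasurableSet W → W ⊆ Icc 0 L → (∀ x ∈ W, V ≤ ‖SS X N a x‖) →
  V ^ 2 * (EE W).toReal ≤ Real.sqrt (∫ x in W, ∫ y in W, ‖KS X N (x - y)‖ ^ 2) *
    Real.sqrt (∫ x1 in W, ∫ x2 in W, ∫ x3 in W, ∫ x4 in W, ‖KS X N (x1 + x2 - x3 - x4)‖ ^ 2)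

/-- ITEM E2 (energy upper bound, (UP); uses StE2a, StKB, StE1).  By StKB `|KS(u)|² ≤ C(N²/(1+|u|√N)⁴ + NM)` for
`|u| ≤ 2M√N`; `∫ N²/(1+|u|√N)⁴ du ≤ C N√N`; StE1 for the four-fold integral (`E ≤ R³ < ∞`). -/
def StE2 : Prop := ∃ C : ℝ, 1 ≤ C ∧ ∀ (X N M V : ℝ) (a : ℕ → ℂ) (W : Set ℝ), 1 ≤ N → 0 < X → C * N ≤ X ^ 2 → 1 ≤ M →
  0 ≤ V → (∀ n, ‖a n‖ ≤ 1) → MeasurableSet W → W ⊆ Icc 0 (M * Real.sqrt N) → (∀ x ∈ W, V ≤ ‖SS X N a x‖) →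
  V ^ 2 * (EE W).toReal ≤ C * Real.sqrt (N * Real.sqrt N * Rr W + N * M * Rr W ^ 2) *
    Real.sqrt (N * Real.sqrt N * (EE W).toReal + N * M * Rr W ^ 4)

/-- ITEM E3 (duality).  `b(x) = conj(S(x))/|S(x)|` (0 if `S(x) = 0`), `B_n = ∫_W b(x) e(x v_n) dx`: `V R ≤ ∫_W |S| = ∑ a_n B_n ≤ ∑_{N<n≤2N} |B_n|`,
at most `2N` terms, so `V² R² ≤ 2N ∑ om(n/N)|B_n|² = 2N ∫_W ∫_W b(x) conj b(y) KS(x-y)`. -/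
def StE3 : Prop := ∀ (X N M V : ℝ) (a : ℕ → ℂ) (W : Set ℝ), 1 ≤ N → 0 < X → 0 ≤ V → (∀ n, ‖a n‖ ≤ 1) →
  MeasurableSet W → W ⊆ Icc 0 (M * Real.sqrt N) → (∀ x ∈ W, V ≤ ‖SS X N a x‖) →
  ∃ b : ℝ → ℂ, Measurable b ∧ (∀ x, ‖b x‖ ≤ 1) ∧
    V ^ 2 * Rr W ^ 2 ≤ 2 * N * ‖∫ x in W, ∫ y in W, b x * (starRingEnd ℂ) (b y) * KS X N (x - y)‖

/-- ITEM E4 (the `L⁴` inequality; uses StE1).  `F(x) = ∫_W conj b(y) k(x-y) dy`: `|∫_W b F| ≤ ∫_W |F| ≤ R^{3/4} (∫_ℝ |F|⁴)^{1/4}`, and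
`∫_ℝ |F|⁴ = ∫_{W⁴} (±) HH k y1 y2 y3 y4 ≤ ∫_{W⁴} h(y1+y2-y3-y4) ≤ (∫h) E` (Fubini: everything bounded with compact
support). -/
def StE4 : Prop := ∀ (L B : ℝ) (W : Set ℝ) (b k : ℝ → ℂ) (h : ℝ → ℝ), MeasurableSet W → W ⊆ Icc 0 L →
  Measurable b → (∀ x, ‖b x‖ ≤ 1) → Measurable k → (∀ x, ‖k x‖ ≤ B) → (∀ x, k x ≠ 0 → |x| ≤ B) →
  Measurable h → (∀ u, 0 ≤ h u) → Integrable h →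
  (∀ x1 x2 x3 x4 : ℝ, ‖HH k x1 x2 x3 x4‖ ≤ h (x1 + x2 - x3 - x4)) →
  ‖∫ x in W, ∫ y in W, b x * (starRingEnd ℂ) (b y) * k (x - y)‖ ^ 4 ≤
    Rr W ^ 3 * ((∫ u, h u) * (EE W).toReal)

/-- ITEM HM (simple large value theorem; uses StE3, StKB).  `V²R² ≤ 2N ∫∫_{W²} |KS(x-y)| ≤ C(N√N R + N√N √M R²)`
(`∫ N/(1+|u|√N)² du ≤ 2√N`), absorb the second term. -/
def StHM : Prop := ∃ C : ℝ, 1 ≤ C ∧ ∀ (X N M V : ℝ) (a : ℕ → ℂ) (W : Set ℝ), 1 ≤ N → 0 < X → C * N ≤ X ^ 2 → 1 ≤ M →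
  0 < V → C * (N * Real.sqrt N * Real.sqrt M) ≤ V ^ 2 → (∀ n, ‖a n‖ ≤ 1) →
  MeasurableSet W → W ⊆ Icc 0 (M * Real.sqrt N) → (∀ x ∈ W, V ≤ ‖SS X N a x‖) →
  V ^ 2 * Rr W ≤ C * (N * Real.sqrt N)

/-- ITEM DN (energy lower bound, (DOWN); uses StE3, StKD, StK2, StK3, StH, StE4).  Insert StKD in StE3: `K_0` contributes
`2N · C√N R`, the error `2N · (C/N) R² = C' R²`, absorbed by `C ≤ V²` (constant large); each `1 ≤ m ≤ 2M` contributes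
`2 · 2N · (R³ (∫h_m) E)^{1/4}` (StE4 with `k = KJ m`; the conjugate term has the same modulus), `∫h_m ≤ C (N²/m) Lg`
(`log(2+mN) + √m N/X ≤ 2 Lg` for `m ≤ 2M`), `∑_{m ≤ 2M} m^{-1/4} ≤ C M^{3/4}`. -/
def StDN : Prop := ∃ C : ℝ, 1 ≤ C ∧ ∀ (X N M V : ℝ) (a : ℕ → ℂ) (W : Set ℝ), 1 ≤ N → 0 < X → C * N ≤ X ^ 2 → 1 ≤ M →
  0 < V → C ≤ V ^ 2 → (∀ n, ‖a n‖ ≤ 1) →
  MeasurableSet W → W ⊆ Icc 0 (M * Real.sqrt N) → (∀ x ∈ W, V ≤ ‖SS X N a x‖) →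
  V ^ 2 * Rr W ^ 2 ≤ C * (N * Real.sqrt N * Rr W +
    (N ^ 6 * M ^ 3 * Lg X N M * Rr W ^ 3 * (EE W).toReal) ^ (1 / 4 : ℝ))

/-- ITEM LV (the large value theorem; uses StE2, StDN).  Suppose `Rr W ≥ B`.  By continuity of `y ↦ |W ∩ [0,y]|` there is
`W' ⊆ W` with `|W'| = B`; work with `W'`, `R = B`, `E = E(W') < ∞`.  From (UP), as `MB ≤ √N` the first root is `≤ √(2N√N B)`.
Either `N√N E ≥ NMB⁴` and then `V²E ≤ C√(2N√N B)√(2N√N E)`, i.e. `E ≤ 4C²N³B/V⁴`; or `E ≤ MB⁴/√N`.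
(DOWN): `V²B² ≤ 2C·N√N B` contradicts the first hypothesis on `B` (constant large); otherwise
`V⁸B⁸ ≤ 16C⁴N⁶M³Lg B³E`: in the first case `V^12 B⁴ ≤ C' N⁹M³Lg`, in the second `V⁸B ≤ C' N^{11/2}M⁴Lg`:
contradiction to the other two. -/
def StLV : Prop := ∃ C : ℝ, 1 ≤ C ∧ ∀ (X N M V B : ℝ) (a : ℕ → ℂ) (W : Set ℝ), 1 ≤ N → 0 < X → C * N ≤ X ^ 2 →
  1 ≤ M → 0 < V → C ≤ V ^ 2 → 0 < B → M * B ≤ Real.sqrt N → C * (N * Real.sqrt N) ≤ V ^ 2 * B →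
  C * (N ^ 9 * M ^ 3 * Lg X N M) ≤ V ^ 12 * B ^ 4 →
  C * (N ^ 5 * Real.sqrt N * M ^ 4 * Lg X N M) ≤ V ^ 8 * B → (∀ n, ‖a n‖ ≤ 1) →
  MeasurableSet W → W ⊆ Icc 0 (M * Real.sqrt N) → (∀ x ∈ W, V ≤ ‖SS X N a x‖) →
  Rr W < B

/-! ### Block D: the dual formula for short mean squares -/

/-- ITEM Phi.  `ϑ` = even smooth bump with support in `[-1/2,1/2]`, `φ₀(z) = (∫ ϑ(x) cos(xz) dx)²`, which is `≥ c > 0` for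
`|z| ≤ 1` since `cos(xz) ≥ cos(1/2)`; `φ = φ₀/c`; `Θ = (2π/c) ϑ * ϑ` (convolution theorem and Fourier inversion). -/
def StPhi : Prop := ∃ φ Θ : ℝ → ℝ, IsPhi φ Θ

/-- ITEM Dx (expansion).  `|P(t+u)|² = ∑_{a,b ≥ 1} c_a c_b e^{i(t+u) log(b/a)}`, `c_a = e^{-a/K} a^{-1/2}`, `K = T²`, `∑ c_a ≤ 2√K` (EM.StPc);
`∫ e^{iuℓ} φ(u/G) du = G Θ(Gℓ)`.  Diagonal `a = b`; the pairs `(a,b) = (b', b'+k)` and `(b'+k, b')` are complex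
conjugates of each other; `e^{it log(1+k/b)} = e((t/2π) log(1+k/b))`. -/
def StDx : Prop := ∀ φ Θ : ℝ → ℝ, IsPhi φ Θ → ∀ T G t : ℝ, 1 ≤ T → 0 < G →
  (Summable fun p : ℕ × ℕ => ‖ff Θ (T ^ 2) G (t / (2 * Real.pi)) (p.1 + 1) ((p.2 : ℝ) + 1)‖) ∧
  IG φ T G t = G * (Θ 0 * (∑' a : ℕ, Real.exp (-(2 * ((a : ℝ) + 1) / T ^ 2)) / ((a : ℝ) + 1)) +
    2 * (∑' k : ℕ, ∑' b : ℕ, ff Θ (T ^ 2) G (t / (2 * Real.pi)) (k + 1) ((b : ℝ) + 1)).re)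

/-- ITEM Dp (Poisson summation for `f_k`).  `ff k` vanishes for `y ≤ kG/2` (there `G log(1+k/y) ≥ 1`: `e^{1/G} - 1 ≤ 3/(2G)`), is
smooth, and is with its first two derivatives `O(e^{-y/K})`; so `∫ f(y) e(hy) dy = O(1/h²)` and
`Real.tsum_eq_tsum_fourier_of_rpow_decay_of_summable` applies (re-index `h ↦ -h`). -/
def StDp : Prop := ∀ φ Θ : ℝ → ℝ, IsPhi φ Θ → ∀ (K G s : ℝ) (k : ℕ), 1 ≤ K → 2 ≤ G → 1 ≤ k →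
  (Summable fun h : ℤ => ‖∫ y : ℝ, ff Θ K G s k y * ee (h * y)‖) ∧
  ∑' b : ℕ, ff Θ K G s k ((b : ℝ) + 1) = ∑' h : ℤ, ∫ y : ℝ, ff Θ K G s k y * ee (h * y)

/-- ITEM Ds (substitution).  `y = k/(e^l - 1)`, `l ∈ (0,∞)`: `dy = -k/(4 sinh²(l/2)) dl`, `2y+k = k coth(l/2)`,
`√(y(y+k)) = k/(2 sinh(l/2))`, `log(1+k/y) = l`, `hy = (kh/2)coth(l/2) - kh/2`, `e(-kh/2) = (-1)^{kh}`. -/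
def StDs : Prop := ∀ φ Θ : ℝ → ℝ, IsPhi φ Θ → ∀ (K G s : ℝ) (k : ℕ) (h : ℤ), 1 ≤ K → 2 ≤ G → 1 ≤ k →
  ∫ y : ℝ, ff Θ K G s k y * ee (h * y) = (-1 : ℂ) ^ ((k : ℤ) * h) * II Θ K G s k h

/-- ITEM Aa (the amplitude and its derivatives).  `E = e^{-z}`, `z = k coth(l/2)/K`, `l E' = z e^{-z} l/sinh l`; so `|l^j E^{(j)}| ≤ C` for
`j ≤ 2` and `l ≤ 1/2`; `|G^j Θ^{(j)}(Gl)| ≤ C l^{-j}` since `Gl ≤ 1`; `|(1/(2 sinh(l/2)))^{(j)}| ≤ C l^{-1-j}`.  For `l ≥ 1/G` everything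
vanishes (`Θ = 0` on `[1,∞)`, so also the derivatives). -/
def StAa : Prop := ∀ φ Θ : ℝ → ℝ, IsPhi φ Θ → ∃ C : ℝ, 1 ≤ C ∧ ∀ (K G : ℝ) (k : ℕ), 1 ≤ K → 2 ≤ G → 1 ≤ k →
  ∃ a1 a2 : ℝ → ℝ, ContinuousOn a2 (Ioi 0) ∧ ∀ l : ℝ, 0 < l →
    HasDerivAt (fun l => Real.exp (-(k * cth l / K)) * Θ (G * l) / (2 * Real.sinh (l / 2))) (a1 l) l ∧
    HasDerivAt a1 (a2 l) l ∧
    |Real.exp (-(k * cth l / K)) * Θ (G * l) / (2 * Real.sinh (l / 2))| ≤ C / l ∧ |a1 l| ≤ C / l ^ 2 ∧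
    |a2 l| ≤ C / l ^ 3 ∧ (1 / G ≤ l → Θ (G * l) = 0 ∧ a1 l = 0)

/-- ITEM Pf (the phase).  `cth' = -1/(2 sinh²(l/2))`, `cth'' = cosh/(2 sinh³)`, third derivative `-(3 + 2 sinh²)/(4 sinh⁴)`
(arguments `l/2`); `l/2 ≤ sinh(l/2) ≤ 0.506 l` for `0 < l ≤ 1/2`. -/
def StPf : Prop := ∀ l : ℝ, 0 < l →
  HasDerivAt cth (-(1 / (2 * Real.sinh (l / 2) ^ 2))) l ∧
  HasDerivAt (fun l => -(1 / (2 * Real.sinh (l / 2) ^ 2))) (Real.cosh (l / 2) / (2 * Real.sinh (l / 2) ^ 3)) l ∧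
  HasDerivAt (fun l => Real.cosh (l / 2) / (2 * Real.sinh (l / 2) ^ 3))
    (-((3 + 2 * Real.sinh (l / 2) ^ 2) / (4 * Real.sinh (l / 2) ^ 4))) l ∧
  (l ≤ 1 / 2 → 1.9 / l ^ 2 ≤ 1 / (2 * Real.sinh (l / 2) ^ 2) ∧ 1 / (2 * Real.sinh (l / 2) ^ 2) ≤ 2 / l ^ 2 ∧
    Real.cosh (l / 2) / (2 * Real.sinh (l / 2) ^ 3) ≤ 5 / l ^ 3 ∧
    (3 + 2 * Real.sinh (l / 2) ^ 2) / (4 * Real.sinh (l / 2) ^ 4) ≤ 14 / l ^ 4 ∧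
    2 / l ≤ cth l ∧ cth l ≤ 2.1 / l ∧ 1 / (2 * Real.sinh (l / 2)) ≤ 1 / l)

/-- ITEM D0 (`h = 0`; uses StPf).  Summable: `e^{-k coth(l/2)/K} ≤ e^{-2k/(lK)} ≤ e^{-kG/K} e^{-1/(lK)}` for `l ≤ 1/G`, `k ≥ 1`.  Sum under the
integral: `∑_{k≥1} e^{-kz} = 1/(e^z - 1)`, `z = coth(l/2)/K`, `= K tanh(l/2) + b(z)` with `-1/2 ≤ b ≤ 0`, `|b(z)| ≤ 1/z = K tanh(l/2)`.
First part: `Re` of it is `(K/2) ∫_ℝ Θ(Gl) (2cosh(l/2))^{-1} e(sl) dl` (even function), four integrations by parts: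
`≤ C K G³/s⁴ ≤ C` since `G² ≤ T`, `s ≥ T/13`, `K = T²`.  Second part:
`∫_0^{1/G} min(1/2, K tanh(l/2)) (C/(2 sinh(l/2))) dl ≤ C(1 + log K)`. -/
def StD0 : Prop := ∀ φ Θ : ℝ → ℝ, IsPhi φ Θ → ∃ C : ℝ, 2 ≤ C ∧ ∀ T G s : ℝ, C ≤ T → C ≤ G → G ^ 2 ≤ T → s ∈ sI T →
  (Summable fun k : ℕ => ‖II Θ (T ^ 2) G s (k + 1) 0‖) ∧
  |(∑' k : ℕ, II Θ (T ^ 2) G s (k + 1) 0).re| ≤ C * Real.log T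

/-- ITEM Df (no stationary point; uses StAa, StPf, StIP).  `n = kh`; phase `ϕ = s l + (n/2) coth(l/2)`, `ϕ' = s - n/(4 sinh²(l/2))`.  On `(0,1/G]`: for `n < 0`
trivially, and for `n > C T/G²` because `n/(4sinh²(l/2)) ≥ 0.95 nG² ≥ 2s`, one has `|ϕ'| ≥ c|n|/l²`, `|ϕ''| ≤ C|n|/l³`, third derivative `≤ C|n|/l⁴`.
StAa: `|a^{(j)}| ≤ C l^{-1-j}`.  StIP (second part) on `[η, 1/G]`: the boundary terms vanish at `1/G` and are `O(η)` at `η → 0`;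
`|II| ≤ C ∫_0^{1/G} l/n² dl = C/(G²n²)`. -/
def StDf : Prop := ∀ φ Θ : ℝ → ℝ, IsPhi φ Θ → ∃ C : ℝ, 2 ≤ C ∧ ∀ (T G s : ℝ) (k : ℕ) (h : ℤ), C ≤ T → C ≤ G →
  G ^ 2 ≤ T → s ∈ sI T → 1 ≤ k → h ≠ 0 → (h < 0 ∨ C * T / G ^ 2 < (k : ℝ) * h) →
  ‖II Θ (T ^ 2) G s k h‖ ≤ C / (G ^ 2 * ((k : ℝ) * h) ^ 2)

/-- ITEM Dn (near part; uses StAa, StPf, StIP).  `n = kh ≤ C' T/G²`, `l0 = √(n/T) ≤ √C'/G` small.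
`II - JJ = ∫ (E-1) χ(l/l0) Θ/(2sinh) e + ∫ (1-χ(l/l0)) E Θ/(2 sinh) e`.
First: on the support `l ∈ [l0/4, 5l0]`, `|E - 1| ≤ k coth(l/2)/K ≤ 9 k/(l0 K) ≤ 9 √(nT)/T²`, `∫ dl/l ≤ C`.
Second: `1-χ` lives on `l ≤ l0/2` and `l ≥ 9l0/2`; on `(0, l0/2]`: `n/(4 sinh²(l/2)) ≥ 0.95 n/l² ≥ 3.8 T > 2s`, so
`|ϕ'| ≥ c n/l²`, `|ϕ''| ≤ C n/l³`, `|a| ≤ C/l`, `|a'| ≤ C/l²` (also with the factor `1-χ(l/l0)`), one integration by parts: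
`∫_0^{l0/2} C/n dl = C/√(nT)`; on `[9l0/2, 1/G]`: `n/(4 sinh²(l/2)) ≤ n/l² ≤ T/20.25`, `s ≥ T/(4π) ≥ T/12.6`, so `|ϕ'| ≥ c T`,
`|ϕ''| ≤ C n/l³`: `∫ C(1/(l²T) + n/(l⁴T²)) dl ≤ C/√(nT)`. -/
def StDn : Prop := ∀ φ Θ : ℝ → ℝ, IsPhi φ Θ → ∀ C' : ℝ, 1 ≤ C' → ∃ C : ℝ, 2 ≤ C ∧ ∀ (T G s : ℝ) (k h : ℕ), C ≤ T →
  C ≤ G → G ^ 2 ≤ T → s ∈ sI T → 1 ≤ k → 1 ≤ h → (k : ℝ) * h ≤ C' * T / G ^ 2 →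
  ‖II Θ (T ^ 2) G s k (h : ℤ) - JJ Θ T G (k * h) s‖ ≤
    C * (1 / Real.sqrt ((k : ℝ) * h * T) + Real.sqrt ((k : ℝ) * h * T) / T ^ 2)

/-- ITEM DD (dual formula; uses StDx, StDp, StDs, StD0, StDf, StDn).  `∑_a e^{-2a/K}/a ≤ C log T`.  Poisson for each `k`; `h = 0`: StD0;
`h < 0` or `kh > C' T/G²`: StDf, `∑_{k,h} C/(G²(kh)²) ≤ C`; the rest: StDn, `∑_{kh ≤ C'T/G²}
((khT)^{-1/2} + (khT)^{1/2}/T²) ≤ C (1 + log T)/G` (`∑_{kh ≤ Y} (kh)^{-1/2} ≤ 2√Y(1 + log Y)`), and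
`∑_{kh ≤ Y} (-1)^{kh} JJ(kh) = ∑_{n ≤ Y} (-1)^n d(n) JJ(n)`. -/
def StDD : Prop := ∀ φ Θ : ℝ → ℝ, IsPhi φ Θ → ∃ C' C : ℝ, 1 ≤ C' ∧ 2 ≤ C ∧ ∀ T G t : ℝ, C ≤ T → C ≤ G → G ^ 2 ≤ T →
  T / 2 ≤ t → t ≤ 4 * T →
  IG φ T G t ≤ C * G * Real.log T + C * G * ‖DS Θ T G C' t‖

/-- ITEM AM (amplitude of `JJ`; uses StAL, StPf).  `l = l0 w`, `l0 = √(n/T)`, `Z = √(nT)`: `conj (JJ s) = ∫_{1/4}^{19/4} κ(w) e(xw - Z g(w)) dw` with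
`x = -s l0`, `g(w) = (l0/2) coth(l0 w/2)`, `κ(w) = ch(w) Θ(G l0 w) l0/(2 sinh(l0 w/2))`; `g' = -(l0²/4)/sinh²(l0w/2)`,
`g'' = (l0³/4) cosh/sinh³ ≥ 1/B`, `|g'''|,|g''''| ≤ B`, `κ` and two derivatives `≤ B` (`G l0 ≤ √C'`, `l0` small because
`l0 ≤ √C'/G`, `G ≥ C`).  `w* = ls n s/l0 ∈ [1/4, 19/4]` (`s ∈ sI T`, `√(T/s) ∈ [√(π/2), √(4π)]`), `Z g'(w*) = x`,
`Φ(x) = x w* - Z g(w*) = -FF n s`, `dΦ/dx = w*`, i.e. `d/ds FF n s = ls n s`.  StAL: `|JJ| ≤ C (nT)^{-1/4}`,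
`|d/ds (e(-FF) JJ)| ≤ l0 C (nT)^{-3/4} = C (nT)^{-1/4}/T`. -/
def StAM : Prop := ∀ φ Θ : ℝ → ℝ, IsPhi φ Θ → ∀ C' : ℝ, 1 ≤ C' → ∃ C : ℝ, 2 ≤ C ∧ ∀ (T G s : ℝ) (n : ℕ), C ≤ T →
  C ≤ G → G ^ 2 ≤ T → s ∈ sI T → 1 ≤ n → (n : ℝ) ≤ C' * T / G ^ 2 →
  ‖JJ Θ T G n s‖ ≤ C / Real.sqrt (Real.sqrt (n * T)) ∧ HasDerivAt (FF n) (ls n s) s ∧
  ∃ A' : ℂ, HasDerivAt (fun t => ee (-(FF n t)) * JJ Θ T G n t) A' s ∧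
    ‖A'‖ ≤ C / (T * Real.sqrt (Real.sqrt (n * T)))

/-- ITEM Ln (linearisation).  As a function of `ξ` (`s = ξ²`): `d/dξ FF(n, ξ²) = 2ξ ls n ξ² = 4ξ arsinh(√n/2ξ) = vv ξ n`, and
`d²/dξ² = 4(arsinh z - z/√(1+z²))`, `z = √n/(2ξ)`, which lies in `[0, (4/3) z³]`; Taylor. -/
def StLn : Prop := ∀ X x n : ℝ, 0 < X → 0 ≤ x → 0 < n →
  |FF n ((X + x) ^ 2) - FF n (X ^ 2) - x * vv X n| ≤ x ^ 2 * (n * Real.sqrt n) / X ^ 3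

/-- ITEM MV (mean value; uses StVp, StV1, StAM).  Expand the square, `JJ_n = e(FF_n) α_n`.  Diagonal: `≤ N · T · C (NT)^{-1/2}`.
`n ≠ n'`: amplitude `α_n conj α_n'` bounded by `C(NT)^{-1/2}` with derivative `≤ C (NT)^{-1/2}/T` (StVp), phase
`FF_n - FF_n'` with derivative `ls n s - ls n' s`, `|.| ≥ c|√n-√n'|/√s ≥ c'|n-n'|/√(NT)`, second derivative
`-(1/s)(√n/√(4s+n) - √n'/√(4s+n'))` of constant sign (StV1 part 2): `≤ C (NT)^{-1/2} √(NT)/|n-n'|`, sum over `n ≠ n'`: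
`C N log(2N) ≤ C √(NT) log T`. -/
def StMV : Prop := ∀ φ Θ : ℝ → ℝ, IsPhi φ Θ → ∀ C' : ℝ, 1 ≤ C' → ∃ C : ℝ, 2 ≤ C ∧ ∀ (T G N : ℝ) (a : ℕ → ℂ), C ≤ T →
  C ≤ G → G ^ 2 ≤ T → 1 ≤ N → 2 * N ≤ C' * T / G ^ 2 → (∀ n, ‖a n‖ ≤ 1) →
  ∫ s in sI T, ‖SJ Θ T G a N s‖ ^ 2 ≤ C * Real.sqrt (N * T) * Real.log T

/-- ITEM Rp (reproducing kernel; uses EM.StPc).  `η` smooth, `= 1` on `[-1,1]`, compact support; `ρ(u) = (1/2π)∫ η(λ)e^{iλu}dλ` Schwartz,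
`∫ ρ(u) e^{-iλu} du = η(λ)`; `L = 4 log T`, `k(u) = L ρ(Lu)`.  `P(t) - ∫ P(t+u)k(u)du = ∑_n c_n n^{-it}(1 - η(log n/L))`, only
`n > T⁴`, `≤ 2∑_{n>T⁴} e^{-n/T²} ≤ 1`.  Tail `|u| > T^ε`: `|P| ≤ 2T`, `∫_{|u|>T^ε}|k| ≤ C_A T^{-εA}`.  Main part:
Cauchy-Schwarz, `∫|k|² = L∫|ρ|²`. -/
def StRp : Prop := ∀ ε : ℝ, 0 < ε → ∃ C : ℝ, 2 ≤ C ∧ ∀ T t : ℝ, C ≤ T →
  ‖EM.P (T ^ 2) t‖ ^ 2 ≤ C * Real.log T * (∫ u in (-(T ^ ε))..(T ^ ε), ‖EM.P (T ^ 2) (t + u)‖ ^ 2) + C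

/-! ### Block F: assembly -/

/-- ITEM Wc (windows).  Grid `X_j = √(T/4π) + jL`, `0 ≤ j`, `X_j² ∈ sI T`: at most `C√T/L + 1 ≤ C'√T/L` of them; every `s ∈ S` is
`(X_j + x)²` with `x ∈ [0,L]`; the image of a set of measure `≤ B` under `x ↦ (X_j+x)²` has measure `≤ 2√(2T/π) B`
(derivative `2(X_j+x)`, `MeasureTheory.lintegral_image_eq_lintegral_abs_deriv_mul`). -/
def StWc : Prop := ∃ C : ℝ, 1 ≤ C ∧ ∀ (T L B : ℝ) (S : Set ℝ), 1 ≤ T → 0 < L → L ≤ Real.sqrt T → 0 ≤ B →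
  MeasurableSet S → S ⊆ sI T →
  (∀ X : ℝ, 0 < X → X ^ 2 ∈ sI T → Rr {x : ℝ | x ∈ Icc 0 L ∧ (X + x) ^ 2 ∈ S} ≤ B) →
  Rr S ≤ C * (T / L) * B

/-- ITEM Mb (measurability; uses StAM).  `JJ n` is continuous on `sI T` (`JJ = e(FF) · (e(-FF) JJ)`, both differentiable), so
`BS` is closed. -/
def StMb : Prop := ∀ φ Θ : ℝ → ℝ, IsPhi φ Θ → ∀ C' : ℝ, 1 ≤ C' → ∃ C : ℝ, 2 ≤ C ∧ ∀ (T G : ℝ), C ≤ T →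
  C ≤ G → G ^ 2 ≤ T →
  (∀ n : ℕ, 1 ≤ n → (n : ℝ) ≤ C' * T / G ^ 2 → ContinuousOn (JJ Θ T G n) (sI T)) ∧
  ∀ (N u : ℝ) (a : ℕ → ℂ), 1 ≤ N → 2 * N ≤ C' * T / G ^ 2 →
    ContinuousOn (SJ Θ T G a N) (sI T) ∧ MeasurableSet (BS Θ T G a N u)

/-- ITEM Fw (a block on a window is a sum `SS`; uses StAM, StLn).  `a'_n = a_n e(FF n (X²)) α_n(X²)/(C q^{-1})`, `q = (NT)^{1/4}`,
`α_n(s) = e(-FF n s) JJ n s` (zero outside the block).  For `ξ = X + x`: `JJ_n(ξ²) = α_n(ξ²) e(FF n ξ²)`,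
`|α_n(ξ²) - α_n(X²)| ≤ |ξ²-X²| C q^{-1}/T ≤ C q^{-1} x/X` (the segment is inside `sI T`),
`|e(FF n ξ²) - e(FF n X² + x v(n))| ≤ 2π x² n√n/X³` (StLn); at most `2N` terms. -/
def StFw : Prop := ∀ φ Θ : ℝ → ℝ, IsPhi φ Θ → ∀ C' : ℝ, 1 ≤ C' → ∃ C : ℝ, 2 ≤ C ∧ ∀ (T G N X : ℝ) (a : ℕ → ℂ), C ≤ T →
  C ≤ G → G ^ 2 ≤ T → 1 ≤ N → 2 * N ≤ C' * T / G ^ 2 → (∀ n, ‖a n‖ ≤ 1) → 0 < X → X ^ 2 ∈ sI T →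
  ∃ a' : ℕ → ℂ, (∀ n, ‖a' n‖ ≤ 1) ∧ ∀ x : ℝ, 0 ≤ x → (X + x) ^ 2 ∈ sI T →
    ‖SJ Θ T G a N ((X + x) ^ 2) - (C / Real.sqrt (Real.sqrt (N * T)) : ℝ) * SS X N a' x‖ ≤
      C * (N / Real.sqrt (Real.sqrt (N * T))) * (x ^ 2 * (N * Real.sqrt N) / X ^ 3 + x / X)

/-- ITEM Fc (classical range; uses StAM, StFw, StHM, StWc, StMb).  If `N ≤ T^{1/3-2ε}` then `|SJ| ≤ C N^{3/4}T^{-1/4} < 1`: the set is empty.  Otherwise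
`M = T^{1-5ε}/N² ≥ 1`.  Cover `ξ = √s ∈ [√(T/4π), √(2T/π)]` by `≤ C T^{1/2}/(M√N)` windows `[X, X+M√N]` (note `M√N ≤ T^{1/2}`).
In a window the error of StFw is `≤ 1/2` (`N^{3/4}T^{-1/4}(x²N^{3/2}T^{-3/2} + xT^{-1/2}) ≤ C T^{-3ε}`, `x ≤ M√N`), so
`|SS| ≥ V = c u (NT)^{1/4}`; `C N^{3/2}M^{1/2} = C N^{1/2}T^{1/2-5ε/2} ≤ V²`, StHM: measure (in `ξ`) `≤ C N^{3/2}/V² ≤ C N T^{-1/2}u^{-2}`;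
in `s` (`ds = 2ξdξ`) times `C T^{1/2}`.  Total `≤ C T^{-1/2+5ε} N^{5/2} u^{-2}`. -/
def StFc : Prop := ∀ φ Θ : ℝ → ℝ, IsPhi φ Θ → ∀ C' ε : ℝ, 1 ≤ C' → 0 < ε → ε < 1 / 100 → ∃ C : ℝ, 2 ≤ C ∧
  ∀ (T G N u : ℝ) (a : ℕ → ℂ), C ≤ T → C ≤ G → G ^ 2 ≤ T → 1 ≤ N → 2 * N ≤ C' * T / G ^ 2 →
  N ≤ T ^ (1 / 2 - 10 * ε) → (∀ n, ‖a n‖ ≤ 1) → 1 ≤ u →
  u * Rr (BS Θ T G a N u) ≤ C * T ^ (10 * ε) * (N ^ 2 * Real.sqrt N / Real.sqrt T)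

/-- ITEM Fb (the new range; uses StFw, StLV, StWc, StMb).  (VERSION 2, 06:45Z: sharper bound, N up to `T^{1/2+1/150}`.)
`M = T^{1/20}`, `ρ = N/√T`, windows `[X, X+M√N]`, number `≤ C T^{1/2}/(M√N)`; the error of StFw is
`≤ C N^{3/4}T^{-1/4}(M²N^{5/2}T^{-3/2} + M N^{1/2}T^{-1/2}) ≤ 1/2` (exponents `1/10 - 1/8 + 13/600 < 0`).  So `|SS| ≥ V = c u (NT)^{1/4}` on the window
part `W` of the set.  Apply StLV with `B = C₁ T^{ε/2} u^{-2} (ρ + ρ^{3/2} M^{3/4} (1 + √M ρ)^{1/4})`: `Lg ≤ C(log T + √M ρ)`, `X ≍ √T`.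
(i) `C N√N ≤ V²B`: `V² = c²u²(NT)^{1/2}`, i.e. `B ≥ C ρ u^{-2}`.  (ii) `C N⁹M³Lg ≤ V^{12}B⁴ = c u^{12}N³T³B⁴`, i.e. `B⁴ ≥ C ρ⁶M³Lg u^{-12}`.
(iii) `C N^{11/2}M⁴Lg ≤ V⁸B = c u⁸N²T²B`, i.e. `C ρ^{7/2}T^{-1/4}M⁴Lg ≤ u⁸B`, true since `B ≥ u^{-2}ρ^{3/2}M^{3/4}` and
`ρ²·T^{-1/20}(log T + T^{1/40}ρ) ≤ 1/C` (`ρ ≤ T^{1/150}`).  `M B ≤ √N` (`T^{0.11} ≤ T^{1/5}`); `C ≤ V²`.  So `|W| < B`; total measure in `s`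
`≤ C (T/(M√N)) B = C T^{3/4+ε/2} u^{-2} (ρ^{1/2}M^{-1} + ρM^{-1/4}(1+√Mρ)^{1/4})`, and
`ρ^{1/2}M^{-1} ≤ T^{-1/60}`, `ρM^{-1/4} ≤ ρ^{5/4}M^{-1/8}` if `ρ ≥ M^{-1/2}`, `≤ T^{-1/60}` if not. -/
def StFb : Prop := ∀ φ Θ : ℝ → ℝ, IsPhi φ Θ → ∀ C' ε : ℝ, 1 ≤ C' → 0 < ε → ε < 1 / 1000 → ∃ C : ℝ, 2 ≤ C ∧
  ∀ (T G N u : ℝ) (a : ℕ → ℂ), C ≤ T → C ≤ G → G ^ 2 ≤ T → 1 ≤ N → 2 * N ≤ C' * T / G ^ 2 →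
  T ^ (2 / 5 : ℝ) ≤ N → N ≤ T ^ (1 / 2 + 1 / 150 : ℝ) → (∀ n, ‖a n‖ ≤ 1) → 1 ≤ u →
  u * Rr (BS Θ T G a N u) ≤
    C * T ^ (3 / 4 + ε) * (T ^ (-(1 / 160) : ℝ) * (N / Real.sqrt T) ^ (5 / 4 : ℝ) + T ^ (-(1 / 60) : ℝ))

/-- ITEM FJa (from `J(V)` to the dual sum; uses StDD, StRp, StMb, EM.StPc).  `G = V² T^{-ε/4}` (so `G ≥ T^ε ≥ C`, `G² ≤ T`).  Cover `[T,2T]` by disjoint
intervals `Q` of length `G/4`.  If `t ∈ Q`, `t ∈ [T,2T]`, `V ≤ |P(t)| < 2V`, then for every `r ∈ Q`: `IG(r) ≥ ∫_{|u|≤T^ε}|P(t+u)|²du ≥ V²/(C log T)`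
(StRp; `|t + u - r| ≤ G/4 + T^ε ≤ G`, `φ ≥ 1` on `[-1,1]`), so by StDD `‖DS r‖ ≥ (V²/(C log T) - C G log T)/(C G) ≥ T^{ε/8}`, and
`∫_{Q ∩ B_V} |P|² ≤ IG(r) ≤ C G log T ‖DS r‖` for all `r ∈ Q`; average over `r ∈ Q` and sum over `Q`. -/
def StFJa : Prop := ∀ φ Θ : ℝ → ℝ, IsPhi φ Θ → ∀ ε : ℝ, 0 < ε → ε < 1 / 100 → ∃ C' C : ℝ, 1 ≤ C' ∧ 2 ≤ C ∧
  ∀ T V : ℝ, C ≤ T → T ^ ε ≤ V → V ≤ T ^ (1 / 4 : ℝ) →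
  JV T V ≤ C * Real.log T *
    ∫ r in {r : ℝ | r ∈ Icc (T / 2) (4 * T) ∧ T ^ (ε / 8) ≤ ‖DS Θ T (V ^ 2 * T ^ (-(ε / 4))) C' r‖},
      ‖DS Θ T (V ^ 2 * T ^ (-(ε / 4))) C' r‖

/-- ITEM FJb (from the dual sum to blocks; uses StAM, StMb, the divisor bound
`Pool.Agent.Work.MP_cb106b_nt.Ct.divisor_bound`).  Blocks `n ∈ (2^j, 2^{j+1}]` with `2^j < N0 = C'T/G²`, `a_n = c (-1)^n d(n) T^{-ε/32}` for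
`n ≤ N0`, `0` for `n > N0` (`d(n) ≤ C n^{ε/64}`, `n ≤ C'T`), `n = 1` negligible (`‖JJ 1‖ ≤ C T^{-1/4}`); at most `C log T` blocks
(so `‖DS‖ ≤ 1 + C T^{ε/32} ∑_j ‖SJ_j‖`); on the set the largest block has `‖SJ_j‖ ≥ T^{ε/8}/(C T^{ε/32} log T) ≥ 1`,
and `‖DS‖ ≤ C T^{ε/32} log T ‖SJ_j‖`.  Dyadic in `u = 2^i ∈ [1, T]` (`‖SJ‖ ≤ T`): `∫_{s : ‖SJ‖ ≥ 1} ‖SJ‖ ≤ ∑_i 2·2^i Rr(BS 2^i) ≤ C log T · β`;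
`r = 2π s`. -/
def StFJb : Prop := ∀ φ Θ : ℝ → ℝ, IsPhi φ Θ → ∀ ε C' : ℝ, 0 < ε → ε < 1 / 100 → 1 ≤ C' → ∃ C : ℝ, 2 ≤ C ∧
  ∀ T G β : ℝ, C ≤ T → C ≤ G → G ^ 2 ≤ T → 0 ≤ β →
  (∀ (j : ℕ) (a : ℕ → ℂ) (u : ℝ), (∀ n, ‖a n‖ ≤ 1) → 1 ≤ u → 2 * (2 : ℝ) ^ j ≤ 2 * C' * T / G ^ 2 →
    u * Rr (BS Θ T G a (2 ^ j) u) ≤ β) →
  ∫ r in {r : ℝ | r ∈ Icc (T / 2) (4 * T) ∧ T ^ (ε / 8) ≤ ‖DS Θ T G C' r‖}, ‖DS Θ T G C' r‖ ≤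
    C * T ^ (ε / 2) * β

/-- ITEM FJ (combination; uses StFJa, StFJb). -/
def StFJ : Prop := ∀ φ Θ : ℝ → ℝ, IsPhi φ Θ → ∀ ε : ℝ, 0 < ε → ε < 1 / 100 → ∃ C' C : ℝ, 1 ≤ C' ∧ 2 ≤ C ∧
  ∀ T V β : ℝ, C ≤ T → T ^ ε ≤ V → V ≤ T ^ (1 / 4 : ℝ) → 0 ≤ β →
  (∀ (j : ℕ) (a : ℕ → ℂ) (u : ℝ), (∀ n, ‖a n‖ ≤ 1) → 1 ≤ u →
    2 * (2 : ℝ) ^ j ≤ C' * T / (V ^ 2 * T ^ (-(ε / 4))) ^ 2 →
    u * Rr (BS Θ T (V ^ 2 * T ^ (-(ε / 4))) a (2 ^ j) u) ≤ β) →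
  JV T V ≤ C * T ^ ε * β

/-- ITEM JB (bounds for `J(V)`; uses StPhi, StMV, StMb, StFc, StFb, StFJ).  (VERSION 2, 06:45Z: third bound.)  Take `ε' = ε/100` in all ingredients.
Chebyshev and StMV: `u Rr(BS) ≤ u² Rr(BS) ≤ C√(NT) log T` for all blocks.
`N0 ≤ C T^{1+ε'/2}V^{-4}`.  (1): `√(N0 T)`.  (2): if `C N0 ≤ T^{1/2-10ε'}` StFc; if not, `V⁸ ≤ C T^{1+22ε'}` and (1) implies (2)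
with loss `T^{22ε'}`.  (3): `N0 ≤ T^{1/2+1/150}`.  Blocks `N ≤ T^{2/5}`: StMV gives `T^{0.7+ε'}`.  Blocks `N ≥ T^{2/5}`: StFb,
`T^{3/4+ε'}(T^{-1/160}(N0/√T)^{5/4} + T^{-1/60})`, `(N0/√T)^{5/4} = C T^{5/8+5ε'/8}V^{-5}`; and
`T^{11/8-1/160}V^{-5} ≥ T^{3/4-1/80} ≥ T^{3/4-1/60} ≥ T^{0.7+ε}` in the range of (3). -/
def StJB : Prop := ∀ ε : ℝ, 0 < ε → ε < 1 / 100 → ∃ C : ℝ, 2 ≤ C ∧ ∀ T V : ℝ, C ≤ T → T ^ ε ≤ V →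
  V ≤ T ^ (1 / 4 : ℝ) →
  JV T V ≤ C * T ^ (1 + ε) / V ^ 2 ∧ JV T V ≤ C * T ^ (2 + ε) / V ^ 10 ∧
  (T ^ (1 / 8 - 1 / 800 : ℝ) ≤ V → V ≤ T ^ (1 / 8 + 1 / 800 : ℝ) →
    JV T V ≤ C * T ^ (11 / 8 - 1 / 160 + ε) / V ^ 5)

/-- ITEM Sup (convexity bound; uses StPhi, StDD, StRp, StAM, `d(n) ≤ n`).  Suppose `|P(t)| ≥ T^{1/4}`, `t ∈ [T,2T]`; `ε = 1/100`, `G = T^{1/2-ε}`:
`IG(t) ≥ ∫_{|u| ≤ T^ε}|P(t+u)|² ≥ (T^{1/2} - C)/(C log T) > C G log T`, so `|D(t)| ≥ T^{ε}/(C log T)`; but `|D| ≤ ∑_{n ≤ C'T/G²} d(n) C (nT)^{-1/4} ≤ C N0² T^{-1/4} ≤ C T^{4ε-1/4}`: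
contradiction. -/
def StSup : Prop := ∃ C : ℝ, 2 ≤ C ∧ ∀ T t : ℝ, C ≤ T → T ≤ t → t ≤ 2 * T → ‖EM.P (T ^ 2) t‖ < T ^ (1 / 4 : ℝ)

/-- ITEM MA (all moments between 4 and 12; uses StJB, StSup, EM.StZ, EM.StPc).  (VERSION 2, 06:45Z: 5000 replaced by 800.)
`|ζ| ≤ |P| + C` on `[T,2T]`, so `∫|ζ|^A ≤ 2^A (∫|P|^A + C^A T)`.  The part `|P| < T^{ε'}` contributes
`≤ T^{1+Aε'}`.  The rest: `V = 2^j T^{ε'}`, `j ≤ C log T`, `∫_{V ≤ |P| < 2V}|P|^A ≤ (2V)^{A-2} JV T V`.  With `κ = 1/800`: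
`V ≤ T^{1/8-κ}`: `T^{1+ε}V^{A-4} ≤ T^{1+(A-4)/8-(A-4)κ+ε}`; `V ≥ T^{1/8+κ}`: `T^{2+ε}V^{A-12} ≤ T^{1+(A-4)/8-(12-A)κ+ε}`; in between, with
`V = T^{1/8+v}`, `|v| ≤ κ`: `V^{A-2} T^{11/8-1/160+ε} V^{-5} = T^{1+(A-4)/8+(A-7)v-5κ+ε} ≤ T^{1+(A-4)/8-min(12-A, A-2)κ+ε}`.
Sum over dyadic `T`, continuity for bounded `T`. -/
def StMA : Prop := ∀ A ε : ℝ, 4 ≤ A → A ≤ 12 → 0 < ε → ∃ C : ℝ, ∀ T : ℝ, 1 ≤ T →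
  ∫ t in (0 : ℝ)..T, ‖riemannZeta (1 / 2 + t * Complex.I)‖ ^ A ≤
    C * T ^ (1 + (A - 4) / 8 - min (A - 4) (12 - A) / 800 + ε)

/-- THE RESULT for the eighth moment (StMA with `A = 8`). -/
def StMain : Prop := ∀ ε : ℝ, 0 < ε → ∃ C : ℝ, ∀ T : ℝ, 1 ≤ T →
  ∫ t in (0 : ℝ)..T, ‖riemannZeta (1 / 2 + t * Complex.I)‖ ^ 8 ≤ C * T ^ (3 / 2 - 1 / 200 + ε)

end Pool.Agent.Work.MP_56b8f5_nt.UB
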