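import Pool.Agent.Work.MP_56b8f5_nt.UB.Stmts

/-!
MP_56b8f5_nt, block UB, item AM: amplitude of `JJ`.
-/

open MeasureTheory Set Filter Topology

noncomputable section

namespace Pool.Agent.Work.MP_56b8f5_nt.UB

namespace AM_aux

lemma conj_ee (x : ℝ) : (starRingEnd ℂ) (ee x) = ee (-x) := by
  unfold ee
  rw [← Complex.exp_conj]
  congr 1
  rw [map_mul, Complex.conj_ofReal, Complex.conj_I]
  push_cast
  ring

lemma sinh_le {u : ℝ} (h0 : 0 ≤ u) (h1 : u ≤ 1) : Real.sinh u ≤ 3 / 2 * u := by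
  rw [Real.sinh_eq]
  have h2 := Real.abs_exp_sub_one_sub_id_le (x := u) (by rw [abs_of_nonneg h0]; exact h1)
  have h3 := (abs_le.mp h2).2
  have h4 := Real.add_one_le_exp (-u)
  nlinarith

lemma le_sinh {u : ℝ} (h0 : 0 ≤ u) : u ≤ Real.sinh u := Real.self_le_sinh_iff.mpr h0

lemma cosh_le {u : ℝ} (h0 : 0 ≤ u) (h1 : u ≤ 1) : Real.cosh u ≤ 2 := by
  rw [Real.cosh_eq]
  have h2 := Real.abs_exp_sub_one_sub_id_le (x := u) (by rw [abs_of_nonneg h0]; exact h1)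
  have h2' := Real.abs_exp_sub_one_sub_id_le (x := -u) (by rw [abs_neg, abs_of_nonneg h0]; exact h1)
  have h3 := (abs_le.mp h2).2
  have h3' := (abs_le.mp h2').2
  nlinarith

lemma hasDeriv_lin (l0 w : ℝ) : HasDerivAt (fun w : ℝ => l0 * w / 2) (l0 / 2) w := by
  have h := ((hasDerivAt_id w).const_mul l0).div_const 2
  simpa using h

lemma hasDeriv_sinh (l0 w : ℝ) :
    HasDerivAt (fun w : ℝ => Real.sinh (l0 * w / 2)) (Real.cosh (l0 * w / 2) * (l0 / 2)) w :=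
  (hasDeriv_lin l0 w).sinh

lemma hasDeriv_cosh (l0 w : ℝ) :
    HasDerivAt (fun w : ℝ => Real.cosh (l0 * w / 2)) (Real.sinh (l0 * w / 2) * (l0 / 2)) w :=
  (hasDeriv_lin l0 w).cosh

section fixed

variable (l0 : ℝ)

def g (w : ℝ) : ℝ := l0 / 2 * cth (l0 * w)
def g1 (w : ℝ) : ℝ := -(l0 ^ 2 / 4) / Real.sinh (l0 * w / 2) ^ 2
def g2 (w : ℝ) : ℝ := l0 ^ 3 / 4 * Real.cosh (l0 * w / 2) / Real.sinh (l0 * w / 2) ^ 3
def g3 (w : ℝ) : ℝ :=
  -(l0 ^ 4 / 8) * (3 + 2 * Real.sinh (l0 * w / 2) ^ 2) / Real.sinh (l0 * w / 2) ^ 4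
def g4 (w : ℝ) : ℝ :=
  l0 ^ 5 / 4 * ((Real.sinh (l0 * w / 2) ^ 2 + 3) * Real.cosh (l0 * w / 2)) /
    Real.sinh (l0 * w / 2) ^ 5
def m0 (w : ℝ) : ℝ := l0 / (2 * Real.sinh (l0 * w / 2))
def m1 (w : ℝ) : ℝ := -(l0 ^ 2 / 4) * Real.cosh (l0 * w / 2) / Real.sinh (l0 * w / 2) ^ 2
def m2 (w : ℝ) : ℝ :=
  l0 ^ 3 / 8 * (2 + Real.sinh (l0 * w / 2) ^ 2) / Real.sinh (l0 * w / 2) ^ 3

variable {l0}

lemma sinh_pos' {w : ℝ} (h : 0 < l0) (hw : 0 < w) : 0 < Real.sinh (l0 * w / 2) :=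
  Real.sinh_pos_iff.mpr (by positivity)

lemma hg {w : ℝ} (h : 0 < l0) (hw : 0 < w) : HasDerivAt (g l0) (g1 l0 w) w := by
  have hs := sinh_pos' h hw
  have h1 := ((hasDeriv_cosh l0 w).div (hasDeriv_sinh l0 w) hs.ne').const_mul (l0 / 2)
  have h2 : HasDerivAt (g l0) (l0 / 2 * ((Real.sinh (l0 * w / 2) * (l0 / 2) *
      Real.sinh (l0 * w / 2) - Real.cosh (l0 * w / 2) * (Real.cosh (l0 * w / 2) * (l0 / 2))) /
      Real.sinh (l0 * w / 2) ^ 2)) w := h1
  refine h2.congr_deriv ?_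
  unfold g1
  have hc := Real.cosh_sq (l0 * w / 2)
  set S := Real.sinh (l0 * w / 2)
  set D := Real.cosh (l0 * w / 2)
  field_simp
  linear_combination (-4 : ℝ) * hc

lemma hg1 {w : ℝ} (h : 0 < l0) (hw : 0 < w) : HasDerivAt (g1 l0) (g2 l0 w) w := by
  have hs := sinh_pos' h hw
  have h1 := (hasDerivAt_const w (-(l0 ^ 2 / 4))).div ((hasDeriv_sinh l0 w).pow 2)
    (pow_ne_zero 2 hs.ne')
  refine HasDerivAt.congr_deriv (f := g1 l0) h1 ?_
  unfold g2
  simp only [Pi.pow_apply]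
  set S := Real.sinh (l0 * w / 2)
  set D := Real.cosh (l0 * w / 2)
  field_simp
  ring

lemma hg2 {w : ℝ} (h : 0 < l0) (hw : 0 < w) : HasDerivAt (g2 l0) (g3 l0 w) w := by
  have hs := sinh_pos' h hw
  have h1 := ((hasDeriv_cosh l0 w).const_mul (l0 ^ 3 / 4)).div ((hasDeriv_sinh l0 w).pow 3)
    (pow_ne_zero 3 hs.ne')
  refine HasDerivAt.congr_deriv (f := g2 l0) h1 ?_
  unfold g3
  simp only [Pi.pow_apply]
  have hc := Real.cosh_sq (l0 * w / 2)
  set S := Real.sinh (l0 * w / 2)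
  set D := Real.cosh (l0 * w / 2)
  field_simp
  linear_combination (-24 * S ^ 2) * hc

lemma hg3 {w : ℝ} (h : 0 < l0) (hw : 0 < w) : HasDerivAt (g3 l0) (g4 l0 w) w := by
  have hs := sinh_pos' h hw
  have h1 := (((((hasDeriv_sinh l0 w).pow 2).const_mul 2).const_add 3).const_mul
    (-(l0 ^ 4 / 8))).div ((hasDeriv_sinh l0 w).pow 4) (pow_ne_zero 4 hs.ne')
  refine HasDerivAt.congr_deriv (f := g3 l0) h1 ?_
  unfold g4
  simp only [Pi.pow_apply]
  set S := Real.sinh (l0 * w / 2)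
  set D := Real.cosh (l0 * w / 2)
  field_simp
  ring

lemma hm0 {w : ℝ} (h : 0 < l0) (hw : 0 < w) : HasDerivAt (m0 l0) (m1 l0 w) w := by
  have hs := sinh_pos' h hw
  have h1 := (hasDerivAt_const w l0).div ((hasDeriv_sinh l0 w).const_mul 2)
    (by positivity : (2 * Real.sinh (l0 * w / 2)) ≠ 0)
  refine HasDerivAt.congr_deriv (f := m0 l0) h1 ?_
  unfold m1
  set S := Real.sinh (l0 * w / 2)
  set D := Real.cosh (l0 * w / 2)
  field_simp
  ring

lemma hm1 {w : ℝ} (h : 0 < l0) (hw : 0 < w) : HasDerivAt (m1 l0) (m2 l0 w) w := by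
  have hs := sinh_pos' h hw
  have h1 := ((hasDeriv_cosh l0 w).const_mul (-(l0 ^ 2 / 4))).div ((hasDeriv_sinh l0 w).pow 2)
    (pow_ne_zero 2 hs.ne')
  refine HasDerivAt.congr_deriv (f := m1 l0) h1 ?_
  unfold m2
  simp only [Pi.pow_apply]
  have hc := Real.cosh_sq (l0 * w / 2)
  set S := Real.sinh (l0 * w / 2)
  set D := Real.cosh (l0 * w / 2)
  field_simp
  linear_combination (16 * S) * hc

/-- elementary bounds -/
lemma bnds {w : ℝ} (h : 0 < l0) (h4 : l0 ≤ 1 / 4) (hw1 : 1 / 4 ≤ w) (hw2 : w ≤ 19 / 4) :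
    |m0 l0 w| ≤ 4 ∧ |m1 l0 w| ≤ 32 ∧ |m2 l0 w| ≤ 192 ∧ 1 / 200 ≤ g2 l0 w ∧
      |g3 l0 w| ≤ 2560 ∧ |g4 l0 w| ≤ 65536 := by
  have hw : 0 < w := by linarith
  have hs := sinh_pos' h hw
  have hu0 : 0 < l0 * w / 2 := by positivity
  have hu1 : l0 * w / 2 ≤ 1 := by nlinarith
  have hS1 := le_sinh hu0.le
  have hS2 := sinh_le hu0.le hu1
  have hD1 := Real.one_le_cosh (l0 * w / 2)
  have hD2 := cosh_le hu0.le hu1
  have hS3 : Real.sinh (l0 * w / 2) ≤ 1 := by nlinarith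
  unfold m0 m1 m2 g2 g3 g4
  set S := Real.sinh (l0 * w / 2)
  set D := Real.cosh (l0 * w / 2)
  have hl : l0 ≤ 8 * S := by nlinarith
  have hl2 : l0 ^ 2 ≤ (8 * S) ^ 2 := pow_le_pow_left₀ h.le hl 2
  have hl3 : l0 ^ 3 ≤ (8 * S) ^ 3 := pow_le_pow_left₀ h.le hl 3
  have hl4 : l0 ^ 4 ≤ (8 * S) ^ 4 := pow_le_pow_left₀ h.le hl 4
  have hl5 : l0 ^ 5 ≤ (8 * S) ^ 5 := pow_le_pow_left₀ h.le hl 5
  have hSl : S ≤ 57 / 16 * l0 := by nlinarith
  have hSl3 : S ^ 3 ≤ (57 / 16 * l0) ^ 3 := pow_le_pow_left₀ hs.le hSl 3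
  have hSS : S ^ 2 ≤ 1 := by nlinarith
  refine ⟨?_, ?_, ?_, ?_, ?_, ?_⟩
  · rw [abs_of_nonneg (by positivity), div_le_iff₀ (by positivity)]
    linarith
  · rw [abs_div, abs_mul, abs_neg, abs_of_nonneg (by positivity : 0 ≤ l0 ^ 2 / 4),
      abs_of_nonneg (by positivity : 0 ≤ S ^ 2), abs_of_nonneg (by positivity : 0 ≤ D),
      div_le_iff₀ (by positivity)]
    nlinarith [mul_le_mul hl2 hD2 (by positivity) (by positivity)]
  · rw [abs_of_nonneg (by positivity), div_le_iff₀ (by positivity)]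
    have h5 : (2 + S ^ 2) ≤ 3 := by linarith
    nlinarith [mul_le_mul hl3 h5 (by positivity) (by positivity)]
  · rw [le_div_iff₀ (by positivity)]
    have h6 : l0 ^ 3 * 1 ≤ l0 ^ 3 * D := by gcongr
    nlinarith [pow_pos h 3]
  · rw [abs_div, abs_mul, abs_neg, abs_of_nonneg (by positivity : 0 ≤ l0 ^ 4 / 8),
      abs_of_nonneg (by positivity : 0 ≤ S ^ 4), abs_of_nonneg (by positivity : 0 ≤ 3 + 2 * S ^ 2),
      div_le_iff₀ (by positivity)]
    have h5 : (3 + 2 * S ^ 2) ≤ 5 := by linarith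
    nlinarith [mul_le_mul hl4 h5 (by positivity) (by positivity)]
  · rw [abs_of_nonneg (by positivity), div_le_iff₀ (by positivity)]
    have h5 : (S ^ 2 + 3) * D ≤ 4 * 2 :=
      mul_le_mul (by linarith) hD2 (by positivity) (by norm_num)
    nlinarith [mul_le_mul hl5 h5 (by positivity) (by positivity)]

lemma cont_g4 (h : 0 < l0) : ContinuousOn (g4 l0) (Icc (1 / 4) (19 / 4)) := by
  unfold g4
  refine ContinuousOn.div ?_ ?_ ?_
  · fun_prop
  · fun_prop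
  · intro w hw
    exact pow_ne_zero _ (sinh_pos' h (by linarith [hw.1])).ne'

lemma cont_m0 (h : 0 < l0) : ContinuousOn (m0 l0) (Icc (1 / 4) (19 / 4)) := by
  unfold m0
  refine ContinuousOn.div ?_ ?_ ?_
  · fun_prop
  · fun_prop
  · intro w hw
    have := (sinh_pos' h (by linarith [hw.1] : 0 < w))
    positivity

lemma cont_m1 (h : 0 < l0) : ContinuousOn (m1 l0) (Icc (1 / 4) (19 / 4)) := by
  unfold m1
  refine ContinuousOn.div ?_ ?_ ?_
  · fun_prop
  · fun_prop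
  · intro w hw
    exact pow_ne_zero _ (sinh_pos' h (by linarith [hw.1])).ne'

lemma cont_m2 (h : 0 < l0) : ContinuousOn (m2 l0) (Icc (1 / 4) (19 / 4)) := by
  unfold m2
  refine ContinuousOn.div ?_ ?_ ?_
  · fun_prop
  · fun_prop
  · intro w hw
    exact pow_ne_zero _ (sinh_pos' h (by linarith [hw.1])).ne'

end fixed

lemma smooth_facts {f : ℝ → ℝ} (hf : ContDiff ℝ ((⊤ : ℕ∞) : WithTop ℕ∞) f) :
    (∀ w, HasDerivAt f (deriv f w) w) ∧ (∀ w, HasDerivAt (deriv f) (deriv (deriv f) w) w) ∧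
      Continuous f ∧ Continuous (deriv f) ∧ Continuous (deriv (deriv f)) := by
  have h1 := contDiff_infty_iff_deriv.mp hf
  have h2 := contDiff_infty_iff_deriv.mp h1.2
  exact ⟨fun w => (h1.1 w).hasDerivAt, fun w => (h2.1 w).hasDerivAt, hf.continuous,
    h1.2.continuous, h2.2.continuous⟩

lemma ch_cd : ContDiff ℝ ((⊤ : ℕ∞) : WithTop ℕ∞) ch := chB.contDiff

lemma ch_zero {w : ℝ} (h : w ≤ 1 / 4 ∨ 19 / 4 ≤ w) : ch w = 0 := by
  refine chB.zero_of_le_dist ?_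
  show (9 / 4 : ℝ) ≤ dist w (5 / 2)
  rw [Real.dist_eq]
  rcases h with h | h
  · rw [abs_of_nonpos (by linarith)]; linarith
  · rw [abs_of_nonneg (by linarith)]; linarith

lemma ch_nonneg (w : ℝ) : 0 ≤ ch w := chB.nonneg

lemma ch1_zero {w : ℝ} (h : w ≤ 1 / 4 ∨ 19 / 4 ≤ w) : deriv ch w = 0 := by
  apply IsLocalMin.deriv_eq_zero
  refine Filter.Eventually.of_forall fun y => ?_
  rw [ch_zero h]
  exact ch_nonneg y

/-- the amplitude without the factor `m0` -/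
def A0 (Θ : ℝ → ℝ) (q w : ℝ) : ℝ := ch w * Θ (q * w)
def A1 (Θ : ℝ → ℝ) (q w : ℝ) : ℝ := deriv ch w * Θ (q * w) + ch w * (deriv Θ (q * w) * q)
def A2 (Θ : ℝ → ℝ) (q w : ℝ) : ℝ :=
  deriv (deriv ch) w * Θ (q * w) + deriv ch w * (deriv Θ (q * w) * q) +
    (deriv ch w * (deriv Θ (q * w) * q) + ch w * (deriv (deriv Θ) (q * w) * q * q))

lemma hasDeriv_comp {f : ℝ → ℝ} {f' : ℝ} (q w : ℝ) (h : HasDerivAt f f' (q * w)) :
    HasDerivAt (fun w => f (q * w)) (f' * q) w := by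
  have h1 : HasDerivAt (fun w : ℝ => q * w) q w := by
    simpa using (hasDerivAt_id w).const_mul q
  exact h.comp w h1

lemma hA0 {Θ : ℝ → ℝ} (hΘ : ContDiff ℝ ((⊤ : ℕ∞) : WithTop ℕ∞) Θ) (q w : ℝ) :
    HasDerivAt (A0 Θ q) (A1 Θ q w) w :=
  ((smooth_facts ch_cd).1 w).mul (hasDeriv_comp q w ((smooth_facts hΘ).1 _))

lemma hA1 {Θ : ℝ → ℝ} (hΘ : ContDiff ℝ ((⊤ : ℕ∞) : WithTop ℕ∞) Θ) (q w : ℝ) :
    HasDerivAt (A1 Θ q) (A2 Θ q w) w :=
  (((smooth_facts ch_cd).2.1 w).mul (hasDeriv_comp q w ((smooth_facts hΘ).1 _))).add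
    (((smooth_facts ch_cd).1 w).mul
      ((hasDeriv_comp q w ((smooth_facts hΘ).2.1 _)).mul_const q))

lemma cA {Θ : ℝ → ℝ} (hΘ : ContDiff ℝ ((⊤ : ℕ∞) : WithTop ℕ∞) Θ) (q : ℝ) :
    Continuous (A0 Θ q) ∧ Continuous (A1 Θ q) ∧ Continuous (A2 Θ q) := by
  obtain ⟨-, -, c0, c1, c2⟩ := smooth_facts ch_cd
  obtain ⟨-, -, d0, d1, d2⟩ := smooth_facts hΘ
  refine ⟨?_, ?_, ?_⟩
  · unfold A0; fun_prop
  · unfold A1; fun_prop
  · unfold A2; fun_prop

lemma bnd_exists {Θ : ℝ → ℝ} (hΘ : ContDiff ℝ ((⊤ : ℕ∞) : WithTop ℕ∞) Θ) (C' : ℝ) :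
    ∃ D : ℝ, 1 ≤ D ∧ ∀ q w : ℝ, 0 ≤ q → q ≤ C' → w ∈ Icc (1 / 4 : ℝ) (19 / 4) →
      |A0 Θ q w| ≤ D ∧ |A1 Θ q w| ≤ D ∧ |A2 Θ q w| ≤ D := by
  obtain ⟨-, -, c0, c1, c2⟩ := smooth_facts ch_cd
  obtain ⟨-, -, d0, d1, d2⟩ := smooth_facts hΘ
  have key : ∀ F : ℝ × ℝ → ℝ, Continuous F → ∃ D : ℝ, ∀ z ∈ Icc (0 : ℝ) C' ×ˢ Icc (1 / 4 : ℝ) (19 / 4),
      ‖F z‖ ≤ D := fun F hF =>
    (isCompact_Icc.prod isCompact_Icc).exists_bound_of_continuousOn hF.continuousOn
  obtain ⟨D0, h0⟩ := key (fun z => A0 Θ z.1 z.2) (by unfold A0; fun_prop)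
  obtain ⟨D1, h1⟩ := key (fun z => A1 Θ z.1 z.2) (by unfold A1; fun_prop)
  obtain ⟨D2, h2⟩ := key (fun z => A2 Θ z.1 z.2) (by unfold A2; fun_prop)
  refine ⟨max 1 (max D0 (max D1 D2)), le_max_left _ _, fun q w hq0 hq1 hw => ⟨?_, ?_, ?_⟩⟩
  · exact (h0 (q, w) ⟨⟨hq0, hq1⟩, hw⟩).trans (by simp)
  · exact (h1 (q, w) ⟨⟨hq0, hq1⟩, hw⟩).trans (by simp)
  · exact (h2 (q, w) ⟨⟨hq0, hq1⟩, hw⟩).trans (by simp)

/-- the amplitude -/
def ka (Θ : ℝ → ℝ) (q l0 w : ℝ) : ℝ := A0 Θ q w * m0 l0 w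
def ka1 (Θ : ℝ → ℝ) (q l0 w : ℝ) : ℝ := A1 Θ q w * m0 l0 w + A0 Θ q w * m1 l0 w
def ka2 (Θ : ℝ → ℝ) (q l0 w : ℝ) : ℝ :=
  A2 Θ q w * m0 l0 w + A1 Θ q w * m1 l0 w + (A1 Θ q w * m1 l0 w + A0 Θ q w * m2 l0 w)

/-- The normal form of `JJ`. -/
lemma JJ_eq (Θ : ℝ → ℝ) (T G : ℝ) (n : ℕ) (hT : 0 < T) (hn : 1 ≤ n) (s : ℝ) :
    JJ Θ T G n s = (starRingEnd ℂ) (∫ w in (1 / 4 : ℝ)..(19 / 4),
      (ka Θ (G * Real.sqrt (n / T)) (Real.sqrt (n / T)) w : ℂ) *
        ee ((-(s * Real.sqrt (n / T))) * w - Real.sqrt (n * T) * g (Real.sqrt (n / T)) w)) := by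
  have hn0 : (0 : ℝ) < n := by exact_mod_cast hn
  set l0 := Real.sqrt (n / T) with hl0
  have hl : 0 < l0 := Real.sqrt_pos.mpr (by positivity)
  have hZl : Real.sqrt (n * T) * l0 = n := by
    rw [hl0, ← Real.sqrt_mul (by positivity)]
    have : (n : ℝ) * T * (n / T) = (n : ℝ) ^ 2 := by field_simp
    rw [this, Real.sqrt_sq hn0.le]
  rw [intervalIntegral.integral_of_le (by norm_num), ← integral_conj]
  unfold JJ
  rw [← hl0]
  set F : ℝ → ℂ := fun l => ((ch (l / l0) * Θ (G * l) / (2 * Real.sinh (l / 2)) : ℝ) : ℂ) *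
      ee (s * l + n / 2 * cth l) with hF
  have h1 := MeasureTheory.integral_comp_mul_left_Ioi F 0 hl
  rw [mul_zero] at h1
  have h2 : ∫ l in Ioi (0 : ℝ), F l = (l0 : ℂ) * ∫ w in Ioi (0 : ℝ), F (l0 * w) := by
    rw [h1, Complex.real_smul, ← mul_assoc]
    push_cast
    rw [mul_inv_cancel₀ (by exact_mod_cast hl.ne'), one_mul]
  rw [h2]
  have h3 : ∫ w in Ioi (0 : ℝ), F (l0 * w) = ∫ w in Ioc (1 / 4 : ℝ) (19 / 4), F (l0 * w) := by
    refine setIntegral_eq_of_subset_of_forall_sdiff_eq_zero measurableSet_Ioi ?_ ?_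
    · intro w hw
      exact lt_trans (by norm_num) hw.1
    · intro w hw
      have hc : ch (l0 * w / l0) = 0 := by
        rw [mul_div_cancel_left₀ _ hl.ne']
        apply ch_zero
        by_contra hcon
        rw [not_or, not_le, not_le] at hcon
        exact hw.2 ⟨hcon.1, hcon.2.le⟩
      simp [hF, hc]
  rw [h3, ← integral_const_mul]
  refine setIntegral_congr_fun measurableSet_Ioc fun w hw => ?_
  have hw0 : 0 < w := lt_trans (by norm_num) hw.1
  simp only [hF]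
  rw [map_mul, conj_ee, Complex.conj_ofReal, ← mul_assoc]
  congr 1
  · rw [mul_div_cancel_left₀ _ hl.ne']
    unfold ka A0 m0
    rw [← mul_assoc G]
    push_cast
    ring
  · congr 1
    unfold g
    have : Real.sqrt (n * T) * (l0 / 2 * cth (l0 * w)) = n / 2 * cth (l0 * w) := by
      linear_combination (cth (l0 * w) / 2) * hZl
    rw [this]
    ring

/-- derivative of `FF` -/
lemma hFF (n s : ℝ) (hn : 0 < n) (hs : 0 < s) : HasDerivAt (FF n) (ls n s) s := by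
  have h1 : HasDerivAt (fun s : ℝ => Real.sqrt n / (2 * Real.sqrt s))
      ((0 * (2 * Real.sqrt s) - Real.sqrt n * (2 * (1 / (2 * Real.sqrt s)))) /
        (2 * Real.sqrt s) ^ 2) s :=
    (hasDerivAt_const s (Real.sqrt n)).div ((Real.hasDerivAt_sqrt hs.ne').const_mul 2)
      (by positivity)
  have h2 := (h1.arsinh).const_mul 2
  set d := 2 * ((Real.sqrt (1 + (Real.sqrt n / (2 * Real.sqrt s)) ^ 2))⁻¹ •
    ((0 * (2 * Real.sqrt s) - Real.sqrt n * (2 * (1 / (2 * Real.sqrt s)))) /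
        (2 * Real.sqrt s) ^ 2)) with hd
  have h3 : HasDerivAt (ls n) d s := h2
  have hl : 0 < ls n s := by
    unfold ls
    have : 0 < Real.arsinh (Real.sqrt n / (2 * Real.sqrt s)) := Real.arsinh_pos_iff.mpr (by positivity)
    linarith
  have hsh : Real.sinh (ls n s / 2) = Real.sqrt n / (2 * Real.sqrt s) := by
    unfold ls
    rw [mul_div_cancel_left₀ _ (by norm_num : (2 : ℝ) ≠ 0), Real.sinh_arsinh]
  have hcth : HasDerivAt cth (-(1 / (2 * Real.sinh (ls n s / 2) ^ 2))) (ls n s) := by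
    have hs2 : Real.sinh (ls n s / 2) ≠ 0 := (Real.sinh_pos_iff.mpr (by positivity)).ne'
    have hlin : HasDerivAt (fun l : ℝ => l / 2) (1 / 2) (ls n s) := by
      simpa using (hasDerivAt_id (ls n s)).div_const 2
    have h5 := (hlin.cosh).div (hlin.sinh) hs2
    refine HasDerivAt.congr_deriv (f := cth) h5 ?_
    have hc := Real.cosh_sq (ls n s / 2)
    set S := Real.sinh (ls n s / 2)
    set D := Real.cosh (ls n s / 2)
    field_simp
    linear_combination (-1 : ℝ) * hc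
  have h4 := ((hasDerivAt_id s).mul h3).add ((hcth.comp s h3).const_mul (n / 2))
  refine HasDerivAt.congr_deriv (f := FF n) h4 ?_
  rw [hsh]
  have hq : (Real.sqrt n / (2 * Real.sqrt s)) ^ 2 = n / (4 * s) := by
    rw [div_pow, mul_pow, Real.sq_sqrt hn.le, Real.sq_sqrt hs.le]; ring
  rw [hq]
  simp only [id]
  field_simp
  ring

end AM_aux

open AM_aux in
theorem iAM (hAL : StAL) : StAM := by
  intro φ Θ hφ C' hC'
  obtain ⟨D, hD1, hD⟩ := bnd_exists hφ.smooth C'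
  obtain ⟨CA, hCA1, hCA⟩ := hAL (1 / 4) (19 / 4) (65536 + 260 * D) (by norm_num) (by norm_num)
    (by linarith)
  refine ⟨CA + 4 * C' + 2, by linarith, ?_⟩
  intro T G s n hT hG hGT hs hn hnC
  have hT0 : 0 < T := by linarith
  have hG0 : 0 < G := by linarith
  have hG4 : 4 * C' ≤ G := by linarith
  have hn0 : (0 : ℝ) < n := by exact_mod_cast hn
  have hpi := Real.pi_pos
  have hs0 : 0 < s := lt_of_lt_of_le (by positivity) hs.1
  set l0 := Real.sqrt (n / T) with hl0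
  have hl : 0 < l0 := Real.sqrt_pos.mpr (by positivity)
  have hlsq : l0 ^ 2 = n / T := Real.sq_sqrt (by positivity)
  set Z := Real.sqrt (n * T) with hZ
  have hZ0 : 0 < Z := Real.sqrt_pos.mpr (by positivity)
  have hZl : Z * l0 = n := by
    rw [hl0, hZ, ← Real.sqrt_mul (by positivity)]
    have : (n : ℝ) * T * (n / T) = (n : ℝ) ^ 2 := by field_simp
    rw [this, Real.sqrt_sq hn0.le]
  have hlZ : l0 * T = Z := by
    have h1 : (l0 * T) * l0 = Z * l0 := by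
      rw [hZl]
      have : l0 * T * l0 = l0 ^ 2 * T := by ring
      rw [this, hlsq]
      field_simp
    exact mul_right_cancel₀ hl.ne' h1
  have hGl : (G * l0) ^ 2 ≤ C' := by
    rw [mul_pow, hlsq]
    rw [le_div_iff₀ (by positivity)] at hnC
    rw [← mul_div_assoc, div_le_iff₀ hT0]
    linarith
  have hGl0 : 0 ≤ G * l0 := by positivity
  have hGl1 : G * l0 ≤ C' := by
    by_contra hcon
    push Not at hcon
    have : C' * C' < (G * l0) ^ 2 := by nlinarith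
    nlinarith
  have hl4 : l0 ≤ 1 / 4 := by
    have h1 : 4 * C' * l0 ≤ C' := (mul_le_mul_of_nonneg_right hG4 hl.le).trans hGl1
    nlinarith
  -- the hypotheses of `StAL`
  set q := G * l0 with hq
  have hkey := hCA (ka Θ q l0) (ka1 Θ q l0) (ka2 Θ q l0) (g l0) (g1 l0) (g2 l0) (g3 l0) (g4 l0) Z hZ0
    (by
      intro w hw
      have hw0 : 0 < w := lt_of_lt_of_le (by norm_num) hw.1
      exact ⟨(hA0 hφ.smooth q w).mul (hm0 hl hw0),
        ((hA1 hφ.smooth q w).mul (hm0 hl hw0)).add ((hA0 hφ.smooth q w).mul (hm1 hl hw0)),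
        hg hl hw0, hg1 hl hw0, hg2 hl hw0, hg3 hl hw0⟩)
    (by
      obtain ⟨c0, c1, c2⟩ := cA hφ.smooth q
      unfold ka2
      exact ((c2.continuousOn.mul (cont_m0 hl)).add (c1.continuousOn.mul (cont_m1 hl))).add
        ((c1.continuousOn.mul (cont_m1 hl)).add (c0.continuousOn.mul (cont_m2 hl))))
    (cont_g4 hl)
    (by
      have h1 := ch_zero (w := 1 / 4) (Or.inl le_rfl)
      simp only [ka, A0, h1]
      ring)
    (by
      have h1 := ch_zero (w := 19 / 4) (Or.inr le_rfl)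
      simp only [ka, A0, h1]
      ring)
    (by
      have h1 := ch_zero (w := 1 / 4) (Or.inl le_rfl)
      have h2 := ch1_zero (w := 1 / 4) (Or.inl le_rfl)
      simp only [ka1, A1, A0, h1, h2]
      ring)
    (by
      have h1 := ch_zero (w := 19 / 4) (Or.inr le_rfl)
      have h2 := ch1_zero (w := 19 / 4) (Or.inr le_rfl)
      simp only [ka1, A1, A0, h1, h2]
      ring)
    (by
      intro w hw
      obtain ⟨a0, a1, a2⟩ := hD q w hGl0 hGl1 hw
      obtain ⟨b0, b1, b2, b3, b4, b5⟩ := bnds hl hl4 hw.1 hw.2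
      have hmul : ∀ {u v a b : ℝ}, |u| ≤ a → |v| ≤ b → |u * v| ≤ a * b := by
        intro u v a b h1 h2
        rw [abs_mul]
        exact mul_le_mul h1 h2 (abs_nonneg _) ((abs_nonneg _).trans h1)
      refine ⟨?_, ?_, ?_, ?_, ?_, ?_⟩
      · have := hmul a0 b0
        unfold ka
        linarith
      · have h1 := hmul a1 b0
        have h2 := hmul a0 b1
        have h3 := abs_add_le (A1 Θ q w * m0 l0 w) (A0 Θ q w * m1 l0 w)
        unfold ka1
        linarith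
      · have h1 := hmul a2 b0
        have h2 := hmul a1 b1
        have h3 := hmul a0 b2
        have h4 := abs_add_le (A2 Θ q w * m0 l0 w) (A1 Θ q w * m1 l0 w)
        have h5 := abs_add_le (A1 Θ q w * m1 l0 w) (A0 Θ q w * m2 l0 w)
        have h6 := abs_add_le (A2 Θ q w * m0 l0 w + A1 Θ q w * m1 l0 w)
          (A1 Θ q w * m1 l0 w + A0 Θ q w * m2 l0 w)
        unfold ka2
        linarith
      · refine le_trans ?_ b3
        rw [div_le_div_iff₀ (by linarith) (by norm_num)]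
        linarith
      · linarith
      · linarith)
  set I : ℝ → ℂ := fun x => ∫ w in (1 / 4 : ℝ)..(19 / 4), (ka Θ q l0 w : ℂ) * ee (x * w - Z * g l0 w)
    with hI
  have hJ : ∀ t : ℝ, JJ Θ T G n t = (starRingEnd ℂ) (I (-(t * l0))) := fun t =>
    JJ_eq Θ T G n hT0 hn t
  have hsq0 : 0 < Real.sqrt Z := Real.sqrt_pos.mpr hZ0
  refine ⟨?_, hFF n s hn0 hs0, ?_⟩
  · rw [hJ s, RCLike.norm_conj]
    refine (hkey.1 _).trans ?_
    exact div_le_div_of_nonneg_right (by linarith) hsq0.le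
  · -- the derivative
    set w0 := ls n s / l0 with hw0
    have hz0 : 0 < Real.sqrt n / (2 * Real.sqrt s) := by positivity
    have hsh : Real.sinh (l0 * w0 / 2) = Real.sqrt n / (2 * Real.sqrt s) := by
      rw [hw0, mul_div_cancel₀ _ hl.ne']
      unfold ls
      rw [mul_div_cancel_left₀ _ (by norm_num : (2 : ℝ) ≠ 0), Real.sinh_arsinh]
    have hrel : Real.sqrt n / (2 * Real.sqrt s) = l0 / 2 * Real.sqrt (T / s) := by
      rw [hl0, Real.sqrt_div hn0.le, Real.sqrt_div hT0.le]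
      have := Real.sqrt_pos.mpr hT0
      field_simp
    have hTs1 : T / s ≤ 4 * Real.pi := by
      rw [div_le_iff₀ hs0]
      have := hs.1
      rw [div_le_iff₀ (by positivity)] at this
      linarith
    have hTs2 : 1 ≤ T / s := by
      rw [le_div_iff₀ hs0]
      have := hs.2
      rw [le_div_iff₀ hpi] at this
      nlinarith [Real.pi_gt_three]
    have hr1 : Real.sqrt (T / s) ≤ 4 := by
      rw [Real.sqrt_le_left (by norm_num)]
      linarith [Real.pi_lt_four]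
    have hr2 : 1 ≤ Real.sqrt (T / s) := by
      rw [Real.one_le_sqrt]; exact hTs2
    have hlspos : 0 < ls n s := by
      unfold ls
      have : 0 < Real.arsinh (Real.sqrt n / (2 * Real.sqrt s)) := Real.arsinh_pos_iff.mpr hz0
      linarith
    have hw0pos : 0 < w0 := by positivity
    have hw0mem : w0 ∈ Icc (1 / 4 : ℝ) (19 / 4) := by
      have hu0 : 0 ≤ l0 * w0 / 2 := by positivity
      have hup := le_sinh hu0
      rw [hsh, hrel] at hup
      constructor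
      · by_contra hcon
        push Not at hcon
        have h1 : l0 * w0 / 2 ≤ 1 := by nlinarith
        have h2 := sinh_le hu0 h1
        rw [hsh, hrel] at h2
        nlinarith
      · have h1 : w0 ≤ Real.sqrt (T / s) := by
          have : l0 * w0 ≤ l0 * Real.sqrt (T / s) := by linarith
          exact le_of_mul_le_mul_left this hl
        linarith
    have hx0 : Z * g1 l0 w0 = -(s * l0) := by
      unfold g1
      rw [hsh]
      have hq' : (Real.sqrt n / (2 * Real.sqrt s)) ^ 2 = n / (4 * s) := by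
        rw [div_pow, mul_pow, Real.sq_sqrt hn0.le, Real.sq_sqrt hs0.le]; ring
      rw [hq', hlsq, ← hlZ]
      field_simp
    have hΦ : HasDerivAt (fun x : ℝ => -(FF n (-x / l0))) w0 (-(s * l0)) := by
      have h1 : HasDerivAt (fun x : ℝ => -x / l0) (-1 / l0) (-(s * l0)) := by
        simpa using ((hasDerivAt_id (-(s * l0))).neg).div_const l0
      have h2 : -(-(s * l0)) / l0 = s := by rw [neg_neg, mul_div_cancel_right₀ _ hl.ne']
      have h3 : HasDerivAt (FF n) (ls n s) (-(-(s * l0)) / l0) := by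
        rw [h2]; exact hFF n s hn0 hs0
      have h4 := (h3.comp (-(s * l0)) h1).neg
      refine HasDerivAt.congr_deriv h4 ?_
      rw [hw0]
      field_simp
    obtain ⟨A', hA', hAb⟩ := hkey.2 (-(s * l0)) (fun x : ℝ => -(FF n (-x / l0))) w0 hw0mem hx0 hΦ
    refine ⟨(starRingEnd ℂ) ((-l0) • A'), ?_, ?_⟩
    · have h5 : HasDerivAt (fun t : ℝ => -(t * l0)) (-l0) s := by
        have h := ((hasDerivAt_id s).mul_const l0).neg
        refine HasDerivAt.congr_deriv (f := fun t : ℝ => -(t * l0)) h ?_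
        simp
      have h6 := HasDerivAt.scomp s (h := fun t : ℝ => -(t * l0)) hA' h5
      have h7 : HasDerivAt (fun t : ℝ => star (ee (-(-(FF n (-(-(t * l0)) / l0)))) *
          I (-(t * l0)))) (star ((-l0) • A')) s := h6.star
      have h8 : (fun t : ℝ => ee (-(FF n t)) * JJ Θ T G n t) =
          fun t : ℝ => star (ee (-(-(FF n (-(-(t * l0)) / l0)))) * I (-(t * l0))) := by
        funext t
        rw [hJ t, neg_neg (t * l0), mul_div_cancel_right₀ _ hl.ne', neg_neg (FF n t)]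
        show _ = (starRingEnd ℂ) (ee (FF n t) * I (-(t * l0)))
        rw [map_mul, conj_ee]
      rw [h8]
      exact h7
    · rw [RCLike.norm_conj, norm_smul, Real.norm_eq_abs, abs_neg, abs_of_pos hl]
      have h1 : l0 * ‖A'‖ ≤ l0 * (CA / (Z * Real.sqrt Z)) :=
        mul_le_mul_of_nonneg_left hAb hl.le
      have h2 : l0 * (CA / (Z * Real.sqrt Z)) = CA / (T * Real.sqrt Z) := by
        rw [← hlZ]
        have h3 : 0 < Real.sqrt (l0 * T) := by rw [hlZ]; exact hsq0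
        field_simp
      rw [h2] at h1
      refine h1.trans ?_
      exact div_le_div_of_nonneg_right (by linarith) (by positivity)

end Pool.Agent.Work.MP_56b8f5_nt.UB
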