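import Pool.Agent.Work.MP_56b8f5_nt.UB.Stmts

/-!
MP_56b8f5_nt, block UB, item Aa: the amplitude and its derivatives.
-/

open MeasureTheory Set Filter Topology

noncomputable section

namespace Pool.Agent.Work.MP_56b8f5_nt.UB

namespace Aa_aux

/-- products of three functions -/
theorem prod3 (u u1 u2 v v1 v2 w w1 w2 : ℝ → ℝ) (l : ℝ)
    (hu : HasDerivAt u (u1 l) l) (hu1 : HasDerivAt u1 (u2 l) l)
    (hv : HasDerivAt v (v1 l) l) (hv1 : HasDerivAt v1 (v2 l) l)
    (hw : HasDerivAt w (w1 l) l) (hw1 : HasDerivAt w1 (w2 l) l) :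
    HasDerivAt (fun l => u l * v l * w l)
      (u1 l * v l * w l + u l * v1 l * w l + u l * v l * w1 l) l ∧
    HasDerivAt (fun l => u1 l * v l * w l + u l * v1 l * w l + u l * v l * w1 l)
      (u2 l * v l * w l + u l * v2 l * w l + u l * v l * w2 l +
        2 * (u1 l * v1 l * w l) + 2 * (u1 l * v l * w1 l) + 2 * (u l * v1 l * w1 l)) l := by
  constructor
  · refine ((hu.mul hv).mul hw).congr_deriv ?_
    simp only [Pi.mul_apply]
    ring
  · refine ((((hu1.mul hv).mul hw).add ((hu.mul hv1).mul hw)).add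
      ((hu.mul hv).mul hw1)).congr_deriv ?_
    simp only [Pi.mul_apply]
    ring

theorem mul3_le {x y z a b c : ℝ} (hx : |x| ≤ a) (hy : |y| ≤ b) (hz : |z| ≤ c) :
    |x * y * z| ≤ a * b * c := by
  rw [abs_mul, abs_mul]
  have ha : 0 ≤ a := (abs_nonneg x).trans hx
  have hb : 0 ≤ b := (abs_nonneg y).trans hy
  exact mul_le_mul (mul_le_mul hx hy (abs_nonneg _) ha) hz (abs_nonneg _) (mul_nonneg ha hb)

/-- bounds for the products -/
theorem bound3 {u u1 u2 v v1 v2 w w1 w2 l a b c : ℝ} (hl : 0 < l)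
    (hu : |u| ≤ a) (hu1 : |u1| ≤ a / l) (hu2 : |u2| ≤ a / l ^ 2)
    (hv : |v| ≤ b) (hv1 : |v1| ≤ b / l) (hv2 : |v2| ≤ b / l ^ 2)
    (hw : |w| ≤ c / l) (hw1 : |w1| ≤ c / l ^ 2) (hw2 : |w2| ≤ c / l ^ 3) :
    |u * v * w| ≤ 9 * (a * b * c) / l ∧
    |u1 * v * w + u * v1 * w + u * v * w1| ≤ 9 * (a * b * c) / l ^ 2 ∧
    |u2 * v * w + u * v2 * w + u * v * w2 +
        2 * (u1 * v1 * w) + 2 * (u1 * v * w1) + 2 * (u * v1 * w1)| ≤ 9 * (a * b * c) / l ^ 3 := by
  have ha : 0 ≤ a := (abs_nonneg u).trans hu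
  have hb : 0 ≤ b := (abs_nonneg v).trans hv
  have hc : 0 ≤ c := by
    have h1 := (abs_nonneg w).trans hw
    by_contra hcc
    push Not at hcc
    exact absurd h1 (not_le.2 (div_neg_of_neg_of_pos hcc hl))
  have habc : 0 ≤ a * b * c := mul_nonneg (mul_nonneg ha hb) hc
  have t0 : |u * v * w| ≤ a * b * c / l := by
    refine (mul3_le hu hv hw).trans (le_of_eq ?_)
    ring
  have t1 : |u1 * v * w| ≤ a * b * c / l ^ 2 := by
    refine (mul3_le hu1 hv hw).trans (le_of_eq ?_)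
    field_simp
  have t2 : |u * v1 * w| ≤ a * b * c / l ^ 2 := by
    refine (mul3_le hu hv1 hw).trans (le_of_eq ?_)
    field_simp
  have t3 : |u * v * w1| ≤ a * b * c / l ^ 2 := by
    refine (mul3_le hu hv hw1).trans (le_of_eq ?_)
    field_simp
  have s1 : |u2 * v * w| ≤ a * b * c / l ^ 3 := by
    refine (mul3_le hu2 hv hw).trans (le_of_eq ?_)
    field_simp
  have s2 : |u * v2 * w| ≤ a * b * c / l ^ 3 := by
    refine (mul3_le hu hv2 hw).trans (le_of_eq ?_)
    field_simp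
  have s3 : |u * v * w2| ≤ a * b * c / l ^ 3 := by
    refine (mul3_le hu hv hw2).trans (le_of_eq ?_)
    field_simp
  have s4 : |u1 * v1 * w| ≤ a * b * c / l ^ 3 := by
    refine (mul3_le hu1 hv1 hw).trans (le_of_eq ?_)
    field_simp
  have s5 : |u1 * v * w1| ≤ a * b * c / l ^ 3 := by
    refine (mul3_le hu1 hv hw1).trans (le_of_eq ?_)
    field_simp
  have s6 : |u * v1 * w1| ≤ a * b * c / l ^ 3 := by
    refine (mul3_le hu hv1 hw1).trans (le_of_eq ?_)
    field_simp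
  have p1 : 0 ≤ a * b * c / l := by positivity
  have p2 : 0 ≤ a * b * c / l ^ 2 := by positivity
  refine ⟨?_, ?_, ?_⟩
  · rw [mul_div_assoc]
    linarith
  · rw [mul_div_assoc]
    rw [abs_le] at t1 t2 t3 ⊢
    constructor <;> linarith [t1.1, t1.2, t2.1, t2.2, t3.1, t3.2]
  · rw [mul_div_assoc]
    rw [abs_le] at s1 s2 s3 s4 s5 s6 ⊢
    constructor <;> linarith [s1.1, s1.2, s2.1, s2.2, s3.1, s3.2, s4.1, s4.2, s5.1, s5.2, s6.1,
      s6.2]

/-- derivatives vanish on `[1,∞)` -/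
theorem zero_deriv {f f1 : ℝ → ℝ} (h : ∀ x, 1 ≤ x → f x = 0) (hd : ∀ x, HasDerivAt f (f1 x) x) :
    ∀ x, 1 ≤ x → f1 x = 0 := by
  intro x hx
  have h1 : HasDerivWithinAt f (f1 x) (Ici x) x := (hd x).hasDerivWithinAt
  have h2 : HasDerivWithinAt f 0 (Ici x) x := by
    refine (hasDerivWithinAt_const x (Ici x) (0 : ℝ)).congr ?_ (h x hx)
    intro y hy
    exact h y (hx.trans hy)
  exact (uniqueDiffWithinAt_Ici x).eq_deriv (Ici x) h1 h2

theorem hS (l : ℝ) : HasDerivAt (fun l => Real.sinh (l / 2)) (Real.cosh (l / 2) * (1 / 2)) l :=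
  ((hasDerivAt_id' l).div_const 2).sinh

theorem hC (l : ℝ) : HasDerivAt (fun l => Real.cosh (l / 2)) (Real.sinh (l / 2) * (1 / 2)) l :=
  ((hasDerivAt_id' l).div_const 2).cosh

theorem S_pos {l : ℝ} (hl : 0 < l) : 0 < Real.sinh (l / 2) := Real.sinh_pos_iff.2 (by linarith)

theorem S_ge {l : ℝ} (hl : 0 < l) : l / 2 ≤ Real.sinh (l / 2) := Real.self_le_sinh_iff.2 (by linarith)

theorem hcth {l : ℝ} (hl : 0 < l) : HasDerivAt cth (-(1 / (2 * Real.sinh (l / 2) ^ 2))) l := by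
  have h0 := (S_pos hl).ne'
  refine ((hC l).div (hS l) h0).congr_deriv ?_
  have h1 := Real.cosh_sq (l / 2)
  field_simp
  nlinarith [h1]

/-- the factor `E` -/
def E (κ l : ℝ) : ℝ := Real.exp (-(κ * cth l))

def J (κ l : ℝ) : ℝ := κ / 2 * (1 / Real.sinh (l / 2) ^ 2)

def J1 (κ l : ℝ) : ℝ := -(κ / 2 * (Real.cosh (l / 2) / Real.sinh (l / 2) ^ 3))

def E1 (κ l : ℝ) : ℝ := E κ l * J κ l

def E2 (κ l : ℝ) : ℝ := E1 κ l * J κ l + E κ l * J1 κ l

theorem hE {l : ℝ} (κ : ℝ) (hl : 0 < l) : HasDerivAt (E κ) (E1 κ l) l := by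
  refine (((hcth hl).const_mul κ).neg.exp).congr_deriv ?_
  unfold E1 E J
  have h0 := (S_pos hl).ne'
  field_simp
  rfl

theorem hJ {l : ℝ} (κ : ℝ) (hl : 0 < l) : HasDerivAt (J κ) (J1 κ l) l := by
  have h0 := (S_pos hl).ne'
  have h1 := ((((hS l).pow 2).inv (pow_ne_zero 2 h0)).const_mul (κ / 2))
  refine (h1.congr_of_eventuallyEq (Eventually.of_forall fun x => ?_)).congr_deriv ?_
  · unfold J
    simp [one_div]
  · unfold J1
    simp only [Pi.pow_apply]
    field_simp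
    norm_num

theorem hE1 {l : ℝ} (κ : ℝ) (hl : 0 < l) : HasDerivAt (E1 κ) (E2 κ l) l :=
  (hE κ hl).mul (hJ κ hl)

def R (l : ℝ) : ℝ := 1 / (2 * Real.sinh (l / 2))

def R1 (l : ℝ) : ℝ := -(Real.cosh (l / 2) / (4 * Real.sinh (l / 2) ^ 2))

def R2 (l : ℝ) : ℝ := -(1 / (8 * Real.sinh (l / 2))) +
  Real.cosh (l / 2) ^ 2 / (4 * Real.sinh (l / 2) ^ 3)

theorem hR {l : ℝ} (hl : 0 < l) : HasDerivAt R (R1 l) l := by
  have h0 := (S_pos hl).ne'
  have h1 := ((hS l).const_mul 2).inv (mul_ne_zero two_ne_zero h0)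
  refine (h1.congr_of_eventuallyEq (Eventually.of_forall fun x => ?_)).congr_deriv ?_
  · unfold R
    simp [one_div]
  · unfold R1
    field_simp
    ring

theorem hR1 {l : ℝ} (hl : 0 < l) : HasDerivAt R1 (R2 l) l := by
  have h0 := (S_pos hl).ne'
  have h1 := ((hC l).div (((hS l).pow 2).const_mul 4)
    (mul_ne_zero (by norm_num) (pow_ne_zero 2 h0))).neg
  refine h1.congr_deriv ?_
  unfold R2
  simp only [Pi.pow_apply]
  field_simp
  ring

theorem E_nonneg (κ l : ℝ) : 0 ≤ E κ l := (Real.exp_pos _).le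

theorem cth_nonneg {l : ℝ} (hl : 0 < l) : 0 ≤ cth l :=
  div_nonneg (Real.cosh_pos _).le (S_pos hl).le

theorem z_exp {z : ℝ} (hz : 0 ≤ z) : z * Real.exp (-z) ≤ 1 ∧ z ^ 2 * Real.exp (-z) ≤ 2 := by
  have h1 : Real.exp (-z) * Real.exp z = 1 := by rw [← Real.exp_add]; simp
  have h2 := Real.quadratic_le_exp_of_nonneg hz
  have h3 := Real.exp_pos (-z)
  constructor
  · nlinarith [mul_le_mul_of_nonneg_left h2 h3.le, sq_nonneg z]
  · nlinarith [mul_le_mul_of_nonneg_left h2 h3.le]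

theorem E_bd {κ l : ℝ} (hκ : 0 ≤ κ) (hl : 0 < l) :
    |E κ l| ≤ 4 ∧ |E1 κ l| ≤ 4 / l ∧ |E2 κ l| ≤ 4 / l ^ 2 := by
  have hz : 0 ≤ κ * cth l := mul_nonneg hκ (cth_nonneg hl)
  obtain ⟨z1, z2⟩ := z_exp hz
  have hs := S_pos hl
  have hsl := S_ge hl
  have hc1 := Real.one_le_cosh (l / 2)
  have hE0 := E_nonneg κ l
  have hE1' : E κ l ≤ 1 := by
    unfold E
    rw [Real.exp_le_one_iff]
    linarith
  have hJ0 : 0 ≤ J κ l := by
    unfold J
    positivity
  have hJz : J κ l ≤ κ * cth l / (2 * Real.sinh (l / 2)) := by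
    unfold J cth
    rw [div_mul_eq_mul_div, mul_one_div, div_div, mul_div_assoc', div_div]
    rw [div_le_div_iff₀ (by positivity) (by positivity)]
    have : κ * (Real.sinh (l / 2) * (2 * Real.sinh (l / 2))) ≤
        κ * Real.cosh (l / 2) * (Real.sinh (l / 2) * (2 * Real.sinh (l / 2))) := by
      have h5 : 0 ≤ κ * (Real.sinh (l / 2) * (2 * Real.sinh (l / 2))) := by positivity
      nlinarith
    nlinarith
  have hinv : 1 / (2 * Real.sinh (l / 2)) ≤ 1 / l := by
    apply one_div_le_one_div_of_le hl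
    linarith
  have hEJ : E κ l * J κ l ≤ 1 / l := by
    calc E κ l * J κ l ≤ E κ l * (κ * cth l / (2 * Real.sinh (l / 2))) :=
          mul_le_mul_of_nonneg_left hJz hE0
      _ = (κ * cth l * Real.exp (-(κ * cth l))) * (1 / (2 * Real.sinh (l / 2))) := by
          unfold E
          ring
      _ ≤ 1 * (1 / (2 * Real.sinh (l / 2))) :=
          mul_le_mul_of_nonneg_right z1 (by positivity)
      _ ≤ 1 / l := by rw [one_mul]; exact hinv
  have hinv2 : 1 / (2 * Real.sinh (l / 2)) ^ 2 ≤ 1 / l ^ 2 := by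
    apply one_div_le_one_div_of_le (by positivity)
    apply pow_le_pow_left₀ hl.le
    linarith
  have hEJJ : E κ l * J κ l * J κ l ≤ 2 / l ^ 2 := by
    have h5 : J κ l * J κ l ≤ (κ * cth l / (2 * Real.sinh (l / 2))) *
        (κ * cth l / (2 * Real.sinh (l / 2))) := mul_le_mul hJz hJz hJ0 (hJ0.trans hJz)
    calc E κ l * J κ l * J κ l = E κ l * (J κ l * J κ l) := by ring
      _ ≤ E κ l * ((κ * cth l / (2 * Real.sinh (l / 2))) *
        (κ * cth l / (2 * Real.sinh (l / 2)))) := mul_le_mul_of_nonneg_left h5 hE0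
      _ = ((κ * cth l) ^ 2 * Real.exp (-(κ * cth l))) * (1 / (2 * Real.sinh (l / 2)) ^ 2) := by
          unfold E
          field_simp
      _ ≤ 2 * (1 / (2 * Real.sinh (l / 2)) ^ 2) := mul_le_mul_of_nonneg_right z2 (by positivity)
      _ ≤ 2 * (1 / l ^ 2) := by linarith
      _ = 2 / l ^ 2 := by ring
  have hEJ1 : E κ l * (-J1 κ l) ≤ 2 / l ^ 2 := by
    calc E κ l * (-J1 κ l) = (κ * cth l * Real.exp (-(κ * cth l))) *
          (2 * (1 / (2 * Real.sinh (l / 2)) ^ 2)) := by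
          unfold E J1 cth
          field_simp
      _ ≤ 1 * (2 * (1 / (2 * Real.sinh (l / 2)) ^ 2)) :=
          mul_le_mul_of_nonneg_right z1 (by positivity)
      _ ≤ 2 / l ^ 2 := by
          rw [one_mul]
          calc 2 * (1 / (2 * Real.sinh (l / 2)) ^ 2) ≤ 2 * (1 / l ^ 2) := by linarith
            _ = 2 / l ^ 2 := by ring
  have hJ1n : 0 ≤ - J1 κ l := by
    unfold J1
    rw [neg_neg]
    have := Real.cosh_pos (l / 2)
    positivity
  refine ⟨?_, ?_, ?_⟩
  · rw [abs_of_nonneg hE0]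
    linarith
  · unfold E1
    rw [abs_of_nonneg (mul_nonneg hE0 hJ0)]
    refine hEJ.trans ?_
    apply div_le_div_of_nonneg_right (by norm_num) hl.le
  · unfold E2 E1
    have h6 : 0 ≤ E κ l * J κ l * J κ l := mul_nonneg (mul_nonneg hE0 hJ0) hJ0
    have h7 : 0 ≤ E κ l * (-J1 κ l) := mul_nonneg hE0 hJ1n
    have h8 : (4 : ℝ) / l ^ 2 = 2 / l ^ 2 + 2 / l ^ 2 := by ring
    rw [h8, abs_le]
    constructor <;> nlinarith

theorem cosh_le {l : ℝ} (hl : 0 < l) (hl' : l ≤ 1 / 2) : Real.cosh (l / 2) ≤ 2 := by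
  have h1 : Real.exp (-(l / 2)) ≤ 1 := Real.exp_le_one_iff.2 (by linarith)
  have h2 : Real.exp (l / 2) * Real.exp (-(l / 2)) = 1 := by rw [← Real.exp_add]; simp
  have h3 := Real.one_sub_le_exp_neg (l / 2)
  have h4 := Real.exp_pos (l / 2)
  rw [Real.cosh_eq]
  nlinarith

theorem R_bd {l : ℝ} (hl : 0 < l) (hl' : l ≤ 1 / 2) :
    |R l| ≤ 9 / l ∧ |R1 l| ≤ 9 / l ^ 2 ∧ |R2 l| ≤ 9 / l ^ 3 := by
  have hs := S_pos hl
  have hsl := S_ge hl
  have hc1 := Real.one_le_cosh (l / 2)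
  have hc2 := cosh_le hl hl'
  have i1 : 1 / (2 * Real.sinh (l / 2)) ≤ 1 / l := by
    apply one_div_le_one_div_of_le hl
    linarith
  have i2 : 1 / (2 * Real.sinh (l / 2)) ^ 2 ≤ 1 / l ^ 2 := by
    apply one_div_le_one_div_of_le (by positivity)
    apply pow_le_pow_left₀ hl.le
    linarith
  have i3 : 1 / (2 * Real.sinh (l / 2)) ^ 3 ≤ 1 / l ^ 3 := by
    apply one_div_le_one_div_of_le (by positivity)
    apply pow_le_pow_left₀ hl.le
    linarith
  have j1 : 0 ≤ 1 / l := by positivity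
  have j2 : 0 ≤ 1 / l ^ 2 := by positivity
  have j3 : 0 ≤ 1 / l ^ 3 := by positivity
  refine ⟨?_, ?_, ?_⟩
  · unfold R
    rw [abs_of_nonneg (by positivity)]
    calc 1 / (2 * Real.sinh (l / 2)) ≤ 1 / l := i1
      _ ≤ 9 * (1 / l) := by linarith
      _ = 9 / l := by ring
  · unfold R1
    rw [abs_neg, abs_of_nonneg (by positivity)]
    calc Real.cosh (l / 2) / (4 * Real.sinh (l / 2) ^ 2)
        = Real.cosh (l / 2) * (1 / (2 * Real.sinh (l / 2)) ^ 2) := by
          field_simp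
          ring
      _ ≤ 2 * (1 / l ^ 2) := mul_le_mul hc2 i2 (by positivity) (by norm_num)
      _ ≤ 9 * (1 / l ^ 2) := by linarith
      _ = 9 / l ^ 2 := by ring
  · unfold R2
    have k1 : 1 / (8 * Real.sinh (l / 2)) ≤ 1 / l ^ 3 := by
      calc 1 / (8 * Real.sinh (l / 2)) ≤ 1 / (2 * Real.sinh (l / 2)) := by
            apply one_div_le_one_div_of_le (by positivity)
            linarith
        _ ≤ 1 / l := i1
        _ ≤ 1 / l ^ 3 := by
            apply one_div_le_one_div_of_le (by positivity)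
            nlinarith [mul_pos hl hl]
    have k2 : Real.cosh (l / 2) ^ 2 / (4 * Real.sinh (l / 2) ^ 3) ≤ 8 * (1 / l ^ 3) := by
      calc Real.cosh (l / 2) ^ 2 / (4 * Real.sinh (l / 2) ^ 3)
          = 2 * Real.cosh (l / 2) ^ 2 * (1 / (2 * Real.sinh (l / 2)) ^ 3) := by
            field_simp
            ring
        _ ≤ 8 * (1 / l ^ 3) := by
            apply mul_le_mul _ i3 (by positivity) (by norm_num)
            nlinarith
    have k3 : 0 ≤ 1 / (8 * Real.sinh (l / 2)) := by positivity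
    have k4 : 0 ≤ Real.cosh (l / 2) ^ 2 / (4 * Real.sinh (l / 2) ^ 3) := by positivity
    have k5 : (9 : ℝ) / l ^ 3 = 1 / l ^ 3 + 8 * (1 / l ^ 3) := by ring
    rw [k5, abs_le]
    constructor <;> linarith

end Aa_aux

open Aa_aux in
theorem iAa : StAa := by
  intro φ Θ hP
  have hsm := hP.smooth
  have hsm1 : ContDiff ℝ ((⊤ : ℕ∞) : WithTop ℕ∞) (deriv Θ) := hsm.iterate_deriv 1
  have hsm2 : ContDiff ℝ ((⊤ : ℕ∞) : WithTop ℕ∞) (deriv (deriv Θ)) := hsm.iterate_deriv 2
  have d0 : ∀ x, HasDerivAt Θ (deriv Θ x) x := fun x =>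
    ((hsm.differentiable (by simp)) x).hasDerivAt
  have d1 : ∀ x, HasDerivAt (deriv Θ) (deriv (deriv Θ) x) x := fun x =>
    ((hsm1.differentiable (by simp)) x).hasDerivAt
  have v0 : ∀ x, 1 ≤ x → Θ x = 0 := fun x hx => hP.supp x (by rwa [abs_of_nonneg (by linarith)])
  have v1 := zero_deriv v0 d0
  have v2 := zero_deriv v1 d1
  obtain ⟨B0, hB0⟩ := (isCompact_Icc (a := (0 : ℝ)) (b := 1)).exists_bound_of_continuousOn
    hsm.continuous.continuousOn
  obtain ⟨B1, hB1⟩ := (isCompact_Icc (a := (0 : ℝ)) (b := 1)).exists_bound_of_continuousOn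
    hsm1.continuous.continuousOn
  obtain ⟨B2, hB2⟩ := (isCompact_Icc (a := (0 : ℝ)) (b := 1)).exists_bound_of_continuousOn
    hsm2.continuous.continuousOn
  set B : ℝ := max 1 (max B0 (max B1 B2)) with hB
  have hB1' : 1 ≤ B := le_max_left _ _
  have e0 : ∀ x, 0 ≤ x → x ≤ 1 → |Θ x| ≤ B := fun x h h' =>
    (hB0 x ⟨h, h'⟩).trans ((le_max_left _ _).trans (le_max_right _ _))
  have e1 : ∀ x, 0 ≤ x → x ≤ 1 → |deriv Θ x| ≤ B := fun x h h' =>
    (hB1 x ⟨h, h'⟩).trans ((le_max_left _ _).trans ((le_max_right _ _).trans (le_max_right _ _)))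
  have e2 : ∀ x, 0 ≤ x → x ≤ 1 → |deriv (deriv Θ) x| ≤ B := fun x h h' =>
    (hB2 x ⟨h, h'⟩).trans ((le_max_right _ _).trans ((le_max_right _ _).trans (le_max_right _ _)))
  refine ⟨9 * (4 * B * 9), by nlinarith, ?_⟩
  intro K G k hK hG hk
  set κ : ℝ := k / K with hκ
  have hκ0 : 0 ≤ κ := by positivity
  have hG0 : 0 < G := by linarith
  have hG2 : 1 / G ≤ 1 / 2 := one_div_le_one_div_of_le (by norm_num) hG
  have hf : (fun l => Real.exp (-(k * cth l / K)) * Θ (G * l) / (2 * Real.sinh (l / 2))) =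
      (fun l => E κ l * Θ (G * l) * R l) := by
    funext l
    unfold E R
    rw [hκ, mul_one_div]
    congr 4
    ring
  have hg : ∀ l, HasDerivAt (fun l => Θ (G * l)) (G * deriv Θ (G * l)) l := by
    intro l
    have := (d0 (G * l)).comp l ((hasDerivAt_id' l).const_mul G)
    refine this.congr_deriv ?_
    ring
  have hg1 : ∀ l, HasDerivAt (fun l => G * deriv Θ (G * l)) (G * (G * deriv (deriv Θ) (G * l))) l := by
    intro l
    have := ((d1 (G * l)).comp l ((hasDerivAt_id' l).const_mul G)).const_mul G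
    refine this.congr_deriv ?_
    ring
  have hcE : ContinuousOn (E κ) (Ioi 0) := fun l hl => (hE κ hl).continuousAt.continuousWithinAt
  have hcE1 : ContinuousOn (E1 κ) (Ioi 0) := fun l hl => (hE1 κ hl).continuousAt.continuousWithinAt
  have hcJ : ContinuousOn (J κ) (Ioi 0) := fun l hl => (hJ κ hl).continuousAt.continuousWithinAt
  have hcR : ContinuousOn R (Ioi 0) := fun l hl => (hR hl).continuousAt.continuousWithinAt
  have hcR1 : ContinuousOn R1 (Ioi 0) := fun l hl => (hR1 hl).continuousAt.continuousWithinAt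
  have hsc : Continuous (fun l : ℝ => Real.sinh (l / 2)) := by fun_prop
  have hcc : Continuous (fun l : ℝ => Real.cosh (l / 2)) := by fun_prop
  have hcJ1 : ContinuousOn (J1 κ) (Ioi 0) := by
    unfold J1
    refine (ContinuousOn.mul continuousOn_const (ContinuousOn.div hcc.continuousOn
      (hsc.continuousOn.pow 3) ?_)).neg
    intro l hl
    exact pow_ne_zero 3 (S_pos hl).ne'
  have hcE2 : ContinuousOn (E2 κ) (Ioi 0) := (hcE1.mul hcJ).add (hcE.mul hcJ1)
  have hcR2 : ContinuousOn R2 (Ioi 0) := by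
    unfold R2
    refine ContinuousOn.add (ContinuousOn.div continuousOn_const
      (continuousOn_const.mul hsc.continuousOn) ?_).neg
      (ContinuousOn.div (hcc.continuousOn.pow 2) (continuousOn_const.mul (hsc.continuousOn.pow 3)) ?_)
    · intro l hl
      exact mul_ne_zero (by norm_num) (S_pos hl).ne'
    · intro l hl
      exact mul_ne_zero (by norm_num) (pow_ne_zero 3 (S_pos hl).ne')
  have hcg : Continuous (fun l => Θ (G * l)) := hsm.continuous.comp (by fun_prop)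
  have hcg1 : Continuous (fun l => G * deriv Θ (G * l)) :=
    continuous_const.mul (hsm1.continuous.comp (by fun_prop))
  have hcg2 : Continuous (fun l => G * (G * deriv (deriv Θ) (G * l))) :=
    continuous_const.mul (continuous_const.mul (hsm2.continuous.comp (by fun_prop)))
  refine ⟨fun l => E1 κ l * Θ (G * l) * R l + E κ l * (G * deriv Θ (G * l)) * R l +
      E κ l * Θ (G * l) * R1 l,
    fun l => E2 κ l * Θ (G * l) * R l + E κ l * (G * (G * deriv (deriv Θ) (G * l))) * R l +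
      E κ l * Θ (G * l) * R2 l + 2 * (E1 κ l * (G * deriv Θ (G * l)) * R l) +
      2 * (E1 κ l * Θ (G * l) * R1 l) + 2 * (E κ l * (G * deriv Θ (G * l)) * R1 l), ?_, ?_⟩
  · refine (((((((hcE2.mul hcg.continuousOn).mul hcR).add
      ((hcE.mul hcg2.continuousOn).mul hcR)).add ((hcE.mul hcg.continuousOn).mul hcR2)).add
      (continuousOn_const.mul ((hcE1.mul hcg1.continuousOn).mul hcR))).add
      (continuousOn_const.mul ((hcE1.mul hcg.continuousOn).mul hcR1))).add
      (continuousOn_const.mul ((hcE.mul hcg1.continuousOn).mul hcR1)))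
  · intro l hl
    obtain ⟨p1, p2⟩ := prod3 (E κ) (E1 κ) (E2 κ) (fun l => Θ (G * l))
      (fun l => G * deriv Θ (G * l)) (fun l => G * (G * deriv (deriv Θ) (G * l))) R R1 R2 l
      (hE κ hl) (hE1 κ hl) (hg l) (hg1 l) (hR hl) (hR1 hl)
    have hfl : Real.exp (-(k * cth l / K)) * Θ (G * l) / (2 * Real.sinh (l / 2)) =
        E κ l * Θ (G * l) * R l := congrFun hf l
    rw [hf, hfl]
    refine ⟨p1, p2, ?_⟩
    by_cases h : 1 / G ≤ l
    · have hGl : 1 ≤ G * l := by
        rw [div_le_iff₀ hG0] at h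
        linarith
      simp only [v0 _ hGl, v1 _ hGl, v2 _ hGl, mul_zero, zero_mul, add_zero, abs_zero]
      refine ⟨by positivity, by positivity, by positivity, fun _ => ⟨trivial, trivial⟩⟩
    · push Not at h
      have hGl : G * l ≤ 1 := by
        rw [lt_div_iff₀ hG0] at h
        linarith
      have hGl0 : 0 ≤ G * l := by positivity
      obtain ⟨a0, a1, a2⟩ := E_bd hκ0 hl
      obtain ⟨r0, r1, r2⟩ := R_bd hl (h.le.trans hG2)
      have hGle : G ≤ 1 / l := by
        rw [le_div_iff₀ hl]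
        exact hGl
      have g1 : |G * deriv Θ (G * l)| ≤ B / l := by
        rw [abs_mul, abs_of_pos hG0]
        calc G * |deriv Θ (G * l)| ≤ 1 / l * B :=
              mul_le_mul hGle (e1 _ hGl0 hGl) (abs_nonneg _) (by positivity)
          _ = B / l := by ring
      have g2 : |G * (G * deriv (deriv Θ) (G * l))| ≤ B / l ^ 2 := by
        rw [abs_mul, abs_mul, abs_of_pos hG0]
        calc G * (G * |deriv (deriv Θ) (G * l)|) ≤ 1 / l * (1 / l * B) :=
              mul_le_mul hGle (mul_le_mul hGle (e2 _ hGl0 hGl) (abs_nonneg _) (by positivity))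
                (by positivity) (by positivity)
          _ = B / l ^ 2 := by
              field_simp
      obtain ⟨q0, q1, q2⟩ := bound3 hl a0 a1 a2 (e0 _ hGl0 hGl) g1 g2 r0 r1 r2
      exact ⟨q0, q1, q2, fun h' => absurd h' (not_le.2 h)⟩

end Pool.Agent.Work.MP_56b8f5_nt.UB
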