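import Pool.Agent.Work.MP_56b8f5_nt.UB.Stmts

open MeasureTheory Set Filter Topology

noncomputable section

namespace Pool.Agent.Work.MP_56b8f5_nt.UB

namespace D0_aux

/-- the derivative in the second variable -/
def Dy (F : ℝ × ℝ → ℂ) : ℝ × ℝ → ℂ := fun p => fderiv ℝ F p ((0 : ℝ), (1 : ℝ))

lemma Dy_contDiff {F : ℝ × ℝ → ℂ} (hF : ContDiff ℝ ((⊤ : ℕ∞) : WithTop ℕ∞) F) :
    ContDiff ℝ ((⊤ : ℕ∞) : WithTop ℕ∞) (Dy F) := by
  unfold Dy
  exact (hF.fderiv_right (m := ((⊤ : ℕ∞) : WithTop ℕ∞)) (by simp)).clm_apply contDiff_const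

lemma Dy_deriv {F : ℝ × ℝ → ℂ} (hF : ContDiff ℝ ((⊤ : ℕ∞) : WithTop ℕ∞) F) (d y : ℝ) :
    HasDerivAt (fun y => F (d, y)) (Dy F (d, y)) y := by
  have h1 : HasFDerivAt F (fderiv ℝ F (d, y)) (d, y) :=
    (hF.differentiable (by simp)).differentiableAt.hasFDerivAt
  have h2 : HasDerivAt (fun y : ℝ => (d, y)) ((0 : ℝ), (1 : ℝ)) y :=
    (hasDerivAt_const y d).prodMk (hasDerivAt_id y)
  exact h1.comp_hasDerivAt y h2

lemma Dy_zero {F : ℝ × ℝ → ℂ} (hz : ∀ p : ℝ × ℝ, 1 < |p.2| → F p = 0) :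
    ∀ p : ℝ × ℝ, 1 < |p.2| → Dy F p = 0 := by
  intro p hp
  have ho : IsOpen {p : ℝ × ℝ | 1 < |p.2|} :=
    isOpen_lt continuous_const (continuous_abs.comp continuous_snd)
  have h1 : F =ᶠ[𝓝 p] fun _ => (0 : ℂ) := by
    filter_upwards [ho.mem_nhds hp] with q hq
    exact hz q hq
  unfold Dy
  rw [h1.fderiv_eq]
  simp

lemma ee_norm (x : ℝ) : ‖ee x‖ = 1 := by
  unfold ee
  exact Complex.norm_exp_ofReal_mul_I _

lemma ee_cont {f : ℝ → ℝ} (hf : Continuous f) : Continuous fun x => ee (f x) := by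
  unfold ee
  fun_prop

lemma ee_deriv (ξ y : ℝ) : HasDerivAt (fun y => ee (ξ * y))
    (((2 * Real.pi * ξ : ℝ) : ℂ) * Complex.I * ee (ξ * y)) y := by
  unfold ee
  have h1 : HasDerivAt (fun y : ℝ => (((2 * Real.pi * (ξ * y) : ℝ) : ℂ) * Complex.I))
      (((2 * Real.pi * ξ : ℝ) : ℂ) * Complex.I) y := by
    have h2 : HasDerivAt (fun y : ℝ => (2 * Real.pi * (ξ * y) : ℝ)) (2 * Real.pi * ξ) y := by
      have := ((hasDerivAt_id y).const_mul ξ).const_mul (2 * Real.pi)
      simpa using this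
    exact (h2.ofReal_comp).mul_const Complex.I
  have h3 := h1.cexp
  convert h3 using 1
  ring

lemma decay (n : ℕ) : ∀ F : ℝ × ℝ → ℂ, ContDiff ℝ ((⊤ : ℕ∞) : WithTop ℕ∞) F →
    (∀ p : ℝ × ℝ, 1 < |p.2| → F p = 0) → ∃ C : ℝ, 0 ≤ C ∧ ∀ d ∈ Icc (0 : ℝ) 1, ∀ ξ : ℝ, 0 < ξ →
      ‖∫ y in (-2 : ℝ)..2, F (d, y) * ee (ξ * y)‖ ≤ C / ξ ^ n := by
  induction n with
  | zero =>
    intro F hF hz
    obtain ⟨B, hB⟩ := ((isCompact_Icc (a := (0 : ℝ)) (b := 1)).prod
      (isCompact_Icc (a := (-2 : ℝ)) (b := 2))).exists_bound_of_continuousOn hF.continuous.continuousOn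
    refine ⟨4 * |B|, by positivity, ?_⟩
    intro d hd ξ hξ
    have h1 : ‖∫ y in (-2 : ℝ)..2, F (d, y) * ee (ξ * y)‖ ≤ |B| * |2 - (-2)| := by
      apply intervalIntegral.norm_integral_le_of_norm_le_const
      intro y hy
      rw [uIoc_of_le (by norm_num)] at hy
      rw [norm_mul, ee_norm, mul_one]
      exact (hB (d, y) ⟨hd, ⟨by linarith [hy.1], hy.2⟩⟩).trans (le_abs_self B)
    have h2 : |(2 : ℝ) - (-2)| = 4 := by norm_num
    rw [h2] at h1
    simp only [pow_zero, div_one]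
    linarith
  | succ n ih =>
    intro F hF hz
    obtain ⟨C, hC0, hC⟩ := ih (Dy F) (Dy_contDiff hF) (Dy_zero hz)
    refine ⟨C, hC0, ?_⟩
    intro d hd ξ hξ
    have hc : (((2 * Real.pi * ξ : ℝ) : ℂ) * Complex.I) ≠ 0 := by
      have h0 : (2 * Real.pi * ξ : ℝ) ≠ 0 := by positivity
      exact mul_ne_zero (Complex.ofReal_ne_zero.mpr h0) Complex.I_ne_zero
    set c : ℂ := (((2 * Real.pi * ξ : ℝ) : ℂ) * Complex.I) with hcdef
    have hcn : ‖c‖ = 2 * Real.pi * ξ := by
      rw [hcdef, norm_mul, Complex.norm_I, mul_one, Complex.norm_real, Real.norm_eq_abs,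
        abs_of_pos (by positivity)]
    have hv : ∀ y : ℝ, HasDerivAt (fun y => ee (ξ * y) / c) (ee (ξ * y)) y := by
      intro y
      have h8 := (ee_deriv ξ y).div_const c
      rw [← hcdef] at h8
      have h9 : c * ee (ξ * y) / c = ee (ξ * y) := by field_simp
      rw [h9] at h8
      exact h8
    have hcF : Continuous fun y => Dy F (d, y) := (Dy_contDiff hF).continuous.comp (by fun_prop)
    have hce : Continuous fun y => ee (ξ * y) := ee_cont (by fun_prop)
    have hibp := intervalIntegral.integral_mul_deriv_eq_deriv_mul (a := -2) (b := 2)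
      (u := fun y => F (d, y)) (v := fun y => ee (ξ * y) / c) (u' := fun y => Dy F (d, y))
      (v' := fun y => ee (ξ * y)) (fun y _ => Dy_deriv hF d y) (fun y _ => hv y)
      (hcF.intervalIntegrable _ _) (hce.intervalIntegrable _ _)
    have hz2 : F (d, 2) = 0 := hz (d, 2) (by norm_num)
    have hzm : F (d, -2) = 0 := hz (d, -2) (by norm_num)
    rw [hibp, hz2, hzm]
    simp only [zero_mul, sub_self, zero_sub, norm_neg]
    have h5 : (∫ y in (-2 : ℝ)..2, Dy F (d, y) * (ee (ξ * y) / c)) =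
        (∫ y in (-2 : ℝ)..2, Dy F (d, y) * ee (ξ * y)) / c := by
      rw [← intervalIntegral.integral_div]
      congr 1
      ext y
      ring
    rw [h5, norm_div, hcn]
    have h6 := hC d hd ξ hξ
    have hpi : (1 : ℝ) ≤ 2 * Real.pi := by linarith [Real.pi_gt_three]
    have h7 : C / ξ ^ (n + 1) = C / ξ ^ n / ξ := by rw [pow_succ, div_div]
    rw [h7]
    calc ‖∫ y in (-2 : ℝ)..2, Dy F (d, y) * ee (ξ * y)‖ / (2 * Real.pi * ξ)
        ≤ (C / ξ ^ n) / (2 * Real.pi * ξ) := by gcongr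
      _ ≤ (C / ξ ^ n) / (1 * ξ) := by gcongr
      _ = C / ξ ^ n / ξ := by rw [one_mul]

/-- the even smooth part -/
lemma part1 (φ Θ : ℝ → ℝ) (h : IsPhi φ Θ) : ∃ C : ℝ, 0 ≤ C ∧ ∀ G s K : ℝ, 1 ≤ G → 0 < s → 0 ≤ K →
    |∫ l in Ioi (0 : ℝ), K * (Θ (G * l) / (2 * Real.cosh (l / 2))) * Real.cos (2 * Real.pi * (s * l))| ≤
      C * K * G ^ 3 / s ^ 4 := by
  set F : ℝ × ℝ → ℂ := fun p => ((Θ p.2 / (2 * Real.cosh (p.1 * p.2)) : ℝ) : ℂ) with hFdef
  have hF : ContDiff ℝ ((⊤ : ℕ∞) : WithTop ℕ∞) F := by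
    have h1 : ContDiff ℝ ((⊤ : ℕ∞) : WithTop ℕ∞) fun p : ℝ × ℝ => Θ p.2 / (2 * Real.cosh (p.1 * p.2)) := by
      apply ContDiff.div
      · exact h.smooth.comp contDiff_snd
      · exact contDiff_const.mul (Real.contDiff_cosh.comp (contDiff_fst.mul contDiff_snd))
      · intro p
        have := Real.cosh_pos (p.1 * p.2)
        positivity
    exact Complex.ofRealCLM.contDiff.comp h1
  have hz : ∀ p : ℝ × ℝ, 1 < |p.2| → F p = 0 := by
    intro p hp
    simp only [hFdef, h.supp p.2 hp.le, zero_div, Complex.ofReal_zero]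
  obtain ⟨C, hC0, hC⟩ := decay 4 F hF hz
  refine ⟨C, hC0, ?_⟩
  intro G s K hG hs hK
  have hG0 : 0 < G := by linarith
  -- reduce to the full line
  set f : ℝ → ℝ := fun l => (Θ (G * l) / (2 * Real.cosh (l / 2))) * Real.cos (2 * Real.pi * (s * l)) with hf
  have hfeven : ∀ l, f |l| = f l := by
    intro l
    rcases abs_cases l with ⟨h1, _⟩ | ⟨h1, _⟩
    · rw [h1]
    · rw [h1]
      simp only [hf]
      have e1 : Θ (G * -l) = Θ (G * l) := by rw [mul_neg, h.evenT]
      have e2 : Real.cosh (-l / 2) = Real.cosh (l / 2) := by rw [neg_div, Real.cosh_neg]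
      have e3 : Real.cos (2 * Real.pi * (s * -l)) = Real.cos (2 * Real.pi * (s * l)) := by
        rw [mul_neg, mul_neg, Real.cos_neg]
      rw [e1, e2, e3]
  have h1 : ∫ l in Ioi (0 : ℝ), K * (Θ (G * l) / (2 * Real.cosh (l / 2))) * Real.cos (2 * Real.pi * (s * l)) =
      K * ∫ l in Ioi (0 : ℝ), f l := by
    rw [← integral_const_mul]
    congr 1
    ext l
    simp only [hf]
    ring
  have h2 : (∫ l : ℝ, f l) = 2 * ∫ l in Ioi (0 : ℝ), f l := by
    rw [← integral_comp_abs]
    congr 1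
    ext l
    exact (hfeven l).symm
  -- complex form
  have hcompl : ∀ l : ℝ, f l = (((Θ (G * l) / (2 * Real.cosh (l / 2)) : ℝ) : ℂ) * ee (s * l)).re := by
    intro l
    rw [Complex.re_ofReal_mul]
    simp only [hf, ee, Complex.exp_ofReal_mul_I_re]
  set g : ℝ → ℂ := fun l => ((Θ (G * l) / (2 * Real.cosh (l / 2)) : ℝ) : ℂ) * ee (s * l) with hg
  have hgc : Continuous g := by
    apply Continuous.mul
    · apply Complex.continuous_ofReal.comp
      apply Continuous.div
      · exact h.smooth.continuous.comp (continuous_const.mul continuous_id)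
      · exact continuous_const.mul (Real.continuous_cosh.comp (by fun_prop))
      · intro l
        have := Real.cosh_pos (l / 2)
        positivity
    · exact ee_cont (by fun_prop)
  have hgcomp : HasCompactSupport g := by
    apply HasCompactSupport.intro (isCompact_Icc (a := (-1 : ℝ)) (b := 1))
    intro l hl
    have h3 : 1 ≤ |G * l| := by
      rw [abs_mul, abs_of_pos hG0]
      have h4 : 1 < |l| := by
        by_contra hcon
        rw [not_lt] at hcon
        exact hl (abs_le.mp hcon)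
      nlinarith
    simp only [hg, h.supp _ h3, zero_div, Complex.ofReal_zero, zero_mul]
  have hgint : Integrable g := hgc.integrable_of_hasCompactSupport hgcomp
  have h3 : (∫ l : ℝ, f l) = (∫ l : ℝ, g l).re := by
    have : (∫ l : ℝ, g l).re = ∫ l : ℝ, (g l).re := by
      exact (integral_re hgint).symm
    rw [this]
    congr 1
    ext l
    exact hcompl l
  -- scaling
  have h4 : (∫ l : ℝ, g l) = ((G⁻¹ : ℝ) : ℂ) * ∫ y : ℝ, F (1 / (2 * G), y) * ee (s / G * y) := by
    have h5 := MeasureTheory.Measure.integral_comp_mul_left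
      (fun y => F (1 / (2 * G), y) * ee (s / G * y)) G
    have h6 : (fun x => (fun y => F (1 / (2 * G), y) * ee (s / G * y)) (G * x)) = g := by
      ext l
      simp only [hFdef, hg]
      have e1 : 1 / (2 * G) * (G * l) = l / 2 := by field_simp
      have e2 : s / G * (G * l) = s * l := by field_simp
      rw [e1, e2]
    rw [h6] at h5
    rw [h5, abs_of_pos (inv_pos.mpr hG0), Complex.real_smul]
  have h7 : (∫ y : ℝ, F (1 / (2 * G), y) * ee (s / G * y)) =
      ∫ y in (-2 : ℝ)..2, F (1 / (2 * G), y) * ee (s / G * y) := by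
    rw [intervalIntegral.integral_of_le (by norm_num), ← integral_indicator measurableSet_Ioc]
    congr 1
    ext y
    by_cases hy : y ∈ Ioc (-2 : ℝ) 2
    · rw [indicator_of_mem hy]
    · rw [indicator_of_notMem hy]
      have : 1 < |((1 / (2 * G), y) : ℝ × ℝ).2| := by
        by_contra hcon
        rw [not_lt] at hcon
        have := abs_le.mp hcon
        exact hy ⟨by simp only at this; linarith [this.1], by simp only at this; linarith [this.2]⟩
      rw [hz _ this, zero_mul]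
  have hd : 1 / (2 * G) ∈ Icc (0 : ℝ) 1 := by
    constructor
    · positivity
    · rw [div_le_one (by positivity)]
      linarith
  have h8 := hC (1 / (2 * G)) hd (s / G) (by positivity)
  rw [← h7] at h8
  have h9 : |∫ l in Ioi (0 : ℝ), f l| ≤ G⁻¹ * (C / (s / G) ^ 4) := by
    have e1 : (∫ l in Ioi (0 : ℝ), f l) = (∫ l : ℝ, g l).re / 2 := by linarith
    rw [e1, abs_div, abs_of_pos (by norm_num : (0 : ℝ) < 2)]
    have e2 : |(∫ l : ℝ, g l).re| ≤ ‖∫ l : ℝ, g l‖ := Complex.abs_re_le_norm _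
    have e3 : ‖∫ l : ℝ, g l‖ ≤ G⁻¹ * (C / (s / G) ^ 4) := by
      rw [h4, norm_mul, Complex.norm_real, Real.norm_eq_abs, abs_of_pos (inv_pos.mpr hG0)]
      gcongr
    have e4 : 0 ≤ |(∫ l : ℝ, g l).re| := abs_nonneg _
    linarith
  rw [h1, abs_mul, abs_of_nonneg hK]
  calc K * |∫ l in Ioi (0 : ℝ), f l| ≤ K * (G⁻¹ * (C / (s / G) ^ 4)) := by gcongr
    _ = C * K * G ^ 3 / s ^ 4 := by
      field_simp

lemma bz (z : ℝ) (hz : 0 < z) : |1 / (Real.exp z - 1) - 1 / z| ≤ 1 ∧
    |1 / (Real.exp z - 1) - 1 / z| ≤ 1 / z := by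
  have h1 : z ≤ Real.exp z - 1 := by linarith [Real.add_one_le_exp z]
  have h2 : 0 < Real.exp z - 1 := by linarith
  have h3 : 1 / (Real.exp z - 1) ≤ 1 / z := one_div_le_one_div_of_le hz h1
  have h4 : 0 < 1 / (Real.exp z - 1) := by positivity
  have h5 : |1 / (Real.exp z - 1) - 1 / z| = 1 / z - 1 / (Real.exp z - 1) := by
    rw [abs_sub_comm, abs_of_nonneg (by linarith)]
  rw [h5]
  refine ⟨?_, by linarith⟩
  rcases le_total z 1 with hz1 | hz1
  · have h6 := Real.abs_exp_sub_one_sub_id_le (x := z) (by rw [abs_of_pos hz]; exact hz1)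
    have h7 : Real.exp z - 1 - z ≤ z ^ 2 := (le_abs_self _).trans h6
    have h8 : 1 / z - 1 / (Real.exp z - 1) = (Real.exp z - 1 - z) / (z * (Real.exp z - 1)) := by
      field_simp
    rw [h8, div_le_one (by positivity)]
    nlinarith
  · have h6 : 1 / z ≤ 1 := by rw [div_le_one hz]; exact hz1
    linarith

lemma cth_pos {l : ℝ} (hl : 0 < l) : 0 < cth l := by
  unfold cth
  have h1 : 0 < Real.sinh (l / 2) := Real.sinh_pos_iff.mpr (by linarith)
  have h2 := Real.cosh_pos (l / 2)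
  positivity

lemma cth_meas : Measurable cth := by
  unfold cth
  have h1 : Measurable fun l : ℝ => Real.cosh (l / 2) := Real.continuous_cosh.measurable.comp (by fun_prop)
  have h2 : Measurable fun l : ℝ => Real.sinh (l / 2) := Real.continuous_sinh.measurable.comp (by fun_prop)
  exact h1.div h2

/-- the log integral -/
lemma logint (K G : ℝ) (hK : 0 < K) (hG : 0 < G) :
    ∫ l in (0 : ℝ)..(1 / G), (l + 1 / K)⁻¹ = Real.log (1 + K / G) := by
  rw [intervalIntegral.integral_comp_add_right (fun x => x⁻¹),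
    integral_inv_of_pos (by positivity) (by positivity)]
  congr 1
  field_simp
  ring

/-- the pointwise bound of the difference -/
lemma diff_bound (M K l t : ℝ) (hK : 0 < K) (hl : 0 < l) (ht : |t| ≤ M)
    (hs : 1 / (2 * Real.sinh (l / 2)) ≤ 1 / l) :
    |1 / (Real.exp (cth l / K) - 1) * (t / (2 * Real.sinh (l / 2))) -
      K * (t / (2 * Real.cosh (l / 2)))| ≤ 2 * M * (l + 1 / K)⁻¹ := by
  have hM : 0 ≤ M := (abs_nonneg t).trans ht
  have hsh : 0 < Real.sinh (l / 2) := Real.sinh_pos_iff.mpr (by linarith)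
  have hch := Real.cosh_pos (l / 2)
  have hch1 := Real.one_le_cosh (l / 2)
  have hz : 0 < cth l / K := div_pos (cth_pos hl) hK
  obtain ⟨hb1, hb2⟩ := bz (cth l / K) hz
  set b : ℝ := 1 / (Real.exp (cth l / K) - 1) - 1 / (cth l / K) with hb
  have h1 : 1 / (Real.exp (cth l / K) - 1) * (t / (2 * Real.sinh (l / 2))) -
      K * (t / (2 * Real.cosh (l / 2))) = b * (1 / (2 * Real.sinh (l / 2))) * t := by
    rw [hb]
    have h2 : K * (t / (2 * Real.cosh (l / 2))) = 1 / (cth l / K) * (t / (2 * Real.sinh (l / 2))) := by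
      unfold cth
      field_simp
    rw [h2]
    ring
  rw [h1, abs_mul, abs_mul, abs_of_pos (by positivity : (0 : ℝ) < 1 / (2 * Real.sinh (l / 2)))]
  have h3 : |b| * (1 / (2 * Real.sinh (l / 2))) ≤ 1 / l := by
    calc |b| * (1 / (2 * Real.sinh (l / 2))) ≤ 1 * (1 / l) := by gcongr
      _ = 1 / l := one_mul _
  have h4 : |b| * (1 / (2 * Real.sinh (l / 2))) ≤ K := by
    calc |b| * (1 / (2 * Real.sinh (l / 2))) ≤ (1 / (cth l / K)) * (1 / (2 * Real.sinh (l / 2))) := by
          gcongr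
      _ = K / (2 * Real.cosh (l / 2)) := by
          unfold cth
          field_simp
      _ ≤ K / 1 := by
          gcongr
          linarith
      _ = K := div_one K
  set q : ℝ := |b| * (1 / (2 * Real.sinh (l / 2))) with hq
  have hq0 : 0 ≤ q := by positivity
  have h5 : q * (l + 1 / K) ≤ 2 := by
    have e1 : q * l ≤ 1 := by
      calc q * l ≤ 1 / l * l := by gcongr
        _ = 1 := by field_simp
    have e2 : q * (1 / K) ≤ 1 := by
      calc q * (1 / K) ≤ K * (1 / K) := by gcongr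
        _ = 1 := by field_simp
    linarith
  have h6 : q ≤ 2 * (l + 1 / K)⁻¹ := by
    rw [← div_eq_mul_inv, le_div_iff₀ (by positivity)]
    exact h5
  calc q * |t| ≤ (2 * (l + 1 / K)⁻¹) * M := by gcongr
    _ = 2 * M * (l + 1 / K)⁻¹ := by ring

/-- the integrand of `II` for `h = 0` -/
def FI (Θ : ℝ → ℝ) (K G s : ℝ) (k : ℕ) (l : ℝ) : ℂ :=
  ((Real.exp (-(((k + 1 : ℕ) : ℝ) * cth l / K)) * Θ (G * l) / (2 * Real.sinh (l / 2)) : ℝ) : ℂ) *
    ee (s * l + ((k + 1 : ℕ) : ℝ) * ((0 : ℤ) : ℝ) / 2 * cth l)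

lemma II_eq (Θ : ℝ → ℝ) (K G s : ℝ) (k : ℕ) : II Θ K G s (k + 1) 0 = ∫ l in Ioi (0 : ℝ), FI Θ K G s k l := rfl

lemma FI_meas (Θ : ℝ → ℝ) (hΘ : Continuous Θ) (K G s : ℝ) (k : ℕ) : Measurable (FI Θ K G s k) := by
  unfold FI ee
  have h1 := cth_meas
  have h2 : Measurable fun l : ℝ => Real.sinh (l / 2) := Real.continuous_sinh.measurable.comp (by fun_prop)
  have h3 : Measurable fun l : ℝ => Θ (G * l) := hΘ.measurable.comp (by fun_prop)
  fun_prop

lemma FI_bound (hPf : StPf) (Θ : ℝ → ℝ) (M K G s : ℝ) (hM : ∀ x, |Θ x| ≤ M) (hsupp : ∀ x, 1 ≤ |x| → Θ x = 0)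
    (hK : 0 < K) (hG : 2 ≤ G) (k : ℕ) (l : ℝ) (hl : 0 < l) :
    ‖FI Θ K G s k l‖ ≤ (Ioc (0 : ℝ) (1 / G)).indicator
      (fun _ => M * K * Real.exp (-(G / K)) ^ (k + 1)) l := by
  have hM0 : 0 ≤ M := (abs_nonneg _).trans (hM 0)
  have hsh : 0 < Real.sinh (l / 2) := Real.sinh_pos_iff.mpr (by linarith)
  unfold FI
  rw [norm_mul, ee_norm, mul_one, Complex.norm_real, Real.norm_eq_abs]
  by_cases hl2 : l ≤ 1 / G
  · rw [indicator_of_mem (show l ∈ Ioc (0 : ℝ) (1 / G) from ⟨hl, hl2⟩)]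
    have hG0 : 0 < G := by linarith
    have hl3 : l ≤ 1 / 2 := hl2.trans (one_div_le_one_div_of_le (by norm_num) hG)
    obtain ⟨-, -, -, hP⟩ := hPf l hl
    obtain ⟨-, -, -, -, hc, -, hs⟩ := hP hl3
    have h1 : G ≤ 1 / l := by
      rw [le_div_iff₀ hl]
      calc G * l ≤ G * (1 / G) := by gcongr
        _ = 1 := by field_simp
    have h2 : G + 1 / l ≤ cth l := by
      have : 2 / l = 1 / l + 1 / l := by ring
      linarith
    have hk1 : (1 : ℝ) ≤ ((k + 1 : ℕ) : ℝ) := by
      exact_mod_cast Nat.succ_le_succ (Nat.zero_le k)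
    have h3 : Real.exp (-(((k + 1 : ℕ) : ℝ) * cth l / K)) ≤ Real.exp (-(G / K)) ^ (k + 1) * (l * K) := by
      have e1 : Real.exp (-(((k + 1 : ℕ) : ℝ) * cth l / K)) ≤
          Real.exp (((k + 1 : ℕ) : ℝ) * (-(G / K)) + -(1 / (l * K))) := by
        apply Real.exp_le_exp.mpr
        have e2 : ((k + 1 : ℕ) : ℝ) * G + 1 / l ≤ ((k + 1 : ℕ) : ℝ) * cth l := by
          have e3 : ((k + 1 : ℕ) : ℝ) * (G + 1 / l) ≤ ((k + 1 : ℕ) : ℝ) * cth l := by gcongr
          have e4 : 1 * (1 / l) ≤ ((k + 1 : ℕ) : ℝ) * (1 / l) := by gcongr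
          nlinarith
        have e5 : (((k + 1 : ℕ) : ℝ) * G + 1 / l) / K ≤ ((k + 1 : ℕ) : ℝ) * cth l / K := by gcongr
        have e6 : (((k + 1 : ℕ) : ℝ) * G + 1 / l) / K = ((k + 1 : ℕ) : ℝ) * (G / K) + 1 / (l * K) := by
          field_simp
        linarith
      have e7 : Real.exp (-(1 / (l * K))) ≤ l * K := by
        rw [Real.exp_neg]
        have e8 : 1 / (l * K) ≤ Real.exp (1 / (l * K)) := by
          linarith [Real.add_one_le_exp (1 / (l * K))]
        calc (Real.exp (1 / (l * K)))⁻¹ ≤ (1 / (l * K))⁻¹ := by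
              apply inv_anti₀ (by positivity) e8
          _ = l * K := by rw [one_div, inv_inv]
      calc Real.exp (-(((k + 1 : ℕ) : ℝ) * cth l / K))
          ≤ Real.exp (((k + 1 : ℕ) : ℝ) * (-(G / K)) + -(1 / (l * K))) := e1
        _ = Real.exp (-(G / K)) ^ (k + 1) * Real.exp (-(1 / (l * K))) := by
            rw [Real.exp_add, Real.exp_nat_mul]
        _ ≤ Real.exp (-(G / K)) ^ (k + 1) * (l * K) := by gcongr
    rw [abs_div, abs_mul, abs_of_pos (Real.exp_pos _), abs_of_pos (by positivity : (0 : ℝ) < 2 * Real.sinh (l / 2))]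
    calc Real.exp (-(((k + 1 : ℕ) : ℝ) * cth l / K)) * |Θ (G * l)| / (2 * Real.sinh (l / 2))
        = Real.exp (-(((k + 1 : ℕ) : ℝ) * cth l / K)) * |Θ (G * l)| * (1 / (2 * Real.sinh (l / 2))) := by ring
      _ ≤ (Real.exp (-(G / K)) ^ (k + 1) * (l * K)) * M * (1 / l) := by
          gcongr
          exact hM _
      _ = M * K * Real.exp (-(G / K)) ^ (k + 1) := by
          field_simp
  · rw [indicator_of_notMem (fun h => hl2 h.2)]
    have hG0 : 0 < G := by linarith
    rw [not_le] at hl2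
    have h1 : 1 ≤ |G * l| := by
      rw [abs_of_pos (by positivity)]
      calc (1 : ℝ) = G * (1 / G) := by field_simp
        _ ≤ G * l := by gcongr
    rw [hsupp _ h1]
    simp

end D0_aux

open D0_aux

theorem iD0 (hPf : StPf) : StD0 := by
  intro φ Θ h
  obtain ⟨C0, hC00, hC0⟩ := part1 φ Θ h
  obtain ⟨M, hM⟩ : ∃ M : ℝ, ∀ x, |Θ x| ≤ M := by
    have hcs : HasCompactSupport Θ := by
      apply HasCompactSupport.intro (isCompact_Icc (a := (-1 : ℝ)) (b := 1))
      intro l hl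
      apply h.supp
      by_contra hcon
      rw [not_le] at hcon
      exact hl (abs_le.mp hcon.le)
    obtain ⟨M, hM⟩ := hcs.exists_bound_of_continuous h.smooth.continuous
    exact ⟨M, fun x => hM x⟩
  have hM0 : 0 ≤ M := (abs_nonneg _).trans (hM 0)
  refine ⟨3 + 28561 * C0 + 6 * M, by linarith, ?_⟩
  intro T G s hT hG hGT hs
  have hT3 : 3 ≤ T := by nlinarith
  have hG2 : 2 ≤ G := by nlinarith
  have hT0 : 0 < T := by linarith
  have hG0 : 0 < G := by linarith
  have hK : 0 < T ^ 2 := by positivity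
  have hs1 : T / 13 ≤ s := by
    have h1 := hs.1
    have h2 : T / 13 ≤ T / (4 * Real.pi) := by
      apply div_le_div_of_nonneg_left hT0.le (by positivity)
      linarith [Real.pi_lt_d2]
    linarith
  have hs0 : 0 < s := by
    have : 0 < T / 13 := by positivity
    linarith
  -- integrability and summability
  set r : ℝ := Real.exp (-(G / T ^ 2)) with hr
  have hr0 : 0 < r := Real.exp_pos _
  have hr1 : r < 1 := by
    rw [hr, Real.exp_lt_one_iff]
    have : 0 < G / T ^ 2 := by positivity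
    linarith
  have hbdint : ∀ c : ℝ, Integrable ((Ioc (0 : ℝ) (1 / G)).indicator (fun _ => c)) (volume.restrict (Ioi 0)) := by
    intro c
    apply Integrable.restrict
    rw [integrable_indicator_iff measurableSet_Ioc]
    exact integrableOn_const (by simp) (by simp)
  have hb : ∀ k : ℕ, ∀ᵐ l ∂(volume.restrict (Ioi (0 : ℝ))), ‖FI Θ (T ^ 2) G s k l‖ ≤
      (Ioc (0 : ℝ) (1 / G)).indicator (fun _ => M * T ^ 2 * r ^ (k + 1)) l := by
    intro k
    filter_upwards [ae_restrict_mem measurableSet_Ioi] with l hl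
    exact FI_bound hPf Θ M (T ^ 2) G s hM h.supp hK hG2 k l hl
  have hint : ∀ k : ℕ, Integrable (FI Θ (T ^ 2) G s k) (volume.restrict (Ioi 0)) := by
    intro k
    exact (hbdint _).mono' (FI_meas Θ h.smooth.continuous (T ^ 2) G s k).aestronglyMeasurable (hb k)
  have hnint : ∀ k : ℕ, ∫ l in Ioi (0 : ℝ), ‖FI Θ (T ^ 2) G s k l‖ ≤ M * T ^ 2 / G * r ^ (k + 1) := by
    intro k
    calc ∫ l in Ioi (0 : ℝ), ‖FI Θ (T ^ 2) G s k l‖
        ≤ ∫ l in Ioi (0 : ℝ), (Ioc (0 : ℝ) (1 / G)).indicator (fun _ => M * T ^ 2 * r ^ (k + 1)) l :=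
          integral_mono_ae (hint k).norm (hbdint _) (hb k)
      _ = M * T ^ 2 / G * r ^ (k + 1) := by
          rw [setIntegral_indicator measurableSet_Ioc, integral_const]
          have e1 : Ioi (0 : ℝ) ∩ Ioc 0 (1 / G) = Ioc 0 (1 / G) := by
            ext x
            constructor
            · intro hx
              exact hx.2
            · intro hx
              exact ⟨hx.1, hx⟩
          rw [e1]
          simp only [measureReal_restrict_apply MeasurableSet.univ, univ_inter, Real.volume_real_Ioc,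
            smul_eq_mul, sub_zero]
          rw [max_eq_left (by positivity)]
          ring
  have hsumr : Summable fun k : ℕ => M * T ^ 2 / G * r ^ (k + 1) := by
    apply Summable.mul_left
    exact (summable_nat_add_iff 1).mpr (summable_geometric_of_lt_one hr0.le hr1)
  have hsumn : Summable fun k : ℕ => ∫ l in Ioi (0 : ℝ), ‖FI Θ (T ^ 2) G s k l‖ :=
    Summable.of_nonneg_of_le (fun k => integral_nonneg fun l => norm_nonneg _) hnint hsumr
  refine ⟨?_, ?_⟩
  · apply Summable.of_nonneg_of_le (fun k => norm_nonneg _) _ hsumn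
    intro k
    rw [II_eq]
    exact norm_integral_le_integral_norm _
  -- the sum
  have hsum := hasSum_integral_of_summable_integral_norm hint hsumn
  have hts : (∑' k : ℕ, II Θ (T ^ 2) G s (k + 1) 0) =
      ∫ l in Ioi (0 : ℝ), ∑' k : ℕ, FI Θ (T ^ 2) G s k l := by
    rw [← hsum.tsum_eq]
    rfl
  set W1 : ℝ → ℂ := fun l => ((T ^ 2 * (Θ (G * l) / (2 * Real.cosh (l / 2))) : ℝ) : ℂ) * ee (s * l) with hW1
  set W2 : ℝ → ℂ := fun l => ((1 / (Real.exp (cth l / T ^ 2) - 1) * (Θ (G * l) / (2 * Real.sinh (l / 2))) -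
      T ^ 2 * (Θ (G * l) / (2 * Real.cosh (l / 2))) : ℝ) : ℂ) * ee (s * l) with hW2
  have hpt : ∀ l ∈ Ioi (0 : ℝ), (∑' k : ℕ, FI Θ (T ^ 2) G s k l) = W1 l + W2 l := by
    intro l hl
    have hl0 : 0 < l := hl
    have hz : 0 < cth l / T ^ 2 := div_pos (cth_pos hl0) hK
    set e : ℝ := Real.exp (-(cth l / T ^ 2)) with he
    have he0 : 0 < e := Real.exp_pos _
    have he1 : e < 1 := by
      rw [he, Real.exp_lt_one_iff]
      linarith
    have h1 : ∀ k : ℕ, FI Θ (T ^ 2) G s k l =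
        ((e ^ (k + 1) * (Θ (G * l) / (2 * Real.sinh (l / 2))) : ℝ) : ℂ) * ee (s * l) := by
      intro k
      unfold FI
      have e1 : Real.exp (-(((k + 1 : ℕ) : ℝ) * cth l / T ^ 2)) = e ^ (k + 1) := by
        rw [he, ← Real.exp_nat_mul]
        congr 1
        ring
      have e2 : s * l + ((k + 1 : ℕ) : ℝ) * ((0 : ℤ) : ℝ) / 2 * cth l = s * l := by
        rw [Int.cast_zero]
        ring
      rw [e1, e2, mul_div_assoc]
    have h2 : HasSum (fun k : ℕ => e ^ (k + 1)) (1 / (Real.exp (cth l / T ^ 2) - 1)) := by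
      have h3 := (hasSum_geometric_of_lt_one he0.le he1).mul_left e
      have h4 : e * (1 - e)⁻¹ = 1 / (Real.exp (cth l / T ^ 2) - 1) := by
        have h5 : e = (Real.exp (cth l / T ^ 2))⁻¹ := by rw [he, Real.exp_neg]
        have h6 : 0 < Real.exp (cth l / T ^ 2) := Real.exp_pos _
        have h7 : 1 < Real.exp (cth l / T ^ 2) := Real.one_lt_exp_iff.mpr hz
        have h8 : Real.exp (cth l / T ^ 2) - 1 ≠ 0 := by linarith
        rw [h5]
        field_simp
      rw [h4] at h3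
      simpa only [pow_succ'] using h3
    have h9 : HasSum (fun k : ℕ => FI Θ (T ^ 2) G s k l)
        (((1 / (Real.exp (cth l / T ^ 2) - 1) * (Θ (G * l) / (2 * Real.sinh (l / 2))) : ℝ) : ℂ) * ee (s * l)) := by
      have h10 := h2.mul_right (Θ (G * l) / (2 * Real.sinh (l / 2)))
      have h11 := (Complex.hasSum_ofReal.mpr h10).mul_right (ee (s * l))
      rw [show (fun k : ℕ => FI Θ (T ^ 2) G s k l) = fun k : ℕ =>
        ((e ^ (k + 1) * (Θ (G * l) / (2 * Real.sinh (l / 2))) : ℝ) : ℂ) * ee (s * l) from funext h1]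
      exact h11
    rw [h9.tsum_eq, hW1, hW2]
    simp only
    rw [← add_mul, ← Complex.ofReal_add]
    congr 2
    ring
  have hts2 : (∑' k : ℕ, II Θ (T ^ 2) G s (k + 1) 0) = ∫ l in Ioi (0 : ℝ), (W1 l + W2 l) := by
    rw [hts]
    exact setIntegral_congr_fun measurableSet_Ioi hpt
  have hW1c : Continuous W1 := by
    rw [hW1]
    apply Continuous.mul
    · apply Complex.continuous_ofReal.comp
      apply continuous_const.mul
      apply Continuous.div
      · exact h.smooth.continuous.comp (continuous_const.mul continuous_id)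
      · exact continuous_const.mul (Real.continuous_cosh.comp (by fun_prop))
      · intro l
        have := Real.cosh_pos (l / 2)
        positivity
    · exact ee_cont (by fun_prop)
  have hW1s : HasCompactSupport W1 := by
    apply HasCompactSupport.intro (isCompact_Icc (a := (-1 : ℝ)) (b := 1))
    intro l hl
    have h3 : 1 ≤ |G * l| := by
      rw [abs_mul, abs_of_pos hG0]
      have h4 : 1 < |l| := by
        by_contra hcon
        rw [not_lt] at hcon
        exact hl (abs_le.mp hcon)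
      nlinarith
    simp only [hW1, h.supp _ h3, zero_div, mul_zero, Complex.ofReal_zero, zero_mul]
  have hW1i : IntegrableOn W1 (Ioi 0) := (hW1c.integrable_of_hasCompactSupport hW1s).integrableOn
  have hW2b : ∀ l ∈ Ioi (0 : ℝ), ‖W2 l‖ ≤
      (Ioc (0 : ℝ) (1 / G)).indicator (fun l => 2 * M * (l + 1 / T ^ 2)⁻¹) l := by
    intro l hl
    have hl0 : 0 < l := hl
    rw [hW2]
    simp only
    rw [norm_mul, ee_norm, mul_one, Complex.norm_real, Real.norm_eq_abs]
    by_cases hl2 : l ≤ 1 / G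
    · rw [indicator_of_mem (show l ∈ Ioc (0 : ℝ) (1 / G) from ⟨hl, hl2⟩)]
      have hl3 : l ≤ 1 / 2 := hl2.trans (one_div_le_one_div_of_le (by norm_num) hG2)
      obtain ⟨-, -, -, hP⟩ := hPf l hl0
      obtain ⟨-, -, -, -, -, -, hsi⟩ := hP hl3
      exact diff_bound M (T ^ 2) l (Θ (G * l)) hK hl0 (hM _) hsi
    · rw [indicator_of_notMem (fun h => hl2 h.2)]
      rw [not_le] at hl2
      have h1 : 1 ≤ |G * l| := by
        rw [abs_of_pos (by positivity)]
        calc (1 : ℝ) = G * (1 / G) := by field_simp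
          _ ≤ G * l := by gcongr
      rw [h.supp _ h1]
      simp
  have hbdi : IntegrableOn ((Ioc (0 : ℝ) (1 / G)).indicator (fun l => 2 * M * (l + 1 / T ^ 2)⁻¹)) (Ioi 0) := by
    apply Integrable.integrableOn
    rw [integrable_indicator_iff measurableSet_Ioc]
    apply (ContinuousOn.integrableOn_Icc _).mono_set Ioc_subset_Icc_self
    apply ContinuousOn.mul continuousOn_const
    apply ContinuousOn.inv₀ (by fun_prop)
    intro x hx
    have : 0 < x + 1 / T ^ 2 := by
      have := hx.1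
      positivity
    exact this.ne'
  have hW2m : Measurable W2 := by
    rw [hW2]
    have h2 : Measurable fun l : ℝ => Real.sinh (l / 2) := Real.continuous_sinh.measurable.comp (by fun_prop)
    have h2' : Measurable fun l : ℝ => Real.cosh (l / 2) := Real.continuous_cosh.measurable.comp (by fun_prop)
    have h3 : Measurable fun l : ℝ => Θ (G * l) := h.smooth.continuous.measurable.comp (by fun_prop)
    have m1 : Measurable fun l : ℝ => Real.exp (cth l / T ^ 2) :=
      Real.continuous_exp.measurable.comp (cth_meas.div_const _)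
    have m2 : Measurable fun l : ℝ => 1 / (Real.exp (cth l / T ^ 2) - 1) :=
      measurable_const.div (m1.sub measurable_const)
    have m3 : Measurable fun l : ℝ => Θ (G * l) / (2 * Real.sinh (l / 2)) :=
      h3.div (measurable_const.mul h2)
    have m4 : Measurable fun l : ℝ => T ^ 2 * (Θ (G * l) / (2 * Real.cosh (l / 2))) :=
      measurable_const.mul (h3.div (measurable_const.mul h2'))
    have m5 : Measurable fun l : ℝ => ee (s * l) := (ee_cont (by fun_prop)).measurable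
    exact (Complex.measurable_ofReal.comp ((m2.mul m3).sub m4)).mul m5
  have hae : ∀ᵐ l ∂(volume.restrict (Ioi (0 : ℝ))), ‖W2 l‖ ≤
      (Ioc (0 : ℝ) (1 / G)).indicator (fun l => 2 * M * (l + 1 / T ^ 2)⁻¹) l := by
    filter_upwards [ae_restrict_mem measurableSet_Ioi] with l hl
    exact hW2b l hl
  have hW2i : IntegrableOn W2 (Ioi 0) := Integrable.mono' hbdi hW2m.aestronglyMeasurable hae
  have hW2n : ‖∫ l in Ioi (0 : ℝ), W2 l‖ ≤ 2 * M * Real.log (1 + T ^ 2 / G) := by
    calc ‖∫ l in Ioi (0 : ℝ), W2 l‖ ≤ ∫ l in Ioi (0 : ℝ), ‖W2 l‖ := norm_integral_le_integral_norm _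
      _ ≤ ∫ l in Ioi (0 : ℝ), (Ioc (0 : ℝ) (1 / G)).indicator (fun l => 2 * M * (l + 1 / T ^ 2)⁻¹) l :=
          integral_mono_ae hW2i.norm hbdi hae
      _ = 2 * M * Real.log (1 + T ^ 2 / G) := by
          rw [setIntegral_indicator measurableSet_Ioc]
          have e1 : Ioi (0 : ℝ) ∩ Ioc 0 (1 / G) = Ioc 0 (1 / G) := by
            ext x
            constructor
            · intro hx
              exact hx.2
            · intro hx
              exact ⟨hx.1, hx⟩
          rw [e1, integral_const_mul, ← intervalIntegral.integral_of_le (by positivity), logint _ _ hK hG0]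
  have hlog1 : 1 ≤ Real.log T := by
    rw [Real.le_log_iff_exp_le hT0]
    linarith [Real.exp_one_lt_d9]
  have hlog2 : Real.log (1 + T ^ 2 / G) ≤ 3 * Real.log T := by
    have e1 : 1 + T ^ 2 / G ≤ T ^ 3 := by
      have e2 : T ^ 2 / G ≤ T ^ 2 / 1 := by
        gcongr
        linarith
      nlinarith [sq_nonneg T]
    calc Real.log (1 + T ^ 2 / G) ≤ Real.log (T ^ 3) := Real.log_le_log (by positivity) e1
      _ = 3 * Real.log T := by rw [Real.log_pow]; norm_num
  have hre : (∫ l in Ioi (0 : ℝ), W1 l).re = ∫ l in Ioi (0 : ℝ),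
      T ^ 2 * (Θ (G * l) / (2 * Real.cosh (l / 2))) * Real.cos (2 * Real.pi * (s * l)) := by
    have e1 : (∫ l in Ioi (0 : ℝ), W1 l).re = ∫ l in Ioi (0 : ℝ), (W1 l).re := (integral_re hW1i).symm
    rw [e1]
    congr 1
    ext l
    rw [hW1]
    simp only
    rw [Complex.re_ofReal_mul, ee, Complex.exp_ofReal_mul_I_re]
  rw [hts2, integral_add hW1i hW2i, Complex.add_re]
  have hp1 := hC0 G s (T ^ 2) (by linarith) hs0 hK.le
  rw [← hre] at hp1
  have hp2 : C0 * T ^ 2 * G ^ 3 / s ^ 4 ≤ 28561 * C0 := by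
    have e1 : G ^ 3 ≤ T ^ 2 := by
      have e2 : G ≤ T := by nlinarith
      calc G ^ 3 = G * G ^ 2 := by ring
        _ ≤ T * T := by gcongr
        _ = T ^ 2 := by ring
    have e3 : (T / 13) ^ 4 ≤ s ^ 4 := by gcongr
    calc C0 * T ^ 2 * G ^ 3 / s ^ 4 ≤ C0 * T ^ 2 * T ^ 2 / (T / 13) ^ 4 := by gcongr
      _ = 28561 * C0 := by
        field_simp
        ring
  have hp3 : |(∫ l in Ioi (0 : ℝ), W2 l).re| ≤ 6 * M * Real.log T := by
    calc |(∫ l in Ioi (0 : ℝ), W2 l).re| ≤ ‖∫ l in Ioi (0 : ℝ), W2 l‖ := Complex.abs_re_le_norm _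
      _ ≤ 2 * M * Real.log (1 + T ^ 2 / G) := hW2n
      _ ≤ 2 * M * (3 * Real.log T) := by gcongr
      _ = 6 * M * Real.log T := by ring
  have hp4 : |(∫ l in Ioi (0 : ℝ), W1 l).re + (∫ l in Ioi (0 : ℝ), W2 l).re| ≤
      |(∫ l in Ioi (0 : ℝ), W1 l).re| + |(∫ l in Ioi (0 : ℝ), W2 l).re| := abs_add_le _ _
  have hp5 : 28561 * C0 ≤ 28561 * C0 * Real.log T := by
    have : 0 ≤ 28561 * C0 := by positivity
    nlinarith
  have hp6 : (3 + 28561 * C0 + 6 * M) * Real.log T =
      3 * Real.log T + 28561 * C0 * Real.log T + 6 * M * Real.log T := by ring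
  linarith

end Pool.Agent.Work.MP_56b8f5_nt.UB
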