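import Pool.Agent.Work.MP_56b8f5_nt.UB.Stmts

/-!
Item DD of block UB: the dual formula for short mean squares, `iDD`.
-/

open MeasureTheory Set Filter Topology

noncomputable section

namespace Pool.Agent.Work.MP_56b8f5_nt.UB

namespace DD_aux

/-- The diagonal contribution. -/
theorem diag (T : ℝ) (hT : 2 ≤ T) :
    ∑' a : ℕ, Real.exp (-(2 * ((a : ℝ) + 1) / T ^ 2)) / ((a : ℝ) + 1) ≤ 2 * Real.log T := by
  have hT0 : 0 < T := by linarith
  have hT2 : (4 : ℝ) ≤ T ^ 2 := by nlinarith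
  set u : ℝ := 2 / T ^ 2 with hu
  have hu0 : 0 < u := by positivity
  set x : ℝ := Real.exp (-u) with hx
  have hx0 : 0 < x := Real.exp_pos _
  have hx1 : x ≤ 1 / (1 + u) := by
    rw [hx, Real.exp_neg, ← one_div]
    apply one_div_le_one_div_of_le (by positivity)
    have := Real.add_one_le_exp u
    linarith
  have hx2 : 1 / T ^ 2 ≤ 1 - x := by
    have h1 : 1 - 1 / (1 + u) = 2 / (T ^ 2 + 2) := by
      rw [hu]; field_simp; ring
    have h2 : 1 / T ^ 2 ≤ 2 / (T ^ 2 + 2) := by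
      rw [div_le_div_iff₀ (by positivity) (by positivity)]; nlinarith
    linarith
  have hpos : (0 : ℝ) < 1 / T ^ 2 := by positivity
  have hx3 : x < 1 := by linarith
  have h := Real.hasSum_pow_div_log_of_abs_lt_one (x := x) (by rw [abs_of_pos hx0]; exact hx3)
  have he : (fun a : ℕ => Real.exp (-(2 * ((a : ℝ) + 1) / T ^ 2)) / ((a : ℝ) + 1)) =
      fun n : ℕ => x ^ (n + 1) / ((n : ℝ) + 1) := by
    funext a
    rw [hx, ← Real.exp_nat_mul, hu]
    congr 2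
    push_cast
    ring
  rw [he, h.tsum_eq]
  have h3 := Real.log_le_log hpos hx2
  have h4 : Real.log (1 / T ^ 2) = -(2 * Real.log T) := by
    rw [one_div, Real.log_inv, Real.log_pow]; push_cast; ring
  linarith

/-- `∑_{h ≤ H} h^{-1/2} ≤ 2 √H` -/
theorem sumsqrt (H : ℕ) : ∑ h ∈ Finset.Icc 1 H, 1 / Real.sqrt (h : ℝ) ≤ 2 * Real.sqrt (H : ℝ) := by
  induction H with
  | zero => simp
  | succ n ih =>
    rw [Finset.sum_Icc_succ_top (by omega)]
    have ha : 0 ≤ Real.sqrt (n : ℝ) := Real.sqrt_nonneg _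
    have hb : 0 < Real.sqrt ((n + 1 : ℕ) : ℝ) := Real.sqrt_pos.mpr (by positivity)
    have ha2 : Real.sqrt (n : ℝ) ^ 2 = n := Real.sq_sqrt (by positivity)
    have hb2 : Real.sqrt ((n + 1 : ℕ) : ℝ) ^ 2 = (n : ℝ) + 1 := by
      rw [Real.sq_sqrt (by positivity)]; push_cast; ring
    have key : 1 / Real.sqrt ((n + 1 : ℕ) : ℝ) ≤
        2 * Real.sqrt ((n + 1 : ℕ) : ℝ) - 2 * Real.sqrt (n : ℝ) := by
      rw [div_le_iff₀ hb]
      nlinarith [sq_nonneg (Real.sqrt ((n + 1 : ℕ) : ℝ) - Real.sqrt (n : ℝ))]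
    linarith

/-- `∑_{k < N} 1/(k+1) ≤ 1 + log N` -/
theorem harm (N : ℕ) : ∑ k ∈ Finset.range N, 1 / ((k : ℝ) + 1) ≤ 1 + Real.log N := by
  have h := harmonic_le_one_add_log N
  have h2 : ((harmonic N : ℚ) : ℝ) = ∑ k ∈ Finset.range N, 1 / ((k : ℝ) + 1) := by
    unfold harmonic
    push_cast
    refine Finset.sum_congr rfl ?_
    intro k _
    rw [one_div]
  rw [← h2]
  exact h

/-- a finitely supported sum over the integers -/
theorem hasSum_if {E : Type*} [AddCommMonoid E] [TopologicalSpace E] (f : ℕ → E) (k N0 : ℕ) :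
    HasSum (fun h : ℤ => if 1 ≤ h ∧ (k + 1) * h.toNat ≤ N0 then f h.toNat else 0)
      (∑ h ∈ Finset.Icc 1 (N0 / (k + 1)), f h) := by
  have h1 : ∑ h ∈ Finset.Icc 1 (N0 / (k + 1)), f h =
      ∑ h ∈ (Finset.Icc 1 (N0 / (k + 1))).map ⟨fun n : ℕ => (n : ℤ), Nat.cast_injective⟩,
        (if 1 ≤ h ∧ (k + 1) * h.toNat ≤ N0 then f h.toNat else 0) := by
    rw [Finset.sum_map]
    refine Finset.sum_congr rfl ?_
    intro h hh
    rw [Finset.mem_Icc, Nat.le_div_iff_mul_le (by omega)] at hh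
    have h2 : (1 : ℤ) ≤ (h : ℤ) ∧ (k + 1) * h ≤ N0 := ⟨by exact_mod_cast hh.1, by
      rw [mul_comm]; exact hh.2⟩
    simp only [Function.Embedding.coeFn_mk, Int.toNat_natCast]
    rw [if_pos h2]
  rw [h1]
  apply hasSum_sum_of_ne_finset_zero
  intro h hh
  apply if_neg
  rintro ⟨h2, h3⟩
  apply hh
  rw [Finset.mem_map]
  refine ⟨h.toNat, ?_, ?_⟩
  · rw [Finset.mem_Icc, Nat.le_div_iff_mul_le (by omega)]
    refine ⟨by omega, ?_⟩
    rw [mul_comm]; exact h3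
  · simp only [Function.Embedding.coeFn_mk]
    omega

/-- the divisor rearrangement -/
theorem divsum (F : ℕ → ℂ) (N0 : ℕ) :
    ∑ k ∈ Finset.range N0, ∑ h ∈ Finset.Icc 1 (N0 / (k + 1)), F ((k + 1) * h) =
      ∑ n ∈ Finset.Icc 1 N0, (n.divisors.card : ℂ) * F n := by
  have h1 : ∀ n ∈ Finset.Icc 1 N0, (n.divisors.card : ℂ) * F n = ∑ d ∈ n.divisors, F n := by
    intro n _
    rw [Finset.sum_const, nsmul_eq_mul]
  rw [Finset.sum_congr rfl h1]
  rw [Finset.sum_sigma', Finset.sum_sigma']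
  refine Finset.sum_bij' (fun p _ => ⟨(p.1 + 1) * p.2, p.1 + 1⟩) (fun p _ => ⟨p.2 - 1, p.1 / p.2⟩)
    ?_ ?_ ?_ ?_ ?_
  · rintro ⟨k, h⟩ hp
    rw [Finset.mem_sigma, Finset.mem_range, Finset.mem_Icc, Nat.le_div_iff_mul_le (by omega)] at hp
    obtain ⟨h2, h3, h4⟩ := hp
    simp only at h2 h3 h4
    rw [Finset.mem_sigma, Finset.mem_Icc, Nat.mem_divisors]
    have h5 : 0 < (k + 1) * h := by positivity
    refine ⟨⟨h5, ?_⟩, Dvd.intro _ rfl, h5.ne'⟩
    rw [mul_comm]; exact h4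
  · rintro ⟨n, d⟩ hp
    rw [Finset.mem_sigma, Finset.mem_Icc, Nat.mem_divisors] at hp
    obtain ⟨⟨h2, h3⟩, h4, h5⟩ := hp
    simp only at h2 h3 h4 h5
    have hd : 0 < d := Nat.pos_of_dvd_of_pos h4 (by omega)
    have hdn : d ≤ n := Nat.le_of_dvd (by omega) h4
    rw [Finset.mem_sigma, Finset.mem_range, Finset.mem_Icc]
    simp only
    have h6 : d - 1 + 1 = d := by omega
    rw [h6]
    refine ⟨by omega, ?_, Nat.div_le_div_right h3⟩
    exact Nat.div_pos hdn hd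
  · rintro ⟨k, h⟩ hp
    simp only [Sigma.mk.injEq, heq_eq_eq]
    refine ⟨by omega, ?_⟩
    exact Nat.mul_div_cancel_left h (by omega)
  · rintro ⟨n, d⟩ hp
    rw [Finset.mem_sigma, Finset.mem_Icc, Nat.mem_divisors] at hp
    obtain ⟨⟨h2, h3⟩, h4, h5⟩ := hp
    simp only at h2 h3 h4 h5
    have hd : 0 < d := Nat.pos_of_dvd_of_pos h4 (by omega)
    have h6 : d - 1 + 1 = d := by omega
    simp only [Sigma.mk.injEq, heq_eq_eq]
    rw [h6]
    exact ⟨Nat.mul_div_cancel' h4, rfl⟩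
  · rintro ⟨k, h⟩ hp
    rfl

/-- near part for one `k` -/
theorem nearK (k N0 : ℕ) :
    ∑ h ∈ Finset.Icc 1 (N0 / (k + 1)), 1 / Real.sqrt (((k : ℝ) + 1) * h) ≤
      if k < N0 then 2 * Real.sqrt N0 * (1 / ((k : ℝ) + 1)) else 0 := by
  split_ifs with hk
  · have hk0 : (0 : ℝ) < (k : ℝ) + 1 := by positivity
    have hs : 0 < Real.sqrt ((k : ℝ) + 1) := Real.sqrt_pos.mpr hk0
    have h1 : ∑ h ∈ Finset.Icc 1 (N0 / (k + 1)), 1 / Real.sqrt (((k : ℝ) + 1) * h) =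
        1 / Real.sqrt ((k : ℝ) + 1) * ∑ h ∈ Finset.Icc 1 (N0 / (k + 1)), 1 / Real.sqrt (h : ℝ) := by
      rw [Finset.mul_sum]
      refine Finset.sum_congr rfl ?_
      intro h _
      rw [Real.sqrt_mul hk0.le, one_div_mul_one_div]
    rw [h1]
    have h2 : Real.sqrt ((N0 / (k + 1) : ℕ) : ℝ) ≤ Real.sqrt N0 / Real.sqrt ((k : ℝ) + 1) := by
      rw [← Real.sqrt_div' _ hk0.le]
      apply Real.sqrt_le_sqrt
      have := @Nat.cast_div_le ℝ _ _ _ N0 (k + 1)
      push_cast at this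
      exact this
    have h3 := sumsqrt (N0 / (k + 1))
    have h4 : ∑ h ∈ Finset.Icc 1 (N0 / (k + 1)), 1 / Real.sqrt (h : ℝ) ≤
        2 * (Real.sqrt N0 / Real.sqrt ((k : ℝ) + 1)) := by linarith
    calc 1 / Real.sqrt ((k : ℝ) + 1) * ∑ h ∈ Finset.Icc 1 (N0 / (k + 1)), 1 / Real.sqrt (h : ℝ)
        ≤ 1 / Real.sqrt ((k : ℝ) + 1) * (2 * (Real.sqrt N0 / Real.sqrt ((k : ℝ) + 1))) :=
          mul_le_mul_of_nonneg_left h4 (by positivity)
      _ = 2 * Real.sqrt N0 * (1 / (Real.sqrt ((k : ℝ) + 1) * Real.sqrt ((k : ℝ) + 1))) := by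
          field_simp
      _ = 2 * Real.sqrt N0 * (1 / ((k : ℝ) + 1)) := by
          rw [Real.mul_self_sqrt hk0.le]
  · have h1 : N0 / (k + 1) = 0 := Nat.div_eq_of_lt (by omega)
    rw [h1]
    simp

/-- the summability constants -/
theorem sumNat : Summable fun k : ℕ => 1 / ((k : ℝ) + 1) ^ 2 := by
  have h := (summable_nat_add_iff 1).mpr (Real.summable_one_div_nat_pow.mpr (le_refl 2))
  refine h.congr ?_
  intro k
  push_cast
  rfl

theorem sumInt : Summable fun h : ℤ => 1 / (h : ℝ) ^ 2 :=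
  Real.summable_one_div_int_pow.mpr (by norm_num)

/-- the abstract rearrangement -/
theorem core (Z : ℕ → ℤ → ℂ) (F : ℕ → ℂ) (N0 : ℕ) (A B : ℝ) (hA : 0 ≤ A) (hB : 0 ≤ B)
    (hs : ∀ k, Summable (Z k)) (h0 : Summable fun k => Z k 0)
    (hfar : ∀ (k : ℕ) (h : ℤ), h ≠ 0 → (h < 0 ∨ (N0 : ℤ) < ((k : ℤ) + 1) * h) →
      ‖Z k h‖ ≤ A / (((k : ℝ) + 1) * h) ^ 2)
    (hnear : ∀ (k h : ℕ), 1 ≤ h → (k + 1) * h ≤ N0 →
      ‖Z k h - F ((k + 1) * h)‖ ≤ B / Real.sqrt (((k : ℝ) + 1) * h)) :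
    ‖(∑' k, ∑' h, Z k h) - (∑' k, Z k 0) - ∑ n ∈ Finset.Icc 1 N0, (n.divisors.card : ℂ) * F n‖ ≤
      A * ((∑' k : ℕ, 1 / ((k : ℝ) + 1) ^ 2) * (∑' h : ℤ, 1 / (h : ℝ) ^ 2)) +
        B * (2 * Real.sqrt N0 * (1 + Real.log N0)) := by
  set S := ∑' h : ℤ, 1 / (h : ℝ) ^ 2 with hS
  set M : ℕ → ℂ := fun k => ∑ h ∈ Finset.Icc 1 (N0 / (k + 1)), F ((k + 1) * h) with hM
  set Q : ℕ → ℝ := fun k => ∑ h ∈ Finset.Icc 1 (N0 / (k + 1)), B / Real.sqrt (((k : ℝ) + 1) * h)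
    with hQ
  set E : ℕ → ℂ := fun k => (∑' h, Z k h) - Z k 0 - M k with hE
  -- pointwise bound
  have hbd : ∀ k, ‖E k‖ ≤ A * (1 / ((k : ℝ) + 1) ^ 2) * S + Q k := by
    intro k
    have hm := hasSum_if (fun h => F ((k + 1) * h)) k N0
    have hz : HasSum (fun h : ℤ => if h = 0 then Z k 0 else 0) (Z k 0) := by
      have := hasSum_ite_eq (0 : ℤ) (Z k 0)
      exact this
    have hg := ((hs k).hasSum.sub hz).sub hm
    have hb1 : HasSum (fun h : ℤ => A * (1 / ((k : ℝ) + 1) ^ 2) * (1 / (h : ℝ) ^ 2))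
        (A * (1 / ((k : ℝ) + 1) ^ 2) * S) := sumInt.hasSum.mul_left _
    have hb2 := hasSum_if (fun h : ℕ => B / Real.sqrt (((k : ℝ) + 1) * h)) k N0
    have hb := hb1.add hb2
    have hle : ∀ h : ℤ, ‖Z k h - (if h = 0 then Z k 0 else 0) -
        (if 1 ≤ h ∧ (k + 1) * h.toNat ≤ N0 then F ((k + 1) * h.toNat) else 0)‖ ≤
        A * (1 / ((k : ℝ) + 1) ^ 2) * (1 / (h : ℝ) ^ 2) +
        (if 1 ≤ h ∧ (k + 1) * h.toNat ≤ N0 then B / Real.sqrt (((k : ℝ) + 1) * (h.toNat : ℕ)) else 0) := by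
      intro h
      have hp1 : 0 ≤ A * (1 / ((k : ℝ) + 1) ^ 2) * (1 / (h : ℝ) ^ 2) := by positivity
      have heq : A / (((k : ℝ) + 1) * h) ^ 2 = A * (1 / ((k : ℝ) + 1) ^ 2) * (1 / (h : ℝ) ^ 2) := by
        rw [mul_pow, one_div, one_div, div_eq_mul_inv, mul_inv]; ring
      by_cases hc : 1 ≤ h ∧ (k + 1) * h.toNat ≤ N0
      · have hne : h ≠ 0 := by omega
        rw [if_neg hne, if_pos hc, if_pos hc, sub_zero]
        have h1 := hnear k h.toNat (by omega) hc.2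
        have h2 : ((h.toNat : ℕ) : ℤ) = h := by omega
        rw [h2] at h1
        linarith
      · rw [if_neg hc, if_neg hc, sub_zero, add_zero]
        by_cases hz0 : h = 0
        · rw [if_pos hz0, hz0, sub_self, norm_zero]
          positivity
        · rw [if_neg hz0, sub_zero, ← heq]
          apply hfar k h hz0
          by_cases hneg : h < 0
          · exact Or.inl hneg
          · right
            have h1 : 1 ≤ h := by omega
            have h2 : ¬ (k + 1) * h.toNat ≤ N0 := fun h3 => hc ⟨h1, h3⟩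
            have h3 : N0 < (k + 1) * h.toNat := by omega
            have h4 : ((h.toNat : ℕ) : ℤ) = h := by omega
            have h5 : (N0 : ℤ) < (((k + 1) * h.toNat : ℕ) : ℤ) := by exact_mod_cast h3
            rw [Nat.cast_mul, h4] at h5
            push_cast at h5
            exact h5
    have hfin := tsum_of_norm_bounded hb hle
    rw [hg.tsum_eq] at hfin
    exact hfin
  -- bound for Q
  have hQle : ∀ k, Q k ≤ B * (if k < N0 then 2 * Real.sqrt N0 * (1 / ((k : ℝ) + 1)) else 0) := by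
    intro k
    have h1 : Q k = B * ∑ h ∈ Finset.Icc 1 (N0 / (k + 1)), 1 / Real.sqrt (((k : ℝ) + 1) * h) := by
      rw [Finset.mul_sum]
      refine Finset.sum_congr rfl ?_
      intro h _
      rw [mul_one_div]
    rw [h1]
    exact mul_le_mul_of_nonneg_left (nearK k N0) hB
  have hR : HasSum (fun k : ℕ => B * (if k < N0 then 2 * Real.sqrt N0 * (1 / ((k : ℝ) + 1)) else 0))
      (B * ∑ k ∈ Finset.range N0, 2 * Real.sqrt N0 * (1 / ((k : ℝ) + 1))) := by
    apply HasSum.mul_left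
    have h1 : ∑ k ∈ Finset.range N0, 2 * Real.sqrt N0 * (1 / ((k : ℝ) + 1)) =
        ∑ k ∈ Finset.range N0, (if k < N0 then 2 * Real.sqrt N0 * (1 / ((k : ℝ) + 1)) else 0) := by
      refine Finset.sum_congr rfl ?_
      intro k hk
      rw [if_pos (Finset.mem_range.mp hk)]
    rw [h1]
    apply hasSum_sum_of_ne_finset_zero
    intro k hk
    rw [Finset.mem_range] at hk
    rw [if_neg hk]
  have hR2 : B * ∑ k ∈ Finset.range N0, 2 * Real.sqrt N0 * (1 / ((k : ℝ) + 1)) ≤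
      B * (2 * Real.sqrt N0 * (1 + Real.log N0)) := by
    apply mul_le_mul_of_nonneg_left _ hB
    rw [← Finset.mul_sum]
    exact mul_le_mul_of_nonneg_left (harm N0) (by positivity)
  have hEs : HasSum (fun k : ℕ => A * (1 / ((k : ℝ) + 1) ^ 2) * S +
      B * (if k < N0 then 2 * Real.sqrt N0 * (1 / ((k : ℝ) + 1)) else 0))
      (A * (∑' k : ℕ, 1 / ((k : ℝ) + 1) ^ 2) * S +
        B * ∑ k ∈ Finset.range N0, 2 * Real.sqrt N0 * (1 / ((k : ℝ) + 1))) :=
    ((sumNat.hasSum.mul_left A).mul_right S).add hR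
  have hEle : ∀ k, ‖E k‖ ≤ A * (1 / ((k : ℝ) + 1) ^ 2) * S +
      B * (if k < N0 then 2 * Real.sqrt N0 * (1 / ((k : ℝ) + 1)) else 0) := by
    intro k
    have h1 := hbd k
    have h2 := hQle k
    linarith
  have hEsum : Summable E := Summable.of_norm_bounded hEs.summable hEle
  have hEn := tsum_of_norm_bounded hEs hEle
  -- the main part
  have hMs : HasSum M (∑ k ∈ Finset.range N0, M k) := by
    apply hasSum_sum_of_ne_finset_zero
    intro k hk
    rw [Finset.mem_range] at hk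
    have h1 : N0 / (k + 1) = 0 := Nat.div_eq_of_lt (by omega)
    rw [hM]
    simp only
    rw [h1]
    simp
  have htot : HasSum (fun k => ∑' h, Z k h) ((∑' k, E k) + (∑' k, Z k 0) + ∑ k ∈ Finset.range N0, M k) := by
    have h1 := (hEsum.hasSum.add h0.hasSum).add hMs
    refine h1.congr_fun ?_
    intro k
    rw [hE]
    simp only
    ring
  rw [htot.tsum_eq, ← divsum F N0]
  have h2 : (∑' k, E k) + (∑' k, Z k 0) + ∑ k ∈ Finset.range N0, M k - (∑' k, Z k 0) -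
      ∑ k ∈ Finset.range N0, ∑ h ∈ Finset.Icc 1 (N0 / (k + 1)), F ((k + 1) * h) = ∑' k, E k := by
    rw [hM]
    ring
  rw [h2]
  calc ‖∑' k, E k‖ ≤ A * (∑' k : ℕ, 1 / ((k : ℝ) + 1) ^ 2) * S +
        B * ∑ k ∈ Finset.range N0, 2 * Real.sqrt N0 * (1 / ((k : ℝ) + 1)) := hEn
    _ ≤ _ := by
      rw [mul_assoc]
      linarith

/-- the elementary inequality for the size of the near part -/
theorem nearBd (T w c : ℝ) (hT : 0 < T) (hw : 0 < w) (hwc : w ≤ c * T) :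
    1 / Real.sqrt (w * T) + Real.sqrt (w * T) / T ^ 2 ≤ (1 + c) / Real.sqrt T / Real.sqrt w := by
  have h1 : Real.sqrt (w * T) = Real.sqrt w * Real.sqrt T := Real.sqrt_mul hw.le _
  have hw1 : 0 < Real.sqrt w := Real.sqrt_pos.mpr hw
  have hT1 : 0 < Real.sqrt T := Real.sqrt_pos.mpr hT
  have hw2 : Real.sqrt w ^ 2 = w := Real.sq_sqrt hw.le
  have hT2 : Real.sqrt T ^ 2 = T := Real.sq_sqrt hT.le
  have h2 : Real.sqrt (w * T) / T ^ 2 ≤ c / (Real.sqrt w * Real.sqrt T) := by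
    rw [h1, div_le_div_iff₀ (by positivity) (by positivity)]
    have h3 : Real.sqrt w * Real.sqrt T * (Real.sqrt w * Real.sqrt T) = w * T := by
      calc _ = Real.sqrt w ^ 2 * Real.sqrt T ^ 2 := by ring
        _ = w * T := by rw [hw2, hT2]
    rw [h3]
    nlinarith [mul_le_mul_of_nonneg_right hwc hT.le]
  rw [h1] at h2 ⊢
  have h4 : (1 + c) / Real.sqrt T / Real.sqrt w =
      1 / (Real.sqrt w * Real.sqrt T) + c / (Real.sqrt w * Real.sqrt T) := by
    rw [div_div, mul_comm (Real.sqrt T), add_div]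
  rw [h4]
  linarith

/-- the point `t/2π` is in the interval -/
theorem memI (T t : ℝ) (ht1 : T / 2 ≤ t) (ht2 : t ≤ 4 * T) : t / (2 * Real.pi) ∈ sI T := by
  have hpi := Real.pi_pos
  rw [sI, Set.mem_Icc]
  constructor
  · have h : T / (4 * Real.pi) = T / 2 / (2 * Real.pi) := by field_simp; ring
    rw [h]
    exact div_le_div_of_nonneg_right ht1 (by positivity)
  · have h : 2 * T / Real.pi = 4 * T / (2 * Real.pi) := by field_simp; ring
    rw [h]
    exact div_le_div_of_nonneg_right ht2 (by positivity)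

theorem one_le_sq2 (G : ℝ) (hG : 2 ≤ G) : (1 : ℝ) ≤ G ^ 2 := by nlinarith

/-- bound for the logarithm of the length -/
theorem logN (N0 : ℕ) (Cf T : ℝ) (hCf : 2 ≤ Cf) (hT : 2 ≤ T) (h : (N0 : ℝ) ≤ Cf * T) :
    Real.log N0 ≤ Real.log Cf + Real.log T := by
  rw [← Real.log_mul (by linarith) (by linarith)]
  rcases Nat.eq_zero_or_pos N0 with h1 | h1
  · rw [h1, Nat.cast_zero, Real.log_zero]
    apply Real.log_nonneg
    nlinarith
  · exact Real.log_le_log (by exact_mod_cast h1) h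

/-- bound for the square root of the length -/
theorem sqrtN (N0 : ℕ) (Cf T : ℝ) (hCf : 2 ≤ Cf) (hT : 2 ≤ T) (h : (N0 : ℝ) ≤ Cf * T) :
    Real.sqrt N0 ≤ Cf * Real.sqrt T := by
  apply Real.sqrt_le_iff.mpr
  constructor
  · positivity
  · rw [mul_pow, Real.sq_sqrt (by linarith)]
    have h1 : Cf * T ≤ Cf ^ 2 * T := by nlinarith [mul_pos (show 0 < Cf by linarith) (show 0 < T by linarith)]
    linarith

/-- size of the near part -/
theorem sizeB (N0 : ℕ) (Cn Cf T : ℝ) (hCn : 2 ≤ Cn) (hCf : 2 ≤ Cf) (hT : 2 ≤ T) (hl : 1 ≤ 2 * Real.log T)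
    (h : (N0 : ℝ) ≤ Cf * T) :
    Cn * ((1 + Cf) / Real.sqrt T) * (2 * Real.sqrt N0 * (1 + Real.log N0)) ≤
      2 * (Cn * (1 + Cf) * Cf) * (3 + 2 * Real.log Cf) * Real.log T := by
  have hT1 : 0 < Real.sqrt T := Real.sqrt_pos.mpr (by linarith)
  have hlCf : 0 ≤ Real.log Cf := Real.log_nonneg (by linarith)
  have h1 : Cn * ((1 + Cf) / Real.sqrt T) * (2 * Real.sqrt N0) ≤ 2 * (Cn * (1 + Cf) * Cf) := by
    have h2 : Cn * ((1 + Cf) / Real.sqrt T) * (2 * Real.sqrt N0) =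
        2 * (Cn * (1 + Cf)) * (Real.sqrt N0 / Real.sqrt T) := by ring
    have h3 : Real.sqrt N0 / Real.sqrt T ≤ Cf := by
      rw [div_le_iff₀ hT1]; exact sqrtN N0 Cf T hCf hT h
    rw [h2]
    have h4 : 2 * (Cn * (1 + Cf)) * (Real.sqrt N0 / Real.sqrt T) ≤ 2 * (Cn * (1 + Cf)) * Cf :=
      mul_le_mul_of_nonneg_left h3 (by positivity)
    linarith
  have hlogN := logN N0 Cf T hCf hT h
  have h5 : 1 + Real.log N0 ≤ (3 + 2 * Real.log Cf) * Real.log T := by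
    have h7 := mul_le_mul_of_nonneg_left hl hlCf
    linarith
  have h6 : 0 ≤ 1 + Real.log (N0 : ℝ) := by
    have : 0 ≤ Real.log (N0 : ℝ) := Real.log_natCast_nonneg N0
    linarith
  calc Cn * ((1 + Cf) / Real.sqrt T) * (2 * Real.sqrt N0 * (1 + Real.log N0)) =
      Cn * ((1 + Cf) / Real.sqrt T) * (2 * Real.sqrt N0) * (1 + Real.log N0) := by ring
    _ ≤ 2 * (Cn * (1 + Cf) * Cf) * ((3 + 2 * Real.log Cf) * Real.log T) := by
        apply mul_le_mul h1 h5 h6 (by positivity)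
    _ = _ := by ring

/-- the final arithmetic -/
theorem finish (G L a b D C : ℝ) (hG : 0 ≤ G) (hL : 0 ≤ L) (hb : 0 ≤ b) (hDC : D ≤ C) (h2C : 2 ≤ C)
    (h : a ≤ D * L + 2 * b) : G * a ≤ C * G * L + C * G * b := by
  have h1 : D * L ≤ C * L := mul_le_mul_of_nonneg_right hDC hL
  have h2 : 2 * b ≤ C * b := mul_le_mul_of_nonneg_right h2C hb
  calc G * a ≤ G * (C * L + C * b) := mul_le_mul_of_nonneg_left (by linarith) hG
    _ = C * G * L + C * G * b := by ring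

/-- a power of minus one has norm one -/
theorem normNeg (z : ℤ) : ‖(-1 : ℂ) ^ z‖ = 1 := by
  rw [norm_zpow, norm_neg, norm_one, one_zpow]

end DD_aux

open DD_aux in
/-- ITEM DD: the dual formula. -/
theorem iDD (hDx : StDx) (hDp : StDp) (hDs : StDs) (hD0 : StD0) (hDf : StDf) (hDn : StDn) : StDD := by
  intro φ Θ hφ
  obtain ⟨C0, hC0, h0⟩ := hD0 φ Θ hφ
  obtain ⟨Cf, hCf, hf⟩ := hDf φ Θ hφ
  obtain ⟨Cn, hCn, hn⟩ := hDn φ Θ hφ Cf (by linarith)
  set K1 : ℝ := (∑' k : ℕ, 1 / ((k : ℝ) + 1) ^ 2) * (∑' h : ℤ, 1 / (h : ℝ) ^ 2) with hK1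
  have hK1n : 0 ≤ K1 := mul_nonneg (tsum_nonneg fun _ => by positivity) (tsum_nonneg fun _ => by positivity)
  set D : ℝ := 2 * |Θ 0| + 2 * C0 + 4 * Cf * K1 + 4 * (Cn * (1 + Cf) * Cf) * (3 + 2 * Real.log Cf) with hD
  have hlCf : 0 ≤ Real.log Cf := Real.log_nonneg (by linarith)
  have hDn0 : 0 ≤ D := by positivity
  refine ⟨Cf, C0 + Cf + Cn + D + 2, by linarith, by linarith, ?_⟩
  intro T G t hT hG hGT ht1 ht2
  have hT2 : 2 ≤ T := by linarith
  have hG2 : 2 ≤ G := by linarith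
  have hT0 : 0 < T := by linarith
  have hG0 : 0 < G := by linarith
  have hTC0 : C0 ≤ T := by linarith
  have hGC0 : C0 ≤ G := by linarith
  have hTCf : Cf ≤ T := by linarith
  have hGCf : Cf ≤ G := by linarith
  have hTCn : Cn ≤ T := by linarith
  have hGCn : Cn ≤ G := by linarith
  have hK : (1 : ℝ) ≤ T ^ 2 := one_le_sq2 T hT2
  have hGs : (1 : ℝ) ≤ G ^ 2 := one_le_sq2 G hG2
  set s : ℝ := t / (2 * Real.pi) with hs
  have hsI : s ∈ sI T := memI T t ht1 ht2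
  obtain ⟨hsum0, hre0⟩ := h0 T G s hTC0 hGC0 hGT hsI
  obtain ⟨_, hIG⟩ := hDx φ Θ hφ T G t (by linarith) hG0
  rw [← hs] at hIG
  -- the functions
  set Z : ℕ → ℤ → ℂ := fun k h => ∫ y : ℝ, ff Θ (T ^ 2) G s (k + 1) y * ee (h * y) with hZ
  have hZII : ∀ k h, Z k h = (-1 : ℂ) ^ (((k + 1 : ℕ) : ℤ) * h) * II Θ (T ^ 2) G s (k + 1) h := by
    intro k h
    exact hDs φ Θ hφ (T ^ 2) G s (k + 1) h hK hG2 (by omega)
  have hZn : ∀ k h, ‖Z k h‖ = ‖II Θ (T ^ 2) G s (k + 1) h‖ := by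
    intro k h
    rw [hZII, norm_mul, normNeg, one_mul]
  have hZ0 : ∀ k, Z k 0 = II Θ (T ^ 2) G s (k + 1) 0 := by
    intro k
    rw [hZII, mul_zero, zpow_zero, one_mul]
  have hZs : ∀ k, Summable (Z k) := by
    intro k
    exact (hDp φ Θ hφ (T ^ 2) G s (k + 1) hK hG2 (by omega)).1.of_norm
  have hZt : ∀ k, ∑' b : ℕ, ff Θ (T ^ 2) G s (k + 1) ((b : ℝ) + 1) = ∑' h, Z k h := by
    intro k
    exact (hDp φ Θ hφ (T ^ 2) G s (k + 1) hK hG2 (by omega)).2
  set F : ℕ → ℂ := fun n => (-1 : ℂ) ^ n * JJ Θ T G n s with hF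
  set N0 : ℕ := ⌊Cf * T / G ^ 2⌋₊ with hN0
  have hY0 : 0 ≤ Cf * T / G ^ 2 := by positivity
  have hYT : Cf * T / G ^ 2 ≤ Cf * T := div_le_self (by positivity) hGs
  have hN0Y : (N0 : ℝ) ≤ Cf * T / G ^ 2 := Nat.floor_le hY0
  have hcore := core Z F N0 (Cf / G ^ 2) (Cn * ((1 + Cf) / Real.sqrt T)) (by positivity) (by positivity)
    hZs (by
      refine (hsum0.of_norm).congr ?_
      intro k
      exact (hZ0 k).symm)
    (by
      intro k h hh hc
      rw [hZn]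
      have h1 := hf T G s (k + 1) h hTCf hGCf hGT hsI (by omega) hh (by
        rcases hc with hc | hc
        · exact Or.inl hc
        · right
          have hpos : (0 : ℤ) < ((k : ℤ) + 1) * h := by
            have : (0 : ℤ) ≤ (N0 : ℤ) := by positivity
            omega
          obtain ⟨m, hm⟩ := Int.eq_ofNat_of_zero_le hpos.le
          have h2 : N0 < m := by
            rw [hm] at hc
            exact_mod_cast hc
          have h3 : Cf * T / G ^ 2 < (m : ℝ) := Nat.lt_of_floor_lt h2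
          have h4 : (((k + 1 : ℕ) : ℝ)) * (h : ℝ) = (m : ℝ) := by
            have h5 : ((((k : ℤ) + 1) * h : ℤ) : ℝ) = ((m : ℤ) : ℝ) := by rw [hm]
            push_cast at h5 ⊢
            exact h5
          rw [h4]
          exact h3)
      refine h1.trans (le_of_eq ?_)
      rw [div_div]
      push_cast
      rfl)
    (by
      intro k h h1 h2
      have h3 : (((k + 1 : ℕ) : ℝ)) * ((h : ℕ) : ℝ) ≤ Cf * T / G ^ 2 := by
        have h4 : (((k + 1) * h : ℕ) : ℝ) ≤ Cf * T / G ^ 2 := (Nat.le_floor_iff hY0).mp h2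
        rw [Nat.cast_mul] at h4
        exact h4
      have h4 := hn T G s (k + 1) h hTCn hGCn hGT hsI (by omega) h1 h3
      have h5 : Z k h - F ((k + 1) * h) = (-1 : ℂ) ^ ((k + 1) * h) *
          (II Θ (T ^ 2) G s (k + 1) (h : ℤ) - JJ Θ T G ((k + 1) * h) s) := by
        rw [hZII, hF]
        simp only
        rw [mul_sub]
        congr 2
      rw [h5, norm_mul, norm_pow, norm_neg, norm_one, one_pow, one_mul]
      refine h4.trans ?_
      have hk0 : (0 : ℝ) < ((k + 1 : ℕ) : ℝ) := by positivity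
      have hh0 : (0 : ℝ) < (h : ℝ) := by exact_mod_cast h1
      have h6 := nearBd T (((k + 1 : ℕ) : ℝ) * (h : ℝ)) Cf hT0 (by positivity) (by linarith)
      have h7 : Cn * (1 / Real.sqrt (((k + 1 : ℕ) : ℝ) * (h : ℝ) * T) +
          Real.sqrt (((k + 1 : ℕ) : ℝ) * (h : ℝ) * T) / T ^ 2) ≤
          Cn * ((1 + Cf) / Real.sqrt T / Real.sqrt (((k + 1 : ℕ) : ℝ) * (h : ℝ))) :=
        mul_le_mul_of_nonneg_left h6 (by linarith)
      refine h7.trans (le_of_eq ?_)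
      push_cast
      rw [mul_div_assoc])
  -- sizes
  have hA : Cf / G ^ 2 * K1 ≤ Cf * K1 :=
    mul_le_mul_of_nonneg_right (div_le_self (by linarith) hGs) hK1n
  have hlogT : 1 ≤ 2 * Real.log T := by
    have h1 : Real.log 2 ≤ Real.log T := Real.log_le_log (by norm_num) hT2
    have h2 := Real.log_two_gt_d9
    linarith
  have hB := sizeB N0 Cn Cf T hCn hCf hT2 hlogT (hN0Y.trans hYT)
  have hDS : ∑ n ∈ Finset.Icc 1 N0, (n.divisors.card : ℂ) * F n = DS Θ T G Cf t := by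
    rw [DS, ← hN0, ← hs]
    refine Finset.sum_congr rfl ?_
    intro n _
    rw [hF]
    ring
  rw [hDS] at hcore
  have hreE := (Complex.abs_re_le_norm _).trans hcore
  rw [Complex.sub_re, Complex.sub_re] at hreE
  have hZ0s : (∑' k, Z k 0) = ∑' k : ℕ, II Θ (T ^ 2) G s (k + 1) 0 := tsum_congr hZ0
  rw [hZ0s] at hreE
  have hDSre := (le_abs_self _).trans (Complex.abs_re_le_norm (DS Θ T G Cf t))
  have h1 := (abs_le.mp hreE).2
  have h2 := (abs_le.mp hre0).2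
  have hmain : (∑' k, ∑' h, Z k h).re ≤ C0 * Real.log T + ‖DS Θ T G Cf t‖ + Cf * K1 +
      2 * (Cn * (1 + Cf) * Cf) * (3 + 2 * Real.log Cf) * Real.log T := by linarith
  rw [tsum_congr hZt] at hIG
  have hdiag : Θ 0 * (∑' a : ℕ, Real.exp (-(2 * ((a : ℝ) + 1) / T ^ 2)) / ((a : ℝ) + 1)) ≤
      |Θ 0| * (2 * Real.log T) := by
    have h3 : 0 ≤ ∑' a : ℕ, Real.exp (-(2 * ((a : ℝ) + 1) / T ^ 2)) / ((a : ℝ) + 1) :=
      tsum_nonneg fun _ => by positivity
    calc _ ≤ |Θ 0| * (∑' a : ℕ, Real.exp (-(2 * ((a : ℝ) + 1) / T ^ 2)) / ((a : ℝ) + 1)) :=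
          mul_le_mul_of_nonneg_right (le_abs_self _) h3
      _ ≤ _ := mul_le_mul_of_nonneg_left (diag T hT2) (abs_nonneg _)
  have hCfK : Cf * K1 ≤ 2 * (Cf * K1) * Real.log T := by
    have h3 : 0 ≤ Cf * K1 := by positivity
    have h4 := mul_le_mul_of_nonneg_left hlogT h3
    linarith
  have hin : Θ 0 * (∑' a : ℕ, Real.exp (-(2 * ((a : ℝ) + 1) / T ^ 2)) / ((a : ℝ) + 1)) +
      2 * (∑' k, ∑' h, Z k h).re ≤ D * Real.log T + 2 * ‖DS Θ T G Cf t‖ := by
    have hDl : D * Real.log T = |Θ 0| * (2 * Real.log T) + 2 * (C0 * Real.log T) +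
        2 * (2 * (Cf * K1) * Real.log T) +
        2 * (2 * (Cn * (1 + Cf) * Cf) * (3 + 2 * Real.log Cf) * Real.log T) := by
      rw [hD]; ring
    rw [hDl]
    linarith
  rw [hIG]
  exact finish G (Real.log T) _ ‖DS Θ T G Cf t‖ D _ hG0.le (by linarith) (norm_nonneg _) (by linarith)
    (by linarith) hin

end Pool.Agent.Work.MP_56b8f5_nt.UB
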