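import Pool.Agent.Work.MP_56b8f5_nt.UB.Stmts

/-!
MP_56b8f5_nt (eighth moment of the Riemann zeta function), block UB, item DN:
the energy lower bound for a set of large values.
-/

open MeasureTheory Set Filter Topology

noncomputable section

namespace Pool.Agent.Work.MP_56b8f5_nt.UB

namespace DN_aux

/-- the double integral of a kernel, over the product measure -/
def DI (μ : Measure ℝ) (b k : ℝ → ℂ) : ℂ :=
  ∫ z : ℝ × ℝ, b z.1 * (starRingEnd ℂ) (b z.2) * k (z.1 - z.2) ∂(μ.prod μ)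

lemma norm_ee (x : ℝ) : ‖ee x‖ = 1 := by
  unfold ee
  exact Complex.norm_exp_ofReal_mul_I _

lemma cont_ee : Continuous ee := by
  unfold ee
  fun_prop

lemma integrable_k (μ : Measure ℝ) [IsFiniteMeasure μ] (b k : ℝ → ℂ) (hb : Measurable b)
    (hb1 : ∀ x, ‖b x‖ ≤ 1) (hk : Measurable k) (B : ℝ) (hB : ∀ x, ‖k x‖ ≤ B) :
    Integrable (fun z : ℝ × ℝ => b z.1 * (starRingEnd ℂ) (b z.2) * k (z.1 - z.2)) (μ.prod μ) := by
  refine Integrable.of_bound ?_ B ?_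
  · refine Measurable.aestronglyMeasurable ?_
    refine ((hb.comp measurable_fst).mul ?_).mul (hk.comp (measurable_fst.sub measurable_snd))
    exact Complex.continuous_conj.measurable.comp (hb.comp measurable_snd)
  · refine Filter.Eventually.of_forall fun z => ?_
    rw [norm_mul, norm_mul, RCLike.norm_conj]
    have h1 := hb1 z.1
    have h2 := hb1 z.2
    have h3 := hB (z.1 - z.2)
    have h4 : 0 ≤ ‖b z.1‖ := norm_nonneg _
    have h5 : 0 ≤ ‖b z.2‖ := norm_nonneg _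
    have h6 : 0 ≤ ‖k (z.1 - z.2)‖ := norm_nonneg _
    have h7 : ‖b z.1‖ * ‖b z.2‖ ≤ 1 := by nlinarith
    have h8 : ‖b z.1‖ * ‖b z.2‖ * ‖k (z.1 - z.2)‖ ≤ 1 * ‖k (z.1 - z.2)‖ :=
      mul_le_mul_of_nonneg_right h7 h6
    linarith

lemma DI_eq (W : Set ℝ) (hW : volume W < ⊤) (b k : ℝ → ℂ) (hb : Measurable b)
    (hb1 : ∀ x, ‖b x‖ ≤ 1) (hk : Measurable k) (B : ℝ) (hB : ∀ x, ‖k x‖ ≤ B) :
    ∫ x in W, ∫ y in W, b x * (starRingEnd ℂ) (b y) * k (x - y) = DI (volume.restrict W) b k := by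
  have hfin : IsFiniteMeasure (volume.restrict W) := ⟨by
    rw [Measure.restrict_apply_univ]; exact hW⟩
  unfold DI
  rw [integral_prod _ (integrable_k _ b k hb hb1 hk B hB)]

lemma DI_add (μ : Measure ℝ) [IsFiniteMeasure μ] (b k l : ℝ → ℂ) (hb : Measurable b)
    (hb1 : ∀ x, ‖b x‖ ≤ 1) (hk : Measurable k) (B : ℝ) (hB : ∀ x, ‖k x‖ ≤ B)
    (hl : Measurable l) (B' : ℝ) (hB' : ∀ x, ‖l x‖ ≤ B') :
    DI μ b (fun x => k x + l x) = DI μ b k + DI μ b l := by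
  unfold DI
  rw [← integral_add (integrable_k μ b k hb hb1 hk B hB) (integrable_k μ b l hb hb1 hl B' hB')]
  congr 1
  funext z
  ring

lemma DI_sum (μ : Measure ℝ) [IsFiniteMeasure μ] (b : ℝ → ℂ) (hb : Measurable b)
    (hb1 : ∀ x, ‖b x‖ ≤ 1) (s : Finset ℕ) (k : ℕ → ℝ → ℂ) (hk : ∀ m ∈ s, Measurable (k m))
    (B : ℕ → ℝ) (hB : ∀ m ∈ s, ∀ x, ‖k m x‖ ≤ B m) :
    DI μ b (fun x => ∑ m ∈ s, k m x) = ∑ m ∈ s, DI μ b (k m) := by
  unfold DI
  rw [← integral_finsetSum s (fun m hm => integrable_k μ b (k m) hb hb1 (hk m hm) (B m) (hB m hm))]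
  congr 1
  funext z
  rw [Finset.mul_sum]

lemma DI_conj (μ : Measure ℝ) [IsFiniteMeasure μ] (b k : ℝ → ℂ) :
    DI μ b (fun x => (starRingEnd ℂ) (k (-x))) = (starRingEnd ℂ) (DI μ b k) := by
  unfold DI
  rw [← integral_conj]
  rw [← integral_prod_swap (μ := μ) (ν := μ)
    (fun z : ℝ × ℝ => b z.1 * (starRingEnd ℂ) (b z.2) * (starRingEnd ℂ) (k (-(z.1 - z.2))))]
  congr 1
  funext z
  have e : -(z.swap.1 - z.swap.2) = z.1 - z.2 := by
    simp only [Prod.fst_swap, Prod.snd_swap]; ring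
  rw [e]
  simp only [Prod.fst_swap, Prod.snd_swap, map_mul, Complex.conj_conj]
  ring

lemma om_zero (u : ℝ) (hu : 5 / 2 ≤ u) : om u = 0 := by
  unfold om
  refine omB.zero_of_le_dist ?_
  have e : omB.rOut = 1 := rfl
  rw [e, Real.dist_eq]
  rw [abs_of_nonneg (by linarith)]
  linarith

lemma KS_eq (X N x : ℝ) (hN : 1 ≤ N) :
    KS X N x = ∑ n ∈ Finset.range ⌈5 / 2 * N⌉₊, (om ((n : ℝ) / N) : ℂ) * ee (x * vv X n) := by
  unfold KS
  refine tsum_eq_sum fun n hn => ?_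
  have h1 : ⌈5 / 2 * N⌉₊ ≤ n := by
    rw [Finset.mem_range] at hn
    omega
  have h2 : 5 / 2 * N ≤ n := Nat.ceil_le.mp h1
  have h3 : 5 / 2 ≤ (n : ℝ) / N := by
    rw [le_div_iff₀ (by linarith)]
    exact h2
  rw [om_zero _ h3]
  simp

lemma KS_cont (X N : ℝ) (hN : 1 ≤ N) : Continuous (KS X N) := by
  have e : KS X N = fun x =>
      ∑ n ∈ Finset.range ⌈5 / 2 * N⌉₊, (om ((n : ℝ) / N) : ℂ) * ee (x * vv X n) := by
    funext x
    exact KS_eq X N x hN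
  rw [e]
  refine continuous_finsetSum _ fun n _ => ?_
  exact continuous_const.mul (cont_ee.comp (continuous_id.mul continuous_const))

lemma KS_bdd (X N : ℝ) (hN : 1 ≤ N) : ∃ B : ℝ, ∀ x, ‖KS X N x‖ ≤ B := by
  refine ⟨∑ n ∈ Finset.range ⌈5 / 2 * N⌉₊, ‖(om ((n : ℝ) / N) : ℂ)‖, fun x => ?_⟩
  rw [KS_eq X N x hN]
  refine (norm_sum_le _ _).trans (Finset.sum_le_sum fun n _ => ?_)
  rw [norm_mul, norm_ee, mul_one]

/-- the integral of `1/(1+|x-y|s)²` -/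
lemma int_decay (W : Set ℝ) (x s : ℝ) (hs : 0 < s) :
    IntegrableOn (fun y => 1 / (1 + |x - y| * s) ^ 2) W ∧
    ∫ y in W, 1 / (1 + |x - y| * s) ^ 2 ≤ Real.pi / s := by
  have i0 : Integrable (fun y : ℝ => (1 + y ^ 2)⁻¹) := integrable_inv_one_add_sq
  have i1 : Integrable (fun y : ℝ => (1 + (s * y) ^ 2)⁻¹) :=
    i0.comp_mul_left' (ne_of_gt hs)
  have i2 : Integrable (fun y : ℝ => (1 + (s * (x - y)) ^ 2)⁻¹) := i1.comp_sub_left x
  have e2 : ∫ y : ℝ, (1 + (s * (x - y)) ^ 2)⁻¹ = Real.pi / s := by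
    rw [integral_sub_left_eq_self (fun y : ℝ => (1 + (s * y) ^ 2)⁻¹) volume x]
    rw [Measure.integral_comp_mul_left (fun y : ℝ => (1 + y ^ 2)⁻¹) s]
    rw [integral_univ_inv_one_add_sq, abs_of_pos (inv_pos.mpr hs), smul_eq_mul]
    field_simp
  have hle : ∀ y : ℝ, 1 / (1 + |x - y| * s) ^ 2 ≤ (1 + (s * (x - y)) ^ 2)⁻¹ := by
    intro y
    rw [← one_div]
    refine one_div_le_one_div_of_le (by positivity) ?_
    have h1 : (s * (x - y)) ^ 2 = (|x - y| * s) ^ 2 := by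
      rw [mul_pow, mul_pow, sq_abs]; ring
    rw [h1]
    have h2 : 0 ≤ |x - y| * s := by positivity
    nlinarith
  have hnn : ∀ y : ℝ, 0 ≤ 1 / (1 + |x - y| * s) ^ 2 := fun y => by positivity
  have hm : Continuous (fun y : ℝ => 1 / (1 + |x - y| * s) ^ 2) := by
    refine continuous_const.div (by fun_prop) fun y => ?_
    positivity
  have i3 : Integrable (fun y : ℝ => 1 / (1 + |x - y| * s) ^ 2) := by
    refine i2.mono' hm.aestronglyMeasurable (Filter.Eventually.of_forall fun y => ?_)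
    rw [Real.norm_of_nonneg (hnn y)]
    exact hle y
  refine ⟨i3.integrableOn, ?_⟩
  calc ∫ y in W, 1 / (1 + |x - y| * s) ^ 2 ≤ ∫ y : ℝ, 1 / (1 + |x - y| * s) ^ 2 :=
        setIntegral_le_integral i3 (Filter.Eventually.of_forall hnn)
    _ ≤ ∫ y : ℝ, (1 + (s * (x - y)) ^ 2)⁻¹ := integral_mono i3 i2 hle
    _ = Real.pi / s := e2

/-- contribution of a decaying kernel -/
lemma DI_decay (W : Set ℝ) (hW : volume W < ⊤) (b k : ℝ → ℂ) (hb : Measurable b)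
    (hb1 : ∀ x, ‖b x‖ ≤ 1) (hk : Measurable k) (A s : ℝ) (hA : 0 ≤ A) (hs : 0 < s)
    (hB : ∀ x, ‖k x‖ ≤ A / (1 + |x| * s) ^ 2) :
    ‖DI (volume.restrict W) b k‖ ≤ A * (Real.pi / s) * Rr W := by
  have hB' : ∀ x, ‖k x‖ ≤ A := by
    intro x
    refine (hB x).trans ?_
    refine div_le_self hA ?_
    have : 0 ≤ |x| * s := by positivity
    nlinarith
  rw [← DI_eq W hW b k hb hb1 hk A hB']
  refine norm_setIntegral_le_of_norm_le_const hW fun x _ => ?_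
  obtain ⟨h1, h2⟩ := int_decay W x s hs
  have h3 : ‖∫ y in W, b x * (starRingEnd ℂ) (b y) * k (x - y)‖ ≤
      ∫ y in W, A * (1 / (1 + |x - y| * s) ^ 2) := by
    refine norm_integral_le_of_norm_le (h1.const_mul A) (Filter.Eventually.of_forall fun y => ?_)
    rw [norm_mul, norm_mul, RCLike.norm_conj]
    have g1 := hb1 x
    have g2 := hb1 y
    have g3 := hB (x - y)
    have g4 : 0 ≤ ‖b x‖ := norm_nonneg _
    have g5 : 0 ≤ ‖b y‖ := norm_nonneg _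
    have g6 : 0 ≤ ‖k (x - y)‖ := norm_nonneg _
    have g7 : ‖b x‖ * ‖b y‖ ≤ 1 := by nlinarith
    have g8 : ‖b x‖ * ‖b y‖ * ‖k (x - y)‖ ≤ 1 * ‖k (x - y)‖ :=
      mul_le_mul_of_nonneg_right g7 g6
    have g9 : A / (1 + |x - y| * s) ^ 2 = A * (1 / (1 + |x - y| * s) ^ 2) := by ring
    linarith
  rw [integral_const_mul] at h3
  exact h3.trans (mul_le_mul_of_nonneg_left h2 hA)

/-- contribution of a small kernel -/
lemma DI_small (W : Set ℝ) (hW : volume W < ⊤) (b k : ℝ → ℂ)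
    (hb1 : ∀ x, ‖b x‖ ≤ 1) (A : ℝ)
    (hB : ∀ x ∈ W, ∀ y ∈ W, ‖k (x - y)‖ ≤ A) :
    ‖DI (volume.restrict W) b k‖ ≤ A * Rr W ^ 2 := by
  have hfin : IsFiniteMeasure (volume.restrict W) := ⟨by
    rw [Measure.restrict_apply_univ]; exact hW⟩
  unfold DI
  have hp : (volume.restrict W).prod (volume.restrict W) =
      (Measure.prod volume volume).restrict (W ×ˢ W) := Measure.prod_restrict W W
  rw [hp]
  have hv : (Measure.prod volume volume : Measure (ℝ × ℝ)) (W ×ˢ W) = volume W * volume W :=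
    Measure.prod_prod W W
  have h1 := norm_setIntegral_le_of_norm_le_const (μ := (Measure.prod volume volume : Measure (ℝ × ℝ)))
    (s := W ×ˢ W) (C := A)
    (f := fun z : ℝ × ℝ => b z.1 * (starRingEnd ℂ) (b z.2) * k (z.1 - z.2))
    (by rw [hv]; exact ENNReal.mul_lt_top hW hW) (fun z hz => by
      obtain ⟨hz1, hz2⟩ := hz
      rw [norm_mul, norm_mul, RCLike.norm_conj]
      have g1 := hb1 z.1
      have g2 := hb1 z.2
      have g3 := hB z.1 hz1 z.2 hz2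
      have g4 : 0 ≤ ‖b z.1‖ := norm_nonneg _
      have g5 : 0 ≤ ‖b z.2‖ := norm_nonneg _
      have g6 : 0 ≤ ‖k (z.1 - z.2)‖ := norm_nonneg _
      have g7 : ‖b z.1‖ * ‖b z.2‖ ≤ 1 := by nlinarith
      have g8 : ‖b z.1‖ * ‖b z.2‖ * ‖k (z.1 - z.2)‖ ≤ 1 * ‖k (z.1 - z.2)‖ :=
        mul_le_mul_of_nonneg_right g7 g6
      linarith)
  refine h1.trans (le_of_eq ?_)
  unfold Measure.real Rr
  rw [hv, ENNReal.toReal_mul]
  ring

/-- `∑_{m ≤ K} m^{-1/4} ≤ (4/3) K^{3/4}` -/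
lemma sum_quarter (K : ℕ) :
    ∑ m ∈ Finset.Icc 1 K, (1 / (m : ℝ)) ^ (1 / 4 : ℝ) ≤ 4 / 3 * (K : ℝ) ^ (3 / 4 : ℝ) := by
  induction K with
  | zero =>
    simp
  | succ K ih =>
    rw [Finset.sum_Icc_succ_top (by omega)]
    have hK : (0 : ℝ) < ((K + 1 : ℕ) : ℝ) := by positivity
    have hb := rpow_one_add_le_one_add_mul_self (s := -(1 / ((K + 1 : ℕ) : ℝ))) (p := 3 / 4)
      (by
        have : 1 / ((K + 1 : ℕ) : ℝ) ≤ 1 := by
          rw [div_le_one hK]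
          push_cast
          linarith [(Nat.cast_nonneg K : (0 : ℝ) ≤ K)]
        linarith) (by norm_num) (by norm_num)
    have e1 : (1 : ℝ) + -(1 / ((K + 1 : ℕ) : ℝ)) = (K : ℝ) / ((K + 1 : ℕ) : ℝ) := by
      field_simp
      push_cast
      ring
    rw [e1, Real.div_rpow (by positivity) (by positivity)] at hb
    have hp : (0 : ℝ) < ((K + 1 : ℕ) : ℝ) ^ (3 / 4 : ℝ) := Real.rpow_pos_of_pos hK _
    rw [div_le_iff₀ hp] at hb
    have e2 : (1 / ((K + 1 : ℕ) : ℝ)) ^ (1 / 4 : ℝ) =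
        ((K + 1 : ℕ) : ℝ) ^ (3 / 4 : ℝ) * (1 / ((K + 1 : ℕ) : ℝ)) := by
      rw [Real.div_rpow (by norm_num) (le_of_lt hK), Real.one_rpow]
      have e3 : ((K + 1 : ℕ) : ℝ) ^ (3 / 4 : ℝ) * ((K + 1 : ℕ) : ℝ) ^ (1 / 4 : ℝ) =
          ((K + 1 : ℕ) : ℝ) := by
        rw [← Real.rpow_add hK]
        norm_num
      have hq : (0 : ℝ) < ((K + 1 : ℕ) : ℝ) ^ (1 / 4 : ℝ) := Real.rpow_pos_of_pos hK _
      rw [div_eq_iff (ne_of_gt hq)]
      rw [mul_assoc, mul_comm (1 / ((K + 1 : ℕ) : ℝ)), ← mul_assoc, e3]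
      field_simp
    rw [e2]
    nlinarith [ih, hb]

/-- the decomposition of the double integral -/
lemma split (μ : Measure ℝ) [IsFiniteMeasure μ] (b : ℝ → ℂ) (hb : Measurable b)
    (hb1 : ∀ x, ‖b x‖ ≤ 1) (s : Finset ℕ) (kS k0 : ℝ → ℂ) (kj : ℕ → ℝ → ℂ)
    (hS : Measurable kS) (h0 : Measurable k0) (hj : ∀ m ∈ s, Measurable (kj m))
    (BS B0 : ℝ) (Bj : ℕ → ℝ) (hBS : ∀ x, ‖kS x‖ ≤ BS) (hB0 : ∀ x, ‖k0 x‖ ≤ B0)
    (hBj : ∀ m ∈ s, ∀ x, ‖kj m x‖ ≤ Bj m) :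
    ‖DI μ b kS‖ ≤ ‖DI μ b k0‖ + 2 * ∑ m ∈ s, ‖DI μ b (kj m)‖ +
      ‖DI μ b (fun u => kS u - k0 u -
        ∑ m ∈ s, (kj m u + (starRingEnd ℂ) (kj m (-u))))‖ := by
  have hc : ∀ m ∈ s, Measurable (fun u => (starRingEnd ℂ) (kj m (-u))) := fun m hm =>
    Complex.continuous_conj.measurable.comp ((hj m hm).comp measurable_neg)
  have hBc : ∀ m ∈ s, ∀ x, ‖(starRingEnd ℂ) (kj m (-x))‖ ≤ Bj m := fun m hm x => by
    rw [RCLike.norm_conj]
    exact hBj m hm (-x)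
  have hp : ∀ m ∈ s, Measurable (fun u => kj m u + (starRingEnd ℂ) (kj m (-u))) :=
    fun m hm => (hj m hm).add (hc m hm)
  have hBp : ∀ m ∈ s, ∀ x, ‖kj m x + (starRingEnd ℂ) (kj m (-x))‖ ≤ Bj m + Bj m := fun m hm x =>
    (norm_add_le _ _).trans (add_le_add (hBj m hm x) (hBc m hm x))
  have hsum : Measurable (fun u => ∑ m ∈ s, (kj m u + (starRingEnd ℂ) (kj m (-u)))) :=
    Finset.measurable_fun_sum s hp
  have hBsum : ∀ x, ‖∑ m ∈ s, (kj m x + (starRingEnd ℂ) (kj m (-x)))‖ ≤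
      ∑ m ∈ s, (Bj m + Bj m) := fun x =>
    (norm_sum_le _ _).trans (Finset.sum_le_sum fun m hm => hBp m hm x)
  have herr : Measurable (fun u => kS u - k0 u -
      ∑ m ∈ s, (kj m u + (starRingEnd ℂ) (kj m (-u)))) := (hS.sub h0).sub hsum
  have hBerr : ∀ x, ‖kS x - k0 x - ∑ m ∈ s, (kj m x + (starRingEnd ℂ) (kj m (-x)))‖ ≤
      BS + B0 + ∑ m ∈ s, (Bj m + Bj m) := fun x => by
    refine (norm_sub_le _ _).trans (add_le_add ?_ (hBsum x))
    exact (norm_sub_le _ _).trans (add_le_add (hBS x) (hB0 x))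
  have e1 : DI μ b kS = DI μ b (fun u => k0 u + (∑ m ∈ s, (kj m u + (starRingEnd ℂ) (kj m (-u))) +
      (kS u - k0 u - ∑ m ∈ s, (kj m u + (starRingEnd ℂ) (kj m (-u)))))) := by
    congr 1
    funext u
    ring
  have e2 := DI_add μ b k0 (fun u => ∑ m ∈ s, (kj m u + (starRingEnd ℂ) (kj m (-u))) +
      (kS u - k0 u - ∑ m ∈ s, (kj m u + (starRingEnd ℂ) (kj m (-u))))) hb hb1 h0 B0 hB0
      (hsum.add herr) (∑ m ∈ s, (Bj m + Bj m) + (BS + B0 + ∑ m ∈ s, (Bj m + Bj m)))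
      (fun x => (norm_add_le _ _).trans (add_le_add (hBsum x) (hBerr x)))
  have e3 := DI_add μ b (fun u => ∑ m ∈ s, (kj m u + (starRingEnd ℂ) (kj m (-u))))
      (fun u => kS u - k0 u - ∑ m ∈ s, (kj m u + (starRingEnd ℂ) (kj m (-u)))) hb hb1 hsum
      _ hBsum herr _ hBerr
  have e4 := DI_sum μ b hb hb1 s (fun m u => kj m u + (starRingEnd ℂ) (kj m (-u))) hp
      (fun m => Bj m + Bj m) hBp
  have e5 : ∀ m ∈ s, ‖DI μ b (fun u => kj m u + (starRingEnd ℂ) (kj m (-u)))‖ ≤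
      2 * ‖DI μ b (kj m)‖ := by
    intro m hm
    rw [DI_add μ b (kj m) (fun u => (starRingEnd ℂ) (kj m (-u))) hb hb1 (hj m hm) (Bj m)
      (hBj m hm) (hc m hm) (Bj m) (hBc m hm), DI_conj μ b (kj m)]
    refine (norm_add_le _ _).trans (le_of_eq ?_)
    rw [RCLike.norm_conj]
    ring
  have e6 : ‖DI μ b (fun u => ∑ m ∈ s, (kj m u + (starRingEnd ℂ) (kj m (-u))))‖ ≤
      2 * ∑ m ∈ s, ‖DI μ b (kj m)‖ := by
    rw [e4, Finset.mul_sum]
    exact (norm_sum_le _ _).trans (Finset.sum_le_sum e5)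
  rw [e1, e2, e3, ← add_assoc]
  refine (norm_add_le _ _).trans (add_le_add ((norm_add_le _ _).trans (add_le_add le_rfl e6)) le_rfl)

/-- the fourth root of a fourth power bound, summed with weights `1/m` -/
lemma sum_roots (M Q : ℝ) (hM : 1 ≤ M) (hQ : 0 ≤ Q) (z : ℕ → ℝ) (hz : ∀ m, 0 ≤ z m)
    (h : ∀ m ∈ Finset.Icc 1 ⌊2 * M⌋₊, z m ^ 4 ≤ Q * (1 / (m : ℝ))) :
    ∑ m ∈ Finset.Icc 1 ⌊2 * M⌋₊, z m ≤ 8 / 3 * (Q * M ^ 3) ^ (1 / 4 : ℝ) := by
  have h1 : ∀ m ∈ Finset.Icc 1 ⌊2 * M⌋₊, z m ≤ Q ^ (1 / 4 : ℝ) * (1 / (m : ℝ)) ^ (1 / 4 : ℝ) := by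
    intro m hm
    have e : z m = (z m ^ 4) ^ (1 / 4 : ℝ) := by
      rw [← Real.rpow_natCast, ← Real.rpow_mul (hz m)]
      norm_num
    rw [e, ← Real.mul_rpow hQ (by positivity)]
    exact Real.rpow_le_rpow (pow_nonneg (hz m) 4) (h m hm) (by norm_num)
  have h2 := Finset.sum_le_sum h1
  rw [← Finset.mul_sum] at h2
  have h3 := sum_quarter ⌊2 * M⌋₊
  have h4 : (⌊2 * M⌋₊ : ℝ) ≤ 2 * M := Nat.floor_le (by linarith)
  have h5 : (⌊2 * M⌋₊ : ℝ) ^ (3 / 4 : ℝ) ≤ (2 * M) ^ (3 / 4 : ℝ) :=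
    Real.rpow_le_rpow (by positivity) h4 (by norm_num)
  have h6 : (2 * M) ^ (3 / 4 : ℝ) ≤ 2 * M ^ (3 / 4 : ℝ) := by
    rw [Real.mul_rpow (by norm_num) (by linarith)]
    refine mul_le_mul_of_nonneg_right ?_ (by positivity)
    calc (2 : ℝ) ^ (3 / 4 : ℝ) ≤ 2 ^ (1 : ℝ) :=
          Real.rpow_le_rpow_of_exponent_le (by norm_num) (by norm_num)
      _ = 2 := Real.rpow_one 2
  have h7 : (Q * M ^ 3) ^ (1 / 4 : ℝ) = Q ^ (1 / 4 : ℝ) * M ^ (3 / 4 : ℝ) := by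
    rw [Real.mul_rpow hQ (by positivity), ← Real.rpow_natCast, ← Real.rpow_mul (by linarith)]
    norm_num
  have hQ4 : 0 ≤ Q ^ (1 / 4 : ℝ) := by positivity
  rw [h7]
  calc ∑ m ∈ Finset.Icc 1 ⌊2 * M⌋₊, z m ≤
        Q ^ (1 / 4 : ℝ) * ∑ m ∈ Finset.Icc 1 ⌊2 * M⌋₊, (1 / (m : ℝ)) ^ (1 / 4 : ℝ) := h2
    _ ≤ Q ^ (1 / 4 : ℝ) * (4 / 3 * (2 * M ^ (3 / 4 : ℝ))) := by
        refine mul_le_mul_of_nonneg_left ?_ hQ4
        linarith
    _ = 8 / 3 * (Q ^ (1 / 4 : ℝ) * M ^ (3 / 4 : ℝ)) := by ring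

lemma KJ_meas (X N : ℝ) (m : ℕ) (hc : Continuous fun x => KK X N m x) : Measurable (KJ X N m) := by
  unfold KJ
  refine Measurable.ite ?_ hc.measurable measurable_const
  exact measurableSet_Icc

lemma log_bound (X N M : ℝ) (m : ℕ) (hX : 0 < X) (hN : 1 ≤ N) (hM : 1 ≤ M) (hm : (m : ℝ) ≤ 2 * M) :
    Real.log (2 + m * N) + Real.sqrt m * N / X ≤ 2 * Lg X N M := by
  unfold Lg
  have hMN : 1 ≤ M * N := by nlinarith
  have hm0 : (0 : ℝ) ≤ m := Nat.cast_nonneg m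
  have h1 : Real.log (2 + m * N) ≤ 2 * Real.log (2 + M * N) := by
    have e : 2 * Real.log (2 + M * N) = Real.log ((2 + M * N) ^ 2) := by
      rw [Real.log_pow]; norm_num
    rw [e]
    refine Real.log_le_log (by positivity) ?_
    have : (m : ℝ) * N ≤ 2 * M * N := mul_le_mul_of_nonneg_right hm (by linarith)
    nlinarith
  have h2 : Real.sqrt m ≤ 2 * Real.sqrt M := by
    have : Real.sqrt m ≤ Real.sqrt (2 ^ 2 * M) := Real.sqrt_le_sqrt (by linarith)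
    rwa [Real.sqrt_mul (by norm_num), Real.sqrt_sq (by norm_num)] at this
  have h3 : Real.sqrt m * N / X ≤ 2 * (Real.sqrt M * N / X) := by
    have : Real.sqrt m * N / X ≤ 2 * Real.sqrt M * N / X := by
      refine div_le_div_of_nonneg_right ?_ hX.le
      exact mul_le_mul_of_nonneg_right h2 (by linarith)
    calc Real.sqrt m * N / X ≤ 2 * Real.sqrt M * N / X := this
      _ = 2 * (Real.sqrt M * N / X) := by ring
  linarith

end DN_aux

open DN_aux in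
theorem iDN (hE3 : StE3) (hKD : StKD) (hK2 : StK2) (hK3 : StK3) (hH : StH) (hE4 : StE4) : StDN := by
  obtain ⟨C1, hC1, hKD⟩ := hKD
  obtain ⟨C2, hC2, hK2⟩ := hK2
  obtain ⟨C3, hC3, hK3⟩ := hK3
  obtain ⟨C4, hC4, hH⟩ := hH
  refine ⟨16 * C1 + 16 * C2 + C3 + 50 * C4, by linarith, ?_⟩
  intro X N M V a W hN hX hCX hM hV hCV ha hWm hWs hWV
  have hN0 : 0 < N := by linarith
  have hM0 : 0 < M := by linarith
  have hCC1 : C1 * N ≤ X ^ 2 := by nlinarith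
  have hCC2 : C2 * N ≤ X ^ 2 := by nlinarith
  have hCC3 : C3 * N ≤ X ^ 2 := by nlinarith
  have hCC4 : C4 * N ≤ X ^ 2 := by nlinarith
  obtain ⟨hK20, -⟩ := hK2 X N hN hX hCC2
  obtain ⟨hK31, -, hK33⟩ := hK3 X N hN hX hCC3
  have hW : volume W < ⊤ := (measure_mono hWs).trans_lt measure_Icc_lt_top
  have hfin : IsFiniteMeasure (volume.restrict W) := ⟨by
    rw [Measure.restrict_apply_univ]; exact hW⟩
  obtain ⟨b, hb, hb1, hD⟩ := hE3 X N M V a W hN hX hV.le ha hWm hWs hWV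
  obtain ⟨BS, hBS⟩ := KS_bdd X N hN
  have hR : 0 ≤ Rr W := ENNReal.toReal_nonneg
  have hE : 0 ≤ (EE W).toReal := ENNReal.toReal_nonneg
  have hsN : 0 < Real.sqrt N := Real.sqrt_pos.mpr hN0
  have hLg : 0 ≤ Lg X N M := by
    unfold Lg
    have h1 : 0 ≤ Real.log (2 + M * N) := Real.log_nonneg (by nlinarith)
    have h2 : 0 ≤ Real.sqrt M * N / X := by positivity
    linarith
  rw [DI_eq W hW b (KS X N) hb hb1 (KS_cont X N hN).measurable BS hBS] at hD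
  -- the kernels
  have hKJm : ∀ m : ℕ, Measurable (KJ X N m) := fun m => KJ_meas X N m (hK33 m)
  have hKJb : ∀ m ∈ Finset.Icc 1 ⌊2 * M⌋₊, ∀ x, ‖KJ X N m x‖ ≤ C3 * Real.sqrt (N / m) := by
    intro m hm x
    rw [Finset.mem_Icc] at hm
    have h1 := hK31 (m : ℤ) (by omega) x
    have h2 : |((m : ℤ) : ℝ)| = (m : ℝ) := by
      push_cast
      exact abs_of_nonneg (Nat.cast_nonneg m)
    rw [h2] at h1
    unfold KJ
    split_ifs
    · exact h1
    · rw [norm_zero]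
      positivity
  have hK0b : ∀ x, ‖KK X N 0 x‖ ≤ C2 * N := by
    intro x
    refine (hK20 x).trans ?_
    refine div_le_self (by positivity) ?_
    have : 0 ≤ |x| * Real.sqrt N := by positivity
    nlinarith
  have hsp := split (volume.restrict W) b hb hb1 (Finset.Icc 1 ⌊2 * M⌋₊) (KS X N) (KK X N 0)
    (fun m => KJ X N m) (KS_cont X N hN).measurable (hK33 0).measurable (fun m _ => hKJm m) BS
    (C2 * N) (fun m => C3 * Real.sqrt (N / m)) hBS hK0b hKJb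
  -- the three contributions
  have h0 : ‖DI (volume.restrict W) b (KK X N 0)‖ ≤ C2 * N * (Real.pi / Real.sqrt N) * Rr W :=
    DI_decay W hW b (KK X N 0) hb hb1 (hK33 0).measurable (C2 * N) (Real.sqrt N) (by positivity)
      hsN hK20
  have herr := DI_small W hW b (fun u => KS X N u - KK X N 0 u -
    ∑ m ∈ Finset.Icc 1 ⌊2 * M⌋₊, (KJ X N m u + (starRingEnd ℂ) (KJ X N m (-u)))) hb1 (C1 / N)
    (fun x hx y hy => by
      refine hKD X N M (x - y) hN hX hCC1 hM ?_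
      have hx' := hWs hx
      have hy' := hWs hy
      rw [abs_le]
      constructor <;> linarith [hx'.1, hx'.2, hy'.1, hy'.2])
  have hmid : ∑ m ∈ Finset.Icc 1 ⌊2 * M⌋₊, ‖DI (volume.restrict W) b (KJ X N m)‖ ≤
      8 / 3 * ((2 * C4 * N ^ 2 * Lg X N M * Rr W ^ 3 * (EE W).toReal) * M ^ 3) ^ (1 / 4 : ℝ) := by
    refine sum_roots M _ hM (by positivity) (fun m => ‖DI (volume.restrict W) b (KJ X N m)‖)
      (fun m => norm_nonneg _) ?_
    intro m hm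
    have hm' := Finset.mem_Icc.mp hm
    have hm1 : (1 : ℝ) ≤ m := by exact_mod_cast hm'.1
    have hm2 : (m : ℝ) ≤ 2 * M := (Nat.cast_le.mpr hm'.2).trans (Nat.floor_le (by linarith))
    obtain ⟨h, hh1, hh2, hh3, hh4, hh5⟩ := hH X N m hN hX hCC4 hm'.1
    have h1 := hE4 (M * Real.sqrt N) (max (C3 * Real.sqrt (N / m)) (2 * m * Real.sqrt N)) W b
      (KJ X N m) h hWm hWs hb hb1 (hKJm m)
      (fun x => (hKJb m hm x).trans (le_max_left _ _)) (fun x hx => by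
        have hx2 : m * Real.sqrt N / 2 ≤ x ∧ x ≤ 2 * m * Real.sqrt N := by
          by_contra hcon
          exact hx (if_neg hcon)
        refine le_trans ?_ (le_max_right _ _)
        rw [abs_of_nonneg]
        · exact hx2.2
        · refine le_trans ?_ hx2.1
          positivity) hh1 hh2 hh3 hh5
    rw [DI_eq W hW b (KJ X N m) hb hb1 (hKJm m) _ (hKJb m hm)] at h1
    refine h1.trans ?_
    have h2 := log_bound X N M m hX hN hM hm2
    have h3 : ∫ u, h u ≤ C4 * (N ^ 2 / m) * (2 * Lg X N M) := by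
      refine hh4.trans (mul_le_mul_of_nonneg_left h2 (by positivity))
    have h4 : (∫ u, h u) * (EE W).toReal ≤ C4 * (N ^ 2 / m) * (2 * Lg X N M) * (EE W).toReal :=
      mul_le_mul_of_nonneg_right h3 hE
    have h5 : Rr W ^ 3 * ((∫ u, h u) * (EE W).toReal) ≤
        Rr W ^ 3 * (C4 * (N ^ 2 / m) * (2 * Lg X N M) * (EE W).toReal) :=
      mul_le_mul_of_nonneg_left h4 (by positivity)
    refine h5.trans (le_of_eq ?_)
    field_simp
  -- the fourth root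
  have hF : N * ((2 * C4 * N ^ 2 * Lg X N M * Rr W ^ 3 * (EE W).toReal) * M ^ 3) ^ (1 / 4 : ℝ) ≤
      2 * C4 * (N ^ 6 * M ^ 3 * Lg X N M * Rr W ^ 3 * (EE W).toReal) ^ (1 / 4 : ℝ) := by
    have e1 : N = (N ^ 4) ^ (1 / 4 : ℝ) := by
      rw [← Real.rpow_natCast, ← Real.rpow_mul hN0.le]
      norm_num
    have e2 : N * ((2 * C4 * N ^ 2 * Lg X N M * Rr W ^ 3 * (EE W).toReal) * M ^ 3) ^ (1 / 4 : ℝ) =
        (2 * C4) ^ (1 / 4 : ℝ) *
          (N ^ 6 * M ^ 3 * Lg X N M * Rr W ^ 3 * (EE W).toReal) ^ (1 / 4 : ℝ) := by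
      calc N * ((2 * C4 * N ^ 2 * Lg X N M * Rr W ^ 3 * (EE W).toReal) * M ^ 3) ^ (1 / 4 : ℝ)
          = (N ^ 4) ^ (1 / 4 : ℝ) *
            ((2 * C4 * N ^ 2 * Lg X N M * Rr W ^ 3 * (EE W).toReal) * M ^ 3) ^ (1 / 4 : ℝ) := by
            rw [← e1]
        _ = _ := by
            rw [← Real.mul_rpow (by positivity) (by positivity),
              ← Real.mul_rpow (by positivity) (by positivity)]
            congr 1
            ring
    rw [e2]
    refine mul_le_mul_of_nonneg_right ?_ (by positivity)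
    calc (2 * C4) ^ (1 / 4 : ℝ) ≤ (2 * C4) ^ (1 : ℝ) :=
          Real.rpow_le_rpow_of_exponent_le (by linarith) (by norm_num)
      _ = 2 * C4 := Real.rpow_one _
  set F := (N ^ 6 * M ^ 3 * Lg X N M * Rr W ^ 3 * (EE W).toReal) ^ (1 / 4 : ℝ) with hFdef
  have hF0 : 0 ≤ F := by positivity
  set D := ((2 * C4 * N ^ 2 * Lg X N M * Rr W ^ 3 * (EE W).toReal) * M ^ 3) ^ (1 / 4 : ℝ) with hDdef
  -- collect
  have hpi : Real.pi ≤ 4 := Real.pi_le_four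
  have hpi0 : 0 < Real.pi := Real.pi_pos
  have hs2 : Real.sqrt N * Real.sqrt N = N := Real.mul_self_sqrt hN0.le
  have e0 : 2 * N * (C2 * N * (Real.pi / Real.sqrt N) * Rr W) =
      2 * Real.pi * C2 * (N * Real.sqrt N * Rr W) := by
    field_simp
    nlinarith [hs2]
  have e1 : 2 * N * (C1 / N * Rr W ^ 2) = 2 * C1 * Rr W ^ 2 := by
    field_simp
  have h1 : 2 * N * ‖DI (volume.restrict W) b (KS X N)‖ ≤
      2 * N * (C2 * N * (Real.pi / Real.sqrt N) * Rr W + 2 * (8 / 3 * D) + C1 / N * Rr W ^ 2) := by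
    refine mul_le_mul_of_nonneg_left ?_ (by positivity)
    linarith [hsp, h0, herr, hmid]
  have h2 : 2 * N * (C2 * N * (Real.pi / Real.sqrt N) * Rr W + 2 * (8 / 3 * D) + C1 / N * Rr W ^ 2) =
      2 * Real.pi * C2 * (N * Real.sqrt N * Rr W) + 32 / 3 * (N * D) + 2 * C1 * Rr W ^ 2 := by
    rw [mul_add, mul_add, e0, e1]
    ring
  have hG0 : 0 ≤ N * Real.sqrt N * Rr W := by positivity
  have h3 : 2 * Real.pi * C2 * (N * Real.sqrt N * Rr W) ≤ 8 * C2 * (N * Real.sqrt N * Rr W) := by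
    refine mul_le_mul_of_nonneg_right ?_ hG0
    nlinarith
  have h4 : 2 * C1 * Rr W ^ 2 ≤ V ^ 2 * Rr W ^ 2 / 2 := by
    have : 4 * C1 ≤ V ^ 2 := by linarith
    have h5 : 4 * C1 * Rr W ^ 2 ≤ V ^ 2 * Rr W ^ 2 := mul_le_mul_of_nonneg_right this (by positivity)
    linarith
  have h5 : V ^ 2 * Rr W ^ 2 ≤ 16 * C2 * (N * Real.sqrt N * Rr W) + 128 / 3 * C4 * F := by
    linarith [hD, h1, h2, h3, h4, hF]
  have h6 : 16 * C2 * (N * Real.sqrt N * Rr W) ≤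
      (16 * C1 + 16 * C2 + C3 + 50 * C4) * (N * Real.sqrt N * Rr W) :=
    mul_le_mul_of_nonneg_right (by linarith) hG0
  have h7 : 128 / 3 * C4 * F ≤ (16 * C1 + 16 * C2 + C3 + 50 * C4) * F :=
    mul_le_mul_of_nonneg_right (by linarith) hF0
  rw [mul_add]
  linarith

end Pool.Agent.Work.MP_56b8f5_nt.UB
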