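import Pool.Agent.Work.MP_56b8f5_nt.UB.Stmts

/-!
MP_56b8f5_nt, block UB, item Df (no stationary point).
-/

open MeasureTheory Set Filter Topology

noncomputable section

namespace Pool.Agent.Work.MP_56b8f5_nt.UB

namespace Df_aux

/-- the integrand -/
def Fi (Θ : ℝ → ℝ) (K G s : ℝ) (k : ℕ) (h : ℤ) (l : ℝ) : ℂ :=
  ((Real.exp (-(k * cth l / K)) * Θ (G * l) / (2 * Real.sinh (l / 2)) : ℝ) : ℂ) *
    ee (s * l + k * h / 2 * cth l)

/-- Passing to the limit `η → 0`. -/
lemma lim_bound (F : ℝ → ℂ) (b : ℝ) (hb : 0 < b) (hz : ∀ l, b ≤ l → F l = 0) (B c1 c2 : ℝ)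
    (hB : ∀ η, 0 < η → η ≤ b → ‖∫ l in η..b, F l‖ ≤ c1 * η + c2 * η ^ 2 + B) (hB0 : 0 ≤ B) :
    ‖∫ l in Ioi (0 : ℝ), F l‖ ≤ B := by
  by_cases hint : IntegrableOn F (Ioi 0)
  · have hint2 : IntegrableOn F (uIcc 0 b) := by
      rw [uIcc_of_le hb.le]
      rw [integrableOn_Icc_iff_integrableOn_Ioc]
      exact hint.mono_set Ioc_subset_Ioi_self
    have hcont := intervalIntegral.continuousOn_primitive_interval_left hint2
    have h0 : ContinuousWithinAt (fun x => ∫ t in x..b, F t) (uIcc 0 b) 0 :=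
      hcont 0 (by simp)
    have heq : ∫ l in Ioi (0 : ℝ), F l = ∫ l in (0 : ℝ)..b, F l := by
      rw [intervalIntegral.integral_of_le hb.le, ← Ioc_union_Ioi_eq_Ioi hb.le,
        setIntegral_union (by
          rw [Set.disjoint_left]
          intro x hx hx2
          exact absurd hx.2 (not_le.mpr hx2)) measurableSet_Ioi
          (hint.mono_set Ioc_subset_Ioi_self) (hint.mono_set (Ioi_subset_Ioi hb.le))]
      have : ∫ l in Ioi b, F l = 0 := by
        rw [setIntegral_eq_zero_of_forall_eq_zero]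
        intro x hx
        exact hz x (le_of_lt hx)
      rw [this, add_zero]
    rw [heq]
    have hle : 𝓝[Ioo 0 b] (0 : ℝ) ≤ 𝓝[uIcc 0 b] (0 : ℝ) := by
      apply nhdsWithin_mono
      rw [uIcc_of_le hb.le]
      exact Ioo_subset_Icc_self
    have ht : Tendsto (fun x => ‖∫ t in x..b, F t‖) (𝓝[Ioo 0 b] (0 : ℝ)) (𝓝 ‖∫ t in (0 : ℝ)..b, F t‖) :=
      (h0.tendsto.mono_left hle).norm
    have ht2 : Tendsto (fun x : ℝ => c1 * x + c2 * x ^ 2 + B) (𝓝[Ioo 0 b] (0 : ℝ)) (𝓝 B) := by
      have : Tendsto (fun x : ℝ => c1 * x + c2 * x ^ 2 + B) (𝓝 (0 : ℝ)) (𝓝 (c1 * 0 + c2 * 0 ^ 2 + B)) := by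
        apply Continuous.tendsto
        fun_prop
      simp only [mul_zero, ne_eq, OfNat.ofNat_ne_zero, not_false_eq_true, zero_pow, add_zero, zero_add] at this
      exact this.mono_left nhdsWithin_le_nhds
    have : (𝓝[Ioo 0 b] (0 : ℝ)).NeBot := left_nhdsWithin_Ioo_neBot hb
    refine le_of_tendsto_of_tendsto ht ht2 ?_
    filter_upwards [self_mem_nhdsWithin] with x hx
    exact hB x hx.1 hx.2.le
  · rw [integral_undef hint]
    simpa using hB0

end Df_aux

open Df_aux in
theorem iDf (hAa : StAa) (hPf : StPf) (hIP : StIP) : StDf := by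
  intro φ Θ hφ
  obtain ⟨Ca, hCa, hA⟩ := hAa φ Θ hφ
  refine ⟨270 * Ca + 2, by linarith, ?_⟩
  intro T G s k h hT hG hGT hs hk hh0 hh
  have hG2 : (2 : ℝ) ≤ G := by linarith
  have hG0 : 0 < G := by linarith
  have hT2 : (2 : ℝ) ≤ T := by linarith
  have hT0 : 0 < T := by linarith
  have hK1 : (1 : ℝ) ≤ T ^ 2 := by nlinarith
  have hk0 : (0 : ℝ) < k := by exact_mod_cast hk
  have hk1 : (1 : ℝ) ≤ k := by exact_mod_cast hk
  obtain ⟨a1, a2, ha2c, hAl⟩ := hA (T ^ 2) G k hK1 hG2 hk
  set n : ℝ := (k : ℝ) * h with hn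
  have hn0 : n ≠ 0 := by
    rw [hn]
    exact mul_ne_zero hk0.ne' (by exact_mod_cast hh0)
  have hnabs1 : 1 ≤ |n| := by
    rw [hn, abs_mul]
    have h1 : (1 : ℝ) ≤ |(h : ℝ)| := by
      have : (1 : ℤ) ≤ |h| := Int.one_le_abs hh0
      exact_mod_cast this
    have h2 : (1 : ℝ) ≤ |(k : ℝ)| := by rw [abs_of_pos hk0]; exact hk1
    nlinarith
  have hnabs : 0 < |n| := by linarith
  have hs1 : 0 < s := by
    have := hs.1
    have h3 : 0 < T / (4 * Real.pi) := by positivity
    linarith
  have hs2 : s ≤ 0.65 * T := by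
    have h4 := hs.2
    have h5 : 2 * T / Real.pi ≤ 0.65 * T := by
      rw [div_le_iff₀ Real.pi_pos]
      have := Real.pi_gt_d2
      nlinarith
    linarith
  have hb : (0 : ℝ) < 1 / G := by positivity
  have hb2 : 1 / G ≤ 1 / 2 := by
    apply one_div_le_one_div_of_le <;> linarith
  -- the phase
  set f : ℝ → ℝ := fun l => s * l + n / 2 * cth l with hf
  set f1 : ℝ → ℝ := fun l => s + n / 2 * (-(1 / (2 * Real.sinh (l / 2) ^ 2))) with hf1
  set f2 : ℝ → ℝ := fun l => n / 2 * (Real.cosh (l / 2) / (2 * Real.sinh (l / 2) ^ 3)) with hf2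
  set f3 : ℝ → ℝ := fun l => n / 2 * (-((3 + 2 * Real.sinh (l / 2) ^ 2) / (4 * Real.sinh (l / 2) ^ 4))) with hf3
  have hd1 : ∀ l, 0 < l → HasDerivAt f (f1 l) l := by
    intro l hl
    have := (hPf l hl).1
    have h6 := ((hasDerivAt_id l).const_mul s).add (this.const_mul (n / 2))
    rw [mul_one] at h6
    exact h6
  have hd2 : ∀ l, 0 < l → HasDerivAt f1 (f2 l) l := by
    intro l hl
    have := (hPf l hl).2.1
    have h6 := (this.const_mul (n / 2)).const_add s
    simpa [hf1, hf2] using h6
  have hd3 : ∀ l, 0 < l → HasDerivAt f2 (f3 l) l := by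
    intro l hl
    have := (hPf l hl).2.2.1
    have h6 := (this.const_mul (n / 2))
    simpa [hf2, hf3] using h6
  have hf3c : ContinuousOn f3 (Ioi 0) := by
    have hne : ∀ x ∈ Ioi (0 : ℝ), 4 * Real.sinh (x / 2) ^ 4 ≠ 0 := by
      intro x hx
      have : 0 < Real.sinh (x / 2) := Real.sinh_pos_iff.mpr (by
        have : (0 : ℝ) < x := hx
        linarith)
      positivity
    have c1 : Continuous fun x : ℝ => Real.sinh (x / 2) := Real.continuous_sinh.comp (by fun_prop)
    refine ContinuousOn.mul continuousOn_const (ContinuousOn.neg ?_)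
    refine ContinuousOn.div ?_ ?_ hne
    · exact (continuous_const.add (continuous_const.mul (c1.pow 2))).continuousOn
    · exact (continuous_const.mul (c1.pow 4)).continuousOn
  have hf1low : ∀ l, 0 < l → l ≤ 1 / G → |n| / (2 * l ^ 2) ≤ |f1 l| := by
    intro l hl hlG
    have hl2 : l ≤ 1 / 2 := hlG.trans hb2
    obtain ⟨q1, q2, -⟩ := (hPf l hl).2.2.2 hl2
    have hll : 0 < l ^ 2 := by positivity
    have e1 : |n| / (2 * l ^ 2) = |n| * (0.5 / l ^ 2) := by
      field_simp
      norm_num
    have e19 : 1.9 / l ^ 2 = 1.9 * (1 / l ^ 2) := by ring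
    have e05 : 0.5 / l ^ 2 = 0.5 * (1 / l ^ 2) := by ring
    have hinv : 0 < 1 / l ^ 2 := by positivity
    rw [e1, e05]
    rw [e19] at q1
    set P := 1 / (2 * Real.sinh (l / 2) ^ 2) with hP
    rcases hh with hneg | hbig
    · have hnneg : n < 0 := by
        rw [hn]
        exact mul_neg_of_pos_of_neg hk0 (by exact_mod_cast hneg)
      have : f1 l = s + |n| * (P / 2) := by
        simp only [hf1]
        rw [abs_of_neg hnneg]
        ring
      rw [this]
      have h7 : 0 ≤ s + |n| * (P / 2) := by positivity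
      rw [abs_of_nonneg h7]
      nlinarith
    · have hnpos : 0 < n := by
        have : 0 < (270 * Ca + 2) * T / G ^ 2 := by positivity
        linarith
      have hlG2 : G ^ 2 ≤ 1 / l ^ 2 := by
        rw [le_div_iff₀ hll]
        have h8 : G * l ≤ 1 := by
          rw [le_div_iff₀ hG0] at hlG
          linarith
        have h9 : 0 ≤ G * l := by positivity
        nlinarith
      have h10 : (270 * Ca + 2) * T < n * G ^ 2 := by
        rw [div_lt_iff₀ (by positivity)] at hbig
        exact hbig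
      have h11 : 2 * T ≤ n * (1 / l ^ 2) := by nlinarith
      have h12 : f1 l = -(n * (P / 2) - s) := by
        simp only [hf1]
        ring
      rw [h12, abs_neg, abs_of_pos hnpos]
      refine le_trans ?_ (le_abs_self _)
      nlinarith
  have hf1ne : ∀ l, 0 < l → l ≤ 1 / G → f1 l ≠ 0 := by
    intro l hl hlG h13
    have := hf1low l hl hlG
    rw [h13, abs_zero] at this
    have h14 : 0 < |n| / (2 * l ^ 2) := by positivity
    linarith
  have hf2up : ∀ l, 0 < l → l ≤ 1 / G → |f2 l| ≤ 2.5 * |n| / l ^ 3 := by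
    intro l hl hlG
    have hl2 : l ≤ 1 / 2 := hlG.trans hb2
    obtain ⟨-, -, q3, -⟩ := (hPf l hl).2.2.2 hl2
    have hsh : 0 < Real.sinh (l / 2) := Real.sinh_pos_iff.mpr (by linarith)
    have h15 : 0 ≤ Real.cosh (l / 2) / (2 * Real.sinh (l / 2) ^ 3) := by
      have := Real.cosh_pos (l / 2)
      positivity
    simp only [hf2]
    rw [abs_mul, abs_div, abs_of_nonneg h15]
    have : |n| / |2| * (Real.cosh (l / 2) / (2 * Real.sinh (l / 2) ^ 3)) ≤ |n| / 2 * (5 / l ^ 3) := by
      rw [abs_of_pos (by norm_num : (0 : ℝ) < 2)]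
      exact mul_le_mul_of_nonneg_left q3 (by positivity)
    refine this.trans (le_of_eq ?_)
    ring
  have hf3up : ∀ l, 0 < l → l ≤ 1 / G → |f3 l| ≤ 7 * |n| / l ^ 4 := by
    intro l hl hlG
    have hl2 : l ≤ 1 / 2 := hlG.trans hb2
    obtain ⟨-, -, -, q4, -⟩ := (hPf l hl).2.2.2 hl2
    have hsh : 0 < Real.sinh (l / 2) := Real.sinh_pos_iff.mpr (by linarith)
    have h15 : 0 ≤ (3 + 2 * Real.sinh (l / 2) ^ 2) / (4 * Real.sinh (l / 2) ^ 4) := by
      positivity
    simp only [hf3]
    rw [abs_mul, abs_div, abs_neg, abs_of_nonneg h15]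
    have : |n| / |2| * ((3 + 2 * Real.sinh (l / 2) ^ 2) / (4 * Real.sinh (l / 2) ^ 4)) ≤ |n| / 2 * (14 / l ^ 4) := by
      rw [abs_of_pos (by norm_num : (0 : ℝ) < 2)]
      exact mul_le_mul_of_nonneg_left q4 (by positivity)
    refine this.trans (le_of_eq ?_)
    ring
  -- amplitude
  set a : ℝ → ℝ := fun l => Real.exp (-(k * cth l / T ^ 2)) * Θ (G * l) / (2 * Real.sinh (l / 2)) with ha
  have hII : II Θ (T ^ 2) G s k h = ∫ l in Ioi (0 : ℝ), ((a l : ℝ) : ℂ) * ee (f l) := by
    unfold II
    refine integral_congr_ae (Filter.Eventually.of_forall ?_)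
    intro l
    simp only [ha, hf, hn]
  rw [hII]
  have hgoal : 270 * Ca / (G ^ 2 * n ^ 2) ≤ (270 * Ca + 2) / (G ^ 2 * n ^ 2) := by
    apply div_le_div_of_nonneg_right _ (by positivity)
    linarith
  refine le_trans ?_ hgoal
  refine lim_bound _ (1 / G) hb ?_ _ (2 * Ca) (24 * Ca) ?_ (by positivity)
  · intro l hl
    have hl0 : 0 < l := lt_of_lt_of_le hb hl
    have := ((hAl l hl0).2.2.2.2.2 hl).1
    simp only [ha, this, mul_zero, zero_div, Complex.ofReal_zero, zero_mul]
  · intro η hη hηb
    have hmain := (hIP η (1 / G) a a1 a2 f f1 f2 f3 hηb ?_ ?_ ?_).2 ?_ ?_ ?_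
    · -- bounds
      have hz := (hAl (1 / G) hb).2.2.2.2.2 le_rfl
      have haz : a (1 / G) = 0 := by
        simp only [ha, hz.1, mul_zero, zero_div]
      rw [haz, hz.2] at hmain
      simp only [abs_zero, zero_div, zero_mul, add_zero, zero_add] at hmain
      have hAη := hAl η hη
      have b0 : |a η| ≤ Ca / η := hAη.2.2.1
      have b1 : |a1 η| ≤ Ca / η ^ 2 := hAη.2.2.2.1
      have l1 := hf1low η hη hηb
      have u2 := hf2up η hη hηb
      have hpos1 : 0 < |n| / (2 * η ^ 2) := by positivity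
      have hf1pos : 0 < |f1 η| := lt_of_lt_of_le hpos1 l1
      have hnn : n ^ 2 = |n| ^ 2 := (sq_abs n).symm
      have t1 : |a η| / |f1 η| ≤ 2 * Ca * η := by
        rw [div_le_iff₀ hf1pos]
        calc |a η| ≤ Ca / η := b0
          _ ≤ 2 * Ca * η * (|n| / (2 * η ^ 2)) := by
              have : 2 * Ca * η * (|n| / (2 * η ^ 2)) = Ca / η * |n| := by
                field_simp
              rw [this]
              have : 0 ≤ Ca / η := by positivity
              nlinarith
          _ ≤ 2 * Ca * η * |f1 η| := by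
              apply mul_le_mul_of_nonneg_left l1 (by positivity)
      have t2 : |a1 η| / f1 η ^ 2 ≤ 4 * Ca * η ^ 2 := by
        have hsq : (|n| / (2 * η ^ 2)) ^ 2 ≤ f1 η ^ 2 := by
          rw [← sq_abs (f1 η)]
          exact pow_le_pow_left₀ hpos1.le l1 2
        have hpos : 0 < f1 η ^ 2 := lt_of_lt_of_le (by positivity) hsq
        rw [div_le_iff₀ hpos]
        calc |a1 η| ≤ Ca / η ^ 2 := b1
          _ ≤ 4 * Ca * η ^ 2 * (|n| / (2 * η ^ 2)) ^ 2 := by
              have : 4 * Ca * η ^ 2 * (|n| / (2 * η ^ 2)) ^ 2 = Ca / η ^ 2 * |n| ^ 2 := by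
                field_simp
                ring
              rw [this]
              have h1 : 0 ≤ Ca / η ^ 2 := by positivity
              have h2 : 1 ≤ |n| ^ 2 := one_le_pow₀ hnabs1
              nlinarith
          _ ≤ 4 * Ca * η ^ 2 * f1 η ^ 2 := by
              apply mul_le_mul_of_nonneg_left hsq (by positivity)
      have t3 : |a η| * |f2 η| / |f1 η| ^ 3 ≤ 20 * Ca * η ^ 2 := by
        have hcu : (|n| / (2 * η ^ 2)) ^ 3 ≤ |f1 η| ^ 3 := pow_le_pow_left₀ hpos1.le l1 3
        rw [div_le_iff₀ (by positivity)]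
        calc |a η| * |f2 η| ≤ Ca / η * (2.5 * |n| / η ^ 3) :=
              mul_le_mul b0 u2 (abs_nonneg _) (by positivity)
          _ ≤ 20 * Ca * η ^ 2 * (|n| / (2 * η ^ 2)) ^ 3 := by
              have e1 : 20 * Ca * η ^ 2 * (|n| / (2 * η ^ 2)) ^ 3 = 2.5 * (Ca / η ^ 4) * |n| ^ 3 := by
                field_simp
                ring
              have e2 : Ca / η * (2.5 * |n| / η ^ 3) = 2.5 * (Ca / η ^ 4) * |n| := by
                field_simp
              rw [e1, e2]
              have h1 : 0 ≤ 2.5 * (Ca / η ^ 4) := by positivity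
              have h2 : |n| ≤ |n| ^ 3 := by
                calc |n| = |n| * 1 := (mul_one _).symm
                  _ ≤ |n| * |n| ^ 2 := mul_le_mul_of_nonneg_left (one_le_pow₀ hnabs1) hnabs.le
                  _ = |n| ^ 3 := by ring
              exact mul_le_mul_of_nonneg_left h2 h1
          _ ≤ 20 * Ca * η ^ 2 * |f1 η| ^ 3 := by
              apply mul_le_mul_of_nonneg_left hcu (by positivity)
      have t4 : ∫ x in η..(1 / G), (|a2 x| / f1 x ^ 2 + |a1 x| * |f2 x| / |f1 x| ^ 3 +
          |a x| * f2 x ^ 2 / f1 x ^ 4 + |a x| * |f3 x| / |f1 x| ^ 3) ≤ 90 * Ca / (G ^ 2 * n ^ 2) := by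
        have hmono : ∫ x in η..(1 / G), (|a2 x| / f1 x ^ 2 + |a1 x| * |f2 x| / |f1 x| ^ 3 +
            |a x| * f2 x ^ 2 / f1 x ^ 4 + |a x| * |f3 x| / |f1 x| ^ 3) ≤
            ∫ x in η..(1 / G), (180 * Ca / n ^ 2) * x := by
          apply intervalIntegral.integral_mono_on_of_le_Ioo hηb
          · apply ContinuousOn.intervalIntegrable
            rw [uIcc_of_le hηb]
            have hsub : Icc η (1 / G) ⊆ Ioi 0 := fun x hx => lt_of_lt_of_le hη hx.1
            have k0 : ContinuousOn a (Icc η (1 / G)) := fun x hx =>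
              (hAl x (hsub hx)).1.continuousAt.continuousWithinAt
            have k1 : ContinuousOn a1 (Icc η (1 / G)) := fun x hx =>
              (hAl x (hsub hx)).2.1.continuousAt.continuousWithinAt
            have k2 : ContinuousOn a2 (Icc η (1 / G)) := ha2c.mono hsub
            have j1 : ContinuousOn f1 (Icc η (1 / G)) := fun x hx =>
              (hd2 x (hsub hx)).continuousAt.continuousWithinAt
            have j2 : ContinuousOn f2 (Icc η (1 / G)) := fun x hx =>
              (hd3 x (hsub hx)).continuousAt.continuousWithinAt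
            have j3 : ContinuousOn f3 (Icc η (1 / G)) := hf3c.mono hsub
            have ne : ∀ x ∈ Icc η (1 / G), f1 x ≠ 0 := fun x hx => hf1ne x (hsub hx) hx.2
            refine (((k2.abs.div (j1.pow 2) ?_).add ((k1.abs.mul j2.abs).div (j1.abs.pow 3) ?_)).add
              ((k0.abs.mul (j2.pow 2)).div (j1.pow 4) ?_)).add
              ((k0.abs.mul j3.abs).div (j1.abs.pow 3) ?_)
            · exact fun x hx => pow_ne_zero 2 (ne x hx)
            · exact fun x hx => pow_ne_zero 3 (abs_ne_zero.mpr (ne x hx))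
            · exact fun x hx => pow_ne_zero 4 (ne x hx)
            · exact fun x hx => pow_ne_zero 3 (abs_ne_zero.mpr (ne x hx))
          · apply Continuous.intervalIntegrable
            fun_prop
          · intro x hx
            have hx0 : 0 < x := lt_trans hη hx.1
            have hxG : x ≤ 1 / G := hx.2.le
            have c0 : |a x| ≤ Ca / x := (hAl x hx0).2.2.1
            have c1 : |a1 x| ≤ Ca / x ^ 2 := (hAl x hx0).2.2.2.1
            have c2 : |a2 x| ≤ Ca / x ^ 3 := (hAl x hx0).2.2.2.2.1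
            have m1 := hf1low x hx0 hxG
            have m2 := hf2up x hx0 hxG
            have m3 := hf3up x hx0 hxG
            have hq : 0 < |n| / (2 * x ^ 2) := by positivity
            have hp1 : 0 < |f1 x| := lt_of_lt_of_le hq m1
            have r2 : (|n| / (2 * x ^ 2)) ^ 2 ≤ f1 x ^ 2 := by
              rw [← sq_abs (f1 x)]
              exact pow_le_pow_left₀ hq.le m1 2
            have r3 : (|n| / (2 * x ^ 2)) ^ 3 ≤ |f1 x| ^ 3 := pow_le_pow_left₀ hq.le m1 3
            have r4 : (|n| / (2 * x ^ 2)) ^ 4 ≤ f1 x ^ 4 := by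
              have : f1 x ^ 4 = |f1 x| ^ 4 := by
                rw [← abs_pow, abs_of_nonneg (by positivity)]
              rw [this]
              exact pow_le_pow_left₀ hq.le m1 4
            have s1 : |a2 x| / f1 x ^ 2 ≤ 4 * Ca / n ^ 2 * x := by
              calc |a2 x| / f1 x ^ 2 ≤ (Ca / x ^ 3) / (|n| / (2 * x ^ 2)) ^ 2 :=
                    div_le_div₀ (by positivity) c2 (by positivity) r2
                _ = 4 * Ca / n ^ 2 * x := by
                    rw [← sq_abs n]
                    field_simp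
                    ring
            have s2 : |a1 x| * |f2 x| / |f1 x| ^ 3 ≤ 20 * Ca / n ^ 2 * x := by
              calc |a1 x| * |f2 x| / |f1 x| ^ 3 ≤
                  (Ca / x ^ 2 * (2.5 * |n| / x ^ 3)) / (|n| / (2 * x ^ 2)) ^ 3 :=
                    div_le_div₀ (by positivity) (mul_le_mul c1 m2 (abs_nonneg _) (by positivity))
                      (by positivity) r3
                _ = 20 * Ca / n ^ 2 * x := by
                    rw [← sq_abs n]
                    field_simp
                    ring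
            have s3 : |a x| * f2 x ^ 2 / f1 x ^ 4 ≤ 100 * Ca / n ^ 2 * x := by
              have m22 : f2 x ^ 2 ≤ (2.5 * |n| / x ^ 3) ^ 2 := by
                rw [← sq_abs (f2 x)]
                exact pow_le_pow_left₀ (abs_nonneg _) m2 2
              calc |a x| * f2 x ^ 2 / f1 x ^ 4 ≤
                  (Ca / x * (2.5 * |n| / x ^ 3) ^ 2) / (|n| / (2 * x ^ 2)) ^ 4 :=
                    div_le_div₀ (by positivity) (mul_le_mul c0 m22 (by positivity) (by positivity))
                      (by positivity) r4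
                _ = 100 * Ca / n ^ 2 * x := by
                    rw [← sq_abs n]
                    field_simp
                    ring
            have s4 : |a x| * |f3 x| / |f1 x| ^ 3 ≤ 56 * Ca / n ^ 2 * x := by
              calc |a x| * |f3 x| / |f1 x| ^ 3 ≤
                  (Ca / x * (7 * |n| / x ^ 4)) / (|n| / (2 * x ^ 2)) ^ 3 :=
                    div_le_div₀ (by positivity) (mul_le_mul c0 m3 (abs_nonneg _) (by positivity))
                      (by positivity) r3
                _ = 56 * Ca / n ^ 2 * x := by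
                    rw [← sq_abs n]
                    field_simp
                    ring
            have hsum : 4 * Ca / n ^ 2 * x + 20 * Ca / n ^ 2 * x + 100 * Ca / n ^ 2 * x +
                56 * Ca / n ^ 2 * x = 180 * Ca / n ^ 2 * x := by ring
            linarith
        refine hmono.trans ?_
        rw [intervalIntegral.integral_const_mul, integral_id]
        have hn2 : 0 < n ^ 2 := by positivity
        have e3 : 90 * Ca / (G ^ 2 * n ^ 2) = 180 * Ca / n ^ 2 * ((1 / G) ^ 2 / 2) := by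
          field_simp
          ring
        rw [e3]
        apply mul_le_mul_of_nonneg_left _ (by positivity)
        nlinarith [sq_nonneg η]
      have hfin : 3 * (90 * Ca / (G ^ 2 * n ^ 2)) = 270 * Ca / (G ^ 2 * n ^ 2) := by ring
      linarith
    · intro x hx
      have hx0 : 0 < x := lt_of_lt_of_le hη hx.1
      exact ⟨(hAl x hx0).1, hd1 x hx0, hd2 x hx0, hf1ne x hx0 hx.2⟩
    · intro x hx
      have hx0 : 0 < x := lt_of_lt_of_le hη hx.1
      exact (hAl x hx0).2.1.continuousAt.continuousWithinAt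
    · intro x hx
      have hx0 : 0 < x := lt_of_lt_of_le hη hx.1
      exact (hd3 x hx0).continuousAt.continuousWithinAt
    · intro x hx
      have hx0 : 0 < x := lt_of_lt_of_le hη hx.1
      exact ⟨(hAl x hx0).2.1, hd3 x hx0⟩
    · exact ha2c.mono (fun x hx => lt_of_lt_of_le hη hx.1)
    · exact hf3c.mono (fun x hx => lt_of_lt_of_le hη hx.1)

end Pool.Agent.Work.MP_56b8f5_nt.UB
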