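import Pool.Agent.Work.MP_56b8f5_nt.UB.Stmts

/-!
MP_56b8f5_nt, block UB, item Dn (near part of the dual formula).
-/

set_option autoImplicit false

open MeasureTheory Set Filter Topology

noncomputable section

namespace Pool.Agent.Work.MP_56b8f5_nt.UB

namespace Dn_aux

lemma norm_ee (x : ℝ) : ‖ee x‖ = 1 := by
  unfold ee
  exact Complex.norm_exp_ofReal_mul_I _

lemma cont_ee : Continuous ee := by
  unfold ee
  fun_prop

lemma intg {g : ℝ → ℂ} {b M : ℝ} (hb : 0 < b) (hc : ContinuousOn g (Ioi 0))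
    (hM : ∀ l, 0 < l → l ≤ b → ‖g l‖ ≤ M) (h0 : ∀ l, b < l → g l = 0) :
    IntegrableOn g (Ioi 0) := by
  rw [← Ioc_union_Ioi_eq_Ioi hb.le]
  refine IntegrableOn.union ?_ ?_
  · refine Integrable.mono' (g := fun _ => M) (integrableOn_const (by simp)) ?_ ?_
    · exact (hc.mono Ioc_subset_Ioi_self).aestronglyMeasurable measurableSet_Ioc
    · exact (ae_restrict_iff' measurableSet_Ioc).2
        (Eventually.of_forall fun l hl => hM l hl.1 hl.2)
  · have h : IntegrableOn (fun _ : ℝ => (0 : ℂ)) (Ioi b) volume := integrableOn_zero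
    exact h.congr_fun (fun l hl => (h0 l hl).symm) measurableSet_Ioi

/-! ### the bump function -/

lemma ch_nonneg (u : ℝ) : 0 ≤ ch u := chB.nonneg

lemma ch_le (u : ℝ) : ch u ≤ 1 := chB.le_one

lemma ch_one {u : ℝ} (h1 : 1 / 2 ≤ u) (h2 : u ≤ 9 / 2) : ch u = 1 := by
  refine chB.one_of_mem_closedBall ?_
  rw [Metric.mem_closedBall, Real.dist_eq, abs_le]
  show -2 ≤ u - 5 / 2 ∧ u - 5 / 2 ≤ 2
  constructor <;> linarith

lemma ch_zero {u : ℝ} (h : u ≤ 1 / 4 ∨ 19 / 4 ≤ u) : ch u = 0 := by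
  refine chB.zero_of_le_dist ?_
  rw [Real.dist_eq]
  show 9 / 4 ≤ |u - 5 / 2|
  rcases h with h | h
  · rw [abs_of_nonpos (by linarith)]
    linarith
  · rw [abs_of_nonneg (by linarith)]
    linarith

lemma ch_smooth : ContDiff ℝ 1 ch := chB.contDiff

lemma ch_compact : HasCompactSupport ch := chB.hasCompactSupport

lemma ch_hasDeriv (u : ℝ) : HasDerivAt ch (deriv ch u) u :=
  (ch_smooth.differentiable (by norm_num) u).hasDerivAt

lemma ch_deriv_cont : Continuous (deriv ch) := ch_smooth.continuous_deriv (by norm_num)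

lemma ch_deriv_bdd : ∃ D : ℝ, 0 ≤ D ∧ ∀ u, |deriv ch u| ≤ D := by
  obtain ⟨D, hD⟩ := ch_deriv_cont.bounded_above_of_compact_support ch_compact.deriv
  exact ⟨D, (norm_nonneg _).trans (hD 0), fun u => hD u⟩

lemma ch_deriv_zero {u : ℝ} (h : 19 / 4 < u) : deriv ch u = 0 := by
  have h1 : ch =ᶠ[𝓝 u] fun _ => (0 : ℝ) := by
    filter_upwards [eventually_gt_nhds h] with y hy
    exact ch_zero (Or.inr hy.le)
  rw [h1.deriv_eq, deriv_const]

/-! ### bound for `Θ` -/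

lemma theta_bdd {φ Θ : ℝ → ℝ} (h : IsPhi φ Θ) : ∃ M : ℝ, 0 ≤ M ∧ ∀ x, |Θ x| ≤ M := by
  have hc : Continuous Θ := h.smooth.continuous
  obtain ⟨M, hM⟩ := (isCompact_Icc (a := (-1 : ℝ)) (b := 1)).exists_bound_of_continuousOn
    hc.continuousOn
  refine ⟨max M 0, le_max_right _ _, fun x => ?_⟩
  by_cases hx : 1 ≤ |x|
  · rw [h.supp x hx, abs_zero]
    exact le_max_right _ _
  · push Not at hx
    exact (hM x ⟨(abs_lt.1 hx).1.le, (abs_lt.1 hx).2.le⟩).trans (le_max_left _ _)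

/-! ### the phase -/

/-- the phase -/
def ph (s n l : ℝ) : ℝ := s * l + n / 2 * cth l

/-- its derivative -/
def p1 (s n l : ℝ) : ℝ := s - n / 2 * (1 / (2 * Real.sinh (l / 2) ^ 2))

/-- its second derivative -/
def p2 (n l : ℝ) : ℝ := n / 2 * (Real.cosh (l / 2) / (2 * Real.sinh (l / 2) ^ 3))

lemma ph_deriv (hPf : StPf) (s n : ℝ) {l : ℝ} (hl : 0 < l) :
    HasDerivAt (ph s n) (p1 s n l) l := by
  have h1 := ((hasDerivAt_id l).const_mul s).add ((hPf l hl).1.const_mul (n / 2))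
  refine h1.congr_deriv ?_
  unfold p1
  ring

lemma p1_deriv (hPf : StPf) (s n : ℝ) {l : ℝ} (hl : 0 < l) :
    HasDerivAt (p1 s n) (p2 n l) l := by
  have h1 := ((hPf l hl).2.1.const_mul (n / 2)).const_add s
  have h2 : p1 s n = fun x => s + n / 2 * -(1 / (2 * Real.sinh (x / 2) ^ 2)) := by
    funext x
    unfold p1
    ring
  rw [h2]
  exact h1

lemma ph_cont (hPf : StPf) (s n : ℝ) : ContinuousOn (ph s n) (Ioi 0) :=
  fun _ hl => (ph_deriv hPf s n hl).continuousAt.continuousWithinAt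

lemma p1_cont (hPf : StPf) (s n : ℝ) : ContinuousOn (p1 s n) (Ioi 0) :=
  fun _ hl => (p1_deriv hPf s n hl).continuousAt.continuousWithinAt

lemma p2_cont (hPf : StPf) (n : ℝ) : ContinuousOn (p2 n) (Ioi 0) := by
  refine continuousOn_const.mul fun l hl => ?_
  exact (hPf l hl).2.2.1.continuousAt.continuousWithinAt

lemma p2_le (hPf : StPf) {n l : ℝ} (hn : 0 < n) (hl : 0 < l) (hl2 : l ≤ 1 / 2) :
    |p2 n l| ≤ 5 / 2 * n / l ^ 3 := by
  have hs : 0 < Real.sinh (l / 2) := Real.sinh_pos_iff.2 (by linarith)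
  have h0 : 0 ≤ p2 n l := by
    unfold p2
    have := Real.cosh_pos (l / 2)
    positivity
  rw [abs_of_nonneg h0]
  unfold p2
  have h1 := ((hPf l hl).2.2.2 hl2).2.2.1
  calc n / 2 * (Real.cosh (l / 2) / (2 * Real.sinh (l / 2) ^ 3)) ≤ n / 2 * (5 / l ^ 3) :=
        mul_le_mul_of_nonneg_left h1 (by positivity)
    _ = 5 / 2 * n / l ^ 3 := by ring

lemma p1_near (hPf : StPf) {s T l0 l : ℝ} (hT : 0 < T) (hs : s ≤ 2 * T / Real.pi)
    (hl : 0 < l) (hl2 : l ≤ 1 / 2) (hl3 : l ≤ l0 / 2) :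
    3 / 4 * (T * l0 ^ 2) / l ^ 2 ≤ |p1 s (T * l0 ^ 2) l| := by
  have h1 := ((hPf l hl).2.2.2 hl2).1
  have hpi : 3.14 < Real.pi := Real.pi_gt_d2
  have hs2 : s ≤ 0.64 * T := by
    refine hs.trans ?_
    rw [div_le_iff₀ (by linarith)]
    nlinarith
  have hq : 1 ≤ l0 ^ 2 / (4 * l ^ 2) := by
    rw [le_div_iff₀ (by positivity)]
    nlinarith
  have hT2 : T ≤ T * l0 ^ 2 / (4 * l ^ 2) := by
    rw [mul_div_assoc]
    exact le_mul_of_one_le_right hT.le hq
  have h2 : T * l0 ^ 2 / 2 * (1.9 / l ^ 2) ≤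
      T * l0 ^ 2 / 2 * (1 / (2 * Real.sinh (l / 2) ^ 2)) :=
    mul_le_mul_of_nonneg_left h1 (by positivity)
  have h3 : T * l0 ^ 2 / 2 * (1.9 / l ^ 2) = 3.8 * (T * l0 ^ 2 / (4 * l ^ 2)) := by
    field_simp
    ring
  have h4 : 3 / 4 * (T * l0 ^ 2) / l ^ 2 = 3 * (T * l0 ^ 2 / (4 * l ^ 2)) := by
    field_simp
  rw [h4]
  refine le_trans ?_ (neg_le_abs _)
  unfold p1
  rw [h3] at h2
  nlinarith

lemma p1_far (hPf : StPf) {s T l0 l : ℝ} (hT : 0 < T) (hs : T / (4 * Real.pi) ≤ s)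
    (hl0 : 0 < l0) (hl : 0 < l) (hl2 : l ≤ 1 / 2) (hl3 : 9 * l0 / 2 ≤ l) :
    T / 34 ≤ |p1 s (T * l0 ^ 2) l| := by
  have h1 := ((hPf l hl).2.2.2 hl2).2.1
  have hpi : Real.pi < 3.15 := Real.pi_lt_d2
  have hpi0 := Real.pi_pos
  have hs2 : T / 12.6 ≤ s := by
    refine le_trans ?_ hs
    exact div_le_div_of_nonneg_left hT.le (by positivity) (by linarith)
  have h2 : T * l0 ^ 2 / 2 * (1 / (2 * Real.sinh (l / 2) ^ 2)) ≤ T * l0 ^ 2 / 2 * (2 / l ^ 2) :=
    mul_le_mul_of_nonneg_left h1 (by positivity)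
  have h3 : T * l0 ^ 2 / 2 * (2 / l ^ 2) ≤ T / 20.25 := by
    have e : T * l0 ^ 2 / 2 * (2 / l ^ 2) = T * (l0 ^ 2 / l ^ 2) := by
      field_simp
    have e2 : l0 ^ 2 / l ^ 2 ≤ 1 / 20.25 := by
      rw [div_le_iff₀ (by positivity)]
      have : (9 * l0 / 2) ^ 2 ≤ l ^ 2 := pow_le_pow_left₀ (by positivity) hl3 2
      norm_num at this ⊢
      nlinarith
    rw [e]
    calc T * (l0 ^ 2 / l ^ 2) ≤ T * (1 / 20.25) := mul_le_mul_of_nonneg_left e2 hT.le
      _ = T / 20.25 := by ring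
  refine le_trans ?_ (le_abs_self _)
  unfold p1
  have h4 : T / 12.6 - T / 20.25 ≥ T / 34 := by
    norm_num
    linarith
  linarith

/-! ### the amplitude -/

/-- an amplitude -/
structure Amp (a a1 : ℝ → ℝ) (G Ca : ℝ) : Prop where
  d : ∀ l, 0 < l → HasDerivAt a (a1 l) l
  c : ContinuousOn a1 (Ioi 0)
  b0 : ∀ l, 0 < l → |a l| ≤ Ca / l
  b1 : ∀ l, 0 < l → |a1 l| ≤ Ca / l ^ 2
  z : ∀ l, 1 / G ≤ l → a l = 0

/-- the amplitude away from the stationary point -/
def AA (l0 : ℝ) (a : ℝ → ℝ) (l : ℝ) : ℝ := (1 - ch (l / l0)) * a l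

/-- its derivative -/
def AA1 (l0 : ℝ) (a a1 : ℝ → ℝ) (l : ℝ) : ℝ :=
  -(deriv ch (l / l0) / l0) * a l + (1 - ch (l / l0)) * a1 l

section
variable {a a1 : ℝ → ℝ} {G Ca : ℝ} (h : Amp a a1 G Ca)
include h

lemma Amp.cont : ContinuousOn a (Ioi 0) :=
  fun _ hl => (h.d _ hl).continuousAt.continuousWithinAt

lemma Amp.deriv_AA (l0 : ℝ) {l : ℝ} (hl : 0 < l) : HasDerivAt (AA l0 a) (AA1 l0 a a1 l) l := by
  have h1 : HasDerivAt (fun x => ch (x / l0)) (deriv ch (l / l0) * (1 / l0)) l :=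
    (ch_hasDeriv (l / l0)).comp l ((hasDerivAt_id l).div_const l0)
  have h2 := (h1.const_sub 1).mul (h.d l hl)
  refine h2.congr_deriv ?_
  unfold AA1
  ring

lemma Amp.cont_AA (l0 : ℝ) : ContinuousOn (AA l0 a) (Ioi 0) :=
  fun _ hl => (h.deriv_AA l0 hl).continuousAt.continuousWithinAt

lemma Amp.cont_AA1 (l0 : ℝ) : ContinuousOn (AA1 l0 a a1) (Ioi 0) := by
  have h1 : Continuous fun l : ℝ => deriv ch (l / l0) := ch_deriv_cont.comp (by fun_prop)
  have h2 : Continuous fun l : ℝ => ch (l / l0) := ch_smooth.continuous.comp (by fun_prop)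
  exact ((h1.div_const _).neg.continuousOn.mul h.cont).add
    ((continuous_const.sub h2).continuousOn.mul h.c)

lemma Amp.AA_le (l0 : ℝ) {l : ℝ} (hl : 0 < l) : |AA l0 a l| ≤ Ca / l := by
  unfold AA
  rw [abs_mul]
  have h1 : |1 - ch (l / l0)| ≤ 1 := by
    rw [abs_le]
    constructor <;> linarith [ch_nonneg (l / l0), ch_le (l / l0)]
  calc |1 - ch (l / l0)| * |a l| ≤ 1 * |a l| := mul_le_mul_of_nonneg_right h1 (abs_nonneg _)
    _ ≤ Ca / l := by rw [one_mul]; exact h.b0 l hl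

lemma Amp.AA1_le {D : ℝ} (hD0 : 0 ≤ D) (hD : ∀ u, |deriv ch u| ≤ D) {l0 : ℝ} (hl0 : 0 < l0)
    {l : ℝ} (hl : 0 < l) : |AA1 l0 a a1 l| ≤ Ca * (1 + 5 * D) / l ^ 2 := by
  have hCa : 0 ≤ Ca := by
    have h1 := h.b0 l hl
    have h2 : 0 ≤ Ca / l := (abs_nonneg _).trans h1
    by_contra hc
    push Not at hc
    exact absurd h2 (not_le.2 (div_neg_of_neg_of_pos hc hl))
  unfold AA1
  have h1 : |1 - ch (l / l0)| ≤ 1 := by
    rw [abs_le]
    constructor <;> linarith [ch_nonneg (l / l0), ch_le (l / l0)]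
  have h2 : |deriv ch (l / l0) / l0| ≤ 5 * D / l := by
    by_cases hc : 19 / 4 < l / l0
    · rw [ch_deriv_zero hc, zero_div, abs_zero]
      positivity
    · push Not at hc
      rw [div_le_iff₀ hl0] at hc
      rw [abs_div, abs_of_pos hl0, div_le_div_iff₀ hl0 hl]
      have h3 := hD (l / l0)
      have h4 := abs_nonneg (deriv ch (l / l0))
      calc |deriv ch (l / l0)| * l ≤ D * l := mul_le_mul_of_nonneg_right h3 hl.le
        _ ≤ D * (5 * l0) := mul_le_mul_of_nonneg_left (by linarith) hD0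
        _ = 5 * D * l0 := by ring
  calc |-(deriv ch (l / l0) / l0) * a l + (1 - ch (l / l0)) * a1 l|
      ≤ |-(deriv ch (l / l0) / l0) * a l| + |(1 - ch (l / l0)) * a1 l| := abs_add_le _ _
    _ = |deriv ch (l / l0) / l0| * |a l| + |1 - ch (l / l0)| * |a1 l| := by
        rw [abs_mul, abs_mul, abs_neg]
    _ ≤ 5 * D / l * (Ca / l) + 1 * (Ca / l ^ 2) := by
        refine add_le_add ?_ ?_
        · exact mul_le_mul h2 (h.b0 l hl) (abs_nonneg _) (by positivity)
        · exact mul_le_mul h1 (h.b1 l hl) (abs_nonneg _) zero_le_one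
    _ = Ca * (1 + 5 * D) / l ^ 2 := by
        field_simp
        ring

end

/-! ### the pieces -/

lemma int_inv_sq {α b : ℝ} (hα : 0 < α) (hab : α ≤ b) : ∫ x in α..b, 1 / x ^ 2 ≤ 1 / α := by
  have hd : ∀ x ∈ uIcc α b, HasDerivAt (fun y : ℝ => -(1 / y)) (1 / x ^ 2) x := by
    intro x hx
    rw [uIcc_of_le hab] at hx
    have hx0 : x ≠ 0 := (hα.trans_le hx.1).ne'
    have h1 := (hasDerivAt_inv hx0).neg
    simp only [one_div]
    rw [neg_neg] at h1
    exact h1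
  have hc : ContinuousOn (fun x : ℝ => 1 / x ^ 2) (uIcc α b) := by
    rw [uIcc_of_le hab]
    exact continuousOn_const.div (continuousOn_id.pow 2) fun x hx =>
      pow_ne_zero 2 (hα.trans_le hx.1).ne'
  rw [intervalIntegral.integral_eq_sub_of_hasDerivAt hd hc.intervalIntegrable]
  have : 0 < 1 / b := by
    have := hα.trans_le hab
    positivity
  linarith

section
variable {a a1 : ℝ → ℝ} {G Ca : ℝ} (h : Amp a a1 G Ca) (hPf : StPf) (hIP : StIP)
include h hPf hIP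

/-- one integration by parts -/
lemma Amp.parts {s n l0 α β : ℝ} (hα : 0 < α) (hab : α ≤ β)
    (h0 : ∀ l ∈ Icc α β, p1 s n l ≠ 0) :
    ‖∫ x in α..β, (AA l0 a x : ℂ) * ee (ph s n x)‖ ≤ |AA l0 a β| / |p1 s n β| +
      |AA l0 a α| / |p1 s n α| +
      ∫ x in α..β, (|AA1 l0 a a1 x| / |p1 s n x| + |AA l0 a x| * |p2 n x| / p1 s n x ^ 2) := by
  have hs : Icc α β ⊆ Ioi 0 := fun x hx => hα.trans_le hx.1
  exact (hIP α β (AA l0 a) (AA1 l0 a a1) (fun _ => 0) (ph s n) (p1 s n) (p2 n) (fun _ => 0) hab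
    (fun x hx => ⟨h.deriv_AA l0 (hs hx), ph_deriv hPf s n (hs hx), p1_deriv hPf s n (hs hx),
      h0 x hx⟩) ((h.cont_AA1 l0).mono hs) ((p2_cont hPf n).mono hs)).1

omit hIP in
lemma Amp.intb {s n l0 α β : ℝ} (hα : 0 < α) (hab : α ≤ β)
    (h0 : ∀ l ∈ Icc α β, p1 s n l ≠ 0) : IntervalIntegrable
      (fun x => |AA1 l0 a a1 x| / |p1 s n x| + |AA l0 a x| * |p2 n x| / p1 s n x ^ 2)
      volume α β := by
  have hs : Icc α β ⊆ Ioi 0 := fun x hx => hα.trans_le hx.1
  refine ContinuousOn.intervalIntegrable ?_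
  rw [uIcc_of_le hab]
  have c1 := (h.cont_AA1 l0).mono hs
  have c0 := (h.cont_AA l0).mono hs
  have q1 := (p1_cont hPf s n).mono hs
  have q2 := (p2_cont hPf n).mono hs
  exact (c1.abs.div q1.abs fun x hx => abs_ne_zero.2 (h0 x hx)).add
    ((c0.abs.mul q2.abs).div (q1.pow 2) fun x hx => pow_ne_zero 2 (h0 x hx))

/-- the part near 0 -/
lemma Amp.near {D : ℝ} (hD0 : 0 ≤ D) (hD : ∀ u, |deriv ch u| ≤ D) {s T l0 η : ℝ} (hT : 0 < T)
    (hs : s ≤ 2 * T / Real.pi) (hl0 : 0 < l0) (hl1 : l0 ≤ 1) (hη : 0 < η) (hη2 : η ≤ l0 / 2) :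
    ‖∫ x in η..(l0 / 2), (AA l0 a x : ℂ) * ee (ph s (T * l0 ^ 2) x)‖ ≤
      (3 * Ca + Ca * (1 + 5 * D)) / (T * l0) := by
  have hCa : 0 ≤ Ca := by
    have h1 := h.b0 1 one_pos
    rw [div_one] at h1
    exact (abs_nonneg _).trans h1
  have hn : 0 < T * l0 ^ 2 := by positivity
  have hlow : ∀ l ∈ Icc η (l0 / 2), 3 / 4 * (T * l0 ^ 2) / l ^ 2 ≤ |p1 s (T * l0 ^ 2) l| :=
    fun l hl => p1_near hPf hT hs (hη.trans_le hl.1) (by linarith [hl.2]) hl.2
  have hpos : ∀ l ∈ Icc η (l0 / 2), 0 < 3 / 4 * (T * l0 ^ 2) / l ^ 2 := fun l hl => by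
    have := hη.trans_le hl.1
    positivity
  have h0 : ∀ l ∈ Icc η (l0 / 2), p1 s (T * l0 ^ 2) l ≠ 0 := fun l hl =>
    abs_pos.1 ((hpos l hl).trans_le (hlow l hl))
  refine (h.parts hPf hIP hη hη2 h0).trans ?_
  have e1 : AA l0 a (l0 / 2) = 0 := by
    unfold AA
    have : l0 / 2 / l0 = 1 / 2 := by field_simp
    rw [this, ch_one le_rfl (by norm_num)]
    ring
  rw [e1, abs_zero, zero_div, zero_add]
  have e2 : |AA l0 a η| / |p1 s (T * l0 ^ 2) η| ≤ 2 / 3 * Ca / (T * l0) := by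
    have hm : η ∈ Icc η (l0 / 2) := ⟨le_rfl, hη2⟩
    calc |AA l0 a η| / |p1 s (T * l0 ^ 2) η| ≤ (Ca / η) / (3 / 4 * (T * l0 ^ 2) / η ^ 2) :=
          div_le_div₀ (by positivity) (h.AA_le l0 hη) (hpos η hm) (hlow η hm)
      _ = 4 / 3 * Ca * η / (T * l0 ^ 2) := by
          field_simp
      _ ≤ 4 / 3 * Ca * (l0 / 2) / (T * l0 ^ 2) :=
          div_le_div_of_nonneg_right (mul_le_mul_of_nonneg_left hη2 (by positivity)) hn.le
      _ = 2 / 3 * Ca / (T * l0) := by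
          field_simp
          ring
  have e3 : ∫ x in η..(l0 / 2), (|AA1 l0 a a1 x| / |p1 s (T * l0 ^ 2) x| +
      |AA l0 a x| * |p2 (T * l0 ^ 2) x| / p1 s (T * l0 ^ 2) x ^ 2) ≤
      (9 / 4 * Ca + 2 / 3 * (Ca * (1 + 5 * D))) / (T * l0) := by
    have hb : ∀ x ∈ Icc η (l0 / 2), |AA1 l0 a a1 x| / |p1 s (T * l0 ^ 2) x| +
        |AA l0 a x| * |p2 (T * l0 ^ 2) x| / p1 s (T * l0 ^ 2) x ^ 2 ≤
        (4 / 3 * (Ca * (1 + 5 * D)) + 9 / 2 * Ca) / (T * l0 ^ 2) := by
      intro x hx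
      have hx0 : 0 < x := hη.trans_le hx.1
      have hx1 : x ≤ 1 / 2 := by linarith [hx.2]
      have b1 : |AA1 l0 a a1 x| / |p1 s (T * l0 ^ 2) x| ≤
          4 / 3 * (Ca * (1 + 5 * D)) / (T * l0 ^ 2) := by
        calc |AA1 l0 a a1 x| / |p1 s (T * l0 ^ 2) x| ≤
            (Ca * (1 + 5 * D) / x ^ 2) / (3 / 4 * (T * l0 ^ 2) / x ^ 2) :=
              div_le_div₀ (by positivity) (h.AA1_le hD0 hD hl0 hx0) (hpos x hx) (hlow x hx)
          _ = 4 / 3 * (Ca * (1 + 5 * D)) / (T * l0 ^ 2) := by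
              field_simp
      have b2 : |AA l0 a x| * |p2 (T * l0 ^ 2) x| / p1 s (T * l0 ^ 2) x ^ 2 ≤
          9 / 2 * Ca / (T * l0 ^ 2) := by
        have hsq : (3 / 4 * (T * l0 ^ 2) / x ^ 2) ^ 2 ≤ p1 s (T * l0 ^ 2) x ^ 2 := by
          rw [← sq_abs (p1 s (T * l0 ^ 2) x)]
          exact pow_le_pow_left₀ (hpos x hx).le (hlow x hx) 2
        calc |AA l0 a x| * |p2 (T * l0 ^ 2) x| / p1 s (T * l0 ^ 2) x ^ 2 ≤
            (Ca / x * (5 / 2 * (T * l0 ^ 2) / x ^ 3)) / (3 / 4 * (T * l0 ^ 2) / x ^ 2) ^ 2 :=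
              div_le_div₀ (by positivity) (mul_le_mul (h.AA_le l0 hx0) (p2_le hPf hn hx0 hx1)
                (abs_nonneg _) (by positivity)) (pow_pos (hpos x hx) 2) hsq
          _ = 40 / 9 * Ca / (T * l0 ^ 2) := by
              field_simp
              ring
          _ ≤ 9 / 2 * Ca / (T * l0 ^ 2) :=
              div_le_div_of_nonneg_right (by linarith) hn.le
      calc _ ≤ 4 / 3 * (Ca * (1 + 5 * D)) / (T * l0 ^ 2) + 9 / 2 * Ca / (T * l0 ^ 2) :=
            add_le_add b1 b2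
        _ = _ := by ring
    calc _ ≤ ∫ x in η..(l0 / 2), (4 / 3 * (Ca * (1 + 5 * D)) + 9 / 2 * Ca) / (T * l0 ^ 2) :=
          intervalIntegral.integral_mono_on hη2 (h.intb hPf hη hη2 h0) (by simp) hb
      _ = (l0 / 2 - η) * ((4 / 3 * (Ca * (1 + 5 * D)) + 9 / 2 * Ca) / (T * l0 ^ 2)) := by
          rw [intervalIntegral.integral_const, smul_eq_mul]
      _ ≤ (l0 / 2) * ((4 / 3 * (Ca * (1 + 5 * D)) + 9 / 2 * Ca) / (T * l0 ^ 2)) :=
          mul_le_mul_of_nonneg_right (by linarith) (by positivity)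
      _ = (9 / 4 * Ca + 2 / 3 * (Ca * (1 + 5 * D))) / (T * l0) := by
          field_simp
          ring
  calc _ ≤ 2 / 3 * Ca / (T * l0) + (9 / 4 * Ca + 2 / 3 * (Ca * (1 + 5 * D))) / (T * l0) :=
        add_le_add e2 e3
    _ = (35 / 12 * Ca + 2 / 3 * (Ca * (1 + 5 * D))) / (T * l0) := by ring
    _ ≤ (3 * Ca + Ca * (1 + 5 * D)) / (T * l0) := by
        refine div_le_div_of_nonneg_right ?_ (by positivity)
        have : 0 ≤ Ca * (1 + 5 * D) := by positivity
        linarith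

/-- the far part -/
lemma Amp.far {D : ℝ} (hD0 : 0 ≤ D) (hD : ∀ u, |deriv ch u| ≤ D) {s T l0 b : ℝ} (hT : 0 < T)
    (hs : T / (4 * Real.pi) ≤ s) (hl0 : 0 < l0) (hb : 9 * l0 / 2 ≤ b) (hb2 : b ≤ 1 / 2)
    (hz : AA l0 a b = 0) :
    ‖∫ x in (9 * l0 / 2)..b, (AA l0 a x : ℂ) * ee (ph s (T * l0 ^ 2) x)‖ ≤
      (32 * Ca + 8 * (Ca * (1 + 5 * D))) / (T * l0) := by
  have hCa : 0 ≤ Ca := by
    have h1 := h.b0 1 one_pos
    rw [div_one] at h1
    exact (abs_nonneg _).trans h1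
  have hn : 0 < T * l0 ^ 2 := by positivity
  have hα : 0 < 9 * l0 / 2 := by positivity
  have hlow : ∀ l ∈ Icc (9 * l0 / 2) b, T / 34 ≤ |p1 s (T * l0 ^ 2) l| :=
    fun l hl => p1_far hPf hT hs hl0 (hα.trans_le hl.1) (hl.2.trans hb2) hl.1
  have hpos : 0 < T / 34 := by positivity
  have h0 : ∀ l ∈ Icc (9 * l0 / 2) b, p1 s (T * l0 ^ 2) l ≠ 0 := fun l hl =>
    abs_pos.1 (hpos.trans_le (hlow l hl))
  refine (h.parts hPf hIP hα hb h0).trans ?_
  have e1 : AA l0 a (9 * l0 / 2) = 0 := by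
    unfold AA
    have : 9 * l0 / 2 / l0 = 9 / 2 := by field_simp
    rw [this, ch_one (by norm_num) le_rfl]
    ring
  rw [e1, hz, abs_zero, zero_div, zero_div, zero_add, zero_add]
  have hb' : ∀ x ∈ Icc (9 * l0 / 2) b, |AA1 l0 a a1 x| / |p1 s (T * l0 ^ 2) x| +
      |AA l0 a x| * |p2 (T * l0 ^ 2) x| / p1 s (T * l0 ^ 2) x ^ 2 ≤
      (34 * (Ca * (1 + 5 * D)) + 143 * Ca) / T * (1 / x ^ 2) := by
    intro x hx
    have hx0 : 0 < x := hα.trans_le hx.1
    have hx1 : x ≤ 1 / 2 := hx.2.trans hb2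
    have b1 : |AA1 l0 a a1 x| / |p1 s (T * l0 ^ 2) x| ≤
        34 * (Ca * (1 + 5 * D)) / T * (1 / x ^ 2) := by
      calc |AA1 l0 a a1 x| / |p1 s (T * l0 ^ 2) x| ≤
          (Ca * (1 + 5 * D) / x ^ 2) / (T / 34) :=
            div_le_div₀ (by positivity) (h.AA1_le hD0 hD hl0 hx0) hpos (hlow x hx)
        _ = 34 * (Ca * (1 + 5 * D)) / T * (1 / x ^ 2) := by
            field_simp
    have b2 : |AA l0 a x| * |p2 (T * l0 ^ 2) x| / p1 s (T * l0 ^ 2) x ^ 2 ≤
        143 * Ca / T * (1 / x ^ 2) := by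
      have hsq : (T / 34) ^ 2 ≤ p1 s (T * l0 ^ 2) x ^ 2 := by
        rw [← sq_abs (p1 s (T * l0 ^ 2) x)]
        exact pow_le_pow_left₀ hpos.le (hlow x hx) 2
      have hx2 : l0 ^ 2 / x ^ 2 ≤ 4 / 81 := by
        rw [div_le_iff₀ (by positivity)]
        have : (9 * l0 / 2) ^ 2 ≤ x ^ 2 := pow_le_pow_left₀ hα.le hx.1 2
        nlinarith
      calc |AA l0 a x| * |p2 (T * l0 ^ 2) x| / p1 s (T * l0 ^ 2) x ^ 2 ≤
          (Ca / x * (5 / 2 * (T * l0 ^ 2) / x ^ 3)) / (T / 34) ^ 2 :=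
            div_le_div₀ (by positivity) (mul_le_mul (h.AA_le l0 hx0) (p2_le hPf hn hx0 hx1)
              (abs_nonneg _) (by positivity)) (by positivity) hsq
        _ = 2890 * Ca / T * (1 / x ^ 2) * (l0 ^ 2 / x ^ 2) := by
            field_simp
            ring
        _ ≤ 2890 * Ca / T * (1 / x ^ 2) * (4 / 81) :=
            mul_le_mul_of_nonneg_left hx2 (by positivity)
        _ = 11560 / 81 * Ca / T * (1 / x ^ 2) := by ring
        _ ≤ 143 * Ca / T * (1 / x ^ 2) := by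
            refine mul_le_mul_of_nonneg_right (div_le_div_of_nonneg_right ?_ hT.le)
              (by positivity)
            linarith
    calc _ ≤ 34 * (Ca * (1 + 5 * D)) / T * (1 / x ^ 2) + 143 * Ca / T * (1 / x ^ 2) :=
          add_le_add b1 b2
      _ = _ := by ring
  have hci : IntervalIntegrable (fun x : ℝ => 1 / x ^ 2) volume (9 * l0 / 2) b := by
    refine ContinuousOn.intervalIntegrable ?_
    rw [uIcc_of_le hb]
    exact continuousOn_const.div (continuousOn_id.pow 2) fun x hx =>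
      pow_ne_zero 2 (hα.trans_le hx.1).ne'
  calc _ ≤ ∫ x in (9 * l0 / 2)..b, (34 * (Ca * (1 + 5 * D)) + 143 * Ca) / T * (1 / x ^ 2) :=
        intervalIntegral.integral_mono_on hb (h.intb hPf hα hb h0) (hci.const_mul _) hb'
    _ = (34 * (Ca * (1 + 5 * D)) + 143 * Ca) / T * ∫ x in (9 * l0 / 2)..b, 1 / x ^ 2 :=
        intervalIntegral.integral_const_mul _ _
    _ ≤ (34 * (Ca * (1 + 5 * D)) + 143 * Ca) / T * (1 / (9 * l0 / 2)) :=
        mul_le_mul_of_nonneg_left (int_inv_sq hα hb) (by positivity)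
    _ = (286 / 9 * Ca + 68 / 9 * (Ca * (1 + 5 * D))) / (T * l0) := by
        field_simp
        ring
    _ ≤ (32 * Ca + 8 * (Ca * (1 + 5 * D))) / (T * l0) := by
        refine div_le_div_of_nonneg_right ?_ (by positivity)
        have : 0 ≤ Ca * (1 + 5 * D) := by positivity
        linarith

end

/-! ### assembly -/

lemma normint {g : ℝ → ℂ} {b M : ℝ} (hb : 0 < b) (hM : ∀ l, 0 < l → l ≤ b → ‖g l‖ ≤ M)
    (h0 : ∀ l, b < l → g l = 0) : ‖∫ l in Ioi (0 : ℝ), g l‖ ≤ M * b := by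
  have h1 : ∫ l in Ioi (0 : ℝ), g l = ∫ l in Ioc (0 : ℝ) b, g l := by
    refine setIntegral_eq_of_subset_of_forall_sdiff_eq_zero measurableSet_Ioi Ioc_subset_Ioi_self
      fun l hl => h0 l ?_
    by_contra hc
    push Not at hc
    exact hl.2 ⟨hl.1, hc⟩
  rw [h1]
  refine (norm_setIntegral_le_of_norm_le_const (by simp) fun l hl => hM l hl.1 hl.2).trans
    (le_of_eq ?_)
  rw [Real.volume_real_Ioc_of_le hb.le, sub_zero]

lemma exp_neg_le {x y : ℝ} (hy : 0 < y) (hx : y ≤ x) : Real.exp (-x) ≤ 1 / y := by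
  have h1 : y ≤ Real.exp y := by linarith [Real.add_one_le_exp y]
  calc Real.exp (-x) ≤ Real.exp (-y) := Real.exp_le_exp.2 (by linarith)
    _ = 1 / Real.exp y := by rw [Real.exp_neg, one_div]
    _ ≤ 1 / y := div_le_div_of_nonneg_left zero_le_one hy h1

/-- the bound for the amplitude near `0` -/
lemma a_bdd (hPf : StPf) {Θ : ℝ → ℝ} {M : ℝ} (hM0 : 0 ≤ M) (hM : ∀ x, |Θ x| ≤ M) {K G l : ℝ}
    {k : ℕ} (hk : 1 ≤ k) (hK : 0 < K) (hl : 0 < l) (hl2 : l ≤ 1 / 2) :
    |Real.exp (-(k * cth l / K)) * Θ (G * l) / (2 * Real.sinh (l / 2))| ≤ K * M := by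
  obtain ⟨-, -, -, -, h1, -, h2⟩ := (hPf l hl).2.2.2 hl2
  have hsh : 0 < Real.sinh (l / 2) := Real.sinh_pos_iff.2 (by linarith)
  have hk1 : (1 : ℝ) ≤ k := by exact_mod_cast hk
  have hx : 2 / (l * K) ≤ k * cth l / K := by
    have h3 : 2 / l ≤ k * cth l := by
      have : 0 < 2 / l := by positivity
      nlinarith
    calc 2 / (l * K) = 2 / l / K := by rw [div_div]
      _ ≤ k * cth l / K := div_le_div_of_nonneg_right h3 hK.le
  have he := exp_neg_le (by positivity : (0 : ℝ) < 2 / (l * K)) hx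
  have he' : Real.exp (-(k * cth l / K)) ≤ l * K := by
    refine he.trans ?_
    rw [one_div, inv_div]
    have : 0 < l * K := by positivity
    linarith
  rw [mul_div_assoc, abs_mul, abs_div, abs_of_pos (Real.exp_pos _),
    abs_of_pos (by positivity : (0 : ℝ) < 2 * Real.sinh (l / 2)),
    div_eq_mul_one_div |Θ (G * l)|]
  calc Real.exp (-(k * cth l / K)) * (|Θ (G * l)| * (1 / (2 * Real.sinh (l / 2))))
      ≤ l * K * (M * (1 / l)) := by
        refine mul_le_mul he' (mul_le_mul (hM _) h2 (by positivity) hM0) (by positivity)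
          (by positivity)
    _ = K * M := by field_simp

/-- the bound for the error of `E` on the support of `χ` -/
lemma e_bdd (hPf : StPf) {Θ : ℝ → ℝ} {M : ℝ} (hM0 : 0 ≤ M) (hM : ∀ x, |Θ x| ≤ M)
    (hsupp : ∀ x, 1 ≤ |x| → Θ x = 0) {K G l l0 : ℝ}
    {k : ℕ} (hK : 0 < K) (hG : 2 ≤ G) (hl0 : 0 < l0) (hl : 0 < l) :
    |ch (l / l0) * (Real.exp (-(k * cth l / K)) - 1) * (Θ (G * l) / (2 * Real.sinh (l / 2)))| ≤
      34 * M * k / (l0 ^ 2 * K) := by
  have hr : 0 ≤ 34 * M * k / (l0 ^ 2 * K) := by positivity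
  by_cases c1 : l / l0 ≤ 1 / 4
  · rw [ch_zero (Or.inl c1), zero_mul, zero_mul, abs_zero]
    exact hr
  by_cases c2 : 1 / G ≤ l
  · rw [hsupp (G * l) ?_, zero_div, mul_zero, abs_zero]
    · exact hr
    · have : 1 ≤ G * l := by
        rw [div_le_iff₀ (by linarith)] at c2
        linarith
      exact this.trans (le_abs_self _)
  push Not at c1 c2
  have hl2 : l ≤ 1 / 2 := by
    refine c2.le.trans ?_
    exact div_le_div_of_nonneg_left zero_le_one (by norm_num) hG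
  obtain ⟨-, -, -, -, h1, h3, h2⟩ := (hPf l hl).2.2.2 hl2
  have hsh : 0 < Real.sinh (l / 2) := Real.sinh_pos_iff.2 (by linarith)
  have hl4 : 1 / l ≤ 4 / l0 := by
    rw [div_le_div_iff₀ hl hl0]
    rw [lt_div_iff₀ hl0] at c1
    linarith
  have hcth0 : 0 ≤ cth l := le_trans (by positivity) h1
  have hx0 : 0 ≤ k * cth l / K := by positivity
  have hx1 : k * cth l / K ≤ 8.4 * k / (l0 * K) := by
    have h4 : cth l ≤ 8.4 / l0 := by
      refine h3.trans ?_
      calc 2.1 / l = 2.1 * (1 / l) := by ring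
        _ ≤ 2.1 * (4 / l0) := mul_le_mul_of_nonneg_left hl4 (by norm_num)
        _ = 8.4 / l0 := by ring
    calc k * cth l / K ≤ k * (8.4 / l0) / K :=
          div_le_div_of_nonneg_right (mul_le_mul_of_nonneg_left h4 (Nat.cast_nonneg k)) hK.le
      _ = 8.4 * k / (l0 * K) := by
          field_simp
  have hE : |Real.exp (-(k * cth l / K)) - 1| ≤ 8.4 * k / (l0 * K) := by
    rw [abs_le]
    constructor
    · have := Real.add_one_le_exp (-(k * cth l / K))
      linarith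
    · have : Real.exp (-(k * cth l / K)) ≤ 1 := by
        rw [Real.exp_le_one_iff]
        linarith
      have h5 : 0 ≤ 8.4 * k / (l0 * K) := hx0.trans hx1
      linarith
  have hB : |Θ (G * l) / (2 * Real.sinh (l / 2))| ≤ M * (4 / l0) := by
    rw [abs_div, abs_of_pos (by positivity : (0 : ℝ) < 2 * Real.sinh (l / 2)),
      div_eq_mul_one_div]
    exact mul_le_mul (hM _) (h2.trans hl4) (by positivity) hM0
  rw [abs_mul, abs_mul]
  calc |ch (l / l0)| * |Real.exp (-(k * cth l / K)) - 1| * |Θ (G * l) / (2 * Real.sinh (l / 2))|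
      ≤ 1 * (8.4 * k / (l0 * K)) * (M * (4 / l0)) := by
        refine mul_le_mul (mul_le_mul ?_ hE (abs_nonneg _) zero_le_one) hB (abs_nonneg _)
          (by positivity)
        rw [abs_of_nonneg (ch_nonneg _)]
        exact ch_le _
    _ = 33.6 * M * k / (l0 ^ 2 * K) := by
        field_simp
        ring
    _ ≤ 34 * M * k / (l0 ^ 2 * K) := by
        refine div_le_div_of_nonneg_right ?_ (by positivity)
        have : 0 ≤ M * k := by positivity
        nlinarith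

end Dn_aux

open Dn_aux in
/-- Item Dn. -/
theorem iDn (hAa : StAa) (hPf : StPf) (hIP : StIP) : StDn := by
  intro φ Θ hΦ C' hC'
  obtain ⟨Ca, hCa, hAa'⟩ := hAa φ Θ hΦ
  obtain ⟨D, hD0, hD⟩ := ch_deriv_bdd
  obtain ⟨M, hM0, hM⟩ := theta_bdd hΦ
  have hCa0 : 0 ≤ Ca := by linarith
  have hC20 : 0 ≤ Ca * (1 + 5 * D) := by positivity
  refine ⟨2 + 9 * C' + (35 * Ca + 9 * (Ca * (1 + 5 * D))) + 170 * M, by linarith, ?_⟩
  intro T G s k h hCT hCG hG2 hs hk hh hn
  have hT : 0 < T := by linarith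
  have hT1 : 1 ≤ T := by linarith
  have hG : 2 ≤ G := by linarith
  have hG0 : 0 < G := by linarith
  have hG9 : 9 * C' ≤ G := by linarith
  have hk1 : (1 : ℝ) ≤ k := by exact_mod_cast hk
  have hh1 : (1 : ℝ) ≤ h := by exact_mod_cast hh
  have hkh : 0 < (k : ℝ) * h := by positivity
  set l0 : ℝ := Real.sqrt ((k : ℝ) * h / T) with hl0d
  have hl0 : 0 < l0 := Real.sqrt_pos.2 (by positivity)
  have hl0sq : l0 ^ 2 = (k : ℝ) * h / T := Real.sq_sqrt (by positivity)
  have hn2 : T * l0 ^ 2 = (k : ℝ) * h := by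
    rw [hl0sq]
    field_simp
  have hsq : Real.sqrt ((k : ℝ) * h * T) = T * l0 := by
    rw [← hn2]
    have : T * l0 ^ 2 * T = (T * l0) ^ 2 := by ring
    rw [this, Real.sqrt_sq (by positivity)]
  have hl09 : l0 ≤ 1 / 9 := by
    have h1 : l0 ^ 2 ≤ (1 / 9) ^ 2 := by
      rw [hl0sq, div_le_iff₀ hT]
      refine hn.trans ?_
      rw [div_le_iff₀ (by positivity)]
      have h2 : (9 * C') ^ 2 ≤ G ^ 2 := pow_le_pow_left₀ (by positivity) hG9 2
      have h3 : 81 * C' ≤ G ^ 2 := by nlinarith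
      nlinarith
    exact (pow_le_pow_iff_left₀ hl0.le (by norm_num) (by norm_num)).1 h1
  have hK : 0 < T ^ 2 := by positivity
  have hK1 : 1 ≤ T ^ 2 := one_le_pow₀ hT1
  obtain ⟨hs1, hs2⟩ := hs
  obtain ⟨a1, a2, hc2, ha⟩ := hAa' (T ^ 2) G k hK1 hG hk
  set a : ℝ → ℝ := fun l => Real.exp (-(k * cth l / T ^ 2)) * Θ (G * l) / (2 * Real.sinh (l / 2))
    with had
  have hAmp : Amp a a1 G Ca := by
    refine ⟨fun l hl => (ha l hl).1, fun l hl => (ha l hl).2.1.continuousAt.continuousWithinAt,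
      fun l hl => (ha l hl).2.2.1, fun l hl => (ha l hl).2.2.2.1, fun l hl => ?_⟩
    have hl0' : 0 < l := lt_of_lt_of_le (by positivity) hl
    rw [had]
    simp only
    rw [((ha l hl0').2.2.2.2.2 hl).1, mul_zero, zero_div]
  set b : ℝ := max (9 * l0 / 2) (1 / G) with hbd
  have hbG : 1 / G ≤ b := le_max_right _ _
  have hbl : 9 * l0 / 2 ≤ b := le_max_left _ _
  have hG12 : 1 / G ≤ 1 / 2 := div_le_div_of_nonneg_left zero_le_one (by norm_num) hG
  have hb12 : b ≤ 1 / 2 := max_le (by linarith) hG12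
  have hb0 : 0 < b := lt_of_lt_of_le (by positivity) hbG
  set n : ℝ := T * l0 ^ 2 with hnd
  set F0 : ℝ → ℂ := fun l => (a l : ℂ) * ee (ph s n l) with hF0
  set F1 : ℝ → ℂ := fun l => ((ch (l / l0) * (Real.exp (-(k * cth l / T ^ 2)) - 1) *
    (Θ (G * l) / (2 * Real.sinh (l / 2))) : ℝ) : ℂ) * ee (ph s n l) with hF1
  set F2 : ℝ → ℂ := fun l => (AA l0 a l : ℂ) * ee (ph s n l) with hF2
  set F3 : ℝ → ℂ := fun l => ((ch (l / l0) * Θ (G * l) / (2 * Real.sinh (l / 2)) : ℝ) : ℂ) *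
    ee (ph s n l) with hF3
  have hII : II Θ (T ^ 2) G s k (h : ℤ) = ∫ l in Ioi (0 : ℝ), F0 l := by
    unfold II
    refine integral_congr_ae (Eventually.of_forall fun l => ?_)
    simp only [hF0, had, ph, hn2]
    push_cast
    rfl
  have hJJ : JJ Θ T G (k * h) s = ∫ l in Ioi (0 : ℝ), F3 l := by
    unfold JJ
    refine integral_congr_ae (Eventually.of_forall fun l => ?_)
    simp only [hF3, ph, hn2, hl0d]
    push_cast
    rfl
  have hcch : Continuous fun l : ℝ => ch (l / l0) := ch_smooth.continuous.comp (by fun_prop)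
  have hcee : ContinuousOn (fun l => ee (ph s n l)) (Ioi 0) :=
    cont_ee.comp_continuousOn (ph_cont hPf s n)
  have hcof : ∀ g : ℝ → ℝ, ContinuousOn g (Ioi 0) →
      ContinuousOn (fun l => ((g l : ℝ) : ℂ)) (Ioi 0) := fun g hg =>
    Complex.continuous_ofReal.comp_continuousOn hg
  have hcth : ContinuousOn cth (Ioi 0) := fun l hl =>
    (hPf l hl).1.continuousAt.continuousWithinAt
  have hcΘ : Continuous fun l : ℝ => Θ (G * l) :=
    hΦ.smooth.continuous.comp (by fun_prop)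
  have hcsh : ContinuousOn (fun l : ℝ => 2 * Real.sinh (l / 2)) (Ioi 0) := by fun_prop
  have hshne : ∀ l ∈ Ioi (0 : ℝ), 2 * Real.sinh (l / 2) ≠ 0 := fun l hl => by
    have hl' : (0 : ℝ) < l := hl
    have : 0 < Real.sinh (l / 2) := Real.sinh_pos_iff.2 (by linarith)
    positivity
  have hcB : ContinuousOn (fun l : ℝ => Θ (G * l) / (2 * Real.sinh (l / 2))) (Ioi 0) :=
    hcΘ.continuousOn.div hcsh hshne
  have hcE : ContinuousOn (fun l : ℝ => Real.exp (-(k * cth l / T ^ 2))) (Ioi 0) :=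
    Real.continuous_exp.comp_continuousOn (((continuousOn_const.mul hcth).div_const _).neg)
  have hzero : ∀ l, b < l → a l = 0 := fun l hl => hAmp.z l (hbG.trans hl.le)
  have hΘzero : ∀ l, b < l → Θ (G * l) = 0 := fun l hl => by
    refine hΦ.supp _ ?_
    have h1 : 1 / G ≤ l := hbG.trans hl.le
    rw [div_le_iff₀ hG0] at h1
    have h2 : 1 ≤ G * l := by linarith
    exact h2.trans (le_abs_self _)
  have hab : ∀ l, 0 < l → l ≤ b → |a l| ≤ T ^ 2 * M := fun l hl hlb =>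
    a_bdd hPf hM0 hM hk hK hl (hlb.trans hb12)
  have i0 : IntegrableOn F0 (Ioi 0) := by
    refine intg (M := T ^ 2 * M) hb0 ((hcof _ hAmp.cont).mul hcee) (fun l hl hlb => ?_)
      fun l hl => ?_
    · rw [hF0]
      simp only
      rw [norm_mul, norm_ee, mul_one, Complex.norm_real]
      exact hab l hl hlb
    · rw [hF0]
      simp only
      rw [hzero l hl]
      simp
  have i2 : IntegrableOn F2 (Ioi 0) := by
    refine intg (M := T ^ 2 * M) hb0 ((hcof _ (hAmp.cont_AA l0)).mul hcee) (fun l hl hlb => ?_)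
      fun l hl => ?_
    · rw [hF2]
      simp only
      rw [norm_mul, norm_ee, mul_one, Complex.norm_real, Real.norm_eq_abs]
      unfold AA
      rw [abs_mul]
      have h1 : |1 - ch (l / l0)| ≤ 1 := by
        rw [abs_le]
        constructor <;> linarith [ch_nonneg (l / l0), ch_le (l / l0)]
      calc |1 - ch (l / l0)| * |a l| ≤ 1 * (T ^ 2 * M) :=
            mul_le_mul h1 (hab l hl hlb) (abs_nonneg _) zero_le_one
        _ = T ^ 2 * M := one_mul _
    · rw [hF2]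
      simp only
      unfold AA
      rw [hzero l hl]
      simp
  have hF1b : ∀ l, 0 < l → ‖F1 l‖ ≤ 34 * M * k / (l0 ^ 2 * T ^ 2) := by
    intro l hl
    rw [hF1]
    simp only
    rw [norm_mul, norm_ee, mul_one, Complex.norm_real]
    exact e_bdd hPf hM0 hM hΦ.supp hK hG hl0 hl
  have hF1z : ∀ l, 5 * l0 < l → F1 l = 0 := by
    intro l hl
    rw [hF1]
    simp only
    have : 19 / 4 ≤ l / l0 := by
      rw [le_div_iff₀ hl0]
      linarith
    rw [ch_zero (Or.inr this)]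
    simp
  have i1 : IntegrableOn F1 (Ioi 0) := by
    refine intg (M := 34 * M * k / (l0 ^ 2 * T ^ 2)) (by positivity : 0 < 5 * l0)
      ((hcof _ ((hcch.continuousOn.mul (hcE.sub continuousOn_const)).mul hcB)).mul hcee)
      (fun l hl _ => hF1b l hl) hF1z
  have i3 : IntegrableOn F3 (Ioi 0) := by
    refine intg (M := M * (4 / l0)) hb0 ((hcof _ ((hcch.mul hcΘ).continuousOn.div hcsh
      hshne)).mul hcee) (fun l hl hlb => ?_) fun l hl => ?_
    · rw [hF3]
      simp only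
      rw [norm_mul, norm_ee, mul_one, Complex.norm_real, Real.norm_eq_abs]
      by_cases c1 : l / l0 ≤ 1 / 4
      · rw [ch_zero (Or.inl c1), zero_mul, zero_div, abs_zero]
        positivity
      · push Not at c1
        have h2 := ((hPf l hl).2.2.2 (hlb.trans hb12)).2.2.2.2.2.2
        have hsh : 0 < Real.sinh (l / 2) := Real.sinh_pos_iff.2 (by linarith)
        have hl4 : 1 / l ≤ 4 / l0 := by
          rw [div_le_div_iff₀ hl hl0]
          rw [lt_div_iff₀ hl0] at c1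
          linarith
        rw [abs_div, abs_mul, abs_of_pos (by positivity : (0 : ℝ) < 2 * Real.sinh (l / 2)),
          div_eq_mul_one_div, abs_of_nonneg (ch_nonneg _)]
        calc ch (l / l0) * |Θ (G * l)| * (1 / (2 * Real.sinh (l / 2))) ≤ 1 * M * (4 / l0) := by
              refine mul_le_mul (mul_le_mul (ch_le _) (hM _) (abs_nonneg _) zero_le_one)
                (h2.trans hl4) (by positivity) (by positivity)
          _ = M * (4 / l0) := by rw [one_mul]
    · rw [hF3]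
      simp only
      rw [hΘzero l hl]
      simp
  have hdec : II Θ (T ^ 2) G s k (h : ℤ) - JJ Θ T G (k * h) s =
      (∫ l in Ioi (0 : ℝ), F1 l) + ∫ l in Ioi (0 : ℝ), F2 l := by
    rw [hII, hJJ, ← integral_sub i0 i3, ← integral_add i1 i2]
    refine integral_congr_ae (Eventually.of_forall fun l => ?_)
    simp only [hF0, hF1, hF2, hF3, AA, had]
    push_cast
    ring
  -- the first part
  have hI1 : ‖∫ l in Ioi (0 : ℝ), F1 l‖ ≤ 170 * M * (T * l0) / T ^ 2 := by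
    refine (normint (by positivity : 0 < 5 * l0) (fun l hl _ => hF1b l hl) hF1z).trans ?_
    have e1 : 34 * M * k / (l0 ^ 2 * T ^ 2) * (5 * l0) = 170 * M * (k / l0) / T ^ 2 := by
      field_simp
      ring
    rw [e1]
    refine div_le_div_of_nonneg_right (mul_le_mul_of_nonneg_left ?_ (by positivity)) hK.le
    rw [div_le_iff₀ hl0]
    calc (k : ℝ) ≤ k * h := le_mul_of_one_le_right (by positivity) hh1
      _ = T * l0 * l0 := by rw [← hn2]; ring
  -- the second part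
  have hI2 : ‖∫ l in Ioi (0 : ℝ), F2 l‖ ≤
      (1 + 35 * Ca + 9 * (Ca * (1 + 5 * D))) / (T * l0) := by
    set η : ℝ := min (l0 / 2) (1 / (T * l0 * (T ^ 2 * M + 1))) with hη
    have hη0 : 0 < η := lt_min (by positivity) (by positivity)
    have hη1 : η ≤ l0 / 2 := min_le_left _ _
    have hη2 : η ≤ 1 / (T * l0 * (T ^ 2 * M + 1)) := min_le_right _ _
    have sub : ∀ c, 0 ≤ c → IntegrableOn F2 (Ioi c) := fun c hc =>
      i2.mono_set (Ioi_subset_Ioi hc)
    have s1 := intervalIntegral.integral_interval_add_Ioi (sub 0 le_rfl) (sub η hη0.le)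
    have s2 := intervalIntegral.integral_interval_add_Ioi (sub η hη0.le)
      (sub (l0 / 2) (by positivity))
    have s3 := intervalIntegral.integral_interval_add_Ioi (sub (l0 / 2) (by positivity))
      (sub (9 * l0 / 2) (by positivity))
    have s4 := intervalIntegral.integral_interval_add_Ioi (sub (9 * l0 / 2) (by positivity))
      (sub b hb0.le)
    have z5 : ∫ l in Ioi b, F2 l = 0 := by
      refine setIntegral_eq_zero_of_forall_eq_zero fun l hl => ?_
      rw [hF2]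
      simp only
      unfold AA
      rw [hzero l hl]
      simp
    have z3 : ∫ l in (l0 / 2)..(9 * l0 / 2), F2 l = 0 := by
      have : ∫ l in (l0 / 2)..(9 * l0 / 2), F2 l = ∫ l in (l0 / 2)..(9 * l0 / 2), (0 : ℂ) := by
        refine intervalIntegral.integral_congr fun l hl => ?_
        rw [uIcc_of_le (by linarith)] at hl
        rw [hF2]
        simp only
        unfold AA
        have h1 : 1 / 2 ≤ l / l0 := by
          rw [le_div_iff₀ hl0]
          linarith [hl.1]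
        have h2 : l / l0 ≤ 9 / 2 := by
          rw [div_le_iff₀ hl0]
          linarith [hl.2]
        rw [ch_one h1 h2]
        simp
      rw [this, intervalIntegral.integral_zero]
    have b1 : ‖∫ l in (0 : ℝ)..η, F2 l‖ ≤ 1 / (T * l0) := by
      have h1 : ‖∫ l in (0 : ℝ)..η, F2 l‖ ≤ (T ^ 2 * M) * |η - 0| := by
        refine intervalIntegral.norm_integral_le_of_norm_le_const fun l hl => ?_
        rw [uIoc_of_le hη0.le] at hl
        rw [hF2]
        simp only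
        rw [norm_mul, norm_ee, mul_one, Complex.norm_real, Real.norm_eq_abs]
        unfold AA
        rw [abs_mul]
        have h1 : |1 - ch (l / l0)| ≤ 1 := by
          rw [abs_le]
          constructor <;> linarith [ch_nonneg (l / l0), ch_le (l / l0)]
        have hlb : l ≤ b := by linarith [hl.2]
        calc |1 - ch (l / l0)| * |a l| ≤ 1 * (T ^ 2 * M) :=
              mul_le_mul h1 (hab l hl.1 hlb) (abs_nonneg _) zero_le_one
          _ = T ^ 2 * M := one_mul _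
      refine h1.trans ?_
      rw [sub_zero, abs_of_pos hη0]
      calc T ^ 2 * M * η ≤ (T ^ 2 * M + 1) * (1 / (T * l0 * (T ^ 2 * M + 1))) :=
            mul_le_mul (by linarith) hη2 hη0.le (by positivity)
        _ = 1 / (T * l0) := by
            have : T ^ 2 * M + 1 ≠ 0 := by positivity
            field_simp
    have b2 := hAmp.near hPf hIP hD0 hD hT hs2 hl0 (by linarith) hη0 hη1
    have b4 := hAmp.far hPf hIP hD0 hD hT hs1 hl0 hbl hb12 (by
      unfold AA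
      rw [hAmp.z b hbG, mul_zero])
    have etot : ∫ l in Ioi (0 : ℝ), F2 l = (∫ l in (0 : ℝ)..η, F2 l) +
        (∫ l in η..(l0 / 2), F2 l) + ∫ l in (9 * l0 / 2)..b, F2 l := by
      rw [← s1, ← s2, ← s3, ← s4, z5, z3]
      ring
    rw [etot]
    calc _ ≤ ‖∫ l in (0 : ℝ)..η, F2 l‖ + ‖∫ l in η..(l0 / 2), F2 l‖ +
          ‖∫ l in (9 * l0 / 2)..b, F2 l‖ := norm_add₃_le
      _ ≤ 1 / (T * l0) + (3 * Ca + Ca * (1 + 5 * D)) / (T * l0) +
          (32 * Ca + 8 * (Ca * (1 + 5 * D))) / (T * l0) := add_le_add (add_le_add b1 b2) b4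
      _ = (1 + 35 * Ca + 9 * (Ca * (1 + 5 * D))) / (T * l0) := by ring
  rw [hdec, hsq]
  refine (norm_add_le _ _).trans ((add_le_add hI1 hI2).trans ?_)
  have hTl : 0 < T * l0 := by positivity
  have e1 : 170 * M * (T * l0) / T ^ 2 ≤ (2 + 9 * C' + (35 * Ca + 9 * (Ca * (1 + 5 * D))) +
      170 * M) * (T * l0 / T ^ 2) := by
    rw [mul_div_assoc]
    exact mul_le_mul_of_nonneg_right (by linarith) (by positivity)
  have e2 : (1 + 35 * Ca + 9 * (Ca * (1 + 5 * D))) / (T * l0) ≤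
      (2 + 9 * C' + (35 * Ca + 9 * (Ca * (1 + 5 * D))) + 170 * M) * (1 / (T * l0)) := by
    rw [div_eq_mul_one_div]
    exact mul_le_mul_of_nonneg_right (by linarith) (by positivity)
  exact (add_le_add e1 e2).trans_eq (by ring)

end Pool.Agent.Work.MP_56b8f5_nt.UB
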