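import Pool.Agent.Work.MP_56b8f5_nt.UB.Osc

open MeasureTheory Set Filter Topology Complex FourierTransform

noncomputable section

namespace Pool.Agent.Work.MP_56b8f5_nt.UB.Osc

theorem fourier_e (g : ℝ → ℂ) (w : ℝ) : 𝓕 g w = ∫ x : ℝ, g x * e (-(w * x)) := by
  rw [Real.fourier_real_eq_integral_exp_smul]
  refine integral_congr_ae (Eventually.of_forall fun x => ?_)
  simp only [smul_eq_mul, e]
  rw [mul_comm]
  congr 2
  push_cast
  ring

theorem int_dom {g : ℝ → ℂ} {C : ℝ} (hg : Continuous g) (h : ∀ x, ‖g x‖ ≤ C / (1 + x ^ 2)) :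
    Integrable g := by
  refine Integrable.mono' (g := fun x => C * (1 + x ^ 2)⁻¹)
    (integrable_inv_one_add_sq.const_mul C) hg.aestronglyMeasurable
    (Eventually.of_forall fun x => ?_)
  simpa [div_eq_mul_inv] using h x

/-- Poisson summation for `C²` functions with decay. -/
theorem poisson {g g1 g2 : ℝ → ℂ} (h1 : ∀ x, HasDerivAt g (g1 x) x)
    (h2 : ∀ x, HasDerivAt g1 (g2 x) x) (hc : Continuous g2) {C : ℝ}
    (b0 : ∀ x, ‖g x‖ ≤ C / (1 + x ^ 2)) (b1 : ∀ x, ‖g1 x‖ ≤ C / (1 + x ^ 2))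
    (b2 : ∀ x, ‖g2 x‖ ≤ C / (1 + x ^ 2)) :
    (Summable fun n : ℤ => g n) ∧
    (Summable fun m : ℤ => ‖∫ x : ℝ, g x * e (-(m * x))‖) ∧
    ∑' n : ℤ, g n = ∑' m : ℤ, ∫ x : ℝ, g x * e (-(m * x)) := by
  have c1 : Continuous g1 := continuous_iff_continuousAt.2 fun x => (h2 x).continuousAt
  have c0 : Continuous g := continuous_iff_continuousAt.2 fun x => (h1 x).continuousAt
  have i0 := int_dom c0 b0
  have i1 := int_dom c1 b1
  have i2 := int_dom hc b2
  have C0 : 0 ≤ C := by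
    have := (norm_nonneg _).trans (b0 0)
    simpa using this
  have d1 : deriv g = g1 := funext fun x => (h1 x).deriv
  have d2 : deriv g1 = g2 := funext fun x => (h2 x).deriv
  have F1 : 𝓕 g1 = fun x : ℝ => (2 * Real.pi * Complex.I * x) • 𝓕 g x := by
    rw [← d1]
    exact Real.fourier_deriv i0 (fun x => (h1 x).differentiableAt) (by rw [d1]; exact i1)
  have F2 : 𝓕 g2 = fun x : ℝ => (2 * Real.pi * Complex.I * x) • 𝓕 g1 x := by
    rw [← d2]
    exact Real.fourier_deriv i1 (fun x => (h2 x).differentiableAt) (by rw [d2]; exact i2)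
  set J : ℝ := ∫ x, ‖g2 x‖ with hJ
  have J0 : 0 ≤ J := integral_nonneg fun x => norm_nonneg _
  have bF : ∀ w : ℝ, ‖𝓕 g2 w‖ ≤ J := by
    intro w
    rw [fourier_e]
    refine (norm_integral_le_integral_norm _).trans (le_of_eq ?_)
    refine integral_congr_ae (Eventually.of_forall fun x => ?_)
    simp [norm_e]
  have dec : ∀ w : ℝ, w ^ 2 * ‖𝓕 g w‖ ≤ J := by
    intro w
    have h3 := bF w
    rw [F2] at h3
    simp only [F1, smul_eq_mul, norm_mul, Complex.norm_I, Complex.norm_real, Real.norm_eq_abs,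
      abs_of_pos Real.pi_pos, Complex.norm_ofNat, mul_one] at h3
    have h4 : (2 * Real.pi * |w|) * ((2 * Real.pi * |w|) * ‖𝓕 g w‖) =
        (2 * Real.pi) ^ 2 * (w ^ 2 * ‖𝓕 g w‖) := by
      rw [← sq_abs w]; ring
    rw [h4] at h3
    have h5 : (1 : ℝ) ≤ (2 * Real.pi) ^ 2 := by nlinarith [Real.pi_gt_three]
    have h6 : 0 ≤ w ^ 2 * ‖𝓕 g w‖ := by positivity
    nlinarith
  have og : g =O[cocompact ℝ] (fun x => |x| ^ (-(2 : ℝ))) := by
    refine Asymptotics.IsBigO.of_bound C ?_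
    have : ∀ᶠ x : ℝ in cocompact ℝ, x ≠ 0 :=
      (isCompact_singleton (x := (0 : ℝ))).compl_mem_cocompact
    filter_upwards [this] with x hx
    have hx2 : 0 < x ^ 2 := by positivity
    rw [Real.norm_eq_abs, abs_of_nonneg (Real.rpow_nonneg (abs_nonneg x) _),
      Real.rpow_neg (abs_nonneg x), Real.rpow_two, sq_abs, ← div_eq_mul_inv]
    exact (b0 x).trans (div_le_div_of_nonneg_left C0 hx2 (by linarith))
  have oF : (𝓕 g) =O[cocompact ℝ] (fun x => |x| ^ (-(2 : ℝ))) := by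
    refine Asymptotics.IsBigO.of_bound J ?_
    have : ∀ᶠ x : ℝ in cocompact ℝ, x ≠ 0 :=
      (isCompact_singleton (x := (0 : ℝ))).compl_mem_cocompact
    filter_upwards [this] with x hx
    have hx2 : 0 < x ^ 2 := by positivity
    rw [Real.norm_eq_abs, abs_of_nonneg (Real.rpow_nonneg (abs_nonneg x) _),
      Real.rpow_neg (abs_nonneg x), Real.rpow_two, sq_abs, ← div_eq_mul_inv, le_div_iff₀ hx2,
      mul_comm]
    exact dec x
  have P := Real.tsum_eq_tsum_fourier_of_rpow_decay c0 one_lt_two og oF 0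
  have sI : Summable fun n : ℤ => |(n : ℝ)| ^ (-(2 : ℝ)) := Real.summable_abs_int_rpow one_lt_two
  have s1 : Summable fun n : ℤ => g n :=
    summable_of_isBigO sI (og.comp_tendsto Int.tendsto_coe_cofinite)
  have s2 : Summable fun m : ℤ => ‖𝓕 g m‖ :=
    summable_of_isBigO sI ((oF.norm_left).comp_tendsto Int.tendsto_coe_cofinite)
  refine ⟨s1, ?_, ?_⟩
  · simpa only [fourier_e] using s2
  · simp only [zero_add] at P
    rw [P]
    refine tsum_congr fun m => ?_
    rw [fourier_e]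
    simp

end Pool.Agent.Work.MP_56b8f5_nt.UB.Osc
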