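import Pool.Agent.Work.MP_56b8f5_nt.UB.Stmts
import Pool.Agent.Work.MP_56b8f5_nt.UB.Poi

set_option autoImplicit false

open MeasureTheory Set Filter Topology

noncomputable section

namespace Pool.Agent.Work.MP_56b8f5_nt.UB

namespace Dp_aux

theorem ee_eq (x : ℝ) : ee x = Osc.e x := by
  unfold ee Osc.e
  congr 1
  push_cast
  ring

theorem norm_ee (x : ℝ) : ‖ee x‖ = 1 := by rw [ee_eq, Osc.norm_e]

theorem ee_smooth : ContDiff ℝ 2 ee := by
  unfold ee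
  have h : ContDiff ℝ 2 fun x : ℝ => ((2 * Real.pi * x : ℝ) : ℂ) :=
    Complex.ofRealCLM.contDiff.comp (contDiff_const.mul contDiff_id)
  exact (h.mul contDiff_const).cexp

/-- the amplitude as a function of `u = 1/y` -/
def B (Θ : ℝ → ℝ) (K G s k u : ℝ) : ℂ :=
  ((Real.exp (-(k / K)) * Θ (G * Real.log (1 + k * u)) * u / Real.sqrt (1 + k * u) : ℝ) : ℂ) *
    ee (s * Real.log (1 + k * u))

/-- the domain where `B` is smooth -/
def U (k : ℝ) : Set ℝ := {u | 0 < 1 + k * u}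

theorem isOpen_U (k : ℝ) : IsOpen (U k) :=
  isOpen_lt continuous_const (by fun_prop)

theorem smooth_B {Θ : ℝ → ℝ} (hΘ : ContDiff ℝ 2 Θ) (K G s k : ℝ) :
    ContDiffOn ℝ 2 (B Θ K G s k) (U k) := by
  have h1 : ContDiffOn ℝ 2 (fun u : ℝ => 1 + k * u) (U k) :=
    (contDiff_const.add (contDiff_const.mul contDiff_id)).contDiffOn
  have h2 : ContDiffOn ℝ 2 (fun u : ℝ => Real.log (1 + k * u)) (U k) :=
    h1.log fun u hu => (show 0 < 1 + k * u from hu).ne'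
  have h3 : ContDiffOn ℝ 2 (fun u : ℝ => Real.sqrt (1 + k * u)) (U k) :=
    h1.sqrt fun u hu => (show 0 < 1 + k * u from hu).ne'
  have h4 : ContDiffOn ℝ 2 (fun u : ℝ => Θ (G * Real.log (1 + k * u))) (U k) :=
    hΘ.comp_contDiffOn (contDiffOn_const.mul h2)
  have h5 : ContDiffOn ℝ 2 (fun u : ℝ => ee (s * Real.log (1 + k * u))) (U k) :=
    ee_smooth.comp_contDiffOn (contDiffOn_const.mul h2)
  have h6 : ContDiffOn ℝ 2 (fun u : ℝ => Real.exp (-(k / K)) * Θ (G * Real.log (1 + k * u)) * u /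
      Real.sqrt (1 + k * u)) (U k) :=
    ((contDiffOn_const.mul h4).mul contDiffOn_id).div h3
      fun u hu => (Real.sqrt_pos.2 (show 0 < 1 + k * u from hu)).ne'
  exact (Complex.ofRealCLM.contDiff.comp_contDiffOn h6).mul h5

theorem log_ge {G k u : ℝ} (hG : 2 ≤ G) (hk : 0 < k) (hu : 2 / (k * G) < u) :
    1 ≤ G * Real.log (1 + k * u) := by
  have hG0 : 0 < G := by linarith
  have h1 : 2 / G < k * u := by
    have : 2 / (k * G) * k < u * k := by nlinarith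
    have e : 2 / (k * G) * k = 2 / G := by field_simp
    rw [e] at this
    linarith
  have h2 : 0 < 1 + k * u := by
    have : 0 < 2 / G := by positivity
    linarith
  have h3 := Real.one_sub_inv_le_log_of_pos h2
  have h4 : 2 < k * u * G := by
    rw [div_lt_iff₀ hG0] at h1
    linarith
  have h5 : 1 ≤ G * (1 - (1 + k * u)⁻¹) := by
    have e : G * (1 - (1 + k * u)⁻¹) = G * (k * u) / (1 + k * u) := by
      field_simp
      ring
    rw [e, le_div_iff₀ h2]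
    have h6 : 0 < k * u := by nlinarith
    nlinarith
  nlinarith

variable {Θ : ℝ → ℝ} {K G s k : ℝ}

theorem B_zero (hsupp : ∀ x, 1 ≤ |x| → Θ x = 0) (hG : 2 ≤ G) (hk : 0 < k) {u : ℝ}
    (hu : 2 / (k * G) < u) : B Θ K G s k u = 0 := by
  have h := log_ge hG hk hu
  have h1 : Θ (G * Real.log (1 + k * u)) = 0 := hsupp _ (h.trans (le_abs_self _))
  simp [B, h1]

theorem B1_zero (hsupp : ∀ x, 1 ≤ |x| → Θ x = 0) (hG : 2 ≤ G) (hk : 0 < k) {u : ℝ}
    (hu : 2 / (k * G) < u) : deriv (B Θ K G s k) u = 0 := by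
  have h : B Θ K G s k =ᶠ[𝓝 u] fun _ => 0 := by
    filter_upwards [Ioi_mem_nhds hu] with v hv
    exact B_zero hsupp hG hk hv
  rw [h.deriv_eq]
  simp

theorem B2_zero (hsupp : ∀ x, 1 ≤ |x| → Θ x = 0) (hG : 2 ≤ G) (hk : 0 < k) {u : ℝ}
    (hu : 2 / (k * G) < u) : deriv (deriv (B Θ K G s k)) u = 0 := by
  have h : deriv (B Θ K G s k) =ᶠ[𝓝 u] fun _ => 0 := by
    filter_upwards [Ioi_mem_nhds hu] with v hv
    exact B1_zero hsupp hG hk hv
  rw [h.deriv_eq]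
  simp

theorem mem_U (hk : 0 < k) {u : ℝ} (hu : 0 ≤ u) : u ∈ U k := by
  show 0 < 1 + k * u
  have := mul_nonneg hk.le hu
  linarith

theorem smooth_B1 (hΘ : ContDiff ℝ 2 Θ) : ContDiffOn ℝ 1 (deriv (B Θ K G s k)) (U k) :=
  (smooth_B hΘ K G s k).deriv_of_isOpen (isOpen_U k) (by norm_num)

theorem smooth_B2 (hΘ : ContDiff ℝ 2 Θ) : ContinuousOn (deriv (deriv (B Θ K G s k))) (U k) :=
  ((smooth_B1 hΘ).deriv_of_isOpen (m := 0) (isOpen_U k) (by norm_num)).continuousOn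

theorem d_B (hΘ : ContDiff ℝ 2 Θ) (hk : 0 < k) {u : ℝ} (hu : 0 ≤ u) :
    HasDerivAt (B Θ K G s k) (deriv (B Θ K G s k) u) u :=
  (((smooth_B hΘ K G s k).differentiableOn (by norm_num)).differentiableAt
    ((isOpen_U k).mem_nhds (mem_U hk hu))).hasDerivAt

theorem d_B1 (hΘ : ContDiff ℝ 2 Θ) (hk : 0 < k) {u : ℝ} (hu : 0 ≤ u) :
    HasDerivAt (deriv (B Θ K G s k)) (deriv (deriv (B Θ K G s k)) u) u :=
  (((smooth_B1 hΘ).differentiableOn (by norm_num)).differentiableAt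
    ((isOpen_U k).mem_nhds (mem_U hk hu))).hasDerivAt

theorem bd (hΘ : ContDiff ℝ 2 Θ) (hsupp : ∀ x, 1 ≤ |x| → Θ x = 0) (hG : 2 ≤ G) (hk : 0 < k) :
    ∃ M : ℝ, 0 ≤ M ∧ ∀ u : ℝ, 0 ≤ u → ‖B Θ K G s k u‖ ≤ M ∧ ‖deriv (B Θ K G s k) u‖ ≤ M ∧
      ‖deriv (deriv (B Θ K G s k)) u‖ ≤ M := by
  have hc : IsCompact (Icc (0 : ℝ) (2 / (k * G))) := isCompact_Icc
  have hs : Icc (0 : ℝ) (2 / (k * G)) ⊆ U k := fun u hu => mem_U hk hu.1
  obtain ⟨M0, h0⟩ := hc.exists_bound_of_continuousOn ((smooth_B hΘ K G s k).continuousOn.mono hs)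
  obtain ⟨M1, h1⟩ := hc.exists_bound_of_continuousOn
    ((smooth_B1 (K := K) (G := G) (s := s) (k := k) hΘ).continuousOn.mono hs)
  obtain ⟨M2, h2⟩ := hc.exists_bound_of_continuousOn
    ((smooth_B2 (K := K) (G := G) (s := s) (k := k) hΘ).mono hs)
  refine ⟨|M0| + |M1| + |M2|, by positivity, fun u hu => ?_⟩
  have p0 := abs_nonneg M0
  have p1 := abs_nonneg M1
  have p2 := abs_nonneg M2
  rcases le_or_gt u (2 / (k * G)) with h | h
  · have q0 := (h0 u ⟨hu, h⟩).trans (le_abs_self _)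
    have q1 := (h1 u ⟨hu, h⟩).trans (le_abs_self _)
    have q2 := (h2 u ⟨hu, h⟩).trans (le_abs_self _)
    exact ⟨by linarith, by linarith, by linarith⟩
  · rw [B_zero hsupp hG hk h, B1_zero hsupp hG hk h, B2_zero hsupp hG hk h, norm_zero]
    exact ⟨by positivity, by positivity, by positivity⟩

theorem inv_comp {F : ℝ → ℂ} {F' : ℂ} {y : ℝ} (hy : 0 < y) (h : HasDerivAt F F' y⁻¹) :
    HasDerivAt (fun y : ℝ => F y⁻¹) (-((y : ℂ)⁻¹ ^ 2 * F')) y := by
  have h1 := h.scomp y (hasDerivAt_inv hy.ne')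
  have e : -((y : ℂ)⁻¹ ^ 2 * F') = (-(y ^ 2)⁻¹) • F' := by
    rw [Complex.real_smul]
    push_cast
    ring
  rw [e]
  exact h1

/-- the function, its first and its second derivative for `y > 0` -/
def g0 (Θ : ℝ → ℝ) (K G s k y : ℝ) : ℂ := (Real.exp (-(2 / K * y)) : ℂ) * B Θ K G s k y⁻¹

/-- first derivative -/
def g1 (Θ : ℝ → ℝ) (K G s k y : ℝ) : ℂ := (Real.exp (-(2 / K * y)) : ℂ) *
  (-((2 / K : ℝ) : ℂ) * B Θ K G s k y⁻¹ - (y : ℂ)⁻¹ ^ 2 * deriv (B Θ K G s k) y⁻¹)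

/-- second derivative -/
def g2 (Θ : ℝ → ℝ) (K G s k y : ℝ) : ℂ := (Real.exp (-(2 / K * y)) : ℂ) *
  (((2 / K : ℝ) : ℂ) ^ 2 * B Θ K G s k y⁻¹ +
    2 * ((2 / K : ℝ) : ℂ) * ((y : ℂ)⁻¹ ^ 2 * deriv (B Θ K G s k) y⁻¹) +
    (y : ℂ)⁻¹ ^ 4 * deriv (deriv (B Θ K G s k)) y⁻¹ +
    2 * ((y : ℂ)⁻¹ ^ 3 * deriv (B Θ K G s k) y⁻¹))

theorem d_E (y : ℝ) : HasDerivAt (fun y : ℝ => (Real.exp (-(2 / K * y)) : ℂ))
    (-((2 / K : ℝ) : ℂ) * (Real.exp (-(2 / K * y)) : ℂ)) y := by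
  have h : HasDerivAt (fun y : ℝ => Real.exp (-(2 / K * y)))
      (Real.exp (-(2 / K * y)) * (-(2 / K * 1))) y :=
    (((hasDerivAt_id y).const_mul (2 / K)).neg).exp
  convert h.ofReal_comp using 1
  push_cast
  ring

theorem d_g0 (hΘ : ContDiff ℝ 2 Θ) (hk : 0 < k) {y : ℝ} (hy : 0 < y) :
    HasDerivAt (g0 Θ K G s k) (g1 Θ K G s k y) y := by
  have h1 := inv_comp hy (d_B (K := K) (G := G) (s := s) hΘ hk (inv_nonneg.2 hy.le))
  have h2 := (d_E (K := K) y).mul h1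
  unfold g0 g1
  refine h2.congr_deriv ?_
  ring

theorem d_inv {y : ℝ} (hy : 0 < y) : HasDerivAt (fun y : ℝ => (y : ℂ)⁻¹) (-((y : ℂ)⁻¹ ^ 2)) y := by
  have h := (hasDerivAt_inv hy.ne').ofReal_comp
  simp only [Complex.ofReal_inv, Complex.ofReal_neg, Complex.ofReal_pow] at h
  convert h using 1
  ring

theorem d_g1 (hΘ : ContDiff ℝ 2 Θ) (hk : 0 < k) {y : ℝ} (hy : 0 < y) :
    HasDerivAt (g1 Θ K G s k) (g2 Θ K G s k y) y := by
  have h1 := inv_comp hy (d_B (K := K) (G := G) (s := s) hΘ hk (inv_nonneg.2 hy.le))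
  have h2 := inv_comp hy (d_B1 (K := K) (G := G) (s := s) hΘ hk (inv_nonneg.2 hy.le))
  have h3 := ((d_inv hy).pow 2).mul h2
  have h4 := (h1.const_mul (-((2 / K : ℝ) : ℂ))).sub h3
  have h5 := (d_E (K := K) y).mul h4
  unfold g1 g2
  refine h5.congr_deriv ?_
  simp only [Pi.pow_apply, Pi.sub_apply, Pi.mul_apply]
  push_cast
  ring

theorem cont_g2 (hΘ : ContDiff ℝ 2 Θ) (hk : 0 < k) {y : ℝ} (hy : 0 < y) :
    ContinuousAt (g2 Θ K G s k) y := by
  have c0 : ContinuousAt (fun y : ℝ => (y : ℂ)⁻¹) y := (d_inv hy).continuousAt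
  have c1 : ContinuousAt (fun y : ℝ => B Θ K G s k y⁻¹) y :=
    (inv_comp hy (d_B hΘ hk (inv_nonneg.2 hy.le))).continuousAt
  have c2 : ContinuousAt (fun y : ℝ => deriv (B Θ K G s k) y⁻¹) y :=
    (inv_comp hy (d_B1 hΘ hk (inv_nonneg.2 hy.le))).continuousAt
  have c3 : ContinuousAt (fun y : ℝ => deriv (deriv (B Θ K G s k)) y⁻¹) y := by
    have h := (smooth_B2 (K := K) (G := G) (s := s) (k := k) hΘ).continuousAt
      ((isOpen_U k).mem_nhds (mem_U hk (inv_nonneg.2 hy.le)))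
    exact ContinuousAt.comp (f := fun y : ℝ => y⁻¹) h (continuousAt_inv₀ hy.ne')
  have c4 : ContinuousAt (fun y : ℝ => (Real.exp (-(2 / K * y)) : ℂ)) y :=
    (d_E (K := K) y).continuousAt
  unfold g2
  exact c4.mul ((((continuousAt_const.mul c1).add (continuousAt_const.mul ((c0.pow 2).mul c2))).add
    ((c0.pow 4).mul c3)).add (continuousAt_const.mul ((c0.pow 3).mul c2)))

/-- extension by zero -/
def ext (g : ℝ → ℂ) (y : ℝ) : ℂ := if 0 < y then g y else 0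

theorem exp_dec {y : ℝ} (hK : 1 ≤ K) (hy : 0 ≤ y) :
    Real.exp (-(2 / K * y)) ≤ K ^ 2 / (1 + y ^ 2) := by
  have hK0 : 0 < K := by linarith
  have h1 : 1 + (2 / K * y) + (2 / K * y) ^ 2 / 2 ≤ Real.exp (2 / K * y) :=
    Real.quadratic_le_exp_of_nonneg (by positivity)
  rw [Real.exp_neg, inv_eq_one_div, div_le_div_iff₀ (Real.exp_pos _) (by positivity), one_mul]
  have h2 : K ^ 2 * (1 + (2 / K * y) + (2 / K * y) ^ 2 / 2) ≤ K ^ 2 * Real.exp (2 / K * y) :=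
    mul_le_mul_of_nonneg_left h1 (by positivity)
  have e : K ^ 2 * (1 + (2 / K * y) + (2 / K * y) ^ 2 / 2) = K ^ 2 + 2 * K * y + 2 * y ^ 2 := by
    field_simp
  rw [e] at h2
  nlinarith [mul_nonneg hK0.le hy]

theorem low_zero (hsupp : ∀ x, 1 ≤ |x| → Θ x = 0) (hG : 2 ≤ G) (hk : 0 < k) {y : ℝ}
    (hy : y < k * G / 2) : ext (g0 Θ K G s k) y = 0 ∧ ext (g1 Θ K G s k) y = 0 ∧
    ext (g2 Θ K G s k) y = 0 := by
  unfold ext
  by_cases h : 0 < y
  · have hu : 2 / (k * G) < y⁻¹ := by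
      have hG0 : 0 < G := by linarith
      rw [div_lt_iff₀ (by positivity), inv_mul_eq_div, lt_div_iff₀ h]
      linarith
    simp only [if_pos h, g0, g1, g2, B_zero hsupp hG hk hu, B1_zero hsupp hG hk hu,
      B2_zero hsupp hG hk hu]
    simp
  · simp [if_neg h]

theorem ff_eq (Θ : ℝ → ℝ) (K G s : ℝ) (k : ℕ) (hK : 1 ≤ K) (y : ℝ) :
    ff Θ K G s k y = ext (g0 Θ K G s k) y := by
  unfold ff ext g0 B
  by_cases h : 0 < y
  · rw [if_pos h, if_pos h]
    have hK0 : 0 < K := by linarith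
    have hk0 : (0 : ℝ) ≤ k := Nat.cast_nonneg k
    have e1 : (k : ℝ) / y = k * y⁻¹ := by rw [div_eq_mul_inv]
    rw [e1, ← mul_assoc, ← Complex.ofReal_mul]
    congr 2
    have e2 : Real.sqrt (y * (y + k)) = y * Real.sqrt (1 + k * y⁻¹) := by
      have e3 : y * (y + k) = y ^ 2 * (1 + k * y⁻¹) := by
        field_simp
      rw [e3, Real.sqrt_mul (by positivity), Real.sqrt_sq h.le]
    have e4 : Real.exp (-((2 * y + k) / K)) = Real.exp (-(2 / K * y)) * Real.exp (-(k / K)) := by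
      rw [← Real.exp_add]
      congr 1
      ring
    have h5 : 0 < Real.sqrt (1 + k * y⁻¹) := Real.sqrt_pos.2 (by positivity)
    rw [e2, e4]
    field_simp
  · rw [if_neg h, if_neg h]

end Dp_aux

open Dp_aux in
/-- ITEM Dp: Poisson summation for `f_k`. -/
theorem iDp : StDp := by
  intro φ Θ hφ K G s k hK hG hk
  have hk0 : (0 : ℝ) < k := by exact_mod_cast hk
  have hk1 : (1 : ℝ) ≤ k := by exact_mod_cast hk
  have hK0 : 0 < K := by linarith
  have hΘ : ContDiff ℝ 2 Θ := by exact_mod_cast contDiff_infty.1 hφ.smooth 2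
  have hc : 1 ≤ (k : ℝ) * G / 2 := by nlinarith
  obtain ⟨M, hM0, hM⟩ := bd (K := K) (s := s) hΘ hφ.supp hG hk0
  have hz : ∀ y : ℝ, y < k * G / 2 → ext (g0 Θ K G s k) y = 0 ∧ ext (g1 Θ K G s k) y = 0 ∧
    ext (g2 Θ K G s k) y = 0 := fun y hy => low_zero hφ.supp hG hk0 hy
  have hev : ∀ y : ℝ, 0 < y → ∀ g : ℝ → ℂ, g =ᶠ[𝓝 y] ext g := by
    intro y hy g
    filter_upwards [Ioi_mem_nhds hy] with z hz
    exact (if_pos hz).symm
  have D1 : ∀ y, HasDerivAt (ext (g0 Θ K G s k)) (ext (g1 Θ K G s k) y) y := by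
    intro y
    rcases lt_or_ge y (k * G / 2) with h | h
    · rw [(hz y h).2.1]
      have e : ext (g0 Θ K G s k) =ᶠ[𝓝 y] fun _ => 0 := by
        filter_upwards [Iio_mem_nhds h] with z hz'
        exact (hz z hz').1
      exact (hasDerivAt_const y (0 : ℂ)).congr_of_eventuallyEq e
    · have hy : 0 < y := by linarith
      have e1 : ext (g1 Θ K G s k) y = g1 Θ K G s k y := if_pos hy
      rw [e1]
      exact (d_g0 hΘ hk0 hy).congr_of_eventuallyEq (hev y hy _).symm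
  have D2 : ∀ y, HasDerivAt (ext (g1 Θ K G s k)) (ext (g2 Θ K G s k) y) y := by
    intro y
    rcases lt_or_ge y (k * G / 2) with h | h
    · rw [(hz y h).2.2]
      have e : ext (g1 Θ K G s k) =ᶠ[𝓝 y] fun _ => 0 := by
        filter_upwards [Iio_mem_nhds h] with z hz'
        exact (hz z hz').2.1
      exact (hasDerivAt_const y (0 : ℂ)).congr_of_eventuallyEq e
    · have hy : 0 < y := by linarith
      have e1 : ext (g2 Θ K G s k) y = g2 Θ K G s k y := if_pos hy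
      rw [e1]
      exact (d_g1 hΘ hk0 hy).congr_of_eventuallyEq (hev y hy _).symm
  have C2 : Continuous (ext (g2 Θ K G s k)) := by
    rw [continuous_iff_continuousAt]
    intro y
    rcases lt_or_ge y (k * G / 2) with h | h
    · have e : ext (g2 Θ K G s k) =ᶠ[𝓝 y] fun _ => 0 := by
        filter_upwards [Iio_mem_nhds h] with z hz'
        exact (hz z hz').2.2
      exact (continuousAt_const (y := (0 : ℂ))).congr e.symm
    · have hy : 0 < y := by linarith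
      exact (cont_g2 hΘ hk0 hy).congr (hev y hy _)
  -- decay
  have hdec : ∀ (g : ℝ → ℂ), (∀ y : ℝ, y < k * G / 2 → ext g y = 0) →
      (∀ y : ℝ, k * G / 2 ≤ y → ‖g y‖ ≤ Real.exp (-(2 / K * y)) * (11 * M)) →
      ∀ y, ‖ext g y‖ ≤ (K ^ 2 * (11 * M)) / (1 + y ^ 2) := by
    intro g hg0 hg1 y
    rcases lt_or_ge y (k * G / 2) with h | h
    · rw [hg0 y h, norm_zero]
      positivity
    · have hy : 0 < y := by linarith
      have e1 : ext g y = g y := if_pos hy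
      rw [e1]
      refine (hg1 y h).trans ?_
      have := mul_le_mul_of_nonneg_right (exp_dec hK hy.le) (show 0 ≤ 11 * M by positivity)
      refine this.trans (le_of_eq ?_)
      ring
  have hfac : ∀ y : ℝ, k * G / 2 ≤ y → 0 < y ∧ ‖((y : ℂ)⁻¹)‖ ≤ 1 ∧ ‖B Θ K G s k y⁻¹‖ ≤ M ∧
      ‖deriv (B Θ K G s k) y⁻¹‖ ≤ M ∧ ‖deriv (deriv (B Θ K G s k)) y⁻¹‖ ≤ M := by
    intro y h
    have hy : 0 < y := by linarith
    have hy1 : 1 ≤ y := by linarith
    obtain ⟨b0, b1, b2⟩ := hM y⁻¹ (inv_nonneg.2 hy.le)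
    refine ⟨hy, ?_, b0, b1, b2⟩
    rw [norm_inv, Complex.norm_real, Real.norm_eq_abs, abs_of_pos hy]
    exact inv_le_one_of_one_le₀ hy1
  have hK2 : ‖((2 / K : ℝ) : ℂ)‖ ≤ 2 := by
    rw [Complex.norm_real, Real.norm_eq_abs, abs_of_pos (by positivity), div_le_iff₀ hK0]
    linarith
  have hE : ∀ y : ℝ, ‖((Real.exp (-(2 / K * y)) : ℝ) : ℂ)‖ = Real.exp (-(2 / K * y)) := by
    intro y
    rw [Complex.norm_real, Real.norm_eq_abs, abs_of_pos (Real.exp_pos _)]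
  have b0 := hdec (g0 Θ K G s k) (fun y hy => (hz y hy).1) (by
    intro y hy
    obtain ⟨h0, h1, h2, h3, h4⟩ := hfac y hy
    unfold g0
    rw [norm_mul, hE]
    refine mul_le_mul_of_nonneg_left ?_ (Real.exp_pos _).le
    linarith)
  have b1 := hdec (g1 Θ K G s k) (fun y hy => (hz y hy).2.1) (by
    intro y hy
    obtain ⟨h0, h1, h2, h3, h4⟩ := hfac y hy
    unfold g1
    rw [norm_mul, hE]
    refine mul_le_mul_of_nonneg_left ?_ (Real.exp_pos _).le
    refine (norm_sub_le _ _).trans ?_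
    have q1 : ‖-((2 / K : ℝ) : ℂ) * B Θ K G s k y⁻¹‖ ≤ 2 * M := by
      rw [norm_mul, norm_neg]
      exact mul_le_mul hK2 h2 (norm_nonneg _) (by norm_num)
    have q2 : ‖(y : ℂ)⁻¹ ^ 2 * deriv (B Θ K G s k) y⁻¹‖ ≤ 1 * M := by
      rw [norm_mul, norm_pow]
      exact mul_le_mul (pow_le_one₀ (norm_nonneg _) h1) h3 (norm_nonneg _) (by norm_num)
    linarith)
  have b2 := hdec (g2 Θ K G s k) (fun y hy => (hz y hy).2.2) (by
    intro y hy
    obtain ⟨h0, h1, h2, h3, h4⟩ := hfac y hy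
    unfold g2
    rw [norm_mul, hE]
    refine mul_le_mul_of_nonneg_left ?_ (Real.exp_pos _).le
    have q1 : ‖((2 / K : ℝ) : ℂ) ^ 2 * B Θ K G s k y⁻¹‖ ≤ 2 ^ 2 * M := by
      rw [norm_mul, norm_pow]
      exact mul_le_mul (pow_le_pow_left₀ (norm_nonneg _) hK2 2) h2 (norm_nonneg _) (by norm_num)
    have q2 : ‖2 * ((2 / K : ℝ) : ℂ) * ((y : ℂ)⁻¹ ^ 2 * deriv (B Θ K G s k) y⁻¹)‖ ≤
        2 * 2 * (1 * M) := by
      rw [norm_mul, norm_mul, norm_mul, norm_pow, Complex.norm_ofNat]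
      refine mul_le_mul (mul_le_mul_of_nonneg_left hK2 (by norm_num)) ?_ (by positivity)
        (by norm_num)
      exact mul_le_mul (pow_le_one₀ (norm_nonneg _) h1) h3 (norm_nonneg _) (by norm_num)
    have q3 : ‖(y : ℂ)⁻¹ ^ 4 * deriv (deriv (B Θ K G s k)) y⁻¹‖ ≤ 1 * M := by
      rw [norm_mul, norm_pow]
      exact mul_le_mul (pow_le_one₀ (norm_nonneg _) h1) h4 (norm_nonneg _) (by norm_num)
    have q4 : ‖2 * ((y : ℂ)⁻¹ ^ 3 * deriv (B Θ K G s k) y⁻¹)‖ ≤ 2 * (1 * M) := by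
      rw [norm_mul, norm_mul, norm_pow, Complex.norm_ofNat]
      refine mul_le_mul_of_nonneg_left ?_ (by norm_num)
      exact mul_le_mul (pow_le_one₀ (norm_nonneg _) h1) h3 (norm_nonneg _) (by norm_num)
    have t := norm_add₃_le (a := ((2 / K : ℝ) : ℂ) ^ 2 * B Θ K G s k y⁻¹)
      (b := 2 * ((2 / K : ℝ) : ℂ) * ((y : ℂ)⁻¹ ^ 2 * deriv (B Θ K G s k) y⁻¹))
      (c := (y : ℂ)⁻¹ ^ 4 * deriv (deriv (B Θ K G s k)) y⁻¹)
    refine (norm_add_le _ _).trans ?_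
    linarith)
  obtain ⟨s1, s2, s3⟩ := Osc.poisson D1 D2 C2 b0 b1 b2
  have hff : ff Θ K G s k = ext (g0 Θ K G s k) := funext fun y => ff_eq Θ K G s k hK y
  have hint : ∀ h : ℤ, (∫ y : ℝ, ff Θ K G s k y * ee (h * y)) =
      ∫ x : ℝ, ext (g0 Θ K G s k) x * Osc.e (-(((-h : ℤ) : ℝ) * x)) := by
    intro h
    rw [hff]
    refine integral_congr_ae (Eventually.of_forall fun y => ?_)
    simp only [ee_eq]
    congr 2
    push_cast
    ring
  refine ⟨?_, ?_⟩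
  · have := (Equiv.neg ℤ).summable_iff.2 s2
    refine this.congr fun h => ?_
    simp only [Function.comp_apply, Equiv.neg_apply]
    rw [hint h]
  · have e1 : ∑' h : ℤ, (∫ y : ℝ, ff Θ K G s k y * ee (h * y)) =
        ∑' m : ℤ, ∫ x : ℝ, ext (g0 Θ K G s k) x * Osc.e (-(m * x)) := by
      rw [← (Equiv.neg ℤ).tsum_eq (fun m : ℤ => ∫ x : ℝ, ext (g0 Θ K G s k) x * Osc.e (-(m * x)))]
      refine tsum_congr fun h => ?_
      rw [hint h]
      rfl
    rw [e1, ← s3, hff]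
    have hinj : Function.Injective (fun b : ℕ => ((b : ℤ) + 1)) := by
      intro a b h
      have : (a : ℤ) + 1 = b + 1 := h
      omega
    have hsup : Function.support (fun n : ℤ => ext (g0 Θ K G s k) n) ⊆
        Set.range (fun b : ℕ => ((b : ℤ) + 1)) := by
      intro n hn
      have hn' : ext (g0 Θ K G s k) n ≠ 0 := hn
      have hpos : (0 : ℝ) < n := by
        by_contra h
        exact hn' (if_neg h)
      have hpos' : 0 < n := by exact_mod_cast hpos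
      exact ⟨(n - 1).toNat, by
        show (((n - 1).toNat : ℤ) + 1) = n
        omega⟩
    rw [← hinj.tsum_eq hsup]
    refine tsum_congr fun b => ?_
    push_cast
    rfl

end Pool.Agent.Work.MP_56b8f5_nt.UB
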