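import Pool.Agent.Work.MP_56b8f5_nt.UB.Stmts

/-!
MP_56b8f5_nt, block UB, item Ds: substitution `y = k/(e^l - 1)`.
-/

open MeasureTheory Set Filter Topology

noncomputable section

namespace Pool.Agent.Work.MP_56b8f5_nt.UB

namespace Ds_aux

lemma ee_add (x y : ℝ) : ee (x + y) = ee x * ee y := by
  unfold ee
  rw [← Complex.exp_add]
  congr 1
  push_cast
  ring

lemma ee_neg_half (n : ℤ) : ee (-((n : ℝ) / 2)) = (-1 : ℂ) ^ n := by
  unfold ee
  have h : (((2 * Real.pi * (-((n : ℝ) / 2)) : ℝ) : ℂ) * Complex.I) =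
      (-n : ℤ) * (Real.pi * Complex.I) := by
    push_cast
    ring
  rw [h, Complex.exp_int_mul, Complex.exp_pi_mul_I, zpow_neg]
  rcases Int.even_or_odd n with he | ho
  · rw [he.neg_one_zpow]; simp
  · rw [ho.neg_one_zpow]; norm_num

/-- the substitution -/
def f (k : ℝ) (l : ℝ) : ℝ := k / (Real.exp l - 1)

def f' (k : ℝ) (l : ℝ) : ℝ := -(k * Real.exp l / (Real.exp l - 1) ^ 2)

lemma e1 {l : ℝ} (hl : 0 < l) : 0 < Real.exp l - 1 := by
  have := Real.one_lt_exp_iff.mpr hl
  linarith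

lemma hasDeriv (k : ℝ) {l : ℝ} (hl : 0 < l) : HasDerivAt (f k) (f' k l) l := by
  have h1 : HasDerivAt (fun l => Real.exp l - 1) (Real.exp l) l := (Real.hasDerivAt_exp l).sub_const 1
  have h2 := (hasDerivAt_const l k).div h1 (e1 hl).ne'
  exact h2.congr_deriv (by unfold f'; ring)

lemma inj {k : ℝ} (hk : 0 < k) : InjOn (f k) (Ioi 0) := by
  intro a ha b hb hab
  have ha' := e1 (mem_Ioi.mp ha)
  have hb' := e1 (mem_Ioi.mp hb)
  unfold f at hab
  rw [div_eq_div_iff ha'.ne' hb'.ne'] at hab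
  have h3 : Real.exp b - 1 = Real.exp a - 1 := mul_left_cancel₀ hk.ne' hab
  exact Real.exp_injective (by linarith)

lemma image {k : ℝ} (hk : 0 < k) : f k '' Ioi 0 = Ioi 0 := by
  ext y
  constructor
  · rintro ⟨l, hl, rfl⟩
    exact div_pos hk (e1 (mem_Ioi.mp hl))
  · intro hy
    have hy' : 0 < y := hy
    refine ⟨Real.log (1 + k / y), Real.log_pos (by have := div_pos hk hy'; linarith), ?_⟩
    have : 0 < 1 + k / y := by positivity
    unfold f
    rw [Real.exp_log this]
    field_simp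
    simp [hk.ne']

lemma sinh_ne {l : ℝ} (hl : 0 < l) : 0 < Real.sinh (l / 2) := Real.sinh_pos_iff.mpr (by linarith)

lemma exp_half (l : ℝ) : Real.exp l = Real.exp (l / 2) ^ 2 := by
  rw [← Real.exp_nat_mul]; congr 1; push_cast; ring

lemma cth_eq {l : ℝ} (hl : 0 < l) : cth l = 1 + 2 / (Real.exp l - 1) := by
  have h1 := e1 hl
  have h2 := sinh_ne hl
  unfold cth
  have hx : 0 < Real.exp (l / 2) := Real.exp_pos _
  rw [exp_half l] at h1 ⊢
  rw [div_eq_iff h2.ne', Real.cosh_eq, Real.sinh_eq, Real.exp_neg]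
  field_simp
  ring

lemma amp {k l : ℝ} (hk : 0 < k) (hl : 0 < l) :
    |f' k l| * (1 / Real.sqrt (f k l * (f k l + k))) = 1 / (2 * Real.sinh (l / 2)) := by
  have h1 := e1 hl
  have h2 := sinh_ne hl
  have hx : 0 < Real.exp (l / 2) := Real.exp_pos _
  have hs : Real.sqrt (f k l * (f k l + k)) = k * Real.exp (l / 2) / (Real.exp l - 1) := by
    rw [Real.sqrt_eq_iff_mul_self_eq_of_pos (by positivity)]
    unfold f
    rw [exp_half l] at h1 ⊢
    field_simp
    ring
  have habs : |f' k l| = k * Real.exp l / (Real.exp l - 1) ^ 2 := by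
    unfold f'
    rw [abs_neg, abs_of_pos (by positivity)]
  rw [hs, habs, Real.sinh_eq, Real.exp_neg]
  rw [Real.sinh_eq, Real.exp_neg] at h2
  rw [exp_half l] at h1 ⊢
  have h3 : Real.exp (l / 2) ^ 2 - 1 ≠ 0 := h1.ne'
  have h4 : 2 * ((Real.exp (l / 2) - (Real.exp (l / 2))⁻¹) / 2) ≠ 0 := by positivity
  rw [eq_div_iff h4]
  field_simp
  try ring

lemma pointwise (Θ : ℝ → ℝ) (K G s : ℝ) (k : ℕ) (h : ℤ) (hk : 1 ≤ k) {l : ℝ} (hl : 0 < l) :
    |f' k l| • (ff Θ K G s k (f k l) * ee (h * f k l)) =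
    (-1 : ℂ) ^ ((k : ℤ) * h) *
      (((Real.exp (-(k * cth l / K)) * Θ (G * l) / (2 * Real.sinh (l / 2)) : ℝ) : ℂ) *
        ee (s * l + k * h / 2 * cth l)) := by
  have hk' : (0 : ℝ) < k := by exact_mod_cast hk
  have h1 := e1 hl
  have hf : 0 < f k l := div_pos hk' h1
  have hlog : Real.log (1 + k / f k l) = l := by
    have : 1 + (k : ℝ) / f k l = Real.exp l := by
      unfold f
      field_simp
      ring
    rw [this, Real.log_exp]
  have h2y : 2 * f k l + k = k * cth l := by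
    rw [cth_eq hl]
    unfold f
    field_simp
    ring
  have hph : ee (h * f k l) = ee (k * h / 2 * cth l) * (-1 : ℂ) ^ ((k : ℤ) * h) := by
    rw [← ee_neg_half, ← ee_add]
    congr 1
    rw [cth_eq hl]
    unfold f
    push_cast
    field_simp
    ring
  unfold ff
  rw [if_pos hf, hlog, h2y, hph, ee_add (s * l)]
  have hamp := amp hk' hl
  have hampC : ((|f' k l| : ℝ) : ℂ) *
      ((Real.exp (-(k * cth l / K)) * Θ (G * l) / Real.sqrt (f k l * (f k l + k)) : ℝ) : ℂ) =
      ((Real.exp (-(k * cth l / K)) * Θ (G * l) / (2 * Real.sinh (l / 2)) : ℝ) : ℂ) := by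
    rw [← Complex.ofReal_mul]
    congr 1
    have : |f' k l| * (Real.exp (-(k * cth l / K)) * Θ (G * l) / Real.sqrt (f k l * (f k l + k))) =
        (Real.exp (-(k * cth l / K)) * Θ (G * l)) *
          (|f' k l| * (1 / Real.sqrt (f k l * (f k l + k)))) := by ring
    rw [this, hamp]
    ring
  rw [← hampC, Complex.real_smul]
  ring

end Ds_aux

open Ds_aux in
theorem iDs : StDs := by
  intro φ Θ _ K G s k h _ _ hk
  have hk' : (0 : ℝ) < k := by exact_mod_cast hk
  have h0 : ∫ y : ℝ, ff Θ K G s k y * ee (h * y) = ∫ y in Ioi (0 : ℝ), ff Θ K G s k y * ee (h * y) := by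
    symm
    apply setIntegral_eq_integral_of_forall_compl_eq_zero
    intro y hy
    have : ¬ 0 < y := hy
    unfold ff
    rw [if_neg this, zero_mul]
  rw [h0, ← image hk', integral_image_eq_integral_abs_deriv_smul measurableSet_Ioi
    (fun l hl => (hasDeriv k (mem_Ioi.mp hl)).hasDerivWithinAt) (inj hk')]
  unfold II
  rw [← integral_const_mul]
  apply setIntegral_congr_fun measurableSet_Ioi
  intro l hl
  exact pointwise Θ K G s k h hk (mem_Ioi.mp hl)

end Pool.Agent.Work.MP_56b8f5_nt.UB
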