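import Pool.Agent.Work.MP_56b8f5_nt.UB.Stmts

/-!
MP_56b8f5_nt, block UB, item E1: the four-fold integral is bounded by the energy.  Author: helper92.
-/

open MeasureTheory Set Filter Topology

noncomputable section

namespace Pool.Agent.Work.MP_56b8f5_nt.UB

namespace E1_aux

variable {w h : ℝ → ENNReal}

/-- correlation -/
def rr (w : ℝ → ENNReal) (a : ℝ) : ENNReal := ∫⁻ x, w x * w (x + a)

/-- shifted energy -/
def gg (w : ℝ → ENNReal) (u : ℝ) : ENNReal :=
  ∫⁻ x1, w x1 * ∫⁻ x2, w x2 * ∫⁻ x3, w x3 * w (x1 + x2 - x3 - u)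

theorem two_mul_le (a b : ENNReal) : 2 * (a * b) ≤ a ^ 2 + b ^ 2 := by
  rcases eq_or_ne a ⊤ with rfl | ha
  · simp
  rcases eq_or_ne b ⊤ with rfl | hb
  · simp
  lift a to NNReal using ha
  lift b to NNReal using hb
  norm_cast
  have := two_mul_le_add_sq a b
  calc 2 * (a * b) = 2 * a * b := by ring
    _ ≤ a ^ 2 + b ^ 2 := this

theorem swap (f : ℝ → ℝ → ENNReal) (hf : Measurable (Function.uncurry f)) :
    ∫⁻ x, ∫⁻ y, f x y = ∫⁻ y, ∫⁻ x, f x y :=
  lintegral_lintegral_swap hf.aemeasurable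

theorem gg_eq (hw : Measurable w) (u : ℝ) : gg w u = ∫⁻ a, rr w a * rr w (a - u) := by
  have h1 : ∀ a, rr w a * rr w (a - u) =
      ∫⁻ x3, ∫⁻ x2, w x3 * w (x3 + a) * (w x2 * w (x2 + (a - u))) := by
    intro a
    unfold rr
    rw [← lintegral_mul_const _ (by fun_prop)]
    refine lintegral_congr fun x3 => ?_
    rw [lintegral_const_mul _ (by fun_prop)]
  simp_rw [h1]
  rw [swap _ (by fun_prop)]
  have h2 : ∀ x3, ∫⁻ a, ∫⁻ x2, w x3 * w (x3 + a) * (w x2 * w (x2 + (a - u))) =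
      ∫⁻ x1, ∫⁻ x2, w x3 * w x1 * (w x2 * w (x1 + x2 - x3 - u)) := by
    intro x3
    rw [← lintegral_add_left_eq_self
      (fun x1 => ∫⁻ x2, w x3 * w x1 * (w x2 * w (x1 + x2 - x3 - u))) x3]
    refine lintegral_congr fun a => lintegral_congr fun x2 => ?_
    congr 3
    ring
  simp_rw [h2]
  rw [swap _ (by fun_prop)]
  unfold gg
  refine lintegral_congr fun x1 => ?_
  rw [swap _ (by fun_prop), ← lintegral_const_mul _ (by fun_prop)]
  refine lintegral_congr fun x2 => ?_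
  rw [← lintegral_const_mul _ (by fun_prop), ← lintegral_const_mul _ (by fun_prop)]
  refine lintegral_congr fun x3 => ?_
  ring

theorem gg_le (hw : Measurable w) (u : ℝ) : gg w u ≤ gg w 0 := by
  rw [gg_eq hw, gg_eq hw]
  have hr : Measurable (rr w) := by
    unfold rr
    fun_prop
  rw [← ENNReal.mul_le_mul_iff_right (a := 2) (by norm_num) (by norm_num)]
  calc 2 * ∫⁻ a, rr w a * rr w (a - u) = ∫⁻ a, 2 * (rr w a * rr w (a - u)) := by
        rw [lintegral_const_mul _ (by fun_prop)]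
    _ ≤ ∫⁻ a, (rr w a ^ 2 + rr w (a - u) ^ 2) := lintegral_mono fun a => two_mul_le _ _
    _ = (∫⁻ a, rr w a ^ 2) + ∫⁻ a, rr w (a - u) ^ 2 := lintegral_add_left (by fun_prop) _
    _ = (∫⁻ a, rr w a ^ 2) + ∫⁻ a, rr w a ^ 2 := by
        rw [lintegral_sub_right_eq_self (fun a => rr w a ^ 2) u]
    _ = 2 * ∫⁻ a, rr w a * rr w (a - 0) := by
        rw [← two_mul]
        simp only [sub_zero, sq]

theorem main (hw : Measurable w) (hh : Measurable h) :
    ∫⁻ x1, w x1 * ∫⁻ x2, w x2 * ∫⁻ x3, w x3 * ∫⁻ x4, w x4 * h (x1 + x2 - x3 - x4) ≤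
      (∫⁻ u, h u) * gg w 0 := by
  have h1 : ∫⁻ x1, w x1 * ∫⁻ x2, w x2 * ∫⁻ x3, w x3 * ∫⁻ x4, w x4 * h (x1 + x2 - x3 - x4) =
      ∫⁻ u, h u * gg w u := by
    have h2 : ∀ x1 x2 x3, ∫⁻ x4, w x4 * h (x1 + x2 - x3 - x4) =
        ∫⁻ u, w (x1 + x2 - x3 - u) * h u := by
      intro x1 x2 x3
      rw [← lintegral_sub_left_eq_self (fun u => w (x1 + x2 - x3 - u) * h u) (x1 + x2 - x3)]
      refine lintegral_congr fun x4 => ?_
      simp
    simp_rw [h2]
    have h3 : ∀ x1 x2, ∫⁻ x3, w x3 * ∫⁻ u, w (x1 + x2 - x3 - u) * h u =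
        ∫⁻ u, h u * ∫⁻ x3, w x3 * w (x1 + x2 - x3 - u) := by
      intro x1 x2
      have h4 : ∀ x3, w x3 * ∫⁻ u, w (x1 + x2 - x3 - u) * h u =
          ∫⁻ u, w x3 * (w (x1 + x2 - x3 - u) * h u) := fun x3 =>
        (lintegral_const_mul _ (by fun_prop)).symm
      simp_rw [h4]
      rw [swap _ (by fun_prop)]
      refine lintegral_congr fun u => ?_
      rw [← lintegral_const_mul _ (by fun_prop)]
      refine lintegral_congr fun x3 => ?_
      ring
    simp_rw [h3]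
    have h5 : ∀ x1, ∫⁻ x2, w x2 * ∫⁻ u, h u * ∫⁻ x3, w x3 * w (x1 + x2 - x3 - u) =
        ∫⁻ u, h u * ∫⁻ x2, w x2 * ∫⁻ x3, w x3 * w (x1 + x2 - x3 - u) := by
      intro x1
      have h4 : ∀ x2, w x2 * ∫⁻ u, h u * ∫⁻ x3, w x3 * w (x1 + x2 - x3 - u) =
          ∫⁻ u, w x2 * (h u * ∫⁻ x3, w x3 * w (x1 + x2 - x3 - u)) := fun x2 =>
        (lintegral_const_mul _ (by fun_prop)).symm
      simp_rw [h4]
      rw [swap _ (by fun_prop)]
      refine lintegral_congr fun u => ?_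
      rw [← lintegral_const_mul _ (by fun_prop)]
      refine lintegral_congr fun x2 => ?_
      ring
    simp_rw [h5]
    have h4 : ∀ x1, w x1 * ∫⁻ u, h u * ∫⁻ x2, w x2 * ∫⁻ x3, w x3 * w (x1 + x2 - x3 - u) =
        ∫⁻ u, w x1 * (h u * ∫⁻ x2, w x2 * ∫⁻ x3, w x3 * w (x1 + x2 - x3 - u)) := fun x1 =>
      (lintegral_const_mul _ (by fun_prop)).symm
    simp_rw [h4]
    rw [swap _ (by fun_prop)]
    refine lintegral_congr fun u => ?_
    unfold gg
    rw [← lintegral_const_mul _ (by fun_prop)]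
    refine lintegral_congr fun x1 => ?_
    ring
  rw [h1, ← lintegral_mul_const _ hh]
  exact lintegral_mono fun u => mul_le_mul_right (gg_le hw u) _

theorem setL {W : Set ℝ} (hW : MeasurableSet W) (F : ℝ → ENNReal) :
    ∫⁻ x in W, F x = ∫⁻ x, W.indicator (fun _ => (1 : ENNReal)) x * F x := by
  rw [← lintegral_indicator hW]
  refine lintegral_congr fun x => ?_
  by_cases hx : x ∈ W <;> simp [hx]

end E1_aux

open E1_aux in
theorem iE1 : StE1 := by
  intro W hW h hh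
  have hw : Measurable (W.indicator (fun _ => (1 : ENNReal))) := measurable_const.indicator hW
  have := main hw hh
  unfold EE
  simp only [setL hW]
  simp only [gg, sub_zero] at this
  exact this

end Pool.Agent.Work.MP_56b8f5_nt.UB
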