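import Pool.Agent.Work.MP_56b8f5_nt.UB.Stmts

/-!
MP_56b8f5_nt, block UB, item E2: the energy upper bound.
-/

open MeasureTheory Set Filter Topology

noncomputable section

namespace Pool.Agent.Work.MP_56b8f5_nt.UB

namespace E2_aux

/-- the majorant -/
def hh (N c u : ℝ) : ENNReal := ENNReal.ofReal (c * (1 + (Real.sqrt N * u) ^ 2)⁻¹)

lemma hh_meas (N c : ℝ) : Measurable (hh N c) := by
  unfold hh
  fun_prop

lemma hh_int {N c : ℝ} (hN : 0 < N) (hc : 0 ≤ c) :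
    ∫⁻ u, hh N c u = ENNReal.ofReal (c * (Real.pi / Real.sqrt N)) := by
  unfold hh
  have hs : 0 < Real.sqrt N := Real.sqrt_pos.mpr hN
  have hi : Integrable fun u : ℝ => c * (1 + (Real.sqrt N * u) ^ 2)⁻¹ := by
    have h1 : Integrable fun u : ℝ => (1 + (Real.sqrt N * u) ^ 2)⁻¹ :=
      (integrable_inv_one_add_sq).comp_mul_left' (ne_of_gt hs)
    exact h1.const_mul c
  rw [← ofReal_integral_eq_lintegral_ofReal hi]
  · congr 1
    rw [integral_const_mul]
    congr 1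
    have h2 := Measure.integral_comp_mul_left (fun u : ℝ => (1 + u ^ 2)⁻¹) (Real.sqrt N)
    simp only [smul_eq_mul] at h2
    rw [h2, integral_univ_inv_one_add_sq, abs_of_pos (inv_pos.mpr hs)]
    field_simp
  · exact Filter.Eventually.of_forall fun u => by positivity

lemma conv_int (N c : ℝ) (x : ℝ) : ∫⁻ y, hh N c (x - y) = ∫⁻ u, hh N c u :=
  lintegral_sub_left_eq_self (hh N c) x

/-- nested enorm bound, two variables -/
lemma nest2 (W : Set ℝ) (f : ℝ → ℝ → ℝ) :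
    ‖∫ x in W, ∫ y in W, f x y‖ₑ ≤ ∫⁻ x in W, ∫⁻ y in W, ‖f x y‖ₑ := by
  refine (enorm_integral_le_lintegral_enorm _).trans ?_
  exact lintegral_mono fun x => enorm_integral_le_lintegral_enorm _

lemma nest4 (W : Set ℝ) (f : ℝ → ℝ → ℝ → ℝ → ℝ) :
    ‖∫ x in W, ∫ y in W, ∫ z in W, ∫ t in W, f x y z t‖ₑ ≤
      ∫⁻ x in W, ∫⁻ y in W, ∫⁻ z in W, ∫⁻ t in W, ‖f x y z t‖ₑ := by
  refine (nest2 W _).trans ?_
  exact lintegral_mono fun x => lintegral_mono fun y => nest2 W _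

lemma two_bound {W : Set ℝ} (hW : MeasurableSet W) {N c d : ℝ} (f : ℝ → ℝ → ℝ)
    (hf : ∀ x ∈ W, ∀ y ∈ W, ‖f x y‖ₑ ≤ hh N c (x - y) + ENNReal.ofReal d) :
    ‖∫ x in W, ∫ y in W, f x y‖ₑ ≤ (∫⁻ u, hh N c u) * volume W + ENNReal.ofReal d * volume W ^ 2 := by
  refine (nest2 W f).trans ?_
  have h1 : ∀ x ∈ W, ∫⁻ y in W, ‖f x y‖ₑ ≤ (∫⁻ u, hh N c u) + ENNReal.ofReal d * volume W := by
    intro x hx
    refine (setLIntegral_mono' hW (hf x hx)).trans ?_
    rw [lintegral_add_right _ measurable_const, setLIntegral_const]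
    refine add_le_add ?_ le_rfl
    exact (setLIntegral_le_lintegral _ _).trans (le_of_eq (conv_int N c x))
  refine (setLIntegral_mono' hW h1).trans ?_
  rw [setLIntegral_const]
  apply le_of_eq
  ring

lemma four_bound (hE1 : StE1) {W : Set ℝ} (hW : MeasurableSet W) {N c d : ℝ}
    (f : ℝ → ℝ → ℝ → ℝ → ℝ)
    (hf : ∀ x ∈ W, ∀ y ∈ W, ∀ z ∈ W, ∀ t ∈ W,
      ‖f x y z t‖ₑ ≤ hh N c (x + y - z - t) + ENNReal.ofReal d) :
    ‖∫ x in W, ∫ y in W, ∫ z in W, ∫ t in W, f x y z t‖ₑ ≤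
      (∫⁻ u, hh N c u) * EE W + ENNReal.ofReal d * volume W ^ 4 := by
  refine (nest4 W f).trans ?_
  have h1 : ∀ x ∈ W, ∀ y ∈ W, ∀ z ∈ W, ∫⁻ t in W, ‖f x y z t‖ₑ ≤
      (∫⁻ t in W, hh N c (x + y - z - t)) + ENNReal.ofReal d * volume W := by
    intro x hx y hy z hz
    refine (setLIntegral_mono' hW (hf x hx y hy z hz)).trans ?_
    rw [lintegral_add_right _ measurable_const, setLIntegral_const]
  have h2 : ∀ x ∈ W, ∀ y ∈ W, ∫⁻ z in W, ∫⁻ t in W, ‖f x y z t‖ₑ ≤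
      (∫⁻ z in W, ∫⁻ t in W, hh N c (x + y - z - t)) + ENNReal.ofReal d * volume W * volume W := by
    intro x hx y hy
    refine (setLIntegral_mono' hW (h1 x hx y hy)).trans ?_
    rw [lintegral_add_right _ measurable_const, setLIntegral_const]
  have h3 : ∀ x ∈ W, ∫⁻ y in W, ∫⁻ z in W, ∫⁻ t in W, ‖f x y z t‖ₑ ≤
      (∫⁻ y in W, ∫⁻ z in W, ∫⁻ t in W, hh N c (x + y - z - t)) +
        ENNReal.ofReal d * volume W * volume W * volume W := by
    intro x hx
    refine (setLIntegral_mono' hW (h2 x hx)).trans ?_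
    rw [lintegral_add_right _ measurable_const, setLIntegral_const]
  refine (setLIntegral_mono' hW h3).trans ?_
  rw [lintegral_add_right _ measurable_const, setLIntegral_const]
  refine add_le_add (hE1 W hW (hh N c) (hh_meas N c)) (le_of_eq ?_)
  ring

lemma EE_le (W : Set ℝ) : EE W ≤ volume W ^ 3 := by
  unfold EE
  calc ∫⁻ x1 in W, ∫⁻ x2 in W, ∫⁻ x3 in W, W.indicator (fun _ => (1 : ENNReal)) (x1 + x2 - x3)
      ≤ ∫⁻ _x1 in W, ∫⁻ _x2 in W, ∫⁻ _x3 in W, (1 : ENNReal) := by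
        refine lintegral_mono fun x1 => lintegral_mono fun x2 => lintegral_mono fun x3 => ?_
        exact indicator_le_self' (fun _ _ => zero_le_one) _
    _ = volume W ^ 3 := by
        simp only [setLIntegral_const, one_mul]
        ring

end E2_aux

open E2_aux in
theorem iE2 (hE2a : StE2a) (hKB : StKB) (hE1 : StE1) : StE2 := by
  obtain ⟨C, hC1, hC⟩ := hKB
  refine ⟨7 * C ^ 2, by nlinarith, ?_⟩
  intro X N M V a W hN hX hCN hM hV ha hW hWI hWV
  have hN0 : 0 < N := by linarith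
  have hs0 : 0 < Real.sqrt N := Real.sqrt_pos.mpr hN0
  have hs2 : Real.sqrt N * Real.sqrt N = N := Real.mul_self_sqrt hN0.le
  have hCX : C * N ≤ X ^ 2 := by
    have : C ≤ 7 * C ^ 2 := by nlinarith
    exact (mul_le_mul_of_nonneg_right this hN0.le).trans hCN
  have hmain := hE2a X N (M * Real.sqrt N) V a W hN hX hV ha hW hWI hWV
  have hMs : 0 < M * Real.sqrt N := by positivity
  -- volume
  have hvol : volume W ≠ ⊤ := by
    have : volume W ≤ volume (Icc 0 (M * Real.sqrt N)) := measure_mono hWI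
    exact ne_top_of_le_ne_top (by simp [Real.volume_Icc]) this
  have hEtop : EE W ≠ ⊤ := ne_top_of_le_ne_top (ENNReal.pow_ne_top hvol) (EE_le W)
  -- the pointwise bound
  have key : ∀ u : ℝ, |u| ≤ 4 * M * Real.sqrt N →
      ‖(‖KS X N u‖ ^ 2 : ℝ)‖ₑ ≤ hh N (2 * C ^ 2 * N ^ 2) u + ENNReal.ofReal (2 * C ^ 2 * (N * M)) := by
    intro u hu
    unfold hh
    rw [Real.enorm_of_nonneg (by positivity), ← ENNReal.ofReal_add (by positivity) (by positivity)]
    apply ENNReal.ofReal_le_ofReal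
    have h1 := hC X N M u hN hX hCX hM hu
    have h2 : ‖KS X N u‖ ^ 2 ≤ (C * (N / (1 + |u| * Real.sqrt N) ^ 2 + Real.sqrt (N * M))) ^ 2 :=
      pow_le_pow_left₀ (norm_nonneg _) h1 2
    refine h2.trans ?_
    have hNM : Real.sqrt (N * M) ^ 2 = N * M := Real.sq_sqrt (by positivity)
    have h3 : (N / (1 + |u| * Real.sqrt N) ^ 2) ^ 2 ≤ N ^ 2 * (1 + (Real.sqrt N * u) ^ 2)⁻¹ := by
      rw [div_pow, div_eq_mul_inv]
      apply mul_le_mul_of_nonneg_left _ (by positivity)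
      apply inv_anti₀ (by positivity)
      set w := |u| * Real.sqrt N with hw
      have hw0 : 0 ≤ w := by positivity
      have hw2 : (Real.sqrt N * u) ^ 2 = w ^ 2 := by
        rw [hw, mul_pow, mul_pow, sq_abs]; ring
      rw [hw2]
      have : 1 + w ^ 2 ≤ (1 + w) ^ 2 := by nlinarith
      have h4 : (1 : ℝ) ≤ (1 + w) ^ 2 := by nlinarith
      nlinarith
    have h5 : ∀ p q : ℝ, (p + q) ^ 2 ≤ 2 * (p ^ 2 + q ^ 2) := fun p q => by
      nlinarith [sq_nonneg (p - q)]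
    rw [mul_pow]
    have h6 := h5 (N / (1 + |u| * Real.sqrt N) ^ 2) (Real.sqrt (N * M))
    rw [hNM] at h6
    have hC2 : 0 ≤ C ^ 2 := by positivity
    calc C ^ 2 * (N / (1 + |u| * Real.sqrt N) ^ 2 + Real.sqrt (N * M)) ^ 2
        ≤ C ^ 2 * (2 * ((N / (1 + |u| * Real.sqrt N) ^ 2) ^ 2 + N * M)) :=
          mul_le_mul_of_nonneg_left h6 hC2
      _ ≤ C ^ 2 * (2 * (N ^ 2 * (1 + (Real.sqrt N * u) ^ 2)⁻¹ + N * M)) := by
          apply mul_le_mul_of_nonneg_left _ hC2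
          linarith
      _ = _ := by ring
  have hI := hh_int hN0 (show 0 ≤ 2 * C ^ 2 * N ^ 2 by positivity)
  have hIv : 2 * C ^ 2 * N ^ 2 * (Real.pi / Real.sqrt N) = 2 * Real.pi * C ^ 2 * (N * Real.sqrt N) := by
    have : N ^ 2 / Real.sqrt N = N * Real.sqrt N := by
      rw [div_eq_iff hs0.ne']
      rw [mul_assoc, hs2]; ring
    calc 2 * C ^ 2 * N ^ 2 * (Real.pi / Real.sqrt N) = 2 * Real.pi * C ^ 2 * (N ^ 2 / Real.sqrt N) := by ring
      _ = _ := by rw [this]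
  rw [hIv] at hI
  have hpi : 2 * Real.pi ≤ 7 := by linarith [Real.pi_lt_d2]
  have hR0 : 0 ≤ Rr W := ENNReal.toReal_nonneg
  have hRv : volume W = ENNReal.ofReal (Rr W) := (ENNReal.ofReal_toReal hvol).symm
  have hEv : EE W = ENNReal.ofReal (EE W).toReal := (ENNReal.ofReal_toReal hEtop).symm
  have hE0 : 0 ≤ (EE W).toReal := ENNReal.toReal_nonneg
  -- two-fold
  have hA : ∫ x in W, ∫ y in W, ‖KS X N (x - y)‖ ^ 2 ≤
      7 * C ^ 2 * (N * Real.sqrt N * Rr W + N * M * Rr W ^ 2) := by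
    have h1 := two_bound (N := N) (c := 2 * C ^ 2 * N ^ 2) (d := 2 * C ^ 2 * (N * M)) hW
      (fun x y => ‖KS X N (x - y)‖ ^ 2) (by
        intro x hx y hy
        apply key
        have h1 := hWI hx
        have h2 := hWI hy
        rw [mem_Icc] at h1 h2
        rw [abs_le]
        constructor <;> nlinarith [h1.1, h1.2, h2.1, h2.2])
    have h0 : 0 ≤ ∫ x in W, ∫ y in W, ‖KS X N (x - y)‖ ^ 2 :=
      integral_nonneg fun x => integral_nonneg fun y => by positivity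
    rw [Real.enorm_of_nonneg h0, hI, hRv, ← ENNReal.ofReal_mul (by positivity),
      ← ENNReal.ofReal_pow hR0, ← ENNReal.ofReal_mul (by positivity),
      ← ENNReal.ofReal_add (by positivity) (by positivity)] at h1
    have h2 := (ENNReal.ofReal_le_ofReal_iff (by positivity)).mp h1
    refine h2.trans ?_
    have e1 : 0 ≤ C ^ 2 * (N * Real.sqrt N * Rr W) := by positivity
    have e2 : 0 ≤ C ^ 2 * (N * M * Rr W ^ 2) := by positivity
    nlinarith
  have hB : ∫ x1 in W, ∫ x2 in W, ∫ x3 in W, ∫ x4 in W, ‖KS X N (x1 + x2 - x3 - x4)‖ ^ 2 ≤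
      7 * C ^ 2 * (N * Real.sqrt N * (EE W).toReal + N * M * Rr W ^ 4) := by
    have h1 := four_bound hE1 (N := N) (c := 2 * C ^ 2 * N ^ 2) (d := 2 * C ^ 2 * (N * M)) hW
      (fun x1 x2 x3 x4 => ‖KS X N (x1 + x2 - x3 - x4)‖ ^ 2) (by
        intro x hx y hy z hz t ht
        apply key
        have h1 := hWI hx
        have h2 := hWI hy
        have h3 := hWI hz
        have h4 := hWI ht
        rw [mem_Icc] at h1 h2 h3 h4
        rw [abs_le]
        constructor <;> nlinarith [h1.1, h1.2, h2.1, h2.2, h3.1, h3.2, h4.1, h4.2])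
    have h0 : 0 ≤ ∫ x1 in W, ∫ x2 in W, ∫ x3 in W, ∫ x4 in W, ‖KS X N (x1 + x2 - x3 - x4)‖ ^ 2 :=
      integral_nonneg fun x => integral_nonneg fun y => integral_nonneg fun z =>
        integral_nonneg fun t => by positivity
    rw [Real.enorm_of_nonneg h0, hI, hRv, hEv, ← ENNReal.ofReal_mul (by positivity),
      ← ENNReal.ofReal_pow hR0, ← ENNReal.ofReal_mul (by positivity),
      ← ENNReal.ofReal_add (by positivity) (by positivity)] at h1
    have h2 := (ENNReal.ofReal_le_ofReal_iff (by positivity)).mp h1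
    refine h2.trans ?_
    have e1 : 0 ≤ C ^ 2 * (N * Real.sqrt N * (EE W).toReal) := by positivity
    have e2 : 0 ≤ C ^ 2 * (N * M * Rr W ^ 4) := by positivity
    nlinarith
  refine hmain.trans ?_
  have hc0 : 0 ≤ 7 * C ^ 2 := by positivity
  calc Real.sqrt (∫ x in W, ∫ y in W, ‖KS X N (x - y)‖ ^ 2) *
        Real.sqrt (∫ x1 in W, ∫ x2 in W, ∫ x3 in W, ∫ x4 in W, ‖KS X N (x1 + x2 - x3 - x4)‖ ^ 2)
      ≤ Real.sqrt (7 * C ^ 2 * (N * Real.sqrt N * Rr W + N * M * Rr W ^ 2)) *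
        Real.sqrt (7 * C ^ 2 * (N * Real.sqrt N * (EE W).toReal + N * M * Rr W ^ 4)) :=
        mul_le_mul (Real.sqrt_le_sqrt hA) (Real.sqrt_le_sqrt hB) (Real.sqrt_nonneg _)
          (Real.sqrt_nonneg _)
    _ = Real.sqrt (7 * C ^ 2) * Real.sqrt (7 * C ^ 2) *
        (Real.sqrt (N * Real.sqrt N * Rr W + N * M * Rr W ^ 2) *
        Real.sqrt (N * Real.sqrt N * (EE W).toReal + N * M * Rr W ^ 4)) := by
        rw [Real.sqrt_mul hc0, Real.sqrt_mul hc0]; ring
    _ = _ := by rw [Real.mul_self_sqrt hc0]; ring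

end Pool.Agent.Work.MP_56b8f5_nt.UB
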