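import Pool.Agent.Work.MP_56b8f5_nt.UB.Stmts

/-! MP_56b8f5_nt, block UB, item E2a: the identity part of the energy bound. -/

open MeasureTheory Set Filter Topology

noncomputable section

namespace Pool.Agent.Work.MP_56b8f5_nt.UB

namespace E2a_aux

theorem ee_add (x y : ℝ) : ee (x + y) = ee x * ee y := by
  unfold ee
  rw [← Complex.exp_add]
  congr 1
  push_cast
  ring

theorem ee_neg (x : ℝ) : ee (-x) = (starRingEnd ℂ) (ee x) := by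
  unfold ee
  rw [← Complex.exp_conj]
  congr 1
  rw [map_mul, Complex.conj_ofReal, Complex.conj_I]
  push_cast
  ring

theorem ee_zero : ee 0 = 1 := by simp [ee]

theorem cont_ee : Continuous ee := by
  unfold ee
  fun_prop

/-- Fourier transform of `W` -/
def Rh (W : Set ℝ) (ν : ℝ) : ℂ := ∫ x in W, ee (x * ν)

/-- finite sums of exponentials -/
def ES {ι : Type} (Q : Finset ι) (b : ι → ℂ) (ξ : ι → ℝ) (u : ℝ) : ℂ :=
  ∑ q ∈ Q, b q * ee (u * ξ q)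

theorem cont_ES {ι : Type} (Q : Finset ι) (b : ι → ℂ) (ξ : ι → ℝ) : Continuous (ES Q b ξ) := by
  unfold ES
  refine continuous_finsetSum Q fun q _ => ?_
  exact continuous_const.mul (cont_ee.comp (continuous_id.mul continuous_const))

theorem intC {W : Set ℝ} {L : ℝ} (hW : W ⊆ Icc 0 L) {f : ℝ → ℂ} (hf : Continuous f) :
    IntegrableOn f W := (hf.integrableOn_Icc (μ := volume)).mono_set hW

theorem intR {W : Set ℝ} {L : ℝ} (hW : W ⊆ Icc 0 L) {f : ℝ → ℝ} (hf : Continuous f) :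
    IntegrableOn f W := (hf.integrableOn_Icc (μ := volume)).mono_set hW

theorem ES_plus {ι : Type} {W : Set ℝ} {L : ℝ} (hW : W ⊆ Icc 0 L) (Q : Finset ι) (b : ι → ℂ)
    (ξ : ι → ℝ) (u : ℝ) :
    ∫ x in W, ES Q b ξ (u + x) = ES Q (fun q => b q * Rh W (ξ q)) ξ u := by
  unfold ES
  rw [integral_finsetSum Q]
  · refine Finset.sum_congr rfl fun q _ => ?_
    have h : ∀ x : ℝ, b q * ee ((u + x) * ξ q) = (b q * ee (u * ξ q)) * ee (x * ξ q) := by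
      intro x
      rw [add_mul, ee_add]
      ring
    simp only [h]
    rw [integral_const_mul]
    unfold Rh
    ring
  · intro q _
    refine intC hW ?_
    exact continuous_const.mul (cont_ee.comp ((continuous_const.add continuous_id).mul
      continuous_const))

theorem ES_minus {ι : Type} {W : Set ℝ} {L : ℝ} (hW : W ⊆ Icc 0 L) (Q : Finset ι) (b : ι → ℂ)
    (ξ : ι → ℝ) (u : ℝ) :
    ∫ x in W, ES Q b ξ (u - x) = ES Q (fun q => b q * (starRingEnd ℂ) (Rh W (ξ q))) ξ u := by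
  unfold ES
  rw [integral_finsetSum Q]
  · refine Finset.sum_congr rfl fun q _ => ?_
    have h : ∀ x : ℝ, b q * ee ((u - x) * ξ q) =
        (b q * ee (u * ξ q)) * (starRingEnd ℂ) (ee (x * ξ q)) := by
      intro x
      rw [← ee_neg, mul_assoc, ← ee_add]
      congr 2
      ring
    simp only [h]
    rw [integral_const_mul, integral_conj]
    unfold Rh
    ring
  · intro q _
    refine intC hW ?_
    exact continuous_const.mul (cont_ee.comp ((continuous_const.sub continuous_id).mul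
      continuous_const))

theorem ES_zero {ι : Type} {W : Set ℝ} {L : ℝ} (hW : W ⊆ Icc 0 L) (Q : Finset ι) (b : ι → ℂ)
    (ξ : ι → ℝ) : ∫ x in W, ES Q b ξ x = ∑ q ∈ Q, b q * Rh W (ξ q) := by
  have h := ES_plus hW Q b ξ 0
  simp only [zero_add] at h
  rw [h]
  unfold ES
  refine Finset.sum_congr rfl fun q _ => ?_
  simp only [zero_mul, ee_zero, mul_one]

theorem norm_sq {P : ℝ → ℂ} {J : Finset ℕ} {c : ℕ → ℂ} {ν : ℕ → ℝ}
    (hP : ∀ u, P u = ∑ n ∈ J, c n * ee (u * ν n)) (u : ℝ) :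
    ((‖P u‖ ^ 2 : ℝ) : ℂ) = ES (J ×ˢ J) (fun q => c q.1 * (starRingEnd ℂ) (c q.2))
      (fun q => ν q.1 - ν q.2) u := by
  have h1 : ((‖P u‖ ^ 2 : ℝ) : ℂ) = P u * (starRingEnd ℂ) (P u) := by
    rw [Complex.mul_conj, Complex.normSq_eq_norm_sq]
  rw [h1, hP, map_sum, Finset.sum_mul_sum]
  unfold ES
  rw [Finset.sum_product]
  refine Finset.sum_congr rfl fun n _ => Finset.sum_congr rfl fun n' _ => ?_
  simp only
  rw [map_mul, ← ee_neg]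
  have h2 : ee (u * (ν n - ν n')) = ee (u * ν n) * ee (-(u * ν n')) := by
    rw [← ee_add]
    congr 1
    ring
  rw [h2]
  ring

theorem om_nonneg (u : ℝ) : 0 ≤ om u := omB.nonneg

theorem om_zero {u : ℝ} (h : 5 / 2 ≤ u) : om u = 0 := by
  refine omB.zero_of_le_dist ?_
  have h1 : omB.rOut = 1 := rfl
  rw [h1, Real.dist_eq, abs_of_nonneg (by linarith)]
  linarith

theorem om_one {u : ℝ} (h1 : 1 ≤ u) (h2 : u ≤ 2) : om u = 1 := by
  refine omB.one_of_mem_closedBall ?_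
  have h3 : omB.rIn = 1 / 2 := rfl
  rw [h3, Metric.mem_closedBall, Real.dist_eq, abs_le]
  constructor <;> linarith

theorem KS_eq {X N : ℝ} (hN : 1 ≤ N) (x : ℝ) :
    KS X N x = ∑ n ∈ Finset.range ⌈3 * N⌉₊, (om ((n : ℝ) / N) : ℂ) * ee (x * vv X n) := by
  unfold KS
  refine tsum_eq_sum fun n hn => ?_
  rw [Finset.mem_range, not_lt] at hn
  have h1 : 3 * N ≤ n := (Nat.le_ceil _).trans (by exact_mod_cast hn)
  have h2 : 5 / 2 ≤ (n : ℝ) / N := by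
    rw [le_div_iff₀ (by linarith)]
    linarith
  rw [om_zero h2, Complex.ofReal_zero, zero_mul]

theorem conj_mul_self (z : ℂ) : (starRingEnd ℂ) z * z = ((‖z‖ ^ 2 : ℝ) : ℂ) := by
  rw [mul_comm, Complex.mul_conj, Complex.normSq_eq_norm_sq]

/-- `∫∫ |P(x-y)|²` -/
theorem two_fold {W : Set ℝ} {L : ℝ} (hW : W ⊆ Icc 0 L) {P : ℝ → ℂ} {J : Finset ℕ} {c : ℕ → ℝ}
    {ν : ℕ → ℝ} (hP : ∀ u, P u = ∑ n ∈ J, (c n : ℂ) * ee (u * ν n)) :
    ∫ x in W, ∫ y in W, ‖P (x - y)‖ ^ 2 =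
      ∑ q ∈ J ×ˢ J, (c q.1 * c q.2) * ‖Rh W (ν q.1 - ν q.2)‖ ^ 2 := by
  have key : ((∫ x in W, ∫ y in W, ‖P (x - y)‖ ^ 2 : ℝ) : ℂ) =
      ((∑ q ∈ J ×ˢ J, (c q.1 * c q.2) * ‖Rh W (ν q.1 - ν q.2)‖ ^ 2 : ℝ) : ℂ) := by
    have h1 : ((∫ x in W, ∫ y in W, ‖P (x - y)‖ ^ 2 : ℝ) : ℂ) =
        ∫ x in W, ∫ y in W, ((‖P (x - y)‖ ^ 2 : ℝ) : ℂ) := by
      simp only [integral_complex_ofReal]
    rw [h1]
    simp only [norm_sq hP]
    simp only [ES_minus hW]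
    rw [ES_zero hW]
    rw [Complex.ofReal_sum]
    refine Finset.sum_congr rfl fun q _ => ?_
    rw [mul_assoc, conj_mul_self, Complex.conj_ofReal]
    push_cast
    ring
  exact_mod_cast key

/-- `∫∫∫∫ |P(x₁+x₂-x₃-x₄)|²` -/
theorem four_fold {W : Set ℝ} {L : ℝ} (hW : W ⊆ Icc 0 L) {P : ℝ → ℂ} {J : Finset ℕ} {c : ℕ → ℝ}
    {ν : ℕ → ℝ} (hP : ∀ u, P u = ∑ n ∈ J, (c n : ℂ) * ee (u * ν n)) :
    ∫ x1 in W, ∫ x2 in W, ∫ x3 in W, ∫ x4 in W, ‖P (x1 + x2 - x3 - x4)‖ ^ 2 =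
      ∑ q ∈ J ×ˢ J, (c q.1 * c q.2) * ‖Rh W (ν q.1 - ν q.2)‖ ^ 4 := by
  have key : ((∫ x1 in W, ∫ x2 in W, ∫ x3 in W, ∫ x4 in W,
      ‖P (x1 + x2 - x3 - x4)‖ ^ 2 : ℝ) : ℂ) =
      ((∑ q ∈ J ×ˢ J, (c q.1 * c q.2) * ‖Rh W (ν q.1 - ν q.2)‖ ^ 4 : ℝ) : ℂ) := by
    have h1 : ((∫ x1 in W, ∫ x2 in W, ∫ x3 in W, ∫ x4 in W,
        ‖P (x1 + x2 - x3 - x4)‖ ^ 2 : ℝ) : ℂ) =
        ∫ x1 in W, ∫ x2 in W, ∫ x3 in W, ∫ x4 in W,
          ((‖P (x1 + x2 - x3 - x4)‖ ^ 2 : ℝ) : ℂ) := by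
      simp only [integral_complex_ofReal]
    rw [h1]
    simp only [norm_sq hP]
    simp only [ES_minus hW]
    simp only [ES_plus hW]
    rw [ES_zero hW]
    rw [Complex.ofReal_sum]
    refine Finset.sum_congr rfl fun q _ => ?_
    have h2 := conj_mul_self (Rh W (ν q.1 - ν q.2))
    have h3 : ((‖Rh W (ν q.1 - ν q.2)‖ ^ 4 : ℝ) : ℂ) =
        ((‖Rh W (ν q.1 - ν q.2)‖ ^ 2 : ℝ) : ℂ) * ((‖Rh W (ν q.1 - ν q.2)‖ ^ 2 : ℝ) : ℂ) := by
      rw [← Complex.ofReal_mul]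
      congr 1
      ring
    rw [Complex.ofReal_mul, h3, ← h2, Complex.conj_ofReal, Complex.ofReal_mul]
    ring
  exact_mod_cast key

/-- `∫∫∫ |P(x₁+x₂-x₃)|²` -/
theorem three_fold {W : Set ℝ} {L : ℝ} (hW : W ⊆ Icc 0 L) {P : ℝ → ℂ} {J : Finset ℕ} {c : ℕ → ℂ}
    {ν : ℕ → ℝ} (hP : ∀ u, P u = ∑ n ∈ J, c n * ee (u * ν n)) (hc : ∀ n, ‖c n‖ ≤ 1) :
    ∫ x1 in W, ∫ x2 in W, ∫ x3 in W, ‖P (x1 + x2 - x3)‖ ^ 2 ≤
      ∑ q ∈ J ×ˢ J, ‖Rh W (ν q.1 - ν q.2)‖ ^ 3 := by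
  have h1 : ((∫ x1 in W, ∫ x2 in W, ∫ x3 in W, ‖P (x1 + x2 - x3)‖ ^ 2 : ℝ) : ℂ) =
      ∫ x1 in W, ∫ x2 in W, ∫ x3 in W, ((‖P (x1 + x2 - x3)‖ ^ 2 : ℝ) : ℂ) := by
    simp only [integral_complex_ofReal]
  have h2 : ∫ x1 in W, ∫ x2 in W, ∫ x3 in W, ((‖P (x1 + x2 - x3)‖ ^ 2 : ℝ) : ℂ) =
      ∑ q ∈ J ×ˢ J, c q.1 * (starRingEnd ℂ) (c q.2) *
        (starRingEnd ℂ) (Rh W (ν q.1 - ν q.2)) * Rh W (ν q.1 - ν q.2) *
        Rh W (ν q.1 - ν q.2) := by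
    simp only [norm_sq hP]
    simp only [ES_minus hW]
    simp only [ES_plus hW]
    rw [ES_zero hW]
  calc ∫ x1 in W, ∫ x2 in W, ∫ x3 in W, ‖P (x1 + x2 - x3)‖ ^ 2
      ≤ ‖((∫ x1 in W, ∫ x2 in W, ∫ x3 in W, ‖P (x1 + x2 - x3)‖ ^ 2 : ℝ) : ℂ)‖ := by
        rw [Complex.norm_real]
        exact le_abs_self _
    _ ≤ ∑ q ∈ J ×ˢ J, ‖Rh W (ν q.1 - ν q.2)‖ ^ 3 := by
        rw [h1, h2]
        refine (norm_sum_le _ _).trans (Finset.sum_le_sum fun q _ => ?_)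
        rw [norm_mul, norm_mul, norm_mul, norm_mul, RCLike.norm_conj, RCLike.norm_conj]
        have h3 := hc q.1
        have h4 := hc q.2
        have h5 : ‖c q.1‖ * ‖c q.2‖ ≤ 1 := mul_le_one₀ h3 (norm_nonneg _) h4
        have h6 : 0 ≤ ‖Rh W (ν q.1 - ν q.2)‖ ^ 3 := by positivity
        calc ‖c q.1‖ * ‖c q.2‖ * ‖Rh W (ν q.1 - ν q.2)‖ * ‖Rh W (ν q.1 - ν q.2)‖ *
              ‖Rh W (ν q.1 - ν q.2)‖
            = (‖c q.1‖ * ‖c q.2‖) * ‖Rh W (ν q.1 - ν q.2)‖ ^ 3 := by ring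
          _ ≤ 1 * ‖Rh W (ν q.1 - ν q.2)‖ ^ 3 := mul_le_mul_of_nonneg_right h5 h6
          _ = ‖Rh W (ν q.1 - ν q.2)‖ ^ 3 := one_mul _

theorem cs {ι : Type} (Q : Finset ι) (w r : ι → ℝ) (hw : ∀ i, 0 ≤ w i) (hr : ∀ i, 0 ≤ r i) :
    ∑ q ∈ Q, w q * r q ^ 3 ≤
      Real.sqrt (∑ q ∈ Q, w q * r q ^ 2) * Real.sqrt (∑ q ∈ Q, w q * r q ^ 4) := by
  have h := Real.sum_sqrt_mul_sqrt_le (f := fun q => w q * r q ^ 2)
    (g := fun q => w q * r q ^ 4) Q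
    (fun q => mul_nonneg (hw q) (by positivity)) (fun q => mul_nonneg (hw q) (by positivity))
  refine le_trans (le_of_eq ?_) h
  refine Finset.sum_congr rfl fun q _ => ?_
  rw [← Real.sqrt_mul (mul_nonneg (hw q) (by positivity))]
  symm
  rw [show w q * r q ^ 2 * (w q * r q ^ 4) = (w q * r q ^ 3) ^ 2 by ring]
  exact Real.sqrt_sq (mul_nonneg (hw q) (pow_nonneg (hr q) 3))

/-- real functions which are finite sums of exponentials -/
def IsES (f : ℝ → ℝ) : Prop := ∃ (Q : Finset (ℕ × ℕ)) (b : ℕ × ℕ → ℂ) (ξ : ℕ × ℕ → ℝ),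
  ∀ u, (f u : ℂ) = ES Q b ξ u

theorem IsES.cont {f : ℝ → ℝ} (hf : IsES f) : Continuous f := by
  obtain ⟨Q, b, ξ, h⟩ := hf
  have h1 : f = fun u => (ES Q b ξ u).re := by
    funext u
    rw [← h u, Complex.ofReal_re]
  rw [h1]
  exact Complex.continuous_re.comp (cont_ES Q b ξ)

theorem IsES.plus {W : Set ℝ} {L : ℝ} (hW : W ⊆ Icc 0 L) {f : ℝ → ℝ} (hf : IsES f) :
    IsES fun u => ∫ x in W, f (u + x) := by
  obtain ⟨Q, b, ξ, h⟩ := hf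
  refine ⟨Q, fun q => b q * Rh W (ξ q), ξ, fun u => ?_⟩
  rw [← ES_plus hW, ← integral_complex_ofReal]
  simp only [h]

theorem IsES.minus {W : Set ℝ} {L : ℝ} (hW : W ⊆ Icc 0 L) {f : ℝ → ℝ} (hf : IsES f) :
    IsES fun u => ∫ x in W, f (u - x) := by
  obtain ⟨Q, b, ξ, h⟩ := hf
  refine ⟨Q, fun q => b q * (starRingEnd ℂ) (Rh W (ξ q)), ξ, fun u => ?_⟩
  rw [← ES_minus hW, ← integral_complex_ofReal]
  simp only [h]

theorem lint {W : Set ℝ} {L : ℝ} (hW : W ⊆ Icc 0 L) {f : ℝ → ℝ} (hf : Continuous f)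
    (h0 : ∀ x, 0 ≤ f x) : ∫⁻ x in W, ENNReal.ofReal (f x) = ENNReal.ofReal (∫ x in W, f x) :=
  (ofReal_integral_eq_lintegral_ofReal (intR hW hf) (Filter.Eventually.of_forall h0)).symm

theorem energy_le {W : Set ℝ} {L : ℝ} (hW : W ⊆ Icc 0 L) {V : ℝ} {f : ℝ → ℝ} (hf : IsES f)
    (h0 : ∀ x, 0 ≤ f x) (hV : ∀ x ∈ W, V ^ 2 ≤ f x) :
    V ^ 2 * (EE W).toReal ≤ ∫ x1 in W, ∫ x2 in W, ∫ x3 in W, f (x1 + x2 - x3) := by
  have hf1 := hf.minus hW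
  have hf2 := hf1.plus hW
  have g1 : ∀ u, 0 ≤ ∫ x in W, f (u - x) := fun u => integral_nonneg fun x => h0 _
  have g2 : ∀ u, 0 ≤ ∫ y in W, ∫ x in W, f (u + y - x) := fun u =>
    integral_nonneg fun y => g1 _
  have h1 : ENNReal.ofReal (V ^ 2) * EE W ≤
      ENNReal.ofReal (∫ x1 in W, ∫ x2 in W, ∫ x3 in W, f (x1 + x2 - x3)) := by
    have e1 : ∀ u, ∫⁻ x3 in W, ENNReal.ofReal (f (u - x3)) =
        ENNReal.ofReal (∫ x3 in W, f (u - x3)) := fun u =>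
      lint hW (hf.cont.comp (continuous_const.sub continuous_id)) (fun x => h0 _)
    have e2 : ∀ u, ∫⁻ x2 in W, ENNReal.ofReal (∫ x3 in W, f (u + x2 - x3)) =
        ENNReal.ofReal (∫ x2 in W, ∫ x3 in W, f (u + x2 - x3)) := fun u =>
      lint hW (hf1.cont.comp (continuous_const.add continuous_id)) (fun x => g1 _)
    have e3 : ∫⁻ x1 in W, ENNReal.ofReal (∫ x2 in W, ∫ x3 in W, f (x1 + x2 - x3)) =
        ENNReal.ofReal (∫ x1 in W, ∫ x2 in W, ∫ x3 in W, f (x1 + x2 - x3)) :=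
      lint hW hf2.cont g2
    rw [← e3]
    simp only [← e2, ← e1]
    unfold EE
    have c1 : ENNReal.ofReal (V ^ 2) ≠ ⊤ := ENNReal.ofReal_ne_top
    rw [← lintegral_const_mul' _ _ c1]
    refine lintegral_mono fun x1 => ?_
    rw [← lintegral_const_mul' _ _ c1]
    refine lintegral_mono fun x2 => ?_
    rw [← lintegral_const_mul' _ _ c1]
    refine lintegral_mono fun x3 => ?_
    by_cases hx : x1 + x2 - x3 ∈ W
    · simp only [Set.indicator_of_mem hx, mul_one]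
      exact ENNReal.ofReal_le_ofReal (hV _ hx)
    · simp only [Set.indicator_of_notMem hx, mul_zero]
      exact bot_le
  have h2 := ENNReal.toReal_mono ENNReal.ofReal_ne_top h1
  rw [ENNReal.toReal_mul, ENNReal.toReal_ofReal (sq_nonneg V), ENNReal.toReal_ofReal] at h2
  · exact h2
  · exact integral_nonneg fun x => g2 x

end E2a_aux

open E2a_aux in
/-- ITEM E2a. -/
theorem iE2a : StE2a := by
  intro X N L V a W hN hX hV ha hWm hW hS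
  have hN0 : 0 < N := by linarith
  set I : Finset ℕ := Finset.Ioc ⌊N⌋₊ ⌊2 * N⌋₊ with hI
  set J : Finset ℕ := Finset.range ⌈3 * N⌉₊ with hJ
  have hIJ : I ⊆ J := by
    intro n hn
    rw [hI, Finset.mem_Ioc] at hn
    rw [hJ, Finset.mem_range]
    have h1 : (n : ℝ) ≤ 2 * N := (Nat.cast_le.2 hn.2).trans (Nat.floor_le (by linarith))
    rw [Nat.lt_ceil]
    linarith
  have hom : ∀ n ∈ I, om ((n : ℝ) / N) = 1 := by
    intro n hn
    rw [hI, Finset.mem_Ioc] at hn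
    have h1 : (n : ℝ) ≤ 2 * N := (Nat.cast_le.2 hn.2).trans (Nat.floor_le (by linarith))
    have h2 : N < n := Nat.lt_of_floor_lt hn.1
    refine om_one ?_ ?_
    · rw [le_div_iff₀ hN0]
      linarith
    · rw [div_le_iff₀ hN0]
      linarith
  have hSP : ∀ u, SS X N a u = ∑ n ∈ I, a n * ee (u * vv X n) := fun u => rfl
  have hKP : ∀ u, KS X N u = ∑ n ∈ J, ((om ((n : ℝ) / N) : ℝ) : ℂ) * ee (u * vv X n) :=
    fun u => KS_eq hN u
  have h1 : V ^ 2 * (EE W).toReal ≤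
      ∫ x1 in W, ∫ x2 in W, ∫ x3 in W, ‖SS X N a (x1 + x2 - x3)‖ ^ 2 := by
    refine energy_le hW (f := fun u => ‖SS X N a u‖ ^ 2) ?_ (fun x => sq_nonneg _) ?_
    · exact ⟨_, _, _, norm_sq (ν := fun n => vv X n) hSP⟩
    · intro x hx
      exact pow_le_pow_left₀ hV (hS x hx) 2
  have h2 := three_fold hW (ν := fun n => vv X n) hSP ha
  have h3 := two_fold hW (ν := fun n => vv X n) hKP
  have h4 := four_fold hW (ν := fun n => vv X n) hKP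
  have h5 := cs (J ×ˢ J) (fun q => om ((q.1 : ℝ) / N) * om ((q.2 : ℝ) / N))
    (fun q => ‖Rh W (vv X q.1 - vv X q.2)‖)
    (fun q => mul_nonneg (om_nonneg _) (om_nonneg _)) (fun q => norm_nonneg _)
  have h6 : ∑ q ∈ I ×ˢ I, ‖Rh W (vv X q.1 - vv X q.2)‖ ^ 3 ≤
      ∑ q ∈ J ×ˢ J, om ((q.1 : ℝ) / N) * om ((q.2 : ℝ) / N) *
        ‖Rh W (vv X q.1 - vv X q.2)‖ ^ 3 := by
    refine le_trans (le_of_eq ?_) (Finset.sum_le_sum_of_subset_of_nonneg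
      (Finset.product_subset_product hIJ hIJ) fun q _ _ => ?_)
    · refine Finset.sum_congr rfl fun q hq => ?_
      rw [Finset.mem_product] at hq
      rw [hom _ hq.1, hom _ hq.2, one_mul, one_mul]
    · exact mul_nonneg (mul_nonneg (om_nonneg _) (om_nonneg _)) (by positivity)
  rw [h3, h4]
  exact h1.trans (h2.trans (h6.trans h5))

end Pool.Agent.Work.MP_56b8f5_nt.UB
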