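import Pool.Agent.Work.MP_56b8f5_nt.UB.Stmts

/-!
MP_56b8f5_nt, block UB, item E3 (duality).
-/

set_option autoImplicit false

open MeasureTheory Set Filter Topology

noncomputable section

namespace Pool.Agent.Work.MP_56b8f5_nt.UB

namespace E3_aux

lemma norm_ee (x : ℝ) : ‖ee x‖ = 1 := by
  unfold ee
  exact Complex.norm_exp_ofReal_mul_I _

lemma cont_ee : Continuous ee := by
  unfold ee
  fun_prop

lemma ee_add (x y : ℝ) : ee (x + y) = ee x * ee y := by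
  unfold ee
  rw [← Complex.exp_add]
  congr 1
  push_cast
  ring

lemma ee_conj (x : ℝ) : (starRingEnd ℂ) (ee x) = ee (-x) := by
  unfold ee
  rw [← Complex.exp_conj, map_mul, Complex.conj_ofReal, Complex.conj_I]
  congr 1
  push_cast
  ring

lemma om_nonneg (u : ℝ) : 0 ≤ om u := omB.nonneg

lemma om_one {u : ℝ} (h1 : 1 ≤ u) (h2 : u ≤ 2) : om u = 1 := by
  apply omB.one_of_mem_closedBall
  rw [Metric.mem_closedBall, Real.dist_eq, abs_le]
  change -(1 / 2 : ℝ) ≤ u - 3 / 2 ∧ u - 3 / 2 ≤ 1 / 2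
  constructor <;> linarith

lemma om_zero {u : ℝ} (h : 5 / 2 ≤ u) : om u = 0 := by
  apply omB.zero_of_le_dist
  rw [Real.dist_eq]
  change (1 : ℝ) ≤ |u - 3 / 2|
  rw [le_abs]
  left
  linarith

/-- The range of summation in `KS`. -/
def FR (N : ℝ) : Finset ℕ := Finset.range (⌈5 / 2 * N⌉₊ + 1)

lemma KS_eq {X N : ℝ} (hN : 1 ≤ N) (x : ℝ) :
    KS X N x = ∑ n ∈ FR N, (om ((n : ℝ) / N) : ℂ) * ee (x * vv X n) := by
  unfold KS
  refine tsum_eq_sum fun n hn => ?_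
  have h1 : ⌈5 / 2 * N⌉₊ + 1 ≤ n := by
    by_contra h
    exact hn (Finset.mem_range.mpr (not_le.mp h))
  have h2 : 5 / 2 * N ≤ n := by
    refine (Nat.le_ceil _).trans ?_
    exact_mod_cast (Nat.le_succ _).trans h1
  rw [om_zero, Complex.ofReal_zero, zero_mul]
  rw [le_div_iff₀ (by linarith)]
  exact h2

lemma cont_SS (X N : ℝ) (a : ℕ → ℂ) : Continuous (SS X N a) := by
  unfold SS
  refine continuous_finset_sum _ fun n _ => continuous_const.mul ?_
  exact cont_ee.comp (continuous_id.mul continuous_const)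

/-- The sign function. -/
def bb (X N : ℝ) (a : ℕ → ℂ) (x : ℝ) : ℂ := (starRingEnd ℂ) (SS X N a x) / (‖SS X N a x‖ : ℂ)

lemma meas_bb (X N : ℝ) (a : ℕ → ℂ) : Measurable (bb X N a) := by
  unfold bb
  refine Measurable.div ?_ ?_
  · exact (Complex.continuous_conj.comp (cont_SS X N a)).measurable
  · exact (Complex.continuous_ofReal.comp (cont_SS X N a).norm).measurable

lemma norm_bb (X N : ℝ) (a : ℕ → ℂ) (x : ℝ) : ‖bb X N a x‖ ≤ 1 := by
  unfold bb
  rw [norm_div, Complex.norm_conj, Complex.norm_real, norm_norm]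
  exact div_self_le_one _

lemma bb_mul (X N : ℝ) (a : ℕ → ℂ) (x : ℝ) :
    bb X N a x * SS X N a x = (‖SS X N a x‖ : ℂ) := by
  unfold bb
  by_cases h : SS X N a x = 0
  · simp [h]
  · have h' : (‖SS X N a x‖ : ℂ) ≠ 0 := by
      rw [Complex.ofReal_ne_zero]
      exact norm_ne_zero_iff.mpr h
    rw [div_mul_eq_mul_div, Complex.conj_mul', sq, mul_div_assoc, div_self h', mul_one]

/-- `b(x) e(x v)`. -/
def gg (b : ℝ → ℂ) (v x : ℝ) : ℂ := b x * ee (x * v)

lemma norm_gg {b : ℝ → ℂ} (hb : ∀ x, ‖b x‖ ≤ 1) (v x : ℝ) : ‖gg b v x‖ ≤ 1 := by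
  unfold gg
  rw [norm_mul, norm_ee, mul_one]
  exact hb x

lemma meas_gg {b : ℝ → ℂ} (hb : Measurable b) (v : ℝ) : Measurable (gg b v) := by
  unfold gg
  exact hb.mul (cont_ee.comp (continuous_id.mul continuous_const)).measurable

lemma int_gg {b : ℝ → ℂ} (hb : Measurable b) (hb1 : ∀ x, ‖b x‖ ≤ 1) {W : Set ℝ}
    (hW : volume W ≠ ⊤) (v : ℝ) : IntegrableOn (gg b v) W := by
  refine Measure.integrableOn_of_bounded (M := 1) hW (meas_gg hb v).aestronglyMeasurable ?_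
  exact Eventually.of_forall fun x => norm_gg hb1 v x

/-- The Fourier coefficients. -/
def BB (b : ℝ → ℂ) (W : Set ℝ) (v : ℝ) : ℂ := ∫ x in W, gg b v x

lemma double {X N : ℝ} (hN : 1 ≤ N) {b : ℝ → ℂ} (hb : Measurable b) (hb1 : ∀ x, ‖b x‖ ≤ 1)
    {W : Set ℝ} (hW : volume W ≠ ⊤) :
    ∫ x in W, ∫ y in W, b x * (starRingEnd ℂ) (b y) * KS X N (x - y) =
      ((∑ n ∈ FR N, om ((n : ℝ) / N) * ‖BB b W (vv X n)‖ ^ 2 : ℝ) : ℂ) := by
  have h1 : ∀ x y : ℝ, b x * (starRingEnd ℂ) (b y) * KS X N (x - y) =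
      ∑ n ∈ FR N, ((om ((n : ℝ) / N) : ℂ) * gg b (vv X n) x) *
        (starRingEnd ℂ) (gg b (vv X n) y) := by
    intro x y
    rw [KS_eq hN, Finset.mul_sum]
    refine Finset.sum_congr rfl fun n _ => ?_
    have e : ee ((x - y) * vv X n) = ee (x * vv X n) * ee (-(y * vv X n)) := by
      rw [← ee_add]
      congr 1
      ring
    unfold gg
    rw [e, map_mul, ee_conj]
    ring
  have h2 : ∀ x : ℝ, ∫ y in W, b x * (starRingEnd ℂ) (b y) * KS X N (x - y) =
      ∑ n ∈ FR N, ((om ((n : ℝ) / N) : ℂ) * (starRingEnd ℂ) (BB b W (vv X n))) *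
        gg b (vv X n) x := by
    intro x
    simp only [h1]
    rw [integral_finset_sum]
    · refine Finset.sum_congr rfl fun n _ => ?_
      rw [integral_const_mul, integral_conj]
      unfold BB
      ring
    · intro n _
      have := (int_gg hb hb1 hW (vv X n))
      exact (Complex.conjLIE.toContinuousLinearEquiv.toContinuousLinearMap.integrable_comp
        this).const_mul _
  simp only [h2]
  rw [integral_finset_sum]
  · push_cast
    refine Finset.sum_congr rfl fun n _ => ?_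
    rw [integral_const_mul]
    change (om ((n : ℝ) / N) : ℂ) * (starRingEnd ℂ) (BB b W (vv X n)) * BB b W (vv X n) = _
    rw [mul_assoc, Complex.conj_mul']
  · intro n _
    exact (int_gg hb hb1 hW (vv X n)).const_mul _

end E3_aux

open E3_aux in
theorem iE3 : StE3 := by
  intro X N M V a W hN hX hV ha hW hWs hlarge
  have hfin : volume W ≠ ⊤ :=
    ((measure_mono hWs).trans_lt (by simp)).ne
  refine ⟨bb X N a, meas_bb X N a, norm_bb X N a, ?_⟩
  have hb := meas_bb X N a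
  have hb1 := norm_bb X N a
  rw [double hN hb hb1 hfin]
  have hS := cont_SS X N a
  -- the lower bound
  have h1 : V * Rr W ≤ ∑ n ∈ Finset.Ioc ⌊N⌋₊ ⌊2 * N⌋₊, ‖BB (bb X N a) W (vv X n)‖ := by
    have i1 : IntegrableOn (fun x => ‖SS X N a x‖) W :=
      (hS.norm.integrableOn_Icc).mono_set hWs
    have e1 : V * Rr W ≤ ∫ x in W, ‖SS X N a x‖ := by
      have e2 : ∫ _x in W, V = V * Rr W := by
        rw [setIntegral_const, smul_eq_mul, mul_comm]
        rfl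
      rw [← e2]
      exact setIntegral_mono_on (integrableOn_const hfin) i1 hW hlarge
    have e3 : ((∫ x in W, ‖SS X N a x‖ : ℝ) : ℂ) =
        ∑ n ∈ Finset.Ioc ⌊N⌋₊ ⌊2 * N⌋₊, a n * BB (bb X N a) W (vv X n) := by
      rw [← integral_complex_ofReal]
      have e4 : ∀ x, (‖SS X N a x‖ : ℂ) =
          ∑ n ∈ Finset.Ioc ⌊N⌋₊ ⌊2 * N⌋₊, a n * gg (bb X N a) (vv X n) x := by
        intro x
        rw [← bb_mul]
        conv_lhs => rw [SS]
        rw [Finset.mul_sum]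
        refine Finset.sum_congr rfl fun n _ => ?_
        unfold gg
        ring
      simp only [e4]
      rw [integral_finset_sum]
      · refine Finset.sum_congr rfl fun n _ => ?_
        rw [integral_const_mul]
        rfl
      · intro n _
        exact (int_gg hb hb1 hfin (vv X n)).const_mul _
    have e5 : ∫ x in W, ‖SS X N a x‖ = ‖((∫ x in W, ‖SS X N a x‖ : ℝ) : ℂ)‖ := by
      rw [Complex.norm_real, Real.norm_of_nonneg]
      exact integral_nonneg fun x => norm_nonneg _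
    rw [e5, e3] at e1
    refine e1.trans ((norm_sum_le _ _).trans (Finset.sum_le_sum fun n _ => ?_))
    rw [norm_mul]
    exact mul_le_of_le_one_left (norm_nonneg _) (ha n)
  have hR : 0 ≤ Rr W := ENNReal.toReal_nonneg
  -- Cauchy-Schwarz
  have h2 : V ^ 2 * Rr W ^ 2 ≤ (∑ n ∈ Finset.Ioc ⌊N⌋₊ ⌊2 * N⌋₊,
      ‖BB (bb X N a) W (vv X n)‖) ^ 2 := by
    rw [← mul_pow]
    exact pow_le_pow_left₀ (mul_nonneg hV hR) h1 2
  have h3 : (∑ n ∈ Finset.Ioc ⌊N⌋₊ ⌊2 * N⌋₊, ‖BB (bb X N a) W (vv X n)‖) ^ 2 ≤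
      ((Finset.Ioc ⌊N⌋₊ ⌊2 * N⌋₊).card : ℝ) *
        ∑ n ∈ Finset.Ioc ⌊N⌋₊ ⌊2 * N⌋₊, ‖BB (bb X N a) W (vv X n)‖ ^ 2 :=
    sq_sum_le_card_mul_sum_sq
  have hN0 : 0 ≤ N := by linarith
  have h4 : ((Finset.Ioc ⌊N⌋₊ ⌊2 * N⌋₊).card : ℝ) ≤ 2 * N := by
    rw [Nat.card_Ioc]
    refine le_trans ?_ (Nat.floor_le (by linarith : (0 : ℝ) ≤ 2 * N))
    exact_mod_cast Nat.sub_le _ _
  have h5 : ∑ n ∈ Finset.Ioc ⌊N⌋₊ ⌊2 * N⌋₊, ‖BB (bb X N a) W (vv X n)‖ ^ 2 ≤
      ∑ n ∈ FR N, om ((n : ℝ) / N) * ‖BB (bb X N a) W (vv X n)‖ ^ 2 := by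
    calc ∑ n ∈ Finset.Ioc ⌊N⌋₊ ⌊2 * N⌋₊, ‖BB (bb X N a) W (vv X n)‖ ^ 2
        = ∑ n ∈ Finset.Ioc ⌊N⌋₊ ⌊2 * N⌋₊,
            om ((n : ℝ) / N) * ‖BB (bb X N a) W (vv X n)‖ ^ 2 := by
          refine Finset.sum_congr rfl fun n hn => ?_
          rw [Finset.mem_Ioc] at hn
          have g1 : N < n := (Nat.floor_lt hN0).mp hn.1
          have g2 : (n : ℝ) ≤ 2 * N := (Nat.le_floor_iff (by linarith)).mp hn.2
          rw [om_one, one_mul]
          · rw [le_div_iff₀ (by linarith)]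
            linarith
          · rw [div_le_iff₀ (by linarith)]
            exact g2
      _ ≤ ∑ n ∈ FR N, om ((n : ℝ) / N) * ‖BB (bb X N a) W (vv X n)‖ ^ 2 := by
          refine Finset.sum_le_sum_of_subset_of_nonneg ?_ fun n _ _ =>
            mul_nonneg (om_nonneg _) (sq_nonneg _)
          intro n hn
          rw [Finset.mem_Ioc] at hn
          rw [FR, Finset.mem_range, Nat.lt_succ_iff]
          have g2 : (n : ℝ) ≤ 2 * N := (Nat.le_floor_iff (by linarith)).mp hn.2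
          have g3 : (n : ℝ) ≤ (⌈5 / 2 * N⌉₊ : ℝ) := by
            refine le_trans ?_ (Nat.le_ceil _)
            linarith
          exact_mod_cast g3
  rw [Complex.norm_real, Real.norm_of_nonneg (Finset.sum_nonneg fun n _ =>
    mul_nonneg (om_nonneg _) (sq_nonneg _))]
  calc V ^ 2 * Rr W ^ 2 ≤ _ := h2
    _ ≤ _ := h3
    _ ≤ 2 * N * ∑ n ∈ Finset.Ioc ⌊N⌋₊ ⌊2 * N⌋₊, ‖BB (bb X N a) W (vv X n)‖ ^ 2 :=
        mul_le_mul_of_nonneg_right h4 (Finset.sum_nonneg fun _ _ => sq_nonneg _)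
    _ ≤ _ := mul_le_mul_of_nonneg_left h5 (by linarith)

end Pool.Agent.Work.MP_56b8f5_nt.UB
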