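import Pool.Agent.Work.MP_56b8f5_nt.UB.Stmts

/-!
MP_56b8f5_nt, block UB: item FJ (combination of FJa and FJb).
-/

open MeasureTheory Set Filter Topology

noncomputable section

namespace Pool.Agent.Work.MP_56b8f5_nt.UB

theorem iFJ (hFJa : StFJa) (hFJb : StFJb) : StFJ := by
  intro φ Θ hP ε hε hε1
  obtain ⟨C', C1, hC', hC1, ha⟩ := hFJa φ Θ hP ε hε hε1
  obtain ⟨C2, hC2, hb⟩ := hFJb φ Θ hP ε C' hε hε1 hC'
  -- a threshold for T
  have hlim : Tendsto (fun T : ℝ => T ^ ε) atTop atTop := tendsto_rpow_atTop hε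
  obtain ⟨T0, hT0⟩ := (hlim.eventually_ge_atTop C2).exists_forall_of_atTop
  set C : ℝ := max (max (max C1 C2) (max T0 2)) (C1 * (2 / ε) * C2) with hCdef
  have hCC1 : C1 ≤ C := le_trans (le_trans (le_max_left _ _) (le_max_left _ _)) (le_max_left _ _)
  have hCC2 : C2 ≤ C := le_trans (le_trans (le_max_right _ _) (le_max_left _ _)) (le_max_left _ _)
  have hCT0 : T0 ≤ C := le_trans (le_trans (le_max_left _ _) (le_max_right _ _)) (le_max_left _ _)
  have hC2' : 2 ≤ C := le_trans (le_trans (le_max_right _ _) (le_max_right _ _)) (le_max_left _ _)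
  have hCp : C1 * (2 / ε) * C2 ≤ C := le_max_right _ _
  refine ⟨2 * C', C, by linarith, hC2', ?_⟩
  intro T V β hT hV1 hV2 hβ hblock
  have hTpos : 0 < T := by linarith
  have hT1 : 1 ≤ T := by linarith
  have h1 := ha T V (hCC1.trans hT) hV1 hV2
  set G : ℝ := V ^ 2 * T ^ (-(ε / 4)) with hG
  have hVpos : 0 < V := lt_of_lt_of_le (Real.rpow_pos_of_pos hTpos _) hV1
  have hGpos : 0 < G := by positivity
  have hTe : C2 ≤ T ^ ε := hT0 T (hCT0.trans hT)
  have hG1 : C2 ≤ G := by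
    have h2 : T ^ ε ≤ G := by
      have h3 : (T ^ ε) ^ 2 ≤ V ^ 2 := pow_le_pow_left₀ (by positivity) hV1 2
      calc T ^ ε ≤ T ^ (ε * 2 + -(ε / 4)) := Real.rpow_le_rpow_of_exponent_le hT1 (by linarith)
        _ = T ^ (ε * 2) * T ^ (-(ε / 4)) := Real.rpow_add hTpos _ _
        _ = (T ^ ε) ^ 2 * T ^ (-(ε / 4)) := by rw [← Real.rpow_natCast (T ^ ε) 2, ← Real.rpow_mul hTpos.le]; norm_num
        _ ≤ V ^ 2 * T ^ (-(ε / 4)) := by gcongr
    exact hTe.trans h2
  have hG2 : G ^ 2 ≤ T := by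
    have h4 : V ^ 4 ≤ T := by
      calc V ^ 4 ≤ (T ^ (1 / 4 : ℝ)) ^ 4 := pow_le_pow_left₀ hVpos.le hV2 4
        _ = T := by
          rw [← Real.rpow_natCast, ← Real.rpow_mul hTpos.le]; norm_num
    have h5 : T ^ (-(ε / 4)) ≤ 1 := Real.rpow_le_one_of_one_le_of_nonpos hT1 (by linarith)
    calc G ^ 2 = V ^ 4 * (T ^ (-(ε / 4))) ^ 2 := by rw [hG]; ring
      _ ≤ V ^ 4 * 1 := by
        apply mul_le_mul_of_nonneg_left _ (by positivity)
        exact pow_le_one₀ (by positivity) h5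
      _ ≤ T := by linarith
  have h6 := hb T G β (hCC2.trans hT) hG1 hG2 hβ (fun j a u ha' hu hj =>
    hblock j a u ha' hu (by simpa [mul_assoc] using hj))
  have hlog : Real.log T ≤ (2 / ε) * T ^ (ε / 2) := by
    have := Real.log_le_rpow_div hTpos.le (show 0 < ε / 2 by linarith)
    calc Real.log T ≤ T ^ (ε / 2) / (ε / 2) := this
      _ = (2 / ε) * T ^ (ε / 2) := by field_simp
  have hlog0 : 0 ≤ Real.log T := Real.log_nonneg hT1
  have hC1p : 0 < C1 := by linarith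
  calc JV T V ≤ C1 * Real.log T * _ := h1
    _ ≤ C1 * Real.log T * (C2 * T ^ (ε / 2) * β) := by
      apply mul_le_mul_of_nonneg_left h6 (by positivity)
    _ ≤ C1 * ((2 / ε) * T ^ (ε / 2)) * (C2 * T ^ (ε / 2) * β) := by
      have : 0 ≤ C2 * T ^ (ε / 2) * β := by positivity
      gcongr
    _ = C1 * (2 / ε) * C2 * (T ^ (ε / 2) * T ^ (ε / 2)) * β := by ring
    _ = C1 * (2 / ε) * C2 * T ^ ε * β := by
      rw [← Real.rpow_add hTpos]; congr 3; ring
    _ ≤ C * T ^ ε * β := by gcongr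

theorem iMain (hMA : StMA) : StMain := by
  intro ε hε
  obtain ⟨C, hC⟩ := hMA 8 ε (by norm_num) (by norm_num) hε
  refine ⟨C, fun T hT => ?_⟩
  have h := hC T hT
  have e1 : (1 + (8 - 4) / 8 - min (8 - 4) (12 - 8) / 800 + ε : ℝ) = 3 / 2 - 1 / 200 + ε := by norm_num
  rw [e1] at h
  refine le_trans (le_of_eq ?_) h
  congr 1
  funext t
  exact (Real.rpow_natCast _ 8).symm

end Pool.Agent.Work.MP_56b8f5_nt.UB
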