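import Pool.Agent.Work.MP_56b8f5_nt.UB.Stmts
import Pool.Agent.Work.MP_56b8f5_nt.EM.Stmts

/-!
MP_56b8f5_nt, block UB, item FJa: from `J(V)` to the dual sum.
-/

open MeasureTheory Set Filter Topology

noncomputable section

namespace Pool.Agent.Work.MP_56b8f5_nt.UB

namespace FJa_aux

/-- the square of `P` -/
def pp (T t : ℝ) : ℝ := ‖EM.P (T ^ 2) t‖ ^ 2

theorem pp_nonneg (T t : ℝ) : 0 ≤ pp T t := by unfold pp; positivity

theorem pp_cont (hPc : EM.StPc) {T : ℝ} (hT : 1 ≤ T) : Continuous (pp T) := by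
  have h := (hPc (T ^ 2) (by nlinarith)).1
  unfold pp
  exact h.norm.pow 2

theorem pp_le (hPc : EM.StPc) {T : ℝ} (hT : 1 ≤ T) (t : ℝ) : pp T t ≤ 4 * T ^ 2 := by
  have h := (hPc (T ^ 2) (by nlinarith)).2.1 t
  rw [Real.sqrt_sq (by linarith)] at h
  unfold pp
  nlinarith [norm_nonneg (EM.P (T ^ 2) t)]

/-- integrability of the weighted short mean square -/
theorem integrable_w (hPc : EM.StPc) {φ Θ : ℝ → ℝ} (hφ : IsPhi φ Θ) {T G : ℝ} (hT : 1 ≤ T) (hG : 0 < G)
    (r : ℝ) : Integrable fun t => φ ((t - r) / G) * pp T t := by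
  obtain ⟨C, hC⟩ := hφ.dec
  have hg : Integrable fun t : ℝ => (1 + ((t - r) / G) ^ 2)⁻¹ :=
    (integrable_inv_one_add_sq.comp_div hG.ne').comp_sub_right r
  have hg2 := hg.const_mul (|C| * (4 * T ^ 2))
  refine hg2.mono' ?_ ?_
  · refine Continuous.aestronglyMeasurable ?_
    refine Continuous.mul ?_ (pp_cont hPc hT)
    exact hφ.cont.comp (by fun_prop)
  · refine Eventually.of_forall fun t => ?_
    have h0 := hφ.nonneg ((t - r) / G)
    have h1 := pp_nonneg T t
    rw [Real.norm_of_nonneg (mul_nonneg h0 h1)]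
    have h2 : φ ((t - r) / G) ≤ |C| * (1 + ((t - r) / G) ^ 2)⁻¹ := by
      refine (hC _).trans ?_
      set z := (t - r) / G
      have hz : 1 ≤ 1 + z ^ 2 := by nlinarith [sq_nonneg z]
      have hz0 : 0 < 1 + z ^ 2 := by linarith
      calc C / (1 + z ^ 2) ^ 2 ≤ |C| / (1 + z ^ 2) ^ 2 :=
            div_le_div_of_nonneg_right (le_abs_self C) (by positivity)
        _ ≤ |C| / (1 + z ^ 2) := by
            refine div_le_div_of_nonneg_left (abs_nonneg C) hz0 ?_
            nlinarith
        _ = _ := by rw [div_eq_mul_inv]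
    calc φ ((t - r) / G) * pp T t ≤ |C| * (1 + ((t - r) / G) ^ 2)⁻¹ * (4 * T ^ 2) :=
          mul_le_mul h2 (pp_le hPc hT t) h1 (by positivity)
      _ = _ := by ring

theorem IG_eq (φ : ℝ → ℝ) (T G r : ℝ) : IG φ T G r = ∫ t : ℝ, φ ((t - r) / G) * pp T t := by
  unfold IG pp
  rw [← integral_add_left_eq_self (fun t => φ ((t - r) / G) * ‖EM.P (T ^ 2) t‖ ^ 2) r]
  refine integral_congr_ae (Eventually.of_forall fun u => ?_)
  simp only [add_sub_cancel_left]

/-- the short mean square dominates the integral over subintervals of `[r-G, r+G]` -/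
theorem IG_ge (hPc : EM.StPc) {φ Θ : ℝ → ℝ} (hφ : IsPhi φ Θ) {T G : ℝ} (hT : 1 ≤ T) (hG : 0 < G)
    (r a b : ℝ) (ha : r - G ≤ a) (hb : b ≤ r + G) :
    ∫ t in Icc a b, pp T t ≤ IG φ T G r := by
  rw [IG_eq]
  have hi := integrable_w hPc hφ hT hG r
  have h1 : ∫ t in Icc a b, pp T t ≤ ∫ t in Icc a b, φ ((t - r) / G) * pp T t := by
    refine setIntegral_mono_on ((pp_cont hPc hT).continuousOn.integrableOn_Icc) hi.integrableOn
      measurableSet_Icc ?_
    intro t ht
    have hz : |(t - r) / G| ≤ 1 := by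
      rw [abs_div, abs_of_pos hG, div_le_one hG, abs_le]
      exact ⟨by linarith [ht.1], by linarith [ht.2]⟩
    have := hφ.one_le _ hz
    nlinarith [pp_nonneg T t]
  refine h1.trans (setIntegral_le_integral hi ?_)
  exact Eventually.of_forall fun t => mul_nonneg (hφ.nonneg _) (pp_nonneg T t)

/-- the abstract averaging argument -/
theorem average (p D : ℝ → ℝ) (B S : Set ℝ) (G A : ℝ) (hG : 0 < G) (hA : 0 ≤ A)
    (hp : Continuous p) (hp0 : ∀ t, 0 ≤ p t) (hB : MeasurableSet B) (hBi : IntegrableOn p B)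
    (hS : MeasurableSet S) (hDi : IntegrableOn D S) (hD0 : ∀ r, 0 ≤ D r)
    (key : ∀ r t, t ∈ B → |t - r| ≤ G / 8 →
      r ∈ S ∧ ∫ t in Icc (r - G / 8) (r + G / 8), p t ≤ A * G * D r) :
    ∫ t in B, p t ≤ 4 * A * ∫ r in S, D r := by
  set F : ℝ → ENNReal := B.indicator fun t => ENNReal.ofReal (p t) with hF
  have hFm : Measurable F := (ENNReal.measurable_ofReal.comp hp.measurable).indicator hB
  have e1 : ENNReal.ofReal (∫ t in B, p t) = ∫⁻ t, F t := by
    rw [ofReal_integral_eq_lintegral_ofReal hBi (Eventually.of_forall hp0), hF,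
      lintegral_indicator hB]
  set k : ℝ → ℝ → ENNReal := fun t r => if |t - r| ≤ G / 8 then 1 else 0 with hk
  have hkm : Measurable (Function.uncurry fun t r => F t * k t r) := by
    refine Measurable.mul (hFm.comp measurable_fst) ?_
    refine Measurable.ite ?_ measurable_const measurable_const
    refine measurableSet_le ?_ measurable_const
    exact (continuous_abs.comp (continuous_fst.sub continuous_snd)).measurable
  have e2 : ∀ t, ∫⁻ r, F t * k t r = F t * ENNReal.ofReal (G / 4) := by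
    intro t
    have hkt : Measurable (k t) := by
      refine Measurable.ite ?_ measurable_const measurable_const
      refine measurableSet_le ?_ measurable_const
      exact (continuous_abs.comp (continuous_const.sub continuous_id)).measurable
    rw [lintegral_const_mul _ hkt]
    congr 1
    have : k t = (Icc (t - G / 8) (t + G / 8)).indicator 1 := by
      funext r
      simp only [hk, indicator, mem_Icc, Pi.one_apply]
      refine if_congr ?_ rfl rfl
      rw [abs_le]
      constructor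
      · rintro ⟨h1, h2⟩; exact ⟨by linarith, by linarith⟩
      · rintro ⟨h1, h2⟩; exact ⟨by linarith, by linarith⟩
    rw [this, lintegral_indicator_one measurableSet_Icc, Real.volume_Icc]
    congr 1; ring
  have e3 : (∫⁻ t, F t) * ENNReal.ofReal (G / 4) = ∫⁻ r, ∫⁻ t, F t * k t r := by
    rw [← lintegral_lintegral_swap hkm.aemeasurable, ← lintegral_mul_const _ hFm]
    exact lintegral_congr fun t => (e2 t).symm
  have hpt : ∀ r, ∫⁻ t, F t * k t r ≤ S.indicator (fun r => ENNReal.ofReal (A * G * D r)) r := by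
    intro r
    by_cases hex : ∃ t, t ∈ B ∧ |t - r| ≤ G / 8
    · obtain ⟨t0, ht0, ht0'⟩ := hex
      obtain ⟨hrS, hle⟩ := key r t0 ht0 ht0'
      rw [indicator_of_mem hrS]
      refine le_trans ?_ (ENNReal.ofReal_le_ofReal hle)
      rw [ofReal_integral_eq_lintegral_ofReal hp.continuousOn.integrableOn_Icc
        (Eventually.of_forall hp0), ← lintegral_indicator measurableSet_Icc]
      refine lintegral_mono fun t => ?_
      by_cases h1 : |t - r| ≤ G / 8
      · have hm : t ∈ Icc (r - G / 8) (r + G / 8) := by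
          rw [abs_le] at h1; exact ⟨by linarith [h1.1], by linarith [h1.2]⟩
        rw [indicator_of_mem hm]
        simp only [hk, if_pos h1, mul_one, hF]
        exact indicator_le_self' (fun _ _ => zero_le) t
      · simp only [hk, if_neg h1, mul_zero]
        exact zero_le
    · have : ∀ t, F t * k t r = 0 := by
        intro t
        by_cases h1 : |t - r| ≤ G / 8
        · have : t ∉ B := fun h => hex ⟨t, h, h1⟩
          simp only [hF, indicator_of_notMem this, zero_mul]
        · simp only [hk, if_neg h1, mul_zero]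
      simp only [this, lintegral_zero]
      exact zero_le
  have hDi' : IntegrableOn (fun r => A * G * D r) S := hDi.const_mul _
  have e4 : ∫⁻ r, S.indicator (fun r => ENNReal.ofReal (A * G * D r)) r =
      ENNReal.ofReal (∫ r in S, A * G * D r) := by
    rw [ofReal_integral_eq_lintegral_ofReal hDi'
      (Eventually.of_forall fun r => mul_nonneg (mul_nonneg hA hG.le) (hD0 r)),
      lintegral_indicator hS]
  have e5 : ENNReal.ofReal (∫ t in B, p t) * ENNReal.ofReal (G / 4) ≤
      ENNReal.ofReal (∫ r in S, A * G * D r) := by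
    rw [e1, e3, ← e4]
    exact lintegral_mono hpt
  have hI0 : 0 ≤ ∫ r in S, A * G * D r :=
    integral_nonneg fun r => mul_nonneg (mul_nonneg hA hG.le) (hD0 r)
  rw [← ENNReal.ofReal_mul (integral_nonneg hp0), ENNReal.ofReal_le_ofReal_iff hI0,
    integral_const_mul] at e5
  have : (∫ t in B, p t) * G ≤ (4 * A * ∫ r in S, D r) * G := by
    calc (∫ t in B, p t) * G = 4 * ((∫ t in B, p t) * (G / 4)) := by ring
      _ ≤ 4 * (A * G * ∫ r in S, D r) := by linarith
      _ = _ := by ring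
  exact le_of_mul_le_mul_right this hG

/-- the dual sum is continuous on `[T/2, 4T]` -/
theorem DS_cont {Θ : ℝ → ℝ} {T G C' : ℝ} (hT : 0 < T)
    (h : ∀ n : ℕ, 1 ≤ n → (n : ℝ) ≤ C' * T / G ^ 2 → ContinuousOn (JJ Θ T G n) (sI T)) (hC' : 0 ≤ C') :
    ContinuousOn (fun r => ‖DS Θ T G C' r‖) (Icc (T / 2) (4 * T)) := by
  refine ContinuousOn.norm ?_
  unfold DS
  refine continuousOn_finsetSum _ fun n hn => ?_
  rw [Finset.mem_Icc] at hn
  have hn2 : (n : ℝ) ≤ C' * T / G ^ 2 := by
    refine le_trans ?_ (Nat.floor_le (by positivity))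
    exact_mod_cast hn.2
  have hJ := h n hn.1 hn2
  refine ContinuousOn.mul continuousOn_const ?_
  refine hJ.comp (by fun_prop) ?_
  intro r hr
  have hpi := Real.pi_pos
  unfold sI
  constructor
  · rw [div_le_div_iff₀ (by positivity) (by positivity)]
    nlinarith [hr.1, mul_pos hpi hT, mul_le_mul_of_nonneg_right hr.1 hpi.le]
  · rw [div_le_div_iff₀ (by positivity) (by positivity)]
    nlinarith [hr.2, mul_le_mul_of_nonneg_right hr.2 hpi.le]

/-- the large parameter -/
theorem large (ε K R : ℝ) (hε : 0 < ε) (hK : 0 ≤ K) : ∃ T0 : ℝ, 2 ≤ T0 ∧ ∀ T : ℝ, T0 ≤ T →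
    R ≤ T ∧ 1 ≤ Real.log T ∧ R ≤ T ^ (7 * ε / 4) ∧ 2 * T ^ ε ≤ T ^ (7 * ε / 4) ∧
    K * Real.log T ^ 2 + R + K * Real.log T * T ^ (ε / 8) < T ^ (ε / 4) := by
  have t1 : ∀ δ : ℝ, 0 < δ → ∀ c : ℝ, ∀ᶠ T : ℝ in atTop, c ≤ T ^ δ := fun δ hδ c =>
    (tendsto_rpow_atTop hδ).eventually_ge_atTop c
  have hc : 0 < 1 / (4 * (K + 1)) := by positivity
  have t2 : ∀ᶠ T : ℝ in atTop, ‖Real.log T‖ ≤ 1 / (4 * (K + 1)) * ‖T ^ (ε / 16)‖ :=
    (isLittleO_log_rpow_atTop (show 0 < ε / 16 by linarith)).bound hc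
  have t3 : ∀ᶠ T : ℝ in atTop, 1 ≤ Real.log T := Real.tendsto_log_atTop.eventually_ge_atTop 1
  have hall := (eventually_ge_atTop (max R 2)).and (t3.and ((t1 (7 * ε / 4) (by linarith) R).and
    ((t1 (3 * ε / 4) (by linarith) 2).and ((t1 (ε / 4) (by linarith) (8 * |R| + 8)).and t2))))
  obtain ⟨T1, hT1⟩ := eventually_atTop.1 hall
  refine ⟨max T1 2, le_max_right _ _, ?_⟩
  intro T hT
  obtain ⟨h1, h2, h3, h4, h5, h6⟩ := hT1 T ((le_max_left _ _).trans hT)
  have hTp : 0 < T := by linarith [le_max_right R 2]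
  have hTone : 1 ≤ T := by linarith [le_max_right R 2]
  refine ⟨(le_max_left _ _).trans h1, h2, h3, ?_, ?_⟩
  · have : T ^ (7 * ε / 4) = T ^ (3 * ε / 4) * T ^ ε := by
      rw [← Real.rpow_add hTp]; congr 1; ring
    rw [this]
    exact mul_le_mul_of_nonneg_right h4 (by positivity)
  · have hL0 : 0 ≤ Real.log T := by linarith
    have hx0 : 0 < T ^ (ε / 16) := by positivity
    rw [Real.norm_of_nonneg hL0, Real.norm_of_nonneg hx0.le] at h6
    set x := T ^ (ε / 16) with hx
    have hx1 : 1 ≤ x := Real.one_le_rpow hTone (by linarith)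
    have e8 : T ^ (ε / 8) = x ^ 2 := by
      rw [hx, ← Real.rpow_natCast, ← Real.rpow_mul hTp.le]; congr 1; push_cast; ring
    have e4 : T ^ (ε / 4) = x ^ 4 := by
      rw [hx, ← Real.rpow_natCast, ← Real.rpow_mul hTp.le]; congr 1; push_cast; ring
    rw [e8, e4]
    rw [e4] at h5
    set L := Real.log T with hL
    have hKL : K * L ≤ x / 4 := by
      have : K * L ≤ (K + 1) * (1 / (4 * (K + 1)) * x) := by
        calc K * L ≤ (K + 1) * L := by nlinarith
          _ ≤ _ := mul_le_mul_of_nonneg_left h6 (by positivity)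
      refine this.trans (le_of_eq ?_)
      field_simp
    have hLx : L ≤ x := by
      refine h6.trans ?_
      have : 1 / (4 * (K + 1)) ≤ 1 := by
        rw [div_le_one (by positivity)]; nlinarith
      nlinarith
    have hx3 : x ^ 3 ≤ x ^ 4 := pow_le_pow_right₀ hx1 (by norm_num)
    have hx24 : x ^ 2 ≤ x ^ 4 := pow_le_pow_right₀ hx1 (by norm_num)
    have hx4 : 0 < x ^ 4 := by positivity
    have a1 : K * L ^ 2 ≤ x ^ 4 / 4 := by
      calc K * L ^ 2 = (K * L) * L := by ring
        _ ≤ x / 4 * x := mul_le_mul hKL hLx hL0 (by positivity)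
        _ = x ^ 2 / 4 := by ring
        _ ≤ _ := by linarith
    have a2 : K * L * x ^ 2 ≤ x ^ 4 / 4 := by
      calc K * L * x ^ 2 ≤ x / 4 * x ^ 2 := mul_le_mul_of_nonneg_right hKL (by positivity)
        _ = x ^ 3 / 4 := by ring
        _ ≤ _ := by linarith
    have a3 : R ≤ x ^ 4 / 8 := by
      have := le_abs_self R
      linarith
    linarith

end FJa_aux

open FJa_aux in
theorem iFJa (hDD : StDD) (hRp : StRp) (hMb : StMb) (hPc : EM.StPc) : StFJa := by
  intro φ Θ hφ ε hε hε1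
  obtain ⟨C', CD, hC', hCD, hdd⟩ := hDD φ Θ hφ
  obtain ⟨CR, hCR, hrp⟩ := hRp ε hε
  obtain ⟨CM, hCM, hmb⟩ := hMb φ Θ hφ C' hC'
  obtain ⟨T0, hT0, hlar⟩ := large ε (CR * CD) (CD + CR + CM) hε (by positivity)
  refine ⟨C', max T0 (8 * CD), hC', hT0.trans (le_max_left _ _), ?_⟩
  intro T V hT hV1 hV2
  obtain ⟨l1, l2, l3, l4, l5⟩ := hlar T ((le_max_left _ _).trans hT)
  have hT2 : 2 ≤ T := hT0.trans ((le_max_left _ _).trans hT)
  have hTp : 0 < T := by linarith
  have hT1 : 1 ≤ T := by linarith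
  have hVp : 0 < V := lt_of_lt_of_le (by positivity) hV1
  set G := V ^ 2 * T ^ (-(ε / 4)) with hG
  have hq : 0 < T ^ (-(ε / 4)) := by positivity
  have hGp : 0 < G := by positivity
  have hVG : V ^ 2 = G * T ^ (ε / 4) := by
    rw [hG, mul_assoc, ← Real.rpow_add hTp]; simp
  -- `G ≥ T^(7ε/4)`
  have hG1 : T ^ (7 * ε / 4) ≤ G := by
    have h1 : (T ^ ε) ^ 2 ≤ V ^ 2 := pow_le_pow_left₀ (by positivity) hV1 2
    have h2 : T ^ (7 * ε / 4) = (T ^ ε) ^ 2 * T ^ (-(ε / 4)) := by
      rw [← Real.rpow_natCast, ← Real.rpow_mul hTp.le, ← Real.rpow_add hTp]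
      congr 1; push_cast; ring
    rw [h2, hG]
    exact mul_le_mul_of_nonneg_right h1 hq.le
  have hG2 : G ^ 2 ≤ T := by
    have h1 : V ^ 4 ≤ T := by
      have := pow_le_pow_left₀ hVp.le hV2 4
      rwa [← Real.rpow_natCast (T ^ (1 / 4 : ℝ)), ← Real.rpow_mul hTp.le,
        show (1 / 4 : ℝ) * ((4 : ℕ) : ℝ) = 1 by norm_num, Real.rpow_one] at this
    have h2 : T ^ (-(ε / 4)) ≤ 1 := Real.rpow_le_one_of_one_le_of_nonpos hT1 (by linarith)
    calc G ^ 2 = V ^ 4 * (T ^ (-(ε / 4))) ^ 2 := by rw [hG]; ring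
      _ ≤ V ^ 4 * 1 := by
          refine mul_le_mul_of_nonneg_left ?_ (by positivity)
          nlinarith
      _ ≤ T := by linarith
  have hGone : 1 ≤ G := by
    have : (2 : ℝ) ≤ CD + CR + CM := by linarith
    linarith
  have hGT : G ≤ T := by nlinarith
  have hCDG : CD ≤ G := by linarith
  have hCMG : CM ≤ G := by linarith
  have hTe : 2 * T ^ ε ≤ G := l4.trans hG1
  have hTe0 : 0 < T ^ ε := by positivity
  obtain ⟨hJc, -⟩ := hmb T G (by linarith) hCMG hG2
  have hDc := DS_cont (C' := C') hTp hJc (by linarith)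
  set S : Set ℝ := {r : ℝ | r ∈ Icc (T / 2) (4 * T) ∧ T ^ (ε / 8) ≤ ‖DS Θ T G C' r‖} with hS
  have hSm : MeasurableSet S := by
    have : IsClosed S := by
      have hcl := hDc.preimage_isClosed_of_isClosed isClosed_Icc (isClosed_Ici (a := T ^ (ε / 8)))
      exact hcl
    exact this.measurableSet
  have hSs : S ⊆ Icc (T / 2) (4 * T) := fun r hr => hr.1
  have hDi : IntegrableOn (fun r => ‖DS Θ T G C' r‖) S :=
    (hDc.integrableOn_compact isCompact_Icc).mono_set hSs
  have hL1 : 1 ≤ Real.log T := l2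
  have hTe8 : 1 ≤ T ^ (ε / 8) := Real.one_le_rpow hT1 (by linarith)
  -- the set of large values
  set B : Set ℝ := {t : ℝ | t ∈ Icc T (2 * T) ∧ V ≤ ‖EM.P (T ^ 2) t‖ ∧ ‖EM.P (T ^ 2) t‖ < 2 * V} with hB
  have hPcont : Continuous (EM.P (T ^ 2)) := (hPc (T ^ 2) (by nlinarith)).1
  have hBm : MeasurableSet B := by
    have h1 : MeasurableSet {t : ℝ | V ≤ ‖EM.P (T ^ 2) t‖} :=
      measurableSet_le measurable_const hPcont.norm.measurable
    have h2 : MeasurableSet {t : ℝ | ‖EM.P (T ^ 2) t‖ < 2 * V} :=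
      measurableSet_lt hPcont.norm.measurable measurable_const
    exact measurableSet_Icc.inter (h1.inter h2)
  have hBi : IntegrableOn (pp T) B :=
    ((pp_cont hPc hT1).continuousOn.integrableOn_Icc (μ := volume) (a := T) (b := 2 * T)).mono_set
      (fun t ht => ht.1)
  have key : ∀ r t, t ∈ B → |t - r| ≤ G / 8 →
      r ∈ S ∧ ∫ t in Icc (r - G / 8) (r + G / 8), pp T t ≤ (2 * CD * Real.log T) * G *
        ‖DS Θ T G C' r‖ := by
    intro r t ht htr
    rw [abs_le] at htr
    have hr : r ∈ Icc (T / 2) (4 * T) :=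
      ⟨by linarith [ht.1.1, htr.2], by linarith [ht.1.2, htr.1]⟩
    have hIG := hdd T G r (by linarith) hCDG hG2 hr.1 hr.2
    have hR := hrp T t (by linarith)
    have hint : (∫ u in (-(T ^ ε))..(T ^ ε), ‖EM.P (T ^ 2) (t + u)‖ ^ 2) ≤ IG φ T G r := by
      have h1 : (∫ u in (-(T ^ ε))..(T ^ ε), ‖EM.P (T ^ 2) (t + u)‖ ^ 2) =
          ∫ u in (t + -(T ^ ε))..(t + T ^ ε), pp T u :=
        intervalIntegral.integral_comp_add_left (fun u => pp T u) t
      rw [h1, intervalIntegral.integral_of_le (by linarith), ← integral_Icc_eq_integral_Ioc]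
      exact IG_ge hPc hφ hT1 hGp r _ _ (by linarith) (by linarith)
    have hD0 : 0 ≤ ‖DS Θ T G C' r‖ := norm_nonneg _
    set D := ‖DS Θ T G C' r‖ with hD
    set L := Real.log T with hL
    have hchain : G * T ^ (ε / 4) ≤ CR * L * (CD * G * L + CD * G * D) + CR := by
      rw [← hVG]
      calc V ^ 2 ≤ ‖EM.P (T ^ 2) t‖ ^ 2 := pow_le_pow_left₀ hVp.le ht.2.1 2
        _ ≤ _ := hR
        _ ≤ CR * L * (IG φ T G r) + CR := by
            have : 0 ≤ CR * L := by positivity
            nlinarith [mul_le_mul_of_nonneg_left hint this]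
        _ ≤ _ := by
            have : 0 ≤ CR * L := by positivity
            nlinarith [mul_le_mul_of_nonneg_left hIG this]
    have hDl : T ^ (ε / 8) ≤ D := by
      by_contra hcon
      push Not at hcon
      have h1 : G * T ^ (ε / 4) ≤ G * (CR * CD * L ^ 2 + CR + CR * CD * L * T ^ (ε / 8)) := by
        calc G * T ^ (ε / 4) ≤ _ := hchain
          _ = G * (CR * CD * L ^ 2 + CR * CD * L * D) + CR := by ring
          _ ≤ G * (CR * CD * L ^ 2 + CR * CD * L * T ^ (ε / 8)) + G * CR := by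
              have h2 : CR * CD * L * D ≤ CR * CD * L * T ^ (ε / 8) :=
                mul_le_mul_of_nonneg_left hcon.le (by positivity)
              have h3 : CR ≤ G * CR := by nlinarith
              have := mul_le_mul_of_nonneg_left h2 hGp.le
              nlinarith
          _ = _ := by ring
      have h2 := le_of_mul_le_mul_left h1 hGp
      have : CR ≤ CD + CR + CM := by linarith
      linarith
    refine ⟨⟨hr, hDl⟩, ?_⟩
    have h3 : ∫ t in Icc (r - G / 8) (r + G / 8), pp T t ≤ IG φ T G r :=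
      IG_ge hPc hφ hT1 hGp r _ _ (by linarith) (by linarith)
    refine h3.trans (hIG.trans ?_)
    have hD1 : 1 ≤ D := hTe8.trans hDl
    have h4 : L ≤ L * D := by nlinarith
    have h5 : D ≤ L * D := by nlinarith
    have hCG : 0 ≤ CD * G := by positivity
    calc CD * G * L + CD * G * D ≤ CD * G * (L * D) + CD * G * (L * D) :=
          add_le_add (mul_le_mul_of_nonneg_left h4 hCG) (mul_le_mul_of_nonneg_left h5 hCG)
      _ = _ := by ring
  have hav := average (pp T) (fun r => ‖DS Θ T G C' r‖) B S G (2 * CD * Real.log T) hGp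
    (by positivity) (pp_cont hPc hT1) (pp_nonneg T) hBm hBi hSm hDi (fun r => norm_nonneg _) key
  have hI0 : 0 ≤ ∫ r in S, ‖DS Θ T G C' r‖ := integral_nonneg fun r => norm_nonneg _
  unfold JV
  calc _ ≤ 4 * (2 * CD * Real.log T) * ∫ r in S, ‖DS Θ T G C' r‖ := hav
    _ = (8 * CD) * (Real.log T * ∫ r in S, ‖DS Θ T G C' r‖) := by ring
    _ ≤ max T0 (8 * CD) * (Real.log T * ∫ r in S, ‖DS Θ T G C' r‖) :=
        mul_le_mul_of_nonneg_right (le_max_right _ _) (mul_nonneg (by linarith) hI0)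
    _ = _ := by ring

end Pool.Agent.Work.MP_56b8f5_nt.UB
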