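import Pool.Agent.Work.MP_56b8f5_nt.UB.Stmts
import Pool.Agent.Work.MP_cb106b_nt.Ct.DivB

/-!
MP_56b8f5_nt, block UB, item FJb: from the dual sum to blocks.
-/

open MeasureTheory Set Filter Topology

noncomputable section

namespace Pool.Agent.Work.MP_56b8f5_nt.UB

namespace FJb_aux

lemma sum_blocks (f : ℕ → ℂ) (J : ℕ) :
    ∑ j ∈ Finset.range J, ∑ n ∈ Finset.Ioc (2 ^ j) (2 ^ (j + 1)), f n =
      ∑ n ∈ Finset.Ioc 1 (2 ^ J), f n := by
  induction J with
  | zero => simp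
  | succ J ih =>
    rw [Finset.sum_range_succ, ih]
    exact Finset.sum_Ioc_consecutive f (Nat.one_le_two_pow)
      (Nat.pow_le_pow_right (by norm_num) (Nat.le_succ J))

lemma sum_Icc (f : ℕ → ℂ) (M : ℕ) (hM : 1 ≤ M) :
    ∑ n ∈ Finset.Icc 1 M, f n = f 1 + ∑ j ∈ Finset.range (Nat.log 2 M + 1),
      ∑ n ∈ Finset.Ioc (2 ^ j) (2 ^ (j + 1)), (if n ≤ M then f n else 0) := by
  rw [sum_blocks]
  have h1 : ∑ n ∈ Finset.Ioc 1 (2 ^ (Nat.log 2 M + 1)), (if n ≤ M then f n else 0) =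
      ∑ n ∈ Finset.Ioc 1 M, f n := by
    rw [← Finset.sum_filter]
    apply Finset.sum_congr _ (fun _ _ => rfl)
    ext n
    simp only [Finset.mem_filter, Finset.mem_Ioc]
    have := Nat.lt_pow_succ_log_self (b := 2) (by norm_num) M
    constructor
    · rintro ⟨⟨h1, h2⟩, h3⟩
      exact ⟨h1, h3⟩
    · rintro ⟨h1, h3⟩
      exact ⟨⟨h1, by omega⟩, h3⟩
  rw [h1, add_comm]
  exact (Finset.sum_Ioc_add_eq_sum_Icc hM).symm

lemma pick (J I : ℕ) (A B D : ℝ) (x : ℕ → ℝ) (hJ : 1 ≤ J) (hA : 1 ≤ A)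
    (hx : ∀ j, j < J → x j < 2 ^ I) (hD : D ≤ 1 + A * ∑ j ∈ Finset.range J, x j) (hBD : B ≤ D)
    (hB : 1 + A * J ≤ B) :
    ∃ j, j < J ∧ ∃ i, i < I ∧ (2 : ℝ) ^ i ≤ x j ∧ D ≤ 2 * A * J * (2 * 2 ^ i) := by
  obtain ⟨j, hj, hmax⟩ := Finset.exists_max_image (Finset.range J) x
    ⟨0, by rw [Finset.mem_range]; omega⟩
  have hJ' : (1 : ℝ) ≤ J := by exact_mod_cast hJ
  have hsum : ∑ k ∈ Finset.range J, x k ≤ J * x j := by
    calc ∑ k ∈ Finset.range J, x k ≤ ∑ k ∈ Finset.range J, x j :=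
          Finset.sum_le_sum (fun k hk => hmax k hk)
      _ = J * x j := by simp
  have hAJ : 1 ≤ A * J := by nlinarith
  have hD2 : D ≤ 1 + A * J * x j := by
    have : A * ∑ k ∈ Finset.range J, x k ≤ A * (J * x j) :=
      mul_le_mul_of_nonneg_left hsum (by linarith)
    nlinarith
  have h1 : 1 ≤ x j := by
    by_contra h
    push Not at h
    have : A * J * x j < A * J * 1 := mul_lt_mul_of_pos_left h (by linarith)
    linarith
  have hj' : j < J := Finset.mem_range.mp hj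
  have hfl : 1 ≤ ⌊x j⌋₊ := by
    rw [Nat.one_le_floor_iff]
    exact h1
  have hlow : (2 : ℝ) ^ (Nat.log 2 ⌊x j⌋₊) ≤ x j := by
    calc (2 : ℝ) ^ (Nat.log 2 ⌊x j⌋₊) = ((2 ^ (Nat.log 2 ⌊x j⌋₊) : ℕ) : ℝ) := by push_cast; rfl
      _ ≤ (⌊x j⌋₊ : ℝ) := by
          exact_mod_cast Nat.pow_log_le_self 2 (by omega)
      _ ≤ x j := Nat.floor_le (by linarith)
  have hup : x j < 2 * 2 ^ (Nat.log 2 ⌊x j⌋₊) := by
    have h2 : ⌊x j⌋₊ + 1 ≤ 2 ^ (Nat.log 2 ⌊x j⌋₊ + 1) :=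
      Nat.lt_pow_succ_log_self (b := 2) (by norm_num) _
    have h3 : ((⌊x j⌋₊ + 1 : ℕ) : ℝ) ≤ ((2 ^ (Nat.log 2 ⌊x j⌋₊ + 1) : ℕ) : ℝ) := by
      exact_mod_cast h2
    push_cast at h3
    have h4 := Nat.lt_floor_add_one (x j)
    rw [pow_succ] at h3
    linarith
  refine ⟨j, hj', Nat.log 2 ⌊x j⌋₊, ?_, hlow, ?_⟩
  · have h5 : (2 : ℝ) ^ (Nat.log 2 ⌊x j⌋₊) < 2 ^ I := lt_of_le_of_lt hlow (hx j hj')
    exact (pow_lt_pow_iff_right₀ (by norm_num : (1 : ℝ) < 2)).mp h5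
  · have h6 : 1 ≤ A * J * x j := by nlinarith
    have h7 : A * J * x j ≤ A * J * (2 * 2 ^ (Nat.log 2 ⌊x j⌋₊)) :=
      mul_le_mul_of_nonneg_left hup.le (by linarith)
    linarith

lemma log2_le (η T : ℝ) (hη : 0 < η) (hT : 1 ≤ T) :
    ((Nat.log 2 ⌊T ^ 2⌋₊ + 1 : ℕ) : ℝ) ≤ (1 + 2 / (η * Real.log 2)) * T ^ η := by
  have hl2 : 0 < Real.log 2 := Real.log_pos (by norm_num)
  have hTη : 1 ≤ T ^ η := Real.one_le_rpow hT hη.le
  have hT0 : (0 : ℝ) < T := by linarith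
  have hfl : 1 ≤ ⌊T ^ 2⌋₊ := by
    rw [Nat.one_le_floor_iff]
    nlinarith
  have h1 : ((2 : ℝ) ^ (Nat.log 2 ⌊T ^ 2⌋₊)) ≤ T ^ 2 := by
    calc (2 : ℝ) ^ (Nat.log 2 ⌊T ^ 2⌋₊) = ((2 ^ (Nat.log 2 ⌊T ^ 2⌋₊) : ℕ) : ℝ) := by
          push_cast; rfl
      _ ≤ (⌊T ^ 2⌋₊ : ℝ) := by exact_mod_cast Nat.pow_log_le_self 2 (by omega)
      _ ≤ T ^ 2 := Nat.floor_le (by positivity)
  have h2 : (Nat.log 2 ⌊T ^ 2⌋₊ : ℝ) * Real.log 2 ≤ 2 * Real.log T := by
    have := Real.log_le_log (by positivity) h1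
    rw [Real.log_pow, Real.log_pow] at this
    exact_mod_cast this
  have h3 : Real.log T ≤ T ^ η / η := Real.log_le_rpow_div (by linarith) hη
  have h4 : (Nat.log 2 ⌊T ^ 2⌋₊ : ℝ) ≤ 2 / (η * Real.log 2) * T ^ η := by
    have h5 : (Nat.log 2 ⌊T ^ 2⌋₊ : ℝ) ≤ 2 * (T ^ η / η) / Real.log 2 := by
      rw [le_div_iff₀ hl2]
      linarith
    calc _ ≤ _ := h5
      _ = _ := by field_simp
  push_cast
  rw [add_mul]
  linarith

lemma BS_sub {Θ : ℝ → ℝ} {T G N u : ℝ} {a : ℕ → ℂ} : BS Θ T G a N u ⊆ sI T := fun _ h => h.1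

lemma sI_map {T r : ℝ} (hr : r ∈ Icc (T / 2) (4 * T)) : r / (2 * Real.pi) ∈ sI T := by
  have hpi := Real.pi_pos
  constructor
  · rw [div_le_div_iff₀ (by positivity) (by positivity)]
    nlinarith [hr.1, hr.2]
  · rw [div_le_div_iff₀ (by positivity) (by positivity)]
    nlinarith [hr.1, hr.2]

lemma integral_ind (S : Set ℝ) (T c : ℝ) (hS : MeasurableSet S) (hsub : S ⊆ sI T) :
    Integrable (fun r : ℝ => c * S.indicator (fun _ => (1 : ℝ)) (r / (2 * Real.pi))) ∧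
    ∫ r : ℝ, c * S.indicator (fun _ => (1 : ℝ)) (r / (2 * Real.pi)) =
      c * (2 * Real.pi * Rr S) := by
  have hfin : volume S < ⊤ := by
    apply lt_of_le_of_lt (measure_mono hsub)
    unfold sI
    rw [Real.volume_Icc]
    exact ENNReal.ofReal_lt_top
  have hint : Integrable (S.indicator (fun _ => (1 : ℝ))) := by
    rw [integrable_indicator_iff hS]
    exact integrableOn_const hfin.ne
  refine ⟨(hint.comp_div (by positivity)).const_mul c, ?_⟩
  rw [integral_const_mul, MeasureTheory.Measure.integral_comp_div]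
  congr 1
  rw [abs_of_pos (by positivity), smul_eq_mul]
  congr 1
  have := MeasureTheory.integral_indicator_one (μ := volume) hS
  unfold Rr
  rw [← MeasureTheory.measureReal_def, ← this]
  rfl

end FJb_aux

open FJb_aux in
theorem iFJb (hAM : StAM) (hMb : StMb) : StFJb := by
  intro φ Θ hφ ε C' hε hε1 hC'
  obtain ⟨C1, hC1, hAM'⟩ := hAM φ Θ hφ (2 * C') (by linarith)
  obtain ⟨C2, hC2, hMb'⟩ := hMb φ Θ hφ (2 * C') (by linarith)
  obtain ⟨Cd, hCd, hdiv⟩ := Pool.Agent.Work.MP_cb106b_nt.Ct.divisor_bound (ε / 64) (by positivity)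
  set η : ℝ := ε / 64 with hη
  have hη0 : 0 < η := by positivity
  set K : ℝ := 1 + 2 / (η * Real.log 2) with hK
  have hl2 : 0 < Real.log 2 := Real.log_pos (by norm_num)
  have hK1 : 1 ≤ K := by
    have : 0 ≤ 2 / (η * Real.log 2) := by positivity
    linarith
  have hpi := Real.pi_pos
  have hX0 : 0 ≤ (2 * Cd * K) ^ (1 / η) := by positivity
  have hX1 : 0 ≤ 8 * Real.pi * Cd * K ^ 3 := by positivity
  have hX2 : 0 ≤ C1 ^ 4 := by positivity
  refine ⟨2 + C1 + C2 + C' + C1 ^ 4 + (2 * Cd * K) ^ (1 / η) + 8 * Real.pi * Cd * K ^ 3,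
    by linarith, ?_⟩
  intro T G β hT hG hGT hβ hyp
  have hT1 : 1 ≤ T := by linarith
  have hT0 : 0 < T := by linarith
  have hG1 : 1 ≤ G := by linarith
  have hG0 : 0 < G := by linarith
  have hG2 : 1 ≤ G ^ 2 := one_le_pow₀ hG1
  -- powers of T
  have hTη : 1 ≤ T ^ η := Real.one_le_rpow hT1 hη0.le
  have hTK : 2 * Cd * K ≤ T ^ η := by
    have h1 : (2 * Cd * K) ^ (1 / η) ≤ T := by linarith
    have h2 : ((2 * Cd * K) ^ (1 / η)) ^ η ≤ T ^ η := Real.rpow_le_rpow hX0 h1 hη0.le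
    rwa [← Real.rpow_mul (by positivity), one_div_mul_cancel hη0.ne', Real.rpow_one] at h2
  -- the length
  set N0 : ℝ := C' * T / G ^ 2 with hN0
  have hN01 : 1 ≤ N0 := by
    rw [hN0, le_div_iff₀ (by positivity), one_mul]
    exact le_trans hGT (le_mul_of_one_le_left hT0.le hC')
  have hN0T : N0 ≤ T ^ 2 := by
    rw [hN0, div_le_iff₀ (by positivity)]
    have h1 : C' ≤ T := by linarith
    calc C' * T ≤ T * T := mul_le_mul_of_nonneg_right h1 hT0.le
      _ = T ^ 2 := (sq T).symm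
      _ ≤ T ^ 2 * G ^ 2 := le_mul_of_one_le_right (sq_nonneg T) hG2
  set M : ℕ := ⌊N0⌋₊ with hM
  have hM1 : 1 ≤ M := by
    rw [hM, Nat.one_le_floor_iff]
    exact hN01
  have hMN : (M : ℝ) ≤ N0 := Nat.floor_le (by linarith)
  set J : ℕ := Nat.log 2 M + 1 with hJ
  set I : ℕ := Nat.log 2 ⌊T ^ 2⌋₊ + 1 with hI
  have hJ1 : 1 ≤ J := by omega
  have hJI : J ≤ I := by
    have : Nat.log 2 M ≤ Nat.log 2 ⌊T ^ 2⌋₊ := Nat.log_mono_right (Nat.floor_mono hN0T)
    omega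
  have hIK : (I : ℝ) ≤ K * T ^ η := log2_le η T hη0 hT1
  have hJK : (J : ℝ) ≤ K * T ^ η := le_trans (by exact_mod_cast hJI) hIK
  have hJ1' : (1 : ℝ) ≤ J := by exact_mod_cast hJ1
  have hI0 : (0 : ℝ) ≤ I := by positivity
  -- amplitude
  set A : ℝ := Cd * (T ^ η) ^ 2 with hA
  have hA1 : 1 ≤ A := by
    exact one_le_mul_of_one_le_of_one_le hCd (one_le_pow₀ hTη)
  have hA0 : 0 < A := by linarith
  have hdA : ∀ n : ℕ, 1 ≤ n → n ≤ M → (n.divisors.card : ℝ) ≤ A := by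
    intro n h1 h2
    have h3 := hdiv n h1
    have h4 : (n : ℝ) ≤ T ^ 2 := by
      have : (n : ℝ) ≤ M := by exact_mod_cast h2
      linarith
    have h5 : (n : ℝ) ^ η ≤ (T ^ 2) ^ η := Real.rpow_le_rpow (by positivity) h4 hη0.le
    have h6 : (T ^ 2) ^ η = (T ^ η) ^ 2 := by
      rw [← Real.rpow_natCast, ← Real.rpow_natCast, ← Real.rpow_mul hT0.le,
        ← Real.rpow_mul hT0.le, mul_comm]
    rw [h6] at h5
    calc (n.divisors.card : ℝ) ≤ Cd * (n : ℝ) ^ η := h3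
      _ ≤ A := mul_le_mul_of_nonneg_left h5 (by linarith)
  set a : ℕ → ℂ := fun n => if 1 ≤ n ∧ n ≤ M then (-1 : ℂ) ^ n * (n.divisors.card : ℂ) / (A : ℂ)
    else 0 with ha
  have ha1 : ∀ n, ‖a n‖ ≤ 1 := by
    intro n
    simp only [ha]
    split_ifs with h
    · rw [norm_div, norm_mul, norm_pow, norm_neg, norm_one, one_pow, one_mul, Complex.norm_natCast,
        Complex.norm_real, Real.norm_eq_abs, abs_of_pos hA0, div_le_one hA0]
      exact hdA n h.1 h.2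
    · simp
  -- bounds for JJ
  have hroot : C1 ≤ Real.sqrt (Real.sqrt T) := by
    apply Real.le_sqrt_of_sq_le
    apply Real.le_sqrt_of_sq_le
    have : C1 ^ 4 ≤ T := by linarith
    calc (C1 ^ 2) ^ 2 = C1 ^ 4 := by ring
      _ ≤ T := this
  have hJJ : ∀ n : ℕ, 1 ≤ n → n ≤ M → ∀ s ∈ sI T, ‖JJ Θ T G n s‖ ≤ 1 := by
    intro n h1 h2 s hs
    have h3 : (n : ℝ) ≤ 2 * C' * T / G ^ 2 := by
      have : (n : ℝ) ≤ M := by exact_mod_cast h2
      have h4 : 2 * C' * T / G ^ 2 = 2 * N0 := by rw [hN0]; ring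
      rw [h4]
      linarith
    have h5 := (hAM' T G s n (by linarith) (by linarith) hGT hs h1 h3).1
    have h6 : T ≤ n * T := by
      have : (1 : ℝ) ≤ n := by exact_mod_cast h1
      exact le_mul_of_one_le_left hT0.le this
    have h7 : C1 ≤ Real.sqrt (Real.sqrt (n * T)) :=
      le_trans hroot (Real.sqrt_le_sqrt (Real.sqrt_le_sqrt h6))
    refine le_trans h5 ?_
    rw [div_le_one (by linarith)]
    exact h7
  -- the blocks
  have hSJ : ∀ j : ℕ, ∀ s : ℝ, SJ Θ T G a (2 ^ j) s =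
      ∑ n ∈ Finset.Ioc (2 ^ j) (2 ^ (j + 1)), a n * JJ Θ T G n s := by
    intro j s
    unfold SJ
    have h1 : ⌊(2 : ℝ) ^ j⌋₊ = 2 ^ j := by
      have : ((2 : ℝ) ^ j) = ((2 ^ j : ℕ) : ℝ) := by push_cast; rfl
      rw [this, Nat.floor_natCast]
    have h2 : ⌊2 * (2 : ℝ) ^ j⌋₊ = 2 ^ (j + 1) := by
      have : (2 * (2 : ℝ) ^ j) = ((2 ^ (j + 1) : ℕ) : ℝ) := by push_cast; ring
      rw [this, Nat.floor_natCast]
    rw [h1, h2]
  have hterm : ∀ n : ℕ, ∀ s ∈ sI T, ‖a n * JJ Θ T G n s‖ ≤ if n ∈ Finset.Icc 1 M then 1 else 0 := by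
    intro n s hs
    by_cases h : 1 ≤ n ∧ n ≤ M
    · rw [if_pos (Finset.mem_Icc.mpr h), norm_mul]
      exact mul_le_one₀ (ha1 n) (norm_nonneg _) (hJJ n h.1 h.2 s hs)
    · rw [if_neg (fun h' => h (Finset.mem_Icc.mp h'))]
      have : a n = 0 := by simp only [ha]; rw [if_neg h]
      rw [this]
      simp
  have hSJb : ∀ j : ℕ, ∀ s ∈ sI T, ‖SJ Θ T G a (2 ^ j) s‖ < 2 ^ I := by
    intro j s hs
    rw [hSJ]
    have h1 : ‖∑ n ∈ Finset.Ioc (2 ^ j) (2 ^ (j + 1)), a n * JJ Θ T G n s‖ ≤ (M : ℝ) := by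
      calc ‖∑ n ∈ Finset.Ioc (2 ^ j) (2 ^ (j + 1)), a n * JJ Θ T G n s‖
          ≤ ∑ n ∈ Finset.Ioc (2 ^ j) (2 ^ (j + 1)), ‖a n * JJ Θ T G n s‖ := norm_sum_le _ _
        _ ≤ ∑ n ∈ Finset.Ioc (2 ^ j) (2 ^ (j + 1)), (if n ∈ Finset.Icc 1 M then (1 : ℝ) else 0) :=
            Finset.sum_le_sum (fun n _ => hterm n s hs)
        _ = (((Finset.Ioc (2 ^ j) (2 ^ (j + 1))).filter (fun n => n ∈ Finset.Icc 1 M)).card : ℝ) := by
            rw [← Finset.sum_filter, Finset.sum_const, nsmul_eq_mul, mul_one]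
        _ ≤ ((Finset.Icc 1 M).card : ℝ) := by
            exact_mod_cast Finset.card_le_card (fun n hn => (Finset.mem_filter.mp hn).2)
        _ = M := by simp
    have h2 : (M : ℝ) ≤ (⌊T ^ 2⌋₊ : ℝ) := by exact_mod_cast Nat.floor_mono hN0T
    have h3' : ⌊T ^ 2⌋₊ < 2 ^ I := Nat.lt_pow_succ_log_self (b := 2) (by norm_num) _
    have h3 : (⌊T ^ 2⌋₊ : ℝ) < 2 ^ I := by exact_mod_cast h3'
    linarith
  have hDS : ∀ r : ℝ, DS Θ T G C' r = -JJ Θ T G 1 (r / (2 * Real.pi)) +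
      (A : ℂ) * ∑ j ∈ Finset.range J, SJ Θ T G a (2 ^ j) (r / (2 * Real.pi)) := by
    intro r
    unfold DS
    rw [sum_Icc _ M hM1, Finset.mul_sum]
    congr 1
    · simp
    · apply Finset.sum_congr rfl
      intro j _
      rw [hSJ, Finset.mul_sum]
      apply Finset.sum_congr rfl
      intro n hn
      have hn1 : 1 ≤ n := lt_of_le_of_lt (Nat.zero_le _) (Finset.mem_Ioc.mp hn).1
      by_cases h : n ≤ M
      · rw [if_pos h]
        simp only [ha]
        rw [if_pos ⟨hn1, h⟩]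
        have : (A : ℂ) ≠ 0 := by exact_mod_cast hA0.ne'
        field_simp
      · rw [if_neg h]
        simp only [ha]
        rw [if_neg (fun h' => h h'.2)]
        simp
  have hDSb : ∀ r ∈ Icc (T / 2) (4 * T), ‖DS Θ T G C' r‖ ≤
      1 + A * ∑ j ∈ Finset.range J, ‖SJ Θ T G a (2 ^ j) (r / (2 * Real.pi))‖ := by
    intro r hr
    rw [hDS]
    refine le_trans (norm_add_le _ _) ?_
    have h1 : ‖-JJ Θ T G 1 (r / (2 * Real.pi))‖ ≤ 1 := by
      rw [norm_neg]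
      exact hJJ 1 le_rfl hM1 _ (sI_map hr)
    have h2 : ‖(A : ℂ) * ∑ j ∈ Finset.range J, SJ Θ T G a (2 ^ j) (r / (2 * Real.pi))‖ ≤
        A * ∑ j ∈ Finset.range J, ‖SJ Θ T G a (2 ^ j) (r / (2 * Real.pi))‖ := by
      rw [norm_mul, Complex.norm_real, Real.norm_eq_abs, abs_of_pos hA0]
      exact mul_le_mul_of_nonneg_left (norm_sum_le _ _) hA0.le
    linarith
  -- conditions for the blocks
  have hpow : ∀ j : ℕ, j < J → (2 : ℝ) ^ j ≤ N0 := by
    intro j hj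
    have h1 : 2 ^ j ≤ M := by
      calc 2 ^ j ≤ 2 ^ (Nat.log 2 M) := Nat.pow_le_pow_right (by norm_num) (by omega)
        _ ≤ M := Nat.pow_log_le_self 2 (by omega)
    have h2 : ((2 ^ j : ℕ) : ℝ) ≤ M := by exact_mod_cast h1
    push_cast at h2
    linarith
  have hcond : ∀ j : ℕ, j < J → 2 * (2 : ℝ) ^ j ≤ 2 * C' * T / G ^ 2 := by
    intro j hj
    have h1 := hpow j hj
    have h4 : 2 * C' * T / G ^ 2 = 2 * N0 := by rw [hN0]; ring
    rw [h4]
    linarith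
  have hmeas : ∀ j : ℕ, j < J → ∀ u : ℝ, MeasurableSet (BS Θ T G a (2 ^ j) u) := by
    intro j hj u
    exact ((hMb' T G (by linarith) (by linarith) hGT).2 (2 ^ j) u a
      (one_le_pow₀ (by norm_num)) (hcond j hj)).2
  -- the closed set
  set E : Set ℝ := {r : ℝ | r ∈ Icc (T / 2) (4 * T) ∧ T ^ (ε / 8) ≤ ‖DS Θ T G C' r‖} with hE
  have hEm : MeasurableSet E := by
    have hcont : ContinuousOn (fun r => ‖DS Θ T G C' r‖) (Icc (T / 2) (4 * T)) := by
      apply ContinuousOn.norm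
      unfold DS
      apply continuousOn_finsetSum
      intro n hn
      apply ContinuousOn.mul continuousOn_const
      have hn' := Finset.mem_Icc.mp hn
      have h3 : (n : ℝ) ≤ 2 * C' * T / G ^ 2 := by
        have : (n : ℝ) ≤ M := by exact_mod_cast hn'.2
        have h4 : 2 * C' * T / G ^ 2 = 2 * N0 := by rw [hN0]; ring
        rw [h4]
        linarith
      have h5 := (hMb' T G (by linarith) (by linarith) hGT).1 n hn'.1 h3
      exact h5.comp (by fun_prop) (fun r hr => sI_map hr)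
    have := hcont.preimage_isClosed_of_isClosed isClosed_Icc (isClosed_Ici (a := T ^ (ε / 8)))
    exact this.measurableSet
  -- the dominating function
  set g : ℝ → ℝ := fun r => ∑ j ∈ Finset.range J, ∑ i ∈ Finset.range I,
    (2 * A * J * (2 * 2 ^ i)) *
      (BS Θ T G a (2 ^ j) (2 ^ i)).indicator (fun _ => (1 : ℝ)) (r / (2 * Real.pi)) with hg
  have hg0 : ∀ r, 0 ≤ g r := by
    intro r
    apply Finset.sum_nonneg
    intro j _
    apply Finset.sum_nonneg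
    intro i _
    apply mul_nonneg (by positivity)
    exact Set.indicator_nonneg (fun _ _ => zero_le_one) _
  have hgint : Integrable g := by
    apply integrable_finsetSum
    intro j hj
    apply integrable_finsetSum
    intro i _
    exact (integral_ind _ T _ (hmeas j (Finset.mem_range.mp hj) _) BS_sub).1
  have hgI : ∫ r, g r ≤ (J : ℝ) * (I * (8 * Real.pi * A * J * β)) := by
    simp only [hg]
    rw [integral_finsetSum _ (fun j hj => integrable_finsetSum _ (fun i _ =>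
      (integral_ind _ T _ (hmeas j (Finset.mem_range.mp hj) _) BS_sub).1))]
    calc ∑ j ∈ Finset.range J, ∫ r, ∑ i ∈ Finset.range I, (2 * A * J * (2 * 2 ^ i)) *
        (BS Θ T G a (2 ^ j) (2 ^ i)).indicator (fun _ => (1 : ℝ)) (r / (2 * Real.pi))
        ≤ ∑ j ∈ Finset.range J, (I * (8 * Real.pi * A * J * β)) := by
          apply Finset.sum_le_sum
          intro j hj
          rw [integral_finsetSum _ (fun i _ =>
            (integral_ind _ T _ (hmeas j (Finset.mem_range.mp hj) _) BS_sub).1)]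
          calc _ ≤ ∑ i ∈ Finset.range I, (8 * Real.pi * A * J * β) := by
                apply Finset.sum_le_sum
                intro i _
                rw [(integral_ind _ T _ (hmeas j (Finset.mem_range.mp hj) _) BS_sub).2]
                have h1 := hyp j a (2 ^ i) ha1 (one_le_pow₀ (by norm_num))
                  (hcond j (Finset.mem_range.mp hj))
                have h2 : 0 ≤ 8 * Real.pi * A * J := by positivity
                calc 2 * A * J * (2 * 2 ^ i) * (2 * Real.pi * Rr (BS Θ T G a (2 ^ j) (2 ^ i)))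
                    = 8 * Real.pi * A * J * (2 ^ i * Rr (BS Θ T G a (2 ^ j) (2 ^ i))) := by ring
                  _ ≤ 8 * Real.pi * A * J * β := mul_le_mul_of_nonneg_left h1 h2
            _ = I * (8 * Real.pi * A * J * β) := by
                rw [Finset.sum_const, Finset.card_range, nsmul_eq_mul]
      _ = (J : ℝ) * (I * (8 * Real.pi * A * J * β)) := by
          rw [Finset.sum_const, Finset.card_range, nsmul_eq_mul]
  -- pointwise bound
  have hTB : 1 + A * J ≤ T ^ (ε / 8) := by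
    have h1 : T ^ (ε / 8) = (T ^ η) ^ 8 := by
      rw [← Real.rpow_natCast, ← Real.rpow_mul hT0.le]
      congr 1
      rw [hη]
      push_cast
      ring
    have h2 : A * J ≤ Cd * (T ^ η) ^ 2 * (K * T ^ η) := by
      rw [hA]
      exact mul_le_mul_of_nonneg_left hJK (by positivity)
    have h3 : 1 + A * J ≤ 2 * (Cd * (T ^ η) ^ 2 * (K * T ^ η)) := by
      have : 1 ≤ A * J := one_le_mul_of_one_le_of_one_le hA1 hJ1'
      linarith
    have h4 : 2 * (Cd * (T ^ η) ^ 2 * (K * T ^ η)) = (2 * Cd * K) * (T ^ η) ^ 3 := by ring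
    have h5 : (2 * Cd * K) * (T ^ η) ^ 3 ≤ T ^ η * (T ^ η) ^ 3 :=
      mul_le_mul_of_nonneg_right hTK (by positivity)
    have h6 : T ^ η * (T ^ η) ^ 3 = (T ^ η) ^ 4 := by ring
    have h7 : (T ^ η) ^ 4 ≤ (T ^ η) ^ 8 := pow_le_pow_right₀ hTη (by norm_num)
    rw [h1]
    linarith
  have hpt : ∀ r ∈ E, ‖DS Θ T G C' r‖ ≤ g r := by
    intro r hr
    obtain ⟨j, hj, i, hi, h1, h2⟩ := pick J I A (T ^ (ε / 8)) ‖DS Θ T G C' r‖
      (fun j => ‖SJ Θ T G a (2 ^ j) (r / (2 * Real.pi))‖) hJ1 hA1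
      (fun j _ => hSJb j _ (sI_map hr.1)) (hDSb r hr.1) hr.2 hTB
    refine le_trans h2 ?_
    have hmem : r / (2 * Real.pi) ∈ BS Θ T G a (2 ^ j) (2 ^ i) := ⟨sI_map hr.1, h1⟩
    have h3 : (2 * A * J * (2 * 2 ^ i)) *
        (BS Θ T G a (2 ^ j) (2 ^ i)).indicator (fun _ => (1 : ℝ)) (r / (2 * Real.pi)) =
        2 * A * J * (2 * 2 ^ i) := by
      rw [Set.indicator_of_mem hmem, mul_one]
    rw [← h3]
    have hnn : ∀ j' i' : ℕ, 0 ≤ (2 * A * J * (2 * 2 ^ i')) *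
        (BS Θ T G a (2 ^ j') (2 ^ i')).indicator (fun _ => (1 : ℝ)) (r / (2 * Real.pi)) := by
      intro j' i'
      apply mul_nonneg (by positivity)
      exact Set.indicator_nonneg (fun _ _ => zero_le_one) _
    have h4 := Finset.single_le_sum (f := fun i' => (2 * A * J * (2 * 2 ^ i')) *
        (BS Θ T G a (2 ^ j) (2 ^ i')).indicator (fun _ => (1 : ℝ)) (r / (2 * Real.pi)))
        (fun i' _ => hnn j i') (Finset.mem_range.mpr hi)
    have h5 := Finset.single_le_sum (f := fun j' => ∑ i' ∈ Finset.range I,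
        (2 * A * J * (2 * 2 ^ i')) *
        (BS Θ T G a (2 ^ j') (2 ^ i')).indicator (fun _ => (1 : ℝ)) (r / (2 * Real.pi)))
        (fun j' _ => Finset.sum_nonneg (fun i' _ => hnn j' i')) (Finset.mem_range.mpr hj)
    exact le_trans h4 h5
  -- conclusion
  have hmain : ∫ r in E, ‖DS Θ T G C' r‖ ≤ ∫ r, g r := by
    calc ∫ r in E, ‖DS Θ T G C' r‖ ≤ ∫ r in E, g r := by
          apply integral_mono_of_nonneg
          · exact Eventually.of_forall (fun r => norm_nonneg _)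
          · exact hgint.integrableOn
          · exact (ae_restrict_iff' hEm).mpr (Eventually.of_forall hpt)
      _ ≤ ∫ r, g r := setIntegral_le_integral hgint (Eventually.of_forall hg0)
  refine le_trans hmain (le_trans hgI ?_)
  have hfin : (J : ℝ) * (I * (8 * Real.pi * A * J * β)) ≤
      (8 * Real.pi * Cd * K ^ 3) * (T ^ η) ^ 5 * β := by
    have h1 : (J : ℝ) * I * J ≤ (K * T ^ η) * (K * T ^ η) * (K * T ^ η) := by
      gcongr
    have h2 : 0 ≤ 8 * Real.pi * A * β := by positivity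
    calc (J : ℝ) * (I * (8 * Real.pi * A * J * β)) = 8 * Real.pi * A * β * (J * I * J) := by ring
      _ ≤ 8 * Real.pi * A * β * ((K * T ^ η) * (K * T ^ η) * (K * T ^ η)) :=
          mul_le_mul_of_nonneg_left h1 h2
      _ = (8 * Real.pi * Cd * K ^ 3) * (T ^ η) ^ 5 * β := by
          rw [hA]
          ring
  have h32 : T ^ (ε / 2) = (T ^ η) ^ 32 := by
    rw [← Real.rpow_natCast, ← Real.rpow_mul hT0.le]
    congr 1
    rw [hη]
    push_cast
    ring
  have h5 : (T ^ η) ^ 5 ≤ (T ^ η) ^ 32 := pow_le_pow_right₀ hTη (by norm_num)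
  refine le_trans hfin ?_
  rw [h32]
  apply mul_le_mul_of_nonneg_right _ hβ
  apply mul_le_mul _ h5 (by positivity) (by linarith)
  linarith

end Pool.Agent.Work.MP_56b8f5_nt.UB
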