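import Pool.Agent.Work.MP_56b8f5_nt.UB.Stmts

/-!
MP_56b8f5_nt, block UB, item Fb (version 2): the new range.  Authors: helper91, helper54.
-/

open MeasureTheory Set Filter Topology

noncomputable section

namespace Pool.Agent.Work.MP_56b8f5_nt.UB

namespace Fb_aux

theorem ev_rpow (A c : ℝ) (hc : 0 < c) : ∀ᶠ T : ℝ in atTop, A ≤ T ^ c :=
  (tendsto_rpow_atTop hc).eventually_ge_atTop A

theorem ev_log (ε : ℝ) (hε : 0 < ε) : ∀ᶠ T : ℝ in atTop, Real.log (3 * T) ≤ T ^ (ε / 2) := by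
  have h1 := (isLittleO_log_rpow_atTop (r := ε / 2) (by positivity)).bound
    (show (0 : ℝ) < 1 / 2 by norm_num)
  filter_upwards [h1, ev_rpow 4 (ε / 2) (by positivity), eventually_ge_atTop (1 : ℝ)]
    with T h1 h2 h3
  have hT0 : (0 : ℝ) < T := by linarith
  rw [Real.log_mul (by norm_num) hT0.ne']
  have h4 : Real.log 3 ≤ 2 := by
    have := Real.log_le_sub_one_of_pos (show (0 : ℝ) < 3 by norm_num)
    linarith
  rw [Real.norm_of_nonneg (Real.log_nonneg h3), Real.norm_of_nonneg (by positivity)] at h1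
  linarith

/-- the thresholds -/
theorem thr (CF CL C1 ε : ℝ) (hε : 0 < ε) : ∃ T0 : ℝ, 2 ≤ T0 ∧ ∀ T : ℝ, T0 ≤ T →
    Real.log (3 * T) ≤ T ^ (ε / 2) ∧ 136 * CF ≤ T ^ (1 / 300 : ℝ) ∧ 16 * CL ≤ T ^ (1 / 10 : ℝ) ∧
    4 * C1 ≤ T ^ (1 / 20 : ℝ) ∧ 4 * CF ^ 2 * CL ≤ T ^ (1 / 2 : ℝ) := by
  have h := (ev_log ε hε).and ((ev_rpow (136 * CF) (1 / 300) (by norm_num)).and
    ((ev_rpow (16 * CL) (1 / 10) (by norm_num)).and ((ev_rpow (4 * C1) (1 / 20) (by norm_num)).and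
      (ev_rpow (4 * CF ^ 2 * CL) (1 / 2) (by norm_num)))))
  obtain ⟨T0, hT0⟩ := eventually_atTop.1 h
  exact ⟨max T0 2, le_max_right _ _, fun T hT => hT0 T (le_trans (le_max_left _ _) hT)⟩

theorem pw {T : ℝ} (hT : 0 < T) (a : ℝ) (k : ℕ) : (T ^ a) ^ k = T ^ (a * k) := by
  rw [← Real.rpow_natCast, ← Real.rpow_mul hT.le]

/-- condition (i) -/
theorem alg_i {CL CF C1 e r y sN sT Q u N : ℝ} (hCL : 1 ≤ CL) (hCF : 2 ≤ CF)
    (hC1 : 4 * CF ^ 2 * CL ≤ C1) (he : 1 ≤ e) (hr : 0 < r) (hy : 0 ≤ y) (hsN : 0 < sN)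
    (hsT : 0 < sT) (hQ2 : Q ^ 2 = sN * sT) (hu : 1 ≤ u) (hN : N = r * sT) :
    CL * (N * sN) ≤ (u * Q / (2 * CF)) ^ 2 * (C1 * e * (r + y) / u ^ 2) := by
  have h1 : (u * Q / (2 * CF)) ^ 2 * (C1 * e * (r + y) / u ^ 2) =
      sN * sT * (C1 * e * (r + y) / (4 * CF ^ 2)) := by
    rw [← hQ2]
    field_simp
    ring
  rw [h1, hN]
  have h2 : CL * r ≤ C1 * e * (r + y) / (4 * CF ^ 2) := by
    rw [le_div_iff₀ (by positivity)]
    have h4 : 0 < C1 := lt_of_lt_of_le (by positivity) hC1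
    calc CL * r * (4 * CF ^ 2) = (4 * CF ^ 2 * CL) * r := by ring
      _ ≤ C1 * r := mul_le_mul_of_nonneg_right hC1 hr.le
      _ ≤ C1 * (r + y) := mul_le_mul_of_nonneg_left (by linarith) h4.le
      _ = C1 * 1 * (r + y) := by ring
      _ ≤ C1 * e * (r + y) := by gcongr
  calc CL * (r * sT * sN) = sN * sT * (CL * r) := by ring
    _ ≤ _ := mul_le_mul_of_nonneg_left h2 (by positivity)

/-- condition (ii) -/
theorem alg_ii {CL CF C1 e r y w sT Q u N T M Lgv : ℝ} (hCL : 1 ≤ CL) (hCF : 2 ≤ CF)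
    (hC1 : 5 * CL * (2 * CF) ^ 12 ≤ C1) (he : 1 ≤ e) (hr : 0 < r) (hy : 0 ≤ y)
    (hT : 0 < T) (hM : 0 < M) (hN0 : 0 < N)
    (hQ4 : Q ^ 4 = N * T) (hu : 1 ≤ u) (hN : N = r * sT) (hsT2 : sT ^ 2 = T)
    (hL : Lgv ≤ 5 * e * w) (hy4 : y ^ 4 = r ^ 6 * M ^ 3 * w) :
    CL * (N ^ 9 * M ^ 3 * Lgv) ≤ (u * Q / (2 * CF)) ^ 12 * (C1 * e * (r + y) / u ^ 2) ^ 4 := by
  have h1 : (u * Q / (2 * CF)) ^ 12 * (C1 * e * (r + y) / u ^ 2) ^ 4 =
      u ^ 4 * (N * T) ^ 3 * (C1 ^ 4 / (2 * CF) ^ 12) * (e ^ 4 * (r + y) ^ 4) := by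
    rw [← hQ4]
    field_simp
    try ring
  rw [h1]
  have hC1' : 1 ≤ C1 := by
    refine le_trans ?_ hC1
    have h2 : (1 : ℝ) ≤ (2 * CF) ^ 12 := one_le_pow₀ (by linarith)
    nlinarith
  have h3 : 5 * CL ≤ C1 ^ 4 / (2 * CF) ^ 12 := by
    rw [le_div_iff₀ (by positivity)]
    exact le_trans hC1 (le_self_pow₀ hC1' (by norm_num))
  have h4 : N ^ 9 = (N * T) ^ 3 * r ^ 6 := by
    have : N ^ 6 = r ^ 6 * T ^ 3 := by
      rw [← hsT2, hN]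
      ring
    calc N ^ 9 = N ^ 3 * N ^ 6 := by ring
      _ = N ^ 3 * (r ^ 6 * T ^ 3) := by rw [this]
      _ = _ := by ring
  have h5 : y ^ 4 ≤ (r + y) ^ 4 := pow_le_pow_left₀ hy (by linarith) 4
  have h6 : e ≤ e ^ 4 := le_self_pow₀ he (by norm_num)
  have he0 : 0 < e := by linarith
  have hu4 : 1 ≤ u ^ 4 := one_le_pow₀ hu
  calc CL * (N ^ 9 * M ^ 3 * Lgv) ≤ CL * (N ^ 9 * M ^ 3 * (5 * e * w)) := by gcongr
    _ = (N * T) ^ 3 * (5 * CL) * (e * (r ^ 6 * M ^ 3 * w)) := by rw [h4]; ring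
    _ = (N * T) ^ 3 * (5 * CL) * (e * y ^ 4) := by rw [hy4]
    _ ≤ (N * T) ^ 3 * (C1 ^ 4 / (2 * CF) ^ 12) * (e ^ 4 * (r + y) ^ 4) := by gcongr
    _ = 1 * (N * T) ^ 3 * (C1 ^ 4 / (2 * CF) ^ 12) * (e ^ 4 * (r + y) ^ 4) := by ring
    _ ≤ u ^ 4 * (N * T) ^ 3 * (C1 ^ 4 / (2 * CF) ^ 12) * (e ^ 4 * (r + y) ^ 4) := by gcongr

/-- condition (iii) -/
theorem alg_iii {CL CF C1 e r y w Q u N T M sN Lgv : ℝ} (hCL : 1 ≤ CL) (hCF : 2 ≤ CF)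
    (hC1 : 5 * CL * (2 * CF) ^ 12 ≤ C1) (he : 1 ≤ e) (hr : 0 < r) (hy : 0 ≤ y) (hw : 0 < w)
    (hT : 0 < T) (hM : 0 < M) (hN0 : 0 < N) (hsN : 0 < sN)
    (hQ4 : Q ^ 4 = N * T) (hu : 1 ≤ u)
    (hL : Lgv ≤ 5 * e * w) (hp : N ^ 3 * sN * M ^ 4 * w ≤ T ^ 2 * y) :
    CL * (N ^ 5 * sN * M ^ 4 * Lgv) ≤ (u * Q / (2 * CF)) ^ 8 * (C1 * e * (r + y) / u ^ 2) := by
  have h1 : (u * Q / (2 * CF)) ^ 8 * (C1 * e * (r + y) / u ^ 2) =
      u ^ 6 * (N * T) ^ 2 * (C1 / (2 * CF) ^ 8) * (e * (r + y)) := by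
    rw [← hQ4]
    field_simp
    try ring
  rw [h1]
  have he0 : 0 < e := by linarith
  have hC10 : 0 < C1 := lt_of_lt_of_le (by positivity) hC1
  have h3 : 5 * CL ≤ C1 / (2 * CF) ^ 8 := by
    rw [le_div_iff₀ (by positivity)]
    refine le_trans ?_ hC1
    have h2 : (2 * CF) ^ 8 ≤ (2 * CF) ^ 12 := pow_le_pow_right₀ (by linarith) (by norm_num)
    gcongr
  have h7 : y ≤ r + y := by linarith
  have hu6 : 1 ≤ u ^ 6 := one_le_pow₀ hu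
  calc CL * (N ^ 5 * sN * M ^ 4 * Lgv) ≤ CL * (N ^ 5 * sN * M ^ 4 * (5 * e * w)) := by
        gcongr
    _ = N ^ 2 * (5 * CL) * (e * (N ^ 3 * sN * M ^ 4 * w)) := by ring
    _ ≤ N ^ 2 * (C1 / (2 * CF) ^ 8) * (e * (T ^ 2 * (r + y))) := by
        have h8 : N ^ 3 * sN * M ^ 4 * w ≤ T ^ 2 * (r + y) := hp.trans (by gcongr)
        gcongr
    _ = 1 * (N * T) ^ 2 * (C1 / (2 * CF) ^ 8) * (e * (r + y)) := by ring
    _ ≤ u ^ 6 * (N * T) ^ 2 * (C1 / (2 * CF) ^ 8) * (e * (r + y)) := by gcongr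

/-- the error of the linearisation -/
theorem err {CF T N Q sN sT M X x : ℝ} (hCF : 2 ≤ CF) (hT : 1 ≤ T) (hN : 1 ≤ N)
    (hNT : N ≤ T ^ (1 / 2 + 1 / 150 : ℝ)) (hQ : Q = Real.sqrt (Real.sqrt (N * T)))
    (hsN : sN = Real.sqrt N) (hsT : sT = Real.sqrt T) (hM : M = T ^ (1 / 20 : ℝ))
    (h136 : 136 * CF ≤ T ^ (1 / 300 : ℝ)) (hX : sT / 4 ≤ X) (hx0 : 0 ≤ x) (hx : x ≤ M * sN) :
    CF * (N / Q) * (x ^ 2 * (N * sN) / X ^ 3 + x / X) ≤ 1 / 2 := by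
  have hT0 : 0 < T := by linarith
  have hN0 : 0 < N := by linarith
  have hsT' : sT = T ^ (1 / 2 : ℝ) := by rw [hsT, Real.sqrt_eq_rpow]
  have hsT0 : 0 < sT := by rw [hsT']; positivity
  have hsN0 : 0 < sN := by rw [hsN]; positivity
  have hM0 : 0 < M := by rw [hM]; positivity
  have hX0 : 0 < X := lt_of_lt_of_le (by positivity) hX
  -- N / Q ≤ T ^ (13/100)
  have hQ' : Q = (N * T) ^ (1 / 4 : ℝ) := by
    rw [hQ, Real.sqrt_eq_rpow, Real.sqrt_eq_rpow, ← Real.rpow_mul (by positivity)]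
    norm_num
  have hQ0 : 0 < Q := by rw [hQ']; positivity
  have h1 : N / Q ≤ T ^ (13 / 100 : ℝ) := by
    have h2 : N / Q = N ^ (3 / 4 : ℝ) * T ^ (-(1 / 4) : ℝ) := by
      rw [hQ', Real.mul_rpow hN0.le hT0.le, div_eq_iff (by positivity)]
      have h3 : N ^ (3 / 4 : ℝ) * N ^ (1 / 4 : ℝ) = N := by
        rw [← Real.rpow_add hN0]; norm_num
      have h4 : T ^ (-(1 / 4) : ℝ) * T ^ (1 / 4 : ℝ) = 1 := by
        rw [← Real.rpow_add hT0]; norm_num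
      calc N = (N ^ (3 / 4 : ℝ) * N ^ (1 / 4 : ℝ)) * (T ^ (-(1 / 4) : ℝ) * T ^ (1 / 4 : ℝ)) := by
            rw [h3, h4, mul_one]
        _ = _ := by ring
    rw [h2]
    calc N ^ (3 / 4 : ℝ) * T ^ (-(1 / 4) : ℝ)
        ≤ (T ^ (1 / 2 + 1 / 150 : ℝ)) ^ (3 / 4 : ℝ) * T ^ (-(1 / 4) : ℝ) := by gcongr
      _ = T ^ (13 / 100 : ℝ) := by
          rw [← Real.rpow_mul hT0.le, ← Real.rpow_add hT0]; norm_num
  have hsNle : sN ≤ T ^ (19 / 75 : ℝ) := by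
    rw [hsN, Real.sqrt_eq_rpow]
    calc N ^ (1 / 2 : ℝ) ≤ (T ^ (1 / 2 + 1 / 150 : ℝ)) ^ (1 / 2 : ℝ) := by gcongr
      _ = T ^ (19 / 75 : ℝ) := by rw [← Real.rpow_mul hT0.le]; norm_num
  have hNle : N ≤ T ^ (38 / 75 : ℝ) := by
    refine le_trans hNT (le_of_eq ?_); norm_num
  have hsN2 : sN ^ 2 = N := by rw [hsN, Real.sq_sqrt hN0.le]
  -- first part
  have h5 : x ^ 2 * (N * sN) / X ^ 3 ≤ 64 * T ^ (-(2 / 15) : ℝ) := by
    have h6 : x ^ 2 * (N * sN) ≤ T ^ (1 / 10 : ℝ) * T ^ (19 / 15 : ℝ) := by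
      calc x ^ 2 * (N * sN) ≤ (M * sN) ^ 2 * (N * sN) := by gcongr
        _ = M ^ 2 * (N ^ 2 * sN) := by rw [mul_pow, hsN2]; ring
        _ ≤ M ^ 2 * ((T ^ (38 / 75 : ℝ)) ^ 2 * T ^ (19 / 75 : ℝ)) := by gcongr
        _ = T ^ (1 / 10 : ℝ) * T ^ (19 / 15 : ℝ) := by
            rw [hM, pw hT0, pw hT0, ← Real.rpow_add hT0]; norm_num
    have h7 : T ^ (3 / 2 : ℝ) / 64 ≤ X ^ 3 := by
      calc T ^ (3 / 2 : ℝ) / 64 = (sT / 4) ^ 3 := by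
            rw [div_pow, hsT', pw hT0]; norm_num
        _ ≤ X ^ 3 := pow_le_pow_left₀ (by positivity) hX 3
    rw [div_le_iff₀ (by positivity)]
    calc x ^ 2 * (N * sN) ≤ T ^ (1 / 10 : ℝ) * T ^ (19 / 15 : ℝ) := h6
      _ = 64 * T ^ (-(2 / 15) : ℝ) * (T ^ (3 / 2 : ℝ) / 64) := by
          rw [← Real.rpow_add hT0]
          have : T ^ (-(2 / 15) : ℝ) * T ^ (3 / 2 : ℝ) = T ^ (1 / 10 + 19 / 15 : ℝ) := by
            rw [← Real.rpow_add hT0]; norm_num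
          rw [← this]; ring
      _ ≤ _ := by gcongr
  have h8 : x / X ≤ 4 * T ^ (-(59 / 300) : ℝ) := by
    rw [div_le_iff₀ hX0]
    calc x ≤ M * sN := hx
      _ ≤ T ^ (1 / 20 : ℝ) * T ^ (19 / 75 : ℝ) := by rw [hM]; gcongr
      _ = 4 * T ^ (-(59 / 300) : ℝ) * (sT / 4) := by
          rw [hsT', ← Real.rpow_add hT0]
          have : T ^ (-(59 / 300) : ℝ) * T ^ (1 / 2 : ℝ) = T ^ (1 / 20 + 19 / 75 : ℝ) := by
            rw [← Real.rpow_add hT0]; norm_num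
          rw [← this]; ring
      _ ≤ _ := by gcongr
  have h9 : T ^ (13 / 100 : ℝ) * T ^ (-(2 / 15) : ℝ) ≤ T ^ (-(1 / 300) : ℝ) := by
    rw [← Real.rpow_add hT0]
    exact Real.rpow_le_rpow_of_exponent_le hT (by norm_num)
  have h10 : T ^ (13 / 100 : ℝ) * T ^ (-(59 / 300) : ℝ) ≤ T ^ (-(1 / 300) : ℝ) := by
    rw [← Real.rpow_add hT0]
    exact Real.rpow_le_rpow_of_exponent_le hT (by norm_num)
  have h11 : T ^ (1 / 300 : ℝ) * T ^ (-(1 / 300) : ℝ) = 1 := by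
    rw [← Real.rpow_add hT0]; norm_num
  have hx1 : 0 ≤ x ^ 2 * (N * sN) / X ^ 3 + x / X := by positivity
  calc CF * (N / Q) * (x ^ 2 * (N * sN) / X ^ 3 + x / X)
      ≤ CF * T ^ (13 / 100 : ℝ) * (64 * T ^ (-(2 / 15) : ℝ) + 4 * T ^ (-(59 / 300) : ℝ)) := by
        gcongr
    _ = CF * (64 * (T ^ (13 / 100 : ℝ) * T ^ (-(2 / 15) : ℝ)) +
        4 * (T ^ (13 / 100 : ℝ) * T ^ (-(59 / 300) : ℝ))) := by ring
    _ ≤ CF * (64 * T ^ (-(1 / 300) : ℝ) + 4 * T ^ (-(1 / 300) : ℝ)) := by gcongr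
    _ = (136 * CF) * T ^ (-(1 / 300) : ℝ) / 2 := by ring
    _ ≤ T ^ (1 / 300 : ℝ) * T ^ (-(1 / 300) : ℝ) / 2 := by gcongr
    _ = 1 / 2 := by rw [h11]

/-- the bound for `Lg` -/
theorem lg_le {T N M sT sM X r e : ℝ} (hT : 1 ≤ T) (hN : 1 ≤ N) (hM1 : 1 ≤ M)
    (hMN : M * N ≤ T) (he : 1 ≤ e) (hlog : Real.log (3 * T) ≤ e) (hsT : 0 < sT)
    (hX : sT / 4 ≤ X) (hr : N = r * sT) (hsM : sM = Real.sqrt M) :
    Lg X N M ≤ 5 * e * (1 + sM * r) := by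
  have hsM1 : 1 ≤ sM := by rw [hsM]; exact Real.one_le_sqrt.2 hM1
  have hX0 : 0 < X := lt_of_lt_of_le (by positivity) hX
  have hr0 : 0 < r := by
    by_contra h
    have : r * sT ≤ 0 := mul_nonpos_of_nonpos_of_nonneg (not_lt.1 h) hsT.le
    linarith
  have h1 : Real.log (2 + M * N) ≤ e := by
    refine le_trans (Real.log_le_log (by positivity) ?_) hlog
    linarith
  have h2 : Real.sqrt M * N / X ≤ 4 * (sM * r) := by
    rw [div_le_iff₀ hX0, ← hsM, hr]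
    calc sM * (r * sT) = 4 * (sM * r) * (sT / 4) := by ring
      _ ≤ 4 * (sM * r) * X := by gcongr
  unfold Lg
  have h4 : 4 * (sM * r) ≤ e * (4 * (sM * r)) := le_mul_of_one_le_left (by positivity) he
  have h5 : 0 ≤ e * (sM * r) := by positivity
  nlinarith

/-- bounds for `r` -/
theorem r_le {T N r sT : ℝ} (hT : 1 ≤ T) (hNT : N ≤ T ^ (1 / 2 + 1 / 150 : ℝ))
    (hsT : sT = T ^ (1 / 2 : ℝ)) (hr : N = r * sT) : r ≤ T ^ (1 / 150 : ℝ) := by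
  have hT0 : 0 < T := by linarith
  have hsT0 : 0 < sT := by rw [hsT]; positivity
  have h5 : r * sT ≤ T ^ (1 / 150 : ℝ) * sT := by
    rw [← hr, hsT, ← Real.rpow_add hT0]
    refine le_trans hNT (le_of_eq ?_)
    norm_num
  exact le_of_mul_le_mul_right h5 hsT0

/-- bound for `w` -/
theorem w_le {T r sM : ℝ} (hT : 1 ≤ T) (hr0 : 0 < r) (hr : r ≤ T ^ (1 / 150 : ℝ))
    (hsM : sM = T ^ (1 / 40 : ℝ)) : 1 + sM * r ≤ 2 * T ^ (19 / 600 : ℝ) := by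
  have hT0 : 0 < T := by linarith
  have h1 : (1 : ℝ) ≤ T ^ (19 / 600 : ℝ) := Real.one_le_rpow hT (by norm_num)
  have h2 : sM * r ≤ T ^ (19 / 600 : ℝ) := by
    calc sM * r ≤ T ^ (1 / 40 : ℝ) * T ^ (1 / 150 : ℝ) := by rw [hsM]; gcongr
      _ = T ^ (19 / 600 : ℝ) := by rw [← Real.rpow_add hT0]; norm_num
  linarith

/-- the hypothesis of condition (iii) -/
theorem hyp_iii {T N r y w sT sN M : ℝ} (hT : 1 ≤ T) (hr0 : 0 < r) (hr : r ≤ T ^ (1 / 150 : ℝ))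
    (hw0 : 0 < w) (hw : w ≤ 2 * T ^ (19 / 600 : ℝ)) (hy : 0 ≤ y) (hM : M = T ^ (1 / 20 : ℝ))
    (hN : N = r * sT) (hsT0 : 0 < sT) (hsT2 : sT ^ 2 = T) (hsN0 : 0 < sN) (hsN2 : sN ^ 2 = N)
    (hy4 : y ^ 4 = r ^ 6 * M ^ 3 * w) (h8 : 8 ≤ T ^ (1 / 10 : ℝ)) :
    N ^ 3 * sN * M ^ 4 * w ≤ T ^ 2 * y := by
  have hT0 : 0 < T := by linarith
  have hM0 : 0 < M := by rw [hM]; positivity
  refine (pow_le_pow_iff_left₀ (by rw [hN]; positivity) (by positivity)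
    (show (4 : ℕ) ≠ 0 by norm_num)).1 ?_
  have e1 : (N ^ 3 * sN * M ^ 4 * w) ^ 4 = (r ^ 8 * M ^ 13 * w ^ 3) * (T ^ 7 * (r ^ 6 * M ^ 3 * w)) := by
    have : (N ^ 3 * sN * M ^ 4 * w) ^ 4 = N ^ 12 * (sN ^ 2) ^ 2 * M ^ 16 * w ^ 4 := by ring
    rw [this, hsN2, hN, ← hsT2]
    ring
  have e2 : (T ^ 2 * y) ^ 4 = T * (T ^ 7 * (r ^ 6 * M ^ 3 * w)) := by
    rw [mul_pow, hy4]; ring
  rw [e1, e2]
  apply mul_le_mul_of_nonneg_right _ (by positivity)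
  calc r ^ 8 * M ^ 13 * w ^ 3 ≤ (T ^ (1 / 150 : ℝ)) ^ 8 * (T ^ (1 / 20 : ℝ)) ^ 13 *
        (2 * T ^ (19 / 600 : ℝ)) ^ 3 := by rw [hM]; gcongr
    _ = 8 * T ^ (8 / 150 + 13 / 20 + 57 / 600 : ℝ) := by
        rw [mul_pow, pw hT0, pw hT0, pw hT0, Real.rpow_add hT0, Real.rpow_add hT0]
        norm_num
        ring
    _ ≤ T ^ (1 / 10 : ℝ) * T ^ (8 / 150 + 13 / 20 + 57 / 600 : ℝ) := by gcongr
    _ ≤ T ^ (1 : ℝ) := by
        rw [← Real.rpow_add hT0]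
        exact Real.rpow_le_rpow_of_exponent_le hT (by norm_num)
    _ = T := Real.rpow_one T

/-- `B` is small -/
theorem mb_le {T N M r y w e B C1 ε u sN : ℝ} (hT : 1 ≤ T) (hε : 0 < ε) (hε1 : ε < 1 / 1000)
    (hr0 : 0 < r) (hr : r ≤ T ^ (1 / 150 : ℝ)) (hw0 : 0 < w) (hw : w ≤ 2 * T ^ (19 / 600 : ℝ))
    (hy : 0 ≤ y) (hy4 : y ^ 4 = r ^ 6 * M ^ 3 * w) (hN : T ^ (2 / 5 : ℝ) ≤ N)
    (hM : M = T ^ (1 / 20 : ℝ)) (he : e = T ^ (ε / 2)) (hC1 : 0 < C1)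
    (h4 : 4 * C1 ≤ T ^ (1 / 20 : ℝ)) (hu : 1 ≤ u)
    (hsN : sN = Real.sqrt N) (hB : B = C1 * e * (r + y) / u ^ 2) :
    M * B ≤ sN := by
  have hT0 : 0 < T := by linarith
  have he0 : 0 < e := by rw [he]; positivity
  have hM0 : 0 < M := by rw [hM]; positivity
  have hy1 : y ≤ 2 * T ^ (133 / 2400 : ℝ) := by
    refine (pow_le_pow_iff_left₀ hy (by positivity) (show (4 : ℕ) ≠ 0 by norm_num)).1 ?_
    rw [hy4]
    calc r ^ 6 * M ^ 3 * w ≤ (T ^ (1 / 150 : ℝ)) ^ 6 * (T ^ (1 / 20 : ℝ)) ^ 3 *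
          (2 * T ^ (19 / 600 : ℝ)) := by rw [hM]; gcongr
      _ = 2 * T ^ (133 / 600 : ℝ) := by
          rw [pw hT0, pw hT0]
          have : T ^ (133 / 600 : ℝ) = T ^ (1 / 150 * (6 : ℕ) : ℝ) * T ^ (1 / 20 * (3 : ℕ) : ℝ) *
              T ^ (19 / 600 : ℝ) := by
            rw [← Real.rpow_add hT0, ← Real.rpow_add hT0]; norm_num
          rw [this]; ring
      _ ≤ 2 ^ 4 * T ^ (133 / 600 : ℝ) := by gcongr; norm_num
      _ = (2 * T ^ (133 / 2400 : ℝ)) ^ 4 := by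
          rw [mul_pow, pw hT0]; norm_num
  have hry : r + y ≤ 4 * T ^ (133 / 2400 : ℝ) := by
    have h1 : r ≤ T ^ (133 / 2400 : ℝ) :=
      hr.trans (Real.rpow_le_rpow_of_exponent_le hT (by norm_num))
    have h2 : (0 : ℝ) ≤ T ^ (133 / 2400 : ℝ) := by positivity
    linarith
  have hB1 : B ≤ 4 * C1 * (e * T ^ (133 / 2400 : ℝ)) := by
    rw [hB]
    have hu2 : 1 ≤ u ^ 2 := one_le_pow₀ hu
    calc C1 * e * (r + y) / u ^ 2 ≤ C1 * e * (r + y) := div_le_self (by positivity) hu2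
      _ ≤ C1 * e * (4 * T ^ (133 / 2400 : ℝ)) := by gcongr
      _ = 4 * C1 * (e * T ^ (133 / 2400 : ℝ)) := by ring
  have hsN1 : T ^ (1 / 5 : ℝ) ≤ sN := by
    rw [hsN]
    refine Real.le_sqrt_of_sq_le ?_
    rw [pw hT0]
    refine le_trans (le_of_eq ?_) hN
    norm_num
  refine le_trans ?_ hsN1
  calc M * B ≤ M * (4 * C1 * (e * T ^ (133 / 2400 : ℝ))) := by gcongr
    _ ≤ M * (T ^ (1 / 20 : ℝ) * (e * T ^ (133 / 2400 : ℝ))) := by gcongr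
    _ = T ^ (1 / 20 + (1 / 20 + (ε / 2 + 133 / 2400)) : ℝ) := by
        rw [hM, he, ← Real.rpow_add hT0, ← Real.rpow_add hT0, ← Real.rpow_add hT0]
    _ ≤ T ^ (1 / 5 : ℝ) := Real.rpow_le_rpow_of_exponent_le hT (by linarith)

/-- the final comparison -/
theorem fin_le {T r y w M sM sr : ℝ} (hT : 1 ≤ T) (hr0 : 0 < r) (hr : r ≤ T ^ (1 / 150 : ℝ))
    (hy : 0 ≤ y) (hy4 : y ^ 4 = r ^ 6 * M ^ 3 * w) (hM : M = T ^ (1 / 20 : ℝ))
    (hsM : sM = T ^ (1 / 40 : ℝ)) (hw : w = 1 + sM * r) (hsr : sr = Real.sqrt r) :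
    (r + y) / (M * sr) ≤ 3 * (T ^ (-(1 / 160) : ℝ) * r ^ (5 / 4 : ℝ) + T ^ (-(1 / 60) : ℝ)) := by
  have hT0 : 0 < T := by linarith
  have hM0 : 0 < M := by rw [hM]; positivity
  have hsM0 : 0 < sM := by rw [hsM]; positivity
  have hsr0 : 0 < sr := by rw [hsr]; exact Real.sqrt_pos.2 hr0
  have hsr2 : sr ^ 2 = r := by rw [hsr, Real.sq_sqrt hr0.le]
  have hMs : M = sM ^ 2 := by rw [hM, hsM, pw hT0]; norm_num
  have hw0 : 0 < w := by rw [hw]; positivity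
  have h1 : r / (M * sr) ≤ T ^ (-(1 / 60) : ℝ) := by
    have e1 : r / (M * sr) = sr / M := by
      rw [← hsr2]; field_simp
    rw [e1, div_le_iff₀ hM0]
    calc sr ≤ T ^ (1 / 300 : ℝ) := by
          rw [hsr, Real.sqrt_eq_rpow]
          calc r ^ (1 / 2 : ℝ) ≤ (T ^ (1 / 150 : ℝ)) ^ (1 / 2 : ℝ) := by gcongr
            _ = T ^ (1 / 300 : ℝ) := by rw [← Real.rpow_mul hT0.le]; norm_num
      _ ≤ T ^ (-(1 / 60) : ℝ) * M := by
          rw [hM, ← Real.rpow_add hT0]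
          exact Real.rpow_le_rpow_of_exponent_le hT (by norm_num)
  have hA0 : 0 < T ^ (-(1 / 160) : ℝ) * r ^ (5 / 4 : ℝ) := by positivity
  have hB0 : 0 < T ^ (-(1 / 60) : ℝ) := by positivity
  have h2 : y / (M * sr) ≤ 2 * (T ^ (-(1 / 160) : ℝ) * r ^ (5 / 4 : ℝ) + T ^ (-(1 / 60) : ℝ)) := by
    refine (pow_le_pow_iff_left₀ (by positivity) (by positivity)
      (show (4 : ℕ) ≠ 0 by norm_num)).1 ?_
    have e1 : (y / (M * sr)) ^ 4 = r ^ 4 * w / M := by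
      rw [div_pow, hy4, mul_pow]
      have : sr ^ 4 = r ^ 2 := by rw [← hsr2]; ring
      rw [this]; field_simp
    rw [e1]
    rcases le_total 1 (sM * r) with h3 | h3
    · have h4 : (T ^ (-(1 / 160) : ℝ) * r ^ (5 / 4 : ℝ)) ^ 4 = r ^ 5 / sM := by
        rw [mul_pow, pw hT0, pw hr0, hsM, eq_div_iff (by positivity)]
        have e5 : (5 / 4 : ℝ) * (4 : ℕ) = (5 : ℕ) := by norm_num
        rw [e5, Real.rpow_natCast]
        have e6 : T ^ (-(1 / 160) * (4 : ℕ) : ℝ) * T ^ (1 / 40 : ℝ) = 1 := by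
          rw [← Real.rpow_add hT0]; norm_num
        calc T ^ (-(1 / 160) * (4 : ℕ) : ℝ) * r ^ 5 * T ^ (1 / 40 : ℝ) =
            T ^ (-(1 / 160) * (4 : ℕ) : ℝ) * T ^ (1 / 40 : ℝ) * r ^ 5 := by ring
          _ = r ^ 5 := by rw [e6, one_mul]
      calc r ^ 4 * w / M ≤ r ^ 4 * (2 * (sM * r)) / M := by
            have : w ≤ 2 * (sM * r) := by rw [hw]; linarith
            gcongr
        _ = 2 * (r ^ 5 / sM) := by rw [hMs]; field_simp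
        _ = 2 * (T ^ (-(1 / 160) : ℝ) * r ^ (5 / 4 : ℝ)) ^ 4 := by rw [h4]
        _ ≤ 2 ^ 4 * (T ^ (-(1 / 160) : ℝ) * r ^ (5 / 4 : ℝ) + T ^ (-(1 / 60) : ℝ)) ^ 4 := by
            gcongr
            · norm_num
            · linarith
        _ = _ := by rw [mul_pow]
    · have h4 : r ≤ 1 / sM := by rw [le_div_iff₀ hsM0]; linarith
      calc r ^ 4 * w / M ≤ (1 / sM) ^ 4 * 2 / M := by
            have : w ≤ 2 := by rw [hw]; linarith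
            gcongr
        _ = 2 * (1 / sM ^ 6) := by rw [hMs]; field_simp
        _ ≤ 2 ^ 4 * (T ^ (-(1 / 60) : ℝ)) ^ 4 := by
            have e7 : 1 / sM ^ 6 ≤ (T ^ (-(1 / 60) : ℝ)) ^ 4 := by
              rw [div_le_iff₀ (by positivity), hsM, pw hT0, pw hT0, ← Real.rpow_add hT0]
              exact Real.one_le_rpow hT (by norm_num)
            have : (0 : ℝ) ≤ (T ^ (-(1 / 60) : ℝ)) ^ 4 := by positivity
            linarith
        _ ≤ 2 ^ 4 * (T ^ (-(1 / 160) : ℝ) * r ^ (5 / 4 : ℝ) + T ^ (-(1 / 60) : ℝ)) ^ 4 := by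
            gcongr
            linarith
        _ = _ := by rw [mul_pow]
  rw [add_div]
  linarith

end Fb_aux

/-- Item Fb. -/
theorem iFb (hFw : StFw) (hLV : StLV) (hWc : StWc) (hMb : StMb) : StFb := by
  intro φ Θ hφ C' ε hC' hε hε1
  obtain ⟨CF, hCF, hF⟩ := hFw φ Θ hφ C' hC'
  obtain ⟨CL, hCL, hLV'⟩ := hLV
  obtain ⟨CW, hCW, hW⟩ := hWc
  obtain ⟨CM, hCM, hMb'⟩ := hMb φ Θ hφ C' hC'
  -- the constant of `B`
  obtain ⟨C1, hC1⟩ : ∃ C1, C1 = 5 * CL * (2 * CF) ^ 12 := ⟨_, rfl⟩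
  have hC1a : 4 * CF ^ 2 * CL ≤ C1 := by
    rw [hC1]
    have h2 : (2 * CF) ^ 2 ≤ (2 * CF) ^ 12 := pow_le_pow_right₀ (by linarith) (by norm_num)
    have h3 : 0 ≤ (2 * CF) ^ 12 := by positivity
    calc 4 * CF ^ 2 * CL = 1 * CL * (2 * CF) ^ 2 := by ring
      _ ≤ 5 * CL * (2 * CF) ^ 12 := by gcongr; norm_num
  have hC1p : 0 < C1 := lt_of_lt_of_le (by positivity) hC1a
  obtain ⟨T0, hT02, hT0⟩ := Fb_aux.thr CF CL C1 ε hε
  refine ⟨max T0 (max CF (max CM (CW * C1 * 3))), le_trans hT02 (le_max_left _ _), ?_⟩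
  intro T G N u a hT hG hGT hN1 hNC hN2 hNT ha hu
  have hTT0 : T0 ≤ T := le_trans (le_max_left _ _) hT
  have hTF : CF ≤ T := le_trans (le_trans (le_max_left _ _) (le_max_right _ _)) hT
  have hTM : CM ≤ T :=
    le_trans (le_trans (le_trans (le_max_left _ _) (le_max_right _ _)) (le_max_right _ _)) hT
  have hGF : CF ≤ G := le_trans (le_trans (le_max_left _ _) (le_max_right _ _)) hG
  have hGM : CM ≤ G :=
    le_trans (le_trans (le_trans (le_max_left _ _) (le_max_right _ _)) (le_max_right _ _)) hG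
  obtain ⟨hlog, h136, h16, h4C, h4F⟩ := hT0 T hTT0
  have hT1 : 1 ≤ T := by linarith
  have hTp : 0 < T := by linarith
  have hNp : 0 < N := by linarith
  -- abbreviations
  obtain ⟨M, hM⟩ : ∃ M, M = T ^ (1 / 20 : ℝ) := ⟨_, rfl⟩
  obtain ⟨sN, hsN⟩ : ∃ sN, sN = Real.sqrt N := ⟨_, rfl⟩
  obtain ⟨sT, hsT⟩ : ∃ sT, sT = Real.sqrt T := ⟨_, rfl⟩
  obtain ⟨sM, hsM⟩ : ∃ sM, sM = Real.sqrt M := ⟨_, rfl⟩
  obtain ⟨Q, hQ⟩ : ∃ Q, Q = Real.sqrt (Real.sqrt (N * T)) := ⟨_, rfl⟩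
  obtain ⟨e, he⟩ : ∃ e, e = T ^ (ε / 2) := ⟨_, rfl⟩
  have hM1 : 1 ≤ M := by rw [hM]; exact Real.one_le_rpow hT1 (by norm_num)
  have he1 : 1 ≤ e := by rw [he]; exact Real.one_le_rpow hT1 (by linarith)
  have hsN1 : 1 ≤ sN := by rw [hsN]; exact Real.one_le_sqrt.2 hN1
  have hsT1 : 1 ≤ sT := by rw [hsT]; exact Real.one_le_sqrt.2 hT1
  have hsM1 : 1 ≤ sM := by rw [hsM]; exact Real.one_le_sqrt.2 hM1
  have hsT2 : sT ^ 2 = T := by rw [hsT, Real.sq_sqrt hTp.le]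
  have hsN2 : sN ^ 2 = N := by rw [hsN, Real.sq_sqrt hNp.le]
  have hsT' : sT = T ^ (1 / 2 : ℝ) := by rw [hsT, Real.sqrt_eq_rpow]
  have hsM' : sM = T ^ (1 / 40 : ℝ) := by
    rw [hsM, Real.sqrt_eq_rpow, hM, ← Real.rpow_mul hTp.le]; norm_num
  have hQ2 : Q ^ 2 = sN * sT := by
    rw [hQ, Real.sq_sqrt (Real.sqrt_nonneg _), Real.sqrt_mul hNp.le, hsN, hsT]
  have hQ4 : Q ^ 4 = N * T := by
    calc Q ^ 4 = (Q ^ 2) ^ 2 := by ring
      _ = sN ^ 2 * sT ^ 2 := by rw [hQ2]; ring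
      _ = N * T := by rw [hsN2, hsT2]
  have hQ0 : 0 < Q := by
    rw [hQ]; exact Real.sqrt_pos.2 (Real.sqrt_pos.2 (by positivity))
  obtain ⟨r, hr⟩ : ∃ r, r = N / sT := ⟨_, rfl⟩
  have hNr : N = r * sT := by rw [hr]; field_simp
  have hr0 : 0 < r := by rw [hr]; positivity
  have hrle : r ≤ T ^ (1 / 150 : ℝ) := Fb_aux.r_le hT1 hNT hsT' hNr
  obtain ⟨w, hw⟩ : ∃ w, w = 1 + sM * r := ⟨_, rfl⟩
  have hw0 : 0 < w := by rw [hw]; positivity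
  have hwle : w ≤ 2 * T ^ (19 / 600 : ℝ) := by rw [hw]; exact Fb_aux.w_le hT1 hr0 hrle hsM'
  obtain ⟨y, hyd⟩ : ∃ y, y = (r ^ 6 * M ^ 3 * w) ^ (1 / 4 : ℝ) := ⟨_, rfl⟩
  have hMp : 0 < M := by linarith
  have hy0 : 0 ≤ y := by rw [hyd]; positivity
  have hy4 : y ^ 4 = r ^ 6 * M ^ 3 * w := by
    rw [hyd, ← Real.rpow_natCast, ← Real.rpow_mul (by positivity)]
    norm_num
  obtain ⟨B, hB⟩ : ∃ B, B = C1 * e * (r + y) / u ^ 2 := ⟨_, rfl⟩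
  have hB0 : 0 < B := by rw [hB]; positivity
  have hNle : N ≤ T ^ (38 / 75 : ℝ) := by
    refine le_trans hNT (le_of_eq ?_); norm_num
  have hsNle : sN ≤ T ^ (19 / 75 : ℝ) := by
    rw [hsN, Real.sqrt_eq_rpow]
    calc N ^ (1 / 2 : ℝ) ≤ (T ^ (1 / 2 + 1 / 150 : ℝ)) ^ (1 / 2 : ℝ) := by gcongr
      _ = T ^ (19 / 75 : ℝ) := by rw [← Real.rpow_mul hTp.le]; norm_num
  -- the window length
  have hL0 : 0 < M * sN := by positivity
  have hLle : M * sN ≤ Real.sqrt T := by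
    rw [← hsT, hsT']
    calc M * sN ≤ T ^ (1 / 20 : ℝ) * T ^ (19 / 75 : ℝ) := by rw [hM]; gcongr
      _ ≤ T ^ (1 / 2 : ℝ) := by
          rw [← Real.rpow_add hTp]
          exact Real.rpow_le_rpow_of_exponent_le hT1 (by norm_num)
  have hMN : M * N ≤ T := by
    calc M * N ≤ T ^ (1 / 20 : ℝ) * T ^ (38 / 75 : ℝ) := by rw [hM]; gcongr
      _ ≤ T ^ (1 : ℝ) := by
          rw [← Real.rpow_add hTp]
          exact Real.rpow_le_rpow_of_exponent_le hT1 (by norm_num)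
      _ = T := Real.rpow_one T
  have hMB : M * B ≤ sN :=
    Fb_aux.mb_le hT1 hε hε1 hr0 hrle hw0 hwle hy0 hy4 hN2 hM he hC1p h4C hu hsN hB
  have hSm : MeasurableSet (BS Θ T G a N u) := (hMb' T G hTM hGM hGT).2 N u a hN1 hNC |>.2
  -- the measure of a window
  have key : ∀ X : ℝ, 0 < X → X ^ 2 ∈ sI T →
      Rr {x : ℝ | x ∈ Icc 0 (M * sN) ∧ (X + x) ^ 2 ∈ BS Θ T G a N u} ≤ B := by
    intro X hX hXs
    obtain ⟨a', ha', hF'⟩ := hF T G N X a hTF hGF hGT hN1 hNC ha hX hXs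
    have hX4 : sT / 4 ≤ X := by
      have h1 : T / 16 ≤ X ^ 2 := by
        refine le_trans ?_ hXs.1
        rw [div_le_div_iff_of_pos_left hTp (by norm_num) (by positivity)]
        have := Real.pi_lt_four
        linarith
      have h2 : (sT / 4) ^ 2 ≤ X ^ 2 := by
        rw [div_pow, hsT2]
        linarith
      exact (pow_le_pow_iff_left₀ (by positivity) hX.le (by norm_num)).1 h2
    have hLg : Lg X N M ≤ 5 * e * w := by
      rw [hw]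
      exact Fb_aux.lg_le hT1 hN1 hM1 hMN he1 (by rw [he]; exact hlog) (by linarith) hX4 hNr hsM
    have hWm : MeasurableSet {x : ℝ | x ∈ Icc 0 (M * sN) ∧ (X + x) ^ 2 ∈ BS Θ T G a N u} :=
      measurableSet_Icc.inter
        ((show Measurable fun x : ℝ => (X + x) ^ 2 by fun_prop) hSm)
    obtain ⟨V, hV⟩ : ∃ V, V = u * Q / (2 * CF) := ⟨_, rfl⟩
    have hV0 : 0 < V := by rw [hV]; positivity
    refine (hLV' X N M V B a' _ hN1 hX ?_ hM1 hV0 ?_ hB0 (by rw [← hsN]; exact hMB) ?_ ?_ ?_ ha'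
      hWm ?_ ?_).le
    · -- `C N ≤ X²`
      have h1 : T / 16 ≤ X ^ 2 := by
        calc T / 16 = (sT / 4) ^ 2 := by rw [div_pow, hsT2]; norm_num
          _ ≤ X ^ 2 := pow_le_pow_left₀ (by positivity) hX4 2
      refine le_trans ?_ h1
      have h2 : 16 * CL * N ≤ T := by
        calc 16 * CL * N ≤ T ^ (1 / 10 : ℝ) * T ^ (38 / 75 : ℝ) := by gcongr
          _ ≤ T ^ (1 : ℝ) := by
              rw [← Real.rpow_add hTp]
              exact Real.rpow_le_rpow_of_exponent_le hT1 (by norm_num)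
          _ = T := Real.rpow_one T
      linarith
    · -- `C ≤ V²`
      have h1 : V ^ 2 = u ^ 2 * (sN * sT) / (4 * CF ^ 2) := by
        rw [hV, div_pow, mul_pow, hQ2]; ring
      rw [h1, le_div_iff₀ (by positivity)]
      have hu2 : 1 ≤ u ^ 2 := one_le_pow₀ hu
      calc CL * (4 * CF ^ 2) = 4 * CF ^ 2 * CL := by ring
        _ ≤ T ^ (1 / 2 : ℝ) := h4F
        _ = 1 * (1 * sT) := by rw [hsT']; ring
        _ ≤ u ^ 2 * (sN * sT) := by gcongr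
    · rw [← hsN, hV, hB]
      exact Fb_aux.alg_i hCL hCF hC1a he1 hr0 hy0 (by linarith) (by linarith) hQ2 hu hNr
    · rw [hV, hB]
      exact Fb_aux.alg_ii hCL hCF hC1.ge he1 hr0 hy0 hTp hMp hNp hQ4 hu hNr hsT2 hLg hy4
    · rw [← hsN, hV, hB]
      exact Fb_aux.alg_iii hCL hCF hC1.ge he1 hr0 hy0 hw0 hTp hMp hNp (by linarith) hQ4 hu hLg
        (Fb_aux.hyp_iii hT1 hr0 hrle hw0 hwle hy0 hM hNr (by linarith) hsT2 (by linarith) hsN2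
          hy4 (by linarith))
    · rw [← hsN]
      exact fun x hx => hx.1
    · intro x hx
      obtain ⟨hx1, hx2⟩ := hx
      have h1 := hF' x hx1.1 hx2.1
      have h2 : u ≤ ‖SJ Θ T G a N ((X + x) ^ 2)‖ := hx2.2
      have h3 := Fb_aux.err hCF hT1 hN1 hNT hQ hsN hsT hM h136 hX4 hx1.1 hx1.2
      rw [← hQ, ← hsN] at h1
      have h4 : ‖SJ Θ T G a N ((X + x) ^ 2)‖ - ‖((CF / Q : ℝ) : ℂ) * SS X N a' x‖ ≤ 1 / 2 :=
        le_trans (norm_sub_norm_le _ _) (le_trans h1 h3)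
      rw [norm_mul, Complex.norm_real, Real.norm_of_nonneg (by positivity)] at h4
      have h5 : u / 2 ≤ CF / Q * ‖SS X N a' x‖ := by linarith
      rw [hV, div_le_iff₀ (by positivity)]
      have h6 : u / 2 * Q ≤ CF / Q * ‖SS X N a' x‖ * Q := by gcongr
      have h7 : CF / Q * ‖SS X N a' x‖ * Q = CF * ‖SS X N a' x‖ := by field_simp
      rw [h7] at h6
      linarith
  have hfin := hW T (M * sN) B (BS Θ T G a N u) hT1 hL0 hLle hB0.le hSm (fun s hs => hs.1) key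
  have hCm : CW * C1 * 3 ≤ max T0 (max CF (max CM (CW * C1 * 3))) :=
    le_trans (le_trans (le_max_right _ _) (le_max_right _ _)) (le_max_right _ _)
  obtain ⟨sr, hsr⟩ : ∃ sr, sr = Real.sqrt r := ⟨_, rfl⟩
  have hsr0 : 0 < sr := by rw [hsr]; exact Real.sqrt_pos.2 hr0
  have hTs : T / sN = T ^ (3 / 4 : ℝ) / sr := by
    have h1 : sN = sr * T ^ (1 / 4 : ℝ) := by
      rw [hsN, hNr, Real.sqrt_mul hr0.le, ← hsr, hsT', Real.sqrt_eq_rpow,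
        ← Real.rpow_mul hTp.le]
      norm_num
    have h2 : T = T ^ (3 / 4 : ℝ) * T ^ (1 / 4 : ℝ) := by
      rw [← Real.rpow_add hTp]; norm_num
    rw [h1, div_eq_div_iff (by positivity) (by positivity)]
    nth_rewrite 1 [h2]
    ring
  have hfl := Fb_aux.fin_le hT1 hr0 hrle hy0 hy4 hM hsM' hw hsr
  have hee : T ^ (3 / 4 : ℝ) * e ≤ T ^ (3 / 4 + ε) := by
    rw [he, ← Real.rpow_add hTp]
    exact Real.rpow_le_rpow_of_exponent_le hT1 (by linarith)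
  have hR0 : 0 ≤ T ^ (-(1 / 160) : ℝ) * r ^ (5 / 4 : ℝ) + T ^ (-(1 / 60) : ℝ) := by positivity
  rw [← hsT, ← hr]
  calc u * Rr (BS Θ T G a N u) ≤ u * (CW * (T / (M * sN)) * B) := by gcongr
    _ = CW * C1 * e * (T / sN) * ((r + y) / M) * (1 / u) := by
        rw [hB]; field_simp
    _ ≤ CW * C1 * e * (T / sN) * ((r + y) / M) * 1 := by
        have : 1 / u ≤ 1 := by rw [div_le_one (by linarith)]; exact hu
        gcongr
    _ = CW * C1 * (T ^ (3 / 4 : ℝ) * e) * ((r + y) / (M * sr)) := by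
        rw [hTs]; field_simp
    _ ≤ CW * C1 * T ^ (3 / 4 + ε) *
        (3 * (T ^ (-(1 / 160) : ℝ) * r ^ (5 / 4 : ℝ) + T ^ (-(1 / 60) : ℝ))) := by gcongr
    _ = (CW * C1 * 3) * T ^ (3 / 4 + ε) *
        (T ^ (-(1 / 160) : ℝ) * r ^ (5 / 4 : ℝ) + T ^ (-(1 / 60) : ℝ)) := by ring
    _ ≤ max T0 (max CF (max CM (CW * C1 * 3))) * T ^ (3 / 4 + ε) *
        (T ^ (-(1 / 160) : ℝ) * r ^ (5 / 4 : ℝ) + T ^ (-(1 / 60) : ℝ)) := by
        gcongr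

end Pool.Agent.Work.MP_56b8f5_nt.UB
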