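import Pool.Agent.Work.MP_56b8f5_nt.UB.Stmts

/-!
MP_56b8f5_nt, block UB: item Fc, the classical range.
-/

open MeasureTheory Set Filter Topology

noncomputable section

namespace Pool.Agent.Work.MP_56b8f5_nt.UB

namespace Fc_aux

lemma rpow_exp (l c : ℝ) : (Real.exp l) ^ c = Real.exp (c * l) := by
  rw [← Real.exp_mul, mul_comm]

lemma qq (l ν : ℝ) : Real.sqrt (Real.sqrt (Real.exp ν * Real.exp l)) = Real.exp ((ν + l) / 4) := by
  rw [← Real.exp_add, ← Real.exp_half, ← Real.exp_half]
  congr 1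
  ring

/-- The trivial bound for a block. -/
lemma triv (Θ : ℝ → ℝ) (T G N q CA s : ℝ) (a : ℕ → ℂ) (hN : 1 ≤ N) (hT : 0 < T) (hCA : 0 ≤ CA)
    (hq : q = Real.sqrt (Real.sqrt (N * T))) (ha : ∀ n, ‖a n‖ ≤ 1)
    (hJ : ∀ n : ℕ, 1 ≤ n → (n : ℝ) ≤ 2 * N → ‖JJ Θ T G n s‖ ≤ CA / Real.sqrt (Real.sqrt (n * T))) :
    ‖SJ Θ T G a N s‖ ≤ 2 * N * (CA / q) := by
  have hq0 : 0 < q := by rw [hq]; positivity
  have h1 : ∀ n ∈ Finset.Ioc ⌊N⌋₊ ⌊2 * N⌋₊, ‖a n * JJ Θ T G n s‖ ≤ CA / q := by
    intro n hn
    rw [Finset.mem_Ioc] at hn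
    have hn1 : N < n := Nat.lt_of_floor_lt hn.1
    have hn2 : (n : ℝ) ≤ 2 * N := (Nat.le_floor_iff (by linarith)).1 hn.2
    have hn3 : 1 ≤ n := by
      have : (1 : ℝ) < n := by linarith
      exact_mod_cast this.le
    rw [norm_mul]
    have h2 := hJ n hn3 hn2
    have h3 : CA / Real.sqrt (Real.sqrt (n * T)) ≤ CA / q := by
      refine div_le_div_of_nonneg_left hCA hq0 ?_
      rw [hq]
      refine Real.sqrt_le_sqrt (Real.sqrt_le_sqrt ?_)
      exact mul_le_mul_of_nonneg_right hn1.le hT.le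
    calc ‖a n‖ * ‖JJ Θ T G n s‖ ≤ 1 * (CA / q) :=
          mul_le_mul (ha n) (h2.trans h3) (norm_nonneg _) zero_le_one
      _ = CA / q := one_mul _
  unfold SJ
  refine (norm_sum_le _ _).trans ((Finset.sum_le_sum h1).trans ?_)
  rw [Finset.sum_const, nsmul_eq_mul, Nat.card_Ioc]
  refine mul_le_mul_of_nonneg_right ?_ (by positivity)
  have h4 : ((⌊2 * N⌋₊ - ⌊N⌋₊ : ℕ) : ℝ) ≤ (⌊2 * N⌋₊ : ℝ) := by exact_mod_cast Nat.sub_le _ _
  exact h4.trans (Nat.floor_le (by linarith))

/-- The lower bound for the window points. -/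
lemma sI_lo {T s : ℝ} (hT : 0 < T) (hs : s ∈ sI T) : T / 16 ≤ s := by
  refine le_trans ?_ hs.1
  have := Real.pi_lt_d2
  have h0 := Real.pi_pos
  rw [div_le_div_iff₀ (by norm_num) (by positivity)]
  nlinarith

end Fc_aux

open Fc_aux

theorem iFc (hAM : StAM) (hFw : StFw) (hHM : StHM) (hWc : StWc) (hMb : StMb) : StFc := by
  intro φ Θ hφ C' ε hC' hε hε1
  obtain ⟨CA, hCA, hA⟩ := hAM φ Θ hφ C' hC'
  obtain ⟨CF, hCF, hF⟩ := hFw φ Θ hφ C' hC'
  obtain ⟨CH, hCH, hH⟩ := hHM
  obtain ⟨CW, hCW, hW⟩ := hWc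
  obtain ⟨CM, hCM, hM⟩ := hMb φ Θ hφ C' hC'
  obtain ⟨K, hK⟩ : ∃ K : ℝ, K = 2 * CA + 1 + 136 * CF + 16 * CH + 4 * CF ^ 2 * CH := ⟨_, rfl⟩
  obtain ⟨T1, hT1⟩ := eventually_atTop.1 ((tendsto_rpow_atTop hε).eventually_ge_atTop K)
  refine ⟨max 2 (max CA (max CF (max CM (max T1 (4 * CW * CF ^ 2 * CH))))), le_max_left _ _, ?_⟩
  intro T G N u a hT hG hGT hN hNT hNε ha hu
  have hm : ∀ x : ℝ, max 2 (max CA (max CF (max CM (max T1 (4 * CW * CF ^ 2 * CH))))) ≤ x →
      2 ≤ x ∧ CA ≤ x ∧ CF ≤ x ∧ CM ≤ x ∧ T1 ≤ x ∧ 4 * CW * CF ^ 2 * CH ≤ x := by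
    intro x hx
    simpa only [max_le_iff] using hx
  obtain ⟨hT2, hTA, hTF, hTM, hTT, -⟩ := hm T hT
  obtain ⟨hG2, hGA, hGF, hGM, -, -⟩ := hm G hG
  have hfin := (hm _ le_rfl).2.2.2.2.2
  obtain ⟨CC, hCC⟩ : ∃ CC, CC = max 2 (max CA (max CF (max CM (max T1 (4 * CW * CF ^ 2 * CH))))) :=
    ⟨_, rfl⟩
  rw [← hCC] at hfin ⊢
  have hT0 : 0 < T := by linarith
  have hN0 : 0 < N := by linarith
  obtain ⟨l, hl⟩ : ∃ l, l = Real.log T := ⟨_, rfl⟩
  obtain ⟨ν, hν⟩ : ∃ ν, ν = Real.log N := ⟨_, rfl⟩
  have eT : T = Real.exp l := by rw [hl, Real.exp_log hT0]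
  have eN : N = Real.exp ν := by rw [hν, Real.exp_log hN0]
  have hl0 : 0 ≤ l := by rw [hl]; exact Real.log_nonneg (by linarith)
  have hν0 : 0 ≤ ν := by rw [hν]; exact Real.log_nonneg hN
  have hKT : K ≤ Real.exp (ε * l) := by
    rw [← rpow_exp, ← eT]
    exact hT1 T hTT
  have hεl : 0 ≤ ε * l := by positivity
  have hνε : ν ≤ (1 / 2 - 10 * ε) * l := by
    have h := hNε
    rw [eT, rpow_exp, eN] at h
    exact Real.exp_le_exp.1 h
  have hq : Real.sqrt (Real.sqrt (N * T)) = Real.exp ((ν + l) / 4) := by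
    rw [eN, eT, qq]
  have hsN : Real.sqrt N = Real.exp (ν / 2) := by rw [eN, ← Real.exp_half]
  have hsT : Real.sqrt T = Real.exp (l / 2) := by rw [eT, ← Real.exp_half]
  have hK1 : 2 * CA + 1 ≤ K := by
    rw [hK]
    have : 0 ≤ 4 * CF ^ 2 * CH := by positivity
    linarith
  have hK2 : 136 * CF ≤ K := by
    rw [hK]
    have : 0 ≤ 4 * CF ^ 2 * CH := by positivity
    linarith
  have hK3 : 16 * CH ≤ K := by
    rw [hK]
    have : 0 ≤ 4 * CF ^ 2 * CH := by positivity
    linarith
  have hK4 : 4 * CF ^ 2 * CH ≤ K := by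
    rw [hK]
    linarith
  have hRHS : 0 ≤ CC * T ^ (10 * ε) * (N ^ 2 * Real.sqrt N / Real.sqrt T) := by
    have : 0 ≤ CC := by rw [hCC]; exact le_trans (by norm_num) (le_max_left _ _)
    positivity
  by_cases hcase : ν ≤ (1 / 3 - 2 * ε) * l
  · -- the set is empty
    have hemp : BS Θ T G a N u = ∅ := by
      rw [Set.eq_empty_iff_forall_notMem]
      rintro s ⟨hs, hsu⟩
      have h1 := triv Θ T G N _ CA s a hN hT0 (by linarith) rfl ha (fun n hn1 hn2 =>
        (hA T G s n hTA hGA hGT hs hn1 (hn2.trans hNT)).1)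
      rw [hq] at h1
      have h2 : 2 * N * (CA / Real.exp ((ν + l) / 4)) = 2 * CA * Real.exp (ν - (ν + l) / 4) := by
        rw [eN, Real.exp_sub]
        ring
      have h3 : Real.exp (ν - (ν + l) / 4) ≤ Real.exp (-(ε * l)) := by
        apply Real.exp_le_exp.2
        linarith
      have h4 : 2 * CA * Real.exp (-(ε * l)) < 1 := by
        rw [Real.exp_neg, ← div_eq_mul_inv, div_lt_one (Real.exp_pos _)]
        linarith
      have h5 : 2 * CA * Real.exp (ν - (ν + l) / 4) ≤ 2 * CA * Real.exp (-(ε * l)) :=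
        mul_le_mul_of_nonneg_left h3 (by linarith)
      rw [h2] at h1
      linarith
    rw [hemp]
    simpa [Rr] using hRHS
  · push Not at hcase
    -- the windows
    obtain ⟨M, hMd⟩ : ∃ M, M = Real.exp ((1 - 5 * ε) * l - 2 * ν) := ⟨_, rfl⟩
    obtain ⟨L, hL⟩ : ∃ L, L = Real.exp ((1 - 5 * ε) * l - 3 / 2 * ν) := ⟨_, rfl⟩
    have hM0 : 0 < M := by rw [hMd]; exact Real.exp_pos _
    have hL0 : 0 < L := by rw [hL]; exact Real.exp_pos _
    have hM1 : 1 ≤ M := by
      rw [hMd]
      apply Real.one_le_exp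
      linarith
    have hML : M * Real.sqrt N = L := by
      rw [hMd, hL, hsN, ← Real.exp_add]
      congr 1
      ring
    have hLT : L ≤ Real.sqrt T := by
      rw [hL, hsT]
      apply Real.exp_le_exp.2
      linarith
    obtain ⟨V, hV⟩ : ∃ V, V = u / 2 * Real.exp ((ν + l) / 4) / CF := ⟨_, rfl⟩
    have hCF0 : 0 < CF := by linarith
    have hV0 : 0 < V := by rw [hV]; positivity
    have hV2 : V ^ 2 = u ^ 2 * Real.exp ((ν + l) / 2) / (4 * CF ^ 2) := by
      rw [hV]
      have : Real.exp ((ν + l) / 2) = Real.exp ((ν + l) / 4) ^ 2 := by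
        rw [← Real.exp_nat_mul]
        congr 1
        push_cast
        ring
      rw [this]
      field_simp
      ring
    obtain ⟨B, hB⟩ : ∃ B, B = 4 * CF ^ 2 * CH * Real.exp (ν - l / 2) / u ^ 2 := ⟨_, rfl⟩
    have hu0 : 0 < u := by linarith
    have hB0 : 0 ≤ B := by rw [hB]; positivity
    have hmeas := ((hM T G hTM hGM hGT).2 N u a hN hNT).2
    have hwin : ∀ X : ℝ, 0 < X → X ^ 2 ∈ sI T →
        Rr {x : ℝ | x ∈ Icc 0 L ∧ (X + x) ^ 2 ∈ BS Θ T G a N u} ≤ B := by
      intro X hX hXs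
      obtain ⟨a', ha', hFa⟩ := hF T G N X a hTF hGF hGT hN hNT ha hX hXs
      have hX2 := sI_lo hT0 hXs
      have hX1 : Real.exp (l / 2) / 4 ≤ X := by
        have h1 : (Real.exp (l / 2) / 4) ^ 2 ≤ X ^ 2 := by
          have : Real.exp (l / 2) ^ 2 = T := by
            rw [eT, ← Real.exp_nat_mul]
            congr 1
            push_cast
            ring
          rw [div_pow, this]
          linarith
        exact le_of_sq_le_sq h1 hX.le
      -- the error of the linearisation
      have herr : ∀ x : ℝ, 0 ≤ x → x ≤ L →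
          CF * (N / Real.exp ((ν + l) / 4)) * (x ^ 2 * (N * Real.sqrt N) / X ^ 3 + x / X) ≤ 1 / 2 := by
        intro x hx0 hxL
        have hE0 : 0 < Real.exp (l / 2) / 4 := by positivity
        have e1 : x / X ≤ 4 * Real.exp ((1 / 2 - 5 * ε) * l - 3 / 2 * ν) := by
          calc x / X ≤ L / (Real.exp (l / 2) / 4) := div_le_div₀ hL0.le hxL hE0 hX1
            _ = 4 * Real.exp ((1 / 2 - 5 * ε) * l - 3 / 2 * ν) := by
                have : Real.exp ((1 / 2 - 5 * ε) * l - 3 / 2 * ν) = L / Real.exp (l / 2) := by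
                  rw [hL, ← Real.exp_sub]
                  congr 1
                  ring
                rw [this]
                field_simp
        have e2 : x ^ 2 * (N * Real.sqrt N) / X ^ 3 ≤
            64 * Real.exp ((1 / 2 - 10 * ε) * l - 3 / 2 * ν) := by
          have h1 : x ^ 2 * (N * Real.sqrt N) ≤ L ^ 2 * (N * Real.sqrt N) :=
            mul_le_mul_of_nonneg_right (pow_le_pow_left₀ hx0 hxL 2) (by positivity)
          have h2 : (Real.exp (l / 2) / 4) ^ 3 ≤ X ^ 3 := pow_le_pow_left₀ hE0.le hX1 3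
          calc x ^ 2 * (N * Real.sqrt N) / X ^ 3
              ≤ L ^ 2 * (N * Real.sqrt N) / (Real.exp (l / 2) / 4) ^ 3 :=
                div_le_div₀ (by positivity) h1 (by positivity) h2
            _ = 64 * Real.exp ((1 / 2 - 10 * ε) * l - 3 / 2 * ν) := by
                have h3 : L ^ 2 * (N * Real.sqrt N) = Real.exp ((1 / 2 - 10 * ε) * l - 3 / 2 * ν) *
                    Real.exp (l / 2) ^ 3 := by
                  rw [hL, hsN, eN, ← Real.exp_nat_mul, ← Real.exp_nat_mul, ← Real.exp_add,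
                    ← Real.exp_add, ← Real.exp_add]
                  congr 1
                  push_cast
                  ring
                rw [h3]
                have h4 : 0 < Real.exp (l / 2) := Real.exp_pos _
                field_simp
                ring
        have e3 : N / Real.exp ((ν + l) / 4) = Real.exp (3 / 4 * ν - l / 4) := by
          rw [eN, ← Real.exp_sub]
          congr 1
          ring
        rw [e3]
        have e4 : Real.exp (3 / 4 * ν - l / 4) * (x ^ 2 * (N * Real.sqrt N) / X ^ 3 + x / X) ≤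
            68 * Real.exp (-(ε * l)) := by
          have h0 : 0 < Real.exp (3 / 4 * ν - l / 4) := Real.exp_pos _
          have h1 : Real.exp (3 / 4 * ν - l / 4) * (x ^ 2 * (N * Real.sqrt N) / X ^ 3) ≤
              64 * Real.exp (-(ε * l)) := by
            refine (mul_le_mul_of_nonneg_left e2 h0.le).trans ?_
            have : Real.exp (3 / 4 * ν - l / 4) * (64 * Real.exp ((1 / 2 - 10 * ε) * l - 3 / 2 * ν)) =
                64 * Real.exp (3 / 4 * ν - l / 4 + ((1 / 2 - 10 * ε) * l - 3 / 2 * ν)) := by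
              rw [Real.exp_add]
              ring
            rw [this]
            refine mul_le_mul_of_nonneg_left (Real.exp_le_exp.2 ?_) (by norm_num)
            linarith
          have h2 : Real.exp (3 / 4 * ν - l / 4) * (x / X) ≤ 4 * Real.exp (-(ε * l)) := by
            refine (mul_le_mul_of_nonneg_left e1 h0.le).trans ?_
            have : Real.exp (3 / 4 * ν - l / 4) * (4 * Real.exp ((1 / 2 - 5 * ε) * l - 3 / 2 * ν)) =
                4 * Real.exp (3 / 4 * ν - l / 4 + ((1 / 2 - 5 * ε) * l - 3 / 2 * ν)) := by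
              rw [Real.exp_add]
              ring
            rw [this]
            refine mul_le_mul_of_nonneg_left (Real.exp_le_exp.2 ?_) (by norm_num)
            linarith
          linarith
        have e5 : CF * (68 * Real.exp (-(ε * l))) ≤ 1 / 2 := by
          have h1 : 136 * CF * Real.exp (-(ε * l)) ≤ 1 := by
            rw [Real.exp_neg, ← div_eq_mul_inv, div_le_one (Real.exp_pos _)]
            linarith
          linarith
        have e6 := mul_le_mul_of_nonneg_left e4 hCF0.le
        rw [mul_assoc]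
        linarith
      have hWm : MeasurableSet {x : ℝ | x ∈ Icc 0 L ∧ (X + x) ^ 2 ∈ BS Θ T G a N u} := by
        have hc : Measurable fun x : ℝ => (X + x) ^ 2 := by fun_prop
        exact measurableSet_Icc.inter (hc hmeas)
      have hHW := hH X N M V a' {x : ℝ | x ∈ Icc 0 L ∧ (X + x) ^ 2 ∈ BS Θ T G a N u} hN hX (by
          -- `CH N ≤ X²`
          have h1 : CH * N ≤ T / 16 := by
            have h2 : N ≤ Real.exp (l - ε * l) := by
              rw [eN]
              apply Real.exp_le_exp.2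
              linarith
            have h3 : T = Real.exp (ε * l) * Real.exp (l - ε * l) := by
              rw [eT, ← Real.exp_add]
              congr 1
              ring
            have h4 : 0 < Real.exp (l - ε * l) := Real.exp_pos _
            rw [h3]
            nlinarith [mul_le_mul_of_nonneg_left h2 (by linarith : (0 : ℝ) ≤ CH),
              mul_le_mul_of_nonneg_right (hK3.trans hKT) h4.le]
          linarith) hM1 hV0 (by
          -- the condition on `V`
          have h1 : N * Real.sqrt N * Real.sqrt M = Real.exp (1 / 2 * ν + (1 / 2 - 5 / 2 * ε) * l) := by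
            rw [hsN, eN, hMd, ← Real.exp_half, ← Real.exp_add, ← Real.exp_add]
            congr 1
            ring
          rw [h1, hV2, le_div_iff₀ (by positivity)]
          have h2 : 4 * CF ^ 2 * CH * Real.exp (1 / 2 * ν + (1 / 2 - 5 / 2 * ε) * l) ≤
              Real.exp ((ν + l) / 2) := by
            have h3 : Real.exp ((ν + l) / 2) =
                Real.exp (5 / 2 * (ε * l)) * Real.exp (1 / 2 * ν + (1 / 2 - 5 / 2 * ε) * l) := by
              rw [← Real.exp_add]
              congr 1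
              ring
            rw [h3]
            refine mul_le_mul_of_nonneg_right ?_ (Real.exp_pos _).le
            refine (hK4.trans hKT).trans (Real.exp_le_exp.2 ?_)
            linarith
          have h4 : Real.exp ((ν + l) / 2) ≤ u ^ 2 * Real.exp ((ν + l) / 2) :=
            le_mul_of_one_le_left (Real.exp_pos _).le (one_le_pow₀ hu)
          linarith) ha' hWm (by
          intro x hx
          rw [hML]
          exact hx.1) (by
          rintro x ⟨hxI, hxs, hxu⟩
          have h1 := hFa x hxI.1 hxs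
          rw [hq] at h1
          have h2 := herr x hxI.1 hxI.2
          have h3 : ‖SJ Θ T G a N ((X + x) ^ 2)‖ ≤
              ‖SJ Θ T G a N ((X + x) ^ 2) - (CF / Real.exp ((ν + l) / 4) : ℝ) * SS X N a' x‖ +
                ‖((CF / Real.exp ((ν + l) / 4) : ℝ) : ℂ) * SS X N a' x‖ := by
            have := norm_add_le (SJ Θ T G a N ((X + x) ^ 2) -
              (CF / Real.exp ((ν + l) / 4) : ℝ) * SS X N a' x)
              (((CF / Real.exp ((ν + l) / 4) : ℝ) : ℂ) * SS X N a' x)
            rwa [sub_add_cancel] at this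
          have h4 : ‖((CF / Real.exp ((ν + l) / 4) : ℝ) : ℂ) * SS X N a' x‖ =
              CF / Real.exp ((ν + l) / 4) * ‖SS X N a' x‖ := by
            rw [norm_mul, Complex.norm_real, Real.norm_of_nonneg (by positivity)]
          rw [h4] at h3
          have h5 : u / 2 ≤ CF / Real.exp ((ν + l) / 4) * ‖SS X N a' x‖ := by
            have h6 := h1.trans h2
            linarith
          rw [hV, div_le_iff₀ hCF0]
          rw [div_mul_eq_mul_div, le_div_iff₀ (Real.exp_pos _)] at h5
          linarith)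
      -- conclude
      have h1 : N * Real.sqrt N = Real.exp (3 / 2 * ν) := by
        rw [hsN, eN, ← Real.exp_add]
        congr 1
        ring
      rw [h1, hV2] at hHW
      rw [hB, le_div_iff₀ (by positivity)]
      have h2 : Real.exp (3 / 2 * ν) = Real.exp (ν - l / 2) * Real.exp ((ν + l) / 2) := by
        rw [← Real.exp_add]
        congr 1
        ring
      rw [h2, div_mul_eq_mul_div, div_le_iff₀ (by positivity)] at hHW
      have h3 : 0 < Real.exp ((ν + l) / 2) := Real.exp_pos _
      refine le_of_mul_le_mul_right ?_ h3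
      refine le_trans (le_of_eq ?_) (hHW.trans (le_of_eq ?_)) <;> ring
    have hres := hW T L B (BS Θ T G a N u) (by linarith) hL0 hLT hB0 hmeas (fun s hs => hs.1) hwin
    -- final computation
    have h1 : T / L * B = 4 * CF ^ 2 * CH * Real.exp (5 / 2 * ν - l / 2 + 5 * (ε * l)) / u ^ 2 := by
      have h2 : T / L = Real.exp (5 * (ε * l) + 3 / 2 * ν) := by
        rw [eT, hL, ← Real.exp_sub]
        congr 1
        ring
      rw [h2, hB]
      have h3 : Real.exp (5 / 2 * ν - l / 2 + 5 * (ε * l)) =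
          Real.exp (5 * (ε * l) + 3 / 2 * ν) * Real.exp (ν - l / 2) := by
        rw [← Real.exp_add]
        congr 1
        ring
      rw [h3]
      ring
    have h4 : T ^ (10 * ε) * (N ^ 2 * Real.sqrt N / Real.sqrt T) =
        Real.exp (5 / 2 * ν - l / 2 + 10 * (ε * l)) := by
      have h5 : N ^ 2 = Real.exp (2 * ν) := by
        rw [eN, ← Real.exp_nat_mul]
        push_cast
        rfl
      rw [h5, hsN, hsT, eT, rpow_exp, ← Real.exp_add, ← Real.exp_sub, ← Real.exp_add]
      congr 1
      ring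
    rw [mul_assoc CC, h4]
    have h6 : u * Rr (BS Θ T G a N u) ≤ CW * (4 * CF ^ 2 * CH *
        Real.exp (5 / 2 * ν - l / 2 + 5 * (ε * l))) := by
      have h7 : Rr (BS Θ T G a N u) ≤ CW * (4 * CF ^ 2 * CH *
          Real.exp (5 / 2 * ν - l / 2 + 5 * (ε * l)) / u ^ 2) := by
        rw [← h1, ← mul_assoc]
        exact hres
      have h8 := mul_le_mul_of_nonneg_left h7 hu0.le
      refine h8.trans ?_
      have h9 : u * (CW * (4 * CF ^ 2 * CH * Real.exp (5 / 2 * ν - l / 2 + 5 * (ε * l)) / u ^ 2)) =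
          CW * (4 * CF ^ 2 * CH * Real.exp (5 / 2 * ν - l / 2 + 5 * (ε * l))) / u := by
        field_simp
      rw [h9]
      exact div_le_self (by positivity) hu
    refine h6.trans ?_
    have h10 : CW * (4 * CF ^ 2 * CH * Real.exp (5 / 2 * ν - l / 2 + 5 * (ε * l))) =
        4 * CW * CF ^ 2 * CH * Real.exp (5 / 2 * ν - l / 2 + 5 * (ε * l)) := by ring
    rw [h10]
    refine mul_le_mul hfin (Real.exp_le_exp.2 (by linarith)) (Real.exp_pos _).le ?_
    rw [hCC]
    exact le_trans (by norm_num) (le_max_left _ _)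

end Pool.Agent.Work.MP_56b8f5_nt.UB
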