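import Pool.Agent.Work.MP_56b8f5_nt.UB.Stmts

/-!
MP_56b8f5_nt, block UB, item H: the four-fold correlation of the chirps is dominated by an
integrable function of `x1 + x2 - x3 - x4`.
-/

set_option autoImplicit false

open MeasureTheory Set Filter Topology

noncomputable section

namespace Pool.Agent.Work.MP_56b8f5_nt.UB

namespace H_aux

lemma norm_ee (x : ℝ) : ‖ee x‖ = 1 := Complex.norm_exp_ofReal_mul_I _

lemma ee_neg (x : ℝ) : ee (-x) = (starRingEnd ℂ) (ee x) := by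
  unfold ee
  rw [← Complex.exp_conj]
  congr 1
  rw [map_mul, Complex.conj_I, Complex.conj_ofReal]
  push_cast
  ring

lemma ee_add (x y : ℝ) : ee (x + y) = ee x * ee y := by
  unfold ee
  rw [← Complex.exp_add]
  congr 1
  push_cast
  ring

lemma ee_zero : ee 0 = 1 := by
  unfold ee
  simp

lemma ee_mul_neg (x : ℝ) : ee x * ee (-x) = 1 := by
  rw [← ee_add, add_neg_cancel, ee_zero]

/-- integrability of an even function -/
lemma integrable_abs {g : ℝ → ℝ} (hg : IntegrableOn g (Ioi 0)) :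
    Integrable (fun u => g |u|) := by
  have h1 : IntegrableOn (fun u => g |u|) (Ioi 0) := by
    refine hg.congr_fun (fun x hx => ?_) measurableSet_Ioi
    simp only [abs_of_pos (mem_Ioi.1 hx)]
  have h2 : IntegrableOn (fun u => g |u|) (Iic 0) := by
    rw [← Measure.map_neg_eq_self (volume : Measure ℝ)]
    let m : MeasurableEmbedding fun x : ℝ => -x := (Homeomorph.neg ℝ).measurableEmbedding
    rw [m.integrableOn_map_iff]
    simp_rw [Function.comp_def, abs_neg, neg_preimage, neg_Iic, neg_zero]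
    exact Iff.mpr integrableOn_Ici_iff_integrableOn_Ioi h1
  have := h2.union h1
  rwa [Iic_union_Ioi, integrableOn_univ] at this

/-- a function on `ℝ` supported, on the right half line, in `(l, r]` -/
lemma ind_abs {S : Set ℝ} (hS : MeasurableSet S) {l r : ℝ} {f : ℝ → ℝ}
    (hSI : Ioi 0 ∩ S = Ioc l r) (hf : IntegrableOn f (Ioc l r)) :
    Integrable (fun u => S.indicator f |u|) ∧
      ∫ u, S.indicator f |u| = 2 * ∫ u in Ioc l r, f u := by
  constructor
  · apply integrable_abs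
    rw [IntegrableOn, integrable_indicator_iff hS, IntegrableOn, Measure.restrict_restrict hS,
      inter_comm, hSI]
    exact hf
  · rw [integral_comp_abs, setIntegral_indicator hS, hSI]

lemma int_inv_sqrt {r : ℝ} (hr : 0 ≤ r) : IntegrableOn (fun u : ℝ => 1 / Real.sqrt u) (Ioc 0 r) ∧
    ∫ u in Ioc 0 r, 1 / Real.sqrt u = 2 * Real.sqrt r := by
  have e : EqOn (fun u : ℝ => u ^ (-(1 / 2) : ℝ)) (fun u : ℝ => 1 / Real.sqrt u) (Ioc 0 r) := by
    intro u hu
    simp only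
    rw [Real.rpow_neg hu.1.le, Real.sqrt_eq_rpow, one_div, one_div]
  constructor
  · refine IntegrableOn.congr_fun ?_ e measurableSet_Ioc
    have := intervalIntegral.intervalIntegrable_rpow' (a := 0) (b := r)
      (r := (-(1 / 2) : ℝ)) (by norm_num)
    rwa [intervalIntegrable_iff_integrableOn_Ioc_of_le hr] at this
  · rw [← setIntegral_congr_fun measurableSet_Ioc e, ← intervalIntegral.integral_of_le hr,
      integral_rpow (Or.inl (by norm_num))]
    rw [Real.sqrt_eq_rpow, Real.zero_rpow (by norm_num)]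
    norm_num
    ring

lemma int_inv {l r : ℝ} (hl : 0 < l) (hlr : l ≤ r) :
    IntegrableOn (fun u : ℝ => 1 / u) (Ioc l r) ∧
    ∫ u in Ioc l r, 1 / u = Real.log (r / l) := by
  constructor
  · have : ContinuousOn (fun u : ℝ => 1 / u) (Icc l r) := by
      refine continuousOn_const.div continuousOn_id fun x hx => ?_
      exact (hl.trans_le hx.1).ne'
    exact (this.integrableOn_Icc).mono_set Ioc_subset_Icc_self
  · rw [← intervalIntegral.integral_of_le hlr, integral_one_div_of_pos hl (hl.trans_le hlr)]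

/-- derivative of a product of four functions -/
lemma prod4 {g1 g2 g3 g4 : ℝ → ℂ} {d1 d2 d3 d4 : ℂ} {x s e : ℝ} (hs : 0 ≤ s) (he : 0 ≤ e)
    (h1 : HasDerivAt g1 d1 x) (h2 : HasDerivAt g2 d2 x) (h3 : HasDerivAt g3 d3 x)
    (h4 : HasDerivAt g4 d4 x) (n1 : ‖g1 x‖ ≤ s) (n2 : ‖g2 x‖ ≤ s) (n3 : ‖g3 x‖ ≤ s)
    (n4 : ‖g4 x‖ ≤ s) (m1 : ‖d1‖ ≤ e) (m2 : ‖d2‖ ≤ e) (m3 : ‖d3‖ ≤ e) (m4 : ‖d4‖ ≤ e) :
    ∃ d, HasDerivAt (fun y => g1 y * g2 y * g3 y * g4 y) d x ∧ ‖d‖ ≤ 4 * s ^ 3 * e := by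
  refine ⟨_, ((h1.mul h2).mul h3).mul h4, ?_⟩
  have b : ∀ a b c d : ℂ, ∀ p q r t : ℝ, 0 ≤ p → 0 ≤ q → 0 ≤ r → 0 ≤ t → ‖a‖ ≤ p → ‖b‖ ≤ q →
      ‖c‖ ≤ r → ‖d‖ ≤ t → ‖a * b * c * d‖ ≤ p * q * r * t := by
    intro a b c d p q r t hp hq hr ht ha hb hc hd
    rw [norm_mul, norm_mul, norm_mul]
    gcongr
  have e1 := b d1 (g2 x) (g3 x) (g4 x) e s s s he hs hs hs m1 n2 n3 n4
  have e2 := b (g1 x) d2 (g3 x) (g4 x) s e s s hs he hs hs n1 m2 n3 n4
  have e3 := b (g1 x) (g2 x) d3 (g4 x) s s e s hs hs he hs n1 n2 m3 n4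
  have e4 := b (g1 x) (g2 x) (g3 x) d4 s s s e hs hs hs he n1 n2 n3 m4
  have key : ((d1 * g2 x + g1 x * d2) * g3 x + (g1 * g2) x * d3) * g4 x +
      (g1 * g2 * g3) x * d4 =
      d1 * g2 x * g3 x * g4 x + g1 x * d2 * g3 x * g4 x + g1 x * g2 x * d3 * g4 x +
        g1 x * g2 x * g3 x * d4 := by
    simp only [Pi.mul_apply]
    ring
  rw [key]
  refine (norm_add_le _ _).trans ?_
  refine (add_le_add_left (norm_add_le _ _) _).trans ?_
  refine (add_le_add_left (add_le_add_left (norm_add_le _ _) _) _).trans ?_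
  nlinarith [e1, e2, e3, e4]

lemma hasDerivAt_conj {g : ℝ → ℂ} {d : ℂ} {x : ℝ} (h : HasDerivAt g d x) :
    HasDerivAt (fun y => (starRingEnd ℂ) (g y)) ((starRingEnd ℂ) d) x := h.star

lemma continuous_Ph (X m : ℝ) : Continuous (Ph X m) := by
  unfold Ph ws nn
  have h1 : Continuous fun x : ℝ => Real.arsinh (x / (m * X)) :=
    Real.continuous_arsinh.comp (continuous_id.div_const _)
  have h2 : Continuous fun x : ℝ => 2 * X * Real.arsinh (x / (m * X)) := continuous_const.mul h1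
  refine (continuous_id.mul h2).sub (continuous_const.mul (continuous_const.mul ?_))
  exact (Real.continuous_cosh.comp (h2.div_const _)).sub continuous_const

lemma continuous_DP (X m x1 x2 x3 x4 : ℝ) : Continuous (DP X m x1 x2 x3 x4) := by
  unfold DP
  have h := continuous_Ph X m
  have h' : ∀ y : ℝ, Continuous fun x : ℝ => Ph X m (x - y) := fun y =>
    h.comp (continuous_id.sub continuous_const)
  exact (((h' x1).add (h' x2)).sub (h' x3)).sub (h' x4)

/-- the common interval of definition -/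
lemma mem_iff (lo hi x1 x2 x3 x4 x : ℝ) :
    x ∈ Icc (max (max x1 x2) (max x3 x4) + lo) (min (min x1 x2) (min x3 x4) + hi) ↔
      ((lo ≤ x - x1 ∧ x - x1 ≤ hi) ∧ (lo ≤ x - x2 ∧ x - x2 ≤ hi)) ∧
      ((lo ≤ x - x3 ∧ x - x3 ≤ hi) ∧ (lo ≤ x - x4 ∧ x - x4 ≤ hi)) := by
  rw [mem_Icc, ← le_sub_iff_add_le, ← sub_le_iff_le_add]
  simp only [max_le_iff, le_min_iff]
  constructor
  · rintro ⟨⟨⟨h1, h2⟩, h3, h4⟩, ⟨h5, h6⟩, h7, h8⟩
    refine ⟨⟨⟨?_, ?_⟩, ?_, ?_⟩, ⟨?_, ?_⟩, ?_, ?_⟩ <;> linarith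
  · rintro ⟨⟨⟨h1, h2⟩, h3, h4⟩, ⟨h5, h6⟩, h7, h8⟩
    refine ⟨⟨⟨?_, ?_⟩, ?_, ?_⟩, ⟨?_, ?_⟩, ?_, ?_⟩ <;> linarith

/-- the integrand of `HH` -/
lemma integrand {X N : ℝ} {m : ℕ} {lo hi : ℝ} (hlo : lo = m * Real.sqrt N / 2)
    (hhi : hi = 2 * m * Real.sqrt N) (x1 x2 x3 x4 : ℝ) :
    (fun x => KJ X N m (x - x1) * KJ X N m (x - x2) * (starRingEnd ℂ) (KJ X N m (x - x3)) *
      (starRingEnd ℂ) (KJ X N m (x - x4))) =
    (Icc (max (max x1 x2) (max x3 x4) + lo) (min (min x1 x2) (min x3 x4) + hi)).indicator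
      (fun x => ((ee (-(Ph X m (x - x1))) * KK X N m (x - x1)) *
        (ee (-(Ph X m (x - x2))) * KK X N m (x - x2)) *
        (starRingEnd ℂ) (ee (-(Ph X m (x - x3))) * KK X N m (x - x3)) *
        (starRingEnd ℂ) (ee (-(Ph X m (x - x4))) * KK X N m (x - x4))) *
          ee (DP X m x1 x2 x3 x4 x)) := by
  funext x
  by_cases hx : x ∈ Icc (max (max x1 x2) (max x3 x4) + lo) (min (min x1 x2) (min x3 x4) + hi)
  · rw [indicator_of_mem hx]
    obtain ⟨⟨h1, h2⟩, h3, h4⟩ := (mem_iff lo hi x1 x2 x3 x4 x).1 hx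
    rw [hlo, hhi] at h1 h2 h3 h4
    simp only [KJ, if_pos h1, if_pos h2, if_pos h3, if_pos h4]
    have e : ee (DP X m x1 x2 x3 x4 x) = ee (Ph X m (x - x1)) * ee (Ph X m (x - x2)) *
        ee (-(Ph X m (x - x3))) * ee (-(Ph X m (x - x4))) := by
      rw [← ee_add, ← ee_add, ← ee_add]
      congr 1
    have c : ∀ t : ℝ, (starRingEnd ℂ) (ee (-t)) = ee t := fun t => by
      rw [← ee_neg, neg_neg]
    rw [e, map_mul, map_mul, c, c]
    have f1 := ee_mul_neg (Ph X m (x - x1))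
    have f2 := ee_mul_neg (Ph X m (x - x2))
    have f3 := ee_mul_neg (Ph X m (x - x3))
    have f4 := ee_mul_neg (Ph X m (x - x4))
    calc KK X N m (x - x1) * KK X N m (x - x2) * (starRingEnd ℂ) (KK X N m (x - x3)) *
          (starRingEnd ℂ) (KK X N m (x - x4))
        = (ee (Ph X m (x - x1)) * ee (-(Ph X m (x - x1)))) *
          (ee (Ph X m (x - x2)) * ee (-(Ph X m (x - x2)))) *
          (ee (Ph X m (x - x3)) * ee (-(Ph X m (x - x3)))) *
          (ee (Ph X m (x - x4)) * ee (-(Ph X m (x - x4)))) *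
          (KK X N m (x - x1) * KK X N m (x - x2) * (starRingEnd ℂ) (KK X N m (x - x3)) *
          (starRingEnd ℂ) (KK X N m (x - x4))) := by
          rw [f1, f2, f3, f4]
          ring
      _ = _ := by ring
  · rw [indicator_of_notMem hx]
    rw [mem_iff, hlo, hhi] at hx
    simp only [KJ]
    by_cases h1 : m * Real.sqrt N / 2 ≤ x - x1 ∧ x - x1 ≤ 2 * m * Real.sqrt N
    · by_cases h2 : m * Real.sqrt N / 2 ≤ x - x2 ∧ x - x2 ≤ 2 * m * Real.sqrt N
      · by_cases h3 : m * Real.sqrt N / 2 ≤ x - x3 ∧ x - x3 ≤ 2 * m * Real.sqrt N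
        · have h4 : ¬ (m * Real.sqrt N / 2 ≤ x - x4 ∧ x - x4 ≤ 2 * m * Real.sqrt N) :=
            fun h4 => hx ⟨⟨h1, h2⟩, h3, h4⟩
          rw [if_neg h4, map_zero, mul_zero]
        · rw [if_neg h3, map_zero, mul_zero, zero_mul]
      · rw [if_neg h2, mul_zero, zero_mul, zero_mul]
    · rw [if_neg h1, zero_mul, zero_mul, zero_mul]

/-- The correlation is bounded by the pure exponential integral. -/
lemma HH_le (hVp : StVp) {X N : ℝ} {m : ℕ} (hN : 1 ≤ N) (hm : 1 ≤ m) {C3 : ℝ} (hC3 : 0 ≤ C3)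
    (hn : ∀ t, ‖KK X N m t‖ ≤ C3 * Real.sqrt (N / m))
    (hd : ∀ t, m * Real.sqrt N / 2 ≤ t → t ≤ 2 * m * Real.sqrt N →
      ∃ A' : ℂ, HasDerivAt (fun t => ee (-(Ph X m t)) * KK X N m t) A' t ∧
        ‖A'‖ ≤ C3 / (m * Real.sqrt m)) (x1 x2 x3 x4 : ℝ) {B : ℝ} (hB : 0 ≤ B)
    (h : ∀ a b : ℝ, a ≤ b → (∀ x ∈ Icc a b, ∀ y ∈ ({x1, x2, x3, x4} : Set ℝ),
      m * Real.sqrt N / 2 ≤ x - y ∧ x - y ≤ 2 * m * Real.sqrt N) →
      |x1 + x2 - x3 - x4| ≤ 3 * m * Real.sqrt N →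
      ‖∫ x in a..b, ee (DP X m x1 x2 x3 x4 x)‖ ≤ B) :
    ‖HH (KJ X N m) x1 x2 x3 x4‖ ≤ 7 * C3 ^ 4 * (N / m) ^ 2 * B := by
  have hm0 : (0 : ℝ) < m := by exact_mod_cast hm
  have hN0 : 0 < N := by linarith
  have hsN : 0 < Real.sqrt N := Real.sqrt_pos.2 hN0
  have hsm : 0 < Real.sqrt m := Real.sqrt_pos.2 hm0
  unfold HH
  rw [integrand rfl rfl, integral_indicator measurableSet_Icc]
  set a := max (max x1 x2) (max x3 x4) + m * Real.sqrt N / 2 with ha
  set b := min (min x1 x2) (min x3 x4) + 2 * m * Real.sqrt N with hb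
  rcases lt_or_ge b a with hab | hab
  · rw [Icc_eq_empty (not_le.2 hab), setIntegral_empty, norm_zero]
    positivity
  rw [integral_Icc_eq_integral_Ioc, ← intervalIntegral.integral_of_le hab]
  have hI : ∀ x ∈ Icc a b, ((m * Real.sqrt N / 2 ≤ x - x1 ∧ x - x1 ≤ 2 * m * Real.sqrt N) ∧
      (m * Real.sqrt N / 2 ≤ x - x2 ∧ x - x2 ≤ 2 * m * Real.sqrt N)) ∧
      ((m * Real.sqrt N / 2 ≤ x - x3 ∧ x - x3 ≤ 2 * m * Real.sqrt N) ∧
      (m * Real.sqrt N / 2 ≤ x - x4 ∧ x - x4 ≤ 2 * m * Real.sqrt N)) := fun x hx =>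
    (mem_iff _ _ x1 x2 x3 x4 x).1 hx
  have hδ : |x1 + x2 - x3 - x4| ≤ 3 * m * Real.sqrt N := by
    obtain ⟨⟨h1, h2⟩, h3, h4⟩ := hI a (left_mem_Icc.2 hab)
    rw [abs_le]
    constructor <;> nlinarith [h1.1, h1.2, h2.1, h2.2, h3.1, h3.2, h4.1, h4.2]
  set G : ℝ → ℂ := fun t => ee (-(Ph X m t)) * KK X N m t with hG
  have hGn : ∀ t, ‖G t‖ ≤ C3 * Real.sqrt (N / m) := by
    intro t
    rw [hG]
    simp only
    rw [norm_mul, norm_ee, one_mul]
    exact hn t
  have hs : 0 ≤ C3 * Real.sqrt (N / m) := by positivity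
  have he : 0 ≤ C3 / (m * Real.sqrt m) := by positivity
  have hprod : ∀ x ∈ Icc a b, ∃ d, HasDerivAt (fun y => G (y - x1) * G (y - x2) *
      (starRingEnd ℂ) (G (y - x3)) * (starRingEnd ℂ) (G (y - x4))) d x ∧
      ‖d‖ ≤ 4 * (C3 * Real.sqrt (N / m)) ^ 3 * (C3 / (m * Real.sqrt m)) := by
    intro x hx
    obtain ⟨⟨h1, h2⟩, h3, h4⟩ := hI x hx
    obtain ⟨d1, k1, m1⟩ := hd _ h1.1 h1.2
    obtain ⟨d2, k2, m2⟩ := hd _ h2.1 h2.2
    obtain ⟨d3, k3, m3⟩ := hd _ h3.1 h3.2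
    obtain ⟨d4, k4, m4⟩ := hd _ h4.1 h4.2
    refine prod4 hs he (k1.comp_sub_const x x1) (k2.comp_sub_const x x2)
      (hasDerivAt_conj (k3.comp_sub_const x x3)) (hasDerivAt_conj (k4.comp_sub_const x x4))
      (hGn _) (hGn _) ?_ ?_ m1 m2 ?_ ?_
    · rw [RCLike.norm_conj]
      exact hGn _
    · rw [RCLike.norm_conj]
      exact hGn _
    · rw [RCLike.norm_conj]
      exact m3
    · rw [RCLike.norm_conj]
      exact m4
  have hV := hVp a b B (4 * (C3 * Real.sqrt (N / m)) ^ 3 * (C3 / (m * Real.sqrt m)))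
    (fun y => G (y - x1) * G (y - x2) * (starRingEnd ℂ) (G (y - x3)) *
      (starRingEnd ℂ) (G (y - x4))) (DP X m x1 x2 x3 x4) hab (by positivity)
    (fun x hx => by
      obtain ⟨d, hd1, -⟩ := hprod x hx
      exact hd1.continuousAt.continuousWithinAt)
    (fun x hx => by
      obtain ⟨d, hd1, hd2⟩ := hprod x (Ioo_subset_Icc_self hx)
      refine ⟨hd1.differentiableAt, ?_⟩
      rw [hd1.deriv]
      exact hd2)
    (continuous_DP _ _ _ _ _ _).continuousOn
    (fun y hy => by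
      refine h a y hy.1 ?_ hδ
      intro x hx z hz
      obtain ⟨⟨h1, h2⟩, h3, h4⟩ := hI x ⟨hx.1, hx.2.trans hy.2⟩
      simp only [mem_insert_iff, mem_singleton_iff] at hz
      rcases hz with rfl | rfl | rfl | rfl
      · exact h1
      · exact h2
      · exact h3
      · exact h4)
  refine hV.trans ?_
  have hPb : ‖G (b - x1) * G (b - x2) * (starRingEnd ℂ) (G (b - x3)) *
      (starRingEnd ℂ) (G (b - x4))‖ ≤ (C3 * Real.sqrt (N / m)) ^ 4 := by
    rw [norm_mul, norm_mul, norm_mul, RCLike.norm_conj, RCLike.norm_conj]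
    have g1 := hGn (b - x1)
    have g2 := hGn (b - x2)
    have g3 := hGn (b - x3)
    have g4 := hGn (b - x4)
    calc ‖G (b - x1)‖ * ‖G (b - x2)‖ * ‖G (b - x3)‖ * ‖G (b - x4)‖
        ≤ (C3 * Real.sqrt (N / m)) * (C3 * Real.sqrt (N / m)) * (C3 * Real.sqrt (N / m)) *
          (C3 * Real.sqrt (N / m)) := by gcongr
      _ = _ := by ring
  have hba : b - a ≤ 3 / 2 * (m * Real.sqrt N) := by
    obtain ⟨⟨h1, h2⟩, h3, h4⟩ := hI a (left_mem_Icc.2 hab)
    obtain ⟨⟨k1, k2⟩, k3, k4⟩ := hI b (right_mem_Icc.2 hab)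
    nlinarith [h1.1, k1.2]
  have hs2 : Real.sqrt (N / m) = Real.sqrt N / Real.sqrt m := Real.sqrt_div hN0.le _
  have hs4 : Real.sqrt (N / m) ^ 4 = (N / m) ^ 2 := by
    have := Real.sq_sqrt (show 0 ≤ N / m by positivity)
    calc Real.sqrt (N / m) ^ 4 = (Real.sqrt (N / m) ^ 2) ^ 2 := by ring
      _ = _ := by rw [this]
  have hD : 4 * (C3 * Real.sqrt (N / m)) ^ 3 * (C3 / (m * Real.sqrt m)) * (b - a) ≤
      6 * C3 ^ 4 * (N / m) ^ 2 := by
    calc 4 * (C3 * Real.sqrt (N / m)) ^ 3 * (C3 / (m * Real.sqrt m)) * (b - a)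
        ≤ 4 * (C3 * Real.sqrt (N / m)) ^ 3 * (C3 / (m * Real.sqrt m)) *
          (3 / 2 * (m * Real.sqrt N)) := by gcongr
      _ = 6 * C3 ^ 4 * (Real.sqrt (N / m) ^ 3 * (Real.sqrt N / Real.sqrt m)) := by
          field_simp
          ring
      _ = 6 * C3 ^ 4 * (N / m) ^ 2 := by
          rw [← hs2, ← hs4]
          ring
  calc B * (‖G (b - x1) * G (b - x2) * (starRingEnd ℂ) (G (b - x3)) *
      (starRingEnd ℂ) (G (b - x4))‖ +
      4 * (C3 * Real.sqrt (N / m)) ^ 3 * (C3 / (m * Real.sqrt m)) * (b - a))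
      ≤ B * ((C3 * Real.sqrt (N / m)) ^ 4 + 6 * C3 ^ 4 * (N / m) ^ 2) := by gcongr
    _ = 7 * C3 ^ 4 * (N / m) ^ 2 * B := by
        rw [mul_pow, hs4]
        ring

/-- the dominating function -/
def dom (X N : ℝ) (m : ℕ) (C1 : ℝ) (u : ℝ) : ℝ :=
  (Iic (1 / Real.sqrt N)).indicator (fun _ => m * Real.sqrt N) |u| +
  (Ioc (1 / Real.sqrt N) (3 * m * Real.sqrt N)).indicator (fun u => m * (1 / u)) |u| +
  (Iic (C1 * (m * N * Real.sqrt N / X ^ 2))).indicator
    (fun u => m * Real.sqrt (Real.sqrt N) * (1 / Real.sqrt u)) |u|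

lemma dom_meas (X N : ℝ) (m : ℕ) (C1 : ℝ) : Measurable (dom X N m C1) := by
  unfold dom
  refine Measurable.add (Measurable.add ?_ ?_) ?_
  · exact (measurable_const.indicator measurableSet_Iic).comp continuous_abs.measurable
  · refine Measurable.comp (g := (Ioc (1 / Real.sqrt N) (3 * m * Real.sqrt N)).indicator
      (fun u => (m : ℝ) * (1 / u))) ?_ continuous_abs.measurable
    refine Measurable.indicator ?_ measurableSet_Ioc
    fun_prop
  · refine Measurable.comp (g := (Iic (C1 * (m * N * Real.sqrt N / X ^ 2))).indicator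
      (fun u => (m : ℝ) * Real.sqrt (Real.sqrt N) * (1 / Real.sqrt u))) ?_
      continuous_abs.measurable
    refine Measurable.indicator ?_ measurableSet_Iic
    fun_prop

lemma t1_nonneg (N : ℝ) (m : ℕ) (u : ℝ) :
    0 ≤ (Iic (1 / Real.sqrt N)).indicator (fun _ => m * Real.sqrt N) |u| :=
  indicator_nonneg (fun _ _ => by positivity) _

lemma t2_nonneg (N : ℝ) (m : ℕ) (u : ℝ) :
    0 ≤ (Ioc (1 / Real.sqrt N) (3 * m * Real.sqrt N)).indicator
      (fun u => (m : ℝ) * (1 / u)) |u| := by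
  refine indicator_nonneg (fun x hx => ?_) _
  have h1 : 0 ≤ x := le_trans (by positivity) hx.1.le
  positivity

lemma t3_nonneg (N : ℝ) (m : ℕ) (r u : ℝ) :
    0 ≤ (Iic r).indicator (fun u => (m : ℝ) * Real.sqrt (Real.sqrt N) * (1 / Real.sqrt u)) |u| :=
  indicator_nonneg (fun _ _ => by positivity) _

lemma dom_nonneg (X N : ℝ) (m : ℕ) (C1 u : ℝ) : 0 ≤ dom X N m C1 u :=
  add_nonneg (add_nonneg (t1_nonneg _ _ _) (t2_nonneg _ _ _)) (t3_nonneg _ _ _ _)

lemma dom_int {X N : ℝ} {m : ℕ} {C1 : ℝ} (hN : 1 ≤ N) (hX : 0 < X) (hm : 1 ≤ m) (hC1 : 1 ≤ C1) :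
    Integrable (dom X N m C1) ∧ ∫ u, dom X N m C1 u =
      2 * m + 2 * m * Real.log (3 * (m * N)) +
        4 * Real.sqrt C1 * m * (Real.sqrt m * N / X) := by
  have hm0 : (1 : ℝ) ≤ m := by exact_mod_cast hm
  have hm1 : (0 : ℝ) < m := by linarith
  have hN0 : 0 < N := by linarith
  have hsN : 1 ≤ Real.sqrt N := Real.one_le_sqrt.2 hN
  have hsN0 : 0 < Real.sqrt N := by linarith
  have hr1 : 0 ≤ 1 / Real.sqrt N := by positivity
  have hr1' : 0 < 1 / Real.sqrt N := by positivity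
  have h13 : 1 / Real.sqrt N ≤ 3 * m * Real.sqrt N := by
    have : 1 / Real.sqrt N ≤ 1 := by
      rw [div_le_one hsN0]
      exact hsN
    nlinarith [mul_le_mul hm0 hsN (by norm_num) hm1.le]
  have hr3 : 0 ≤ C1 * (m * N * Real.sqrt N / X ^ 2) := by positivity
  have i1 := ind_abs (S := Iic (1 / Real.sqrt N)) (f := fun _ => (m : ℝ) * Real.sqrt N)
    measurableSet_Iic (Ioi_inter_Iic) continuous_const.integrableOn_Ioc
  have i2 := ind_abs (S := Ioc (1 / Real.sqrt N) (3 * m * Real.sqrt N))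
    (f := fun u => (m : ℝ) * (1 / u)) (l := 1 / Real.sqrt N) (r := 3 * m * Real.sqrt N)
    measurableSet_Ioc (inter_eq_right.2 fun x hx => mem_Ioi.2 (hr1'.trans hx.1))
    ((int_inv hr1' h13).1.const_mul _)
  have i3 := ind_abs (S := Iic (C1 * (m * N * Real.sqrt N / X ^ 2)))
    (f := fun u => (m : ℝ) * Real.sqrt (Real.sqrt N) * (1 / Real.sqrt u))
    measurableSet_Iic (Ioi_inter_Iic) ((int_inv_sqrt hr3).1.const_mul _)
  have i12 : Integrable (fun u => (Iic (1 / Real.sqrt N)).indicator (fun _ => m * Real.sqrt N) |u| +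
      (Ioc (1 / Real.sqrt N) (3 * m * Real.sqrt N)).indicator (fun u => m * (1 / u)) |u|) :=
    i1.1.add i2.1
  refine ⟨i12.add i3.1, ?_⟩
  unfold dom
  rw [integral_add i12 i3.1, integral_add i1.1 i2.1, i1.2, i2.2, i3.2]
  rw [setIntegral_const, integral_const_mul, integral_const_mul, (int_inv hr1' h13).2,
    (int_inv_sqrt hr3).2]
  rw [Real.volume_real_Ioc_of_le hr1]
  have e1 : 3 * (m : ℝ) * Real.sqrt N / (1 / Real.sqrt N) = 3 * (m * N) := by
    rw [div_div_eq_mul_div, div_one, mul_assoc, Real.mul_self_sqrt hN0.le]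
    ring
  have e3 : Real.sqrt (C1 * (m * N * Real.sqrt N / X ^ 2)) =
      Real.sqrt C1 * (Real.sqrt m * Real.sqrt N * Real.sqrt (Real.sqrt N) / X) := by
    rw [Real.sqrt_mul (by linarith), Real.sqrt_div (by positivity), Real.sqrt_mul (by positivity),
      Real.sqrt_mul (by positivity), Real.sqrt_sq hX.le]
  rw [e1, e3]
  have q1 : Real.sqrt (Real.sqrt N) * Real.sqrt (Real.sqrt N) = Real.sqrt N :=
    Real.mul_self_sqrt hsN0.le
  have q2 : Real.sqrt N * Real.sqrt N = N := Real.mul_self_sqrt hN0.le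
  simp only [smul_eq_mul, sub_zero]
  have e4 : 2 * (1 / Real.sqrt N * (m * Real.sqrt N)) = 2 * (m : ℝ) := by
    field_simp
  rw [e4]
  have e5 : 2 * (m * Real.sqrt (Real.sqrt N) * (2 * (Real.sqrt C1 *
      (Real.sqrt m * Real.sqrt N * Real.sqrt (Real.sqrt N) / X)))) =
      4 * Real.sqrt C1 * m * (Real.sqrt m * (Real.sqrt N * (Real.sqrt (Real.sqrt N) *
        Real.sqrt (Real.sqrt N))) / X) := by ring
  rw [e5, q1, q2]
  ring

end H_aux

open H_aux in
theorem iH (hVp : StVp) (hK3 : StK3) (hHp : StHp) : StH := by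
  obtain ⟨C3, hC3, hK⟩ := hK3
  obtain ⟨C1, hC1, hP⟩ := hHp
  have hC3' : 0 < C3 := by linarith
  have hC1' : 0 < C1 := by linarith
  have hbig : 0 ≤ 7 * C3 ^ 4 * C1 * (6 + 4 * Real.sqrt C1) := by positivity
  refine ⟨C3 + C1 + 7 * C3 ^ 4 * C1 * (6 + 4 * Real.sqrt C1), by linarith, ?_⟩
  intro X N m hN hX hCN hm
  have hN0 : 0 < N := by linarith
  have hm0 : (1 : ℝ) ≤ m := by exact_mod_cast hm
  have hm1 : (0 : ℝ) < m := by linarith
  have hCN3 : C3 * N ≤ X ^ 2 := by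
    refine le_trans ?_ hCN
    exact mul_le_mul_of_nonneg_right (by linarith) hN0.le
  have hCN1 : C1 * N ≤ X ^ 2 := by
    refine le_trans ?_ hCN
    exact mul_le_mul_of_nonneg_right (by linarith) hN0.le
  obtain ⟨hK1, hK2, -⟩ := hK X N hN hX hCN3
  have hn : ∀ t, ‖KK X N m t‖ ≤ C3 * Real.sqrt (N / m) := by
    intro t
    have h := hK1 (m : ℤ) (by exact_mod_cast hm1.ne') t
    rwa [Int.cast_natCast, abs_of_pos hm1] at h
  have hd := hK2 m hm
  obtain ⟨hint, hval⟩ := dom_int hN hX hm hC1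
  refine ⟨fun u => 7 * C3 ^ 4 * (N / m) ^ 2 * (C1 * dom X N m C1 u), ?_, ?_, ?_, ?_, ?_⟩
  · exact ((dom_meas X N m C1).const_mul _).const_mul _
  · intro u
    have := dom_nonneg X N m C1 u
    positivity
  · exact (hint.const_mul _).const_mul _
  · rw [integral_const_mul, integral_const_mul, hval]
    have hmN : 1 ≤ m * N := by nlinarith
    have hL1 : 1 ≤ Real.log (2 + m * N) := by
      rw [Real.le_log_iff_exp_le (by positivity)]
      have := Real.exp_one_lt_d9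
      linarith
    have hL2 : Real.log (3 * (m * N)) ≤ 2 * Real.log (2 + m * N) := by
      rw [← Real.log_rpow (by positivity)]
      apply Real.log_le_log (by positivity)
      norm_num
      nlinarith
    have hY : 0 ≤ Real.sqrt m * N / X := by positivity
    set L := Real.log (2 + m * N) with hL
    set Y := Real.sqrt m * N / X with hYdef
    have e1 : 7 * C3 ^ 4 * (N / m) ^ 2 * (C1 * (2 * m + 2 * m * Real.log (3 * (m * N)) +
        4 * Real.sqrt C1 * m * Y)) = (7 * C3 ^ 4 * C1) * (N ^ 2 / m) *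
        (2 + 2 * Real.log (3 * (m * N)) + 4 * Real.sqrt C1 * Y) := by
      field_simp
    rw [e1]
    have e2 : 2 + 2 * Real.log (3 * (m * N)) + 4 * Real.sqrt C1 * Y ≤
        (6 + 4 * Real.sqrt C1) * (L + Y) := by
      have := Real.sqrt_nonneg C1
      nlinarith [mul_nonneg this (by linarith : 0 ≤ L)]
    have hq : 0 ≤ N ^ 2 / m := by positivity
    calc (7 * C3 ^ 4 * C1) * (N ^ 2 / m) *
        (2 + 2 * Real.log (3 * (m * N)) + 4 * Real.sqrt C1 * Y)
        ≤ (7 * C3 ^ 4 * C1) * (N ^ 2 / m) * ((6 + 4 * Real.sqrt C1) * (L + Y)) := by gcongr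
      _ = (7 * C3 ^ 4 * C1 * (6 + 4 * Real.sqrt C1)) * (N ^ 2 / m) * (L + Y) := by ring
      _ ≤ (C3 + C1 + 7 * C3 ^ 4 * C1 * (6 + 4 * Real.sqrt C1)) * (N ^ 2 / m) * (L + Y) := by
          gcongr
          linarith
  · intro x1 x2 x3 x4
    refine HH_le hVp hN hm hC3'.le hn hd x1 x2 x3 x4
      (mul_nonneg hC1'.le (dom_nonneg _ _ _ _ _)) ?_
    intro a b hab hx hδ
    obtain ⟨p1, p2⟩ := hP X N m x1 x2 x3 x4 a b hN hX hCN1 hm hab hx
    set δ := x1 + x2 - x3 - x4 with hδdef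
    have u1 := t1_nonneg N m δ
    have u2 := t2_nonneg N m δ
    have u3 := t3_nonneg N m (C1 * (m * N * Real.sqrt N / X ^ 2)) δ
    by_cases hs : |δ| ≤ 1 / Real.sqrt N
    · refine p1.trans (mul_le_mul_of_nonneg_left ?_ hC1'.le)
      unfold dom
      rw [indicator_of_mem (mem_Iic.2 hs)]
      linarith
    · have hs' := not_le.1 hs
      have hδ0 : δ ≠ 0 := by
        intro h0
        rw [h0, abs_zero] at hs'
        have : 0 ≤ 1 / Real.sqrt N := by positivity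
        linarith
      refine (p2 hδ0).trans (mul_le_mul_of_nonneg_left ?_ hC1'.le)
      unfold dom
      rw [indicator_of_mem (s := Ioc (1 / Real.sqrt N) (3 * m * Real.sqrt N)) ⟨hs', hδ⟩]
      have e1 : (m : ℝ) / |δ| = m * (1 / |δ|) := by ring
      rw [e1]
      split_ifs with h3
      · rw [indicator_of_mem (s := Iic (C1 * (m * N * Real.sqrt N / X ^ 2))) (mem_Iic.2 h3)]
        have e2 : (m : ℝ) * Real.sqrt (Real.sqrt N) / Real.sqrt |δ| =
          m * Real.sqrt (Real.sqrt N) * (1 / Real.sqrt |δ|) := by ring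
        rw [e2]
        linarith
      · linarith

end Pool.Agent.Work.MP_56b8f5_nt.UB
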