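import Pool.Agent.Work.MP_56b8f5_nt.UB.Stmts

open MeasureTheory Set Filter Topology

noncomputable section

namespace Pool.Agent.Work.MP_56b8f5_nt.UB

namespace HM_aux

/-- integral of the majorant of the peak -/
theorem peak_int {c : ℝ} (hc : 0 < c) (x : ℝ) :
    Integrable (fun y : ℝ => (1 + ((x - y) * c) ^ 2)⁻¹) ∧
    ∫ y : ℝ, (1 + ((x - y) * c) ^ 2)⁻¹ = Real.pi / c := by
  have h1 : Integrable (fun y : ℝ => (1 + (y * c) ^ 2)⁻¹) :=
    (integrable_inv_one_add_sq).comp_mul_right' hc.ne'
  constructor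
  · exact h1.comp_sub_left x
  · rw [integral_sub_left_eq_self (fun y => (1 + (y * c) ^ 2)⁻¹) volume x]
    rw [Measure.integral_comp_mul_right (fun y : ℝ => (1 + y ^ 2)⁻¹) c]
    rw [integral_univ_inv_one_add_sq, abs_of_pos (inv_pos.2 hc), smul_eq_mul]
    field_simp

end HM_aux

theorem iHM (hE3 : StE3) (hKB : StKB) : StHM := by
  obtain ⟨C0, hC0, hK⟩ := hKB
  refine ⟨16 * C0, by linarith, ?_⟩
  intro X N M V a W hN hX hCN hM hV hCV ha hW hsub hSS
  have hN0 : 0 < N := by linarith
  have hsN : 0 < Real.sqrt N := Real.sqrt_pos.2 hN0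
  have hNN : Real.sqrt N * Real.sqrt N = N := Real.mul_self_sqrt hN0.le
  have hfin : volume W ≠ ⊤ := by
    refine ne_top_of_le_ne_top ?_ (measure_mono hsub)
    rw [Real.volume_Icc]; exact ENNReal.ofReal_ne_top
  have : IsFiniteMeasure (volume.restrict W) := ⟨by
    rw [Measure.restrict_apply_univ]; exact lt_top_iff_ne_top.2 hfin⟩
  set R := Rr W with hR
  have hR0 : 0 ≤ R := ENNReal.toReal_nonneg
  obtain ⟨b, hb, hb1, hdu⟩ := hE3 X N M V a W hN hX hV.le ha hW hsub hSS
  have hC0N : C0 * N ≤ X ^ 2 := by nlinarith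
  set G : ℝ := C0 * (4 * Real.sqrt N + Real.sqrt (N * M) * R) with hG
  have hdiff : ∀ x ∈ W, ∀ y ∈ W, |x - y| ≤ M * Real.sqrt N := by
    intro x hx y hy
    have h1 := hsub hx
    have h2 := hsub hy
    rw [abs_le]
    constructor <;> linarith [h1.1, h1.2, h2.1, h2.2]
  -- inner integral
  have inner : ∀ x ∈ W, ‖∫ y in W, b x * (starRingEnd ℂ) (b y) * KS X N (x - y)‖ ≤ G := by
    intro x hx
    obtain ⟨i1, i2⟩ := HM_aux.peak_int hsN x
    have ig : Integrable (fun y => C0 * (N * (1 + ((x - y) * Real.sqrt N) ^ 2)⁻¹ +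
        Real.sqrt (N * M))) (volume.restrict W) :=
      (((i1.const_mul N).restrict).add (integrable_const _)).const_mul C0
    have hle : ∀ᵐ y ∂(volume.restrict W), ‖b x * (starRingEnd ℂ) (b y) * KS X N (x - y)‖ ≤
        C0 * (N * (1 + ((x - y) * Real.sqrt N) ^ 2)⁻¹ + Real.sqrt (N * M)) := by
      refine (ae_restrict_iff' hW).2 (Eventually.of_forall fun y hy => ?_)
      have h4 : |x - y| ≤ 4 * M * Real.sqrt N := by
        refine (hdiff x hx y hy).trans ?_
        have : 0 ≤ M * Real.sqrt N := by positivity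
        linarith
      have h5 := hK X N M (x - y) hN hX hC0N hM h4
      rw [norm_mul, norm_mul, RCLike.norm_conj]
      have h6 : ‖b x‖ * ‖b y‖ ≤ 1 := mul_le_one₀ (hb1 x) (norm_nonneg _) (hb1 y)
      calc ‖b x‖ * ‖b y‖ * ‖KS X N (x - y)‖ ≤ 1 * ‖KS X N (x - y)‖ :=
            mul_le_mul_of_nonneg_right h6 (norm_nonneg _)
        _ = ‖KS X N (x - y)‖ := one_mul _
        _ ≤ _ := h5
        _ ≤ _ := by
          apply mul_le_mul_of_nonneg_left _ (by linarith)
          apply add_le_add _ le_rfl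
          rw [div_eq_mul_inv]
          apply mul_le_mul_of_nonneg_left _ hN0.le
          apply inv_anti₀ (by positivity)
          have h7 : 0 ≤ |x - y| * Real.sqrt N := by positivity
          have h8 : ((x - y) * Real.sqrt N) ^ 2 = (|x - y| * Real.sqrt N) ^ 2 := by
            rw [mul_pow, mul_pow, sq_abs]
          rw [h8]
          nlinarith
    refine (norm_integral_le_of_norm_le ig hle).trans ?_
    rw [integral_const_mul]
    apply mul_le_mul_of_nonneg_left _ (by linarith)
    rw [integral_add ((i1.const_mul N).restrict) (integrable_const _)]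
    apply add_le_add
    · calc ∫ y in W, N * (1 + ((x - y) * Real.sqrt N) ^ 2)⁻¹
          ≤ ∫ y : ℝ, N * (1 + ((x - y) * Real.sqrt N) ^ 2)⁻¹ := by
            apply setIntegral_le_integral (i1.const_mul N)
            exact Eventually.of_forall fun y => by positivity
        _ = N * (Real.pi / Real.sqrt N) := by rw [integral_const_mul, i2]
        _ = Real.pi * Real.sqrt N := by
            field_simp
            nlinarith
        _ ≤ 4 * Real.sqrt N := by
            apply mul_le_mul_of_nonneg_right _ hsN.le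
            linarith [Real.pi_le_four]
    · rw [integral_const, smul_eq_mul, measureReal_restrict_apply_univ]
      apply le_of_eq
      rw [mul_comm, hR]
      rfl
  have outer : ‖∫ x in W, ∫ y in W, b x * (starRingEnd ℂ) (b y) * KS X N (x - y)‖ ≤ G * R := by
    have := norm_setIntegral_le_of_norm_le_const (lt_top_iff_ne_top.2 hfin) inner
    exact this
  have hsNM : Real.sqrt (N * M) = Real.sqrt N * Real.sqrt M := Real.sqrt_mul hN0.le M
  have main : V ^ 2 * R ^ 2 ≤ 2 * N * (G * R) :=
    hdu.trans (mul_le_mul_of_nonneg_left outer (by positivity))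
  rcases hR0.eq_or_lt with h0 | hpos
  · rw [← h0, mul_zero]; positivity
  rw [hG, hsNM] at main
  have m1 : V ^ 2 * R ^ 2 ≤ 8 * C0 * (N * Real.sqrt N) * R +
      2 * C0 * (N * Real.sqrt N * Real.sqrt M) * R ^ 2 := by
    calc _ ≤ _ := main
      _ = _ := by ring
  have m2 : 2 * C0 * (N * Real.sqrt N * Real.sqrt M) * R ^ 2 ≤ V ^ 2 / 2 * R ^ 2 := by
    apply mul_le_mul_of_nonneg_right _ (sq_nonneg R)
    have : 0 ≤ C0 * (N * Real.sqrt N * Real.sqrt M) := by positivity
    nlinarith
  have m3 : (V ^ 2 * R) * R ≤ (16 * C0 * (N * Real.sqrt N)) * R := by nlinarith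
  exact le_of_mul_le_mul_right m3 hpos

end Pool.Agent.Work.MP_56b8f5_nt.UB
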