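import Pool.Agent.Work.MP_56b8f5_nt.UB.Stmts

/-!
MP_56b8f5_nt, block UB, item Hp: the pure exponential integral.
-/

set_option autoImplicit false

open MeasureTheory Set Filter Topology

noncomputable section

namespace Pool.Agent.Work.MP_56b8f5_nt.UB

namespace Hp_aux

/-- first derivative of `ws` -/
def ps1 (m β x : ℝ) : ℝ := 2 / m / Real.sqrt (1 + (x / β) ^ 2)

/-- second derivative of `ws` -/
def ps2 (m β x : ℝ) : ℝ := -(2 / m) * (x / β ^ 2) / Real.sqrt (1 + (x / β) ^ 2) ^ 3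

/-- third derivative of `ws` -/
def ps3 (m β x : ℝ) : ℝ :=
  -(2 / m) / β ^ 2 * (1 - 2 * (x / β) ^ 2) / Real.sqrt (1 + (x / β) ^ 2) ^ 5

theorem s_pos (β x : ℝ) : 0 < Real.sqrt (1 + (x / β) ^ 2) :=
  Real.sqrt_pos.2 (by positivity)

theorem s_sq (β x : ℝ) : Real.sqrt (1 + (x / β) ^ 2) ^ 2 = 1 + (x / β) ^ 2 :=
  Real.sq_sqrt (by positivity)

theorem hs (β : ℝ) (hβ : β ≠ 0) (x : ℝ) :
    HasDerivAt (fun y => Real.sqrt (1 + (y / β) ^ 2))
      (x / β ^ 2 / Real.sqrt (1 + (x / β) ^ 2)) x := by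
  have h1 : HasDerivAt (fun y : ℝ => 1 + (y / β) ^ 2) (2 * (x / β) * (1 / β)) x := by
    have h2 : HasDerivAt (fun y : ℝ => y / β) (1 / β) x := (hasDerivAt_id x).div_const β
    have h3 := (h2.pow 2).const_add 1
    refine h3.congr_deriv ?_
    norm_num
  have h4 := h1.sqrt (by positivity)
  refine h4.congr_deriv ?_
  have hp := (s_pos β x).ne'
  field_simp

theorem hps1 (m β : ℝ) (hβ : β ≠ 0) (x : ℝ) : HasDerivAt (ps1 m β) (ps2 m β x) x := by
  have h1 := (hs β hβ x).inv (s_pos β x).ne'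
  have h2 := h1.const_mul (2 / m)
  have h3 : ps1 m β = fun y => 2 / m * (Real.sqrt (1 + (y / β) ^ 2))⁻¹ := by
    funext y
    unfold ps1
    rw [div_eq_mul_inv]
  rw [h3]
  refine h2.congr_deriv ?_
  unfold ps2
  have hp := (s_pos β x).ne'
  field_simp

theorem hps2 (m β : ℝ) (hβ : β ≠ 0) (x : ℝ) : HasDerivAt (ps2 m β) (ps3 m β x) x := by
  have h0 : HasDerivAt (fun y : ℝ => -(2 / m) * (y / β ^ 2)) (-(2 / m) * (1 / β ^ 2)) x :=
    ((hasDerivAt_id x).div_const (β ^ 2)).const_mul (-(2 / m))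
  have h1 : HasDerivAt (fun y => Real.sqrt (1 + (y / β) ^ 2) ^ 3)
      (3 * Real.sqrt (1 + (x / β) ^ 2) ^ 2 * (x / β ^ 2 / Real.sqrt (1 + (x / β) ^ 2))) x := by
    have h := (hs β hβ x).pow 3
    refine h.congr_deriv ?_
    norm_num
  have h2 : HasDerivAt (fun y => -(2 / m) * (y / β ^ 2) / Real.sqrt (1 + (y / β) ^ 2) ^ 3)
      ((-(2 / m) * (1 / β ^ 2) * Real.sqrt (1 + (x / β) ^ 2) ^ 3 - -(2 / m) * (x / β ^ 2) *
        (3 * Real.sqrt (1 + (x / β) ^ 2) ^ 2 * (x / β ^ 2 / Real.sqrt (1 + (x / β) ^ 2)))) /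
        (Real.sqrt (1 + (x / β) ^ 2) ^ 3) ^ 2) x :=
    h0.div h1 (pow_ne_zero 3 (s_pos β x).ne')
  refine h2.congr_deriv ?_
  unfold ps3
  have hp := (s_pos β x).ne'
  have hsq := s_sq β x
  set s := Real.sqrt (1 + (x / β) ^ 2) with hsdef
  have hx : (x / β) ^ 2 = s ^ 2 - 1 := by rw [hsq]; ring
  have hx2 : x ^ 2 = (s ^ 2 - 1) * β ^ 2 := by
    rw [← hx]; field_simp
  rw [hx]
  field_simp
  ring_nf
  rw [hx2]
  ring

/-! ### Mean values -/

theorem mvt (F F1 : ℝ → ℝ) (h : ∀ x, HasDerivAt F (F1 x) x) (x y : ℝ) :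
    ∃ t, min x y ≤ t ∧ t ≤ max x y ∧ F y - F x = (y - x) * F1 t := by
  rcases lt_trichotomy x y with hxy | hxy | hxy
  · obtain ⟨t, ht, he⟩ := exists_hasDerivAt_eq_slope F F1 hxy
      (fun z _ => (h z).continuousAt.continuousWithinAt) (fun z _ => h z)
    refine ⟨t, ?_, ?_, ?_⟩
    · rw [min_eq_left hxy.le]; exact ht.1.le
    · rw [max_eq_right hxy.le]; exact ht.2.le
    · rw [he]
      have : y - x ≠ 0 := (sub_pos.2 hxy).ne'
      field_simp
  · subst hxy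
    exact ⟨x, by simp, by simp, by simp⟩
  · obtain ⟨t, ht, he⟩ := exists_hasDerivAt_eq_slope F F1 hxy
      (fun z _ => (h z).continuousAt.continuousWithinAt) (fun z _ => h z)
    refine ⟨t, ?_, ?_, ?_⟩
    · rw [min_eq_right hxy.le]; exact ht.1.le
    · rw [max_eq_left hxy.le]; exact ht.2.le
    · rw [he]
      have : x - y ≠ 0 := (sub_pos.2 hxy).ne'
      field_simp
      ring

theorem second_diff (F F1 F2 : ℝ → ℝ) (h1 : ∀ x, HasDerivAt F (F1 x) x)
    (h2 : ∀ x, HasDerivAt F1 (F2 x) x) (p α γ A B G : ℝ) (hp1 : A ≤ p) (hp2 : p ≤ B)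
    (ha1 : A ≤ p + α) (ha2 : p + α ≤ B) (hG : |γ| ≤ G) :
    ∃ t, A - G ≤ t ∧ t ≤ B + G ∧
      F (p + α + γ) - F (p + α) - F (p + γ) + F p = α * γ * F2 t := by
  obtain ⟨t1, ht1, ht2, he1⟩ := mvt (fun t => F (t + γ) - F t) (fun t => F1 (t + γ) - F1 t)
    (fun x => ((h1 (x + γ)).comp_add_const x γ).sub (h1 x)) p (p + α)
  obtain ⟨t2, ht3, ht4, he2⟩ := mvt F1 F2 h2 t1 (t1 + γ)
  have hA1 : A ≤ t1 := le_trans (le_min hp1 ha1) ht1
  have hB1 : t1 ≤ B := le_trans ht2 (max_le hp2 ha2)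
  obtain ⟨g1, g2⟩ := abs_le.1 hG
  have hG0 : 0 ≤ G := le_trans (abs_nonneg γ) hG
  refine ⟨t2, ?_, ?_, ?_⟩
  · refine le_trans (le_min ?_ ?_) ht3 <;> linarith
  · refine le_trans ht4 (max_le ?_ ?_) <;> linarith
  · have e1 : F (p + α + γ) - F (p + α) - (F (p + γ) - F p) =
        (p + α - p) * (F1 (t1 + γ) - F1 t1) := he1
    rw [he2] at e1
    linear_combination e1

/-! ### Bounds -/

/-- bounds for the derivatives of `ws` for `|x| ≤ 5 m √N`, `k = 1/(m³X²)`, `q = √N` -/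
theorem bds (X N m q k x : ℝ) (hX : 0 < X) (hN : 1 ≤ N) (hq : 1 ≤ q) (hqN : q ^ 2 = N)
    (hC : 2500 * N ≤ X ^ 2) (hm : 1 ≤ m) (hk : k = 1 / (m ^ 3 * X ^ 2)) (hx1 : -(5 * m * q) ≤ x)
    (hx2 : x ≤ 5 * m * q) :
    1 / m ≤ ps1 m (m * X) x ∧ ps1 m (m * X) x ≤ 2 / m ∧ |ps2 m (m * X) x| ≤ 10 * q * m * k ∧
      k ≤ -ps3 m (m * X) x ∧ -ps3 m (m * X) x ≤ 2 * k := by
  have hm0 : 0 < m := by linarith
  have hX2 : 0 < X ^ 2 := by positivity
  have hk0 : 0 < k := by rw [hk]; positivity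
  have hxx : x ^ 2 ≤ 25 * m ^ 2 * N := by
    rw [← hqN]
    nlinarith
  have hz : (x / (m * X)) ^ 2 ≤ 1 / 100 := by
    rw [div_pow, div_le_iff₀ (by positivity), mul_pow]
    have : m ^ 2 * (2500 * N) ≤ m ^ 2 * X ^ 2 := by gcongr
    nlinarith
  have hz0 : 0 ≤ (x / (m * X)) ^ 2 := sq_nonneg _
  have hs0 := s_pos (m * X) x
  have hssq := s_sq (m * X) x
  set s := Real.sqrt (1 + (x / (m * X)) ^ 2) with hs
  set z := (x / (m * X)) ^ 2 with hzdef
  have hs1 : 1 ≤ s := by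
    rw [hs]
    exact Real.one_le_sqrt.2 (by linarith)
  have hs2 : s ≤ 101 / 100 := by nlinarith
  have hs3 : s ^ 3 ≤ 104 / 100 := by
    calc s ^ 3 ≤ (101 / 100) ^ 3 := by gcongr
      _ ≤ 104 / 100 := by norm_num
  have hs3' : 1 ≤ s ^ 3 := one_le_pow₀ hs1
  have hs5 : s ^ 5 ≤ 106 / 100 := by
    calc s ^ 5 ≤ (101 / 100) ^ 5 := by gcongr
      _ ≤ 106 / 100 := by norm_num
  have hs5' : 1 ≤ s ^ 5 := one_le_pow₀ hs1
  refine ⟨?_, ?_, ?_, ?_, ?_⟩
  · unfold ps1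
    rw [← hzdef, ← hs, div_div, div_le_div_iff₀ hm0 (by positivity)]
    nlinarith
  · unfold ps1
    rw [← hzdef, ← hs, div_le_iff₀ hs0]
    have : 0 < 2 / m := by positivity
    nlinarith
  · unfold ps2
    rw [← hzdef, ← hs, abs_div, abs_mul, abs_neg, abs_of_pos (show (0 : ℝ) < 2 / m by positivity),
      abs_of_pos (show 0 < s ^ 3 by positivity), abs_div,
      abs_of_pos (show (0 : ℝ) < (m * X) ^ 2 by positivity)]
    have hax : |x| ≤ 5 * m * q := abs_le.2 ⟨hx1, hx2⟩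
    calc 2 / m * (|x| / (m * X) ^ 2) / s ^ 3 ≤ 2 / m * (|x| / (m * X) ^ 2) :=
          div_le_self (by positivity) hs3'
      _ ≤ 2 / m * (5 * m * q / (m * X) ^ 2) := by gcongr
      _ = 10 * q * m * k := by
          rw [hk]
          field_simp
          norm_num
  · unfold ps3
    rw [← hzdef, ← hs]
    have e1 : -(-(2 / m) / (m * X) ^ 2 * (1 - 2 * z) / s ^ 5) = 2 * k * ((1 - 2 * z) / s ^ 5) := by
      rw [hk]
      field_simp
    rw [e1]
    have e2 : 1 / 2 ≤ (1 - 2 * z) / s ^ 5 := by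
      rw [le_div_iff₀ (by positivity)]
      nlinarith
    nlinarith
  · unfold ps3
    rw [← hzdef, ← hs]
    have e1 : -(-(2 / m) / (m * X) ^ 2 * (1 - 2 * z) / s ^ 5) = 2 * k * ((1 - 2 * z) / s ^ 5) := by
      rw [hk]
      field_simp
    rw [e1]
    have e2 : (1 - 2 * z) / s ^ 5 ≤ 1 := by
      rw [div_le_one (by positivity)]
      nlinarith
    nlinarith

/-- the four-point combination as second difference plus first difference -/
theorem decomp (F F1 F2 : ℝ → ℝ) (h1 : ∀ x, HasDerivAt F (F1 x) x)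
    (h2 : ∀ x, HasDerivAt F1 (F2 x) x) (R x x1 x2 x3 x4 : ℝ) (hR : 0 < R)
    (h11 : R / 2 ≤ x - x1) (h12 : x - x1 ≤ 2 * R) (h21 : R / 2 ≤ x - x2) (h22 : x - x2 ≤ 2 * R)
    (h31 : R / 2 ≤ x - x3) (h32 : x - x3 ≤ 2 * R) (h41 : R / 2 ≤ x - x4) (h42 : x - x4 ≤ 2 * R) :
    ∃ t t', -(5 * R) ≤ t ∧ t ≤ 5 * R ∧ -(5 * R) ≤ t' ∧ t' ≤ 5 * R ∧
      F (x - x1) + F (x - x2) - F (x - x3) - F (x - x4) =
        -((x3 - x1) * (x3 - x2) * F2 t) - (x1 + x2 - x3 - x4) * F1 t' := by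
  obtain ⟨t, ht1, ht2, he1⟩ := second_diff F F1 F2 h1 h2 (x - x3) (x3 - x1) (x3 - x2) (R / 2)
    (2 * R) (3 / 2 * R) h31 h32 (by linarith) (by linarith)
    (abs_le.2 ⟨by linarith, by linarith⟩)
  obtain ⟨t', ht3, ht4, he2⟩ := mvt F F1 h1 (x - x3 + (x3 - x1) + (x3 - x2)) (x - x4)
  refine ⟨t, t', by linarith, by linarith, ?_, ?_, ?_⟩
  · refine le_trans (le_min ?_ ?_) ht3 <;> linarith
  · refine le_trans ht4 (max_le ?_ ?_) <;> linarith
  · have e1 : x - x3 + (x3 - x1) = x - x1 := by ring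
    have e2 : x - x3 + (x3 - x2) = x - x2 := by ring
    have e3 : x - x4 - (x - x3 + (x3 - x1) + (x3 - x2)) = x1 + x2 - x3 - x4 := by ring
    rw [e3] at he2
    rw [e1, e2] at he1
    rw [e1] at he2
    linear_combination -he1 - he2

theorem norm_ee (x : ℝ) : ‖ee x‖ = 1 := by
  unfold ee
  exact Complex.norm_exp_ofReal_mul_I _

end Hp_aux

open Hp_aux in
theorem iHp (hV1 : StV1) (hV2 : StV2) (hKa : StKa) : StHp := by
  refine ⟨2500, by norm_num, ?_⟩
  intro X N m x1 x2 x3 x4 a b hN hX hC hm hab hdom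
  have hM1 : (1 : ℝ) ≤ (m : ℝ) := by exact_mod_cast hm
  set M : ℝ := (m : ℝ) with hMdef
  have hM0 : 0 < M := by linarith
  set q : ℝ := Real.sqrt N with hqdef
  have hq : 1 ≤ q := Real.one_le_sqrt.2 hN
  have hq0 : 0 < q := by linarith
  have hqN : q ^ 2 = N := Real.sq_sqrt (by linarith)
  have hX2 : 0 < X ^ 2 := by positivity
  obtain ⟨k, hk⟩ : ∃ k : ℝ, k = 1 / (M ^ 3 * X ^ 2) := ⟨_, rfl⟩
  have hk0 : 0 < k := by rw [hk]; positivity
  have hR : 0 < M * q := by positivity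
  have hβ : M * X ≠ 0 := by positivity
  have hku : k * M ^ 3 * X ^ 2 = 1 := by
    rw [hk]; field_simp
  have hku2 : 2500 * q ^ 2 * (k * M ^ 3) ≤ 1 := by
    rw [hqN]
    calc 2500 * N * (k * M ^ 3) ≤ X ^ 2 * (k * M ^ 3) := by gcongr
      _ = 1 := by rw [← hku]; ring
  -- the four points
  have hpt : ∀ x ∈ Icc a b, (M * q / 2 ≤ x - x1 ∧ x - x1 ≤ 2 * (M * q)) ∧
      (M * q / 2 ≤ x - x2 ∧ x - x2 ≤ 2 * (M * q)) ∧ (M * q / 2 ≤ x - x3 ∧ x - x3 ≤ 2 * (M * q)) ∧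
      (M * q / 2 ≤ x - x4 ∧ x - x4 ≤ 2 * (M * q)) := by
    intro x hx
    have h1 := hdom x hx x1 (by simp)
    have h2 := hdom x hx x2 (by simp)
    have h3 := hdom x hx x3 (by simp)
    have h4 := hdom x hx x4 (by simp)
    refine ⟨⟨h1.1, ?_⟩, ⟨h2.1, ?_⟩, ⟨h3.1, ?_⟩, ⟨h4.1, ?_⟩⟩ <;> linarith
  have hba : b - a ≤ 3 / 2 * (M * q) := by
    have h1 := (hpt a (left_mem_Icc.2 hab)).1.1
    have h2 := (hpt b (right_mem_Icc.2 hab)).1.2
    linarith
  have hba0 : 0 ≤ b - a := by linarith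
  -- derivatives
  have hws : ∀ x, HasDerivAt (ws X M) (ps1 M (M * X) x) x := fun x =>
    ((hKa X hX).2.2.2.2.2.2 M x hM0).2.2
  have hPh : ∀ x, HasDerivAt (Ph X M) (ws X M x) x := fun x =>
    ((hKa X hX).2.2.2.2.2.2 M x hM0).2.1
  set f1 : ℝ → ℝ := fun x => ws X M (x - x1) + ws X M (x - x2) - ws X M (x - x3) - ws X M (x - x4)
    with hf1
  set f2 : ℝ → ℝ := fun x => ps1 M (M * X) (x - x1) + ps1 M (M * X) (x - x2) -
    ps1 M (M * X) (x - x3) - ps1 M (M * X) (x - x4) with hf2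
  have hd1 : ∀ x, HasDerivAt (DP X M x1 x2 x3 x4) (f1 x) x := by
    intro x
    exact ((((hPh (x - x1)).comp_sub_const x x1).add ((hPh (x - x2)).comp_sub_const x x2)).sub
      ((hPh (x - x3)).comp_sub_const x x3)).sub ((hPh (x - x4)).comp_sub_const x x4)
  have hd2 : ∀ x, HasDerivAt f1 (f2 x) x := by
    intro x
    exact ((((hws (x - x1)).comp_sub_const x x1).add ((hws (x - x2)).comp_sub_const x x2)).sub
      ((hws (x - x3)).comp_sub_const x x3)).sub ((hws (x - x4)).comp_sub_const x x4)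
  have hps1c : Continuous (ps1 M (M * X)) :=
    continuous_iff_continuousAt.2 fun x => (hps1 M (M * X) hβ x).continuousAt
  have hf2c : Continuous f2 := by
    rw [hf2]
    exact (((hps1c.comp (continuous_id.sub continuous_const)).add
      (hps1c.comp (continuous_id.sub continuous_const))).sub
      (hps1c.comp (continuous_id.sub continuous_const))).sub
      (hps1c.comp (continuous_id.sub continuous_const))
  have htriv : ‖∫ x in a..b, ee (DP X M x1 x2 x3 x4 x)‖ ≤ 2500 * (M * q) := by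
    have h1 := intervalIntegral.norm_integral_le_of_norm_le_const
      (f := fun x => ee (DP X M x1 x2 x3 x4 x)) (a := a) (b := b) (C := 1)
      (fun x _ => (norm_ee _).le)
    rw [abs_of_nonneg hba0, one_mul] at h1
    linarith
  refine ⟨htriv, ?_⟩
  intro hδ
  obtain ⟨δ, hδd⟩ : ∃ δ : ℝ, δ = x1 + x2 - x3 - x4 := ⟨_, rfl⟩
  rw [← hδd] at hδ ⊢
  have hδ0 : 0 < |δ| := abs_pos.2 hδ
  obtain ⟨ag, hag⟩ : ∃ ag : ℝ, ag = (x3 - x1) * (x3 - x2) := ⟨_, rfl⟩
  have hagb : |ag| ≤ 9 / 4 * (M * q) ^ 2 := by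
    obtain ⟨⟨a1, a2⟩, ⟨b1, b2⟩, ⟨c1, c2⟩, _⟩ := hpt a (left_mem_Icc.2 hab)
    have e1 : |x3 - x1| ≤ 3 / 2 * (M * q) := abs_le.2 ⟨by linarith, by linarith⟩
    have e2 : |x3 - x2| ≤ 3 / 2 * (M * q) := abs_le.2 ⟨by linarith, by linarith⟩
    rw [hag, abs_mul]
    calc |x3 - x1| * |x3 - x2| ≤ (3 / 2 * (M * q)) * (3 / 2 * (M * q)) := by gcongr
      _ = 9 / 4 * (M * q) ^ 2 := by ring
  -- formulas for `f1`, `f2`
  have hF1 : ∀ x ∈ Icc a b, |δ| / M - |ag| * (10 * q * M * k) ≤ |f1 x| := by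
    intro x hx
    obtain ⟨⟨a1, a2⟩, ⟨b1, b2⟩, ⟨c1, c2⟩, ⟨d1, d2⟩⟩ := hpt x hx
    obtain ⟨t, t', ht1, ht2, ht3, ht4, he⟩ := decomp (ws X M) (ps1 M (M * X)) (ps2 M (M * X)) hws
      (hps1 M (M * X) hβ) (M * q) x x1 x2 x3 x4 hR a1 a2 b1 b2 c1 c2 d1 d2
    have hb1 := bds X N M q k t hX hN hq hqN hC hM1 hk (by linarith) (by linarith)
    have hb2 := bds X N M q k t' hX hN hq hqN hC hM1 hk (by linarith) (by linarith)
    have he' : f1 x = -(ag * ps2 M (M * X) t) - δ * ps1 M (M * X) t' := by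
      rw [hag, hδd]
      exact he
    have h1 : |ag * ps2 M (M * X) t| ≤ |ag| * (10 * q * M * k) := by
      rw [abs_mul]
      have := hb1.2.2.1
      gcongr
    have hpos : 0 < ps1 M (M * X) t' := lt_of_lt_of_le (by positivity) hb2.1
    have h2 : |δ| / M ≤ |δ * ps1 M (M * X) t'| := by
      rw [abs_mul, abs_of_pos hpos, div_eq_mul_one_div]
      have := hb2.1
      gcongr
    have h3 : |δ * ps1 M (M * X) t'| ≤ |f1 x| + |ag * ps2 M (M * X) t| := by
      have : δ * ps1 M (M * X) t' = -f1 x - ag * ps2 M (M * X) t := by rw [he']; ring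
      rw [this]
      calc |-f1 x - ag * ps2 M (M * X) t| ≤ |-f1 x| + |ag * ps2 M (M * X) t| := abs_sub _ _
        _ = |f1 x| + |ag * ps2 M (M * X) t| := by rw [abs_neg]
    linarith
  have hF2 : ∀ x ∈ Icc a b, ∃ c e : ℝ, k ≤ c ∧ c ≤ 2 * k ∧ |e| ≤ 10 * q * M * k ∧
      f2 x = ag * c - δ * e := by
    intro x hx
    obtain ⟨⟨a1, a2⟩, ⟨b1, b2⟩, ⟨c1, c2⟩, ⟨d1, d2⟩⟩ := hpt x hx
    obtain ⟨t, t', ht1, ht2, ht3, ht4, he⟩ := decomp (ps1 M (M * X)) (ps2 M (M * X))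
      (ps3 M (M * X)) (hps1 M (M * X) hβ) (hps2 M (M * X) hβ) (M * q) x x1 x2 x3 x4 hR a1 a2 b1 b2
      c1 c2 d1 d2
    have hb1 := bds X N M q k t hX hN hq hqN hC hM1 hk (by linarith) (by linarith)
    have hb2 := bds X N M q k t' hX hN hq hqN hC hM1 hk (by linarith) (by linarith)
    refine ⟨-ps3 M (M * X) t, ps2 M (M * X) t', hb1.2.2.2.1, hb1.2.2.2.2, hb2.2.2.1, ?_⟩
    have he' : f2 x = -((x3 - x1) * (x3 - x2) * ps3 M (M * X) t) -
        (x1 + x2 - x3 - x4) * ps2 M (M * X) t' := he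
    rw [he', hag, hδd]
    ring
  have hsq0 : 0 ≤ Real.sqrt q := Real.sqrt_nonneg q
  by_cases hcase : 20 * |ag| * q * M ^ 2 * k ≤ |δ|
  · -- CASE A
    have hl0 : 0 < |δ| / (2 * M) := by positivity
    have hl : ∀ x ∈ Icc a b, |δ| / (2 * M) ≤ |f1 x| := by
      intro x hx
      refine le_trans ?_ (hF1 x hx)
      have h1 : |ag| * (10 * q * M * k) ≤ |δ| / (2 * M) := by
        rw [le_div_iff₀ (by positivity)]
        calc |ag| * (10 * q * M * k) * (2 * M) = 20 * |ag| * q * M ^ 2 * k := by ring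
          _ ≤ |δ| := hcase
      have h2 : |δ| / M = |δ| / (2 * M) + |δ| / (2 * M) := by field_simp; ring
      linarith
    have hub : ∀ x ∈ Icc a b, |f2 x| ≤ |δ| / (5 * M ^ 2 * q) := by
      intro x hx
      obtain ⟨c, e, hc1, hc2, he1, he⟩ := hF2 x hx
      have h1 : |f2 x| ≤ |ag| * (2 * k) + |δ| * (10 * q * M * k) := by
        rw [he]
        calc |ag * c - δ * e| ≤ |ag * c| + |δ * e| := abs_sub _ _
          _ = |ag| * c + |δ| * |e| := by
            rw [abs_mul, abs_mul, abs_of_nonneg (show 0 ≤ c by linarith)]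
          _ ≤ _ := by gcongr
      refine le_trans h1 ?_
      rw [le_div_iff₀ (by positivity)]
      have h2 : |ag| * (2 * k) * (5 * M ^ 2 * q) ≤ |δ| / 2 := by
        calc |ag| * (2 * k) * (5 * M ^ 2 * q) = 20 * |ag| * q * M ^ 2 * k / 2 := by ring
          _ ≤ |δ| / 2 := by gcongr
      have h3 : |δ| * (10 * q * M * k) * (5 * M ^ 2 * q) ≤ |δ| / 2 := by
        have h4 : 50 * q ^ 2 * (k * M ^ 3) ≤ 1 / 2 := by nlinarith
        calc |δ| * (10 * q * M * k) * (5 * M ^ 2 * q) = |δ| * (50 * q ^ 2 * (k * M ^ 3)) := by ring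
          _ ≤ |δ| * (1 / 2) := by gcongr
          _ = |δ| / 2 := by ring
      nlinarith
    have hV := (hV1 a b (|δ| / (2 * M)) (DP X M x1 x2 x3 x4) f1 f2 hab hl0
      (fun x _ => hd1 x) (fun x _ => hd2 x) hf2c.continuousOn hl).1
    have hint : ∫ x in a..b, |f2 x| / f1 x ^ 2 ≤ 4 / (5 * q * |δ|) * (b - a) := by
      have h1 := intervalIntegral.norm_integral_le_of_norm_le_const
        (f := fun x => |f2 x| / f1 x ^ 2) (a := a) (b := b) (C := 4 / (5 * q * |δ|)) (by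
          intro x hx
          rw [uIoc_of_le hab] at hx
          have hx' : x ∈ Icc a b := ⟨hx.1.le, hx.2⟩
          have h2 := hl x hx'
          have h3 := hub x hx'
          have h4 : (|δ| / (2 * M)) ^ 2 ≤ f1 x ^ 2 := by
            rw [← sq_abs (f1 x)]
            gcongr
          rw [Real.norm_eq_abs, abs_of_nonneg (by positivity)]
          calc |f2 x| / f1 x ^ 2 ≤ (|δ| / (5 * M ^ 2 * q)) / (|δ| / (2 * M)) ^ 2 := by
                gcongr
            _ = 4 / (5 * q * |δ|) := by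
                field_simp
                norm_num)
      rw [abs_of_nonneg hba0] at h1
      exact le_trans (Real.le_norm_self _) h1
    have h5 : ‖∫ x in a..b, ee (DP X M x1 x2 x3 x4 x)‖ ≤ 4 * (M / |δ|) := by
      refine le_trans hV ?_
      have e1 : 1 / (|δ| / (2 * M)) = 2 * (M / |δ|) := by field_simp
      have e2 : 4 / (5 * q * |δ|) * (b - a) ≤ 2 * (M / |δ|) := by
        calc 4 / (5 * q * |δ|) * (b - a) ≤ 4 / (5 * q * |δ|) * (3 / 2 * (M * q)) := by gcongr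
          _ = 6 / 5 * (M / |δ|) := by
            field_simp
            norm_num
          _ ≤ 2 * (M / |δ|) := by
            have : 0 < M / |δ| := by positivity
            linarith
      rw [e1]
      linarith
    have h6 : 0 ≤ M / |δ| := by positivity
    have h7 : (0 : ℝ) ≤ if |δ| ≤ 2500 * (M * N * q / X ^ 2) then
        M * Real.sqrt q / Real.sqrt |δ| else 0 := by
      split_ifs
      · positivity
      · exact le_refl 0
    nlinarith
  · -- CASE B
    push Not at hcase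
    have hag0 : 0 < |ag| := by
      rcases eq_or_lt_of_le (abs_nonneg ag) with h | h
      · rw [← h] at hcase
        exfalso
        simp only [mul_zero, zero_mul] at hcase
        linarith
      · exact h
    have hcond : |δ| ≤ 2500 * (M * N * q / X ^ 2) := by
      have h1 : 20 * |ag| * q * M ^ 2 * k ≤ 20 * (9 / 4 * (M * q) ^ 2) * q * M ^ 2 * k := by gcongr
      have h2 : 20 * (9 / 4 * (M * q) ^ 2) * q * M ^ 2 * k = 45 * (M * N * q / X ^ 2) := by
        rw [hk, ← hqN]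
        field_simp
        norm_num
      have h3 : 0 ≤ M * N * q / X ^ 2 := by positivity
      linarith
    rw [if_pos hcond]
    have hμ0 : 0 < |ag| * k / 2 := by positivity
    have hsmall : |δ| * (10 * q * M * k) ≤ |ag| * k / 2 := by
      calc |δ| * (10 * q * M * k) ≤ (20 * |ag| * q * M ^ 2 * k) * (10 * q * M * k) := by gcongr
        _ = |ag| * k * (200 * q ^ 2 * (k * M ^ 3)) := by ring
        _ ≤ |ag| * k * (1 / 2) := by
          have : 200 * q ^ 2 * (k * M ^ 3) ≤ 1 / 2 := by nlinarith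
          gcongr
        _ = |ag| * k / 2 := by ring
    have hsign : (∀ x ∈ Icc a b, |ag| * k / 2 ≤ f2 x) ∨
        (∀ x ∈ Icc a b, f2 x ≤ -(|ag| * k / 2)) := by
      rcases lt_or_ge ag 0 with hneg | hpos
      · right
        intro x hx
        obtain ⟨c, e, hc1, hc2, he1, he⟩ := hF2 x hx
        have h1 : |δ * e| ≤ |ag| * k / 2 := by
          rw [abs_mul]
          refine le_trans ?_ hsmall
          gcongr
        have h2 : ag * c ≤ -(|ag| * k) := by
          rw [abs_of_neg hneg]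
          nlinarith
        rw [he]
        have h3 := (abs_le.1 h1).1
        linarith
      · left
        intro x hx
        obtain ⟨c, e, hc1, hc2, he1, he⟩ := hF2 x hx
        have h1 : |δ * e| ≤ |ag| * k / 2 := by
          rw [abs_mul]
          refine le_trans ?_ hsmall
          gcongr
        have h2 : |ag| * k ≤ ag * c := by
          rw [abs_of_nonneg hpos]
          nlinarith
        rw [he]
        have h3 := (abs_le.1 h1).2
        linarith
    have hV := hV2 a b (|ag| * k / 2) (DP X M x1 x2 x3 x4) f1 f2 hab hμ0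
      (fun x _ => hd1 x) (fun x _ => hd2 x) hf2c.continuousOn hsign
    have hsμ : 0 < Real.sqrt (|ag| * k / 2) := Real.sqrt_pos.2 hμ0
    have hsδ : 0 < Real.sqrt |δ| := Real.sqrt_pos.2 hδ0
    have h8 : 8 * Real.sqrt |δ| ≤ 52 * (M * Real.sqrt q) * Real.sqrt (|ag| * k / 2) := by
      have h9 : (8 * Real.sqrt |δ|) ^ 2 ≤
          (52 * (M * Real.sqrt q) * Real.sqrt (|ag| * k / 2)) ^ 2 := by
        have e1 : (8 * Real.sqrt |δ|) ^ 2 = 64 * |δ| := by
          rw [mul_pow, Real.sq_sqrt hδ0.le]; norm_num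
        have e2 : (52 * (M * Real.sqrt q) * Real.sqrt (|ag| * k / 2)) ^ 2 =
            1352 * (M ^ 2 * q * (|ag| * k)) := by
          rw [mul_pow, mul_pow, mul_pow, Real.sq_sqrt hq0.le, Real.sq_sqrt hμ0.le]; ring
        rw [e1, e2]
        have h10 : 0 ≤ M ^ 2 * q * (|ag| * k) := by positivity
        nlinarith
      exact le_of_sq_le_sq h9 (by positivity)
    have h11 : 8 / Real.sqrt (|ag| * k / 2) ≤ 52 * (M * Real.sqrt q / Real.sqrt |δ|) := by
      rw [div_le_iff₀ hsμ]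
      have e3 : 52 * (M * Real.sqrt q / Real.sqrt |δ|) * Real.sqrt (|ag| * k / 2) =
          52 * (M * Real.sqrt q) * Real.sqrt (|ag| * k / 2) / Real.sqrt |δ| := by ring
      rw [e3, le_div_iff₀ hsδ]
      exact h8
    have h12 : 0 ≤ M / |δ| := by positivity
    have h13 : 0 ≤ M * Real.sqrt q / Real.sqrt |δ| := by positivity
    nlinarith [le_trans hV h11]

end Pool.Agent.Work.MP_56b8f5_nt.UB
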