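import Pool.Agent.Work.MP_56b8f5_nt.UB.Stmts

/-!
MP_56b8f5_nt, block UB, item IP: integration by parts, once and twice.
-/

open MeasureTheory Set Filter Topology

noncomputable section

namespace Pool.Agent.Work.MP_56b8f5_nt.UB

namespace IP_aux

lemma norm_ee' (x : ℝ) : ‖ee x‖ = 1 := by
  unfold ee
  exact Complex.norm_exp_ofReal_mul_I _

lemma hasDerivAt_ee' {f : ℝ → ℝ} {f' x : ℝ} (h : HasDerivAt f f' x) :
    HasDerivAt (fun y => ee (f y)) (2 * Real.pi * Complex.I * f' * ee (f x)) x := by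
  unfold ee
  have h1 : HasDerivAt (fun y => ((2 * Real.pi * f y : ℝ) : ℂ))
      ((2 * Real.pi * f' : ℝ) : ℂ) x := (h.const_mul (2 * Real.pi)).ofReal_comp
  have h2 := (h1.mul_const Complex.I).cexp
  convert h2 using 1
  push_cast
  ring

lemma continuous_ee' : Continuous ee := by
  unfold ee
  fun_prop

lemma parts {α β : ℝ} {c c1 f f1 : ℝ → ℝ} (hαβ : α ≤ β)
    (hc : ∀ x ∈ Icc α β, HasDerivAt c (c1 x) x) (hf : ∀ x ∈ Icc α β, HasDerivAt f (f1 x) x)
    (hc1 : ContinuousOn c1 (Icc α β)) (hf1 : ContinuousOn f1 (Icc α β)) :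
    ‖∫ x in α..β, ((c x * f1 x : ℝ) : ℂ) * ee (f x)‖ ≤
      |c β| + |c α| + ‖∫ x in α..β, (c1 x : ℂ) * ee (f x)‖ := by
  have hcc : ContinuousOn c (Icc α β) := fun x hx => (hc x hx).continuousAt.continuousWithinAt
  have hfc : ContinuousOn f (Icc α β) := fun x hx => (hf x hx).continuousAt.continuousWithinAt
  have hee : ContinuousOn (fun x => ee (f x)) (Icc α β) := continuous_ee'.comp_continuousOn hfc
  have hI1 : IntervalIntegrable (fun x => (c1 x : ℂ) * ee (f x)) volume α β := by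
    apply ContinuousOn.intervalIntegrable
    rw [uIcc_of_le hαβ]
    exact (Complex.continuous_ofReal.comp_continuousOn hc1).mul hee
  have hI2 : IntervalIntegrable (fun x => ((c x * f1 x : ℝ) : ℂ) * ee (f x)) volume α β := by
    apply ContinuousOn.intervalIntegrable
    rw [uIcc_of_le hαβ]
    exact (Complex.continuous_ofReal.comp_continuousOn (hcc.mul hf1)).mul hee
  have hF : ∀ x ∈ uIcc α β, HasDerivAt (fun y => (c y : ℂ) * ee (f y))
      ((c1 x : ℂ) * ee (f x) + 2 * Real.pi * Complex.I * (((c x * f1 x : ℝ) : ℂ) * ee (f x))) x := by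
    intro x hx
    rw [uIcc_of_le hαβ] at hx
    refine HasDerivAt.congr_deriv (((hc x hx).ofReal_comp).mul (hasDerivAt_ee' (hf x hx))) ?_
    push_cast
    ring
  have hint := intervalIntegral.integral_eq_sub_of_hasDerivAt hF
    (hI1.add (hI2.const_mul (2 * Real.pi * Complex.I)))
  rw [intervalIntegral.integral_add hI1 (hI2.const_mul _),
    intervalIntegral.integral_const_mul] at hint
  have hpi : (1 : ℝ) ≤ 2 * Real.pi := by linarith [Real.pi_gt_three]
  have hn : ‖(2 * Real.pi * Complex.I : ℂ)‖ = 2 * Real.pi := by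
    simp [abs_of_pos Real.pi_pos]
  have h3 : (2 * Real.pi * Complex.I : ℂ) * ∫ x in α..β, ((c x * f1 x : ℝ) : ℂ) * ee (f x) =
      (c β : ℂ) * ee (f β) - (c α : ℂ) * ee (f α) - ∫ x in α..β, (c1 x : ℂ) * ee (f x) := by
    rw [← hint]
    ring
  have h4 : (2 * Real.pi) * ‖∫ x in α..β, ((c x * f1 x : ℝ) : ℂ) * ee (f x)‖ ≤
      |c β| + |c α| + ‖∫ x in α..β, (c1 x : ℂ) * ee (f x)‖ := by
    rw [← hn, ← norm_mul, h3]
    calc _ ≤ ‖(c β : ℂ) * ee (f β) - (c α : ℂ) * ee (f α)‖ +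
          ‖∫ x in α..β, (c1 x : ℂ) * ee (f x)‖ := norm_sub_le _ _
      _ ≤ ‖(c β : ℂ) * ee (f β)‖ + ‖(c α : ℂ) * ee (f α)‖ +
          ‖∫ x in α..β, (c1 x : ℂ) * ee (f x)‖ := by
            gcongr
            exact norm_sub_le _ _
      _ = _ := by
            rw [norm_mul, norm_mul, norm_ee', norm_ee', Complex.norm_real, Complex.norm_real]
            simp
  refine le_trans ?_ h4
  nlinarith [norm_nonneg (∫ x in α..β, ((c x * f1 x : ℝ) : ℂ) * ee (f x))]

lemma norm_int_le {α β : ℝ} {c f g : ℝ → ℝ} (hαβ : α ≤ β)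
    (hg : ContinuousOn g (Icc α β)) (h : ∀ x ∈ Icc α β, |c x| ≤ g x) :
    ‖∫ x in α..β, (c x : ℂ) * ee (f x)‖ ≤ ∫ x in α..β, g x := by
  apply intervalIntegral.norm_integral_le_of_norm_le hαβ
  · refine Filter.Eventually.of_forall fun x hx => ?_
    rw [norm_mul, norm_ee', mul_one, Complex.norm_real]
    exact h x ⟨hx.1.le, hx.2⟩
  · apply ContinuousOn.intervalIntegrable
    rwa [uIcc_of_le hαβ]

end IP_aux

open IP_aux in
theorem iIP : StIP := by
  intro α β a a1 a2 f f1 f2 f3 hαβ h ha1 hf2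
  have hf1 : ContinuousOn f1 (Icc α β) := fun x hx => (h x hx).2.2.1.continuousAt.continuousWithinAt
  have hac : ContinuousOn a (Icc α β) := fun x hx => (h x hx).1.continuousAt.continuousWithinAt
  have hne : ∀ x ∈ Icc α β, f1 x ≠ 0 := fun x hx => (h x hx).2.2.2
  have hα : α ∈ Icc α β := ⟨le_refl _, hαβ⟩
  have hβ : β ∈ Icc α β := ⟨hαβ, le_refl _⟩
  -- first step
  have hc : ∀ x ∈ Icc α β, HasDerivAt (fun y => a y / f1 y) (a1 x / f1 x - a x * f2 x / f1 x ^ 2) x := by
    intro x hx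
    refine HasDerivAt.congr_deriv ((h x hx).1.div (h x hx).2.2.1 (hne x hx)) ?_
    have := hne x hx
    field_simp
  have hc1 : ContinuousOn (fun x => a1 x / f1 x - a x * f2 x / f1 x ^ 2) (Icc α β) :=
    (ha1.div hf1 hne).sub ((hac.mul hf2).div (hf1.pow 2) fun x hx => pow_ne_zero _ (hne x hx))
  have hI : ∫ x in α..β, (a x : ℂ) * ee (f x) =
      ∫ x in α..β, ((a x / f1 x * f1 x : ℝ) : ℂ) * ee (f x) := by
    apply intervalIntegral.integral_congr
    intro x hx
    rw [uIcc_of_le hαβ] at hx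
    simp only
    rw [div_mul_cancel₀ _ (hne x hx)]
  have hstep := parts hαβ hc (fun x hx => (h x hx).2.1) hc1 hf1
  rw [← hI] at hstep
  simp only [abs_div] at hstep
  constructor
  · refine le_trans hstep ?_
    gcongr
    apply norm_int_le hαβ
    · exact (ha1.abs.div hf1.abs fun x hx => abs_ne_zero.mpr (hne x hx)).add
        ((hac.abs.mul hf2.abs).div (hf1.pow 2) fun x hx => pow_ne_zero _ (hne x hx))
    · intro x hx
      refine le_trans (abs_sub _ _) ?_
      rw [abs_div, abs_div, abs_mul, abs_of_nonneg (sq_nonneg (f1 x))]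
  · intro h2 ha2 hf3
    have hd : ∀ x ∈ Icc α β, HasDerivAt (fun y => (a1 y / f1 y - a y * f2 y / f1 y ^ 2) / f1 y)
        (a2 x / f1 x ^ 2 - 3 * (a1 x * f2 x / f1 x ^ 3) + 3 * (a x * f2 x ^ 2 / f1 x ^ 4) -
          a x * f3 x / f1 x ^ 3) x := by
      intro x hx
      have e1 := (h2 x hx).1.div (h x hx).2.2.1 (hne x hx)
      have e2 := ((h x hx).1.mul (h2 x hx).2).div ((h x hx).2.2.1.pow 2) (pow_ne_zero 2 (hne x hx))
      refine HasDerivAt.congr_deriv ((e1.sub e2).div (h x hx).2.2.1 (hne x hx)) ?_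
      have := hne x hx
      simp only [Pi.mul_apply, Pi.pow_apply, Pi.div_apply, Pi.sub_apply]
      field_simp
      ring
    have hd1 : ContinuousOn (fun x => a2 x / f1 x ^ 2 - 3 * (a1 x * f2 x / f1 x ^ 3) +
        3 * (a x * f2 x ^ 2 / f1 x ^ 4) - a x * f3 x / f1 x ^ 3) (Icc α β) :=
      (((ha2.div (hf1.pow 2) fun x hx => pow_ne_zero _ (hne x hx)).sub
        (continuousOn_const.mul ((ha1.mul hf2).div (hf1.pow 3) fun x hx => pow_ne_zero _ (hne x hx)))).add
        (continuousOn_const.mul ((hac.mul (hf2.pow 2)).div (hf1.pow 4)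
          fun x hx => pow_ne_zero _ (hne x hx)))).sub
        ((hac.mul hf3).div (hf1.pow 3) fun x hx => pow_ne_zero _ (hne x hx))
    have hI' : ∫ x in α..β, ((a1 x / f1 x - a x * f2 x / f1 x ^ 2 : ℝ) : ℂ) * ee (f x) =
        ∫ x in α..β, (((a1 x / f1 x - a x * f2 x / f1 x ^ 2) / f1 x * f1 x : ℝ) : ℂ) * ee (f x) := by
      apply intervalIntegral.integral_congr
      intro x hx
      rw [uIcc_of_le hαβ] at hx
      simp only
      rw [div_mul_cancel₀ _ (hne x hx)]
    have hstep2 := parts hαβ hd (fun x hx => (h x hx).2.1) hd1 hf1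
    rw [← hI'] at hstep2
    have hbd : ∀ x ∈ Icc α β, |(a1 x / f1 x - a x * f2 x / f1 x ^ 2) / f1 x| ≤
        |a1 x| / f1 x ^ 2 + |a x| * |f2 x| / |f1 x| ^ 3 := by
      intro x hx
      have hx' : 0 < |f1 x| := abs_pos.mpr (hne x hx)
      have e1 : (a1 x / f1 x - a x * f2 x / f1 x ^ 2) / f1 x =
          a1 x / f1 x ^ 2 - a x * f2 x / f1 x ^ 3 := by
        have := hne x hx
        field_simp
      rw [e1]
      refine le_trans (abs_sub _ _) ?_
      rw [abs_div, abs_div, abs_mul, abs_pow, abs_pow, sq_abs]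
    have hint : ‖∫ x in α..β, ((a2 x / f1 x ^ 2 - 3 * (a1 x * f2 x / f1 x ^ 3) +
        3 * (a x * f2 x ^ 2 / f1 x ^ 4) - a x * f3 x / f1 x ^ 3 : ℝ) : ℂ) * ee (f x)‖ ≤
        ∫ x in α..β, 3 * (|a2 x| / f1 x ^ 2 + |a1 x| * |f2 x| / |f1 x| ^ 3 +
          |a x| * f2 x ^ 2 / f1 x ^ 4 + |a x| * |f3 x| / |f1 x| ^ 3) := by
      apply norm_int_le hαβ
      · have hz : ∀ x ∈ Icc α β, |f1 x| ^ 3 ≠ 0 := fun x hx => pow_ne_zero _ (abs_ne_zero.mpr (hne x hx))
        exact continuousOn_const.mul ((((ha2.abs.div (hf1.pow 2) fun x hx => pow_ne_zero _ (hne x hx)).add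
          ((ha1.abs.mul hf2.abs).div (hf1.abs.pow 3) hz)).add
          ((hac.abs.mul (hf2.pow 2)).div (hf1.pow 4) fun x hx => pow_ne_zero _ (hne x hx))).add
          ((hac.abs.mul hf3.abs).div (hf1.abs.pow 3) hz))
      · intro x hx
        have p1 : |a2 x / f1 x ^ 2| = |a2 x| / f1 x ^ 2 := by
          rw [abs_div, abs_of_nonneg (sq_nonneg (f1 x))]
        have p2 : |a1 x * f2 x / f1 x ^ 3| = |a1 x| * |f2 x| / |f1 x| ^ 3 := by
          rw [abs_div, abs_mul, abs_pow]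
        have p3 : |a x * f2 x ^ 2 / f1 x ^ 4| = |a x| * f2 x ^ 2 / f1 x ^ 4 := by
          rw [abs_div, abs_mul, abs_of_nonneg (sq_nonneg (f2 x)),
            abs_of_nonneg (by positivity : (0 : ℝ) ≤ f1 x ^ 4)]
        have p4 : |a x * f3 x / f1 x ^ 3| = |a x| * |f3 x| / |f1 x| ^ 3 := by
          rw [abs_div, abs_mul, abs_pow]
        have q1 : 0 ≤ |a2 x| / f1 x ^ 2 := by positivity
        have q4 : 0 ≤ |a x| * |f3 x| / |f1 x| ^ 3 := by positivity
        rw [← p1, ← p2, ← p3, ← p4]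
        rw [← p1] at q1
        rw [← p4] at q4
        generalize a2 x / f1 x ^ 2 = u1 at *
        generalize a1 x * f2 x / f1 x ^ 3 = u2 at *
        generalize a x * f2 x ^ 2 / f1 x ^ 4 = u3 at *
        generalize a x * f3 x / f1 x ^ 3 = u4 at *
        have t1 := abs_sub (u1 - 3 * u2 + 3 * u3) u4
        have t2 := abs_add_le (u1 - 3 * u2) (3 * u3)
        have t3 := abs_sub u1 (3 * u2)
        rw [abs_mul, abs_of_pos (by norm_num : (0 : ℝ) < 3)] at t2 t3
        linarith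
    rw [intervalIntegral.integral_const_mul] at hint
    have b1 := hbd α hα
    have b2 := hbd β hβ
    linarith [hstep, hstep2, hint, b1, b2]

end Pool.Agent.Work.MP_56b8f5_nt.UB
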