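import Pool.Agent.Work.MP_56b8f5_nt.UB.Stmts

/-!
MP_56b8f5_nt, block UB, item JB: bounds for `J(V)` from the block bounds
(mean value, classical range, new range) and the reduction FJ.
-/

open MeasureTheory Set Filter Topology

noncomputable section

namespace Pool.Agent.Work.MP_56b8f5_nt.UB

namespace JB_aux

/-- Chebyshev: the mean square of a block bounds the measure of its large value sets. -/
lemma cheb {Θ : ℝ → ℝ} {T G N u B : ℝ} {a : ℕ → ℂ}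
    (hc : ContinuousOn (SJ Θ T G a N) (sI T)) (hm : MeasurableSet (BS Θ T G a N u)) (hu : 1 ≤ u)
    (hB : ∫ s in sI T, ‖SJ Θ T G a N s‖ ^ 2 ≤ B) : u * Rr (BS Θ T G a N u) ≤ B := by
  have hsub : BS Θ T G a N u ⊆ sI T := fun s hs => hs.1
  have hcomp : IsCompact (sI T) := isCompact_Icc
  have hint : IntegrableOn (fun s => ‖SJ Θ T G a N s‖ ^ 2) (sI T) :=
    (hc.norm.pow 2).integrableOn_compact hcomp
  have hfin : volume (BS Θ T G a N u) ≠ ⊤ :=
    ne_top_of_le_ne_top hcomp.measure_lt_top.ne (measure_mono hsub)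
  have h1 : ∫ s in BS Θ T G a N u, ‖SJ Θ T G a N s‖ ^ 2 ≤ ∫ s in sI T, ‖SJ Θ T G a N s‖ ^ 2 :=
    setIntegral_mono_set hint (Eventually.of_forall fun s => by positivity)
      (LE.le.eventuallyLE hsub)
  have hRnn : 0 ≤ Rr (BS Θ T G a N u) := ENNReal.toReal_nonneg
  have h2 : u ^ 2 * Rr (BS Θ T G a N u) ≤ ∫ s in BS Θ T G a N u, ‖SJ Θ T G a N s‖ ^ 2 := by
    have h3 : ∫ _s in BS Θ T G a N u, u ^ 2 = u ^ 2 * Rr (BS Θ T G a N u) := by
      rw [setIntegral_const]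
      simp [Rr, Measure.real, mul_comm]
    rw [← h3]
    apply setIntegral_mono_on _ (hint.mono_set hsub) hm
    · intro s hs
      exact pow_le_pow_left₀ (by linarith) hs.2 2
    · exact integrableOn_const hfin
  nlinarith [mul_nonneg hRnn (by nlinarith : (0 : ℝ) ≤ u ^ 2 - u)]

lemma rp_pow {T : ℝ} (hT : 0 < T) (x : ℝ) (n : ℕ) : (T ^ x) ^ n = T ^ (x * n) := by
  rw [← Real.rpow_natCast, ← Real.rpow_mul hT.le]

/-- `√(N T) ≤ C' T^{1+e/4} / V²` for `N ≤ C' T / G²`. -/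
lemma sqrt_bd {T V e C' N : ℝ} (hT : 0 < T) (hV : 0 < V) (hC : 1 ≤ C')
    (hN : N ≤ C' * T ^ (1 + e / 2) / V ^ 4) :
    Real.sqrt (N * T) ≤ C' * T ^ (1 + e / 4) / V ^ 2 := by
  have h1 : C' * T ^ (1 + e / 2) / V ^ 4 * T ≤ (C' * T ^ (1 + e / 4) / V ^ 2) ^ 2 := by
    have h2 : (C' * T ^ (1 + e / 4) / V ^ 2) ^ 2 = C' ^ 2 * T ^ (2 + e / 2) / V ^ 4 := by
      rw [div_pow, mul_pow, rp_pow hT, ← pow_mul]
      congr 3
      push_cast; ring
    have h3 : C' * T ^ (1 + e / 2) / V ^ 4 * T = C' * T ^ (2 + e / 2) / V ^ 4 := by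
      have : T ^ (2 + e / 2) = T ^ (1 + e / 2) * T := by
        rw [← Real.rpow_add_one hT.ne']; congr 1; ring
      rw [this]; ring
    rw [h2, h3]
    have h4 : C' ≤ C' ^ 2 := by nlinarith
    have h5 : (0 : ℝ) ≤ T ^ (2 + e / 2) / V ^ 4 := by positivity
    calc C' * T ^ (2 + e / 2) / V ^ 4 = C' * (T ^ (2 + e / 2) / V ^ 4) := by ring
      _ ≤ C' ^ 2 * (T ^ (2 + e / 2) / V ^ 4) := by gcongr
      _ = _ := by ring
  apply Real.sqrt_le_iff.2
  refine ⟨by positivity, le_trans ?_ h1⟩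
  exact mul_le_mul_of_nonneg_right hN hT.le

/-- `√N ≤ C' T^{1/2+e/4} / V²` for `N ≤ C' T / G²`. -/
lemma sqrt_bd' {T V e C' N : ℝ} (hT : 0 < T) (hV : 0 < V) (hC : 1 ≤ C')
    (hN : N ≤ C' * T ^ (1 + e / 2) / V ^ 4) :
    Real.sqrt N ≤ C' * T ^ (1 / 2 + e / 4) / V ^ 2 := by
  have h1 : C' * T ^ (1 + e / 2) / V ^ 4 ≤ (C' * T ^ (1 / 2 + e / 4) / V ^ 2) ^ 2 := by
    have h2 : (C' * T ^ (1 / 2 + e / 4) / V ^ 2) ^ 2 = C' ^ 2 * T ^ (1 + e / 2) / V ^ 4 := by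
      rw [div_pow, mul_pow, rp_pow hT, ← pow_mul]
      congr 3
      push_cast; ring
    rw [h2]
    have h4 : C' ≤ C' ^ 2 := by nlinarith
    have h5 : (0 : ℝ) ≤ T ^ (1 + e / 2) / V ^ 4 := by positivity
    calc C' * T ^ (1 + e / 2) / V ^ 4 = C' * (T ^ (1 + e / 2) / V ^ 4) := by ring
      _ ≤ C' ^ 2 * (T ^ (1 + e / 2) / V ^ 4) := by gcongr
      _ = _ := by ring
  apply Real.sqrt_le_iff.2
  exact ⟨by positivity, hN.trans h1⟩

/-- `K ≤ T^δ` for `T ≥ K^{1/δ}`. -/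
lemma le_rp {K δ T : ℝ} (hK : 0 ≤ K) (hδ : 0 < δ) (hT : K ^ (1 / δ) ≤ T) : K ≤ T ^ δ := by
  calc K = (K ^ (1 / δ)) ^ δ := by
        rw [← Real.rpow_mul hK, one_div_mul_cancel hδ.ne', Real.rpow_one]
    _ ≤ T ^ δ := Real.rpow_le_rpow (by positivity) hT hδ.le

end JB_aux

open JB_aux in
theorem iJB (hPhi : StPhi) (hMV : StMV) (hMb : StMb) (hFc : StFc) (hFb : StFb) (hFJ : StFJ) : StJB := by
  intro ε hε0 hε1
  obtain ⟨φ, Θ, hφ⟩ := hPhi
  set e : ℝ := ε / 100 with he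
  have he0 : 0 < e := by positivity
  have hεe : ε = 100 * e := by rw [he]; ring
  have he1 : e < 1 / 10000 := by rw [he]; linarith
  obtain ⟨C', CJ, hC', hCJ, FJ⟩ := hFJ φ Θ hφ e he0 (by linarith)
  obtain ⟨CM, hCM, MV⟩ := hMV φ Θ hφ C' hC'
  obtain ⟨Cm, hCm, MB⟩ := hMb φ Θ hφ C' hC'
  obtain ⟨Cc, hCc, FC⟩ := hFc φ Θ hφ C' e hC' he0 (by linarith)
  obtain ⟨Cb, hCb, FB⟩ := hFb φ Θ hφ C' e hC' he0 (by linarith)
  obtain ⟨K, hK⟩ : ∃ K : ℝ, K = C' + CJ + CM + Cm + Cc + Cb := ⟨_, rfl⟩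
  have hK0 : 0 ≤ K := by rw [hK]; linarith
  have hK2 : 2 ≤ K := by rw [hK]; linarith
  have kC' : C' ≤ K := by rw [hK]; linarith
  have kCJ : CJ ≤ K := by rw [hK]; linarith
  have kCM : CM ≤ K := by rw [hK]; linarith
  have kCm : Cm ≤ K := by rw [hK]; linarith
  have kCc : Cc ≤ K := by rw [hK]; linarith
  have kCb : Cb ≤ K := by rw [hK]; linarith
  clear hK
  obtain ⟨K1, hK1⟩ : ∃ K1 : ℝ, K1 = K ^ (1 / ε) := ⟨_, rfl⟩
  obtain ⟨δ, hδ⟩ : ∃ δ : ℝ, δ = 1 / 1000 := ⟨_, rfl⟩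
  have hδ0 : 0 < δ := by rw [hδ]; norm_num
  obtain ⟨K3, hK3⟩ : ∃ K3 : ℝ, K3 = K ^ (1 / δ) := ⟨_, rfl⟩
  have hKp : 0 ≤ K1 := by rw [hK1]; exact Real.rpow_nonneg hK0 _
  have hKp' : 0 ≤ K3 := by rw [hK3]; exact Real.rpow_nonneg hK0 _
  obtain ⟨D1, hD1⟩ : ∃ D1 : ℝ, D1 = CJ * (CM * C' / e) := ⟨_, rfl⟩
  have hD1' : 0 ≤ D1 := by rw [hD1]; positivity
  obtain ⟨D2, hD2⟩ : ∃ D2 : ℝ, D2 = CJ * (Cc * C' ^ 5) := ⟨_, rfl⟩
  have hD2' : 0 ≤ D2 := by rw [hD2]; positivity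
  obtain ⟨D3, hD3⟩ : ∃ D3 : ℝ, D3 = CJ * (CM / e + Cb * (1 + C') ^ 2) := ⟨_, rfl⟩
  have hD3' : 0 ≤ D3 := by rw [hD3]; positivity
  have hD12 : 0 ≤ D1 * C' ^ 2 := by positivity
  obtain ⟨C, hC⟩ : ∃ C : ℝ, C = K + K1 + K3 + D1 + D1 * C' ^ 2 + D2 + D3 := ⟨_, rfl⟩
  have cD1 : D1 ≤ C := by rw [hC]; linarith
  have cD12 : D1 * C' ^ 2 ≤ C := by rw [hC]; linarith
  have cD2 : D2 ≤ C := by rw [hC]; linarith
  have cD3 : D3 ≤ C := by rw [hC]; linarith
  have cK : K ≤ C := by rw [hC]; linarith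
  have cK1 : K1 ≤ C := by rw [hC]; linarith
  have cK3 : K3 ≤ C := by rw [hC]; linarith
  clear hC
  refine ⟨C, by linarith, ?_⟩
  intro T V hT hTV hV4
  have hTK : K ≤ T := by linarith
  have hT1 : 1 ≤ T := by linarith
  have hTpos : 0 < T := by linarith
  have hKε : K ≤ T ^ ε := le_rp hK0 hε0 (by rw [← hK1]; linarith)
  have hK1000 : K ≤ T ^ δ := le_rp hK0 hδ0 (by rw [← hK3]; linarith)
  clear hK1 hK3
  have hVpos : 0 < V := lt_of_lt_of_le (Real.rpow_pos_of_pos hTpos _) hTV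
  have mono : ∀ x y : ℝ, x ≤ y → T ^ x ≤ T ^ y := fun x y h => Real.rpow_le_rpow_of_exponent_le hT1 h
  set G : ℝ := V ^ 2 * T ^ (-(e / 4)) with hG
  have hGK : K ≤ G := by
    calc K ≤ T ^ ε := hKε
      _ ≤ T ^ (2 * ε - e / 4) := mono _ _ (by linarith)
      _ = (T ^ ε) ^ 2 * T ^ (-(e / 4)) := by
          rw [rp_pow hTpos, ← Real.rpow_add hTpos]; congr 1; push_cast; ring
      _ ≤ G := by
          rw [hG]; gcongr
  have hG0 : 0 < G := by rw [hG]; positivity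
  have hG2T : G ^ 2 ≤ T := by
    have h1 : G ≤ T ^ (1 / 2 : ℝ) := by
      calc G ≤ V ^ 2 * T ^ (0 : ℝ) := by
            rw [hG]
            exact mul_le_mul_of_nonneg_left (Real.rpow_le_rpow_of_exponent_le hT1 (by linarith))
              (by positivity)
        _ = V ^ 2 := by rw [Real.rpow_zero, mul_one]
        _ ≤ (T ^ (1 / 4 : ℝ)) ^ 2 := by gcongr
        _ = T ^ (1 / 2 : ℝ) := by rw [rp_pow hTpos]; congr 1; norm_num
    calc G ^ 2 ≤ (T ^ (1 / 2 : ℝ)) ^ 2 := by gcongr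
      _ = T ^ (1 : ℝ) := by rw [rp_pow hTpos]; congr 1; norm_num
      _ = T := Real.rpow_one T
  have hN0 : C' * T / G ^ 2 = C' * T ^ (1 + e / 2) / V ^ 4 := by
    have h1 : G ^ 2 = V ^ 4 * T ^ (-(e / 2)) := by
      rw [hG, mul_pow, rp_pow hTpos, ← pow_mul]; congr 2; push_cast; ring
    have h2 : T ^ (1 + e / 2) * T ^ (-(e / 2)) = T := by
      rw [← Real.rpow_add hTpos]
      conv_rhs => rw [← Real.rpow_one T]
      congr 1; ring
    have h3 : (0 : ℝ) < T ^ (-(e / 2)) := by positivity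
    rw [h1, div_eq_div_iff (by positivity) (by positivity)]
    calc C' * T * V ^ 4 = C' * (T ^ (1 + e / 2) * T ^ (-(e / 2))) * V ^ 4 := by rw [h2]
      _ = _ := by ring
  -- thresholds
  have c1 : CM ≤ G := by linarith
  have c2 : Cm ≤ G := by linarith
  have c3 : Cc ≤ G := by linarith
  have c4 : Cb ≤ G := by linarith
  have t1 : CM ≤ T := by linarith
  have t2 : Cm ≤ T := by linarith
  have t3 : Cc ≤ T := by linarith
  have t4 : Cb ≤ T := by linarith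
  have t5 : CJ ≤ T := by linarith
  have hTeV : T ^ e ≤ V := (mono _ _ (by linarith)).trans hTV
  have hlog : Real.log T ≤ T ^ e / e := Real.log_le_rpow_div hTpos.le he0
  have hlog0 : 0 ≤ Real.log T := Real.log_nonneg hT1
  -- mean value bound for one block
  have block : ∀ (N : ℝ) (a : ℕ → ℂ) (u : ℝ), 1 ≤ N → (∀ n, ‖a n‖ ≤ 1) → 1 ≤ u →
      2 * N ≤ C' * T / G ^ 2 → u * Rr (BS Θ T G a N u) ≤ CM * Real.sqrt (N * T) * Real.log T := by
    intro N a u hN ha hu hN2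
    obtain ⟨hcont, hmeas⟩ := (MB T G t2 c2 hG2T).2 N u a hN hN2
    exact cheb hcont hmeas hu (MV T G N a t1 c1 hG2T hN hN2 ha)
  have one_le_two_pow' : ∀ j : ℕ, (1 : ℝ) ≤ 2 ^ j := fun j => one_le_pow₀ (by norm_num)
  -- (1), finer form
  have R1 : JV T V ≤ D1 * T ^ (1 + 9 / 4 * e) / V ^ 2 := by
    have h1 : JV T V ≤ CJ * T ^ e * (CM * (C' * T ^ (1 + e / 4) / V ^ 2) * (T ^ e / e)) := by
      apply FJ T V _ t5 hTeV hV4 (by positivity)
      intro j a u ha hu hj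
      have hb := block (2 ^ j) a u (one_le_two_pow' j) ha hu hj
      refine hb.trans ?_
      have hj' : (2 : ℝ) ^ j ≤ C' * T ^ (1 + e / 2) / V ^ 4 := by
        rw [← hN0]
        have := one_le_two_pow' j
        linarith
      have hs := sqrt_bd hTpos hVpos hC' hj'
      gcongr
    refine h1.trans (le_of_eq ?_)
    have h2 : T ^ (1 + 9 / 4 * e) = T ^ e * T ^ (1 + e / 4) * T ^ e := by
      rw [← Real.rpow_add hTpos, ← Real.rpow_add hTpos]; congr 1; ring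
    rw [h2, hD1]; ring
  refine ⟨?_, ?_, ?_⟩
  · -- (1)
    refine R1.trans ?_
    have h1 : T ^ (1 + 9 / 4 * e) ≤ T ^ (1 + ε) := mono _ _ (by linarith)
    have h2 : D1 ≤ C := cD1
    have h3 : 0 ≤ C := hD1'.trans h2
    gcongr
  · -- (2)
    by_cases hcase : C' * T / G ^ 2 ≤ 2 * T ^ (1 / 2 - 10 * e)
    · have h1 : JV T V ≤ CJ * T ^ e * (Cc * T ^ (10 * e) * ((C' * T ^ (1 / 2 + e / 4) / V ^ 2) ^ 5 /
          Real.sqrt T)) := by
        apply FJ T V _ t5 hTeV hV4 (by positivity)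
        intro j a u ha hu hj
        have hj1 := one_le_two_pow' j
        have hb := FC T G (2 ^ j) u a t3 c3 hG2T hj1 hj (by linarith) ha hu
        refine hb.trans ?_
        have hj' : (2 : ℝ) ^ j ≤ C' * T ^ (1 + e / 2) / V ^ 4 := by
          rw [← hN0]
          linarith
        have hs := sqrt_bd' hTpos hVpos hC' hj'
        have hsq : Real.sqrt ((2 : ℝ) ^ j) ^ 2 = 2 ^ j := Real.sq_sqrt (by positivity)
        have h5 : ((2 : ℝ) ^ j) ^ 2 * Real.sqrt ((2 : ℝ) ^ j) = Real.sqrt ((2 : ℝ) ^ j) ^ 5 := by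
          calc ((2 : ℝ) ^ j) ^ 2 * Real.sqrt ((2 : ℝ) ^ j)
              = (Real.sqrt ((2 : ℝ) ^ j) ^ 2) ^ 2 * Real.sqrt ((2 : ℝ) ^ j) := by rw [hsq]
            _ = _ := by ring
        rw [h5]
        gcongr
      refine h1.trans ?_
      have hsT : Real.sqrt T = T ^ (1 / 2 : ℝ) := Real.sqrt_eq_rpow T
      have h2 : (C' * T ^ (1 / 2 + e / 4) / V ^ 2) ^ 5 / Real.sqrt T = C' ^ 5 * T ^ (2 + 5 / 4 * e) / V ^ 10 := by
        rw [hsT, div_pow, mul_pow, rp_pow hTpos, ← pow_mul]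
        have h3 : T ^ ((1 / 2 + e / 4) * ((5 : ℕ) : ℝ)) = T ^ (2 + 5 / 4 * e) * T ^ (1 / 2 : ℝ) := by
          rw [← Real.rpow_add hTpos]; congr 1; push_cast; ring
        rw [h3]
        have h4 : (0 : ℝ) < T ^ (1 / 2 : ℝ) := by positivity
        field_simp
      rw [h2]
      have h3 : CJ * T ^ e * (Cc * T ^ (10 * e) * (C' ^ 5 * T ^ (2 + 5 / 4 * e) / V ^ 10)) =
          D2 * T ^ (2 + 49 / 4 * e) / V ^ 10 := by
        have h4 : T ^ (2 + 49 / 4 * e) = T ^ e * T ^ (10 * e) * T ^ (2 + 5 / 4 * e) := by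
          rw [← Real.rpow_add hTpos, ← Real.rpow_add hTpos]; congr 1; ring
        rw [h4, hD2]; ring
      rw [h3]
      have h5 : T ^ (2 + 49 / 4 * e) ≤ T ^ (2 + ε) := mono _ _ (by linarith)
      have h6 : D2 ≤ C := cD2
      have h7 : 0 ≤ C := hD2'.trans h6
      gcongr
    · push Not at hcase
      rw [hN0] at hcase
      have hV4' : V ^ 4 ≤ C' * T ^ (1 / 2 + 21 / 2 * e) := by
        have h1 : 2 * T ^ (1 / 2 - 10 * e) * V ^ 4 < C' * T ^ (1 + e / 2) := by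
          rwa [lt_div_iff₀ (by positivity)] at hcase
        have h2 : T ^ (1 + e / 2) = T ^ (1 / 2 + 21 / 2 * e) * T ^ (1 / 2 - 10 * e) := by
          rw [← Real.rpow_add hTpos]; congr 1; ring
        rw [h2] at h1
        have h3 : (0 : ℝ) < T ^ (1 / 2 - 10 * e) := by positivity
        have h4 : (0 : ℝ) < V ^ 4 := by positivity
        by_contra hcon
        push Not at hcon
        nlinarith [mul_lt_mul_of_pos_right hcon h3]
      have hV8 : V ^ 8 ≤ C' ^ 2 * T ^ (1 + 21 * e) := by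
        calc V ^ 8 = (V ^ 4) ^ 2 := by ring
          _ ≤ (C' * T ^ (1 / 2 + 21 / 2 * e)) ^ 2 := by gcongr
          _ = C' ^ 2 * T ^ (1 + 21 * e) := by
              rw [mul_pow, rp_pow hTpos]; congr 2; push_cast; ring
      calc JV T V ≤ D1 * T ^ (1 + 9 / 4 * e) / V ^ 2 := R1
        _ = D1 * T ^ (1 + 9 / 4 * e) * V ^ 8 / V ^ 10 := by
            rw [div_eq_div_iff (by positivity) (by positivity)]; ring
        _ ≤ D1 * T ^ (1 + 9 / 4 * e) * (C' ^ 2 * T ^ (1 + 21 * e)) / V ^ 10 := by gcongr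
        _ = D1 * C' ^ 2 * T ^ (2 + 93 / 4 * e) / V ^ 10 := by
            have h4 : T ^ (2 + 93 / 4 * e) = T ^ (1 + 9 / 4 * e) * T ^ (1 + 21 * e) := by
              rw [← Real.rpow_add hTpos]; congr 1; ring
            rw [h4]; ring
        _ ≤ C * T ^ (2 + ε) / V ^ 10 := by
            have h5 : T ^ (2 + 93 / 4 * e) ≤ T ^ (2 + ε) := mono _ _ (by linarith)
            have h6 : D1 * C' ^ 2 ≤ C := cD12
            have h7 : 0 ≤ C := hD12.trans h6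
            gcongr
  · -- (3)
    intro hVl hVu
    have hNub : C' * T / G ^ 2 ≤ C' * T ^ (1 / 2 + 1 / 200 + e / 2 : ℝ) := by
      rw [hN0, div_le_iff₀ (by positivity)]
      have h1 : T ^ (1 / 2 - 1 / 200 : ℝ) ≤ V ^ 4 := by
        calc T ^ (1 / 2 - 1 / 200 : ℝ) = (T ^ (1 / 8 - 1 / 800 : ℝ)) ^ 4 := by
              rw [rp_pow hTpos]; congr 1; norm_num
          _ ≤ V ^ 4 := by gcongr
      calc C' * T ^ (1 + e / 2) = C' * T ^ (1 / 2 + 1 / 200 + e / 2 : ℝ) * T ^ (1 / 2 - 1 / 200 : ℝ) := by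
            rw [mul_assoc, ← Real.rpow_add hTpos]; congr 2; ring
        _ ≤ C' * T ^ (1 / 2 + 1 / 200 + e / 2 : ℝ) * V ^ 4 := by gcongr
    have hsT : Real.sqrt T = T ^ (1 / 2 : ℝ) := Real.sqrt_eq_rpow T
    obtain ⟨X, hX⟩ : ∃ X : ℝ, X = T ^ (11 / 8 - 1 / 160 + 2 * e : ℝ) / V ^ 5 := ⟨_, rfl⟩
    have hX0 : 0 ≤ X := by rw [hX]; positivity
    have hXl : T ^ (3 / 4 - 1 / 80 + 2 * e : ℝ) ≤ X := by
      rw [hX, le_div_iff₀ (by positivity)]
      have h1 : V ^ 5 ≤ T ^ (5 / 8 + 1 / 160 : ℝ) := by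
        calc V ^ 5 ≤ (T ^ (1 / 8 + 1 / 800 : ℝ)) ^ 5 := by gcongr
          _ = T ^ (5 / 8 + 1 / 160 : ℝ) := by rw [rp_pow hTpos]; congr 1; norm_num
      calc T ^ (3 / 4 - 1 / 80 + 2 * e : ℝ) * V ^ 5
          ≤ T ^ (3 / 4 - 1 / 80 + 2 * e : ℝ) * T ^ (5 / 8 + 1 / 160 : ℝ) := by gcongr
        _ = T ^ (11 / 8 - 1 / 160 + 2 * e : ℝ) := by
            rw [← Real.rpow_add hTpos]; congr 1; ring
    have h1 : JV T V ≤ CJ * T ^ e * ((CM / e + Cb * (1 + C') ^ 2) * X) := by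
      apply FJ T V _ t5 hTeV hV4 (by positivity)
      intro j a u ha hu hj
      have hj1 := one_le_two_pow' j
      have hjT : (2 : ℝ) ^ j ≤ C' / 2 * T ^ (1 / 2 + 1 / 200 + e / 2 : ℝ) := by linarith
      have hCb0 : 0 ≤ Cb * (1 + C') ^ 2 * X := by positivity
      have hCM0 : 0 ≤ CM / e * X := by positivity
      by_cases hsm : (2 : ℝ) ^ j ≤ T ^ (2 / 5 : ℝ)
      · have hb := block (2 ^ j) a u hj1 ha hu hj
        have hs : Real.sqrt ((2 : ℝ) ^ j * T) ≤ T ^ (7 / 10 : ℝ) := by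
          apply Real.sqrt_le_iff.2
          refine ⟨by positivity, ?_⟩
          rw [rp_pow hTpos]
          calc (2 : ℝ) ^ j * T ≤ T ^ (2 / 5 : ℝ) * T := by gcongr
            _ = T ^ ((7 / 10 : ℝ) * ((2 : ℕ) : ℝ)) := by
                rw [← Real.rpow_add_one hTpos.ne']; congr 1; norm_num
        calc u * Rr (BS Θ T G a (2 ^ j) u) ≤ CM * Real.sqrt (2 ^ j * T) * Real.log T := hb
          _ ≤ CM * T ^ (7 / 10 : ℝ) * (T ^ e / e) := by gcongr
          _ = CM / e * T ^ (7 / 10 + e : ℝ) := by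
              rw [Real.rpow_add hTpos (7 / 10 : ℝ) e]; ring
          _ ≤ CM / e * X := by
              have h3 : T ^ (7 / 10 + e : ℝ) ≤ X := (mono _ _ (by linarith)).trans hXl
              gcongr
          _ ≤ (CM / e + Cb * (1 + C') ^ 2) * X := by
              rw [add_mul]; linarith
      · push Not at hsm
        have hjup : (2 : ℝ) ^ j ≤ T ^ (1 / 2 + 1 / 150 : ℝ) := by
          calc (2 : ℝ) ^ j ≤ C' / 2 * T ^ (1 / 2 + 1 / 200 + e / 2 : ℝ) := hjT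
            _ ≤ T ^ δ * T ^ (1 / 2 + 1 / 200 + e / 2 : ℝ) := by
                have hCδ : C' / 2 ≤ T ^ δ := by linarith
                gcongr
            _ = T ^ (δ + (1 / 2 + 1 / 200 + e / 2) : ℝ) := by rw [← Real.rpow_add hTpos]
            _ ≤ T ^ (1 / 2 + 1 / 150 : ℝ) := mono _ _ (by rw [hδ]; linarith)
        have hb := FB T G (2 ^ j) u a t4 c4 hG2T hj1 hj hsm.le hjup ha hu
        have hq : (2 : ℝ) ^ j / Real.sqrt T ≤ C' * T ^ (1 / 2 + e / 2 : ℝ) / V ^ 4 := by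
          rw [hsT, div_le_iff₀ (by positivity)]
          have h2 : (2 : ℝ) ^ j ≤ C' * T ^ (1 + e / 2) / V ^ 4 := by rw [← hN0]; linarith
          have h3 : T ^ (1 + e / 2) = T ^ (1 / 2 + e / 2 : ℝ) * T ^ (1 / 2 : ℝ) := by
            rw [← Real.rpow_add hTpos]; congr 1; ring
          calc (2 : ℝ) ^ j ≤ C' * T ^ (1 + e / 2) / V ^ 4 := h2
            _ = C' * T ^ (1 / 2 + e / 2 : ℝ) / V ^ 4 * T ^ (1 / 2 : ℝ) := by rw [h3]; ring
        have hq2 : ((2 : ℝ) ^ j / Real.sqrt T) ^ (5 / 4 : ℝ) ≤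
            C' ^ 2 * T ^ (5 / 8 + 5 / 8 * e : ℝ) / V ^ 5 := by
          calc ((2 : ℝ) ^ j / Real.sqrt T) ^ (5 / 4 : ℝ)
              ≤ (C' * T ^ (1 / 2 + e / 2 : ℝ) / V ^ 4) ^ (5 / 4 : ℝ) :=
                Real.rpow_le_rpow (by positivity) hq (by norm_num)
            _ = C' ^ (5 / 4 : ℝ) * T ^ (5 / 8 + 5 / 8 * e : ℝ) / V ^ 5 := by
                rw [Real.div_rpow (by positivity) (by positivity),
                  Real.mul_rpow (by positivity) (by positivity), ← Real.rpow_mul hTpos.le,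
                  ← Real.rpow_natCast V 4, ← Real.rpow_mul hVpos.le, ← Real.rpow_natCast V 5]
                congr 2
                · congr 1; congr 1; ring
                · norm_num
            _ ≤ C' ^ 2 * T ^ (5 / 8 + 5 / 8 * e : ℝ) / V ^ 5 := by
                have h2 : C' ^ (5 / 4 : ℝ) ≤ C' ^ 2 := by
                  rw [← Real.rpow_natCast C' 2]
                  exact Real.rpow_le_rpow_of_exponent_le hC' (by norm_num)
                gcongr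
        have hq3 : T ^ (3 / 4 + e) * (T ^ (-(1 / 160) : ℝ) * ((2 : ℝ) ^ j / Real.sqrt T) ^ (5 / 4 : ℝ)) ≤
            C' ^ 2 * X := by
          calc T ^ (3 / 4 + e) * (T ^ (-(1 / 160) : ℝ) * ((2 : ℝ) ^ j / Real.sqrt T) ^ (5 / 4 : ℝ))
              ≤ T ^ (3 / 4 + e) * (T ^ (-(1 / 160) : ℝ) * (C' ^ 2 * T ^ (5 / 8 + 5 / 8 * e : ℝ) / V ^ 5)) := by
                gcongr
            _ = C' ^ 2 * (T ^ (11 / 8 - 1 / 160 + 13 / 8 * e : ℝ) / V ^ 5) := by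
                have h2 : T ^ (11 / 8 - 1 / 160 + 13 / 8 * e : ℝ) =
                    T ^ (3 / 4 + e) * T ^ (-(1 / 160) : ℝ) * T ^ (5 / 8 + 5 / 8 * e : ℝ) := by
                  rw [← Real.rpow_add hTpos, ← Real.rpow_add hTpos]; congr 1; ring
                rw [h2]; ring
            _ ≤ C' ^ 2 * (T ^ (11 / 8 - 1 / 160 + 2 * e : ℝ) / V ^ 5) := by
                have h2 : T ^ (11 / 8 - 1 / 160 + 13 / 8 * e : ℝ) ≤ T ^ (11 / 8 - 1 / 160 + 2 * e : ℝ) :=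
                  mono _ _ (by linarith)
                gcongr
            _ = C' ^ 2 * X := by rw [hX]
        have hq4 : T ^ (3 / 4 + e) * T ^ (-(1 / 60) : ℝ) ≤ X := by
          rw [← Real.rpow_add hTpos]
          exact (mono _ _ (by linarith)).trans hXl
        calc u * Rr (BS Θ T G a (2 ^ j) u)
            ≤ Cb * T ^ (3 / 4 + e) * (T ^ (-(1 / 160) : ℝ) * ((2 : ℝ) ^ j / Real.sqrt T) ^ (5 / 4 : ℝ) +
              T ^ (-(1 / 60) : ℝ)) := hb
          _ = Cb * (T ^ (3 / 4 + e) * (T ^ (-(1 / 160) : ℝ) * ((2 : ℝ) ^ j / Real.sqrt T) ^ (5 / 4 : ℝ)) +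
              T ^ (3 / 4 + e) * T ^ (-(1 / 60) : ℝ)) := by ring
          _ ≤ Cb * (C' ^ 2 * X + X) := by gcongr
          _ ≤ Cb * ((1 + C') ^ 2 * X) := by
              have h2 : C' ^ 2 * X + X ≤ (1 + C') ^ 2 * X := by nlinarith
              gcongr
          _ = Cb * (1 + C') ^ 2 * X := by ring
          _ ≤ (CM / e + Cb * (1 + C') ^ 2) * X := by
              rw [add_mul]; linarith
    refine h1.trans ?_
    have h2 : CJ * T ^ e * ((CM / e + Cb * (1 + C') ^ 2) * X) =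
        D3 * T ^ (11 / 8 - 1 / 160 + 3 * e : ℝ) / V ^ 5 := by
      have h4 : T ^ (11 / 8 - 1 / 160 + 3 * e : ℝ) = T ^ e * T ^ (11 / 8 - 1 / 160 + 2 * e : ℝ) := by
        rw [← Real.rpow_add hTpos]; congr 1; ring
      rw [h4, hD3, hX]; ring
    rw [h2]
    have h5 : T ^ (11 / 8 - 1 / 160 + 3 * e : ℝ) ≤ T ^ (11 / 8 - 1 / 160 + ε) := mono _ _ (by linarith)
    have h6 : D3 ≤ C := cD3
    have h7 : 0 ≤ C := hD3'.trans h6
    exact div_le_div_of_nonneg_right (mul_le_mul h6 h5 (Real.rpow_nonneg hTpos.le _) h7) (by positivity)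

end Pool.Agent.Work.MP_56b8f5_nt.UB
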