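import Pool.Agent.Work.MP_56b8f5_nt.UB.Stmts

/-! MP_56b8f5_nt, block UB: item K2 (kernel, no stationary point), helper33. -/

set_option autoImplicit false

open MeasureTheory Set Filter Topology

noncomputable section

namespace Pool.Agent.Work.MP_56b8f5_nt.UB

namespace K2_aux

theorem norm_ee (x : ℝ) : ‖ee x‖ = 1 := by
  unfold ee
  rw [Complex.norm_exp_ofReal_mul_I]

theorem ee_cont : Continuous ee := by
  unfold ee
  fun_prop

/-- bound for the integral of the remainder -/
theorem rem {α β B L l : ℝ} (hαβ : α ≤ β) (hlen : β - α ≤ 7 / 2) (hB : 1 ≤ B) (hl : 0 < l) (hL : 0 ≤ L)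
    {a a1 a2 f1 f2 f3 : ℝ → ℝ}
    (h : ∀ w ∈ Icc α β, |a w| ≤ B ∧ |a1 w| ≤ B ∧ |a2 w| ≤ B ∧ l ≤ |f1 w| ∧ |f2 w| ≤ L * B ∧
      |f3 w| ≤ L * B) :
    ∫ x in α..β, (|a2 x| / f1 x ^ 2 + |a1 x| * |f2 x| / |f1 x| ^ 3 + |a x| * f2 x ^ 2 / f1 x ^ 4 +
        |a x| * |f3 x| / |f1 x| ^ 3) ≤
      (B / l ^ 2 + B * (L * B) / l ^ 3 + B * (L * B) ^ 2 / l ^ 4 + B * (L * B) / l ^ 3) * (7 / 2) := by
  have hC0 : 0 ≤ B / l ^ 2 + B * (L * B) / l ^ 3 + B * (L * B) ^ 2 / l ^ 4 + B * (L * B) / l ^ 3 := by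
    positivity
  have h1 : ‖∫ x in α..β, (|a2 x| / f1 x ^ 2 + |a1 x| * |f2 x| / |f1 x| ^ 3 +
      |a x| * f2 x ^ 2 / f1 x ^ 4 + |a x| * |f3 x| / |f1 x| ^ 3)‖ ≤
      (B / l ^ 2 + B * (L * B) / l ^ 3 + B * (L * B) ^ 2 / l ^ 4 + B * (L * B) / l ^ 3) * |β - α| := by
    apply intervalIntegral.norm_integral_le_of_norm_le_const
    intro x hx
    rw [uIoc_of_le hαβ] at hx
    obtain ⟨b1, b2, b3, b4, b5, b6⟩ := h x ⟨hx.1.le, hx.2⟩
    have e2 : f1 x ^ 2 = |f1 x| ^ 2 := (sq_abs _).symm
    have e4 : f1 x ^ 4 = |f1 x| ^ 4 := by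
      rw [show (4 : ℕ) = 2 * 2 from rfl, pow_mul, pow_mul, sq_abs]
    have e5 : f2 x ^ 2 = |f2 x| ^ 2 := (sq_abs _).symm
    rw [e2, e4, e5]
    have p0 : 0 < |f1 x| := hl.trans_le b4
    have p2 : l ^ 2 ≤ |f1 x| ^ 2 := pow_le_pow_left₀ hl.le b4 2
    have p3 : l ^ 3 ≤ |f1 x| ^ 3 := pow_le_pow_left₀ hl.le b4 3
    have p4 : l ^ 4 ≤ |f1 x| ^ 4 := pow_le_pow_left₀ hl.le b4 4
    have hB0 : 0 ≤ B := by linarith
    rw [Real.norm_of_nonneg (by positivity)]
    have t1 : |a2 x| / |f1 x| ^ 2 ≤ B / l ^ 2 := div_le_div₀ hB0 b3 (by positivity) p2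
    have t2 : |a1 x| * |f2 x| / |f1 x| ^ 3 ≤ B * (L * B) / l ^ 3 :=
      div_le_div₀ (by positivity) (mul_le_mul b2 b5 (abs_nonneg _) hB0) (by positivity) p3
    have t3 : |a x| * |f2 x| ^ 2 / |f1 x| ^ 4 ≤ B * (L * B) ^ 2 / l ^ 4 :=
      div_le_div₀ (by positivity) (mul_le_mul b1 (pow_le_pow_left₀ (abs_nonneg _) b5 2)
        (by positivity) hB0) (by positivity) p4
    have t4 : |a x| * |f3 x| / |f1 x| ^ 3 ≤ B * (L * B) / l ^ 3 :=
      div_le_div₀ (by positivity) (mul_le_mul b1 b6 (abs_nonneg _) hB0) (by positivity) p3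
    linarith
  refine (le_abs_self _).trans (h1.trans ?_)
  apply mul_le_mul_of_nonneg_left _ hC0
  rw [abs_of_nonneg (by linarith)]
  exact hlen

end K2_aux

open K2_aux in
/-- ITEM K2. -/
theorem iK2 (hKn : StKn) (hIP : StIP) : StK2 := by
  obtain ⟨C0, B, hC0, hB, hK⟩ := hKn
  have hB3 : B ≤ B ^ 3 := by
    calc B = B ^ 1 := (pow_one B).symm
      _ ≤ B ^ 3 := pow_le_pow_right₀ hB (by norm_num)
  have hB2 : B ^ 2 ≤ B ^ 3 := pow_le_pow_right₀ hB (by norm_num)
  have hB13 : 1 ≤ B ^ 3 := one_le_pow₀ hB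
  refine ⟨C0 + 9450 * B ^ 3, by linarith, ?_⟩
  intro X N hN hX hCN
  have hN0 : 0 < N := by linarith
  have hCN0 : C0 * N ≤ X ^ 2 := by
    refine le_trans ?_ hCN
    apply mul_le_mul_of_nonneg_right _ hN0.le
    linarith
  obtain ⟨κ, κ1, κ2, g, g1, g2, g3, g4, wa, wb, hder, hcκ2, hcg4, hwa, hwab, hwb, hoff, hbd, hg1, hform⟩ :=
    hK X N hN hX hCN0
  have hs0 : 0 < Real.sqrt N := Real.sqrt_pos.2 hN0
  have hss : Real.sqrt N * Real.sqrt N = N := Real.mul_self_sqrt hN0.le
  have c1 : ContinuousOn κ1 (Icc (1 / 2 : ℝ) 4) := fun w hw =>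
    (hder w hw).2.1.continuousAt.continuousWithinAt
  have c0 : ContinuousOn κ (Icc (1 / 2 : ℝ) 4) := fun w hw =>
    (hder w hw).1.continuousAt.continuousWithinAt
  have cg : ContinuousOn g (Icc (1 / 2 : ℝ) 4) := fun w hw =>
    (hder w hw).2.2.1.continuousAt.continuousWithinAt
  have cg2 : ContinuousOn g2 (Icc (1 / 2 : ℝ) 4) := fun w hw =>
    (hder w hw).2.2.2.2.1.continuousAt.continuousWithinAt
  have cg3 : ContinuousOn g3 (Icc (1 / 2 : ℝ) 4) := fun w hw =>
    (hder w hw).2.2.2.2.2.continuousAt.continuousWithinAt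
  constructor
  · -- m = 0
    intro x
    rw [hform 0 x, norm_mul, Complex.norm_real, Real.norm_of_nonneg hN0.le]
    set y : ℝ := x * Real.sqrt N with hy
    have hyabs : |x| * Real.sqrt N = |y| := by
      rw [hy, abs_mul, abs_of_pos hs0]
    rw [hyabs]
    have hfun : (fun w : ℝ => (κ w : ℂ) * ee (y * w - ((0 : ℤ) : ℝ) * N * g w)) =
        fun w : ℝ => (κ w : ℂ) * ee (y * w) := by
      funext w
      rw [Int.cast_zero, zero_mul, zero_mul, sub_zero]
    rw [hfun]
    have b1 : ‖∫ w in (1 / 2 : ℝ)..4, (κ w : ℂ) * ee (y * w)‖ ≤ 7 / 2 * B := by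
      have h1 : ‖∫ w in (1 / 2 : ℝ)..4, (κ w : ℂ) * ee (y * w)‖ ≤ B * |4 - (1 / 2 : ℝ)| := by
        apply intervalIntegral.norm_integral_le_of_norm_le_const
        intro w hw
        rw [uIoc_of_le (by norm_num)] at hw
        rw [norm_mul, norm_ee, mul_one, Complex.norm_real, Real.norm_eq_abs]
        exact (hbd w ⟨hw.1.le, hw.2⟩).1
      refine h1.trans (le_of_eq ?_)
      rw [abs_of_pos (by norm_num)]
      ring
    have key : ‖∫ w in (1 / 2 : ℝ)..4, (κ w : ℂ) * ee (y * w)‖ ≤ 42 * B / (1 + |y|) ^ 2 := by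
      have hy0 := abs_nonneg y
      rcases le_total |y| 1 with h1 | h1
      · refine b1.trans ?_
        rw [le_div_iff₀ (by positivity)]
        have h2 : (1 + |y|) ^ 2 ≤ 4 := by nlinarith
        nlinarith
      · have hyne : y ≠ 0 := by
          intro h0
          rw [h0, abs_zero] at h1
          linarith
        have hip := (hIP (1 / 2) 4 κ κ1 κ2 (fun w => y * w) (fun _ => y) (fun _ => 0) (fun _ => 0)
          (by norm_num) (fun w hw => ⟨(hder w hw).1, by simpa using (hasDerivAt_id w).const_mul y,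
            hasDerivAt_const w y, hyne⟩) c1 continuousOn_const).2
          (fun w hw => ⟨(hder w hw).2.1, hasDerivAt_const w 0⟩) hcκ2 continuousOn_const
        have ha : κ (1 / 2) = 0 ∧ κ1 (1 / 2) = 0 := hoff _ (fun h => by linarith [h.1])
        have hb : κ 4 = 0 ∧ κ1 4 = 0 := hoff _ (fun h => by linarith [h.2])
        rw [ha.1, ha.2, hb.1, hb.2] at hip
        have hr := rem (α := 1 / 2) (β := 4) (B := B) (L := 0) (l := |y|) (by norm_num) (by norm_num) hB
          (by linarith) le_rfl (a := κ) (a1 := κ1) (a2 := κ2) (f1 := fun _ => y) (f2 := fun _ => 0)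
          (f3 := fun _ => 0) (by
            intro w hw
            obtain ⟨q1, q2, q3, -⟩ := hbd w hw
            refine ⟨q1, q2, q3, le_rfl, by simp, by simp⟩)
        have hr2 : (B / |y| ^ 2 + B * (0 * B) / |y| ^ 3 + B * (0 * B) ^ 2 / |y| ^ 4 +
            B * (0 * B) / |y| ^ 3) * (7 / 2) = 7 / 2 * B / |y| ^ 2 := by
          simp
          ring
        rw [hr2] at hr
        have hip2 : ‖∫ w in (1 / 2 : ℝ)..4, (κ w : ℂ) * ee (y * w)‖ ≤ 3 * (7 / 2 * B / |y| ^ 2) := by
          refine hip.trans ?_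
          simp only [abs_zero, zero_div, zero_mul, add_zero, zero_add]
          have := mul_le_mul_of_nonneg_left hr (by norm_num : (0 : ℝ) ≤ 3)
          simpa using this
        refine hip2.trans ?_
        rw [← mul_div_assoc, div_le_div_iff₀ (by positivity) (by positivity)]
        have h2 : (1 + |y|) ^ 2 ≤ 4 * |y| ^ 2 := by nlinarith
        have hB0 : 0 ≤ B := by linarith
        nlinarith [mul_le_mul_of_nonneg_left h2 hB0]
    have hfin : 42 * B ≤ C0 + 9450 * B ^ 3 := by nlinarith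
    calc N * ‖∫ w in (1 / 2 : ℝ)..4, (κ w : ℂ) * ee (y * w)‖ ≤ N * (42 * B / (1 + |y|) ^ 2) :=
          mul_le_mul_of_nonneg_left key hN0.le
      _ = 42 * B * N / (1 + |y|) ^ 2 := by ring
      _ ≤ (C0 + 9450 * B ^ 3) * N / (1 + |y|) ^ 2 := by
          apply div_le_div_of_nonneg_right _ (by positivity)
          exact mul_le_mul_of_nonneg_right hfin hN0.le
  · -- m ≠ 0
    intro m hm x hx
    have hmR : (m : ℝ) ≠ 0 := by exact_mod_cast hm
    have hm0 : 0 < |(m : ℝ)| := abs_pos.2 hmR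
    rw [hform m x, norm_mul, Complex.norm_real, Real.norm_of_nonneg hN0.le]
    set y : ℝ := x * Real.sqrt N with hy
    set M : ℝ := (m : ℝ) * N with hM
    have hMabs : |M| = |(m : ℝ)| * N := by
      rw [hM, abs_mul, abs_of_pos hN0]
    have hM0 : 0 < |M| := by
      rw [hMabs]
      positivity
    have hsub : Icc wa wb ⊆ Icc (1 / 2 : ℝ) 4 := Icc_subset_Icc hwa.le hwb.le
    -- the lower bound for the derivative of the phase
    have hlow : ∀ w ∈ Icc wa wb, |M| / 5 ≤ |y - M * g1 w| := by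
      intro w hw
      obtain ⟨q1, q2⟩ := hg1 w hw
      have e1 : y - M * g1 w = (m : ℝ) * (x / m * Real.sqrt N - N * g1 w) := by
        rw [hy, hM]
        field_simp
      rw [hMabs, e1, abs_mul]
      have e2 : |(m : ℝ)| * N / 5 = |(m : ℝ)| * (N / 5) := by ring
      rw [e2]
      apply mul_le_mul_of_nonneg_left _ hm0.le
      by_cases h1 : Real.sqrt N / 2 ≤ x / m
      · have h2 : 2 * Real.sqrt N < x / m := by
          by_contra h3
          exact hx ⟨h1, not_lt.1 h3⟩
        have h3 : 2 * N ≤ x / m * Real.sqrt N := by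
          have := mul_le_mul_of_nonneg_right h2.le hs0.le
          nlinarith
        have h4 : N * g1 w ≤ N * (17 / 10) := mul_le_mul_of_nonneg_left q2 hN0.le
        refine le_trans ?_ (le_abs_self _)
        linarith
      · have h2 : x / m < Real.sqrt N / 2 := not_le.1 h1
        have h3 : x / m * Real.sqrt N ≤ N / 2 := by
          have := mul_le_mul_of_nonneg_right h2.le hs0.le
          nlinarith
        have h4 : N * (7 / 10) ≤ N * g1 w := mul_le_mul_of_nonneg_left q1 hN0.le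
        refine le_trans ?_ (neg_le_abs _)
        linarith
    -- restriction of the integral
    have hcF : ContinuousOn (fun w : ℝ => (κ w : ℂ) * ee (y * w - M * g w)) (Icc (1 / 2 : ℝ) 4) := by
      apply ContinuousOn.mul
      · exact Complex.continuous_ofReal.comp_continuousOn c0
      · apply ee_cont.comp_continuousOn
        exact (continuousOn_const.mul continuousOn_id).sub (continuousOn_const.mul cg)
    have i1 : IntervalIntegrable (fun w : ℝ => (κ w : ℂ) * ee (y * w - M * g w)) volume (1 / 2) wa := by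
      apply ContinuousOn.intervalIntegrable
      rw [uIcc_of_le hwa.le]
      exact hcF.mono (Icc_subset_Icc le_rfl (hwab.le.trans hwb.le))
    have i2 : IntervalIntegrable (fun w : ℝ => (κ w : ℂ) * ee (y * w - M * g w)) volume wa wb := by
      apply ContinuousOn.intervalIntegrable
      rw [uIcc_of_le hwab.le]
      exact hcF.mono hsub
    have i3 : IntervalIntegrable (fun w : ℝ => (κ w : ℂ) * ee (y * w - M * g w)) volume wb 4 := by
      apply ContinuousOn.intervalIntegrable
      rw [uIcc_of_le hwb.le]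
      exact hcF.mono (Icc_subset_Icc (hwa.le.trans hwab.le) le_rfl)
    have z1 : ∫ w in (1 / 2 : ℝ)..wa, (κ w : ℂ) * ee (y * w - M * g w) = 0 := by
      rw [intervalIntegral.integral_congr (g := fun _ => (0 : ℂ))]
      · simp
      · intro w hw
        rw [uIcc_of_le hwa.le] at hw
        have := (hoff w (fun h => by linarith [h.1, hw.2])).1
        simp [this]
    have z3 : ∫ w in wb..4, (κ w : ℂ) * ee (y * w - M * g w) = 0 := by
      rw [intervalIntegral.integral_congr (g := fun _ => (0 : ℂ))]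
      · simp
      · intro w hw
        rw [uIcc_of_le hwb.le] at hw
        have := (hoff w (fun h => by linarith [h.2, hw.1])).1
        simp [this]
    have hres : ∫ w in (1 / 2 : ℝ)..4, (κ w : ℂ) * ee (y * w - M * g w) =
        ∫ w in wa..wb, (κ w : ℂ) * ee (y * w - M * g w) := by
      rw [← intervalIntegral.integral_add_adjacent_intervals (i1.trans i2) i3,
        ← intervalIntegral.integral_add_adjacent_intervals i1 i2, z1, z3, zero_add, add_zero]
    rw [hres]
    -- two integrations by parts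
    have hip := (hIP wa wb κ κ1 κ2 (fun w => y * w - M * g w) (fun w => y - M * g1 w)
      (fun w => -(M * g2 w)) (fun w => -(M * g3 w)) hwab.le (by
        intro w hw
        obtain ⟨d1, d2, d3, d4, d5, d6⟩ := hder w (hsub hw)
        refine ⟨d1, ?_, ?_, ?_⟩
        · have e1 : HasDerivAt (fun w => y * w) (y * 1) w := (hasDerivAt_id' w).const_mul y
          rw [mul_one] at e1
          exact e1.sub (d3.const_mul M)
        · have e1 := (hasDerivAt_const w y).sub (d4.const_mul M)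
          rw [zero_sub] at e1
          exact e1
        · intro h0
          have := hlow w hw
          rw [h0, abs_zero] at this
          linarith)
      (c1.mono hsub) ((continuousOn_const.mul (cg2.mono hsub)).neg)).2
      (by
        intro w hw
        obtain ⟨d1, d2, d3, d4, d5, d6⟩ := hder w (hsub hw)
        exact ⟨d2, (d5.const_mul M).neg⟩)
      (hcκ2.mono hsub) ((continuousOn_const.mul (cg3.mono hsub)).neg)
    have ha : κ wa = 0 ∧ κ1 wa = 0 := hoff _ (fun h => by linarith [h.1])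
    have hb : κ wb = 0 ∧ κ1 wb = 0 := hoff _ (fun h => by linarith [h.2])
    rw [ha.1, ha.2, hb.1, hb.2] at hip
    have hr := rem (α := wa) (β := wb) (B := B) (L := |M|) (l := |M| / 5) hwab.le (by linarith) hB
      (by linarith) hM0.le (a := κ) (a1 := κ1) (a2 := κ2) (f1 := fun w => y - M * g1 w)
      (f2 := fun w => -(M * g2 w)) (f3 := fun w => -(M * g3 w)) (by
        intro w hw
        obtain ⟨q1, q2, q3, q4, q5, q6, q7, q8⟩ := hbd w (hsub hw)
        refine ⟨q1, q2, q3, hlow w hw, ?_, ?_⟩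
        · simp only [abs_neg, abs_mul]
          apply mul_le_mul_of_nonneg_left _ hM0.le
          have : 0 ≤ g2 w := le_trans (by positivity) q4
          rw [abs_of_nonneg this]
          exact q5
        · simp only [abs_neg, abs_mul]
          exact mul_le_mul_of_nonneg_left q6 hM0.le)
    have hr2 : (B / (|M| / 5) ^ 2 + B * (|M| * B) / (|M| / 5) ^ 3 + B * (|M| * B) ^ 2 / (|M| / 5) ^ 4 +
        B * (|M| * B) / (|M| / 5) ^ 3) * (7 / 2) = (25 * B + 250 * B ^ 2 + 625 * B ^ 3) * (7 / 2) / |M| ^ 2 := by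
      field_simp
      ring
    rw [hr2] at hr
    have hr3 : (25 * B + 250 * B ^ 2 + 625 * B ^ 3) * (7 / 2) / |M| ^ 2 ≤ 3150 * B ^ 3 / |M| ^ 2 := by
      apply div_le_div_of_nonneg_right _ (by positivity)
      linarith
    have hip2 : ‖∫ w in wa..wb, (κ w : ℂ) * ee (y * w - M * g w)‖ ≤ 9450 * B ^ 3 / |M| ^ 2 := by
      refine hip.trans ?_
      simp only [abs_zero, zero_div, zero_mul, add_zero, zero_add]
      have h5 : (9450 * B ^ 3 / |M| ^ 2 : ℝ) = 3 * (3150 * B ^ 3 / |M| ^ 2) := by ring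
      rw [h5]
      apply mul_le_mul_of_nonneg_left _ (by norm_num)
      exact hr.trans hr3
    calc N * ‖∫ w in wa..wb, (κ w : ℂ) * ee (y * w - M * g w)‖ ≤ N * (9450 * B ^ 3 / |M| ^ 2) :=
          mul_le_mul_of_nonneg_left hip2 hN0.le
      _ = 9450 * B ^ 3 / ((m : ℝ) ^ 2 * N) := by
          rw [hMabs, mul_pow, sq_abs]
          field_simp
      _ ≤ (C0 + 9450 * B ^ 3) / ((m : ℝ) ^ 2 * N) := by
          apply div_le_div_of_nonneg_right _ (by positivity)
          linarith

end Pool.Agent.Work.MP_56b8f5_nt.UB
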