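import Pool.Agent.Work.MP_56b8f5_nt.UB.Stmts

/-!
Block UB, item K3: the stationary part of the kernel.
-/

open MeasureTheory Set Filter Topology

noncomputable section

namespace Pool.Agent.Work.MP_56b8f5_nt.UB

namespace K3_aux

theorem norm_ee (x : ℝ) : ‖ee x‖ = 1 := by
  unfold ee
  exact Complex.norm_exp_ofReal_mul_I _

theorem conj_ee (x : ℝ) : (starRingEnd ℂ) (ee x) = ee (-x) := by
  unfold ee
  rw [← Complex.exp_conj, map_mul, Complex.conj_I, Complex.conj_ofReal]
  congr 1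
  push_cast
  ring

theorem continuous_ee : Continuous ee := by
  unfold ee
  fun_prop

theorem arsinh_le {z : ℝ} (hz : 0 ≤ z) : Real.arsinh z ≤ z := by
  have h : z ≤ Real.sinh z := Real.self_le_sinh_iff.mpr hz
  calc Real.arsinh z ≤ Real.arsinh (Real.sinh z) := Real.arsinh_le_arsinh.mpr h
    _ = z := Real.arsinh_sinh z

theorem half_le_arsinh {z : ℝ} (hz : 0 ≤ z) (hz1 : z ≤ 1) : z / 2 ≤ Real.arsinh z := by
  have hy0 : 0 ≤ z / 2 := by linarith
  have h1 : |Real.exp (z / 2) - 1 - z / 2| ≤ (z / 2) ^ 2 :=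
    Real.abs_exp_sub_one_sub_id_le (by rw [abs_of_nonneg hy0]; linarith)
  have h2 : 1 - z / 2 ≤ Real.exp (-(z / 2)) := Real.one_sub_le_exp_neg _
  have h3 : Real.exp (z / 2) ≤ 1 + z / 2 + (z / 2) ^ 2 := by
    have := (abs_le.mp h1).2
    linarith
  have h : Real.sinh (z / 2) ≤ z := by
    rw [Real.sinh_eq]
    nlinarith
  calc z / 2 = Real.arsinh (Real.sinh (z / 2)) := (Real.arsinh_sinh _).symm
    _ ≤ Real.arsinh z := Real.arsinh_le_arsinh.mpr h

/-- The stationary point lies in `[1/2, 4]`. -/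
theorem ws_mem {X N m x : ℝ} (hN : 1 ≤ N) (hX : 0 < X) (hXN : 4 * N ≤ X ^ 2) (hm : 0 < m)
    (h1 : m * Real.sqrt N / 2 ≤ x) (h2 : x ≤ 2 * m * Real.sqrt N) :
    ws X m x / Real.sqrt N ∈ Icc (1 / 2 : ℝ) 4 := by
  have hs : 0 < Real.sqrt N := Real.sqrt_pos.mpr (by linarith)
  have hss : Real.sqrt N ^ 2 = N := Real.sq_sqrt (by linarith)
  have hsX : 2 * Real.sqrt N ≤ X := by
    nlinarith
  have hmX : 0 < m * X := mul_pos hm hX
  have hz0 : 0 ≤ x / (m * X) := div_nonneg (le_trans (by positivity) h1) hmX.le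
  have hz1 : x / (m * X) ≤ 1 := by
    rw [div_le_one hmX]
    calc x ≤ 2 * m * Real.sqrt N := h2
      _ = m * (2 * Real.sqrt N) := by ring
      _ ≤ m * X := mul_le_mul_of_nonneg_left hsX hm.le
  unfold ws
  constructor
  · rw [le_div_iff₀ hs]
    have := half_le_arsinh hz0 hz1
    calc 1 / 2 * Real.sqrt N = (m * Real.sqrt N / 2) / m := by field_simp
      _ ≤ x / m := by gcongr
      _ = 2 * X * (x / (m * X) / 2) := by field_simp
      _ ≤ 2 * X * Real.arsinh (x / (m * X)) := by gcongr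
  · rw [div_le_iff₀ hs]
    have := arsinh_le hz0
    calc 2 * X * Real.arsinh (x / (m * X)) ≤ 2 * X * (x / (m * X)) := by gcongr
      _ = 2 * (x / m) := by field_simp
      _ ≤ 2 * (2 * m * Real.sqrt N / m) := by gcongr
      _ = 4 * Real.sqrt N := by field_simp; ring

theorem scale1 {N m C1 : ℝ} (hN : 0 < N) (hm : 0 < m) :
    N * (C1 / Real.sqrt (m * N)) = C1 * Real.sqrt (N / m) := by
  rw [Real.sqrt_mul hm.le, Real.sqrt_div hN.le]
  have h1 : 0 < Real.sqrt N := Real.sqrt_pos.mpr hN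
  have h2 : 0 < Real.sqrt m := Real.sqrt_pos.mpr hm
  have h3 : Real.sqrt N ^ 2 = N := Real.sq_sqrt hN.le
  field_simp
  rw [h3]
  ring

theorem scale2 {N m C1 : ℝ} (hN : 0 < N) (hm : 0 < m) :
    N * (Real.sqrt N * (C1 / (m * N * Real.sqrt (m * N)))) = C1 / (m * Real.sqrt m) := by
  rw [Real.sqrt_mul hm.le]
  have h1 : 0 < Real.sqrt N := Real.sqrt_pos.mpr hN
  have h2 : 0 < Real.sqrt m := Real.sqrt_pos.mpr hm
  field_simp

end K3_aux

open K3_aux in
theorem iK3 (hAL : StAL) (hKn : StKn) (hKa : StKa) : StK3 := by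
  obtain ⟨C0, B, hC0, hB, hKn⟩ := hKn
  obtain ⟨C1, hC1, hAL⟩ := hAL (1 / 2) 4 B (by norm_num) (by norm_num) hB
  refine ⟨max 4 (max C0 C1), le_trans (by norm_num) (le_max_left _ _), ?_⟩
  intro X N hN hX hXN
  have hN0 : 0 < N := by linarith
  have hs : 0 < Real.sqrt N := Real.sqrt_pos.mpr hN0
  have hss : Real.sqrt N * Real.sqrt N = N := Real.mul_self_sqrt hN0.le
  have h4 : 4 * N ≤ X ^ 2 := le_trans (mul_le_mul_of_nonneg_right (le_max_left _ _) hN0.le) hXN
  have hc0 : C0 * N ≤ X ^ 2 :=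
    le_trans (mul_le_mul_of_nonneg_right (le_trans (le_max_left _ _) (le_max_right _ _)) hN0.le) hXN
  have hC1le : C1 ≤ max 4 (max C0 C1) := le_trans (le_max_right _ _) (le_max_right _ _)
  obtain ⟨κ, κ1, κ2, g, g1, g2, g3, g4, wa, wb, hd, hκ2, hg4, hwa, hwab, hwb, hoff, hbd, -, hKK⟩ :=
    hKn X N hN hX hc0
  have hoff1 : κ (1 / 2) = 0 ∧ κ1 (1 / 2) = 0 := hoff _ (fun h => by linarith [h.1])
  have hoff2 : κ 4 = 0 ∧ κ1 4 = 0 := hoff _ (fun h => by linarith [h.2])
  have hal : ∀ Z : ℝ, 0 < Z → _ := fun Z hZ =>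
    hAL κ κ1 κ2 g g1 g2 g3 g4 Z hZ hd hκ2 hg4 hoff1.1 hoff2.1 hoff1.2 hoff2.2
      (fun w hw => ⟨(hbd w hw).1, (hbd w hw).2.1, (hbd w hw).2.2.1, (hbd w hw).2.2.2.1,
        (hbd w hw).2.2.2.2.2.1, (hbd w hw).2.2.2.2.2.2.1⟩)
  have hκc : ContinuousOn κ (Icc (1 / 2 : ℝ) 4) := fun w hw =>
    (hd w hw).1.continuousAt.continuousWithinAt
  have hgc : ContinuousOn g (Icc (1 / 2 : ℝ) 4) := fun w hw =>
    (hd w hw).2.2.1.continuousAt.continuousWithinAt
  refine ⟨?_, ?_, ?_⟩
  · intro m hm x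
    have hm0 : 0 < |(m : ℝ)| := abs_pos.mpr (by exact_mod_cast hm)
    have hZ : 0 < |(m : ℝ)| * N := mul_pos hm0 hN0
    have key : ‖KK X N m x‖ ≤ N * (C1 / Real.sqrt (|(m : ℝ)| * N)) := by
      rw [hKK m x, norm_mul, Complex.norm_real, Real.norm_of_nonneg hN0.le]
      refine mul_le_mul_of_nonneg_left ?_ hN0.le
      rcases lt_or_gt_of_ne (show (m : ℝ) ≠ 0 by exact_mod_cast hm) with hneg | hpos
      · have h := (hal _ hZ).1 (-(x * Real.sqrt N))
        rw [← Complex.norm_conj]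
        have e1 : (starRingEnd ℂ) (∫ w in (1 / 2 : ℝ)..4, (κ w : ℂ) * ee (x * Real.sqrt N * w - m * N * g w)) =
            ∫ w in (1 / 2 : ℝ)..4, (κ w : ℂ) * ee (-(x * Real.sqrt N) * w - |(m : ℝ)| * N * g w) := by
          rw [intervalIntegral.integral_of_le (by norm_num), intervalIntegral.integral_of_le (by norm_num),
            ← integral_conj]
          refine integral_congr_ae (Eventually.of_forall fun w => ?_)
          simp only []
          rw [map_mul, Complex.conj_ofReal, conj_ee, abs_of_neg hneg]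
          congr 2
          ring
        rw [e1]
        exact h
      · have h := (hal _ hZ).1 (x * Real.sqrt N)
        rw [abs_of_pos hpos] at h ⊢
        exact h
    calc ‖KK X N m x‖ ≤ N * (C1 / Real.sqrt (|(m : ℝ)| * N)) := key
      _ = C1 * Real.sqrt (N / |(m : ℝ)|) := scale1 hN0 hm0
      _ ≤ max 4 (max C0 C1) * Real.sqrt (N / |(m : ℝ)|) := by gcongr
  · intro m hm x hx1 hx2
    have hm0 : (0 : ℝ) < m := by exact_mod_cast hm
    have hZ : 0 < (m : ℝ) * N := mul_pos hm0 hN0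
    obtain ⟨-, -, -, -, -, -, hka⟩ := hKa X hX
    obtain ⟨hk1, hk2, -⟩ := hka m x hm0
    have hw0 := ws_mem hN hX h4 hm0 hx1 hx2
    have hg1 : (m : ℝ) * N * g1 (ws X m x / Real.sqrt N) = x * Real.sqrt N := by
      rw [(hbd _ hw0).2.2.2.2.2.2.2]
      rw [mul_div_cancel₀ _ hs.ne', hk1]
      have : N = Real.sqrt N * Real.sqrt N := hss.symm
      rw [show (m : ℝ) * N * (x / m / Real.sqrt N) = N * x / Real.sqrt N by field_simp]
      rw [div_eq_iff hs.ne']
      nlinarith [hss]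
    have hxs : x * Real.sqrt N / Real.sqrt N = x := mul_div_cancel_right₀ _ hs.ne'
    have hΦ : HasDerivAt (fun y => Ph X m (y / Real.sqrt N)) (ws X m x / Real.sqrt N) (x * Real.sqrt N) := by
      have h1 : HasDerivAt (fun y : ℝ => y / Real.sqrt N) (1 / Real.sqrt N) (x * Real.sqrt N) :=
        (hasDerivAt_id _).div_const _
      have h2 : HasDerivAt (Ph X m) (ws X m x) (x * Real.sqrt N / Real.sqrt N) := by
        rw [hxs]; exact hk2
      have h3 := h2.comp (x * Real.sqrt N) h1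
      rw [show ws X m x / Real.sqrt N = ws X m x * (1 / Real.sqrt N) by ring]
      exact h3
    obtain ⟨A', hA', hA'n⟩ := (hal _ hZ).2 (x * Real.sqrt N) (fun y => Ph X m (y / Real.sqrt N))
      (ws X m x / Real.sqrt N) hw0 hg1 hΦ
    refine ⟨(N : ℂ) * ((Real.sqrt N : ℂ) * A'), ?_, ?_⟩
    · have h1 : HasDerivAt (fun t : ℝ => t * Real.sqrt N) (Real.sqrt N) x := by
        simpa using (hasDerivAt_id x).mul_const (Real.sqrt N)
      have h2 := HasDerivAt.scomp x hA' h1
      have h3 := h2.const_mul (N : ℂ)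
      rw [show (N : ℂ) * ((Real.sqrt N : ℂ) * A') = (N : ℂ) * (Real.sqrt N • A') by
        rw [Complex.real_smul]]
      refine h3.congr_of_eventuallyEq (Eventually.of_forall fun t => ?_)
      simp only [Function.comp]
      rw [mul_div_cancel_right₀ _ hs.ne']
      rw [show ((m : ℕ) : ℤ) = (m : ℤ) from rfl, hKK (m : ℤ) t]
      push_cast
      ring
    · rw [norm_mul, norm_mul, Complex.norm_real, Complex.norm_real, Real.norm_of_nonneg hN0.le,
        Real.norm_of_nonneg hs.le]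
      calc N * (Real.sqrt N * ‖A'‖) ≤ N * (Real.sqrt N * (C1 / (m * N * Real.sqrt (m * N)))) := by
            gcongr
        _ = C1 / (m * Real.sqrt m) := scale2 hN0 hm0
        _ ≤ max 4 (max C0 C1) / (m * Real.sqrt m) := by gcongr
  · intro m
    have e : (fun x => KK X N m x) = fun x => (N : ℂ) * ∫ w in (1 / 2 : ℝ)..4,
        (κ w : ℂ) * ee (x * Real.sqrt N * w - m * N * g w) := by
      funext x
      exact hKK m x
    rw [e]
    refine continuous_const.mul ?_
    refine intervalIntegral.continuous_of_dominated_interval (bound := fun _ => B) ?_ ?_ ?_ ?_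
    · intro x
      rw [uIoc_of_le (by norm_num)]
      have hc : ContinuousOn (fun w => (κ w : ℂ) * ee (x * Real.sqrt N * w - m * N * g w)) (Icc (1 / 2 : ℝ) 4) := by
        refine (Complex.continuous_ofReal.comp_continuousOn hκc).mul ?_
        refine continuous_ee.comp_continuousOn ?_
        exact (continuousOn_const.mul continuousOn_id).sub (continuousOn_const.mul hgc)
      exact (hc.mono Ioc_subset_Icc_self).aestronglyMeasurable measurableSet_Ioc
    · intro x
      refine Eventually.of_forall fun w hw => ?_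
      rw [uIoc_of_le (by norm_num)] at hw
      rw [norm_mul, norm_ee, mul_one, Complex.norm_real, Real.norm_eq_abs]
      exact (hbd w ⟨hw.1.le, hw.2⟩).1
    · exact intervalIntegrable_const
    · refine Eventually.of_forall fun w _ => ?_
      refine continuous_const.mul (continuous_ee.comp ?_)
      fun_prop

end Pool.Agent.Work.MP_56b8f5_nt.UB
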