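import Pool.Agent.Work.MP_56b8f5_nt.UB.Stmts

/-!
MP_56b8f5_nt, block UB, item KB: bound for the kernel.
-/

open MeasureTheory Set Filter Topology

noncomputable section

namespace Pool.Agent.Work.MP_56b8f5_nt.UB

namespace KB_aux

theorem sum_inv_sq (K : ℕ) : ∑ n ∈ Finset.range K, 1 / ((n : ℝ) + 1) ^ 2 ≤
    2 * (K : ℝ) / ((K : ℝ) + 1) := by
  induction K with
  | zero => simp
  | succ K ih =>
    rw [Finset.sum_range_succ]
    have h0 : (0 : ℝ) ≤ K := Nat.cast_nonneg K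
    have h1 : 1 / ((K : ℝ) + 1) ^ 2 ≤ 2 * (K + 1) / (K + 1 + 1) - 2 * K / (K + 1) := by
      rw [div_sub_div _ _ (by positivity) (by positivity), div_le_div_iff₀ (by positivity)
        (by positivity)]
      nlinarith [mul_nonneg h0 h0, mul_nonneg h0 (mul_nonneg h0 h0)]
    push_cast
    linarith

theorem sum_inv_sqrt (Y : ℝ) (K : ℕ) :
    ∑ n ∈ Finset.range K, (if (n : ℝ) + 1 ≤ Y then 1 / Real.sqrt ((n : ℝ) + 1) else 0) ≤
      2 * Real.sqrt (min K Y) := by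
  induction K with
  | zero => simp
  | succ K ih =>
    rw [Finset.sum_range_succ]
    have h0 : (0 : ℝ) ≤ K := Nat.cast_nonneg K
    push_cast
    by_cases h : (K : ℝ) + 1 ≤ Y
    · rw [if_pos h]
      rw [min_eq_left (by linarith : (K : ℝ) ≤ Y)] at ih
      rw [min_eq_left h]
      have h1 : Real.sqrt K ≤ Real.sqrt (K + 1) := Real.sqrt_le_sqrt (by linarith)
      have h2 : 0 < Real.sqrt ((K : ℝ) + 1) := Real.sqrt_pos.2 (by linarith)
      have h3 : Real.sqrt ((K : ℝ) + 1) ^ 2 = K + 1 := Real.sq_sqrt (by linarith)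
      have h4 : Real.sqrt (K : ℝ) ^ 2 = K := Real.sq_sqrt h0
      have h5 : 1 / Real.sqrt ((K : ℝ) + 1) ≤ 2 * Real.sqrt (K + 1) - 2 * Real.sqrt K := by
        rw [div_le_iff₀ h2]
        nlinarith [Real.sqrt_nonneg (K : ℝ), sq_nonneg (Real.sqrt ((K : ℝ) + 1) - Real.sqrt K)]
      linarith
    · rw [if_neg h]
      have h1 : Real.sqrt (min (K : ℝ) Y) ≤ Real.sqrt (min ((K : ℝ) + 1) Y) :=
        Real.sqrt_le_sqrt (min_le_min_right _ (by linarith))
      linarith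

/-- sum over one half of the integers -/
theorem half (f : ℕ → ℝ) (hf : ∀ n, 0 ≤ f n) (A B Y : ℝ) (hA : 0 ≤ A) (hB : 0 ≤ B)
    (h : ∀ n, f n ≤ (if (n : ℝ) + 1 ≤ Y then A / Real.sqrt ((n : ℝ) + 1) else 0) +
      B / ((n : ℝ) + 1) ^ 2) : Summable f ∧ ∑' n, f n ≤ 2 * A * Real.sqrt Y + 2 * B := by
  have key : ∀ K : ℕ, ∑ n ∈ Finset.range K, f n ≤ 2 * A * Real.sqrt Y + 2 * B := by
    intro K
    have h1 : ∑ n ∈ Finset.range K, f n ≤ A * ∑ n ∈ Finset.range K,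
        (if (n : ℝ) + 1 ≤ Y then 1 / Real.sqrt ((n : ℝ) + 1) else 0) +
        B * ∑ n ∈ Finset.range K, 1 / ((n : ℝ) + 1) ^ 2 := by
      rw [Finset.mul_sum, Finset.mul_sum, ← Finset.sum_add_distrib]
      refine Finset.sum_le_sum fun n _ => (h n).trans (le_of_eq ?_)
      congr 1
      · split_ifs
        · ring
        · ring
      · ring
    have h2 : Real.sqrt (min (K : ℝ) Y) ≤ Real.sqrt Y := Real.sqrt_le_sqrt (min_le_right _ _)
    have h3 : 2 * (K : ℝ) / (K + 1) ≤ 2 := by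
      have h0 : (0 : ℝ) ≤ K := Nat.cast_nonneg K
      rw [div_le_iff₀ (by positivity)]
      linarith
    have h4 := sum_inv_sqrt Y K
    have h5 := sum_inv_sq K
    have h6 := mul_le_mul_of_nonneg_left (h4.trans (by linarith :
      2 * Real.sqrt (min (K : ℝ) Y) ≤ 2 * Real.sqrt Y)) hA
    have h7 := mul_le_mul_of_nonneg_left (h5.trans h3) hB
    linarith
  exact ⟨summable_of_sum_range_le hf key, Real.tsum_le_of_sum_range_le hf key⟩

end KB_aux

theorem iKB (hK2 : StK2) (hK3 : StK3) (hKP : StKP) : StKB := by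
  obtain ⟨C2, hC2, h2⟩ := hK2
  obtain ⟨C3, hC3, h3⟩ := hK3
  obtain ⟨CP, hCP, hP⟩ := hKP
  refine ⟨5 * C2 + 16 * C3 + CP, by linarith, ?_⟩
  intro X N M x hN hX hNX hM hx
  have hNX2 : C2 * N ≤ X ^ 2 := by nlinarith
  have hNX3 : C3 * N ≤ X ^ 2 := by nlinarith
  have hNXP : CP * N ≤ X ^ 2 := by nlinarith
  obtain ⟨h20, h2m⟩ := h2 X N hN hX hNX2
  obtain ⟨h3m, -, -⟩ := h3 X N hN hX hNX3
  obtain ⟨hs, hK⟩ := hP X N x hN hX hNXP
  have hsN : 1 ≤ Real.sqrt N := by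
    rw [show (1 : ℝ) = Real.sqrt 1 by simp]
    exact Real.sqrt_le_sqrt hN
  have hsN0 : 0 < Real.sqrt N := by linarith
  -- bound of one term
  have hterm : ∀ (m : ℤ) (n : ℕ), |(m : ℝ)| = (n : ℝ) + 1 → ‖KK X N m x‖ ≤
      (if (n : ℝ) + 1 ≤ 8 * M then (C3 * Real.sqrt N) / Real.sqrt ((n : ℝ) + 1) else 0) +
        (C2 / N) / ((n : ℝ) + 1) ^ 2 := by
    intro m n hmn
    have hn0 : (0 : ℝ) < (n : ℝ) + 1 := by positivity
    have hm0 : m ≠ 0 := by
      rintro rfl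
      rw [Int.cast_zero, abs_zero] at hmn
      linarith
    have hm0' : (m : ℝ) ≠ 0 := Int.cast_ne_zero.2 hm0
    have hB : 0 ≤ (C2 / N) / ((n : ℝ) + 1) ^ 2 := by positivity
    have hA : 0 ≤ (if (n : ℝ) + 1 ≤ 8 * M then (C3 * Real.sqrt N) / Real.sqrt ((n : ℝ) + 1)
        else 0) := by
      split_ifs
      · positivity
      · exact le_rfl
    by_cases hxm : Real.sqrt N / 2 ≤ x / m ∧ x / m ≤ 2 * Real.sqrt N
    · have h4 : Real.sqrt N / 2 * ((n : ℝ) + 1) ≤ |x| := by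
        have h5 : |x| = |x / m| * |(m : ℝ)| := by
          rw [← abs_mul, div_mul_cancel₀ _ hm0']
        rw [h5, hmn]
        exact mul_le_mul_of_nonneg_right (hxm.1.trans (le_abs_self _)) hn0.le
      have h6 : (n : ℝ) + 1 ≤ 8 * M := by
        have h7 : Real.sqrt N * ((n : ℝ) + 1) ≤ Real.sqrt N * (8 * M) := by nlinarith
        exact le_of_mul_le_mul_left h7 hsN0
      rw [if_pos h6]
      have h8 := h3m m hm0 x
      rw [hmn, Real.sqrt_div' _ hn0.le, ← mul_div_assoc] at h8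
      linarith
    · have h8 := h2m m hm0 x hxm
      have h9 : (m : ℝ) ^ 2 = ((n : ℝ) + 1) ^ 2 := by rw [← sq_abs, hmn]
      rw [h9] at h8
      have h10 : C2 / (((n : ℝ) + 1) ^ 2 * N) = (C2 / N) / ((n : ℝ) + 1) ^ 2 := by
        rw [div_div, mul_comm]
      rw [h10] at h8
      linarith
  obtain ⟨hp1, hp2⟩ := KB_aux.half (fun n : ℕ => ‖KK X N ((n : ℤ) + 1) x‖)
    (fun n => norm_nonneg _) (C3 * Real.sqrt N) (C2 / N) (8 * M) (by positivity) (by positivity)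
    (fun n => hterm _ n (by push_cast; exact abs_of_nonneg (by positivity)))
  obtain ⟨hn1, hn2⟩ := KB_aux.half (fun n : ℕ => ‖KK X N (-((n : ℤ) + 1)) x‖)
    (fun n => norm_nonneg _) (C3 * Real.sqrt N) (C2 / N) (8 * M) (by positivity) (by positivity)
    (fun n => hterm _ n (by push_cast; rw [abs_neg]; exact abs_of_nonneg (by positivity)))
  have hsum : ∑' m : ℤ, ‖KK X N m x‖ = ∑' n : ℕ, ‖KK X N ((n : ℤ) + 1) x‖ + ‖KK X N 0 x‖ +
      ∑' n : ℕ, ‖KK X N (-((n : ℤ) + 1)) x‖ :=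
    tsum_of_add_one_of_neg_add_one (f := fun m : ℤ => ‖KK X N m x‖) hp1 hn1
  have h11 : ‖KS X N x‖ ≤ ∑' m : ℤ, ‖KK X N m x‖ := by
    rw [hK]
    exact norm_tsum_le_tsum_norm hs
  have h12 : Real.sqrt (8 * M) ≤ 3 * Real.sqrt M := by
    rw [show 3 * Real.sqrt M = Real.sqrt (9 * M) by
      rw [Real.sqrt_mul (by norm_num), show (9 : ℝ) = 3 ^ 2 by norm_num,
        Real.sqrt_sq (by norm_num)]]
    exact Real.sqrt_le_sqrt (by linarith)
  have h13 : Real.sqrt (N * M) = Real.sqrt N * Real.sqrt M := Real.sqrt_mul (by linarith) _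
  have h14 : 1 ≤ Real.sqrt (N * M) := by
    rw [show (1 : ℝ) = Real.sqrt 1 by simp]
    exact Real.sqrt_le_sqrt (by nlinarith)
  have h15 : C2 / N ≤ C2 * Real.sqrt (N * M) := by
    have h16 : C2 / N ≤ C2 := div_le_self (by linarith) hN
    nlinarith
  have h17 : C3 * Real.sqrt N * Real.sqrt (8 * M) ≤ 3 * C3 * Real.sqrt (N * M) := by
    rw [h13]
    have h18 : 0 ≤ C3 * Real.sqrt N := by positivity
    nlinarith [mul_le_mul_of_nonneg_left h12 h18]
  have h19 : 0 ≤ N / (1 + |x| * Real.sqrt N) ^ 2 := by positivity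
  have h20' : ‖KK X N 0 x‖ ≤ C2 * (N / (1 + |x| * Real.sqrt N) ^ 2) := by
    rw [← mul_div_assoc]
    exact h20 x
  have h21 : ‖KS X N x‖ ≤ C2 * (N / (1 + |x| * Real.sqrt N) ^ 2) +
      (12 * C3 + 4 * C2) * Real.sqrt (N * M) := by
    rw [hsum] at h11
    nlinarith
  refine h21.trans ?_
  have h22 : 0 ≤ Real.sqrt (N * M) := by linarith
  have h23 : C2 * (N / (1 + |x| * Real.sqrt N) ^ 2) ≤
      (5 * C2 + 16 * C3 + CP) * (N / (1 + |x| * Real.sqrt N) ^ 2) :=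
    mul_le_mul_of_nonneg_right (by linarith) h19
  have h24 : (12 * C3 + 4 * C2) * Real.sqrt (N * M) ≤
      (5 * C2 + 16 * C3 + CP) * Real.sqrt (N * M) :=
    mul_le_mul_of_nonneg_right (by linarith) h22
  rw [mul_add]
  linarith

end Pool.Agent.Work.MP_56b8f5_nt.UB
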