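import Pool.Agent.Work.MP_56b8f5_nt.UB.Stmts

/-!
MP_56b8f5_nt, block UB, item KD: decomposition of the kernel.
-/

open MeasureTheory Set Filter Topology

noncomputable section

namespace Pool.Agent.Work.MP_56b8f5_nt.UB

namespace KD_aux

lemma conj_ee (y : ℝ) : (starRingEnd ℂ) (ee y) = ee (-y) := by
  unfold ee
  rw [← Complex.exp_conj]
  congr 1
  rw [map_mul, Complex.conj_ofReal, Complex.conj_I]
  push_cast
  ring

lemma KK_neg (X N : ℝ) (m : ℤ) (x : ℝ) :
    KK X N (-m) x = (starRingEnd ℂ) (KK X N m (-x)) := by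
  unfold KK
  rw [← integral_conj]
  refine integral_congr_ae (Filter.Eventually.of_forall fun v => ?_)
  simp only
  rw [map_mul, Complex.conj_ofReal, conj_ee]
  congr 2
  push_cast
  ring

/-- the stationary terms -/
def tt (X N x : ℝ) (m : ℤ) : ℂ :=
  if m = 0 then KK X N 0 x
  else if Real.sqrt N / 2 ≤ x / m ∧ x / m ≤ 2 * Real.sqrt N then KK X N m x else 0

lemma tt_pos (X N x : ℝ) (m : ℕ) (hm : 1 ≤ m) : tt X N x (m : ℤ) = KJ X N m x := by
  have hm' : (0 : ℝ) < m := by exact_mod_cast hm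
  unfold tt KJ
  rw [if_neg (by omega)]
  have e : (Real.sqrt N / 2 ≤ x / ((m : ℤ) : ℝ) ∧ x / ((m : ℤ) : ℝ) ≤ 2 * Real.sqrt N) ↔
      (m * Real.sqrt N / 2 ≤ x ∧ x ≤ 2 * m * Real.sqrt N) := by
    rw [Int.cast_natCast, le_div_iff₀ hm', div_le_iff₀ hm']
    constructor
    · rintro ⟨h1, h2⟩
      constructor <;> linarith
    · rintro ⟨h1, h2⟩
      constructor <;> linarith
  by_cases h : (m * Real.sqrt N / 2 ≤ x ∧ x ≤ 2 * m * Real.sqrt N)
  · rw [if_pos h, if_pos (e.2 h)]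
  · rw [if_neg h, if_neg (fun h' => h (e.1 h'))]

lemma tt_neg (X N x : ℝ) (m : ℕ) (hm : 1 ≤ m) :
    tt X N x (-(m : ℤ)) = (starRingEnd ℂ) (KJ X N m (-x)) := by
  have h0 : (-(m : ℤ)) ≠ 0 := by omega
  have h0' : ((m : ℤ)) ≠ 0 := by omega
  rw [← tt_pos X N (-x) m hm]
  unfold tt
  rw [if_neg h0, if_neg h0']
  have e : x / ((-(m : ℤ) : ℤ) : ℝ) = -x / ((m : ℤ) : ℝ) := by
    push_cast
    rw [div_neg, neg_div]
  rw [e]
  by_cases h : (Real.sqrt N / 2 ≤ -x / ((m : ℤ) : ℝ) ∧ -x / ((m : ℤ) : ℝ) ≤ 2 * Real.sqrt N)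
  · rw [if_pos h, if_pos h, KK_neg]
  · rw [if_neg h, if_neg h, map_zero]

lemma tt_zero_of_large (X N M x : ℝ) (hN : 1 ≤ N) (hx : |x| ≤ M * Real.sqrt N) (m : ℤ)
    (hm : 2 * M < |(m : ℝ)|) (hM : 1 ≤ M) : tt X N x m = 0 := by
  have hs : 0 < Real.sqrt N := Real.sqrt_pos.2 (by linarith)
  have hm0 : 0 < |(m : ℝ)| := by linarith
  have hne : m ≠ 0 := by
    rintro rfl
    simp at hm0
  unfold tt
  rw [if_neg hne, if_neg]
  rintro ⟨h1, -⟩
  have h2 : Real.sqrt N / 2 ≤ |x| / |(m : ℝ)| := by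
    rw [← abs_div]
    exact h1.trans (le_abs_self _)
  rw [le_div_iff₀ hm0] at h2
  have h3 : Real.sqrt N * (2 * M) < Real.sqrt N * |(m : ℝ)| := mul_lt_mul_of_pos_left hm hs
  nlinarith

lemma tt_hasSum (X N M x : ℝ) (hN : 1 ≤ N) (hM : 1 ≤ M) (hx : |x| ≤ M * Real.sqrt N) :
    HasSum (tt X N x) (KK X N 0 x +
      ∑ m ∈ Finset.Icc 1 ⌊2 * M⌋₊, (KJ X N m x + (starRingEnd ℂ) (KJ X N m (-x)))) := by
  set K := ⌊2 * M⌋₊ with hK
  have hlt : ∀ m : ℕ, K < m → 2 * M < (m : ℝ) := fun m hm => (Nat.floor_lt (by linarith)).1 hm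
  have h1 : HasSum (fun n : ℕ => tt X N x (n : ℤ)) (∑ n ∈ Finset.range (K + 1), tt X N x (n : ℤ)) := by
    refine hasSum_sum_of_ne_finset_zero fun n hn => ?_
    rw [Finset.mem_range] at hn
    refine tt_zero_of_large X N M x hN hx _ ?_ hM
    rw [Int.cast_natCast, Nat.abs_cast]
    exact hlt n (by omega)
  have h2 : HasSum (fun n : ℕ => tt X N x (-((n : ℤ) + 1)))
      (∑ n ∈ Finset.range K, tt X N x (-((n : ℤ) + 1))) := by
    refine hasSum_sum_of_ne_finset_zero fun n hn => ?_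
    rw [Finset.mem_range] at hn
    refine tt_zero_of_large X N M x hN hx _ ?_ hM
    have h3 := hlt (n + 1) (by omega)
    have e : |((-((n : ℤ) + 1) : ℤ) : ℝ)| = ((n + 1 : ℕ) : ℝ) := by
      push_cast
      rw [abs_neg, abs_of_nonneg (by positivity)]
    rw [e]
    exact h3
  have h3 := HasSum.of_nat_of_neg_add_one h1 h2
  convert h3 using 1
  have e1 : ∑ n ∈ Finset.range (K + 1), tt X N x (n : ℤ) =
      KK X N 0 x + ∑ m ∈ Finset.Icc 1 K, KJ X N m x := by
    have e0 : tt X N x ((0 : ℕ) : ℤ) = KK X N 0 x := by simp [tt]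
    rw [Finset.sum_range_succ', e0, add_comm]
    refine congrArg (fun z => KK X N 0 x + z) ?_
    refine Finset.sum_nbij' (fun n => n + 1) (fun m => m - 1) ?_ ?_ ?_ ?_ ?_
    · intro n hn
      rw [Finset.mem_range] at hn
      rw [Finset.mem_Icc]
      omega
    · intro m hm
      rw [Finset.mem_Icc] at hm
      rw [Finset.mem_range]
      omega
    · intro n _
      simp
    · intro m hm
      rw [Finset.mem_Icc] at hm
      show m - 1 + 1 = m
      omega
    · intro n _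
      exact tt_pos X N x (n + 1) (by omega)
  have e2 : ∑ n ∈ Finset.range K, tt X N x (-((n : ℤ) + 1)) =
      ∑ m ∈ Finset.Icc 1 K, (starRingEnd ℂ) (KJ X N m (-x)) := by
    refine Finset.sum_nbij' (fun n => n + 1) (fun m => m - 1) ?_ ?_ ?_ ?_ ?_
    · intro n hn
      rw [Finset.mem_range] at hn
      rw [Finset.mem_Icc]
      omega
    · intro m hm
      rw [Finset.mem_Icc] at hm
      rw [Finset.mem_range]
      omega
    · intro n _
      simp
    · intro m hm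
      rw [Finset.mem_Icc] at hm
      show m - 1 + 1 = m
      omega
    · intro n _
      have := tt_neg X N x (n + 1) (by omega)
      rw [← this]
      congr 1
  rw [e1, e2, Finset.sum_add_distrib, add_assoc]

end KD_aux

open KD_aux in
theorem iKD (hK2 : StK2) (hKP : StKP) : StKD := by
  obtain ⟨C1, hC1, h1⟩ := hKP
  obtain ⟨C2, hC2, h2⟩ := hK2
  have hS : Summable fun m : ℤ => 1 / (m : ℝ) ^ 2 := Real.summable_one_div_int_pow.2 (by norm_num)
  set S : ℝ := ∑' m : ℤ, 1 / (m : ℝ) ^ 2 with hSdef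
  have hS0 : 0 ≤ S := tsum_nonneg fun m => by positivity
  refine ⟨C1 + C2 + C2 * S, by nlinarith [mul_nonneg (by linarith : (0 : ℝ) ≤ C2) hS0], ?_⟩
  intro X N M x hN hX hCN hM hx
  have hCS : 0 ≤ C2 * S := mul_nonneg (by linarith) hS0
  have hN0 : (0 : ℝ) < N := by linarith
  have hc1 : C1 * N ≤ X ^ 2 := by nlinarith
  have hc2 : C2 * N ≤ X ^ 2 := by nlinarith
  obtain ⟨hsum, hKS⟩ := h1 X N x hN hX hc1
  obtain ⟨-, h3⟩ := h2 X N hN hX hc2
  have ht := tt_hasSum X N M x hN hM hx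
  have hKsum : HasSum (fun m : ℤ => KK X N m x) (KS X N x) := by
    rw [hKS]
    exact hsum.of_norm.hasSum
  have hd := hKsum.sub ht
  have hb : ∀ m : ℤ, ‖KK X N m x - tt X N x m‖ ≤ C2 / N * (1 / (m : ℝ) ^ 2) := by
    intro m
    by_cases hm : m = 0
    · subst hm
      simp [tt]
    · unfold tt
      rw [if_neg hm]
      split_ifs with h
      · rw [sub_self, norm_zero]
        positivity
      · rw [sub_zero]
        refine (h3 m hm x h).trans (le_of_eq ?_)
        have : (m : ℝ) ≠ 0 := by exact_mod_cast hm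
        field_simp
  have hd' : ‖KS X N x - (KK X N 0 x +
      ∑ m ∈ Finset.Icc 1 ⌊2 * M⌋₊, (KJ X N m x + (starRingEnd ℂ) (KJ X N m (-x))))‖ ≤
      C2 / N * S := by
    rw [← hd.tsum_eq]
    have hs2 : HasSum (fun m : ℤ => C2 / N * (1 / (m : ℝ) ^ 2)) (C2 / N * S) :=
      hS.hasSum.mul_left _
    exact tsum_of_norm_bounded hs2 hb
  rw [sub_sub]
  refine hd'.trans ?_
  rw [div_mul_eq_mul_div]
  apply div_le_div_of_nonneg_right _ hN0.le
  linarith

end Pool.Agent.Work.MP_56b8f5_nt.UB
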