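import Pool.Agent.Work.MP_56b8f5_nt.UB.Poi

open MeasureTheory Set Filter Topology Complex FourierTransform

noncomputable section

namespace Pool.Agent.Work.MP_56b8f5_nt.UB.Osc

/-- Poisson summation for smooth functions supported in `[a,b]`. -/
theorem poissonC {f : ℝ → ℂ} {a b : ℝ} (hs : ∀ x, f x ≠ 0 → a ≤ x ∧ x ≤ b)
    (hf : ContDiff ℝ 2 f) :
    (Summable fun m : ℤ => ‖∫ x : ℝ, f x * e (-(m * x))‖) ∧
    HasSum (fun m : ℤ => ∫ x : ℝ, f x * e (-(m * x))) (∑ n ∈ Finset.Icc ⌈a⌉ ⌊b⌋, f n) := by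
  have hsupp : HasCompactSupport f := by
    apply HasCompactSupport.of_support_subset_isCompact (isCompact_Icc (a := a) (b := b))
    intro x hx; exact hs x hx
  have hd1 : ContDiff ℝ 1 (deriv f) := by
    have : ContDiff ℝ (1 + 1) f := by simpa [one_add_one_eq_two] using hf
    exact (contDiff_succ_iff_deriv.1 this).2.2
  have hd2 : ContDiff ℝ 0 (deriv (deriv f)) := by
    have : ContDiff ℝ (0 + 1) (deriv f) := by simpa using hd1
    exact (contDiff_succ_iff_deriv.1 this).2.2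
  have q1 : ∀ x, HasDerivAt f (deriv f x) x := fun x =>
    ((hf.differentiable (by norm_num)) x).hasDerivAt
  have q2 : ∀ x, HasDerivAt (deriv f) (deriv (deriv f) x) x := fun x =>
    ((hd1.differentiable (by norm_num)) x).hasDerivAt
  have c2 : Continuous (deriv (deriv f)) := hd2.continuous
  have c1 : Continuous (deriv f) := hd1.continuous
  have c0 : Continuous f := hf.continuous
  have bd : ∀ g : ℝ → ℂ, Continuous g → HasCompactSupport g →
      ∃ C, ∀ x, ‖g x‖ ≤ C / (1 + x ^ 2) := by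
    intro g hg hsg
    obtain ⟨x0, hx0⟩ := (show Continuous fun x : ℝ => (1 + x ^ 2) * ‖g x‖ by
      fun_prop).exists_forall_ge_of_hasCompactSupport (hsg.norm.mul_left)
    refine ⟨(1 + x0 ^ 2) * ‖g x0‖, fun x => ?_⟩
    rw [le_div_iff₀ (by positivity), mul_comm]
    exact hx0 x
  obtain ⟨C0, hC0⟩ := bd f c0 hsupp
  obtain ⟨C1, hC1⟩ := bd _ c1 hsupp.deriv
  obtain ⟨C2, hC2⟩ := bd _ c2 hsupp.deriv.deriv
  have mono : ∀ {C D : ℝ} {y x : ℝ}, C ≤ D → y ≤ C / (1 + x ^ 2) → y ≤ D / (1 + x ^ 2) := by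
    intro C D y x h1 h2
    exact h2.trans (div_le_div_of_nonneg_right h1 (by positivity))
  obtain ⟨s1, s2, s3⟩ := poisson (C := max C0 (max C1 C2)) q1 q2 c2
    (fun x => mono (le_max_left _ _) (hC0 x))
    (fun x => mono ((le_max_left _ _).trans (le_max_right _ _)) (hC1 x))
    (fun x => mono ((le_max_right _ _).trans (le_max_right _ _)) (hC2 x))
  refine ⟨s2, ?_⟩
  have h4 : ∑' n : ℤ, f n = ∑ n ∈ Finset.Icc ⌈a⌉ ⌊b⌋, f n := by
    apply tsum_eq_sum
    intro n hn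
    by_contra h
    obtain ⟨h5, h6⟩ := hs n h
    exact hn (Finset.mem_Icc.2 ⟨Int.ceil_le.2 h5, Int.le_floor.2 h6⟩)
  rw [← h4, s3]
  exact s2.of_norm.hasSum

/-- Two integrations by parts. -/
theorem parts2 {a b : ℝ} (hab : a ≤ b) {f f1 f2 f3 : ℝ → ℝ} {A A1 A2 : ℝ → ℂ}
    (hf : ∀ x ∈ Icc a b, HasDerivAt f (f1 x) x) (hf1 : ∀ x ∈ Icc a b, HasDerivAt f1 (f2 x) x)
    (hf2 : ∀ x ∈ Icc a b, HasDerivAt f2 (f3 x) x) (hf3 : ContinuousOn f3 (Icc a b))
    (hA : ∀ x ∈ Icc a b, HasDerivAt A (A1 x) x) (hA1 : ∀ x ∈ Icc a b, HasDerivAt A1 (A2 x) x)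
    (hA2 : ContinuousOn A2 (Icc a b)) (h0 : ∀ x ∈ Icc a b, f1 x ≠ 0)
    (Aa : A a = 0) (Ab : A b = 0) (A1a : A1 a = 0) (A1b : A1 b = 0) :
    ‖∫ x in a..b, A x * e (f x)‖ ≤ (1 / (4 * Real.pi ^ 2)) *
      ∫ x in a..b, (‖A2 x‖ / (f1 x) ^ 2 + 3 * (‖A1 x‖ * |f2 x| / |f1 x| ^ 3) +
        ‖A x‖ * (|f3 x| / |f1 x| ^ 3 + 3 * (f2 x) ^ 2 / (f1 x) ^ 4)) := by
  have hu : uIcc a b = Icc a b := uIcc_of_le hab
  have cf : ContinuousOn f (Icc a b) := fun x hx => (hf x hx).continuousAt.continuousWithinAt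
  have cf1 : ContinuousOn f1 (Icc a b) := fun x hx => (hf1 x hx).continuousAt.continuousWithinAt
  have cf2 : ContinuousOn f2 (Icc a b) := fun x hx => (hf2 x hx).continuousAt.continuousWithinAt
  have cA : ContinuousOn A (Icc a b) := fun x hx => (hA x hx).continuousAt.continuousWithinAt
  have cA1 : ContinuousOn A1 (Icc a b) := fun x hx => (hA1 x hx).continuousAt.continuousWithinAt
  have ce : ContinuousOn (fun x => e (f x)) (Icc a b) := e_cont.comp_continuousOn cf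
  have C : ∀ {g : ℝ → ℝ}, ContinuousOn g (Icc a b) →
      ContinuousOn (fun x => ((g x : ℝ) : ℂ)) (Icc a b) := fun hg =>
    Complex.continuous_ofReal.comp_continuousOn hg
  have h0' : ∀ x ∈ Icc a b, ((f1 x : ℝ) : ℂ) ≠ 0 := fun x hx => by exact_mod_cast h0 x hx
  set c : ℂ := 2 * (Real.pi : ℂ) * Complex.I with hc
  have hc0 : c ≠ 0 := by simp [hc, Real.pi_ne_zero]
  set G : ℝ → ℂ := fun x => (A x / (c * f1 x) - (A1 x / (f1 x) ^ 2 - A x * f2 x / (f1 x) ^ 3) / c ^ 2)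
    * e (f x) with hG
  set R : ℝ → ℂ := fun x => (A2 x / (f1 x) ^ 2 - 3 * (A1 x * f2 x / (f1 x) ^ 3) -
    A x * (f3 x / (f1 x) ^ 3 - 3 * (f2 x) ^ 2 / (f1 x) ^ 4)) / c ^ 2 * e (f x) with hR
  have hd : ∀ x ∈ Icc a b, HasDerivAt G (A x * e (f x) - R x) x := by
    intro x hx
    have k1 : HasDerivAt (fun y => ((f1 y : ℝ) : ℂ)) (f2 x) x := (hf1 x hx).ofReal_comp
    have k2 : HasDerivAt (fun y => ((f2 y : ℝ) : ℂ)) (f3 x) x := (hf2 x hx).ofReal_comp
    have hx0 := h0' x hx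
    have t1 : HasDerivAt (fun y => A y / (c * (f1 y : ℂ)))
        ((A1 x * (c * f1 x) - A x * (c * f2 x)) / (c * f1 x) ^ 2) x :=
      (hA x hx).fun_div (k1.const_mul c) (mul_ne_zero hc0 hx0)
    have t2 : HasDerivAt (fun y => A1 y / (f1 y : ℂ) ^ 2)
        ((A2 x * (f1 x) ^ 2 - A1 x * (2 * f1 x * f2 x)) / ((f1 x : ℂ) ^ 2) ^ 2) x := by
      have := (hA1 x hx).fun_div (k1.fun_pow 2) (pow_ne_zero 2 hx0)
      refine HasDerivAt.congr_deriv this ?_
      simp
    have t3 : HasDerivAt (fun y => A y * (f2 y : ℂ) / (f1 y : ℂ) ^ 3)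
        (((A1 x * f2 x + A x * f3 x) * (f1 x) ^ 3 - A x * f2 x * (3 * (f1 x) ^ 2 * f2 x)) /
          ((f1 x : ℂ) ^ 3) ^ 2) x := by
      have := ((hA x hx).fun_mul k2).fun_div (k1.fun_pow 3) (pow_ne_zero 3 hx0)
      refine HasDerivAt.congr_deriv this ?_
      simp
    have t4 := (t1.fun_sub ((t2.fun_sub t3).div_const (c ^ 2))).fun_mul (e_deriv (hf x hx))
    refine HasDerivAt.congr_deriv t4 ?_
    simp only [hR]
    rw [← hc]
    field_simp
    ring
  have cR : ContinuousOn R (Icc a b) := by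
    have q0 : ContinuousOn (fun x => ((f1 x : ℝ) : ℂ)) (Icc a b) := C cf1
    refine ContinuousOn.mul (ContinuousOn.div_const ?_ _) ce
    refine ContinuousOn.sub (ContinuousOn.sub (hA2.div (q0.pow 2) fun x hx =>
      pow_ne_zero 2 (h0' x hx)) ?_) ?_
    · exact continuousOn_const.mul ((cA1.mul (C cf2)).div (q0.pow 3) fun x hx =>
        pow_ne_zero 3 (h0' x hx))
    · refine cA.mul (ContinuousOn.sub ?_ ?_)
      · exact (C hf3).div (q0.pow 3) fun x hx => pow_ne_zero 3 (h0' x hx)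
      · exact (continuousOn_const.mul ((C cf2).pow 2)).div (q0.pow 4) fun x hx =>
          pow_ne_zero 4 (h0' x hx)
  have i1 : IntervalIntegrable (fun x => A x * e (f x)) volume a b := by
    apply ContinuousOn.intervalIntegrable; rw [hu]; exact cA.mul ce
  have i2 : IntervalIntegrable R volume a b := by
    apply ContinuousOn.intervalIntegrable; rw [hu]; exact cR
  have ftc : ∫ x in a..b, (A x * e (f x) - R x) = G b - G a := by
    apply intervalIntegral.integral_eq_sub_of_hasDerivAt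
    · intro x hx; rw [hu] at hx; exact hd x hx
    · exact i1.sub i2
  rw [intervalIntegral.integral_sub i1 i2] at ftc
  have Ga : G a = 0 := by simp [hG, Aa, A1a]
  have Gb : G b = 0 := by simp [hG, Ab, A1b]
  rw [Ga, Gb, sub_zero, sub_eq_zero] at ftc
  rw [ftc]
  have nc : ‖c‖ ^ 2 = 4 * Real.pi ^ 2 := by
    simp only [hc, norm_mul, Complex.norm_I, Complex.norm_real, Real.norm_eq_abs,
      abs_of_pos Real.pi_pos, Complex.norm_ofNat, mul_one]
    ring
  have nR : ∀ x ∈ Icc a b, ‖R x‖ ≤ (1 / (4 * Real.pi ^ 2)) *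
      (‖A2 x‖ / (f1 x) ^ 2 + 3 * (‖A1 x‖ * |f2 x| / |f1 x| ^ 3) +
        ‖A x‖ * (|f3 x| / |f1 x| ^ 3 + 3 * (f2 x) ^ 2 / (f1 x) ^ 4)) := by
    intro x hx
    simp only [hR, norm_mul, norm_div, norm_e, mul_one, norm_pow, nc]
    rw [one_div, inv_mul_eq_div]
    apply div_le_div_of_nonneg_right _ (by positivity)
    refine (norm_sub_le _ _).trans (add_le_add ((norm_sub_le _ _).trans (le_of_eq ?_)) ?_)
    · simp only [norm_mul, norm_div, norm_pow, Complex.norm_real, Real.norm_eq_abs, sq_abs,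
        Complex.norm_ofNat]
    · rw [norm_mul]
      apply mul_le_mul_of_nonneg_left _ (norm_nonneg _)
      refine (norm_sub_le _ _).trans (le_of_eq ?_)
      have h4 : |f1 x| ^ 4 = f1 x ^ 4 := by
        rw [show (4 : ℕ) = 2 * 2 from rfl, pow_mul, pow_mul, sq_abs]
      simp only [norm_mul, norm_div, norm_pow, Complex.norm_real, Real.norm_eq_abs, sq_abs,
        Complex.norm_ofNat, h4]
  have cRn : ContinuousOn (fun x => (‖A2 x‖ / (f1 x) ^ 2 + 3 * (‖A1 x‖ * |f2 x| / |f1 x| ^ 3) +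
        ‖A x‖ * (|f3 x| / |f1 x| ^ 3 + 3 * (f2 x) ^ 2 / (f1 x) ^ 4))) (Icc a b) := by
    refine (((hA2.norm.div (cf1.pow 2) fun x hx => pow_ne_zero 2 (h0 x hx)).add
      (continuousOn_const.mul ((cA1.norm.mul cf2.abs).div (cf1.abs.pow 3) fun x hx =>
        pow_ne_zero 3 (abs_ne_zero.2 (h0 x hx)))))).add ?_
    refine cA.norm.mul (ContinuousOn.add ?_ ?_)
    · exact hf3.abs.div (cf1.abs.pow 3) fun x hx => pow_ne_zero 3 (abs_ne_zero.2 (h0 x hx))
    · exact (continuousOn_const.mul (cf2.pow 2)).div (cf1.pow 4) fun x hx =>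
        pow_ne_zero 4 (h0 x hx)
  rw [← intervalIntegral.integral_const_mul]
  refine (intervalIntegral.norm_integral_le_integral_norm hab).trans ?_
  apply intervalIntegral.integral_mono_on hab
  · apply ContinuousOn.intervalIntegrable; rw [hu]; exact cR.norm
  · apply ContinuousOn.intervalIntegrable; rw [hu]; exact continuousOn_const.mul cRn
  · exact nR

end Pool.Agent.Work.MP_56b8f5_nt.UB.Osc
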