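import Pool.Agent.Work.MP_56b8f5_nt.UB.Stmts
import Pool.Agent.Work.MP_56b8f5_nt.UB.Poi2

/-!
MP_56b8f5_nt, block UB, item KP: Poisson summation for the kernel.
-/

open MeasureTheory Set Filter Topology

noncomputable section

namespace Pool.Agent.Work.MP_56b8f5_nt.UB

namespace KP_aux

theorem e_eq (x : ℝ) : Osc.e x = ee x := by
  unfold Osc.e ee
  congr 1
  push_cast
  ring

theorem ee_add (x y : ℝ) : ee (x + y) = ee x * ee y := by
  unfold ee
  rw [← Complex.exp_add]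
  congr 1
  push_cast
  ring

theorem om_zero {u : ℝ} (h : u ≤ 1 / 2 ∨ 5 / 2 ≤ u) : om u = 0 := by
  unfold om
  refine omB.zero_of_le_dist ?_
  show (1 : ℝ) ≤ dist u (3 / 2)
  rw [Real.dist_eq]
  rcases h with h | h
  · rw [abs_of_nonpos (by linarith)]
    linarith
  · rw [abs_of_nonneg (by linarith)]
    linarith

/-- the summand -/
def fK (X N x y : ℝ) : ℂ := (om (y / N) : ℂ) * ee (x * vv X y)

theorem fK_zero {X N x y : ℝ} (hN : 0 < N) (h : y ≤ N / 2 ∨ 5 * N / 2 ≤ y) : fK X N x y = 0 := by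
  unfold fK
  rw [om_zero, Complex.ofReal_zero, zero_mul]
  rcases h with h | h
  · left
    rw [div_le_iff₀ hN]
    linarith
  · right
    rw [le_div_iff₀ hN]
    linarith

theorem fK_supp {X N x y : ℝ} (hN : 0 < N) (h : fK X N x y ≠ 0) : N / 2 ≤ y ∧ y ≤ 5 * N / 2 := by
  constructor
  · by_contra hc
    push Not at hc
    exact h (fK_zero hN (Or.inl hc.le))
  · by_contra hc
    push Not at hc
    exact h (fK_zero hN (Or.inr hc.le))

theorem ofReal_contDiff : ContDiff ℝ 2 (fun x : ℝ => (x : ℂ)) := Complex.ofRealCLM.contDiff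

theorem ee_contDiff : ContDiff ℝ 2 ee := by
  unfold ee
  have h1 : ContDiff ℝ 2 (fun x : ℝ => ((2 * Real.pi * x : ℝ) : ℂ) * Complex.I) :=
    (ofReal_contDiff.comp (contDiff_const.mul contDiff_id)).mul contDiff_const
  exact h1.cexp

theorem vv_contDiffAt {X y : ℝ} (hy : 0 < y) : ContDiffAt ℝ 2 (vv X) y := by
  unfold vv
  exact contDiffAt_const.mul (((Real.contDiffAt_sqrt hy.ne').div_const _).arsinh)

theorem fK_contDiff {X N x : ℝ} (hN : 0 < N) : ContDiff ℝ 2 (fK X N x) := by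
  rw [contDiff_iff_contDiffAt]
  intro y
  by_cases hy : 0 < y
  · unfold fK
    have h1 : ContDiff ℝ 2 om := omB.contDiff
    have h2 : ContDiff ℝ 2 (fun y : ℝ => om (y / N)) := h1.comp (contDiff_id.div_const N)
    have h3 : ContDiff ℝ 2 (fun y : ℝ => (om (y / N) : ℂ)) := ofReal_contDiff.comp h2
    have h4 : ContDiffAt ℝ 2 (fun y : ℝ => x * vv X y) y :=
      contDiffAt_const.mul (vv_contDiffAt hy)
    have h5 : ContDiffAt ℝ 2 (fun y : ℝ => ee (x * vv X y)) y :=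
      ContDiffAt.comp (g := ee) (f := fun y : ℝ => x * vv X y) y ee_contDiff.contDiffAt h4
    exact h3.contDiffAt.mul h5
  · have h0 : fK X N x =ᶠ[𝓝 y] fun _ => (0 : ℂ) := by
      have : Iio (N / 2) ∈ 𝓝 y := Iio_mem_nhds (by push Not at hy; linarith)
      filter_upwards [this] with z hz
      exact fK_zero hN (Or.inl (le_of_lt hz))
    exact contDiffAt_const.congr_of_eventuallyEq h0

theorem nd_pos {X v : ℝ} (hX : 0 < X) (hv : 0 < v) : 0 < nd X v := by
  unfold nd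
  exact mul_pos hX (Real.sinh_pos_iff.2 (by positivity))

theorem nn_pos {X v : ℝ} (hX : 0 < X) (hv : 0 < v) : 0 < nn X v := by
  unfold nn
  have : 1 < Real.cosh (v / (2 * X)) := Real.one_lt_cosh.2 (by positivity)
  have h2 : 0 < Real.cosh (v / (2 * X)) - 1 := by linarith
  positivity

theorem vv_pos {X y : ℝ} (hX : 0 < X) (hy : 0 < y) : 0 < vv X y := by
  unfold vv
  have : 0 < Real.arsinh (Real.sqrt y / (2 * X)) := Real.arsinh_pos_iff.2 (by positivity)
  positivity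

theorem image_nn (hKa : StKa) {X : ℝ} (hX : 0 < X) : nn X '' Ioi 0 = Ioi 0 := by
  obtain ⟨h1, -, -⟩ := hKa X hX
  ext y
  constructor
  · rintro ⟨v, hv, rfl⟩
    exact nn_pos hX hv
  · intro hy
    exact ⟨vv X y, vv_pos hX hy, h1 y (le_of_lt hy)⟩

theorem int_eq (hKa : StKa) {X N x : ℝ} (hX : 0 < X) (hN : 0 < N) (m : ℤ) :
    ∫ y : ℝ, fK X N x y * Osc.e (-(m * y)) = KK X N m x := by
  obtain ⟨h1, h2, h3, -⟩ := hKa X hX
  have e1 : ∫ y in Ioi (0 : ℝ), fK X N x y * Osc.e (-(m * y)) =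
      ∫ y : ℝ, fK X N x y * Osc.e (-(m * y)) := by
    refine setIntegral_eq_integral_of_forall_compl_eq_zero fun y hy => ?_
    rw [fK_zero hN (Or.inl ?_), zero_mul]
    have : y ≤ 0 := not_lt.1 hy
    linarith
  have e2 : ∫ y in nn X '' Ioi (0 : ℝ), fK X N x y * Osc.e (-(m * y)) =
      ∫ v in Ioi (0 : ℝ), |nd X v| • (fK X N x (nn X v) * Osc.e (-(m * nn X v))) := by
    refine integral_image_eq_integral_abs_deriv_smul measurableSet_Ioi
      (fun v _ => (h3 v).hasDerivWithinAt) ?_ _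
    intro v hv w hw hvw
    have h4 := congrArg (vv X) hvw
    rwa [h2 v (le_of_lt hv), h2 w (le_of_lt hw)] at h4
  rw [← e1]
  nth_rewrite 1 [← image_nn hKa hX]
  rw [e2]
  unfold KK
  refine setIntegral_congr_fun measurableSet_Ioi fun v hv => ?_
  have hv' : 0 < v := hv
  show |nd X v| • (fK X N x (nn X v) * Osc.e (-(m * nn X v))) =
    (kap X N v : ℂ) * ee (x * v - m * nn X v)
  rw [abs_of_pos (nd_pos hX hv'), e_eq, fK, h2 v hv'.le, kap, Complex.real_smul,
    show x * v - m * nn X v = x * v + -(m * nn X v) by ring, ee_add]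
  push_cast
  ring

theorem KS_eq {X N x : ℝ} (hN : 0 < N) :
    KS X N x = ∑ n ∈ Finset.Icc ⌈N / 2⌉ ⌊5 * N / 2⌋, fK X N x (n : ℝ) := by
  have h1 : ∑' n : ℤ, fK X N x (n : ℝ) = ∑ n ∈ Finset.Icc ⌈N / 2⌉ ⌊5 * N / 2⌋, fK X N x (n : ℝ) := by
    refine tsum_eq_sum fun n hn => ?_
    by_contra h
    obtain ⟨h5, h6⟩ := fK_supp hN h
    exact hn (Finset.mem_Icc.2 ⟨Int.ceil_le.2 h5, Int.le_floor.2 h6⟩)
  rw [← h1]
  have h2 : ∑' n : ℕ, (fun k : ℤ => fK X N x (k : ℝ)) (n : ℤ) = ∑' n : ℤ, fK X N x (n : ℝ) := by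
    refine Function.Injective.tsum_eq (g := fun n : ℕ => (n : ℤ))
      (f := fun k : ℤ => fK X N x (k : ℝ)) Nat.cast_injective ?_
    intro n hn
    obtain ⟨h5, -⟩ := fK_supp hN hn
    have h6 : (0 : ℝ) < n := by linarith
    have h7 : 0 < n := by exact_mod_cast h6
    exact ⟨n.toNat, Int.toNat_of_nonneg h7.le⟩
  rw [← h2]
  unfold KS fK
  simp

end KP_aux

open KP_aux in
theorem iKP (hKa : StKa) : StKP := by
  refine ⟨1, le_rfl, fun X N x hN hX _ => ?_⟩
  have hN0 : 0 < N := by linarith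
  obtain ⟨h1, h2⟩ := Osc.poissonC (f := fK X N x) (a := N / 2) (b := 5 * N / 2)
    (fun y hy => fK_supp hN0 hy) (fK_contDiff hN0)
  simp only [int_eq hKa hX hN0] at h1 h2
  exact ⟨h1, by rw [KS_eq hN0]; exact h2.tsum_eq.symm⟩

end Pool.Agent.Work.MP_56b8f5_nt.UB
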