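import Pool.Agent.Work.MP_56b8f5_nt.UB.Stmts

/-!
MP_56b8f5_nt, block UB, item Kn: normal form of the kernel.
-/

open MeasureTheory Set Filter Topology

noncomputable section

namespace Pool.Agent.Work.MP_56b8f5_nt.UB

namespace Kn_aux

/-- `g(w) = (cosh(hw) - 1)/(2h²)`, `h = √N/(2X)`. -/
def G (h w : ℝ) : ℝ := (Real.cosh (h * w) - 1) / (2 * h ^ 2)
/-- first derivative -/
def G1 (h w : ℝ) : ℝ := Real.sinh (h * w) / (2 * h)
/-- second derivative -/
def G2 (h w : ℝ) : ℝ := Real.cosh (h * w) / 2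
/-- third derivative -/
def G3 (h w : ℝ) : ℝ := h * Real.sinh (h * w) / 2
/-- fourth derivative -/
def G4 (h w : ℝ) : ℝ := h ^ 2 * Real.cosh (h * w) / 2

lemma hasDerivAt_lin (h w : ℝ) : HasDerivAt (fun y => h * y) h w := by
  simpa using (hasDerivAt_id w).const_mul h

lemma dCosh (h w : ℝ) : HasDerivAt (fun y => Real.cosh (h * y)) (Real.sinh (h * w) * h) w :=
  (Real.hasDerivAt_cosh (h * w)).comp w (hasDerivAt_lin h w)

lemma dSinh (h w : ℝ) : HasDerivAt (fun y => Real.sinh (h * y)) (Real.cosh (h * w) * h) w :=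
  (Real.hasDerivAt_sinh (h * w)).comp w (hasDerivAt_lin h w)

lemma dG {h : ℝ} (hh : 0 < h) (w : ℝ) : HasDerivAt (G h) (G1 h w) w := by
  have h1 : HasDerivAt (G h) (Real.sinh (h * w) * h / (2 * h ^ 2)) w :=
    ((dCosh h w).sub_const 1).div_const (2 * h ^ 2)
  refine h1.congr_deriv ?_
  unfold G1
  field_simp

lemma dG1 {h : ℝ} (hh : 0 < h) (w : ℝ) : HasDerivAt (G1 h) (G2 h w) w := by
  have h1 : HasDerivAt (G1 h) (Real.cosh (h * w) * h / (2 * h)) w := (dSinh h w).div_const (2 * h)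
  refine h1.congr_deriv ?_
  unfold G2
  field_simp

lemma dG2 (h w : ℝ) : HasDerivAt (G2 h) (G3 h w) w := by
  have h1 : HasDerivAt (G2 h) (Real.sinh (h * w) * h / 2) w := (dCosh h w).div_const 2
  refine h1.congr_deriv ?_
  unfold G3
  ring

lemma dG3 (h w : ℝ) : HasDerivAt (G3 h) (G4 h w) w := by
  have h1 : HasDerivAt (G3 h) (h * (Real.cosh (h * w) * h) / 2) w :=
    ((dSinh h w).const_mul h).div_const 2
  refine h1.congr_deriv ?_
  unfold G4
  ring

lemma contG {h : ℝ} (hh : 0 < h) : Continuous (G h) :=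
  continuous_iff_continuousAt.2 fun w => (dG hh w).continuousAt

lemma contG1 {h : ℝ} (hh : 0 < h) : Continuous (G1 h) :=
  continuous_iff_continuousAt.2 fun w => (dG1 hh w).continuousAt

lemma contG2 (h : ℝ) : Continuous (G2 h) :=
  continuous_iff_continuousAt.2 fun w => (dG2 h w).continuousAt

lemma contG3 (h : ℝ) : Continuous (G3 h) :=
  continuous_iff_continuousAt.2 fun w => (dG3 h w).continuousAt

lemma contG4 (h : ℝ) : Continuous (G4 h) := by
  unfold G4
  fun_prop

/-! ### The bump -/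

lemma om_contDiff : ContDiff ℝ 2 om := omB.contDiff

/-- derivative of the bump -/
def om1 (u : ℝ) : ℝ := deriv om u
/-- second derivative of the bump -/
def om2 (u : ℝ) : ℝ := deriv om1 u

lemma om_diff : Differentiable ℝ om := om_contDiff.differentiable (by norm_num)

lemma dom (u : ℝ) : HasDerivAt om (om1 u) u := (om_diff u).hasDerivAt

lemma om1_contDiff : ContDiff ℝ 1 om1 := by
  have h2 : ContDiff ℝ (1 + 1) om := by
    have := om_contDiff
    norm_num
    exact this
  exact (contDiff_succ_iff_deriv.1 h2).2.2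

lemma om1_diff : Differentiable ℝ om1 := om1_contDiff.differentiable (by norm_num)

lemma dom1 (u : ℝ) : HasDerivAt om1 (om2 u) u := (om1_diff u).hasDerivAt

lemma om2_cont : Continuous om2 := om1_contDiff.continuous_deriv (by norm_num)

lemma om1_cont : Continuous om1 := om1_contDiff.continuous

lemma om_cont : Continuous om := om_contDiff.continuous

lemma om_nonneg (u : ℝ) : 0 ≤ om u := omB.nonneg

lemma om_le_one (u : ℝ) : om u ≤ 1 := omB.le_one

lemma om_zero {u : ℝ} (hu : u ≤ 1 / 2 ∨ 5 / 2 ≤ u) : om u = 0 := by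
  apply omB.zero_of_le_dist
  have : omB.rOut = 1 := rfl
  rw [this, Real.dist_eq]
  rcases hu with h | h
  · rw [abs_of_nonpos (by linarith)]; linarith
  · rw [abs_of_nonneg (by linarith)]; linarith

lemma om1_zero {u : ℝ} (hu : u ≤ 1 / 2 ∨ 5 / 2 ≤ u) : om1 u = 0 := by
  have hmin : IsLocalMin om u := by
    refine Filter.Eventually.of_forall fun y => ?_
    rw [om_zero hu]
    exact om_nonneg y
  exact hmin.deriv_eq_zero

lemma om2_zero {u : ℝ} (hu : u < 1 / 2 ∨ 5 / 2 < u) : om2 u = 0 := by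
  have : om1 =ᶠ[𝓝 u] fun _ => (0 : ℝ) := by
    rcases hu with h | h
    · filter_upwards [Iio_mem_nhds h] with y hy
      exact om1_zero (Or.inl (le_of_lt hy))
    · filter_upwards [Ioi_mem_nhds h] with y hy
      exact om1_zero (Or.inr (le_of_lt hy))
  unfold om2
  rw [this.deriv_eq]
  simp

/-- bound for a continuous function that vanishes off `[1/2,5/2]` -/
lemma bdd_of_zero {f : ℝ → ℝ} (hf : Continuous f) (h0 : ∀ u, u < 1 / 2 ∨ 5 / 2 < u → f u = 0) :
    ∃ M : ℝ, 0 ≤ M ∧ ∀ u, |f u| ≤ M := by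
  obtain ⟨M, hM⟩ := (isCompact_Icc (a := (1 / 2 : ℝ)) (b := 5 / 2)).exists_bound_of_continuousOn
    hf.continuousOn
  refine ⟨max M 0, le_max_right _ _, fun u => ?_⟩
  by_cases hu : u ∈ Icc (1 / 2 : ℝ) (5 / 2)
  · exact le_trans (by simpa [Real.norm_eq_abs] using hM u hu) (le_max_left _ _)
  · rw [h0 u]
    · simp
    · rw [mem_Icc, not_and_or, not_le, not_le] at hu
      exact hu

/-! ### The amplitude -/

/-- `κ` -/
def k0 (h w : ℝ) : ℝ := if 0 < w then om (G h w) * G1 h w else 0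
/-- `κ'` -/
def k1 (h w : ℝ) : ℝ := if 0 < w then om1 (G h w) * G1 h w ^ 2 + om (G h w) * G2 h w else 0
/-- `κ''` -/
def k2 (h w : ℝ) : ℝ :=
  if 0 < w then om2 (G h w) * G1 h w ^ 3 + 3 * om1 (G h w) * G1 h w * G2 h w + om (G h w) * G3 h w
  else 0

lemma dk0 {h : ℝ} (hh : 0 < h) {w : ℝ} (hw : 0 < w) : HasDerivAt (k0 h) (k1 h w) w := by
  have h1 : HasDerivAt (fun y => om (G h y)) (om1 (G h w) * G1 h w) w :=
    (dom (G h w)).comp w (dG hh w)
  have h2 := h1.mul (dG1 hh w)
  have h3 : (fun y => om (G h y) * G1 h y) =ᶠ[𝓝 w] k0 h := by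
    filter_upwards [Ioi_mem_nhds hw] with y hy
    simp only [k0, if_pos (mem_Ioi.1 hy)]
  have h4 : HasDerivAt (fun y => om (G h y) * G1 h y)
      (om1 (G h w) * G1 h w * G1 h w + om (G h w) * G2 h w) w := h2
  refine (h4.congr_of_eventuallyEq h3.symm).congr_deriv ?_
  simp only [k1, if_pos hw]
  ring

lemma dk1 {h : ℝ} (hh : 0 < h) {w : ℝ} (hw : 0 < w) : HasDerivAt (k1 h) (k2 h w) w := by
  have a1 : HasDerivAt (fun y => om (G h y)) (om1 (G h w) * G1 h w) w :=
    (dom (G h w)).comp w (dG hh w)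
  have a2 : HasDerivAt (fun y => om1 (G h y)) (om2 (G h w) * G1 h w) w :=
    (dom1 (G h w)).comp w (dG hh w)
  have a3 : HasDerivAt (fun y => G1 h y ^ 2) (2 * G1 h w * G2 h w) w := by
    have h1 : HasDerivAt (fun y => G1 h y ^ 2) _ w := (dG1 hh w).pow 2
    refine h1.congr_deriv ?_
    norm_num
  have a4 : HasDerivAt (fun y => om1 (G h y) * G1 h y ^ 2 + om (G h y) * G2 h y)
      ((om2 (G h w) * G1 h w * G1 h w ^ 2 + om1 (G h w) * (2 * G1 h w * G2 h w)) +
        (om1 (G h w) * G1 h w * G2 h w + om (G h w) * G3 h w)) w :=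
    (a2.mul a3).add (a1.mul (dG2 h w))
  have h3 : (fun y => om1 (G h y) * G1 h y ^ 2 + om (G h y) * G2 h y) =ᶠ[𝓝 w] k1 h := by
    filter_upwards [Ioi_mem_nhds hw] with y hy
    simp only [k1, if_pos (mem_Ioi.1 hy)]
  refine (a4.congr_of_eventuallyEq h3.symm).congr_deriv ?_
  simp only [k2, if_pos hw]
  ring

lemma contk2 {h : ℝ} (hh : 0 < h) : ContinuousOn (k2 h) (Icc (1 / 2 : ℝ) 4) := by
  have h1 : Continuous fun w => om2 (G h w) * G1 h w ^ 3 + 3 * om1 (G h w) * G1 h w * G2 h w +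
      om (G h w) * G3 h w := by
    have e0 := contG hh
    have e1 := contG1 hh
    have e2 := contG2 h
    have e3 := contG3 h
    have f0 := om_cont.comp e0
    have f1 := om1_cont.comp e0
    have f2 := om2_cont.comp e0
    exact ((f2.mul (e1.pow 3)).add (((continuous_const.mul f1).mul e1).mul e2)).add (f0.mul e3)
  refine h1.continuousOn.congr fun w hw => ?_
  have : 0 < w := by linarith [hw.1]
  simp only [k2, if_pos this]

/-! ### Size of `G` -/

lemma cosh_le_two {y : ℝ} (h0 : 0 ≤ y) (h1 : y ≤ 1 / 5) : Real.cosh y ≤ 2 := by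
  have h2 : Real.cosh y ≤ Real.exp (y ^ 2 / 2) := Real.cosh_le_exp_half_sq y
  have h3 : y ^ 2 / 2 ≤ 1 / 2 := by nlinarith
  have h4 : Real.exp (y ^ 2 / 2) ≤ Real.exp (1 / 2) := Real.exp_le_exp.2 h3
  have h5 : Real.exp (1 / 2) ≤ 2 := by
    have := Real.exp_one_lt_d9
    have e : Real.exp (1 / 2) ^ 2 = Real.exp 1 := by
      rw [← Real.exp_nat_mul]; norm_num
    nlinarith [Real.exp_pos (1 / 2)]
  linarith

lemma sinh_le {y : ℝ} (h0 : 0 ≤ y) : Real.sinh y ≤ y * Real.cosh y := by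
  have hder : ∀ x : ℝ, HasDerivAt (fun t => t * Real.cosh t - Real.sinh t) (x * Real.sinh x) x := by
    intro x
    have h1 : HasDerivAt (fun t => t * Real.cosh t - Real.sinh t)
        (1 * Real.cosh x + x * Real.sinh x - Real.cosh x) x :=
      ((hasDerivAt_id x).mul (Real.hasDerivAt_cosh x)).sub (Real.hasDerivAt_sinh x)
    refine h1.congr_deriv ?_
    ring
  have hmono : MonotoneOn (fun t => t * Real.cosh t - Real.sinh t) (Ici 0) := by
    apply monotoneOn_of_deriv_nonneg (convex_Ici 0)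
    · exact (continuous_iff_continuousAt.2 fun x => (hder x).continuousAt).continuousOn
    · intro x _
      exact (hder x).differentiableAt.differentiableWithinAt
    · intro x hx
      rw [interior_Ici] at hx
      rw [(hder x).deriv]
      exact mul_nonneg (le_of_lt hx) (Real.sinh_nonneg_iff.2 (le_of_lt hx))
  have := hmono (mem_Ici.2 le_rfl) (mem_Ici.2 h0) h0
  simp at this
  linarith

lemma G_mono {h : ℝ} (hh : 0 < h) {a b : ℝ} (ha : 0 ≤ a) (hab : a ≤ b) : G h a ≤ G h b := by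
  have h1 : Real.cosh (h * a) ≤ Real.cosh (h * b) := by
    rw [Real.cosh_le_cosh, abs_of_nonneg (by positivity), abs_of_nonneg (mul_nonneg hh.le (ha.trans hab))]
    exact mul_le_mul_of_nonneg_left hab hh.le
  unfold G
  have : 0 < 2 * h ^ 2 := by positivity
  gcongr

lemma cosh_sub_one (y : ℝ) : Real.cosh y - 1 = 2 * Real.sinh (y / 2) ^ 2 := by
  have h1 : Real.cosh y = Real.cosh (2 * (y / 2)) := by ring_nf
  rw [h1, Real.cosh_two_mul]
  have := Real.cosh_sq (y / 2)
  linarith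

lemma G1_nonneg {h : ℝ} (hh : 0 < h) {w : ℝ} (hw : 0 ≤ w) : 0 ≤ G1 h w := by
  unfold G1
  have : 0 ≤ Real.sinh (h * w) := Real.sinh_nonneg_iff.2 (by positivity)
  positivity

lemma G1_sq {h : ℝ} (hh : 0 < h) (w : ℝ) : G1 h w ^ 2 = G h w * (1 + h ^ 2 * G h w) := by
  unfold G1 G
  have h1 : Real.sinh (h * w) ^ 2 = (Real.cosh (h * w) - 1) * (Real.cosh (h * w) + 1) := by
    have := Real.cosh_sq (h * w)
    nlinarith
  rw [div_pow, h1]
  field_simp
  ring

lemma sinh_bd {h w : ℝ} (hh : 0 < h) (hh2 : h ≤ 1 / 20) (h0 : 0 ≤ w) (h4 : w ≤ 4) :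
    Real.cosh (h * w) ≤ 2 ∧ Real.sinh (h * w) ≤ 2 * (h * w) := by
  have hy0 : 0 ≤ h * w := by positivity
  have hy1 : h * w ≤ 1 / 5 := by nlinarith
  have hc := cosh_le_two hy0 hy1
  refine ⟨hc, ?_⟩
  have := sinh_le hy0
  nlinarith

lemma G_half {h : ℝ} (hh : 0 < h) (hh2 : h ≤ 1 / 20) : G h (1 / 2) < 1 / 2 := by
  unfold G
  rw [cosh_sub_one, div_lt_iff₀ (by positivity)]
  have h1 := (sinh_bd (w := 1 / 4) hh hh2 (by norm_num) (by norm_num)).2
  have h0 : 0 ≤ Real.sinh (h * (1 / 4)) := Real.sinh_nonneg_iff.2 (by positivity)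
  have e : h * (1 / 2) / 2 = h * (1 / 4) := by ring
  rw [e]
  have h2 : Real.sinh (h * (1 / 4)) ≤ h / 2 := by linarith
  have h3 : Real.sinh (h * (1 / 4)) ^ 2 ≤ (h / 2) ^ 2 := by gcongr
  nlinarith [sq_pos_of_pos hh]

lemma G_four {h : ℝ} (hh : 0 < h) : 4 ≤ G h 4 := by
  unfold G
  rw [cosh_sub_one, le_div_iff₀ (by positivity)]
  have h1 : h * 4 / 2 ≤ Real.sinh (h * 4 / 2) := Real.self_le_sinh_iff.2 (by positivity)
  have h2 : (h * 4 / 2) ^ 2 ≤ Real.sinh (h * 4 / 2) ^ 2 := by gcongr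
  nlinarith

lemma vv_nonneg {X y : ℝ} (hX : 0 < X) : 0 ≤ vv X y := by
  unfold vv
  have : 0 ≤ Real.arsinh (Real.sqrt y / (2 * X)) := Real.arsinh_nonneg_iff.2 (by positivity)
  positivity

end Kn_aux

open Kn_aux in
theorem iKn (hKa : StKa) : StKn := by
  obtain ⟨M1, hM1, hb1⟩ := bdd_of_zero om1_cont (fun u hu => om1_zero (hu.imp le_of_lt le_of_lt))
  obtain ⟨M2, hM2, hb2⟩ := bdd_of_zero om2_cont (fun u hu => om2_zero hu)
  refine ⟨100, 10 + 16 * M1 + 64 * M2, by norm_num, by linarith, ?_⟩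
  intro X N hN hX hC
  obtain ⟨a1, _, _, _, _, _, _⟩ := hKa X hX
  have hN0 : 0 < N := by linarith
  set r : ℝ := Real.sqrt N with hrdef
  have hr0 : 0 < r := Real.sqrt_pos.2 hN0
  have hrN : r * r = N := Real.mul_self_sqrt hN0.le
  set h : ℝ := r / (2 * X) with hdef
  have hh : 0 < h := by positivity
  have hh2 : h ≤ 1 / 20 := by
    rw [hdef, div_le_iff₀ (by positivity)]
    have : 10 * r ≤ X := by
      apply le_of_sq_le_sq _ hX.le
      nlinarith
    linarith
  have hG : ∀ w, G h w = nn X (r * w) / N := by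
    intro w
    unfold G nn
    rw [hdef, ← hrN]
    have e : r / (2 * X) * w = r * w / (2 * X) := by ring
    rw [e]
    field_simp
  have hG1 : ∀ w, G1 h w = nd X (r * w) / r := by
    intro w
    unfold G1 nd
    rw [hdef]
    have e : r / (2 * X) * w = r * w / (2 * X) := by ring
    rw [e]
    field_simp
  have hGa : G h (vv X (N / 2) / r) = 1 / 2 := by
    rw [hG, mul_div_cancel₀ _ hr0.ne', a1 _ (by positivity)]
    field_simp
  have hGb : G h (vv X (5 / 2 * N) / r) = 5 / 2 := by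
    rw [hG, mul_div_cancel₀ _ hr0.ne', a1 _ (by positivity)]
    field_simp
  have hwa0 : 0 ≤ vv X (N / 2) / r := div_nonneg (vv_nonneg hX) hr0.le
  have hwb0 : 0 ≤ vv X (5 / 2 * N) / r := div_nonneg (vv_nonneg hX) hr0.le
  set wa : ℝ := vv X (N / 2) / r with hwa
  set wb : ℝ := vv X (5 / 2 * N) / r with hwb
  have w1 : 1 / 2 < wa := by
    by_contra hcon
    push Not at hcon
    have := G_mono hh hwa0 hcon
    have := G_half hh hh2
    linarith
  have w2 : wa < wb := by
    by_contra hcon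
    push Not at hcon
    have := G_mono hh hwb0 hcon
    linarith
  have w3 : wb < 4 := by
    by_contra hcon
    push Not at hcon
    have := G_mono hh (by norm_num) hcon
    have := G_four hh
    linarith
  have hvan : ∀ w : ℝ, w ∉ Ioo wa wb → k0 h w = 0 ∧ k1 h w = 0 := by
    intro w hw
    unfold k0 k1
    by_cases hw0 : 0 < w
    · rw [if_pos hw0, if_pos hw0]
      have hu : G h w ≤ 1 / 2 ∨ 5 / 2 ≤ G h w := by
        rw [mem_Ioo, not_and_or, not_lt, not_lt] at hw
        rcases hw with hw | hw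
        · left
          rw [← hGa]
          exact G_mono hh hw0.le hw
        · right
          rw [← hGb]
          exact G_mono hh hwb0 hw
      rw [om_zero hu, om1_zero hu]
      constructor <;> ring
    · rw [if_neg hw0, if_neg hw0]
      exact ⟨rfl, rfl⟩
  refine ⟨k0 h, k1 h, k2 h, G h, G1 h, G2 h, G3 h, G4 h, wa, wb, ?_, contk2 hh,
    (contG4 h).continuousOn, w1, w2, w3, hvan, ?_, ?_, ?_⟩
  · intro w hw
    have hw0 : 0 < w := by linarith [hw.1]
    exact ⟨dk0 hh hw0, dk1 hh hw0, dG hh w, dG1 hh w, dG2 h w, dG3 h w⟩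
  · intro w hw
    have hw0 : 0 < w := by linarith [hw.1]
    obtain ⟨c1, s1⟩ := sinh_bd hh hh2 hw0.le hw.2
    have s0 : 0 ≤ Real.sinh (h * w) := Real.sinh_nonneg_iff.2 (by positivity)
    have c0 : 1 ≤ Real.cosh (h * w) := Real.one_le_cosh _
    have b1 : |G1 h w| ≤ 4 := by
      rw [abs_of_nonneg (G1_nonneg hh hw0.le)]
      unfold G1
      rw [div_le_iff₀ (by positivity)]
      nlinarith [hw.2]
    have b2 : |G2 h w| ≤ 1 := by
      unfold G2
      rw [abs_of_nonneg (by positivity)]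
      linarith
    have b3 : |G3 h w| ≤ 1 := by
      unfold G3
      rw [abs_of_nonneg (by positivity)]
      have : Real.sinh (h * w) ≤ 1 := by nlinarith [hw.2]
      nlinarith
    have b4 : |G4 h w| ≤ 1 := by
      unfold G4
      rw [abs_of_nonneg (by positivity)]
      have : h ^ 2 ≤ 1 := by nlinarith
      nlinarith [sq_nonneg h]
    have bo : |om (G h w)| ≤ 1 := by
      rw [abs_of_nonneg (om_nonneg _)]
      exact om_le_one _
    have bo1 := hb1 (G h w)
    have bo2 := hb2 (G h w)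
    refine ⟨?_, ?_, ?_, ?_, ?_, ?_, ?_, hG1 w⟩
    · rw [k0, if_pos hw0, abs_mul]
      have : |om (G h w)| * |G1 h w| ≤ 1 * 4 := by gcongr
      linarith
    · rw [k1, if_pos hw0]
      refine (abs_add_le _ _).trans ?_
      rw [abs_mul, abs_mul, abs_pow]
      have t1 : |om1 (G h w)| * |G1 h w| ^ 2 ≤ M1 * 4 ^ 2 := by gcongr
      have t2 : |om (G h w)| * |G2 h w| ≤ 1 * 1 := by gcongr
      linarith
    · rw [k2, if_pos hw0]
      refine (abs_add_le _ _).trans ?_
      refine (add_le_add_left (abs_add_le _ _) _).trans ?_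
      rw [abs_mul, abs_mul, abs_mul, abs_mul, abs_mul, abs_pow]
      have t1 : |om2 (G h w)| * |G1 h w| ^ 3 ≤ M2 * 4 ^ 3 := by gcongr
      have t2 : |(3 : ℝ)| * |om1 (G h w)| * |G1 h w| * |G2 h w| ≤ 3 * M1 * 4 * 1 := by
        rw [abs_of_nonneg (by norm_num : (0 : ℝ) ≤ 3)]
        gcongr
      have t3 : |om (G h w)| * |G3 h w| ≤ 1 * 1 := by gcongr
      linarith
    · have : (1 : ℝ) / (10 + 16 * M1 + 64 * M2) ≤ 1 / 2 := by
        apply one_div_le_one_div_of_le <;> linarith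
      refine this.trans ?_
      unfold G2
      linarith
    · have := le_abs_self (G2 h w)
      linarith
    · linarith
    · linarith
  · intro w hw
    have hw0 : 0 ≤ w := by linarith [hw.1]
    have g1 : 1 / 2 ≤ G h w := by
      rw [← hGa]; exact G_mono hh hwa0 hw.1
    have g2 : G h w ≤ 5 / 2 := by
      rw [← hGb]; exact G_mono hh hw0 hw.2
    have hsq := G1_sq hh w
    have hn := G1_nonneg hh hw0
    have hhs : h ^ 2 ≤ (1 / 20) ^ 2 := by gcongr
    have hhs0 : 0 ≤ h ^ 2 := by positivity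
    have hg0 : 0 ≤ G h w := by linarith
    have e0 : 0 ≤ h ^ 2 * G h w := mul_nonneg hhs0 hg0
    have e1 : h ^ 2 * G h w ≤ (1 / 20) ^ 2 * (5 / 2) := mul_le_mul hhs g2 hg0 (by norm_num)
    constructor
    · apply le_of_sq_le_sq _ hn
      rw [hsq]
      have e2 : 1 / 2 * 1 ≤ G h w * (1 + h ^ 2 * G h w) :=
        mul_le_mul g1 (by linarith) (by norm_num) hg0
      refine le_trans ?_ e2
      norm_num
    · apply le_of_sq_le_sq _ (by norm_num)
      rw [hsq]
      have e2 : G h w * (1 + h ^ 2 * G h w) ≤ 5 / 2 * (1 + (1 / 20) ^ 2 * (5 / 2)) :=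
        mul_le_mul g2 (by linarith) (by linarith) (by norm_num)
      refine e2.trans ?_
      norm_num
  · intro m x
    unfold KK
    set F : ℝ → ℂ := fun v => (kap X N v : ℂ) * ee (x * v - m * nn X v) with hF
    set Q : ℝ → ℂ := fun w => (k0 h w : ℂ) * ee (x * r * w - m * N * G h w) with hQ
    have e1 := integral_comp_mul_left_Ioi F 0 hr0
    rw [mul_zero] at e1
    have e2 : ∫ w in Ioi (0 : ℝ), F (r * w) = ∫ w in Ioi (0 : ℝ), (r : ℂ) * Q w := by
      apply setIntegral_congr_fun measurableSet_Ioi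
      intro w hw
      simp only [hF, hQ, kap, k0, if_pos (mem_Ioi.1 hw)]
      rw [← hG w]
      have e3 : nd X (r * w) = r * G1 h w := by
        rw [hG1]; field_simp
      have e4 : x * (r * w) - m * nn X (r * w) = x * r * w - m * N * G h w := by
        rw [hG]; field_simp
      rw [e3, e4]
      push_cast
      ring
    have e5 : ∫ w in Ioi (0 : ℝ), (r : ℂ) * Q w = (r : ℂ) * ∫ w in Ioi (0 : ℝ), Q w :=
      integral_const_mul _ _
    have e6 : ∫ w in Ioi (0 : ℝ), Q w = ∫ w in (1 / 2 : ℝ)..4, Q w := by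
      rw [intervalIntegral.integral_of_le (by norm_num)]
      apply setIntegral_eq_of_subset_of_forall_sdiff_eq_zero measurableSet_Ioi
      · intro w hw
        exact mem_Ioi.2 (by linarith [hw.1])
      · intro w hw
        have : w ∉ Ioo wa wb := by
          intro hw2
          apply hw.2
          exact ⟨by linarith [hw2.1], by linarith [hw2.2]⟩
        simp only [hQ, (hvan w this).1]
        simp
    have e7 : ∫ v in Ioi (0 : ℝ), F v = (r : ℂ) * ∫ w in Ioi (0 : ℝ), F (r * w) := by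
      rw [e1, Complex.real_smul]
      rw [← mul_assoc]
      have : (r : ℂ) * ((r⁻¹ : ℝ) : ℂ) = 1 := by
        rw [← Complex.ofReal_mul, mul_inv_cancel₀ hr0.ne', Complex.ofReal_one]
      rw [this, one_mul]
    rw [e7, e2, e5, e6, ← mul_assoc, ← Complex.ofReal_mul, hrN]

end Pool.Agent.Work.MP_56b8f5_nt.UB
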