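import Pool.Agent.Work.MP_56b8f5_nt.UB.Stmts

/-!
MP_56b8f5_nt, block UB, item LV: the large value theorem from (UP) and (DOWN).
-/

open MeasureTheory Set Filter Topology

noncomputable section

namespace Pool.Agent.Work.MP_56b8f5_nt.UB

namespace LV_aux

/-- a measurable subset of prescribed smaller measure -/
theorem exists_sub (W : Set ℝ) (L B : ℝ) (hW : MeasurableSet W) (hL : 0 ≤ L) (hs : W ⊆ Icc 0 L)
    (hB : 0 < B) (hR : B ≤ Rr W) : ∃ W' : Set ℝ, MeasurableSet W' ∧ W' ⊆ W ∧ Rr W' = B := by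
  classical
  set g : ℝ → ℝ := W.indicator (fun _ => (1 : ℝ)) with hg
  have hfin : volume W ≠ ⊤ := by
    refine ne_top_of_le_ne_top ?_ (measure_mono hs)
    simp
  have hgi : Integrable g := by
    rw [hg, integrable_indicator_iff hW]
    exact integrableOn_const hfin
  have hval : ∀ y : ℝ, 0 ≤ y → ∫ x in (0 : ℝ)..y, g x = Rr (W ∩ Ioc 0 y) := by
    intro y hy
    rw [intervalIntegral.integral_of_le hy, hg, integral_indicator hW,
      Measure.restrict_restrict hW]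
    simp [Rr, Measure.real]
  have hc : Continuous fun y => ∫ x in (0 : ℝ)..y, g x :=
    intervalIntegral.continuous_primitive (fun a b => hgi.intervalIntegrable) 0
  have h0 : (∫ x in (0 : ℝ)..(0 : ℝ), g x) ≤ B := by
    rw [intervalIntegral.integral_same]; exact hB.le
  have hLv : B ≤ ∫ x in (0 : ℝ)..L, g x := by
    rw [hval L hL]
    have : Rr W = Rr (W ∩ Ioc 0 L) := by
      unfold Rr
      congr 1
      have hae : (W ∩ Ioc 0 L : Set ℝ) =ᵐ[volume] W := by
        have h1 : (Ioc 0 L : Set ℝ) =ᵐ[volume] Icc 0 L := Ioc_ae_eq_Icc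
        have h2 : (W ∩ Ioc 0 L : Set ℝ) =ᵐ[volume] (W ∩ Icc 0 L : Set ℝ) :=
          (ae_eq_refl _).inter h1
        rwa [inter_eq_left.mpr hs] at h2
      exact (measure_congr hae).symm
    rw [← this]; exact hR
  obtain ⟨y, hy, hyB⟩ := intermediate_value_Icc hL hc.continuousOn ⟨h0, hLv⟩
  refine ⟨W ∩ Ioc 0 y, hW.inter measurableSet_Ioc, inter_subset_left, ?_⟩
  rw [← hval y hy.1]
  exact hyB

end LV_aux

theorem iLV (hE2 : StE2) (hDN : StDN) : StLV := by
  obtain ⟨C1, hC1, h1⟩ := hE2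
  obtain ⟨C2, hC2, h2⟩ := hDN
  have hC1p : (0 : ℝ) ≤ C1 := by linarith
  have hC2p : (0 : ℝ) ≤ C2 := by linarith
  have ha : 0 ≤ C1 ^ 2 * C2 ^ 4 := by positivity
  have hb : 0 ≤ C2 ^ 4 := by positivity
  refine ⟨64 * (C1 ^ 2 * C2 ^ 4) + 16 * C2 ^ 4 + 2 * C2 + C1 + C2 + 1, by linarith, ?_⟩
  intro X N M V B a W hN hX hCX hM hV hCV hB hMB hc1 hc2 hc3 han hW hWs hWV
  set C := 64 * (C1 ^ 2 * C2 ^ 4) + 16 * C2 ^ 4 + 2 * C2 + C1 + C2 + 1 with hC
  by_contra hcon
  push Not at hcon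
  have hNp : (0 : ℝ) < N := by linarith
  have hMp : (0 : ℝ) < M := by linarith
  have hsN : 0 < Real.sqrt N := Real.sqrt_pos.2 hNp
  have hsq : Real.sqrt N * Real.sqrt N = N := Real.mul_self_sqrt hNp.le
  have hL : 0 ≤ M * Real.sqrt N := by positivity
  obtain ⟨W', hW', hsub, hRB⟩ := LV_aux.exists_sub W _ B hW hL hWs hB hcon
  have hCN1 : C1 * N ≤ X ^ 2 := by
    refine le_trans (mul_le_mul_of_nonneg_right ?_ hNp.le) hCX
    rw [hC]; linarith
  have hCN2 : C2 * N ≤ X ^ 2 := by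
    refine le_trans (mul_le_mul_of_nonneg_right ?_ hNp.le) hCX
    rw [hC]; linarith
  have hCV2 : C2 ≤ V ^ 2 := by
    refine le_trans ?_ hCV
    rw [hC]; linarith
  have hup := h1 X N M V a W' hN hX hCN1 hM hV.le han hW' (hsub.trans hWs)
    (fun x hx => hWV x (hsub hx))
  have hdn := h2 X N M V a W' hN hX hCN2 hM hV hCV2 han hW' (hsub.trans hWs)
    (fun x hx => hWV x (hsub hx))
  rw [hRB] at hup hdn
  set E := (EE W').toReal with hE
  have hE0 : 0 ≤ E := ENNReal.toReal_nonneg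
  have hLg : 0 < Lg X N M := by
    unfold Lg
    have : 0 < Real.log (2 + M * N) := Real.log_pos (by nlinarith [mul_pos hMp hNp])
    have h' : 0 ≤ Real.sqrt M * N / X := by positivity
    linarith
  set G := Lg X N M with hG
  -- (UP) squared
  have hA : N * M * B ^ 2 ≤ N * Real.sqrt N * B := by
    have : N * M * B ^ 2 = N * B * (M * B) := by ring
    rw [this]
    have : N * Real.sqrt N * B = N * B * Real.sqrt N := by ring
    rw [this]
    exact mul_le_mul_of_nonneg_left hMB (by positivity)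
  have hup2 : V ^ 4 * E ^ 2 ≤ C1 ^ 2 * (2 * (N * Real.sqrt N * B)) *
      (N * Real.sqrt N * E + N * M * B ^ 4) := by
    have hu : V ^ 2 * E ≤ C1 * Real.sqrt (2 * (N * Real.sqrt N * B)) *
        Real.sqrt (N * Real.sqrt N * E + N * M * B ^ 4) := by
      refine hup.trans ?_
      refine mul_le_mul_of_nonneg_right ?_ (Real.sqrt_nonneg _)
      refine mul_le_mul_of_nonneg_left ?_ hC1p
      exact Real.sqrt_le_sqrt (by linarith)
    have h0 : 0 ≤ V ^ 2 * E := by positivity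
    have := mul_self_le_mul_self h0 hu
    have e1 : V ^ 2 * E * (V ^ 2 * E) = V ^ 4 * E ^ 2 := by ring
    rw [e1] at this
    refine this.trans (le_of_eq ?_)
    have s1 : Real.sqrt (2 * (N * Real.sqrt N * B)) * Real.sqrt (2 * (N * Real.sqrt N * B)) =
      2 * (N * Real.sqrt N * B) := Real.mul_self_sqrt (by positivity)
    have s2 : Real.sqrt (N * Real.sqrt N * E + N * M * B ^ 4) *
      Real.sqrt (N * Real.sqrt N * E + N * M * B ^ 4) =
      N * Real.sqrt N * E + N * M * B ^ 4 := Real.mul_self_sqrt (by positivity)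
    calc _ = C1 ^ 2 * (Real.sqrt (2 * (N * Real.sqrt N * B)) *
          Real.sqrt (2 * (N * Real.sqrt N * B))) *
          (Real.sqrt (N * Real.sqrt N * E + N * M * B ^ 4) *
          Real.sqrt (N * Real.sqrt N * E + N * M * B ^ 4)) := by ring
      _ = _ := by rw [s1, s2]
  -- (DOWN) to the fourth power
  set Y := N ^ 6 * M ^ 3 * G * B ^ 3 * E with hY
  have hY0 : 0 ≤ Y := by positivity
  have hd1 : V ^ 2 * B ^ 2 ≤ 2 * (C2 * Y ^ (1 / 4 : ℝ)) := by
    have hx : 2 * C2 * (N * Real.sqrt N) ≤ V ^ 2 * B := by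
      refine le_trans (mul_le_mul_of_nonneg_right ?_ (by positivity)) hc1
      rw [hC]; linarith
    have hx2 : C2 * (N * Real.sqrt N * B) ≤ V ^ 2 * B ^ 2 / 2 := by
      nlinarith [mul_le_mul_of_nonneg_right hx hB.le]
    rw [mul_add] at hdn
    linarith
  have hd2 : V ^ 8 * B ^ 8 ≤ 16 * C2 ^ 4 * Y := by
    have hr : (Y ^ (1 / 4 : ℝ)) ^ 4 = Y := by
      rw [← Real.rpow_natCast, ← Real.rpow_mul hY0]
      norm_num
    have := pow_le_pow_left₀ (by positivity) hd1 4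
    calc V ^ 8 * B ^ 8 = (V ^ 2 * B ^ 2) ^ 4 := by ring
      _ ≤ _ := this
      _ = 16 * C2 ^ 4 * (Y ^ (1 / 4 : ℝ)) ^ 4 := by ring
      _ = _ := by rw [hr]
  rcases le_total (N * M * B ^ 4) (N * Real.sqrt N * E) with hcase | hcase
  · -- first case
    have hE1 : V ^ 4 * E ≤ 4 * C1 ^ 2 * N ^ 3 * B := by
      rcases eq_or_lt_of_le hE0 with h0 | h0
      · rw [← h0, mul_zero]; positivity
      · have hz : V ^ 4 * E ^ 2 ≤ 4 * C1 ^ 2 * N ^ 3 * B * E := by
          calc V ^ 4 * E ^ 2 ≤ _ := hup2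
            _ ≤ C1 ^ 2 * (2 * (N * Real.sqrt N * B)) * (2 * (N * Real.sqrt N * E)) := by
                refine mul_le_mul_of_nonneg_left ?_ (by positivity)
                linarith
            _ = 4 * C1 ^ 2 * N ^ 2 * (Real.sqrt N * Real.sqrt N) * B * E := by ring
            _ = _ := by rw [hsq]; ring
        have : V ^ 4 * E * E ≤ 4 * C1 ^ 2 * N ^ 3 * B * E := by
          calc V ^ 4 * E * E = V ^ 4 * E ^ 2 := by ring
            _ ≤ _ := hz
        exact le_of_mul_le_mul_right this h0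
    have hfin : V ^ 12 * B ^ 4 ≤ 64 * (C1 ^ 2 * C2 ^ 4) * (N ^ 9 * M ^ 3 * G) := by
      have hz : V ^ 12 * B ^ 4 * B ^ 4 ≤ 64 * (C1 ^ 2 * C2 ^ 4) * (N ^ 9 * M ^ 3 * G) * B ^ 4 := by
        calc V ^ 12 * B ^ 4 * B ^ 4 = V ^ 4 * (V ^ 8 * B ^ 8) := by ring
          _ ≤ V ^ 4 * (16 * C2 ^ 4 * Y) := mul_le_mul_of_nonneg_left hd2 (by positivity)
          _ = 16 * C2 ^ 4 * (N ^ 6 * M ^ 3 * G * B ^ 3) * (V ^ 4 * E) := by rw [hY]; ring
          _ ≤ 16 * C2 ^ 4 * (N ^ 6 * M ^ 3 * G * B ^ 3) * (4 * C1 ^ 2 * N ^ 3 * B) :=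
              mul_le_mul_of_nonneg_left hE1 (by positivity)
          _ = _ := by ring
      exact le_of_mul_le_mul_right hz (by positivity)
    have hQ : 0 < N ^ 9 * M ^ 3 * G := by positivity
    have : 64 * (C1 ^ 2 * C2 ^ 4) * (N ^ 9 * M ^ 3 * G) < C * (N ^ 9 * M ^ 3 * G) :=
      mul_lt_mul_of_pos_right (by rw [hC]; linarith) hQ
    linarith
  · -- second case
    have hE2' : Real.sqrt N * E ≤ M * B ^ 4 := by
      have : N * (Real.sqrt N * E) ≤ N * (M * B ^ 4) := by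
        calc _ = N * Real.sqrt N * E := by ring
          _ ≤ _ := hcase
          _ = _ := by ring
      exact le_of_mul_le_mul_left this hNp
    have hfin : V ^ 8 * B ≤ 16 * C2 ^ 4 * (N ^ 5 * Real.sqrt N * M ^ 4 * G) := by
      have hz : V ^ 8 * B * B ^ 7 ≤ 16 * C2 ^ 4 * (N ^ 5 * Real.sqrt N * M ^ 4 * G) * B ^ 7 := by
        calc V ^ 8 * B * B ^ 7 = V ^ 8 * B ^ 8 := by ring
          _ ≤ 16 * C2 ^ 4 * Y := hd2
          _ = 16 * C2 ^ 4 * (N ^ 5 * (N) * M ^ 3 * G * B ^ 3 * E) := by rw [hY]; ring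
          _ = 16 * C2 ^ 4 * (N ^ 5 * Real.sqrt N * M ^ 3 * G * B ^ 3) * (Real.sqrt N * E) := by
              nth_rw 2 [← hsq]; ring
          _ ≤ 16 * C2 ^ 4 * (N ^ 5 * Real.sqrt N * M ^ 3 * G * B ^ 3) * (M * B ^ 4) :=
              mul_le_mul_of_nonneg_left hE2' (by positivity)
          _ = _ := by ring
      exact le_of_mul_le_mul_right hz (by positivity)
    have hQ : 0 < N ^ 5 * Real.sqrt N * M ^ 4 * G := by positivity
    have : 16 * C2 ^ 4 * (N ^ 5 * Real.sqrt N * M ^ 4 * G) <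
        C * (N ^ 5 * Real.sqrt N * M ^ 4 * G) :=
      mul_lt_mul_of_pos_right (by rw [hC]; linarith) hQ
    linarith

end Pool.Agent.Work.MP_56b8f5_nt.UB
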