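import Pool.Agent.Work.MP_56b8f5_nt.UB.Stmts

/-!
MP_56b8f5_nt, block UB, item Ln: linearisation of the phase `FF n` in `ξ = √s`.
-/

open MeasureTheory Set Filter Topology

noncomputable section

namespace Pool.Agent.Work.MP_56b8f5_nt.UB

namespace Ln_aux

/-- bounds for `arsinh` from the mean value theorem -/
lemma arsinh_bounds (z : ℝ) (hz : 0 < z) :
    z / Real.sqrt (1 + z ^ 2) ≤ Real.arsinh z ∧ Real.arsinh z ≤ z := by
  have hcont : ContinuousOn Real.arsinh (Icc 0 z) := Real.continuous_arsinh.continuousOn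
  have hder : ∀ y ∈ Ioo 0 z, HasDerivAt Real.arsinh ((Real.sqrt (1 + y ^ 2))⁻¹) y :=
    fun y _ => Real.hasDerivAt_arsinh y
  obtain ⟨c, hc, hc2⟩ := exists_hasDerivAt_eq_slope Real.arsinh _ hz hcont hder
  rw [Real.arsinh_zero, sub_zero, sub_zero] at hc2
  have h1 : Real.arsinh z = z * (Real.sqrt (1 + c ^ 2))⁻¹ := by
    rw [hc2]; field_simp
  have hcpos : 0 < Real.sqrt (1 + c ^ 2) := Real.sqrt_pos.mpr (by positivity)
  have hle : Real.sqrt (1 + c ^ 2) ≤ Real.sqrt (1 + z ^ 2) := by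
    apply Real.sqrt_le_sqrt
    have := hc.1; have := hc.2
    nlinarith
  have h1le : 1 ≤ Real.sqrt (1 + c ^ 2) := by
    rw [show (1 : ℝ) = Real.sqrt 1 by simp]
    apply Real.sqrt_le_sqrt
    simp only [Real.sqrt_one]
    nlinarith [sq_nonneg c]
  constructor
  · rw [h1, div_eq_mul_inv]
    apply mul_le_mul_of_nonneg_left _ hz.le
    exact inv_anti₀ hcpos hle
  · rw [h1]
    have : (Real.sqrt (1 + c ^ 2))⁻¹ ≤ 1 := inv_le_one_of_one_le₀ h1le
    nlinarith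

/-- `0 ≤ arsinh z - z/√(1+z²) ≤ z³` -/
lemma second_bounds (z : ℝ) (hz : 0 < z) :
    |4 * Real.arsinh z - 4 * (z / Real.sqrt (1 + z ^ 2))| ≤ 4 * z ^ 3 := by
  obtain ⟨h1, h2⟩ := arsinh_bounds z hz
  rw [abs_of_nonneg (by linarith)]
  have hs : 0 < Real.sqrt (1 + z ^ 2) := Real.sqrt_pos.mpr (by positivity)
  have hs2 : Real.sqrt (1 + z ^ 2) ≤ 1 + z ^ 2 := by
    rw [Real.sqrt_le_left (by positivity)]
    nlinarith [sq_nonneg z]
  have h3 : z - z ^ 3 ≤ z / Real.sqrt (1 + z ^ 2) := by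
    rw [le_div_iff₀ hs]
    by_cases hz1 : z ≤ 1
    · have h4 : 0 ≤ z - z ^ 3 := by
        have : z ^ 2 ≤ 1 := by nlinarith
        nlinarith
      calc (z - z ^ 3) * Real.sqrt (1 + z ^ 2) ≤ (z - z ^ 3) * (1 + z ^ 2) :=
            mul_le_mul_of_nonneg_left hs2 h4
        _ = z - z ^ 5 := by ring
        _ ≤ z := by
          have : 0 < z ^ 5 := by positivity
          linarith
    · push Not at hz1
      have h4 : z - z ^ 3 ≤ 0 := by
        have : 1 ≤ z ^ 2 := by nlinarith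
        nlinarith
      nlinarith
  linarith

/-- the function `G(ξ) = FF n (ξ²)` -/
def G (n ξ : ℝ) : ℝ := 2 * ξ ^ 2 * Real.arsinh (Real.sqrt n / (2 * ξ)) +
  Real.sqrt n * Real.sqrt (ξ ^ 2 + n / 4)

lemma FF_eq (n ξ : ℝ) (hn : 0 < n) (hξ : 0 < ξ) : FF n (ξ ^ 2) = G n ξ := by
  unfold FF ls cth G
  rw [Real.sqrt_sq hξ.le]
  have hsn : 0 < Real.sqrt n := Real.sqrt_pos.mpr hn
  have hz : 0 < Real.sqrt n / (2 * ξ) := by positivity
  have e1 : 2 * Real.arsinh (Real.sqrt n / (2 * ξ)) / 2 = Real.arsinh (Real.sqrt n / (2 * ξ)) := by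
    ring
  rw [e1, Real.sinh_arsinh, Real.cosh_arsinh]
  have hnn : Real.sqrt n ^ 2 = n := Real.sq_sqrt hn.le
  have e2 : Real.sqrt (ξ ^ 2 + n / 4) = ξ * Real.sqrt (1 + (Real.sqrt n / (2 * ξ)) ^ 2) := by
    have : ξ ^ 2 + n / 4 = ξ ^ 2 * (1 + (Real.sqrt n / (2 * ξ)) ^ 2) := by
      rw [div_pow, hnn]; field_simp; ring
    rw [this, Real.sqrt_mul (by positivity), Real.sqrt_sq hξ.le]
  rw [e2]
  have e3 : n / 2 * (Real.sqrt (1 + (Real.sqrt n / (2 * ξ)) ^ 2) / (Real.sqrt n / (2 * ξ))) =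
      Real.sqrt n * (ξ * Real.sqrt (1 + (Real.sqrt n / (2 * ξ)) ^ 2)) := by
    have : n / 2 / (Real.sqrt n / (2 * ξ)) = Real.sqrt n * ξ := by
      rw [div_div_eq_mul_div, div_eq_iff hsn.ne']
      nlinarith
    calc n / 2 * (Real.sqrt (1 + (Real.sqrt n / (2 * ξ)) ^ 2) / (Real.sqrt n / (2 * ξ)))
        = (n / 2 / (Real.sqrt n / (2 * ξ))) * Real.sqrt (1 + (Real.sqrt n / (2 * ξ)) ^ 2) := by ring
      _ = _ := by rw [this]; ring
  rw [e3]
  ring

lemma hasDerivAt_z (n ξ : ℝ) (hξ : 0 < ξ) :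
    HasDerivAt (fun t : ℝ => Real.sqrt n / (2 * t)) (-(Real.sqrt n / (2 * ξ ^ 2))) ξ := by
  have h1 : HasDerivAt (fun t : ℝ => 2 * t) 2 ξ := by
    simpa using (hasDerivAt_id ξ).const_mul (2 : ℝ)
  have h2 := (hasDerivAt_const ξ (Real.sqrt n)).div h1 (by positivity)
  refine HasDerivAt.congr_deriv (f := fun t : ℝ => Real.sqrt n / (2 * t)) h2 ?_
  field_simp
  ring

lemma hasDerivAt_arsinh_z (n ξ : ℝ) (hξ : 0 < ξ) :
    HasDerivAt (fun t : ℝ => Real.arsinh (Real.sqrt n / (2 * t)))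
      ((Real.sqrt (1 + (Real.sqrt n / (2 * ξ)) ^ 2))⁻¹ * (-(Real.sqrt n / (2 * ξ ^ 2)))) ξ :=
  HasDerivAt.comp (h₂ := Real.arsinh) (h := fun t : ℝ => Real.sqrt n / (2 * t)) ξ
    (Real.hasDerivAt_arsinh (Real.sqrt n / (2 * ξ))) (hasDerivAt_z n ξ hξ)

lemma sqrt_rel (n ξ : ℝ) (hn : 0 < n) (hξ : 0 < ξ) :
    Real.sqrt (ξ ^ 2 + n / 4) = ξ * Real.sqrt (1 + (Real.sqrt n / (2 * ξ)) ^ 2) := by
  have hnn : Real.sqrt n ^ 2 = n := Real.sq_sqrt hn.le
  have : ξ ^ 2 + n / 4 = ξ ^ 2 * (1 + (Real.sqrt n / (2 * ξ)) ^ 2) := by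
    rw [div_pow, hnn]; field_simp; ring
  rw [this, Real.sqrt_mul (by positivity), Real.sqrt_sq hξ.le]

lemma hasDerivAt_G (n ξ : ℝ) (hn : 0 < n) (hξ : 0 < ξ) : HasDerivAt (G n) (vv ξ n) ξ := by
  have hs : 0 < Real.sqrt (1 + (Real.sqrt n / (2 * ξ)) ^ 2) := Real.sqrt_pos.mpr (by positivity)
  have h1 : HasDerivAt (fun t : ℝ => 2 * t ^ 2) (4 * ξ) ξ := by
    have := (hasDerivAt_pow 2 ξ).const_mul (2 : ℝ)
    refine HasDerivAt.congr_deriv (f := fun t : ℝ => 2 * t ^ 2) this ?_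
    norm_num; ring
  have h2 := h1.mul (hasDerivAt_arsinh_z n ξ hξ)
  have h3 : HasDerivAt (fun t : ℝ => t ^ 2 + n / 4) (2 * ξ) ξ := by
    have := (hasDerivAt_pow 2 ξ).add_const (n / 4)
    refine HasDerivAt.congr_deriv (f := fun t : ℝ => t ^ 2 + n / 4) this ?_
    norm_num
  have h4 := (h3.sqrt (by positivity)).const_mul (Real.sqrt n)
  have h5 := h2.add h4
  refine HasDerivAt.congr_deriv (f := G n) h5 ?_
  rw [sqrt_rel n ξ hn hξ]
  unfold vv
  field_simp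
  ring

lemma hasDerivAt_vv (n ξ : ℝ) (hξ : 0 < ξ) :
    HasDerivAt (fun t => vv t n) (4 * Real.arsinh (Real.sqrt n / (2 * ξ)) -
      4 * ((Real.sqrt n / (2 * ξ)) / Real.sqrt (1 + (Real.sqrt n / (2 * ξ)) ^ 2))) ξ := by
  have hs : 0 < Real.sqrt (1 + (Real.sqrt n / (2 * ξ)) ^ 2) := Real.sqrt_pos.mpr (by positivity)
  have h1 : HasDerivAt (fun t : ℝ => 4 * t) 4 ξ := by
    simpa using (hasDerivAt_id ξ).const_mul (4 : ℝ)
  have h2 := h1.mul (hasDerivAt_arsinh_z n ξ hξ)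
  refine HasDerivAt.congr_deriv (f := fun t => vv t n) h2 ?_
  field_simp
  ring

end Ln_aux

open Ln_aux in
/-- ITEM Ln. -/
theorem iLn : StLn := by
  intro X x n hX hx hn
  rcases hx.eq_or_lt with rfl | hx0
  · simp
  have hXx : 0 < X + x := by linarith
  rw [FF_eq n (X + x) hn hXx, FF_eq n X hn hX]
  have hlt : X < X + x := by linarith
  have hpos : ∀ t ∈ Icc X (X + x), 0 < t := fun t ht => lt_of_lt_of_le hX ht.1
  obtain ⟨c, hc, hc2⟩ := exists_hasDerivAt_eq_slope (G n) (fun t => vv t n) hlt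
    (fun t ht => (hasDerivAt_G n t hn (hpos t ht)).continuousAt.continuousWithinAt)
    (fun t ht => hasDerivAt_G n t hn (hpos t (Ioo_subset_Icc_self ht)))
  have e1 : G n (X + x) - G n X = x * vv c n := by
    have : X + x - X = x := by ring
    rw [this] at hc2
    rw [hc2]; field_simp
  have hXc : X < c := hc.1
  have hposc : ∀ t ∈ Icc X c, 0 < t := fun t ht => lt_of_lt_of_le hX ht.1
  obtain ⟨d, hd, hd2⟩ := exists_hasDerivAt_eq_slope (fun t => vv t n)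
    (fun ξ => 4 * Real.arsinh (Real.sqrt n / (2 * ξ)) -
      4 * ((Real.sqrt n / (2 * ξ)) / Real.sqrt (1 + (Real.sqrt n / (2 * ξ)) ^ 2))) hXc
    (fun t ht => (hasDerivAt_vv n t (hposc t ht)).continuousAt.continuousWithinAt)
    (fun t ht => hasDerivAt_vv n t (hposc t (Ioo_subset_Icc_self ht)))
  have hdpos : 0 < d := hposc d (Ioo_subset_Icc_self hd)
  have hcX : 0 < c - X := by linarith
  have e2 : vv c n - vv X n = (c - X) * (4 * Real.arsinh (Real.sqrt n / (2 * d)) -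
      4 * ((Real.sqrt n / (2 * d)) / Real.sqrt (1 + (Real.sqrt n / (2 * d)) ^ 2))) := by
    rw [hd2]; field_simp
  have hsn : 0 < Real.sqrt n := Real.sqrt_pos.mpr hn
  have hz : 0 < Real.sqrt n / (2 * d) := by positivity
  have hb := second_bounds _ hz
  have e3 : G n (X + x) - G n X - x * vv X n = x * ((c - X) *
      (4 * Real.arsinh (Real.sqrt n / (2 * d)) -
      4 * ((Real.sqrt n / (2 * d)) / Real.sqrt (1 + (Real.sqrt n / (2 * d)) ^ 2)))) := by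
    rw [e1, ← e2]; ring
  rw [e3, abs_mul, abs_mul, abs_of_pos hx0, abs_of_pos hcX]
  have hcx : c - X ≤ x := by linarith [hc.2]
  have hzX : Real.sqrt n / (2 * d) ≤ Real.sqrt n / (2 * X) := by
    apply div_le_div_of_nonneg_left hsn.le (by positivity)
    linarith [hd.1]
  have hz3 : (Real.sqrt n / (2 * d)) ^ 3 ≤ (Real.sqrt n / (2 * X)) ^ 3 :=
    pow_le_pow_left₀ hz.le hzX 3
  have hz4 : 4 * (Real.sqrt n / (2 * X)) ^ 3 = n * Real.sqrt n / X ^ 3 / 2 := by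
    have hnn : Real.sqrt n ^ 2 = n := Real.sq_sqrt hn.le
    have : Real.sqrt n ^ 3 = n * Real.sqrt n := by
      calc Real.sqrt n ^ 3 = Real.sqrt n ^ 2 * Real.sqrt n := by ring
        _ = n * Real.sqrt n := by rw [hnn]
    rw [div_pow, this]
    field_simp
    ring
  have hB : 0 ≤ n * Real.sqrt n / X ^ 3 := by positivity
  calc x * ((c - X) * |4 * Real.arsinh (Real.sqrt n / (2 * d)) -
      4 * ((Real.sqrt n / (2 * d)) / Real.sqrt (1 + (Real.sqrt n / (2 * d)) ^ 2))|)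
      ≤ x * (x * (n * Real.sqrt n / X ^ 3)) := by
        apply mul_le_mul_of_nonneg_left _ hx0.le
        apply mul_le_mul hcx _ (abs_nonneg _) hx0.le
        calc _ ≤ 4 * (Real.sqrt n / (2 * d)) ^ 3 := hb
          _ ≤ 4 * (Real.sqrt n / (2 * X)) ^ 3 := by linarith
          _ = n * Real.sqrt n / X ^ 3 / 2 := hz4
          _ ≤ n * Real.sqrt n / X ^ 3 := by linarith
    _ = x ^ 2 * (n * Real.sqrt n) / X ^ 3 := by ring

end Pool.Agent.Work.MP_56b8f5_nt.UB
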