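import Pool.Agent.Work.MP_56b8f5_nt.UB.Stmts

/-!
MP_56b8f5_nt, block UB, item MV: the mean value of a block of the dual sum.
-/

open MeasureTheory Set Filter Topology

noncomputable section

namespace Pool.Agent.Work.MP_56b8f5_nt.UB

namespace MV_aux

lemma ee_norm (x : ℝ) : ‖ee x‖ = 1 := by
  unfold ee
  exact Complex.norm_exp_ofReal_mul_I _

lemma ee_add (x y : ℝ) : ee (x + y) = ee x * ee y := by
  unfold ee
  rw [← Complex.exp_add]
  congr 1
  push_cast
  ring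

lemma ee_conj (x : ℝ) : (starRingEnd ℂ) (ee x) = ee (-x) := by
  unfold ee
  rw [← Complex.exp_conj, map_mul, Complex.conj_I, Complex.conj_ofReal]
  congr 1
  push_cast
  ring

lemma ee_zero : ee 0 = 1 := by simp [ee]

lemma ee_cont : Continuous ee := by
  unfold ee
  fun_prop

/-! ### The stationary point -/

lemma ls_deriv (n : ℕ) {s : ℝ} (hs : 0 < s) :
    HasDerivAt (fun t => ls n t) (-(Real.sqrt n / (s * Real.sqrt (4 * s + n)))) s := by
  have hn : (0 : ℝ) ≤ n := Nat.cast_nonneg n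
  have hr : 0 < Real.sqrt s := Real.sqrt_pos.2 hs
  have h1 : HasDerivAt (fun t : ℝ => 2 * Real.sqrt t) (2 * (1 / (2 * Real.sqrt s))) s :=
    (Real.hasDerivAt_sqrt hs.ne').const_mul 2
  have h2 : HasDerivAt (fun t : ℝ => Real.sqrt n / (2 * Real.sqrt t))
      ((0 * (2 * Real.sqrt s) - Real.sqrt n * (2 * (1 / (2 * Real.sqrt s)))) /
        (2 * Real.sqrt s) ^ 2) s :=
    (hasDerivAt_const s (Real.sqrt n)).div h1 (by positivity)
  have h3 := (Real.hasDerivAt_arsinh (Real.sqrt n / (2 * Real.sqrt s))).comp s h2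
  have h4 := h3.const_mul 2
  have hw : 0 < Real.sqrt (4 * s + n) := Real.sqrt_pos.2 (by positivity)
  have hsq : Real.sqrt (1 + (Real.sqrt n / (2 * Real.sqrt s)) ^ 2) =
      Real.sqrt (4 * s + n) / (2 * Real.sqrt s) := by
    have h5 : 1 + (Real.sqrt n / (2 * Real.sqrt s)) ^ 2 =
        (Real.sqrt (4 * s + n) / (2 * Real.sqrt s)) ^ 2 := by
      rw [div_pow, div_pow, mul_pow, Real.sq_sqrt hn, Real.sq_sqrt hs.le,
        Real.sq_sqrt (by positivity)]
      field_simp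
      ring
    rw [h5, Real.sqrt_sq (by positivity)]
  rw [hsq] at h4
  have h6 : -(Real.sqrt n / (s * Real.sqrt (4 * s + n))) =
      2 * ((Real.sqrt (4 * s + n) / (2 * Real.sqrt s))⁻¹ *
        ((0 * (2 * Real.sqrt s) - Real.sqrt n * (2 * (1 / (2 * Real.sqrt s)))) /
        (2 * Real.sqrt s) ^ 2)) := by
    have h7 : (2 * Real.sqrt s) ^ 2 = 4 * s := by
      rw [mul_pow, Real.sq_sqrt hs.le]
      ring
    rw [h7]
    field_simp
    ring
  rw [h6]
  exact h4

lemma arsinh_low {x y : ℝ} (hy : 0 ≤ y) (hyx : y ≤ x) (hx : x ≤ 1) :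
    (x - y) / 2 ≤ Real.arsinh x - Real.arsinh y := by
  have hd : ∀ t : ℝ, HasDerivAt (fun t => Real.arsinh t - t / 2)
      ((Real.sqrt (1 + t ^ 2))⁻¹ - 1 / 2) t := fun t =>
    (Real.hasDerivAt_arsinh t).sub ((hasDerivAt_id t).div_const 2)
  have hm : MonotoneOn (fun t => Real.arsinh t - t / 2) (Icc 0 1) := by
    refine monotoneOn_of_deriv_nonneg (convex_Icc 0 1)
      (fun t _ => (hd t).continuousAt.continuousWithinAt)
      (fun t _ => (hd t).differentiableAt.differentiableWithinAt) ?_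
    intro t ht
    rw [interior_Icc] at ht
    rw [(hd t).deriv]
    have h1 : Real.sqrt (1 + t ^ 2) ≤ 2 := by
      rw [Real.sqrt_le_left (by norm_num)]
      nlinarith [ht.1, ht.2]
    have h2 : 0 < Real.sqrt (1 + t ^ 2) := Real.sqrt_pos.2 (by positivity)
    have h3 : (1 : ℝ) / 2 ≤ (Real.sqrt (1 + t ^ 2))⁻¹ := by
      rw [← one_div]
      exact one_div_le_one_div_of_le h2 h1
    linarith
  have h := hm ⟨hy, hyx.trans hx⟩ ⟨hy.trans hyx, hx⟩ hyx
  simp only at h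
  linarith

/-- the difference of two frequencies -/
lemma ls_low {N T s : ℝ} {n m : ℕ} (hN : 1 ≤ N) (hT : 0 < T) (hs : T / 16 ≤ s) (hsT : s ≤ T)
    (hNT : 32 * N ≤ T) (hn : (n : ℝ) ≤ 2 * N) (hmn : m ≤ n) (hm : 1 ≤ m) :
    ((n : ℝ) - m) / (8 * Real.sqrt (N * T)) ≤ ls n s - ls m s := by
  have hs0 : 0 < s := by linarith
  have hr : 0 < Real.sqrt s := Real.sqrt_pos.2 hs0
  have hmn' : (m : ℝ) ≤ n := by exact_mod_cast hmn
  have hm' : (1 : ℝ) ≤ m := by exact_mod_cast hm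
  have hsn : Real.sqrt m ≤ Real.sqrt n := Real.sqrt_le_sqrt hmn'
  have hsm : 0 < Real.sqrt m := Real.sqrt_pos.2 (by linarith)
  have h1 := arsinh_low (x := Real.sqrt n / (2 * Real.sqrt s))
    (y := Real.sqrt m / (2 * Real.sqrt s)) (by positivity)
    (div_le_div_of_nonneg_right hsn (by positivity)) (by
      rw [div_le_one (by positivity)]
      have h2 : 2 * Real.sqrt s = Real.sqrt (4 * s) := by
        rw [Real.sqrt_mul (by norm_num), show (4 : ℝ) = 2 ^ 2 by norm_num,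
          Real.sqrt_sq (by norm_num)]
      rw [h2]
      exact Real.sqrt_le_sqrt (by linarith))
  unfold ls
  have h3 : ((n : ℝ) - m) / (8 * Real.sqrt (N * T)) ≤
      Real.sqrt n / (2 * Real.sqrt s) - Real.sqrt m / (2 * Real.sqrt s) := by
    rw [← sub_div]
    have h4 : (n : ℝ) - m = (Real.sqrt n - Real.sqrt m) * (Real.sqrt n + Real.sqrt m) := by
      have h5 := Real.sq_sqrt (show (0 : ℝ) ≤ n by linarith)
      have h6 := Real.sq_sqrt (show (0 : ℝ) ≤ m by linarith)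
      nlinarith
    have hNTp : 0 < Real.sqrt (N * T) := Real.sqrt_pos.2 (by positivity)
    rw [h4, div_le_div_iff₀ (by positivity) (by positivity), mul_assoc]
    refine mul_le_mul_of_nonneg_left ?_ (by linarith)
    have h7 : Real.sqrt n ≤ Real.sqrt (2 * N) := Real.sqrt_le_sqrt hn
    have h8 : Real.sqrt s ≤ Real.sqrt T := Real.sqrt_le_sqrt hsT
    have h9 : Real.sqrt (2 * N) ≤ 2 * Real.sqrt N := by
      rw [Real.sqrt_le_left (by positivity), mul_pow, Real.sq_sqrt (by linarith)]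
      linarith
    rw [Real.sqrt_mul (by linarith)]
    have h10 : Real.sqrt n + Real.sqrt m ≤ 4 * Real.sqrt N := by linarith
    have h11 := mul_le_mul h10 h8 hr.le (by positivity)
    nlinarith
  linarith

/-! ### Sums -/

lemma harm (M : ℕ) : ∑ k ∈ Finset.Icc 1 M, (1 : ℝ) / k ≤ 1 + Real.log M := by
  have h := harmonic_le_one_add_log M
  rw [harmonic_eq_sum_Icc] at h
  push_cast at h
  refine le_trans (le_of_eq ?_) h
  exact Finset.sum_congr rfl fun k _ => one_div _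

lemma side (S : Finset ℕ) (M : ℕ) (f : ℕ → ℕ) (hf : Set.InjOn f S)
    (hS : ∀ m ∈ S, f m ∈ Finset.Icc 1 M) (g : ℕ → ℝ) (hg : ∀ m ∈ S, g m = 1 / (f m : ℝ)) :
    ∑ m ∈ S, g m ≤ 1 + Real.log M := by
  refine le_trans ?_ (harm M)
  rw [Finset.sum_congr rfl hg]
  rw [← Finset.sum_image (f := fun k : ℕ => (1 : ℝ) / k) (g := f) hf]
  refine Finset.sum_le_sum_of_subset_of_nonneg ?_ (fun k _ _ => by positivity)
  intro k hk
  obtain ⟨m, hm, rfl⟩ := Finset.mem_image.1 hk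
  exact hS m hm

lemma offd (S : Finset ℕ) (M : ℕ) (hS : ∀ m ∈ S, m ≤ M) (n : ℕ) (hn : n ∈ S) :
    ∑ m ∈ S.erase n, 1 / |(n : ℝ) - m| ≤ 2 * (1 + Real.log M) := by
  rw [← Finset.sum_filter_add_sum_filter_not (S.erase n) (fun m => m < n)]
  have h1 : ∑ m ∈ (S.erase n).filter (fun m => m < n), 1 / |(n : ℝ) - m| ≤ 1 + Real.log M := by
    refine side _ M (fun m => n - m) ?_ ?_ _ ?_
    · intro x hx y hy hxy
      have hx' := (Finset.mem_filter.1 hx).2
      have hy' := (Finset.mem_filter.1 hy).2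
      simp only at hxy
      omega
    · intro m hm
      have h2 := (Finset.mem_filter.1 hm).2
      have h3 := hS n hn
      rw [Finset.mem_Icc]
      omega
    · intro m hm
      have h2 := (Finset.mem_filter.1 hm).2
      have h3 : (m : ℝ) < n := by exact_mod_cast h2
      rw [abs_of_pos (by linarith), Nat.cast_sub h2.le]
  have h2 : ∑ m ∈ (S.erase n).filter (fun m => ¬ m < n), 1 / |(n : ℝ) - m| ≤
      1 + Real.log M := by
    refine side _ M (fun m => m - n) ?_ ?_ _ ?_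
    · intro x hx y hy hxy
      have hx' := (Finset.mem_filter.1 hx).2
      have hy' := (Finset.mem_filter.1 hy).2
      simp only at hxy
      omega
    · intro m hm
      have h2 := (Finset.mem_filter.1 hm).2
      have h3 := (Finset.mem_erase.1 (Finset.mem_filter.1 hm).1)
      have h4 := hS m h3.2
      rw [Finset.mem_Icc]
      omega
    · intro m hm
      have h2 := (Finset.mem_filter.1 hm).2
      have h3 := (Finset.mem_erase.1 (Finset.mem_filter.1 hm).1)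
      have h4 : n < m := by omega
      have h5 : (n : ℝ) < m := by exact_mod_cast h4
      rw [abs_of_neg (by linarith), Nat.cast_sub h4.le]
      congr 1
      ring
  linarith

/-! ### Pairs -/

lemma f2_mono {s : ℝ} (hs : 0 < s) {n m : ℕ} (h : n ≤ m) :
    Real.sqrt n / (s * Real.sqrt (4 * s + n)) ≤ Real.sqrt m / (s * Real.sqrt (4 * s + m)) := by
  have hn : (0 : ℝ) ≤ n := Nat.cast_nonneg n
  have hnm : (n : ℝ) ≤ m := by exact_mod_cast h
  have h1 : 0 < Real.sqrt (4 * s + n) := Real.sqrt_pos.2 (by positivity)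
  have h2 : 0 < Real.sqrt (4 * s + m) := Real.sqrt_pos.2 (by positivity)
  rw [div_le_div_iff₀ (by positivity) (by positivity)]
  have h3 : Real.sqrt n * Real.sqrt (4 * s + m) ≤ Real.sqrt m * Real.sqrt (4 * s + n) := by
    rw [← Real.sqrt_mul hn, ← Real.sqrt_mul (hn.trans hnm)]
    apply Real.sqrt_le_sqrt
    nlinarith
  nlinarith

lemma f2_cont (n : ℕ) {a y : ℝ} (ha : 0 < a) :
    ContinuousOn (fun s => -(Real.sqrt n / (s * Real.sqrt (4 * s + n)))) (Icc a y) := by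
  refine (continuousOn_const.div ?_ ?_).neg
  · exact continuousOn_id.mul (Continuous.continuousOn (by fun_prop))
  · intro s hs
    have h1 : 0 < s := lt_of_lt_of_le ha hs.1
    have h2 : 0 < Real.sqrt (4 * s + n) := Real.sqrt_pos.2 (by positivity)
    positivity

lemma osc (hV1 : StV1) {a b l : ℝ} (ha : 0 < a) (hl : 0 < l) (n m : ℕ)
    (hF1 : ∀ s ∈ Icc a b, HasDerivAt (FF n) (ls n s) s)
    (hF2 : ∀ s ∈ Icc a b, HasDerivAt (FF m) (ls m s) s)
    (hll : ∀ s ∈ Icc a b, l ≤ |ls n s - ls m s|) :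
    ∀ y ∈ Icc a b, ‖∫ x in a..y, ee (FF n x - FF m x)‖ ≤ 1 / l := by
  intro y hy
  have hsub : ∀ s ∈ Icc a y, s ∈ Icc a b := fun s hs => ⟨hs.1, hs.2.trans hy.2⟩
  have hpos : ∀ s ∈ Icc a y, 0 < s := fun s hs => lt_of_lt_of_le ha hs.1
  refine (hV1 a y l (fun x => FF n x - FF m x) (fun s => ls n s - ls m s)
    (fun s => -(Real.sqrt n / (s * Real.sqrt (4 * s + n))) -
      -(Real.sqrt m / (s * Real.sqrt (4 * s + m)))) hy.1 hl
    (fun s hs => (hF1 s (hsub s hs)).sub (hF2 s (hsub s hs)))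
    (fun s hs => (ls_deriv n (hpos s hs)).sub (ls_deriv m (hpos s hs)))
    ((f2_cont n ha).sub (f2_cont m ha)) (fun s hs => hll s (hsub s hs))).2 ?_
  rcases le_total n m with h | h
  · left
    intro s hs
    have := f2_mono (hpos s hs) h
    linarith
  · right
    intro s hs
    have := f2_mono (hpos s hs) h
    linarith

lemma pair (hVp : StVp) (hV1 : StV1) {a b q T l : ℝ} (hab : a ≤ b) (ha : 0 < a)
    (hbT : b - a ≤ T) (hT : 0 < T) (hq : 0 ≤ q) (hl : 0 < l) (n m : ℕ) (J1 J2 : ℝ → ℂ)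
    (hF1 : ∀ s ∈ Icc a b, HasDerivAt (FF n) (ls n s) s)
    (hF2 : ∀ s ∈ Icc a b, HasDerivAt (FF m) (ls m s) s)
    (hA1 : ∀ s ∈ Icc a b, ∃ A' : ℂ, HasDerivAt (fun t => ee (-(FF n t)) * J1 t) A' s ∧
      ‖A'‖ ≤ q / T)
    (hA2 : ∀ s ∈ Icc a b, ∃ A' : ℂ, HasDerivAt (fun t => ee (-(FF m t)) * J2 t) A' s ∧
      ‖A'‖ ≤ q / T)
    (hJ1 : ∀ s ∈ Icc a b, ‖J1 s‖ ≤ q) (hJ2 : ∀ s ∈ Icc a b, ‖J2 s‖ ≤ q)
    (hll : ∀ s ∈ Icc a b, l ≤ |ls n s - ls m s|) :
    ‖∫ s in a..b, J1 s * (starRingEnd ℂ) (J2 s)‖ ≤ 3 * q ^ 2 / l := by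
  have hnJ : ∀ (k : ℕ) (J : ℝ → ℂ) (s : ℝ), ‖ee (-(FF k s)) * J s‖ = ‖J s‖ := by
    intro k J s
    rw [norm_mul, ee_norm, one_mul]
  have hAd : ∀ s ∈ Icc a b, ∃ A' : ℂ, HasDerivAt (fun t => (ee (-(FF n t)) * J1 t) *
      (starRingEnd ℂ) (ee (-(FF m t)) * J2 t)) A' s ∧ ‖A'‖ ≤ 2 * q ^ 2 / T := by
    intro s hs
    obtain ⟨A1, hd1, hb1⟩ := hA1 s hs
    obtain ⟨A2, hd2, hb2⟩ := hA2 s hs
    have hd2' : HasDerivAt (fun t => (starRingEnd ℂ) (ee (-(FF m t)) * J2 t))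
        ((starRingEnd ℂ) A2) s :=
      (Complex.conjCLE.toContinuousLinearMap.hasFDerivAt).comp_hasDerivAt s hd2
    refine ⟨_, hd1.mul hd2', ?_⟩
    refine (norm_add_le _ _).trans ?_
    rw [norm_mul, norm_mul, RCLike.norm_conj, RCLike.norm_conj, hnJ, hnJ]
    have h1 := mul_le_mul hb1 (hJ2 s hs) (norm_nonneg _) (by positivity)
    have h2 := mul_le_mul (hJ1 s hs) hb2 (norm_nonneg _) hq
    have h3 : q / T * q + q * (q / T) = 2 * q ^ 2 / T := by ring
    linarith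
  have hAc : ContinuousOn (fun t => (ee (-(FF n t)) * J1 t) *
      (starRingEnd ℂ) (ee (-(FF m t)) * J2 t)) (Icc a b) := by
    intro s hs
    obtain ⟨A', hd, -⟩ := hAd s hs
    exact hd.continuousAt.continuousWithinAt
  have hfc : ContinuousOn (fun t => FF n t - FF m t) (Icc a b) := fun s hs =>
    ((hF1 s hs).sub (hF2 s hs)).continuousAt.continuousWithinAt
  have h := hVp a b (1 / l) (2 * q ^ 2 / T) (fun t => (ee (-(FF n t)) * J1 t) *
      (starRingEnd ℂ) (ee (-(FF m t)) * J2 t)) (fun t => FF n t - FF m t) hab (by positivity) hAc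
      (fun s hs => by
        obtain ⟨A', hd, hb⟩ := hAd s (Ioo_subset_Icc_self hs)
        exact ⟨hd.differentiableAt, by rw [hd.deriv]; exact hb⟩) hfc
      (osc hV1 ha hl n m hF1 hF2 hll)
  have heq : ∀ s : ℝ, (ee (-(FF n s)) * J1 s) * (starRingEnd ℂ) (ee (-(FF m s)) * J2 s) *
      ee (FF n s - FF m s) = J1 s * (starRingEnd ℂ) (J2 s) := by
    intro s
    rw [map_mul, ee_conj]
    have h1 : ee (-(FF n s)) * ee (-(-(FF m s))) * ee (FF n s - FF m s) = 1 := by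
      rw [← ee_add, ← ee_add, ← ee_zero]
      congr 1
      ring
    linear_combination (J1 s * (starRingEnd ℂ) (J2 s)) * h1
  simp only [heq] at h
  refine h.trans ?_
  have hb : b ∈ Icc a b := ⟨hab, le_rfl⟩
  have h2 : ‖(ee (-(FF n b)) * J1 b) * (starRingEnd ℂ) (ee (-(FF m b)) * J2 b)‖ ≤ q * q := by
    rw [norm_mul, RCLike.norm_conj, hnJ, hnJ]
    exact mul_le_mul (hJ1 b hb) (hJ2 b hb) (norm_nonneg _) hq
  have h3 : 2 * q ^ 2 / T * (b - a) ≤ 2 * q ^ 2 := by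
    rw [div_mul_eq_mul_div, div_le_iff₀ hT]
    exact mul_le_mul_of_nonneg_left hbT (by positivity)
  have h4 : 3 * q ^ 2 / l = 1 / l * (3 * q ^ 2) := by ring
  rw [h4]
  refine mul_le_mul_of_nonneg_left ?_ (by positivity)
  nlinarith

lemma diag {a b q T : ℝ} (hab : a ≤ b) (hbT : b - a ≤ T) (hq : 0 ≤ q) (J : ℝ → ℂ)
    (hJ : ∀ s ∈ Icc a b, ‖J s‖ ≤ q) :
    ‖∫ s in a..b, J s * (starRingEnd ℂ) (J s)‖ ≤ q ^ 2 * T := by
  have h := intervalIntegral.norm_integral_le_of_norm_le_const (a := a) (b := b)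
    (f := fun s => J s * (starRingEnd ℂ) (J s)) (C := q ^ 2) (by
      intro s hs
      rw [uIoc_of_le hab] at hs
      have hs' : s ∈ Icc a b := ⟨hs.1.le, hs.2⟩
      rw [norm_mul, RCLike.norm_conj, sq]
      exact mul_le_mul (hJ s hs') (hJ s hs') (norm_nonneg _) hq)
  refine h.trans ?_
  rw [abs_of_nonneg (by linarith)]
  exact mul_le_mul_of_nonneg_left hbT (by positivity)

/-- the square of a sum -/
lemma expand {a b : ℝ} (hab : a ≤ b) (S : Finset ℕ) (c : ℕ → ℂ) (J : ℕ → ℝ → ℂ)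
    (hc : ∀ n, ‖c n‖ ≤ 1) (hJ : ∀ n ∈ S, ContinuousOn (J n) (Icc a b)) :
    ∫ s in Icc a b, ‖∑ n ∈ S, c n * J n s‖ ^ 2 ≤
      ∑ n ∈ S, ∑ m ∈ S, ‖∫ s in a..b, J n s * (starRingEnd ℂ) (J m s)‖ := by
  have h1 : ∀ s : ℝ, ((‖∑ n ∈ S, c n * J n s‖ ^ 2 : ℝ) : ℂ) =
      ∑ n ∈ S, ∑ m ∈ S, (c n * (starRingEnd ℂ) (c m)) *
        (J n s * (starRingEnd ℂ) (J m s)) := by
    intro s
    rw [← Complex.normSq_eq_norm_sq, ← Complex.mul_conj, map_sum, Finset.sum_mul_sum]
    refine Finset.sum_congr rfl fun n _ => Finset.sum_congr rfl fun m _ => ?_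
    rw [map_mul]
    ring
  have hint : ∀ n ∈ S, ∀ m ∈ S, IntervalIntegrable (fun s => (c n * (starRingEnd ℂ) (c m)) *
        (J n s * (starRingEnd ℂ) (J m s))) volume a b := by
    intro n hn m hm
    refine ContinuousOn.intervalIntegrable_of_Icc hab ?_
    exact continuousOn_const.mul ((hJ n hn).mul
      (Complex.continuous_conj.comp_continuousOn (hJ m hm)))
  have h2 : ((∫ s in Icc a b, ‖∑ n ∈ S, c n * J n s‖ ^ 2 : ℝ) : ℂ) =
      ∑ n ∈ S, ∑ m ∈ S, (c n * (starRingEnd ℂ) (c m)) *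
        ∫ s in a..b, J n s * (starRingEnd ℂ) (J m s) := by
    rw [← integral_complex_ofReal, integral_Icc_eq_integral_Ioc,
      ← intervalIntegral.integral_of_le hab]
    simp only [h1]
    rw [intervalIntegral.integral_finsetSum]
    · refine Finset.sum_congr rfl fun n hn => ?_
      rw [intervalIntegral.integral_finsetSum]
      · refine Finset.sum_congr rfl fun m hm => ?_
        rw [intervalIntegral.integral_const_mul]
      · exact fun m hm => hint n hn m hm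
    · intro n hn
      have h5 : (fun x => ∑ m ∈ S, (c n * (starRingEnd ℂ) (c m)) *
          (J n x * (starRingEnd ℂ) (J m x))) = ∑ m ∈ S, fun x =>
          (c n * (starRingEnd ℂ) (c m)) * (J n x * (starRingEnd ℂ) (J m x)) := by
        funext x
        rw [Finset.sum_apply]
      rw [h5]
      exact IntervalIntegrable.sum S (fun m hm => hint n hn m hm)
  have h3 : (∫ s in Icc a b, ‖∑ n ∈ S, c n * J n s‖ ^ 2 : ℝ) ≤
      ‖((∫ s in Icc a b, ‖∑ n ∈ S, c n * J n s‖ ^ 2 : ℝ) : ℂ)‖ := by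
    rw [Complex.norm_real]
    exact le_abs_self _
  refine h3.trans ?_
  rw [h2]
  refine (norm_sum_le _ _).trans (Finset.sum_le_sum fun n _ => ?_)
  refine (norm_sum_le _ _).trans (Finset.sum_le_sum fun m _ => ?_)
  rw [norm_mul, norm_mul, RCLike.norm_conj]
  exact mul_le_of_le_one_left (norm_nonneg _) (mul_le_one₀ (hc n) (norm_nonneg _) (hc m))

end MV_aux

open MV_aux in
theorem iMV (hVp : StVp) (hV1 : StV1) (hAM : StAM) : StMV := by
  intro φ Θ hφ C' hC'
  obtain ⟨CA, hCA, hA⟩ := hAM φ Θ hφ C' hC'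
  refine ⟨200 * CA ^ 2 + 4 * C' + 3, by nlinarith, ?_⟩
  intro T G N c hT hG hGT hN hNC hc
  have hT1 : CA ≤ T := by nlinarith
  have hG1 : CA ≤ G := by nlinarith
  have hT3 : 3 ≤ T := by nlinarith
  have hG4 : 4 * C' ≤ G := by nlinarith
  have hTp : 0 < T := by linarith
  have hGp : 0 < G := by linarith
  have hNp : 0 < N := by linarith
  have hCAp : 0 < CA := by linarith
  have h32 : 32 * N ≤ T := by
    have h1 : 2 * N * G ^ 2 ≤ C' * T := (le_div_iff₀ (by positivity)).1 hNC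
    have h2 : 16 * C' ≤ G ^ 2 := by nlinarith
    have h3 : C' * (32 * N) ≤ C' * T := by nlinarith
    exact le_of_mul_le_mul_left h3 (by linarith)
  -- the interval
  have hpi := Real.pi_gt_three
  have hpi4 := Real.pi_le_four
  obtain ⟨a, ha⟩ : ∃ a : ℝ, a = T / (4 * Real.pi) := ⟨_, rfl⟩
  obtain ⟨b, hb⟩ : ∃ b : ℝ, b = 2 * T / Real.pi := ⟨_, rfl⟩
  have hsI : sI T = Icc a b := by rw [ha, hb]; rfl
  have ha16 : T / 16 ≤ a := by
    rw [ha]
    exact div_le_div_of_nonneg_left hTp.le (by positivity) (by linarith)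
  have hap : 0 < a := by linarith
  have hbT : b ≤ T := by
    rw [hb, div_le_iff₀ (by positivity)]
    nlinarith
  have hab : a ≤ b := by
    have h1 : a ≤ T / 4 := by
      rw [ha]
      exact div_le_div_of_nonneg_left hTp.le (by norm_num) (by linarith)
    have h2 : T / 2 ≤ b := by
      rw [hb, div_le_div_iff₀ (by norm_num) (by positivity)]
      nlinarith
    linarith
  -- the members of the block
  obtain ⟨S, hS⟩ : ∃ S : Finset ℕ, S = Finset.Ioc ⌊N⌋₊ ⌊2 * N⌋₊ := ⟨_, rfl⟩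
  have hSm : ∀ n ∈ S, N ≤ n ∧ (n : ℝ) ≤ 2 * N ∧ 1 ≤ n ∧ n ≤ ⌊2 * N⌋₊ := by
    intro n hn
    rw [hS, Finset.mem_Ioc] at hn
    refine ⟨((Nat.floor_lt hNp.le).1 hn.1).le, ?_, by omega, hn.2⟩
    exact (Nat.le_floor_iff (by linarith)).1 hn.2
  obtain ⟨q, hq⟩ : ∃ q : ℝ, q = CA / Real.sqrt (Real.sqrt (N * T)) := ⟨_, rfl⟩
  have hNT : 0 < Real.sqrt (N * T) := Real.sqrt_pos.2 (by positivity)
  have hNT2 : 0 < Real.sqrt (Real.sqrt (N * T)) := Real.sqrt_pos.2 hNT
  have hq0 : 0 ≤ q := by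
    rw [hq]
    positivity
  have hq2 : q ^ 2 = CA ^ 2 / Real.sqrt (N * T) := by
    rw [hq, div_pow, Real.sq_sqrt hNT.le]
  have hroot : ∀ n ∈ S, Real.sqrt (Real.sqrt (N * T)) ≤ Real.sqrt (Real.sqrt (n * T)) := by
    intro n hn
    apply Real.sqrt_le_sqrt
    apply Real.sqrt_le_sqrt
    exact mul_le_mul_of_nonneg_right (hSm n hn).1 hTp.le
  have hfac := fun (n : ℕ) (hn : n ∈ S) (s : ℝ) (hs : s ∈ Icc a b) =>
    hA T G s n hT1 hG1 hGT (by rw [hsI]; exact hs) (hSm n hn).2.2.1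
      ((hSm n hn).2.1.trans hNC)
  have hF : ∀ n ∈ S, ∀ s ∈ Icc a b, HasDerivAt (FF n) (ls n s) s := fun n hn s hs =>
    (hfac n hn s hs).2.1
  have hJ : ∀ n ∈ S, ∀ s ∈ Icc a b, ‖JJ Θ T G n s‖ ≤ q := by
    intro n hn s hs
    refine (hfac n hn s hs).1.trans ?_
    rw [hq]
    exact div_le_div_of_nonneg_left hCAp.le hNT2 (hroot n hn)
  have hAl : ∀ n ∈ S, ∀ s ∈ Icc a b, ∃ A' : ℂ,
      HasDerivAt (fun t => ee (-(FF n t)) * JJ Θ T G n t) A' s ∧ ‖A'‖ ≤ q / T := by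
    intro n hn s hs
    obtain ⟨A', h1, h2⟩ := (hfac n hn s hs).2.2
    refine ⟨A', h1, h2.trans ?_⟩
    rw [hq, div_div, mul_comm (Real.sqrt (Real.sqrt (N * T))) T]
    exact div_le_div_of_nonneg_left hCAp.le (by positivity)
      (mul_le_mul_of_nonneg_left (hroot n hn) hTp.le)
  have hJc : ∀ n ∈ S, ContinuousOn (JJ Θ T G n) (Icc a b) := by
    intro n hn s hs
    obtain ⟨A', h1, -⟩ := hAl n hn s hs
    have h2 : ContinuousAt (fun t => ee (FF n t) * (ee (-(FF n t)) * JJ Θ T G n t)) s :=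
      (ee_cont.continuousAt.comp (hF n hn s hs).continuousAt).mul h1.continuousAt
    have h3 : (fun t => ee (FF n t) * (ee (-(FF n t)) * JJ Θ T G n t)) = JJ Θ T G n := by
      funext t
      rw [← mul_assoc, ← ee_add, add_neg_cancel, ee_zero, one_mul]
    rw [h3] at h2
    exact h2.continuousWithinAt
  -- pairs
  have hdiag : ∀ n ∈ S, ‖∫ s in a..b, JJ Θ T G n s * (starRingEnd ℂ) (JJ Θ T G n s)‖ ≤
      CA ^ 2 * T / Real.sqrt (N * T) := by
    intro n hn
    refine (diag (T := T) hab (by linarith) hq0 _ (hJ n hn)).trans (le_of_eq ?_)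
    rw [hq2]
    ring
  have hoff : ∀ n ∈ S, ∀ m ∈ S, m ≠ n →
      ‖∫ s in a..b, JJ Θ T G n s * (starRingEnd ℂ) (JJ Θ T G m s)‖ ≤
      24 * CA ^ 2 * (1 / |(n : ℝ) - m|) := by
    intro n hn m hm hmn
    have hne : (n : ℝ) - m ≠ 0 := by
      intro h
      exact hmn (by exact_mod_cast (sub_eq_zero.1 h).symm)
    have habs : 0 < |(n : ℝ) - m| := abs_pos.2 hne
    have hl : 0 < |(n : ℝ) - m| / (8 * Real.sqrt (N * T)) := by positivity
    refine (pair hVp hV1 hab hap (by linarith) hTp hq0 hl n m _ _ (hF n hn) (hF m hm)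
      (hAl n hn) (hAl m hm) (hJ n hn) (hJ m hm) ?_).trans (le_of_eq ?_)
    · intro s hs
      have hs1 : T / 16 ≤ s := ha16.trans hs.1
      have hs2 : s ≤ T := hs.2.trans hbT
      rcases le_total m n with h | h
      · have h1 := ls_low hN hTp hs1 hs2 h32 (hSm n hn).2.1 h (hSm m hm).2.2.1
        have h2 : (m : ℝ) ≤ n := by exact_mod_cast h
        rw [abs_of_nonneg (by linarith : (0 : ℝ) ≤ (n : ℝ) - m)]
        exact h1.trans (le_abs_self _)
      · have h1 := ls_low hN hTp hs1 hs2 h32 (hSm m hm).2.1 h (hSm n hn).2.2.1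
        have h2 : (n : ℝ) ≤ m := by exact_mod_cast h
        rw [abs_sub_comm, abs_of_nonneg (by linarith : (0 : ℝ) ≤ (m : ℝ) - n),
          abs_sub_comm (ls n s)]
        exact h1.trans (le_abs_self _)
    · rw [hq2]
      field_simp
      ring
  -- the sum
  have hlT : 1 ≤ Real.log T := by
    rw [Real.le_log_iff_exp_le hTp]
    have := Real.exp_one_lt_d9
    linarith
  have hlM : Real.log (⌊2 * N⌋₊ : ℝ) ≤ Real.log T := by
    have h1 : 1 ≤ ⌊2 * N⌋₊ := Nat.le_floor (by push_cast; linarith)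
    have h2 : (0 : ℝ) < (⌊2 * N⌋₊ : ℝ) := by exact_mod_cast h1
    exact Real.log_le_log h2 ((Nat.floor_le (by linarith)).trans (by linarith))
  have hcard : (S.card : ℝ) ≤ 2 * N := by
    rw [hS, Nat.card_Ioc]
    have h1 : ⌊N⌋₊ ≤ ⌊2 * N⌋₊ := Nat.floor_le_floor (by linarith)
    rw [Nat.cast_sub h1]
    have h2 := Nat.floor_le (show 0 ≤ 2 * N by linarith)
    have h3 := Nat.lt_floor_add_one N
    linarith
  have hrow : ∀ n ∈ S, ∑ m ∈ S, ‖∫ s in a..b, JJ Θ T G n s * (starRingEnd ℂ) (JJ Θ T G m s)‖ ≤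
      CA ^ 2 * T / Real.sqrt (N * T) + 96 * CA ^ 2 * Real.log T := by
    intro n hn
    rw [← Finset.add_sum_erase S _ hn]
    refine add_le_add (hdiag n hn) ?_
    have h1 : ∑ m ∈ S.erase n, ‖∫ s in a..b, JJ Θ T G n s * (starRingEnd ℂ) (JJ Θ T G m s)‖ ≤
        ∑ m ∈ S.erase n, 24 * CA ^ 2 * (1 / |(n : ℝ) - m|) :=
      Finset.sum_le_sum fun m hm => hoff n hn m (Finset.mem_erase.1 hm).2
        (Finset.mem_erase.1 hm).1
    refine h1.trans ?_
    rw [← Finset.mul_sum]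
    have h2 := offd S ⌊2 * N⌋₊ (fun m hm => (hSm m hm).2.2.2) n hn
    have h3 : 2 * (1 + Real.log (⌊2 * N⌋₊ : ℝ)) ≤ 4 * Real.log T := by linarith
    have h4 := mul_le_mul_of_nonneg_left (h2.trans h3) (show 0 ≤ 24 * CA ^ 2 by positivity)
    refine h4.trans (le_of_eq ?_)
    ring
  have hexp := expand hab S c (fun n => JJ Θ T G n) hc hJc
  rw [hsI]
  have hSJ : ∀ s : ℝ, SJ Θ T G c N s = ∑ n ∈ S, c n * JJ Θ T G n s := by
    intro s
    rw [hS]
    rfl
  simp only [hSJ]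
  refine hexp.trans ((Finset.sum_le_sum hrow).trans ?_)
  rw [Finset.sum_const, nsmul_eq_mul]
  have hNT' : N ≤ Real.sqrt (N * T) := by
    apply Real.le_sqrt_of_sq_le
    nlinarith
  have hTN : N * T / Real.sqrt (N * T) = Real.sqrt (N * T) := Real.div_sqrt
  have h5 : (S.card : ℝ) * (CA ^ 2 * T / Real.sqrt (N * T) + 96 * CA ^ 2 * Real.log T) ≤
      2 * N * (CA ^ 2 * T / Real.sqrt (N * T) + 96 * CA ^ 2 * Real.log T) :=
    mul_le_mul_of_nonneg_right hcard (by positivity)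
  refine h5.trans ?_
  have h6 : 2 * N * (CA ^ 2 * T / Real.sqrt (N * T) + 96 * CA ^ 2 * Real.log T) =
      2 * CA ^ 2 * Real.sqrt (N * T) + 192 * CA ^ 2 * N * Real.log T := by
    have h7 : 2 * N * (CA ^ 2 * T / Real.sqrt (N * T)) =
        2 * CA ^ 2 * (N * T / Real.sqrt (N * T)) := by ring
    rw [mul_add, h7, hTN]
    ring
  rw [h6]
  have h8 : 2 * CA ^ 2 * Real.sqrt (N * T) ≤
      2 * CA ^ 2 * Real.sqrt (N * T) * Real.log T := le_mul_of_one_le_right (by positivity) hlT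
  have h9 : 192 * CA ^ 2 * N * Real.log T ≤ 192 * CA ^ 2 * Real.sqrt (N * T) * Real.log T := by
    gcongr
  have h10 : 0 ≤ Real.sqrt (N * T) * Real.log T := by positivity
  nlinarith

end Pool.Agent.Work.MP_56b8f5_nt.UB
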