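import Pool.Agent.Work.MP_56b8f5_nt.UB.Stmts

/-!
MP_56b8f5_nt, block UB, item Mb (measurability of the sets of large values).
-/

open MeasureTheory Set Filter Topology

namespace Pool.Agent.Work.MP_56b8f5_nt.UB

namespace Mb_aux

lemma ee_add (x y : ℝ) : ee (x + y) = ee x * ee y := by
  unfold ee
  rw [← Complex.exp_add]
  congr 1
  push_cast
  ring

lemma ee_neg (x : ℝ) : ee x * ee (-x) = 1 := by
  rw [← ee_add, add_neg_cancel]
  unfold ee
  simp

lemma ee_cont : Continuous ee := by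
  unfold ee
  fun_prop

lemma JJ_cont {Θ : ℝ → ℝ} {T G s f' : ℝ} {n : ℕ} {A' : ℂ} (h1 : HasDerivAt (FF n) f' s)
    (h2 : HasDerivAt (fun t => ee (-(FF n t)) * JJ Θ T G n t) A' s) :
    ContinuousAt (JJ Θ T G n) s := by
  have h3 : ContinuousAt (fun t => ee (FF n t)) s :=
    ee_cont.continuousAt.comp h1.continuousAt
  have h4 := h3.mul h2.continuousAt
  have h5 : (fun t => ee (FF n t) * (ee (-(FF n t)) * JJ Θ T G n t)) = JJ Θ T G n := by
    funext t
    rw [← mul_assoc, ee_neg, one_mul]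
  rw [← h5]
  exact h4

end Mb_aux

open Mb_aux in
theorem iMb (hAM : StAM) : StMb := by
  intro φ Θ hφ C' hC'
  obtain ⟨C, hC, h⟩ := hAM φ Θ hφ C' hC'
  refine ⟨C, hC, fun T G hT hG hGT => ?_⟩
  have hc : ∀ n : ℕ, 1 ≤ n → (n : ℝ) ≤ C' * T / G ^ 2 → ContinuousOn (JJ Θ T G n) (sI T) := by
    intro n hn hn' s hs
    obtain ⟨-, h1, A', h2, -⟩ := h T G s n hT hG hGT hs hn hn'
    exact (JJ_cont h1 h2).continuousWithinAt
  refine ⟨hc, fun N u a hN hN' => ?_⟩
  have hS : ContinuousOn (SJ Θ T G a N) (sI T) := by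
    have h0 : SJ Θ T G a N =
        fun s => ∑ n ∈ Finset.Ioc ⌊N⌋₊ ⌊2 * N⌋₊, a n * JJ Θ T G n s := by
      funext s
      rfl
    rw [h0]
    refine continuousOn_finsetSum _ fun n hn => ContinuousOn.mul continuousOn_const ?_
    rw [Finset.mem_Ioc] at hn
    refine hc n (by omega) (le_trans ?_ hN')
    exact (Nat.le_floor_iff (by linarith)).1 hn.2
  refine ⟨hS, ?_⟩
  have h1 : IsClosed (sI T ∩ (fun s => ‖SJ Θ T G a N s‖) ⁻¹' Ici u) :=
    hS.norm.preimage_isClosed_of_isClosed isClosed_Icc isClosed_Ici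
  have h2 : BS Θ T G a N u = sI T ∩ (fun s => ‖SJ Θ T G a N s‖) ⁻¹' Ici u := by
    ext s
    rfl
  rw [h2]
  exact h1.measurableSet

end Pool.Agent.Work.MP_56b8f5_nt.UB
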