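import Pool.Agent.Work.MP_56b8f5_nt.UB.Stmts

/-!
MP_56b8f5_nt, block UB, item Pf: derivatives and size of `coth(l/2)`.
-/

open MeasureTheory Set Filter Topology

noncomputable section

namespace Pool.Agent.Work.MP_56b8f5_nt.UB

namespace Pf_aux

lemma hS (l : ℝ) : HasDerivAt (fun l : ℝ => Real.sinh (l / 2)) (Real.cosh (l / 2) * (1 / 2)) l :=
  ((hasDerivAt_id' l).div_const 2).sinh

lemma hC (l : ℝ) : HasDerivAt (fun l : ℝ => Real.cosh (l / 2)) (Real.sinh (l / 2) * (1 / 2)) l :=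
  ((hasDerivAt_id' l).div_const 2).cosh

lemma sq_up {x : ℝ} (_h0 : 0 ≤ x) (h1 : x ≤ 1 / 4) :
    Real.sinh x ^ 2 ≤ x ^ 2 + 3 / 4 * (x ^ 2) ^ 2 := by
  have hc : Real.cosh x ≤ Real.exp (x ^ 2 / 2) := Real.cosh_le_exp_half_sq x
  have hc0 : 0 < Real.cosh x := Real.cosh_pos x
  have h2 : Real.cosh x ^ 2 ≤ Real.exp (x ^ 2) := by
    calc Real.cosh x ^ 2 ≤ Real.exp (x ^ 2 / 2) ^ 2 := pow_le_pow_left₀ hc0.le hc 2
      _ = Real.exp (x ^ 2) := by rw [← Real.exp_nat_mul]; congr 1; push_cast; ring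
  have hy : |x ^ 2| ≤ 1 := by
    rw [abs_of_nonneg (sq_nonneg x)]
    nlinarith
  have h3 := Real.exp_bound hy (n := 2) (by norm_num)
  rw [abs_le] at h3
  have h4 := h3.2
  rw [abs_of_nonneg (sq_nonneg x)] at h4
  norm_num [Finset.sum_range_succ, Nat.factorial] at h4
  have h5 : Real.cosh x ^ 2 = Real.sinh x ^ 2 + 1 := Real.cosh_sq x
  nlinarith

end Pf_aux

open Pf_aux in
theorem iPf : StPf := by
  intro l hl
  have hl2 : 0 < l / 2 := by linarith
  have hs : 0 < Real.sinh (l / 2) := Real.sinh_pos_iff.2 hl2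
  have hs0 : Real.sinh (l / 2) ≠ 0 := hs.ne'
  have hcs : Real.cosh (l / 2) ^ 2 = Real.sinh (l / 2) ^ 2 + 1 := Real.cosh_sq _
  refine ⟨?_, ?_, ?_, ?_⟩
  · have h := (hC l).div (hS l) hs0
    refine h.congr_deriv ?_
    field_simp
    nlinarith [hcs]
  · have h := (((hS l).fun_pow 2).const_mul 2).fun_inv (by positivity)
    have h' := h.fun_neg
    refine (h'.congr_deriv ?_).congr_of_eventuallyEq ?_
    · push_cast
      field_simp
    · exact Filter.Eventually.of_forall fun y => by simp [one_div]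
  · have h := (hC l).fun_div (((hS l).fun_pow 3).const_mul 2) (by positivity)
    refine h.congr_deriv ?_
    push_cast
    generalize Real.sinh (l / 2) = S at *
    generalize Real.cosh (l / 2) = C at *
    have e : (S * (1 / 2) * (2 * S ^ 3) - C * (2 * (3 * S ^ (3 - 1) * (C * (1 / 2))))) =
      S ^ 4 - 3 * S ^ 2 * (S ^ 2 + 1) := by
      rw [← hcs]; norm_num; ring
    rw [e]
    field_simp
    ring
  · intro hl1
    set S := Real.sinh (l / 2) with hSdef
    set C := Real.cosh (l / 2) with hCdef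
    have hx4 : l / 2 ≤ 1 / 4 := by linarith
    have hlow : l / 2 ≤ S := Real.self_le_sinh_iff.2 hl2.le
    have hup : S ^ 2 ≤ (l / 2) ^ 2 + 3 / 4 * ((l / 2) ^ 2) ^ 2 := sq_up hl2.le hx4
    have hy : (l / 2) ^ 2 ≤ 1 / 16 := by nlinarith
    have hy0 : 0 < (l / 2) ^ 2 := by positivity
    have hup2 : S ^ 2 ≤ (67 / 64) * (l / 2) ^ 2 := by nlinarith
    have hlow2 : (l / 2) ^ 2 ≤ S ^ 2 := pow_le_pow_left₀ hl2.le hlow 2
    have hlow3 : (l / 2) ^ 3 ≤ S ^ 3 := pow_le_pow_left₀ hl2.le hlow 3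
    have hlow4 : (l / 2) ^ 4 ≤ S ^ 4 := pow_le_pow_left₀ hl2.le hlow 4
    have hS16 : S ^ 2 ≤ 67 / 1024 := by nlinarith
    have hC1 : C ^ 2 ≤ (1.05 : ℝ) ^ 2 := by norm_num; nlinarith
    have hC0 : 0 < C := Real.cosh_pos _
    have hC : C ≤ 1.05 := by
      exact le_of_abs_le (abs_le_of_sq_le_sq hC1 (by norm_num))
    have hSC : S ≤ (l / 2) * C := by
      have h1 : S ^ 2 ≤ ((l / 2) * C) ^ 2 := by
        rw [mul_pow, hcs]
        nlinarith
      exact le_of_abs_le (abs_le_of_sq_le_sq h1 (by positivity))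
    refine ⟨?_, ?_, ?_, ?_, ?_, ?_, ?_⟩
    · rw [div_le_div_iff₀ (by positivity) (by positivity)]
      nlinarith
    · rw [div_le_div_iff₀ (by positivity) (by positivity)]
      nlinarith
    · rw [div_le_div_iff₀ (by positivity) (by positivity)]
      have h3 : l ^ 3 ≤ 8 * S ^ 3 := by nlinarith [hlow3]
      have : C * l ^ 3 ≤ 1.05 * (8 * S ^ 3) := mul_le_mul hC h3 (by positivity) (by norm_num)
      have hS3 : 0 < S ^ 3 := by positivity
      nlinarith
    · rw [div_le_div_iff₀ (by positivity) (by positivity)]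
      have h4 : l ^ 4 ≤ 16 * S ^ 4 := by nlinarith [hlow4]
      have : (3 + 2 * S ^ 2) * l ^ 4 ≤ (3 + 2 * (67 / 1024)) * (16 * S ^ 4) :=
        mul_le_mul (by linarith) h4 (by positivity) (by norm_num)
      have hS4 : 0 < S ^ 4 := by positivity
      nlinarith
    · show 2 / l ≤ C / S
      rw [div_le_div_iff₀ (by positivity) (by positivity)]
      nlinarith
    · show C / S ≤ 2.1 / l
      rw [div_le_div_iff₀ (by positivity) (by positivity)]
      have : C * l ≤ 1.05 * (2 * S) := mul_le_mul hC (by linarith) hl.le (by norm_num)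
      nlinarith
    · rw [div_le_div_iff₀ (by positivity) (by positivity)]
      linarith

end Pool.Agent.Work.MP_56b8f5_nt.UB
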