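import Mathlib
import Pool.Agent.Work.MP_56b8f5_nt.UB.Stmts

/-!
MP_56b8f5_nt, block UB, item Phi: existence of the weights `φ`, `Θ`.
-/

open MeasureTheory Set Filter Topology
open scoped FourierTransform SchwartzMap ContDiff

noncomputable section

namespace Pool.Agent.Work.MP_56b8f5_nt.UB

namespace Phi_aux

/-- the bump -/
def b : ContDiffBump (0 : ℝ) := ⟨1 / 4, 1 / 2, by norm_num, by norm_num⟩

theorem b_zero {x : ℝ} (hx : 1 / 2 ≤ |x|) : b x = 0 := by
  apply b.zero_of_le_dist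
  simpa [b, Real.dist_eq] using hx

theorem b_int : Integrable (fun x : ℝ => b x) :=
  b.continuous.integrable_of_hasCompactSupport b.hasCompactSupport

/-- complex version -/
def f (x : ℝ) : ℂ := (b x : ℂ)

theorem f_cd : ContDiff ℝ ∞ f := Complex.ofRealCLM.contDiff.comp b.contDiff

theorem f_cs : HasCompactSupport f := by
  have h : HasCompactSupport (fun x : ℝ => b x) := b.hasCompactSupport
  exact h.comp_left (g := fun r : ℝ => (r : ℂ)) (by simp)

/-- Schwartz version -/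
def S : 𝓢(ℝ, ℂ) := f_cs.toSchwartzMap f_cd

theorem S_apply (x : ℝ) : S x = (b x : ℂ) := rfl

/-- the Fourier transform -/
def F : 𝓢(ℝ, ℂ) := 𝓕 S

/-- real cosine transform -/
def g (z : ℝ) : ℝ := ∫ x, b x * Real.cos (x * z)

theorem int_cos (z : ℝ) : Integrable (fun x : ℝ => b x * Real.cos (x * z)) := by
  apply Continuous.integrable_of_hasCompactSupport
  · exact b.continuous.mul (by fun_prop)
  · exact HasCompactSupport.mul_right (f := fun x : ℝ => b x) b.hasCompactSupport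

theorem int_sin (z : ℝ) : Integrable (fun x : ℝ => b x * Real.sin (x * z)) := by
  apply Continuous.integrable_of_hasCompactSupport
  · exact b.continuous.mul (by fun_prop)
  · exact HasCompactSupport.mul_right (f := fun x : ℝ => b x) b.hasCompactSupport

theorem sin_zero (z : ℝ) : ∫ x, b x * Real.sin (x * z) = 0 := by
  have h := integral_neg_eq_self (fun x : ℝ => b x * Real.sin (x * z)) volume
  have h2 : (fun x : ℝ => b (-x) * Real.sin (-x * z)) = fun x => -(b x * Real.sin (x * z)) := by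
    funext x
    rw [b.neg, neg_mul, Real.sin_neg]; ring
  rw [h2, integral_neg] at h
  linarith

theorem F_apply (w : ℝ) : F w = (g (2 * Real.pi * w) : ℂ) := by
  have h1 : F w = 𝓕 (S : ℝ → ℂ) w := rfl
  rw [h1, Real.fourier_real_eq_integral_exp_smul]
  have h2 : ∀ v : ℝ, Complex.exp (↑(-2 * Real.pi * v * w) * Complex.I) • S v =
      ((b v * Real.cos (v * (2 * Real.pi * w)) : ℝ) : ℂ) -
        ((b v * Real.sin (v * (2 * Real.pi * w)) : ℝ) : ℂ) * Complex.I := by
    intro v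
    rw [S_apply, smul_eq_mul]
    have : Complex.exp (↑(-2 * Real.pi * v * w) * Complex.I) =
        ((Real.cos (v * (2 * Real.pi * w)) : ℝ) : ℂ) -
          ((Real.sin (v * (2 * Real.pi * w)) : ℝ) : ℂ) * Complex.I := by
      have e : (-2 * Real.pi * v * w : ℝ) = -(v * (2 * Real.pi * w)) := by ring
      rw [e, Complex.exp_mul_I, ← Complex.ofReal_cos, ← Complex.ofReal_sin, Real.cos_neg,
        Real.sin_neg]
      push_cast; ring
    rw [this]
    push_cast; ring
  simp_rw [h2]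
  rw [integral_sub (int_cos _).ofReal ((int_sin _).ofReal.mul_const _), integral_mul_const,
    integral_complex_ofReal, integral_complex_ofReal, sin_zero]
  simp [g]

theorem g_eq (z : ℝ) : (g z : ℂ) = F (z / (2 * Real.pi)) := by
  rw [F_apply]
  congr 2
  field_simp

theorem g_cont : Continuous g := by
  have : g = fun z => (F (z / (2 * Real.pi))).re := by
    funext z
    rw [← g_eq]; simp
  rw [this]
  exact Complex.continuous_re.comp (F.continuous.comp (by fun_prop))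

theorem g_neg (z : ℝ) : g (-z) = g z := by
  unfold g
  simp_rw [mul_neg, Real.cos_neg]

theorem b_pos : 0 < ∫ x, b x := b.integral_pos

theorem g_lower {z : ℝ} (hz : |z| ≤ 1) : 7 / 8 * ∫ x, b x ≤ g z := by
  unfold g
  rw [← integral_const_mul]
  apply integral_mono (b_int.const_mul _) (int_cos z)
  intro x
  show 7 / 8 * b x ≤ b x * Real.cos (x * z)
  rcases le_or_gt (1 / 2) |x| with h | h
  · rw [b_zero h]; simp
  · have h1 : (x * z) ^ 2 ≤ 1 / 4 := by
      rw [mul_pow, ← sq_abs x, ← sq_abs z]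
      have hx0 := abs_nonneg x
      have hz0 := abs_nonneg z
      have a1 : |x| ^ 2 ≤ 1 / 4 := by nlinarith
      have a2 : |z| ^ 2 ≤ 1 := by nlinarith
      have a3 : 0 ≤ |x| ^ 2 := by positivity
      have a4 : 0 ≤ |z| ^ 2 := by positivity
      nlinarith
    have h2 := Real.one_sub_sq_div_two_le_cos (x := x * z)
    have h3 : 7 / 8 ≤ Real.cos (x * z) := by linarith
    have h4 := b.nonneg (x := x)
    nlinarith

theorem F_dec : ∃ D : ℝ, 0 < D ∧ ∀ z : ℝ, |g z| * (1 + z ^ 2) ≤ D := by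
  obtain ⟨C0, hC0, h0⟩ := F.decay 0 0
  obtain ⟨C2, hC2, h2⟩ := F.decay 2 0
  refine ⟨C0 + (2 * Real.pi) ^ 2 * C2, by positivity, fun z => ?_⟩
  have e0 := h0 (z / (2 * Real.pi))
  have e2 := h2 (z / (2 * Real.pi))
  rw [norm_iteratedFDeriv_zero, ← g_eq, Complex.norm_real] at e0 e2
  simp only [pow_zero, one_mul] at e0
  rw [Real.norm_eq_abs] at e0
  rw [Real.norm_eq_abs, Real.norm_eq_abs, sq_abs, div_pow] at e2
  have e3 : z ^ 2 * |g z| = (2 * Real.pi) ^ 2 * (z ^ 2 / (2 * Real.pi) ^ 2 * |g z|) := by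
    field_simp
  have e4 : z ^ 2 * |g z| ≤ (2 * Real.pi) ^ 2 * C2 := by
    rw [e3]
    exact mul_le_mul_of_nonneg_left e2 (by positivity)
  nlinarith

/-- convolution -/
def Q : 𝓢(ℝ, ℂ) := SchwartzMap.convolution (ContinuousLinearMap.mul ℂ ℂ) S S

theorem Q_apply (x : ℝ) : Q x = ((∫ t, b t * b (x - t) : ℝ) : ℂ) := by
  unfold Q
  rw [SchwartzMap.convolution_apply]
  show ∫ t, S t * S (x - t) = _
  rw [← integral_complex_ofReal]
  congr 1
  funext t
  rw [S_apply, S_apply]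
  push_cast; rfl

theorem Q_four (w : ℝ) : (𝓕 Q : 𝓢(ℝ, ℂ)) w = F w * F w := by
  unfold Q
  rw [SchwartzMap.fourier_convolution]
  rfl

theorem Q_inv (x : ℝ) :
    Q x = ∫ v : ℝ, Complex.exp (↑(2 * Real.pi * (v * x)) * Complex.I) * (F v * F v) := by
  have h1 : Q x = (𝓕⁻ (𝓕 Q : 𝓢(ℝ, ℂ)) : 𝓢(ℝ, ℂ)) x := by
    rw [FourierTransform.fourierInv_fourier_eq]
  rw [h1, SchwartzMap.fourierInv_coe, Real.fourierInv_eq']
  congr 1
  funext v
  rw [smul_eq_mul, Q_four]
  congr 4
  simp [mul_comm]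

theorem Q_inv2 (x : ℝ) :
    ∫ z : ℝ, ((g z ^ 2 : ℝ) : ℂ) * Complex.exp (Complex.I * ((x * z : ℝ) : ℂ)) =
      ((2 * Real.pi : ℝ) : ℂ) * Q x := by
  rw [Q_inv]
  have h := Measure.integral_comp_div (fun v : ℝ =>
    Complex.exp (↑(2 * Real.pi * (v * x)) * Complex.I) * (F v * F v)) (2 * Real.pi)
  have hp : 0 < 2 * Real.pi := by positivity
  rw [abs_of_pos hp] at h
  have e : ∀ z : ℝ, ((g z ^ 2 : ℝ) : ℂ) * Complex.exp (Complex.I * ((x * z : ℝ) : ℂ)) =
      Complex.exp (↑(2 * Real.pi * (z / (2 * Real.pi) * x)) * Complex.I) *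
        (F (z / (2 * Real.pi)) * F (z / (2 * Real.pi))) := by
    intro z
    rw [← g_eq]
    have e1 : 2 * Real.pi * (z / (2 * Real.pi) * x) = x * z := by field_simp
    rw [e1, mul_comm Complex.I]
    push_cast; ring
  simp_rw [e]
  rw [h, Complex.real_smul]

theorem Q_even (x : ℝ) : (∫ t, b t * b (-x - t) : ℝ) = ∫ t, b t * b (x - t) := by
  have h := integral_neg_eq_self (fun t : ℝ => b t * b (x - t)) volume
  rw [← h]
  congr 1
  funext t
  rw [b.neg, ← b.neg (-x - t)]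
  congr 2
  ring

theorem Q_supp {x : ℝ} (hx : 1 ≤ |x|) : (∫ t, b t * b (x - t) : ℝ) = 0 := by
  have : ∀ t : ℝ, b t * b (x - t) = 0 := by
    intro t
    rcases le_or_gt (1 / 2) |t| with h | h
    · rw [b_zero h, zero_mul]
    · have h2 : 1 / 2 ≤ |x - t| := by
        have := abs_sub_abs_le_abs_sub x t
        linarith
      rw [b_zero h2, mul_zero]
  simp [this]

end Phi_aux

open Phi_aux in
/-- ITEM Phi. -/
theorem iPhi : StPhi := by
  set m : ℝ := 7 / 8 * ∫ x, b x with hm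
  have hm0 : 0 < m := by have := b_pos; positivity
  refine ⟨fun z => g z ^ 2 / m ^ 2, fun x => 2 * Real.pi / m ^ 2 * (Q x).re, ?_⟩
  have hQ : ∀ x, (Q x).re = ∫ t, b t * b (x - t) := by
    intro x; rw [Q_apply]; simp
  have hQ2 : ∀ x, (((Q x).re : ℝ) : ℂ) = Q x := by
    intro x; rw [hQ, Q_apply]
  refine ⟨?_, ?_, ?_, ?_, ?_, ?_, ?_, ?_, ?_⟩
  · exact (g_cont.pow 2).div_const _
  · intro z
    show g (-z) ^ 2 / m ^ 2 = g z ^ 2 / m ^ 2
    rw [g_neg]
  · intro z; positivity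
  · intro z hz
    show 1 ≤ g z ^ 2 / m ^ 2
    rw [le_div_iff₀ (by positivity), one_mul]
    have := g_lower hz
    exact pow_le_pow_left₀ hm0.le this 2
  · obtain ⟨D, hD, h⟩ := F_dec
    refine ⟨D ^ 2 / m ^ 2, fun z => ?_⟩
    show g z ^ 2 / m ^ 2 ≤ D ^ 2 / m ^ 2 / (1 + z ^ 2) ^ 2
    rw [div_div, mul_comm, ← div_div]
    apply div_le_div_of_nonneg_right _ (by positivity)
    rw [le_div_iff₀ (by positivity), ← sq_abs, ← mul_pow]
    exact pow_le_pow_left₀ (by positivity) (h z) 2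
  · exact (contDiff_const).mul (Complex.reCLM.contDiff.comp Q.smooth')
  · intro x
    show 2 * Real.pi / m ^ 2 * (Q (-x)).re = 2 * Real.pi / m ^ 2 * (Q x).re
    rw [hQ, hQ, Q_even]
  · intro x hx
    show 2 * Real.pi / m ^ 2 * (Q x).re = 0
    rw [hQ, Q_supp hx, mul_zero]
  · intro x
    show ∫ z : ℝ, ((g z ^ 2 / m ^ 2 : ℝ) : ℂ) * Complex.exp (Complex.I * ((x * z : ℝ) : ℂ)) =
      ((2 * Real.pi / m ^ 2 * (Q x).re : ℝ) : ℂ)
    have e : ∀ z : ℝ, ((g z ^ 2 / m ^ 2 : ℝ) : ℂ) * Complex.exp (Complex.I * ((x * z : ℝ) : ℂ)) =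
        ((1 / m ^ 2 : ℝ) : ℂ) *
          (((g z ^ 2 : ℝ) : ℂ) * Complex.exp (Complex.I * ((x * z : ℝ) : ℂ))) := by
      intro z
      push_cast; ring
    simp_rw [e]
    rw [integral_const_mul, Q_inv2]
    have e2 : ((2 * Real.pi / m ^ 2 * (Q x).re : ℝ) : ℂ) =
        ((2 * Real.pi / m ^ 2 : ℝ) : ℂ) * (((Q x).re : ℝ) : ℂ) := by push_cast; ring
    rw [e2, hQ2]
    push_cast; ring

end Pool.Agent.Work.MP_56b8f5_nt.UB
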