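import Pool.Agent.Work.MP_56b8f5_nt.UB.Stmts
import Pool.Agent.Work.MP_56b8f5_nt.EM.Stmts

/-!
MP_56b8f5_nt (eighth moment of the Riemann zeta function), block UB, item Rp: reproducing kernel.

`η` a smooth bump function, `ρ = 𝓕 η`, `k(u) = a ρ(a u)` with `a = L / (2 π)`, `L = 4 log T`.
-/

open MeasureTheory Set Filter Topology
open scoped FourierTransform SchwartzMap

noncomputable section

namespace Pool.Agent.Work.MP_56b8f5_nt.UB

namespace Rp_aux

/-- bump function: `1` on `[-1,1]`, support in `(-2,2)` -/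
def etB : ContDiffBump (0 : ℝ) := ⟨1, 2, by norm_num, by norm_num⟩

/-- complex valued version -/
def et (x : ℝ) : ℂ := ((etB x : ℝ) : ℂ)

lemma et_smooth : ContDiff ℝ ((⊤ : ℕ∞) : WithTop ℕ∞) et :=
  Complex.ofRealCLM.contDiff.comp etB.contDiff

lemma et_supp : HasCompactSupport et :=
  etB.hasCompactSupport.comp_left (g := fun x : ℝ => (x : ℂ)) rfl

lemma et_one {x : ℝ} (hx : |x| ≤ 1) : et x = 1 := by
  unfold et
  rw [etB.one_of_mem_closedBall (by simpa [etB] using hx)]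
  simp

lemma et_le (x : ℝ) : ‖1 - et x‖ ≤ 1 := by
  unfold et
  have h1 : (0 : ℝ) ≤ etB x := etB.nonneg
  have h2 : etB x ≤ (1 : ℝ) := etB.le_one
  rw [← Complex.ofReal_one, ← Complex.ofReal_sub, Complex.norm_real, Real.norm_eq_abs, abs_le]
  constructor <;> linarith

/-- the Schwartz function `η` -/
def es : 𝓢(ℝ, ℂ) := et_supp.toSchwartzMap et_smooth

/-- the Schwartz function `ρ` -/
def rh : 𝓢(ℝ, ℂ) := 𝓕 es

lemma rh_inv (x : ℝ) : ∫ v : ℝ, rh v * Complex.exp (((2 * Real.pi * (v * x) : ℝ) : ℂ) * Complex.I) =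
    et x := by
  have h1 : 𝓕⁻ rh = es := by
    unfold rh
    exact FourierTransform.fourierInv_fourier_eq es
  have h2 : (𝓕⁻ rh) x = et x := by
    rw [h1]; rfl
  rw [SchwartzMap.fourierInv_coe, Real.fourierInv_eq'] at h2
  rw [← h2]
  refine integral_congr_ae (Eventually.of_forall fun v => ?_)
  simp only [smul_eq_mul]
  rw [mul_comm]
  congr 4
  simp [mul_comm]

/-- the kernel `k(u) = a ρ(a u)` -/
def kk (a u : ℝ) : ℂ := (a : ℂ) * rh (a * u)

lemma kk_cont (a : ℝ) : Continuous (kk a) :=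
  continuous_const.mul (rh.continuous.comp (continuous_const.mul continuous_id))

lemma kk_int {a : ℝ} (ha : 0 < a) : Integrable (kk a) :=
  ((rh.integrable (μ := volume)).comp_mul_left' ha.ne').const_mul _

lemma kk_norm {a : ℝ} (ha : 0 < a) (u : ℝ) : ‖kk a u‖ = a * ‖rh (a * u)‖ := by
  unfold kk
  rw [norm_mul, Complex.norm_real, Real.norm_eq_abs, abs_of_pos ha]

lemma kk_four {a : ℝ} (ha : 0 < a) (y : ℝ) :
    ∫ u : ℝ, kk a u * Complex.exp (((-(u * y) : ℝ) : ℂ) * Complex.I) = et (-(y / (2 * Real.pi * a))) := by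
  have h := Measure.integral_comp_mul_left (fun v : ℝ => rh v *
    Complex.exp (((2 * Real.pi * (v * (-(y / (2 * Real.pi * a)))) : ℝ) : ℂ) * Complex.I)) a
  rw [rh_inv] at h
  have h2 : ∫ u : ℝ, kk a u * Complex.exp (((-(u * y) : ℝ) : ℂ) * Complex.I) =
      ∫ u : ℝ, (a : ℂ) * (rh (a * u) *
        Complex.exp (((2 * Real.pi * ((a * u) * (-(y / (2 * Real.pi * a)))) : ℝ) : ℂ) * Complex.I)) := by
    refine integral_congr_ae (Eventually.of_forall fun u => ?_)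
    have e1 : 2 * Real.pi * ((a * u) * (-(y / (2 * Real.pi * a)))) = -(u * y) := by
      have := Real.pi_pos.ne'
      field_simp
    simp only [e1, kk]
    ring
  rw [h2, integral_const_mul, h, abs_of_pos (inv_pos.2 ha), Complex.real_smul, ← mul_assoc]
  have ha' : (a : ℂ) ≠ 0 := by exact_mod_cast ha.ne'
  rw [Complex.ofReal_inv, mul_inv_cancel₀ ha', one_mul]

lemma kk_mom {a : ℝ} (ha : 0 < a) (A : ℕ) :
    Integrable (fun u : ℝ => |u| ^ A * ‖kk a u‖) ∧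
    ∫ u : ℝ, |u| ^ A * ‖kk a u‖ = a⁻¹ ^ A * ∫ v : ℝ, |v| ^ A * ‖rh v‖ := by
  have h0 : Integrable fun v : ℝ => |v| ^ A * ‖rh v‖ := by
    simpa [Real.norm_eq_abs] using rh.integrable_pow_mul volume A
  have e1 : (fun u : ℝ => |u| ^ A * ‖kk a u‖) =
      fun u : ℝ => (a⁻¹ ^ A * a) * (|a * u| ^ A * ‖rh (a * u)‖) := by
    funext u
    rw [kk_norm ha, abs_mul, abs_of_pos ha, mul_pow, inv_pow]
    have : a ^ A ≠ 0 := pow_ne_zero _ ha.ne'
    field_simp
  constructor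
  · rw [e1]
    exact (h0.comp_mul_left' ha.ne').const_mul _
  · rw [e1, integral_const_mul]
    have h := Measure.integral_comp_mul_left (fun v : ℝ => |v| ^ A * ‖rh v‖) a
    rw [h, abs_of_pos (inv_pos.2 ha), smul_eq_mul]
    field_simp

lemma rh_sq_int : Integrable fun v : ℝ => ‖rh v‖ ^ 2 := by
  have h := (rh.memLp 2 volume)
  exact h.integrable_norm_pow (by norm_num)

lemma kk_sq {a : ℝ} (ha : 0 < a) :
    Integrable (fun u : ℝ => ‖kk a u‖ ^ 2) ∧
    ∫ u : ℝ, ‖kk a u‖ ^ 2 = a * ∫ v : ℝ, ‖rh v‖ ^ 2 := by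
  have e1 : (fun u : ℝ => ‖kk a u‖ ^ 2) = fun u : ℝ => a ^ 2 * ‖rh (a * u)‖ ^ 2 := by
    funext u
    rw [kk_norm ha, mul_pow]
  constructor
  · rw [e1]
    exact (rh_sq_int.comp_mul_left' ha.ne').const_mul _
  · rw [e1, integral_const_mul]
    have h := Measure.integral_comp_mul_left (fun v : ℝ => ‖rh v‖ ^ 2) a
    rw [h, abs_of_pos (inv_pos.2 ha), smul_eq_mul]
    field_simp

/-! ### The Dirichlet series -/

/-- the terms of `P K t` -/
def cf (K t : ℝ) (n : ℕ) : ℂ :=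
  (Real.exp (-((n : ℝ) / K)) : ℂ) * (n : ℂ) ^ (-(1 / 2 + t * Complex.I))

lemma cf_norm (K t : ℝ) (n : ℕ) : ‖cf K t n‖ = Real.exp (-((n : ℝ) / K)) / Real.sqrt n := by
  unfold cf
  rw [norm_mul, Complex.norm_real, Real.norm_eq_abs, abs_of_pos (Real.exp_pos _)]
  rcases Nat.eq_zero_or_pos n with h | h
  · subst h
    have : (-(1 / 2 + (t : ℂ) * Complex.I)) ≠ 0 := by
      intro h
      have := congrArg Complex.re h
      simp at this
    have h0 : ((0 : ℕ) : ℂ) ^ (-(1 / 2 + (t : ℂ) * Complex.I)) = 0 := by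
      rw [Nat.cast_zero]
      exact Complex.zero_cpow this
    rw [h0]
    simp
  · rw [Complex.norm_natCast_cpow_of_pos h]
    have : (-(1 / 2 + (t : ℂ) * Complex.I)).re = -(1 / 2) := by simp
    rw [this, Real.rpow_neg (by positivity), ← Real.sqrt_eq_rpow]
    rfl

lemma cf_shift (K t u : ℝ) (n : ℕ) : cf K (t + u) n =
    cf K t n * Complex.exp (((-(u * Real.log n) : ℝ) : ℂ) * Complex.I) := by
  rcases Nat.eq_zero_or_pos n with h | h
  · have h1 : ∀ s, cf K s n = 0 := by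
      intro s
      have := cf_norm K s n
      rw [h] at this ⊢
      simpa using this
    rw [h1, h1, zero_mul]
  · have hn : (n : ℂ) ≠ 0 := by exact_mod_cast h.ne'
    unfold cf
    rw [mul_assoc]
    congr 1
    rw [Complex.cpow_def_of_ne_zero hn, Complex.cpow_def_of_ne_zero hn, ← Complex.exp_add,
      ← Complex.natCast_log]
    congr 1
    push_cast
    ring

lemma P_conv (hPc : EM.StPc) {K a : ℝ} (hK : 1 ≤ K) (ha : 0 < a) (t : ℝ) :
    Integrable (fun u : ℝ => EM.P K (t + u) * kk a u) ∧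
    HasSum (fun n : ℕ => cf K t n * et (-(Real.log n / (2 * Real.pi * a))))
      (∫ u : ℝ, EM.P K (t + u) * kk a u) := by
  obtain ⟨hc, hb, hs, -, -⟩ := hPc K hK
  constructor
  · refine (kk_int ha).bdd_mul (c := 2 * Real.sqrt K) ?_ ?_
    · exact (hc.comp (continuous_const.add continuous_id)).aestronglyMeasurable
    · exact Eventually.of_forall fun u => hb (t + u)
  have hF : ∀ (n : ℕ) (u : ℝ), cf K (t + u) n * kk a u =
      cf K t n * (kk a u * Complex.exp (((-(u * Real.log n) : ℝ) : ℂ) * Complex.I)) := by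
    intro n u
    rw [cf_shift]; ring
  have hN : ∀ (n : ℕ) (u : ℝ), ‖cf K (t + u) n * kk a u‖ = ‖cf K t n‖ * ‖kk a u‖ := by
    intro n u
    rw [hF, norm_mul, norm_mul, Complex.norm_exp_ofReal_mul_I, mul_one]
  have h1 : ∀ n : ℕ, Integrable fun u : ℝ => cf K (t + u) n * kk a u := by
    intro n
    have h2 : Integrable fun u : ℝ =>
        kk a u * Complex.exp (((-(u * Real.log n) : ℝ) : ℂ) * Complex.I) := by
      refine (kk_int ha).mono ?_ (Eventually.of_forall fun u => ?_)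
      · exact ((kk_cont a).mul (by fun_prop)).aestronglyMeasurable
      · rw [norm_mul, Complex.norm_exp_ofReal_mul_I, mul_one]
    refine (h2.const_mul (cf K t n)).congr (Eventually.of_forall fun u => ?_)
    exact (hF n u).symm
  have h3 : Summable fun n : ℕ => ∫ u : ℝ, ‖cf K (t + u) n * kk a u‖ := by
    have : (fun n : ℕ => ∫ u : ℝ, ‖cf K (t + u) n * kk a u‖) =
        fun n : ℕ => ‖cf K t n‖ * ∫ u : ℝ, ‖kk a u‖ := by
      funext n
      simp_rw [hN]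
      rw [integral_const_mul]
    rw [this]
    exact (hs t).mul_right _
  have h4 := hasSum_integral_of_summable_integral_norm h1 h3
  have h5 : ∀ u : ℝ, ∑' n : ℕ, cf K (t + u) n * kk a u = EM.P K (t + u) * kk a u := by
    intro u
    rw [tsum_mul_right]
    rfl
  simp_rw [h5] at h4
  have h6 : ∀ n : ℕ, ∫ u : ℝ, cf K (t + u) n * kk a u =
      cf K t n * et (-(Real.log n / (2 * Real.pi * a))) := by
    intro n
    simp_rw [hF]
    rw [integral_const_mul, kk_four ha]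
  simp_rw [h6] at h4
  exact h4

lemma P_hasSum (hPc : EM.StPc) {K : ℝ} (hK : 1 ≤ K) (t : ℝ) : HasSum (cf K t) (EM.P K t) := by
  obtain ⟨-, -, hs, -, -⟩ := hPc K hK
  exact (hs t).of_norm.hasSum

/-- the error of the reproducing formula -/
lemma P_err (hPc : EM.StPc) {T a : ℝ} (hT : 1 ≤ T) (ha : 0 < a)
    (haT : 2 * Real.pi * a = 4 * Real.log T) (t : ℝ) :
    ‖EM.P (T ^ 2) t - ∫ u : ℝ, EM.P (T ^ 2) (t + u) * kk a u‖ ≤ 3 := by
  have hK : 1 ≤ T ^ 2 := one_le_pow₀ hT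
  have hK2 : 1 ≤ 2 * T ^ 2 := by linarith
  obtain ⟨-, hP2⟩ := P_conv hPc hK ha t
  have h1 := (P_hasSum hPc hK t).sub hP2
  obtain ⟨-, -, -, hs2, hb2⟩ := hPc (2 * T ^ 2) hK2
  have hT0 : 0 < T := by linarith
  have hlog : 0 < 4 * Real.log T := by
    rw [← haT]; have := Real.pi_pos; positivity
  have hterm : ∀ n : ℕ, ‖cf (T ^ 2) t n - cf (T ^ 2) t n * et (-(Real.log n / (2 * Real.pi * a)))‖ ≤
      Real.exp (-(T ^ 2 / 2)) * (Real.exp (-((n : ℝ) / (2 * T ^ 2))) / Real.sqrt n) := by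
    intro n
    have e1 : cf (T ^ 2) t n - cf (T ^ 2) t n * et (-(Real.log n / (2 * Real.pi * a))) =
      cf (T ^ 2) t n * (1 - et (-(Real.log n / (2 * Real.pi * a)))) := by ring
    rw [e1, norm_mul, cf_norm]
    by_cases hn : (n : ℝ) ≤ T ^ 4
    · have hx : |(-(Real.log n / (2 * Real.pi * a)))| ≤ 1 := by
        have hl0 : 0 ≤ Real.log n := Real.log_natCast_nonneg n
        rw [abs_neg, haT, abs_of_nonneg (div_nonneg hl0 hlog.le), div_le_one hlog]
        rcases Nat.eq_zero_or_pos n with h | h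
        · subst h; simpa using hlog.le
        · have h3 : Real.log n ≤ Real.log (T ^ 4) :=
            Real.log_le_log (by exact_mod_cast h) hn
          rw [Real.log_pow] at h3
          exact_mod_cast h3
      rw [et_one hx]
      simp only [sub_self, norm_zero, mul_zero]
      positivity
    · have hn' : T ^ 4 < n := not_le.1 hn
      have h3 : Real.exp (-((n : ℝ) / T ^ 2)) ≤
          Real.exp (-(T ^ 2 / 2)) * Real.exp (-((n : ℝ) / (2 * T ^ 2))) := by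
        rw [← Real.exp_add]
        apply Real.exp_le_exp.2
        have h4 : T ^ 2 ≤ (n : ℝ) / T ^ 2 := by
          rw [le_div_iff₀ (by positivity)]
          nlinarith
        have h5 : (n : ℝ) / (2 * T ^ 2) = ((n : ℝ) / T ^ 2) / 2 := by
          field_simp
        rw [h5]
        linarith
      calc Real.exp (-((n : ℝ) / T ^ 2)) / Real.sqrt n * ‖1 - et (-(Real.log n / (2 * Real.pi * a)))‖
          ≤ Real.exp (-((n : ℝ) / T ^ 2)) / Real.sqrt n * 1 :=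
            mul_le_mul_of_nonneg_left (et_le _) (by positivity)
        _ ≤ (Real.exp (-(T ^ 2 / 2)) * Real.exp (-((n : ℝ) / (2 * T ^ 2)))) / Real.sqrt n := by
            rw [mul_one]
            exact div_le_div_of_nonneg_right h3 (Real.sqrt_nonneg _)
        _ = _ := by ring
  have h7 : ‖EM.P (T ^ 2) t - ∫ u : ℝ, EM.P (T ^ 2) (t + u) * kk a u‖ ≤
      Real.exp (-(T ^ 2 / 2)) * ∑' n : ℕ, (Real.exp (-((n : ℝ) / (2 * T ^ 2))) / Real.sqrt n) := by
    rw [← h1.tsum_eq, ← tsum_mul_left]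
    exact tsum_of_norm_bounded (hs2.mul_left _).hasSum hterm
  have h8 : Real.sqrt (2 * T ^ 2) ≤ 3 / 2 * T := by
    rw [Real.sqrt_le_left (by positivity)]
    nlinarith
  have h9 : T ≤ Real.exp (T ^ 2 / 2) := by
    have := Real.add_one_le_exp (T ^ 2 / 2)
    nlinarith [sq_nonneg (T - 1)]
  have h10 : Real.exp (-(T ^ 2 / 2)) * T ≤ 1 := by
    rw [Real.exp_neg, inv_mul_le_iff₀ (Real.exp_pos _), mul_one]
    exact h9
  calc _ ≤ Real.exp (-(T ^ 2 / 2)) * (2 * Real.sqrt (2 * T ^ 2)) :=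
        h7.trans (mul_le_mul_of_nonneg_left hb2 (Real.exp_pos _).le)
    _ ≤ Real.exp (-(T ^ 2 / 2)) * (2 * (3 / 2 * T)) :=
        mul_le_mul_of_nonneg_left (by linarith) (Real.exp_pos _).le
    _ = 3 * (Real.exp (-(T ^ 2 / 2)) * T) := by ring
    _ ≤ 3 := by linarith

/-- the tail of the convolution -/
lemma P_tail (hPc : EM.StPc) {T a R : ℝ} (hT : 1 ≤ T) (ha : 1 ≤ a) (hR : 0 < R) (A : ℕ)
    (hRA : T ≤ R ^ A) (t : ℝ) :
    ‖∫ u in (Ioc (-R) R)ᶜ, EM.P (T ^ 2) (t + u) * kk a u‖ ≤ 2 * ∫ v : ℝ, |v| ^ A * ‖rh v‖ := by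
  have hK : 1 ≤ T ^ 2 := one_le_pow₀ hT
  have hT0 : 0 < T := by linarith
  have ha0 : 0 < a := by linarith
  obtain ⟨-, hb, -, -, -⟩ := hPc (T ^ 2) hK
  obtain ⟨hm1, hm2⟩ := kk_mom ha0 A
  have hM : 0 ≤ ∫ v : ℝ, |v| ^ A * ‖rh v‖ := integral_nonneg fun v => by positivity
  have h1 : ‖∫ u in (Ioc (-R) R)ᶜ, EM.P (T ^ 2) (t + u) * kk a u‖ ≤
      ∫ u in (Ioc (-R) R)ᶜ, 2 * (|u| ^ A * ‖kk a u‖) := by
    refine norm_integral_le_of_norm_le (hm1.const_mul 2).integrableOn ?_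
    refine (ae_restrict_mem measurableSet_Ioc.compl).mono fun u hu => ?_
    have hu2 : R ≤ |u| := by
      by_contra hc
      have hc' := abs_lt.1 (not_le.1 hc)
      exact hu ⟨hc'.1, hc'.2.le⟩
    have h3 : T ≤ |u| ^ A := hRA.trans (pow_le_pow_left₀ hR.le hu2 A)
    have h4 := hb (t + u)
    rw [Real.sqrt_sq hT0.le] at h4
    rw [norm_mul]
    calc ‖EM.P (T ^ 2) (t + u)‖ * ‖kk a u‖ ≤ (2 * |u| ^ A) * ‖kk a u‖ :=
          mul_le_mul_of_nonneg_right (by linarith) (norm_nonneg _)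
      _ = _ := by ring
  have h2 : ∫ u in (Ioc (-R) R)ᶜ, 2 * (|u| ^ A * ‖kk a u‖) ≤ ∫ u, 2 * (|u| ^ A * ‖kk a u‖) :=
    setIntegral_le_integral (hm1.const_mul 2) (Eventually.of_forall fun u => by positivity)
  have h2b : ∫ u, 2 * (|u| ^ A * ‖kk a u‖) = 2 * (a⁻¹ ^ A * ∫ v : ℝ, |v| ^ A * ‖rh v‖) := by
    rw [integral_const_mul, hm2]
  rw [h2b] at h2
  have h5 : a⁻¹ ^ A ≤ 1 := pow_le_one₀ (by positivity) (inv_le_one_of_one_le₀ ha)
  calc _ ≤ 2 * (a⁻¹ ^ A * ∫ v : ℝ, |v| ^ A * ‖rh v‖) := h1.trans h2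
    _ ≤ 2 * (1 * ∫ v : ℝ, |v| ^ A * ‖rh v‖) := by
        have := mul_le_mul_of_nonneg_right h5 hM
        linarith
    _ = _ := by ring

/-- Cauchy-Schwarz -/
lemma cs {μ : Measure ℝ} {f g : ℝ → ℝ} (hf : Integrable (fun u => f u ^ 2) μ)
    (hg : Integrable (fun u => g u ^ 2) μ) (hfg : Integrable (fun u => f u * g u) μ) :
    (∫ u, f u * g u ∂μ) ^ 2 ≤ (∫ u, f u ^ 2 ∂μ) * ∫ u, g u ^ 2 ∂μ := by
  have h : ∀ x : ℝ, 0 ≤ (∫ u, f u ^ 2 ∂μ) * (x * x) + (2 * ∫ u, f u * g u ∂μ) * x + ∫ u, g u ^ 2 ∂μ := by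
    intro x
    have e : (∫ u, f u ^ 2 ∂μ) * (x * x) + (2 * ∫ u, f u * g u ∂μ) * x + ∫ u, g u ^ 2 ∂μ =
        ∫ u, (x * f u + g u) ^ 2 ∂μ := by
      have e1 : (fun u => (x * f u + g u) ^ 2) =
          fun u => (x ^ 2 * f u ^ 2 + (2 * x) * (f u * g u)) + g u ^ 2 := by
        funext u; ring
      have i1 : Integrable (fun u => x ^ 2 * f u ^ 2) μ := hf.const_mul _
      have i2 : Integrable (fun u => (2 * x) * (f u * g u)) μ := hfg.const_mul _
      have i3 : Integrable (fun u => x ^ 2 * f u ^ 2 + (2 * x) * (f u * g u)) μ := i1.add i2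
      rw [e1, integral_add i3 hg, integral_add i1 i2, integral_const_mul, integral_const_mul]
      ring
    rw [e]
    exact integral_nonneg fun u => sq_nonneg _
  have h2 := discrim_le_zero h
  unfold discrim at h2
  nlinarith

/-- the main part -/
lemma P_main (hPc : EM.StPc) {T a R : ℝ} (hT : 1 ≤ T) (ha : 0 < a) (hR : 0 < R) (t : ℝ) :
    ‖∫ u in Ioc (-R) R, EM.P (T ^ 2) (t + u) * kk a u‖ ^ 2 ≤
      (∫ u in (-R)..R, ‖EM.P (T ^ 2) (t + u)‖ ^ 2) * (a * ∫ v : ℝ, ‖rh v‖ ^ 2) := by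
  have hK : 1 ≤ T ^ 2 := one_le_pow₀ hT
  obtain ⟨hc, hb, -, -, -⟩ := hPc (T ^ 2) hK
  obtain ⟨hs1, hs2⟩ := kk_sq ha
  obtain ⟨hP1, -⟩ := P_conv hPc hK ha t
  have hcP : Continuous fun u : ℝ => ‖EM.P (T ^ 2) (t + u)‖ :=
    (hc.comp (continuous_const.add continuous_id)).norm
  have hii : IntegrableOn (fun u : ℝ => ‖EM.P (T ^ 2) (t + u)‖ ^ 2) (Ioc (-R) R) := by
    rw [← intervalIntegrable_iff_integrableOn_Ioc_of_le (by linarith)]
    exact (hcP.pow 2).intervalIntegrable _ _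
  have hfg : IntegrableOn (fun u : ℝ => ‖EM.P (T ^ 2) (t + u)‖ * ‖kk a u‖) (Ioc (-R) R) := by
    have := hP1.norm.integrableOn (s := Ioc (-R) R)
    simpa only [norm_mul] using this
  have h1 : ‖∫ u in Ioc (-R) R, EM.P (T ^ 2) (t + u) * kk a u‖ ≤
      ∫ u in Ioc (-R) R, ‖EM.P (T ^ 2) (t + u)‖ * ‖kk a u‖ := by
    refine (norm_integral_le_integral_norm _).trans (le_of_eq ?_)
    simp only [norm_mul]
  have h2 := cs hii hs1.integrableOn hfg
  have h3 : ∫ u in Ioc (-R) R, ‖kk a u‖ ^ 2 ≤ a * ∫ v : ℝ, ‖rh v‖ ^ 2 := by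
    rw [← hs2]
    exact setIntegral_le_integral hs1 (Eventually.of_forall fun u => by positivity)
  rw [intervalIntegral.integral_of_le (by linarith)]
  have h4 : 0 ≤ ∫ u in Ioc (-R) R, ‖EM.P (T ^ 2) (t + u)‖ ^ 2 :=
    integral_nonneg fun u => by positivity
  calc _ ≤ (∫ u in Ioc (-R) R, ‖EM.P (T ^ 2) (t + u)‖ * ‖kk a u‖) ^ 2 :=
        pow_le_pow_left₀ (norm_nonneg _) h1 2
    _ ≤ _ := h2
    _ ≤ _ := mul_le_mul_of_nonneg_left h3 h4

end Rp_aux

open Rp_aux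

/-- ITEM Rp: reproducing kernel. -/
theorem iRp (hPc : EM.StPc) : StRp := by
  intro ε hε
  obtain ⟨A, hA⟩ := exists_nat_gt (1 / ε)
  set M : ℝ := ∫ v : ℝ, |v| ^ A * ‖rh v‖ with hM
  set M2 : ℝ := ∫ v : ℝ, ‖rh v‖ ^ 2 with hM2
  have hM0 : 0 ≤ M := integral_nonneg fun v => by positivity
  have hM20 : 0 ≤ M2 := integral_nonneg fun v => by positivity
  have hsq : 0 ≤ 2 * (3 + 2 * M) ^ 2 := by positivity
  refine ⟨8 + 2 * M2 + 2 * (3 + 2 * M) ^ 2, by linarith, ?_⟩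
  intro T t hT
  have hT8 : 8 ≤ T := by linarith
  have hT1 : 1 ≤ T := by linarith
  have hT0 : 0 < T := by linarith
  have hlog : 2 ≤ Real.log T := by
    rw [Real.le_log_iff_exp_le hT0]
    have h1 : Real.exp 1 < 2.7182818286 := Real.exp_one_lt_d9
    have h2 : Real.exp 2 = Real.exp 1 * Real.exp 1 := by rw [← Real.exp_add]; norm_num
    have h3 := Real.exp_pos 1
    rw [h2]
    nlinarith
  set a : ℝ := 2 / Real.pi * Real.log T with haE
  have hpi := Real.pi_pos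
  have hpi4 : Real.pi ≤ 4 := Real.pi_le_four
  have hpi3 : 3 < Real.pi := Real.pi_gt_three
  have ha1 : 1 ≤ a := by
    rw [haE, div_mul_eq_mul_div, le_div_iff₀ hpi]
    linarith
  have ha0 : 0 < a := by linarith
  have haL : a ≤ Real.log T := by
    rw [haE, div_mul_eq_mul_div, div_le_iff₀ hpi]
    nlinarith
  have haT : 2 * Real.pi * a = 4 * Real.log T := by
    rw [haE]; field_simp; norm_num
  set R : ℝ := T ^ ε with hRE
  have hR : 0 < R := Real.rpow_pos_of_pos hT0 _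
  have hRA : T ≤ R ^ A := by
    rw [hRE, ← Real.rpow_natCast, ← Real.rpow_mul hT0.le]
    have h1 : 1 ≤ ε * A := by
      rw [div_lt_iff₀ hε] at hA
      linarith
    calc T = T ^ (1 : ℝ) := (Real.rpow_one T).symm
      _ ≤ _ := Real.rpow_le_rpow_of_exponent_le hT1 h1
  have e1 := P_err hPc hT1 ha0 haT t
  have e2 := P_tail hPc hT1 ha1 hR A hRA t
  have e3 := P_main hPc hT1 ha0 hR t
  obtain ⟨hI, -⟩ := P_conv hPc (one_le_pow₀ hT1 : 1 ≤ T ^ 2) ha0 t
  have e4 := integral_add_compl (μ := volume) (measurableSet_Ioc (a := -R) (b := R)) hI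
  rw [← e4] at e1
  set X : ℂ := ∫ u in Ioc (-R) R, EM.P (T ^ 2) (t + u) * kk a u with hX
  set Y : ℂ := ∫ u in (Ioc (-R) R)ᶜ, EM.P (T ^ 2) (t + u) * kk a u with hY
  have e5 : ‖EM.P (T ^ 2) t‖ ≤ ‖X‖ + (3 + 2 * M) := by
    have h1 : EM.P (T ^ 2) t = (EM.P (T ^ 2) t - (X + Y)) + X + Y := by ring
    calc ‖EM.P (T ^ 2) t‖ = ‖(EM.P (T ^ 2) t - (X + Y)) + X + Y‖ := by rw [← h1]
      _ ≤ ‖(EM.P (T ^ 2) t - (X + Y))‖ + ‖X‖ + ‖Y‖ := norm_add₃_le
      _ ≤ _ := by linarith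
  set J : ℝ := ∫ u in (-R)..R, ‖EM.P (T ^ 2) (t + u)‖ ^ 2 with hJ
  have hJ0 : 0 ≤ J := intervalIntegral.integral_nonneg (by linarith) fun u _ => by positivity
  have e6 : ‖X‖ ^ 2 ≤ J * (Real.log T * M2) :=
    e3.trans (mul_le_mul_of_nonneg_left (mul_le_mul_of_nonneg_right haL hM20) hJ0)
  have e7 : ‖EM.P (T ^ 2) t‖ ^ 2 ≤ 2 * ‖X‖ ^ 2 + 2 * (3 + 2 * M) ^ 2 := by
    have h1 := pow_le_pow_left₀ (norm_nonneg _) e5 2
    nlinarith [sq_nonneg (‖X‖ - (3 + 2 * M))]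
  have hLJ : 0 ≤ Real.log T * J := by positivity
  have e8 : (2 * M2) * (Real.log T * J) ≤
      (8 + 2 * M2 + 2 * (3 + 2 * M) ^ 2) * (Real.log T * J) :=
    mul_le_mul_of_nonneg_right (by linarith) hLJ
  calc ‖EM.P (T ^ 2) t‖ ^ 2 ≤ 2 * ‖X‖ ^ 2 + 2 * (3 + 2 * M) ^ 2 := e7
    _ ≤ (2 * M2) * (Real.log T * J) + 2 * (3 + 2 * M) ^ 2 := by nlinarith
    _ ≤ (8 + 2 * M2 + 2 * (3 + 2 * M) ^ 2) * (Real.log T * J) +
        (8 + 2 * M2 + 2 * (3 + 2 * M) ^ 2) := by linarith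
    _ = _ := by ring

end Pool.Agent.Work.MP_56b8f5_nt.UB
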