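import Pool.Agent.Work.MP_56b8f5_nt.UB.Stmts
import Pool.Agent.Work.MP_56b8f5_nt.EM.I_PC

/-!
MP_56b8f5_nt, block UB, item Sup: the convexity bound for `P`.
-/

open MeasureTheory Set Filter Topology

noncomputable section

namespace Pool.Agent.Work.MP_56b8f5_nt.UB

namespace Sup_aux

theorem phi_int {φ Θ : ℝ → ℝ} (h : IsPhi φ Θ) : Integrable φ := by
  obtain ⟨C, hC⟩ := h.dec
  have hC0 : 0 ≤ C := by
    have h1 := hC 0
    have h2 := h.nonneg 0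
    simp only [ne_eq, OfNat.ofNat_ne_zero, not_false_eq_true, zero_pow, add_zero, one_pow,
      div_one] at h1
    linarith
  refine Integrable.mono' ((integrable_inv_one_add_sq).const_mul C) h.cont.aestronglyMeasurable
    (Eventually.of_forall fun z => ?_)
  rw [Real.norm_eq_abs, abs_of_nonneg (h.nonneg z)]
  refine (hC z).trans ?_
  rw [div_eq_mul_inv]
  refine mul_le_mul_of_nonneg_left ?_ hC0
  have h1 : (1 : ℝ) ≤ 1 + z ^ 2 := by nlinarith [sq_nonneg z]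
  exact inv_anti₀ (by linarith) (by nlinarith)

theorem integ {φ Θ : ℝ → ℝ} (h : IsPhi φ Θ) {K : ℝ} (hK : 1 ≤ K) {G : ℝ} (hG : 0 < G) (t : ℝ) :
    Integrable (fun u : ℝ => φ (u / G) * ‖EM.P K (t + u)‖ ^ 2) := by
  obtain ⟨hc, hb, -⟩ := EM.iPC K hK
  have h1 : Integrable (fun u : ℝ => φ (u / G)) := (phi_int h).comp_div hG.ne'
  have hcont : Continuous (fun u : ℝ => φ (u / G) * ‖EM.P K (t + u)‖ ^ 2) :=
    (h.cont.comp (continuous_id.div_const G)).mul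
      (((hc.comp (continuous_const.add continuous_id)).norm).pow 2)
  refine Integrable.mono' (h1.mul_const ((2 * Real.sqrt K) ^ 2)) hcont.aestronglyMeasurable
    (Eventually.of_forall fun u => ?_)
  have h2 : 0 ≤ φ (u / G) := h.nonneg _
  rw [Real.norm_eq_abs, abs_of_nonneg (mul_nonneg h2 (sq_nonneg _))]
  refine mul_le_mul_of_nonneg_left ?_ h2
  exact pow_le_pow_left₀ (norm_nonneg _) (hb _) 2

theorem lower {φ Θ : ℝ → ℝ} (h : IsPhi φ Θ) {T : ℝ} (hT : 1 ≤ T) {G a : ℝ} (hG : 0 < G)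
    (ha : 0 ≤ a) (haG : a ≤ G) (t : ℝ) :
    ∫ u in (-a)..a, ‖EM.P (T ^ 2) (t + u)‖ ^ 2 ≤ IG φ T G t := by
  have hK : 1 ≤ T ^ 2 := by nlinarith
  obtain ⟨hc, hb, -⟩ := EM.iPC (T ^ 2) hK
  have hcont : Continuous (fun u : ℝ => ‖EM.P (T ^ 2) (t + u)‖ ^ 2) :=
    ((hc.comp (continuous_const.add continuous_id)).norm).pow 2
  have hI := integ h hK hG t
  rw [intervalIntegral.integral_of_le (by linarith)]
  have h1 : ∫ u in Ioc (-a) a, ‖EM.P (T ^ 2) (t + u)‖ ^ 2 ≤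
      ∫ u in Ioc (-a) a, φ (u / G) * ‖EM.P (T ^ 2) (t + u)‖ ^ 2 := by
    refine setIntegral_mono_on ?_ hI.integrableOn measurableSet_Ioc (fun u hu => ?_)
    · exact (hcont.integrableOn_Icc (a := -a) (b := a)).mono_set Ioc_subset_Icc_self
    · have h2 : |u / G| ≤ 1 := by
        rw [abs_div, abs_of_pos hG, div_le_one hG]
        exact (abs_le.mpr ⟨hu.1.le, hu.2⟩).trans haG
      have h3 := h.one_le _ h2
      have h4 : 0 ≤ ‖EM.P (T ^ 2) (t + u)‖ ^ 2 := sq_nonneg _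
      nlinarith
  refine h1.trans ?_
  unfold IG
  refine setIntegral_le_integral hI (Eventually.of_forall fun u => ?_)
  exact mul_nonneg (h.nonneg _) (sq_nonneg _)

theorem ds_bound {Θ : ℝ → ℝ} {T G C' CA t : ℝ} (hT : 0 < T) (hG : 0 < G) (hC' : 0 ≤ C')
    (hCA : 0 ≤ CA)
    (hJ : ∀ n : ℕ, 1 ≤ n → (n : ℝ) ≤ C' * T / G ^ 2 →
      ‖JJ Θ T G n (t / (2 * Real.pi))‖ ≤ CA / Real.sqrt (Real.sqrt (n * T))) :
    ‖DS Θ T G C' t‖ ≤ (C' * T / G ^ 2) ^ 2 * (CA / Real.sqrt (Real.sqrt T)) := by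
  have hY : 0 ≤ C' * T / G ^ 2 := by positivity
  have hs : 0 < Real.sqrt (Real.sqrt T) := Real.sqrt_pos.mpr (Real.sqrt_pos.mpr hT)
  unfold DS
  refine (norm_sum_le _ _).trans ?_
  have hterm : ∀ n ∈ Finset.Icc 1 ⌊C' * T / G ^ 2⌋₊,
      ‖(-1 : ℂ) ^ n * (n.divisors.card : ℂ) * JJ Θ T G n (t / (2 * Real.pi))‖ ≤
        (C' * T / G ^ 2) * (CA / Real.sqrt (Real.sqrt T)) := by
    intro n hn
    rw [Finset.mem_Icc] at hn
    have hn2 : (n : ℝ) ≤ C' * T / G ^ 2 := (Nat.cast_le.mpr hn.2).trans (Nat.floor_le hY)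
    have h1 := hJ n hn.1 hn2
    rw [norm_mul, norm_mul, norm_pow, norm_neg, norm_one, one_pow, one_mul, Complex.norm_natCast]
    have h2 : ((n.divisors.card : ℕ) : ℝ) ≤ n := Nat.cast_le.mpr (Nat.card_divisors_le_self n)
    have h3 : CA / Real.sqrt (Real.sqrt (n * T)) ≤ CA / Real.sqrt (Real.sqrt T) := by
      refine div_le_div_of_nonneg_left hCA hs ?_
      refine Real.sqrt_le_sqrt (Real.sqrt_le_sqrt ?_)
      have : (1 : ℝ) ≤ n := by exact_mod_cast hn.1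
      nlinarith
    refine mul_le_mul (h2.trans hn2) (h1.trans h3) (norm_nonneg _) hY
  refine (Finset.sum_le_card_nsmul _ _ _ hterm).trans ?_
  rw [Nat.card_Icc, Nat.add_sub_cancel, nsmul_eq_mul]
  have h5 : (⌊C' * T / G ^ 2⌋₊ : ℝ) ≤ C' * T / G ^ 2 := Nat.floor_le hY
  have h6 : 0 ≤ (C' * T / G ^ 2) * (CA / Real.sqrt (Real.sqrt T)) := by positivity
  calc (⌊C' * T / G ^ 2⌋₊ : ℝ) * ((C' * T / G ^ 2) * (CA / Real.sqrt (Real.sqrt T)))
      ≤ (C' * T / G ^ 2) * ((C' * T / G ^ 2) * (CA / Real.sqrt (Real.sqrt T))) :=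
        mul_le_mul_of_nonneg_right h5 h6
    _ = (C' * T / G ^ 2) ^ 2 * (CA / Real.sqrt (Real.sqrt T)) := by ring

theorem pow_rpow {x : ℝ} (hx : 0 ≤ x) (k : ℕ) {r : ℝ} (hr : 400 * r = k) :
    (x ^ 400) ^ r = x ^ k := by
  rw [← Real.rpow_natCast x 400, ← Real.rpow_mul hx, ← Real.rpow_natCast x k]
  have e : ((400 : ℕ) : ℝ) * r = (k : ℝ) := by rw [← hr]; norm_num
  rw [e]

theorem log_le {x : ℝ} (hx : 640000 ≤ x) : Real.log (x ^ 400) ≤ x := by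
  have hx0 : 0 ≤ x := by linarith
  have h1 : Real.log (x ^ 400) = 800 * Real.log (Real.sqrt x) := by
    rw [Real.log_pow, Real.log_sqrt hx0]
    push_cast
    ring
  have h2 : Real.log (Real.sqrt x) ≤ Real.sqrt x := Real.log_le_self (Real.sqrt_nonneg x)
  have h3 : (800 : ℝ) ≤ Real.sqrt x := by
    refine Real.le_sqrt_of_sq_le ?_
    norm_num
    linarith
  have h4 : Real.sqrt x * Real.sqrt x = x := Real.mul_self_sqrt hx0
  rw [h1]
  nlinarith [Real.sqrt_nonneg x]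


theorem sI_mem {T t : ℝ} (hT : 0 < T) (h1 : T ≤ t) (h2 : t ≤ 2 * T) :
    t / (2 * Real.pi) ∈ sI T := by
  have hpi := Real.pi_pos
  unfold sI
  rw [mem_Icc]
  constructor
  · rw [div_le_div_iff₀ (by positivity) (by positivity)]
    nlinarith
  · rw [div_le_div_iff₀ (by positivity) (by positivity)]
    nlinarith

theorem sqsq {x : ℝ} (hx : 0 < x) : Real.sqrt (Real.sqrt (x ^ 400)) = x ^ 100 := by
  have e1 : x ^ 400 = (x ^ 200) ^ 2 := by rw [← pow_mul]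
  have e2 : x ^ 200 = (x ^ 100) ^ 2 := by rw [← pow_mul]
  rw [e1, Real.sqrt_sq (by positivity), e2, Real.sqrt_sq (by positivity)]

theorem fin1 {x : ℝ} (hx : 640000 ≤ x) : x ^ 199 + x < x ^ 200 := by
  have e1 : x ≤ x ^ 199 := le_self_pow₀ (by linarith) (by norm_num)
  have e2 : x ^ 200 = x * x ^ 199 := by rw [← pow_succ']
  have e3 : 0 < x ^ 199 := by positivity
  have e4 : 3 * x ^ 199 ≤ x * x ^ 199 := mul_le_mul_of_nonneg_right (by linarith) e3.le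
  rw [e2]
  generalize x ^ 199 = y at *
  linarith

theorem core {φ Θ : ℝ → ℝ} (hφ : IsPhi φ Θ) {C' CD CR CA x t T G : ℝ} (hx6 : 640000 ≤ x)
    (hT : T = x ^ 400) (hG : G = x ^ 196)
    (hC' : 0 ≤ C') (hCD0 : 0 ≤ CD) (hCR0 : 0 ≤ CR) (hCA0 : 0 ≤ CA)
    (hPx : 2 * CR * CD ≤ x) (hQx : C' ^ 2 * CA ≤ x) (hCRx : CR ≤ x)
    (hJ : ∀ n : ℕ, 1 ≤ n → (n : ℝ) ≤ C' * T / G ^ 2 →
      ‖JJ Θ T G n (t / (2 * Real.pi))‖ ≤ CA / Real.sqrt (Real.sqrt (n * T)))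
    (hD : IG φ T G t ≤ CD * G * Real.log T + CD * G * ‖DS Θ T G C' t‖)
    (hR : ‖EM.P (T ^ 2) t‖ ^ 2 ≤ CR * Real.log T *
      (∫ u in (-(x ^ 4))..(x ^ 4), ‖EM.P (T ^ 2) (t + u)‖ ^ 2) + CR) :
    ‖EM.P (T ^ 2) t‖ < x ^ 100 := by
  by_contra hcon
  push Not at hcon
  have hxp : 0 < x := by linarith
  have hx1 : 1 ≤ x := by linarith
  have hlog : Real.log T ≤ x := by rw [hT]; exact log_le hx6
  have hT1 : 1 ≤ T := by rw [hT]; exact one_le_pow₀ hx1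
  have hTpos : 0 < T := by linarith
  have hGpos : 0 < G := by rw [hG]; positivity
  have hquot : C' * T / G ^ 2 = C' * x ^ 8 := by
    have e : T = G ^ 2 * x ^ 8 := by rw [hT, hG, ← pow_mul, ← pow_add]
    rw [e]
    field_simp
  have hsq : Real.sqrt (Real.sqrt T) = x ^ 100 := by rw [hT]; exact sqsq hxp
  have hDS : ‖DS Θ T G C' t‖ ≤ x := by
    refine (ds_bound hTpos hGpos hC' hCA0 hJ).trans ?_
    rw [hquot, hsq]
    have e3 : (C' * x ^ 8) ^ 2 * (CA / x ^ 100) = (C' ^ 2 * CA) * (x ^ 16 / x ^ 100) := by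
      ring
    rw [e3]
    have e4 : x ^ 16 / x ^ 100 ≤ 1 := by
      rw [div_le_one (by positivity)]
      exact pow_le_pow_right₀ hx1 (by norm_num)
    have e5 : 0 ≤ C' ^ 2 * CA := by positivity
    exact (mul_le_of_le_one_right e5 e4).trans hQx
  have hLow := lower hφ hT1 hGpos (a := x ^ 4) (by positivity)
    (by rw [hG]; exact pow_le_pow_right₀ hx1 (by norm_num)) t
  have h4 : 0 < x ^ 4 := by positivity
  have hI0 : 0 ≤ ∫ u in (-(x ^ 4))..(x ^ 4), ‖EM.P (T ^ 2) (t + u)‖ ^ 2 :=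
    intervalIntegral.integral_nonneg (by linarith) (fun u _ => sq_nonneg _)
  generalize (∫ u in (-(x ^ 4))..(x ^ 4), ‖EM.P (T ^ 2) (t + u)‖ ^ 2) = A at hLow hI0 hR
  have hA1 : A ≤ CD * G * (2 * x) := by
    have e1 : CD * G * Real.log T ≤ CD * G * x :=
      mul_le_mul_of_nonneg_left hlog (by positivity)
    have e2 : CD * G * ‖DS Θ T G C' t‖ ≤ CD * G * x :=
      mul_le_mul_of_nonneg_left hDS (by positivity)
    calc A ≤ IG φ T G t := hLow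
      _ ≤ _ := hD
      _ ≤ CD * G * x + CD * G * x := add_le_add e1 e2
      _ = CD * G * (2 * x) := by ring
  have hP2 : x ^ 200 ≤ ‖EM.P (T ^ 2) t‖ ^ 2 := by
    calc x ^ 200 = (x ^ 100) ^ 2 := by rw [← pow_mul]
      _ ≤ _ := pow_le_pow_left₀ (by positivity) hcon 2
  have hfin : x ^ 200 ≤ x ^ 199 + x := by
    have e1 : CR * Real.log T * A ≤ CR * x * (CD * G * (2 * x)) :=
      mul_le_mul (mul_le_mul_of_nonneg_left hlog hCR0) hA1 hI0 (by positivity)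
    have e2 : CR * x * (CD * G * (2 * x)) = (2 * CR * CD) * (x ^ 2 * G) := by ring
    have e3 : (2 * CR * CD) * (x ^ 2 * G) ≤ x * (x ^ 2 * G) :=
      mul_le_mul_of_nonneg_right hPx (by positivity)
    have e4 : x * (x ^ 2 * G) = x ^ 199 := by
      rw [hG, ← pow_add, ← pow_succ']
    calc x ^ 200 ≤ ‖EM.P (T ^ 2) t‖ ^ 2 := hP2
      _ ≤ CR * Real.log T * A + CR := hR
      _ ≤ CR * x * (CD * G * (2 * x)) + x := add_le_add e1 hCRx
      _ = (2 * CR * CD) * (x ^ 2 * G) + x := by rw [e2]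
      _ ≤ x * (x ^ 2 * G) + x := by gcongr
      _ = x ^ 199 + x := by rw [e4]
  exact absurd (fin1 hx6) (not_lt.mpr hfin)

end Sup_aux

open Sup_aux in
/-- Item Sup. -/
theorem iSup (hPhi : StPhi) (hDD : StDD) (hRp : StRp) (hAM : StAM) : StSup := by
  obtain ⟨φ, Θ, hφ⟩ := hPhi
  obtain ⟨C', CD, hC'1, hCD2, hD⟩ := hDD φ Θ hφ
  obtain ⟨CR, hCR2, hR⟩ := hRp (1 / 100) (by norm_num)
  obtain ⟨CA, hCA2, hA⟩ := hAM φ Θ hφ C' hC'1
  have hprod : 0 ≤ 2 * CR * CD := by positivity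
  have hprod2 : 0 ≤ C' ^ 2 * CA := by positivity
  obtain ⟨x0, h6, hD0, hR0, hA0, hP0, hQ0⟩ : ∃ x0 : ℝ, 640000 ≤ x0 ∧ CD ≤ x0 ∧ CR ≤ x0 ∧
      CA ≤ x0 ∧ 2 * CR * CD ≤ x0 ∧ C' ^ 2 * CA ≤ x0 :=
    ⟨640000 + CD + CR + CA + 2 * CR * CD + C' ^ 2 * CA, by linarith, by linarith, by linarith,
      by linarith, by linarith, by linarith⟩
  refine ⟨x0 ^ 400, ?_, ?_⟩
  · exact le_trans (by linarith : (2 : ℝ) ≤ x0) (le_self_pow₀ (by linarith) (by norm_num))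
  intro T t hT h1 h2
  have hx00 : 0 < x0 := by linarith
  have hTpos : 0 < T := lt_of_lt_of_le (pow_pos hx00 400) hT
  obtain ⟨x, hxx, hTx⟩ : ∃ x, x0 ≤ x ∧ T = x ^ 400 := by
    refine ⟨T ^ (1 / 400 : ℝ), ?_, ?_⟩
    · calc x0 = (x0 ^ 400) ^ (1 / 400 : ℝ) := by
            rw [pow_rpow hx00.le 1 (by norm_num), pow_one]
        _ ≤ T ^ (1 / 400 : ℝ) := Real.rpow_le_rpow (pow_pos hx00 400).le hT (by norm_num)
    · rw [← Real.rpow_natCast (T ^ (1 / 400 : ℝ)) 400, ← Real.rpow_mul hTpos.le]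
      norm_num
  clear hT
  have hxp : 0 < x := by linarith
  have hx1 : 1 ≤ x := by linarith
  have hself : ∀ k : ℕ, k ≠ 0 → x ≤ x ^ k := fun k hk => le_self_pow₀ hx1 hk
  have hTT : x ≤ T := by rw [hTx]; exact hself 400 (by norm_num)
  obtain ⟨G, hG⟩ : ∃ G, G = x ^ 196 := ⟨_, rfl⟩
  have hGG : x ≤ G := by rw [hG]; exact hself 196 (by norm_num)
  have hG2 : G ^ 2 ≤ T := by
    rw [hG, hTx, ← pow_mul]
    exact pow_le_pow_right₀ hx1 (by norm_num)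
  have hfour : T ^ (1 / 4 : ℝ) = x ^ 100 := by
    rw [hTx]; exact pow_rpow hxp.le 100 (by norm_num)
  have hhund : T ^ (1 / 100 : ℝ) = x ^ 4 := by
    rw [hTx]; exact pow_rpow hxp.le 4 (by norm_num)
  rw [hfour]
  have hRR := hR T t ((hR0.trans hxx).trans hTT)
  rw [hhund] at hRR
  exact core hφ (h6.trans hxx) hTx hG (by linarith) (by linarith) (by linarith) (by linarith)
    (hP0.trans hxx) (hQ0.trans hxx) (hR0.trans hxx)
    (fun n hn1 hn2 => (hA T G (t / (2 * Real.pi)) n ((hA0.trans hxx).trans hTT)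
      ((hA0.trans hxx).trans hGG) hG2 (sI_mem hTpos h1 h2) hn1 hn2).1)
    (hD T G t ((hD0.trans hxx).trans hTT) ((hD0.trans hxx).trans hGG) hG2 (by linarith)
      (by linarith))
    hRR

end Pool.Agent.Work.MP_56b8f5_nt.UB
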