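import Mathlib

/-!
# MP_56b8f5_nt, block UB: derivative tests for oscillatory integrals

`ee x = exp (2 pi i x)`.  Amplitudes are complex valued with a continuous derivative, phases are real.
-/

set_option autoImplicit false

open MeasureTheory Set intervalIntegral

noncomputable section

namespace Pool.Agent.UB.Vdc

/-- `exp (2 pi i x)` -/
def ee (x : ℝ) : ℂ := Complex.exp (((2 * Real.pi * x : ℝ) : ℂ) * Complex.I)

lemma norm_ee (x : ℝ) : ‖ee x‖ = 1 := Complex.norm_exp_ofReal_mul_I _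

lemma ee_neg (x : ℝ) : ee (-x) = (starRingEnd ℂ) (ee x) := by
  unfold ee
  rw [← Complex.exp_conj]
  congr 1
  rw [map_mul, Complex.conj_I, Complex.conj_ofReal]
  push_cast
  ring

lemma ee_zero : ee 0 = 1 := by
  unfold ee
  simp

lemma ee_add (x y : ℝ) : ee (x + y) = ee x * ee y := by
  unfold ee
  rw [← Complex.exp_add]
  congr 1
  push_cast
  ring

lemma hasDerivAt_ee {f : ℝ → ℝ} {f' x : ℝ} (hf : HasDerivAt f f' x) :
    HasDerivAt (fun y => ee (f y)) (2 * Real.pi * Complex.I * f' * ee (f x)) x := by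
  unfold ee
  have h1 : HasDerivAt (fun y => ((2 * Real.pi * f y : ℝ) : ℂ) * Complex.I)
      (((2 * Real.pi * f' : ℝ) : ℂ) * Complex.I) x :=
    ((hf.const_mul (2 * Real.pi)).ofReal_comp).mul_const Complex.I
  have h2 := h1.cexp
  convert h2 using 1
  push_cast
  ring

lemma continuous_ee : Continuous ee := by
  unfold ee
  fun_prop

/-- Data of an oscillatory integral over `[a, b]`. -/
structure Osc (a b : ℝ) (f f' f'' : ℝ → ℝ) (A A' : ℝ → ℂ) : Prop where
  le : a ≤ b
  hf : ∀ x ∈ Icc a b, HasDerivAt f (f' x) x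
  hf' : ∀ x ∈ Icc a b, HasDerivAt f' (f'' x) x
  cf'' : ContinuousOn f'' (Icc a b)
  hA : ∀ x ∈ Icc a b, HasDerivAt A (A' x) x
  cA' : ContinuousOn A' (Icc a b)

namespace Osc

variable {a b : ℝ} {f f' f'' : ℝ → ℝ} {A A' : ℝ → ℂ}

lemma cf (h : Osc a b f f' f'' A A') : ContinuousOn f (Icc a b) :=
  fun x hx => (h.hf x hx).continuousAt.continuousWithinAt

lemma cf' (h : Osc a b f f' f'' A A') : ContinuousOn f' (Icc a b) :=
  fun x hx => (h.hf' x hx).continuousAt.continuousWithinAt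

lemma cA (h : Osc a b f f' f'' A A') : ContinuousOn A (Icc a b) :=
  fun x hx => (h.hA x hx).continuousAt.continuousWithinAt

lemma sub (h : Osc a b f f' f'' A A') {c d : ℝ} (hac : a ≤ c) (hcd : c ≤ d) (hdb : d ≤ b) :
    Osc c d f f' f'' A A' where
  le := hcd
  hf := fun x hx => h.hf x ⟨hac.trans hx.1, hx.2.trans hdb⟩
  hf' := fun x hx => h.hf' x ⟨hac.trans hx.1, hx.2.trans hdb⟩
  cf'' := h.cf''.mono (Icc_subset_Icc hac hdb)
  hA := fun x hx => h.hA x ⟨hac.trans hx.1, hx.2.trans hdb⟩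
  cA' := h.cA'.mono (Icc_subset_Icc hac hdb)

/-- complex conjugation of the amplitude and negation of the phase -/
lemma conj (h : Osc a b f f' f'' A A') : Osc a b (fun x => -f x) (fun x => -f' x)
    (fun x => -f'' x) (fun x => (starRingEnd ℂ) (A x)) (fun x => (starRingEnd ℂ) (A' x)) where
  le := h.le
  hf := fun x hx => (h.hf x hx).neg
  hf' := fun x hx => (h.hf' x hx).neg
  cf'' := h.cf''.neg
  hA := fun x hx => by
    have := (h.hA x hx)
    exact this.star
  cA' := Complex.continuous_conj.comp_continuousOn h.cA'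

lemma integral_conj' (h : Osc a b f f' f'' A A') :
    ‖∫ x in a..b, (starRingEnd ℂ) (A x) * ee (-f x)‖ = ‖∫ x in a..b, A x * ee (f x)‖ := by
  have e : ∫ x in a..b, (starRingEnd ℂ) (A x) * ee (-f x) =
      (starRingEnd ℂ) (∫ x in a..b, A x * ee (f x)) := by
    rw [← intervalIntegral_conj]
    refine intervalIntegral.integral_congr fun x _ => ?_
    simp only [ee_neg, map_mul]
  rw [e, Complex.norm_conj]

/-- the identity behind the first derivative test -/
lemma parts (h : Osc a b f f' f'' A A') (h0 : ∀ x ∈ Icc a b, f' x ≠ 0) :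
    2 * Real.pi * Complex.I * ∫ x in a..b, A x * ee (f x) =
      A b / (f' b : ℂ) * ee (f b) - A a / (f' a : ℂ) * ee (f a) -
        ∫ x in a..b, (A' x / (f' x : ℂ) - A x * (f'' x : ℂ) / (f' x : ℂ) ^ 2) * ee (f x) := by
  have hI : uIcc a b = Icc a b := uIcc_of_le h.le
  have hcf'c : ContinuousOn (fun x => (f' x : ℂ)) (Icc a b) :=
    Complex.continuous_ofReal.comp_continuousOn h.cf'
  have hcf''c : ContinuousOn (fun x => (f'' x : ℂ)) (Icc a b) :=
    Complex.continuous_ofReal.comp_continuousOn h.cf''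
  have h0c : ∀ x ∈ Icc a b, (f' x : ℂ) ≠ 0 := fun x hx => Complex.ofReal_ne_zero.2 (h0 x hx)
  have hee : ContinuousOn (fun x => ee (f x)) (Icc a b) := continuous_ee.comp_continuousOn h.cf
  have hp := intervalIntegral.integral_mul_deriv_eq_deriv_mul (a := a) (b := b)
    (u := fun x => A x / (f' x : ℂ)) (v := fun x => ee (f x))
    (u' := fun x => A' x / (f' x : ℂ) - A x * (f'' x : ℂ) / (f' x : ℂ) ^ 2)
    (v' := fun x => 2 * Real.pi * Complex.I * f' x * ee (f x)) ?_ ?_ ?_ ?_
  · rw [← hp, ← intervalIntegral.integral_const_mul]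
    refine intervalIntegral.integral_congr fun x hx => ?_
    rw [hI] at hx
    have := h0c x hx
    field_simp
  · intro x hx
    rw [hI] at hx
    have h1 := (h.hA x hx).div ((h.hf' x hx).ofReal_comp) (h0c x hx)
    have e1 : A' x / (f' x : ℂ) - A x * (f'' x : ℂ) / (f' x : ℂ) ^ 2 =
        (A' x * (f' x : ℂ) - A x * (f'' x : ℂ)) / (f' x : ℂ) ^ 2 := by
      have := h0c x hx
      field_simp
    rw [e1]
    exact h1
  · intro x hx
    rw [hI] at hx
    exact hasDerivAt_ee (h.hf x hx)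
  · refine ContinuousOn.intervalIntegrable ?_
    rw [hI]
    refine (h.cA'.div hcf'c h0c).sub ((h.cA.mul hcf''c).div (hcf'c.pow 2) ?_)
    intro x hx
    exact pow_ne_zero _ (h0c x hx)
  · refine ContinuousOn.intervalIntegrable ?_
    rw [hI]
    exact (continuousOn_const.mul hcf'c).mul hee

/-- First derivative test, general form. -/
theorem first (h : Osc a b f f' f'' A A') {l B B' L : ℝ} (hl : 0 < l)
    (hf1 : ∀ x ∈ Icc a b, l ≤ |f' x|) (hB : ∀ x ∈ Icc a b, ‖A x‖ ≤ B)
    (hB' : ∫ x in a..b, ‖A' x‖ ≤ B')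
    (hL : ∫ x in a..b, |f'' x| / (f' x) ^ 2 ≤ L) :
    ‖∫ x in a..b, A x * ee (f x)‖ ≤ (2 * B / l + B' / l + B * L) / (2 * Real.pi) := by
  have hI : uIcc a b = Icc a b := uIcc_of_le h.le
  have h0 : ∀ x ∈ Icc a b, f' x ≠ 0 := fun x hx h0 => by
    have := hf1 x hx
    rw [h0, abs_zero] at this
    linarith
  have hB0 : 0 ≤ B := (norm_nonneg _).trans (hB a ⟨le_refl a, h.le⟩)
  have hp := h.parts h0
  have hpi : 0 < 2 * Real.pi := by positivity
  have hn : ‖(2 * Real.pi * Complex.I : ℂ)‖ = 2 * Real.pi := by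
    rw [norm_mul, Complex.norm_I, mul_one]
    have : (2 * Real.pi : ℂ) = ((2 * Real.pi : ℝ) : ℂ) := by push_cast; ring
    rw [this, Complex.norm_real, Real.norm_eq_abs, abs_of_pos hpi]
  rw [le_div_iff₀ hpi, mul_comm, ← hn, ← norm_mul, hp]
  have hbd : ∀ x ∈ Icc a b, ‖A x / (f' x : ℂ) * ee (f x)‖ ≤ B / l := by
    intro x hx
    rw [norm_mul, norm_ee, mul_one, norm_div, Complex.norm_real, Real.norm_eq_abs]
    exact div_le_div₀ hB0 (hB x hx) hl (hf1 x hx)
  have hcf'c : ContinuousOn (fun x => (f' x)) (Icc a b) := h.cf'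
  have h02 : ∀ x ∈ Icc a b, f' x ^ 2 ≠ 0 := fun x hx => pow_ne_zero _ (h0 x hx)
  have i1 : IntervalIntegrable (fun x => ‖A' x‖ / l) volume a b := by
    refine ContinuousOn.intervalIntegrable ?_
    rw [hI]
    exact h.cA'.norm.div_const l
  have i2 : IntervalIntegrable (fun x => B * (|f'' x| / (f' x) ^ 2)) volume a b := by
    refine ContinuousOn.intervalIntegrable ?_
    rw [hI]
    exact continuousOn_const.mul (h.cf''.abs.div (hcf'c.pow 2) h02)
  have hint : ‖∫ x in a..b, (A' x / (f' x : ℂ) - A x * (f'' x : ℂ) / (f' x : ℂ) ^ 2) *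
      ee (f x)‖ ≤ B' / l + B * L := by
    have h1 : ‖∫ x in a..b, (A' x / (f' x : ℂ) - A x * (f'' x : ℂ) / (f' x : ℂ) ^ 2) *
        ee (f x)‖ ≤ ∫ x in a..b, (‖A' x‖ / l + B * (|f'' x| / (f' x) ^ 2)) := by
      refine intervalIntegral.norm_integral_le_of_norm_le h.le ?_ (i1.add i2)
      refine Filter.Eventually.of_forall fun x hx => ?_
      have hx' : x ∈ Icc a b := ⟨hx.1.le, hx.2⟩
      rw [norm_mul, norm_ee, mul_one]
      refine (norm_sub_le _ _).trans (add_le_add ?_ ?_)
      · rw [norm_div, Complex.norm_real, Real.norm_eq_abs]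
        exact div_le_div_of_nonneg_left (norm_nonneg _) hl (hf1 x hx')
      · rw [norm_div, norm_mul, norm_pow, Complex.norm_real, Complex.norm_real,
          Real.norm_eq_abs, Real.norm_eq_abs, sq_abs, mul_div_assoc]
        exact mul_le_mul_of_nonneg_right (hB x hx') (by positivity)
    refine h1.trans ?_
    rw [intervalIntegral.integral_add i1 i2, intervalIntegral.integral_div,
      intervalIntegral.integral_const_mul]
    exact add_le_add (div_le_div_of_nonneg_right hB' hl.le) (mul_le_mul_of_nonneg_left hL hB0)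
  calc _ ≤ ‖A b / (f' b : ℂ) * ee (f b) - A a / (f' a : ℂ) * ee (f a)‖ + _ := norm_sub_le _ _
    _ ≤ (B / l + B / l) + (B' / l + B * L) := add_le_add ((norm_sub_le _ _).trans
        (add_le_add (hbd b ⟨h.le, le_refl b⟩) (hbd a ⟨le_refl a, h.le⟩))) hint
    _ = _ := by ring

/-- First derivative test with a bound for the total variation of `f'`. -/
theorem first_var (h : Osc a b f f' f'' A A') {l B B' L : ℝ} (hl : 0 < l)
    (hf1 : ∀ x ∈ Icc a b, l ≤ |f' x|) (hB : ∀ x ∈ Icc a b, ‖A x‖ ≤ B)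
    (hB' : ∫ x in a..b, ‖A' x‖ ≤ B') (hL : ∫ x in a..b, |f'' x| ≤ L) :
    ‖∫ x in a..b, A x * ee (f x)‖ ≤ (2 * B / l + B' / l + B * L / l ^ 2) / (2 * Real.pi) := by
  have hI : uIcc a b = Icc a b := uIcc_of_le h.le
  have h0 : ∀ x ∈ Icc a b, f' x ≠ 0 := fun x hx h0 => by
    have := hf1 x hx
    rw [h0, abs_zero] at this
    linarith
  have h02 : ∀ x ∈ Icc a b, f' x ^ 2 ≠ 0 := fun x hx => pow_ne_zero _ (h0 x hx)
  have key : ∫ x in a..b, |f'' x| / (f' x) ^ 2 ≤ L / l ^ 2 := by
    have h1 : ∫ x in a..b, |f'' x| / (f' x) ^ 2 ≤ ∫ x in a..b, |f'' x| / l ^ 2 := by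
      refine intervalIntegral.integral_mono_on h.le ?_ ?_ ?_
      · refine ContinuousOn.intervalIntegrable ?_
        rw [hI]
        exact h.cf''.abs.div (h.cf'.pow 2) h02
      · refine ContinuousOn.intervalIntegrable ?_
        rw [hI]
        exact h.cf''.abs.div_const _
      · intro x hx
        refine div_le_div_of_nonneg_left (abs_nonneg _) (by positivity) ?_
        rw [← sq_abs (f' x)]
        exact pow_le_pow_left₀ hl.le (hf1 x hx) 2
    refine h1.trans ?_
    rw [intervalIntegral.integral_div]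
    exact div_le_div_of_nonneg_right hL (by positivity)
  have := h.first hl hf1 hB hB' key
  rw [mul_div_assoc B L (l ^ 2)]
  exact this

/-- First derivative test for monotone `f'`. -/
theorem first_mono (h : Osc a b f f' f'' A A') {l B B' : ℝ} (hl : 0 < l)
    (hf1 : ∀ x ∈ Icc a b, l ≤ |f' x|) (hf2 : (∀ x ∈ Icc a b, 0 ≤ f'' x) ∨ ∀ x ∈ Icc a b, f'' x ≤ 0)
    (hB : ∀ x ∈ Icc a b, ‖A x‖ ≤ B) (hB' : ∫ x in a..b, ‖A' x‖ ≤ B') :
    ‖∫ x in a..b, A x * ee (f x)‖ ≤ (B + B') / l := by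
  have hI : uIcc a b = Icc a b := uIcc_of_le h.le
  have h0 : ∀ x ∈ Icc a b, f' x ≠ 0 := fun x hx h0 => by
    have := hf1 x hx
    rw [h0, abs_zero] at this
    linarith
  have h02 : ∀ x ∈ Icc a b, f' x ^ 2 ≠ 0 := fun x hx => pow_ne_zero _ (h0 x hx)
  have hB0 : 0 ≤ B := (norm_nonneg _).trans (hB a ⟨le_refl a, h.le⟩)
  have hB'0 : 0 ≤ B' := (intervalIntegral.integral_nonneg h.le fun x _ => norm_nonneg _).trans hB'
  have hFTC : ∫ x in a..b, f'' x / (f' x) ^ 2 = 1 / f' a - 1 / f' b := by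
    have h1 : ∀ x ∈ uIcc a b, HasDerivAt (fun y => -(1 / f' y)) (f'' x / (f' x) ^ 2) x := by
      intro x hx
      rw [hI] at hx
      have h2 := ((h.hf' x hx).inv (h0 x hx)).neg
      simp only [one_div]
      rw [neg_div, neg_neg] at h2
      exact h2
    rw [intervalIntegral.integral_eq_sub_of_hasDerivAt h1]
    · ring
    · refine ContinuousOn.intervalIntegrable ?_
      rw [hI]
      exact h.cf''.div (h.cf'.pow 2) h02
  have hbnd : ∀ x ∈ Icc a b, |1 / f' x| ≤ 1 / l := by
    intro x hx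
    rw [abs_div, abs_one]
    exact div_le_div_of_nonneg_left zero_le_one hl (hf1 x hx)
  have key : ∫ x in a..b, |f'' x| / (f' x) ^ 2 ≤ 2 / l := by
    have ha := hbnd a ⟨le_refl a, h.le⟩
    have hb := hbnd b ⟨h.le, le_refl b⟩
    have ha' := abs_le.1 ha
    have hb' := abs_le.1 hb
    have e2 : 2 / l = 1 / l + 1 / l := by ring
    rcases hf2 with hf2 | hf2
    · have e : ∫ x in a..b, |f'' x| / (f' x) ^ 2 = ∫ x in a..b, f'' x / (f' x) ^ 2 := by
        refine intervalIntegral.integral_congr fun x hx => ?_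
        rw [hI] at hx
        simp only [abs_of_nonneg (hf2 x hx)]
      rw [e, hFTC, e2]
      linarith
    · have e : ∫ x in a..b, |f'' x| / (f' x) ^ 2 = -∫ x in a..b, f'' x / (f' x) ^ 2 := by
        rw [← intervalIntegral.integral_neg]
        refine intervalIntegral.integral_congr fun x hx => ?_
        rw [hI] at hx
        simp only [abs_of_nonpos (hf2 x hx)]
        ring
      rw [e, hFTC, e2]
      linarith
  refine (h.first hl hf1 hB hB' key).trans ?_
  have hpi : 3 < Real.pi := Real.pi_gt_three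
  rw [div_le_div_iff₀ (by positivity) hl]
  have e3 : (2 * B / l + B' / l + B * (2 / l)) * l = 4 * B + B' := by
    field_simp
    ring
  rw [e3]
  nlinarith

/-- a point such that `f'` grows linearly away from it -/
lemma exists_center {f' f'' : ℝ → ℝ} {a b l : ℝ} (hab : a ≤ b)
    (hf' : ∀ x ∈ Icc a b, HasDerivAt f' (f'' x) x) (hf2 : ∀ x ∈ Icc a b, l ≤ f'' x) :
    ∃ x0 ∈ Icc a b, ∀ x ∈ Icc a b, l * |x - x0| ≤ |f' x| := by
  have hc : ContinuousOn f' (Icc a b) := fun x hx => (hf' x hx).continuousAt.continuousWithinAt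
  have slope : ∀ x ∈ Icc a b, ∀ y ∈ Icc a b, x ≤ y → l * (y - x) ≤ f' y - f' x := by
    intro x hx y hy hxy
    rcases eq_or_lt_of_le hxy with rfl | hlt
    · simp
    · obtain ⟨c, hc', he⟩ := exists_hasDerivAt_eq_slope f' f'' hlt
        (hc.mono (Icc_subset_Icc hx.1 hy.2))
        (fun z hz => hf' z ⟨hx.1.trans hz.1.le, hz.2.le.trans hy.2⟩)
      have h1 := hf2 c ⟨hx.1.trans hc'.1.le, hc'.2.le.trans hy.2⟩
      rw [he, le_div_iff₀ (sub_pos.2 hlt)] at h1
      exact h1
  rcases le_or_gt 0 (f' a) with ha | ha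
  · refine ⟨a, ⟨le_refl a, hab⟩, fun x hx => ?_⟩
    have h1 := slope a ⟨le_refl a, hab⟩ x hx hx.1
    rw [abs_of_nonneg (sub_nonneg.2 hx.1)]
    exact (by linarith : l * (x - a) ≤ f' x).trans (le_abs_self _)
  rcases le_or_gt (f' b) 0 with hb | hb
  · refine ⟨b, ⟨hab, le_refl b⟩, fun x hx => ?_⟩
    have h1 := slope x hx b ⟨hab, le_refl b⟩ hx.2
    rw [abs_of_nonpos (sub_nonpos.2 hx.2)]
    exact (by linarith : l * -(x - b) ≤ -f' x).trans (neg_le_abs _)
  · obtain ⟨x0, hx0, he⟩ := intermediate_value_Icc hab hc ⟨ha.le, hb.le⟩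
    refine ⟨x0, hx0, fun x hx => ?_⟩
    rcases le_total x0 x with hle | hle
    · have h1 := slope x0 hx0 x hx hle
      rw [he] at h1
      rw [abs_of_nonneg (sub_nonneg.2 hle)]
      exact (by linarith : l * (x - x0) ≤ f' x).trans (le_abs_self _)
    · have h1 := slope x hx x0 hx0 hle
      rw [he] at h1
      rw [abs_of_nonpos (sub_nonpos.2 hle)]
      exact (by linarith : l * -(x - x0) ≤ -f' x).trans (neg_le_abs _)

/-- Second derivative test, `f''` positive. -/
theorem second_pos (h : Osc a b f f' f'' A A') {l B B' : ℝ} (hl : 0 < l)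
    (hf2 : ∀ x ∈ Icc a b, l ≤ f'' x) (hB : ∀ x ∈ Icc a b, ‖A x‖ ≤ B)
    (hB' : ∫ x in a..b, ‖A' x‖ ≤ B') :
    ‖∫ x in a..b, A x * ee (f x)‖ ≤ 4 * (B + B') / Real.sqrt l := by
  have hI : uIcc a b = Icc a b := uIcc_of_le h.le
  obtain ⟨x0, hx0, hc⟩ := exists_center h.le h.hf' hf2
  have hB0 : 0 ≤ B := (norm_nonneg _).trans (hB a ⟨le_refl a, h.le⟩)
  have hs : 0 < Real.sqrt l := Real.sqrt_pos.2 hl
  set δ : ℝ := 1 / Real.sqrt l with hδ
  have hδ0 : 0 < δ := by positivity
  have hlδ : l * δ = Real.sqrt l := by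
    rw [hδ, mul_one_div, div_eq_iff hs.ne']
    exact (Real.mul_self_sqrt hl.le).symm
  set c : ℝ := max a (x0 - δ) with hcdef
  set d : ℝ := min b (x0 + δ) with hddef
  have hac : a ≤ c := le_max_left _ _
  have hdb : d ≤ b := min_le_left _ _
  have hcx : c ≤ x0 := max_le hx0.1 (by linarith)
  have hxd : x0 ≤ d := le_min hx0.2 (by linarith)
  have hcd : c ≤ d := hcx.trans hxd
  have hcb : c ≤ b := hcd.trans hdb
  have had : a ≤ d := hac.trans hcd
  have cont : ContinuousOn (fun x => A x * ee (f x)) (Icc a b) :=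
    h.cA.mul (continuous_ee.comp_continuousOn h.cf)
  have ii : ∀ u v, a ≤ u → u ≤ v → v ≤ b →
      IntervalIntegrable (fun x => A x * ee (f x)) volume u v := by
    intro u v hu huv hv
    refine ContinuousOn.intervalIntegrable ?_
    rw [uIcc_of_le huv]
    exact cont.mono (Icc_subset_Icc hu hv)
  have ii' : ∀ u v, a ≤ u → u ≤ v → v ≤ b → IntervalIntegrable (fun x => ‖A' x‖) volume u v := by
    intro u v hu huv hv
    refine ContinuousOn.intervalIntegrable ?_
    rw [uIcc_of_le huv]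
    exact h.cA'.norm.mono (Icc_subset_Icc hu hv)
  have split : ∫ x in a..b, A x * ee (f x) = (∫ x in a..c, A x * ee (f x)) +
      (∫ x in c..d, A x * ee (f x)) + ∫ x in d..b, A x * ee (f x) := by
    rw [intervalIntegral.integral_add_adjacent_intervals (ii a c le_rfl hac hcb)
      (ii c d hac hcd hdb), intervalIntegral.integral_add_adjacent_intervals
      (ii a d le_rfl had hdb) (ii d b had hdb le_rfl)]
  have split' : ∫ x in a..b, ‖A' x‖ = (∫ x in a..c, ‖A' x‖) +
      (∫ x in c..d, ‖A' x‖) + ∫ x in d..b, ‖A' x‖ := by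
    rw [intervalIntegral.integral_add_adjacent_intervals (ii' a c le_rfl hac hcb)
      (ii' c d hac hcd hdb), intervalIntegral.integral_add_adjacent_intervals
      (ii' a d le_rfl had hdb) (ii' d b had hdb le_rfl)]
  have nn : ∀ u v, u ≤ v → 0 ≤ ∫ x in u..v, ‖A' x‖ := fun u v huv =>
    intervalIntegral.integral_nonneg huv fun x _ => norm_nonneg _
  have p1 : ‖∫ x in a..c, A x * ee (f x)‖ ≤ (B + ∫ x in a..c, ‖A' x‖) / Real.sqrt l := by
    rcases le_or_gt (x0 - δ) a with hle | hlt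
    · have : c = a := max_eq_left hle
      rw [this, intervalIntegral.integral_same, norm_zero]
      have := nn a a le_rfl
      positivity
    · have hce : c = x0 - δ := max_eq_right hlt.le
      refine (h.sub le_rfl hac hcb).first_mono hs ?_ ?_ ?_ le_rfl
      · intro x hx
        have h1 := hc x ⟨hx.1, hx.2.trans hcb⟩
        have h2 : δ ≤ |x - x0| := by
          rw [abs_of_nonpos (by linarith [hx.2])]
          linarith [hx.2]
        rw [← hlδ]
        exact (mul_le_mul_of_nonneg_left h2 hl.le).trans h1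
      · exact Or.inl fun x hx => hl.le.trans (hf2 x ⟨hx.1, hx.2.trans hcb⟩)
      · exact fun x hx => hB x ⟨hx.1, hx.2.trans hcb⟩
  have p3 : ‖∫ x in d..b, A x * ee (f x)‖ ≤ (B + ∫ x in d..b, ‖A' x‖) / Real.sqrt l := by
    rcases le_or_gt b (x0 + δ) with hle | hlt
    · have : d = b := min_eq_left hle
      rw [this, intervalIntegral.integral_same, norm_zero]
      have := nn b b le_rfl
      positivity
    · have hde : d = x0 + δ := min_eq_right hlt.le
      refine (h.sub had hdb le_rfl).first_mono hs ?_ ?_ ?_ le_rfl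
      · intro x hx
        have h1 := hc x ⟨had.trans hx.1, hx.2⟩
        have h2 : δ ≤ |x - x0| := by
          rw [abs_of_nonneg (by linarith [hx.1])]
          linarith [hx.1]
        rw [← hlδ]
        exact (mul_le_mul_of_nonneg_left h2 hl.le).trans h1
      · exact Or.inl fun x hx => hl.le.trans (hf2 x ⟨had.trans hx.1, hx.2⟩)
      · exact fun x hx => hB x ⟨had.trans hx.1, hx.2⟩
  have p2 : ‖∫ x in c..d, A x * ee (f x)‖ ≤ 2 * B / Real.sqrt l := by
    have h1 : ‖∫ x in c..d, A x * ee (f x)‖ ≤ B * |d - c| := by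
      refine intervalIntegral.norm_integral_le_of_norm_le_const fun x hx => ?_
      rw [uIoc_of_le hcd] at hx
      rw [norm_mul, norm_ee, mul_one]
      exact hB x ⟨hac.trans hx.1.le, hx.2.trans hdb⟩
    have h2 : |d - c| ≤ 2 * δ := by
      rw [abs_of_nonneg (sub_nonneg.2 hcd)]
      have h3 : d ≤ x0 + δ := min_le_right _ _
      have h4 : x0 - δ ≤ c := le_max_right _ _
      linarith
    refine h1.trans ((mul_le_mul_of_nonneg_left h2 hB0).trans (le_of_eq ?_))
    rw [hδ]
    ring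
  have hn2 := nn c d hcd
  calc ‖∫ x in a..b, A x * ee (f x)‖ ≤ ‖∫ x in a..c, A x * ee (f x)‖ +
      ‖∫ x in c..d, A x * ee (f x)‖ + ‖∫ x in d..b, A x * ee (f x)‖ := by
        rw [split]
        exact norm_add₃_le
    _ ≤ (B + ∫ x in a..c, ‖A' x‖) / Real.sqrt l + 2 * B / Real.sqrt l +
        (B + ∫ x in d..b, ‖A' x‖) / Real.sqrt l := add_le_add (add_le_add p1 p2) p3
    _ = (4 * B + ((∫ x in a..c, ‖A' x‖) + ∫ x in d..b, ‖A' x‖)) / Real.sqrt l := by ring
    _ ≤ 4 * (B + B') / Real.sqrt l := by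
        refine div_le_div_of_nonneg_right ?_ hs.le
        have h5 := nn a c hac
        have h6 := nn d b hdb
        linarith

/-- Second derivative test. -/
theorem second (h : Osc a b f f' f'' A A') {l B B' : ℝ} (hl : 0 < l)
    (hf2 : (∀ x ∈ Icc a b, l ≤ f'' x) ∨ ∀ x ∈ Icc a b, f'' x ≤ -l)
    (hB : ∀ x ∈ Icc a b, ‖A x‖ ≤ B) (hB' : ∫ x in a..b, ‖A' x‖ ≤ B') :
    ‖∫ x in a..b, A x * ee (f x)‖ ≤ 4 * (B + B') / Real.sqrt l := by
  rcases hf2 with hf2 | hf2
  · exact h.second_pos hl hf2 hB hB'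
  · rw [← h.integral_conj']
    refine h.conj.second_pos hl (fun x hx => ?_) (fun x hx => ?_) ?_
    · have := hf2 x hx
      linarith
    · rw [Complex.norm_conj]
      exact hB x hx
    · simpa only [Complex.norm_conj] using hB'

end Osc

end Pool.Agent.UB.Vdc
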