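import Pool.Agent.Work.MP_56b8f5_nt.UB.Stmts
import Pool.Agent.Work.MP_56b8f5_nt.UB.Vdc

/-!
MP_56b8f5_nt, block UB, item V2: second derivative test.
-/

open MeasureTheory Set Filter Topology

noncomputable section

namespace Pool.Agent.Work.MP_56b8f5_nt.UB

theorem iV2 : StV2 := by
  intro a b μ f f1 f2 hab hμ hf hf1 hc hs
  have h : Pool.Agent.UB.Vdc.Osc a b f f1 f2 (fun _ => (1 : ℂ)) (fun _ => (0 : ℂ)) :=
    { le := hab
      hf := hf
      hf' := hf1
      cf'' := hc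
      hA := fun x _ => hasDerivAt_const x (1 : ℂ)
      cA' := continuousOn_const }
  have hB : ∀ x ∈ Icc a b, ‖(fun _ : ℝ => (1 : ℂ)) x‖ ≤ 1 := fun x _ => by simp
  have hB' : ∫ x in a..b, ‖(fun _ : ℝ => (0 : ℂ)) x‖ ≤ 0 := by simp
  have h1 := h.second hμ hs hB hB'
  have e : ∫ x in a..b, (fun _ => (1 : ℂ)) x * Pool.Agent.UB.Vdc.ee (f x) =
      ∫ x in a..b, ee (f x) := by
    refine intervalIntegral.integral_congr fun x _ => ?_
    show (1 : ℂ) * Pool.Agent.UB.Vdc.ee (f x) = ee (f x)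
    rw [one_mul]
    rfl
  rw [e] at h1
  refine h1.trans ?_
  refine div_le_div_of_nonneg_right ?_ (Real.sqrt_nonneg μ)
  norm_num

end Pool.Agent.Work.MP_56b8f5_nt.UB
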