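import Pool.Agent.Work.MP_56b8f5_nt.UB.Stmts
import Pool.Agent.Work.MP_56b8f5_nt.UB.Vdc

/-!
MP_56b8f5_nt, block UB, item Vp: partial summation.
-/

open MeasureTheory Set Filter Topology

noncomputable section

namespace Pool.Agent.Work.MP_56b8f5_nt.UB

namespace Vp_aux

lemma continuous_ee : Continuous ee := by
  unfold ee
  fun_prop

end Vp_aux

theorem iVp : StVp := by
  intro a b B D A f hab hD hA hdA hf hB
  rcases eq_or_lt_of_le hab with rfl | hlt
  · have h0 := hB a ⟨le_rfl, le_rfl⟩
    rw [intervalIntegral.integral_same, norm_zero] at h0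
    rw [intervalIntegral.integral_same, norm_zero, sub_self, mul_zero, add_zero]
    exact mul_nonneg h0 (norm_nonneg _)
  have hI : uIcc a b = Icc a b := uIcc_of_le hab
  have hee : ContinuousOn (fun x => ee (f x)) (Icc a b) :=
    Vp_aux.continuous_ee.comp_continuousOn hf
  have hii : IntervalIntegrable (fun x => ee (f x)) volume a b := by
    refine ContinuousOn.intervalIntegrable ?_
    rw [hI]
    exact hee
  set E : ℝ → ℂ := fun y => ∫ x in a..y, ee (f x) with hE
  have hEc : ContinuousOn E (Icc a b) := by
    have h1 := intervalIntegral.continuousOn_primitive_interval (μ := volume) (a := a) (b := b)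
      (f := fun x => ee (f x)) (by
        rw [hI]
        exact hee.integrableOn_Icc)
    rw [hI] at h1
    exact h1
  have hEd : ∀ x ∈ Ioo a b, HasDerivAt E (ee (f x)) x := by
    intro x hx
    have hsub : IntervalIntegrable (fun x => ee (f x)) volume a x :=
      hii.mono_set (by
        rw [hI, uIcc_of_le hx.1.le]
        exact Icc_subset_Icc le_rfl hx.2.le)
    have hcx : ContinuousAt (fun x => ee (f x)) x :=
      (hee x ⟨hx.1.le, hx.2.le⟩).continuousAt (Icc_mem_nhds hx.1 hx.2)
    refine intervalIntegral.integral_hasDerivAt_right hsub ?_ hcx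
    exact ContinuousOn.stronglyMeasurableAtFilter isOpen_Ioo
      (hee.mono Ioo_subset_Icc_self) x hx
  have hEB : ∀ y ∈ Icc a b, ‖E y‖ ≤ B := hB
  have hB0 : 0 ≤ B := (norm_nonneg _).trans (hEB a ⟨le_rfl, hab⟩)
  -- integrability of the derivative part
  have hbd : ∀ x ∈ Ioo a b, ‖deriv A x * E x‖ ≤ D * B := by
    intro x hx
    rw [norm_mul]
    exact mul_le_mul (hdA x hx).2 (hEB x ⟨hx.1.le, hx.2.le⟩) (norm_nonneg _) hD
  have hmeas : AEStronglyMeasurable (fun x => deriv A x * E x) (volume.restrict (Ioo a b)) := by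
    refine AEStronglyMeasurable.mul ?_ ?_
    · exact (measurable_deriv A).aestronglyMeasurable
    · exact (hEc.mono Ioo_subset_Icc_self).aestronglyMeasurable measurableSet_Ioo
  have hint1 : IntegrableOn (fun x => deriv A x * E x) (Ioo a b) volume := by
    exact Integrable.of_bound hmeas (D * B)
      ((ae_restrict_iff' measurableSet_Ioo).2 (Eventually.of_forall hbd))
  have hii1 : IntervalIntegrable (fun x => deriv A x * E x) volume a b := by
    rw [intervalIntegrable_iff_integrableOn_Ioo_of_le hab]
    exact hint1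
  have hii2 : IntervalIntegrable (fun x => A x * ee (f x)) volume a b := by
    refine ContinuousOn.intervalIntegrable ?_
    rw [hI]
    exact hA.mul hee
  have hFTC : ∫ x in a..b, (deriv A x * E x + A x * ee (f x)) = A b * E b - A a * E a := by
    refine intervalIntegral.integral_eq_sub_of_hasDerivAt_of_le hab (f := fun x => A x * E x)
      (hA.mul hEc) ?_ (hii1.add hii2)
    intro x hx
    exact (hdA x hx).1.hasDerivAt.mul (hEd x hx)
  rw [intervalIntegral.integral_add hii1 hii2] at hFTC
  have hEa : E a = 0 := intervalIntegral.integral_same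
  rw [hEa, mul_zero, sub_zero] at hFTC
  have hval : ∫ x in a..b, A x * ee (f x) = A b * E b - ∫ x in a..b, deriv A x * E x := by
    rw [← hFTC]
    ring
  rw [hval]
  have h1 : ‖A b * E b‖ ≤ B * ‖A b‖ := by
    rw [norm_mul, mul_comm]
    exact mul_le_mul_of_nonneg_right (hEB b ⟨hab, le_rfl⟩) (norm_nonneg _)
  have h2 : ‖∫ x in a..b, deriv A x * E x‖ ≤ D * B * (b - a) := by
    rw [intervalIntegral.integral_of_le hab, integral_Ioc_eq_integral_Ioo]
    have h3 := norm_setIntegral_le_of_norm_le_const (μ := volume) (s := Ioo a b)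
      (f := fun x => deriv A x * E x) (C := D * B) (by
        rw [Real.volume_Ioo]
        exact ENNReal.ofReal_lt_top) hbd
    refine h3.trans (le_of_eq ?_)
    rw [Measure.real, Real.volume_Ioo, ENNReal.toReal_ofReal (by linarith)]
  calc ‖A b * E b - ∫ x in a..b, deriv A x * E x‖
      ≤ ‖A b * E b‖ + ‖∫ x in a..b, deriv A x * E x‖ := norm_sub_le _ _
    _ ≤ B * ‖A b‖ + D * B * (b - a) := add_le_add h1 h2
    _ = B * (‖A b‖ + D * (b - a)) := by ring

end Pool.Agent.Work.MP_56b8f5_nt.UB
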