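import Pool.Agent.Work.MP_56b8f5_nt.UB.Stmts

/-!
MP_56b8f5_nt, block UB, item Wc (windows).
-/

open MeasureTheory Set Filter Topology

noncomputable section

namespace Pool.Agent.Work.MP_56b8f5_nt.UB

namespace Wc_aux

/-- one window -/
theorem window {T L B X : ℝ} {S : Set ℝ} (hX : 0 < X)
    (hS : MeasurableSet S) (hSb : ∀ s ∈ S, s ≤ T)
    (h : Rr {x : ℝ | x ∈ Icc 0 L ∧ (X + x) ^ 2 ∈ S} ≤ B) :
    volume ((fun x : ℝ => (X + x) ^ 2) '' {x : ℝ | x ∈ Icc 0 L ∧ (X + x) ^ 2 ∈ S}) ≤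
      ENNReal.ofReal (2 * Real.sqrt T * B) := by
  set W : Set ℝ := {x : ℝ | x ∈ Icc 0 L ∧ (X + x) ^ 2 ∈ S} with hW
  have hmf : Measurable (fun x : ℝ => (X + x) ^ 2) := by fun_prop
  have hWm : MeasurableSet W := by
    have : W = Icc 0 L ∩ (fun x : ℝ => (X + x) ^ 2) ⁻¹' S := by
      ext x
      rfl
    rw [this]
    exact measurableSet_Icc.inter (hmf hS)
  have hWfin : volume W < ⊤ := by
    refine lt_of_le_of_lt (measure_mono (fun x hx => hx.1)) ?_
    exact measure_Icc_lt_top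
  have hWB : volume W ≤ ENNReal.ofReal B := by
    have h1 : volume W = ENNReal.ofReal (Rr W) := by
      unfold Rr
      rw [ENNReal.ofReal_toReal hWfin.ne]
    rw [h1]
    exact ENNReal.ofReal_le_ofReal h
  have hd : ∀ x ∈ W, HasDerivWithinAt (fun x : ℝ => (X + x) ^ 2) (2 * (X + x)) W x := by
    intro x _
    have h1 : HasDerivAt (fun x : ℝ => (X + x) ^ 2) (2 * (X + x)) x := by
      have h2 : HasDerivAt (fun x : ℝ => X + x) 1 x := by
        simpa using (hasDerivAt_id x).const_add X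
      have h3 := h2.fun_pow 2
      simpa using h3
    exact h1.hasDerivWithinAt
  have hinj : InjOn (fun x : ℝ => (X + x) ^ 2) W := by
    intro x hx y hy hxy
    have hx0 : 0 ≤ X + x := by linarith [hx.1.1]
    have hy0 : 0 ≤ X + y := by linarith [hy.1.1]
    have := (pow_left_inj₀ hx0 hy0 (two_ne_zero)).1 hxy
    linarith
  have key := lintegral_image_eq_lintegral_abs_deriv_mul hWm hd hinj (fun _ => (1 : ENNReal))
  rw [setLIntegral_one] at key
  rw [key]
  have h2 : ∀ x ∈ W, ENNReal.ofReal |2 * (X + x)| * 1 ≤ ENNReal.ofReal (2 * Real.sqrt T) := by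
    intro x hx
    rw [mul_one]
    apply ENNReal.ofReal_le_ofReal
    have hx0 : 0 ≤ X + x := by linarith [hx.1.1]
    rw [abs_of_nonneg (by positivity)]
    have : X + x ≤ Real.sqrt T := Real.le_sqrt_of_sq_le (hSb _ hx.2)
    linarith
  calc ∫⁻ x in W, ENNReal.ofReal |2 * (X + x)| * 1
      ≤ ∫⁻ _ in W, ENNReal.ofReal (2 * Real.sqrt T) := setLIntegral_mono' hWm h2
    _ = ENNReal.ofReal (2 * Real.sqrt T) * volume W := by rw [setLIntegral_const]
    _ ≤ ENNReal.ofReal (2 * Real.sqrt T) * ENNReal.ofReal B := by gcongr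
    _ = ENNReal.ofReal (2 * Real.sqrt T * B) := by
        rw [← ENNReal.ofReal_mul (by positivity)]

end Wc_aux

open Wc_aux

/-- Item Wc. -/
theorem iWc : StWc := by
  refine ⟨4, by norm_num, ?_⟩
  intro T L B S hT hL hLT hB hS hSI hW
  have hT0 : 0 < T := by linarith
  have hpi := Real.pi_pos
  have hpi3 := Real.pi_gt_three
  set a : ℝ := Real.sqrt (T / (4 * Real.pi)) with ha
  set b : ℝ := Real.sqrt (2 * T / Real.pi) with hb
  have ha0 : 0 < a := by rw [ha]; positivity
  have hTT : 2 * T / Real.pi ≤ T := by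
    rw [div_le_iff₀ hpi]
    nlinarith
  have hbT : b ≤ Real.sqrt T := Real.sqrt_le_sqrt hTT
  have hab : a ≤ b := by
    apply Real.sqrt_le_sqrt
    rw [div_le_div_iff₀ (by positivity) hpi]
    nlinarith [mul_pos hT0 hpi]
  have hsT : 0 < Real.sqrt T := Real.sqrt_pos.2 hT0
  set J : ℕ := ⌊(b - a) / L⌋₊ with hJ
  have hSb : ∀ s ∈ S, s ≤ T := fun s hs => (hSI hs).2.trans hTT
  have hgrid : ∀ j ∈ Finset.range (J + 1), 0 < a + j * L ∧ (a + j * L) ^ 2 ∈ sI T := by
    intro j hj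
    have hj' : j ≤ J := Nat.lt_succ_iff.1 (Finset.mem_range.1 hj)
    have hjL : (j : ℝ) * L ≤ b - a := by
      have h1 : (j : ℝ) ≤ (b - a) / L := by
        refine le_trans (Nat.cast_le.2 hj') ?_
        exact Nat.floor_le (div_nonneg (by linarith) hL.le)
      rwa [le_div_iff₀ hL] at h1
    have hjL0 : 0 ≤ (j : ℝ) * L := by positivity
    have hpos : 0 < a + j * L := by linarith
    refine ⟨hpos, ?_, ?_⟩
    · have h1 : a ^ 2 = T / (4 * Real.pi) := Real.sq_sqrt (by positivity)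
      rw [← h1]
      exact pow_le_pow_left₀ ha0.le (by linarith) 2
    · have h1 : b ^ 2 = 2 * T / Real.pi := Real.sq_sqrt (by positivity)
      rw [← h1]
      exact pow_le_pow_left₀ hpos.le (by linarith) 2
  have hcov : S ⊆ ⋃ j ∈ Finset.range (J + 1), (fun x : ℝ => (a + j * L + x) ^ 2) ''
      {x : ℝ | x ∈ Icc 0 L ∧ (a + j * L + x) ^ 2 ∈ S} := by
    intro s hs
    have hs1 := hSI hs
    have hs0 : 0 ≤ s := by
      refine le_trans ?_ hs1.1
      positivity
    set ξ : ℝ := Real.sqrt s with hξ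
    have hξ2 : ξ ^ 2 = s := Real.sq_sqrt hs0
    have hξa : a ≤ ξ := Real.sqrt_le_sqrt hs1.1
    have hξb : ξ ≤ b := Real.sqrt_le_sqrt hs1.2
    have hdn : 0 ≤ (ξ - a) / L := div_nonneg (by linarith) hL.le
    set j : ℕ := ⌊(ξ - a) / L⌋₊ with hj
    have hj1 : (j : ℝ) * L ≤ ξ - a := by
      have := Nat.floor_le hdn
      rwa [le_div_iff₀ hL] at this
    have hj2 : ξ - a ≤ j * L + L := by
      have := (Nat.lt_floor_add_one ((ξ - a) / L)).le
      rw [div_le_iff₀ hL] at this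
      linarith
    have hjJ : j ≤ J := by
      apply Nat.floor_le_floor
      gcongr
    have hval : a + (j : ℝ) * L + (ξ - a - j * L) = ξ := by ring
    refine Set.mem_iUnion₂.2 ⟨j, Finset.mem_range.2 (Nat.lt_succ_of_le hjJ),
      ξ - a - j * L, ⟨⟨by linarith, by linarith⟩, ?_⟩, ?_⟩
    · rw [hval, hξ2]
      exact hs
    · simp only [hval]
      exact hξ2
  have hvol : volume S ≤ ENNReal.ofReal ((J + 1 : ℕ) * (2 * Real.sqrt T * B)) := by
    refine (measure_mono hcov).trans ?_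
    refine (measure_biUnion_finset_le _ _).trans ?_
    refine (Finset.sum_le_sum (fun j hj => window (hgrid j hj).1 hS hSb
      (hW _ (hgrid j hj).1 (hgrid j hj).2))).trans ?_
    rw [Finset.sum_const, Finset.card_range, nsmul_eq_mul,
      ENNReal.ofReal_mul (Nat.cast_nonneg (J + 1)), ENNReal.ofReal_natCast]
  have h1 : Rr S ≤ (J + 1 : ℕ) * (2 * Real.sqrt T * B) := by
    unfold Rr
    exact ENNReal.toReal_le_of_le_ofReal (by positivity) hvol
  refine h1.trans ?_
  have hJ1 : ((J + 1 : ℕ) : ℝ) ≤ 2 * Real.sqrt T / L := by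
    have h2 : (J : ℝ) ≤ (b - a) / L := Nat.floor_le (div_nonneg (by linarith) hL.le)
    have h3 : (b - a) / L ≤ Real.sqrt T / L := by
      apply div_le_div_of_nonneg_right _ hL.le
      linarith
    have h4 : 1 ≤ Real.sqrt T / L := by
      rw [le_div_iff₀ hL]
      linarith
    push_cast
    calc (J : ℝ) + 1 ≤ Real.sqrt T / L + Real.sqrt T / L := by linarith
      _ = 2 * Real.sqrt T / L := by ring
  calc ((J + 1 : ℕ) : ℝ) * (2 * Real.sqrt T * B) ≤ 2 * Real.sqrt T / L * (2 * Real.sqrt T * B) := by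
        gcongr
    _ = 4 * (Real.sqrt T * Real.sqrt T / L) * B := by ring
    _ = 4 * (T / L) * B := by rw [Real.mul_self_sqrt hT0.le]

end Pool.Agent.Work.MP_56b8f5_nt.UB
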