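import Pool.Agent.Work.MP_56b8f5_nt.UB.I_AL
import Pool.Agent.Work.MP_56b8f5_nt.UB.I_AM
import Pool.Agent.Work.MP_56b8f5_nt.UB.I_Aa
import Pool.Agent.Work.MP_56b8f5_nt.UB.I_D0
import Pool.Agent.Work.MP_56b8f5_nt.UB.I_DD
import Pool.Agent.Work.MP_56b8f5_nt.UB.I_DN
import Pool.Agent.Work.MP_56b8f5_nt.UB.I_Df
import Pool.Agent.Work.MP_56b8f5_nt.UB.I_Dn
import Pool.Agent.Work.MP_56b8f5_nt.UB.I_Dp
import Pool.Agent.Work.MP_56b8f5_nt.UB.I_Ds
import Pool.Agent.Work.MP_56b8f5_nt.UB.I_Dx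
import Pool.Agent.Work.MP_56b8f5_nt.UB.I_E1
import Pool.Agent.Work.MP_56b8f5_nt.UB.I_E2
import Pool.Agent.Work.MP_56b8f5_nt.UB.I_E2a
import Pool.Agent.Work.MP_56b8f5_nt.UB.I_E3
import Pool.Agent.Work.MP_56b8f5_nt.UB.I_E4
import Pool.Agent.Work.MP_56b8f5_nt.UB.I_FJ
import Pool.Agent.Work.MP_56b8f5_nt.UB.I_FJa
import Pool.Agent.Work.MP_56b8f5_nt.UB.I_FJb
import Pool.Agent.Work.MP_56b8f5_nt.UB.I_Fb
import Pool.Agent.Work.MP_56b8f5_nt.UB.I_Fc
import Pool.Agent.Work.MP_56b8f5_nt.UB.I_Fw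
import Pool.Agent.Work.MP_56b8f5_nt.UB.I_H
import Pool.Agent.Work.MP_56b8f5_nt.UB.I_HM
import Pool.Agent.Work.MP_56b8f5_nt.UB.I_Hp
import Pool.Agent.Work.MP_56b8f5_nt.UB.I_IP
import Pool.Agent.Work.MP_56b8f5_nt.UB.I_JB
import Pool.Agent.Work.MP_56b8f5_nt.UB.I_K2
import Pool.Agent.Work.MP_56b8f5_nt.UB.I_K3
import Pool.Agent.Work.MP_56b8f5_nt.UB.I_KB
import Pool.Agent.Work.MP_56b8f5_nt.UB.I_KD
import Pool.Agent.Work.MP_56b8f5_nt.UB.I_KP
import Pool.Agent.Work.MP_56b8f5_nt.UB.I_Ka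
import Pool.Agent.Work.MP_56b8f5_nt.UB.I_Kn
import Pool.Agent.Work.MP_56b8f5_nt.UB.I_LV
import Pool.Agent.Work.MP_56b8f5_nt.UB.I_Ln
import Pool.Agent.Work.MP_56b8f5_nt.UB.I_MA
import Pool.Agent.Work.MP_56b8f5_nt.UB.I_MV
import Pool.Agent.Work.MP_56b8f5_nt.UB.I_Mb
import Pool.Agent.Work.MP_56b8f5_nt.UB.I_Pf
import Pool.Agent.Work.MP_56b8f5_nt.UB.I_Phi
import Pool.Agent.Work.MP_56b8f5_nt.UB.I_Rp
import Pool.Agent.Work.MP_56b8f5_nt.UB.I_Sup
import Pool.Agent.Work.MP_56b8f5_nt.UB.I_V1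
import Pool.Agent.Work.MP_56b8f5_nt.UB.I_V2
import Pool.Agent.Work.MP_56b8f5_nt.UB.I_Vp
import Pool.Agent.Work.MP_56b8f5_nt.UB.I_Wc
import Pool.Agent.Work.MP_56b8f5_nt.EM.All

/-!
MP_56b8f5_nt, block UB: everything together.
-/

namespace Pool.Agent.Work.MP_56b8f5_nt.UB

theorem all_Vp : StVp := iVp
theorem all_V1 : StV1 := iV1
theorem all_V2 : StV2 := iV2
theorem all_IP : StIP := iIP
theorem all_AL : StAL := iAL all_Vp all_V2
theorem all_Ka : StKa := iKa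
theorem all_Kn : StKn := iKn all_Ka
theorem all_K2 : StK2 := iK2 all_Kn all_IP
theorem all_K3 : StK3 := iK3 all_AL all_Kn all_Ka
theorem all_KP : StKP := iKP all_Ka
theorem all_KB : StKB := iKB all_K2 all_K3 all_KP
theorem all_KD : StKD := iKD all_K2 all_KP
theorem all_Hp : StHp := iHp all_V1 all_V2 all_Ka
theorem all_H : StH := iH all_Vp all_K3 all_Hp
theorem all_E1 : StE1 := iE1
theorem all_E2a : StE2a := iE2a
theorem all_E2 : StE2 := iE2 all_E2a all_KB all_E1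
theorem all_E3 : StE3 := iE3
theorem all_E4 : StE4 := iE4 all_E1
theorem all_HM : StHM := iHM all_E3 all_KB
theorem all_DN : StDN := iDN all_E3 all_KD all_K2 all_K3 all_H all_E4
theorem all_LV : StLV := iLV all_E2 all_DN
theorem all_Phi : StPhi := iPhi
theorem all_Dx : StDx := iDx EM.all_Pc
theorem all_Dp : StDp := iDp
theorem all_Ds : StDs := iDs
theorem all_Aa : StAa := iAa
theorem all_Pf : StPf := iPf
theorem all_D0 : StD0 := iD0 all_Pf
theorem all_Df : StDf := iDf all_Aa all_Pf all_IP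
theorem all_Dn : StDn := iDn all_Aa all_Pf all_IP
theorem all_DD : StDD := iDD all_Dx all_Dp all_Ds all_D0 all_Df all_Dn
theorem all_AM : StAM := iAM all_AL
theorem all_Ln : StLn := iLn
theorem all_MV : StMV := iMV all_Vp all_V1 all_AM
theorem all_Rp : StRp := iRp EM.all_Pc
theorem all_Wc : StWc := iWc
theorem all_Mb : StMb := iMb all_AM
theorem all_Fw : StFw := iFw all_AM all_Ln
theorem all_Fc : StFc := iFc all_AM all_Fw all_HM all_Wc all_Mb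
theorem all_Fb : StFb := iFb all_Fw all_LV all_Wc all_Mb
theorem all_FJa : StFJa := iFJa all_DD all_Rp all_Mb EM.all_Pc
theorem all_FJb : StFJb := iFJb all_AM all_Mb
theorem all_FJ : StFJ := iFJ all_FJa all_FJb
theorem all_JB : StJB := iJB all_Phi all_MV all_Mb all_Fc all_Fb all_FJ
theorem all_Sup : StSup := iSup all_Phi all_DD all_Rp all_AM
theorem all_MA : StMA := iMA all_JB all_Sup EM.all_Z EM.all_Pc
theorem all_Main : StMain := iMain all_MA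

end Pool.Agent.Work.MP_56b8f5_nt.UB
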