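import Mathlib

open MeasureTheory Set Filter Topology
open scoped ENNReal

noncomputable section

namespace Pool.Agent.Work.MP_56b8f5_nt.UB.En

/-- Autocorrelation. -/
def rr (W : Set ℝ) (a : ℝ) : ℝ≥0∞ := ∫⁻ x, W.indicator 1 x * W.indicator 1 (x + a)

/-- The energy as a lower integral. -/
def El (W : Set ℝ) : ℝ≥0∞ := ∫⁻ a, rr W a * rr W a

theorem meas_w {W : Set ℝ} (hW : MeasurableSet W) :
    Measurable (W.indicator (1 : ℝ → ℝ≥0∞)) := measurable_one.indicator hW

theorem meas_rr {W : Set ℝ} (hW : MeasurableSet W) : Measurable (rr W) := by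
  unfold rr
  have h := meas_w hW
  have : Measurable (fun p : ℝ × ℝ => W.indicator (1 : ℝ → ℝ≥0∞) p.2 *
      W.indicator (1 : ℝ → ℝ≥0∞) (p.2 + p.1)) :=
    (h.comp measurable_snd).mul (h.comp (measurable_snd.add measurable_fst))
  exact this.lintegral_prod_right'

theorem shift_le {W : Set ℝ} (hW : MeasurableSet W) (u : ℝ) :
    ∫⁻ a, rr W a * rr W (u + a) ≤ El W := by
  have hr := meas_rr hW
  have hs : Measurable fun a => rr W (u + a) := hr.comp (measurable_const_add u)
  have h1 : ∀ a, rr W a * rr W (u + a) ≤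
      (rr W a * rr W a + rr W (u + a) * rr W (u + a)) / 2 := by
    intro a
    rw [ENNReal.le_div_iff_mul_le (by norm_num) (by norm_num)]
    generalize rr W a = x
    generalize rr W (u + a) = y
    by_cases hx : x = ∞
    · rw [hx]
      by_cases hy : y = 0
      · rw [hy]; simp
      · simp
    by_cases hy : y = ∞
    · rw [hy]; simp
    lift x to NNReal using hx
    lift y to NNReal using hy
    norm_cast
    have : (x : ℝ) * y * 2 ≤ x * x + y * y := by nlinarith [sq_nonneg ((x : ℝ) - y)]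
    exact_mod_cast this
  calc ∫⁻ a, rr W a * rr W (u + a)
      ≤ ∫⁻ a, (rr W a * rr W a + rr W (u + a) * rr W (u + a)) / 2 := lintegral_mono h1
    _ = (∫⁻ a, rr W a * rr W a + rr W (u + a) * rr W (u + a)) / 2 := by
        simp only [div_eq_mul_inv]
        rw [lintegral_mul_const]
        exact (hr.mul hr).add (hs.mul hs)
    _ = (El W + El W) / 2 := by
        have hq : Measurable fun a => rr W a * rr W a := hr.mul hr
        rw [lintegral_add_left hq]
        congr 2
        exact lintegral_add_left_eq_self (μ := volume) (fun a => rr W a * rr W a) u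
    _ = El W := by
        rw [← two_mul, mul_comm, ENNReal.mul_div_cancel_right (by norm_num) (by norm_num)]

/-- Integrals over `W` as integrals with the indicator. -/
theorem set_ind {W : Set ℝ} (hW : MeasurableSet W) (g : ℝ → ℝ≥0∞) :
    ∫⁻ x in W, g x = ∫⁻ x, W.indicator 1 x * g x := by
  rw [← lintegral_indicator hW]
  refine lintegral_congr fun x => ?_
  by_cases hx : x ∈ W <;> simp [hx]

/-- The fourfold integral. -/
theorem four {W : Set ℝ} (hW : MeasurableSet W) {h : ℝ → ℝ≥0∞} (hh : Measurable h) :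
    ∫⁻ x1 in W, ∫⁻ x2 in W, ∫⁻ x3 in W, ∫⁻ x4 in W, h (x1 + x2 - x3 - x4) ≤
      (∫⁻ u, h u) * El W := by
  have mw := meas_w hW
  have hr := meas_rr hW
  set w : ℝ → ℝ≥0∞ := W.indicator 1 with hw
  -- swap: integrate in `x1` last
  have e1 : ∫⁻ x1 in W, ∫⁻ x2 in W, ∫⁻ x3 in W, ∫⁻ x4 in W, h (x1 + x2 - x3 - x4) =
      ∫⁻ x1, ∫⁻ x2, ∫⁻ x3, ∫⁻ x4, w x1 * w x2 * w x3 * w x4 * h (x1 + x2 - x3 - x4) := by
    rw [set_ind hW]
    refine lintegral_congr fun x1 => ?_
    rw [set_ind hW, ← lintegral_const_mul' _ _ (by rw [← hw]; simp only [hw, indicator]; split_ifs <;> simp)]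
    refine lintegral_congr fun x2 => ?_
    rw [set_ind hW, ← mul_assoc, ← lintegral_const_mul' _ _ (by
      simp only [indicator]; split_ifs <;> simp)]
    refine lintegral_congr fun x3 => ?_
    rw [set_ind hW, ← mul_assoc, ← lintegral_const_mul' _ _ (by
      simp only [indicator]; split_ifs <;> simp)]
    refine lintegral_congr fun x4 => ?_
    rw [← mul_assoc]
  have fin : ∀ x, w x ≠ ∞ := by intro x; simp only [hw, indicator]; split_ifs <;> simp
  -- order of integration: `x1` innermost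
  have e2 : ∫⁻ x1, ∫⁻ x2, ∫⁻ x3, ∫⁻ x4, w x1 * w x2 * w x3 * w x4 * h (x1 + x2 - x3 - x4) =
      ∫⁻ x2, ∫⁻ x3, ∫⁻ x4, ∫⁻ u, w (u - x2 + x3 + x4) * w x2 * w x3 * w x4 * h u := by
    have M4 : Measurable fun p : ℝ × ℝ × ℝ × ℝ =>
        w p.1 * w p.2.1 * w p.2.2.1 * w p.2.2.2 * h (p.1 + p.2.1 - p.2.2.1 - p.2.2.2) := by
      fun_prop
    rw [lintegral_lintegral_swap]
    · refine lintegral_congr fun x2 => ?_
      rw [lintegral_lintegral_swap]
      · refine lintegral_congr fun x3 => ?_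
        rw [lintegral_lintegral_swap]
        · refine lintegral_congr fun x4 => ?_
          rw [← lintegral_sub_right_eq_self (fun x1 => w x1 * w x2 * w x3 * w x4 *
            h (x1 + x2 - x3 - x4)) (x2 - x3 - x4)]
          refine lintegral_congr fun u => ?_
          congr 2
          · congr 4; ring
          · ring
        · apply Measurable.aemeasurable; fun_prop
      · apply Measurable.aemeasurable
        exact Measurable.lintegral_prod_right' (f := fun p : (ℝ × ℝ) × ℝ =>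
          w p.1.1 * w x2 * w p.1.2 * w p.2 * h (p.1.1 + x2 - p.1.2 - p.2)) (by fun_prop)
    · apply Measurable.aemeasurable
      refine Measurable.lintegral_prod_right' (f := fun p : (ℝ × ℝ) × ℝ =>
        ∫⁻ x4, w p.1.1 * w p.1.2 * w p.2 * w x4 * h (p.1.1 + p.1.2 - p.2 - x4)) ?_
      exact Measurable.lintegral_prod_right' (f := fun p : ((ℝ × ℝ) × ℝ) × ℝ =>
        w p.1.1.1 * w p.1.1.2 * w p.1.2 * w p.2 * h (p.1.1.1 + p.1.1.2 - p.1.2 - p.2))
        (by fun_prop)
  have mw' : Measurable w := mw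
  have e3 : ∫⁻ x2, ∫⁻ x3, ∫⁻ x4, ∫⁻ u, w (u - x2 + x3 + x4) * w x2 * w x3 * w x4 * h u =
      ∫⁻ u, ∫⁻ x2, ∫⁻ x3, ∫⁻ x4, w (u - x2 + x3 + x4) * w x2 * w x3 * w x4 * h u := by
    have s1 : ∀ x2 x3, ∫⁻ x4, ∫⁻ u, w (u - x2 + x3 + x4) * w x2 * w x3 * w x4 * h u =
        ∫⁻ u, ∫⁻ x4, w (u - x2 + x3 + x4) * w x2 * w x3 * w x4 * h u := by
      intro x2 x3
      rw [lintegral_lintegral_swap]
      apply Measurable.aemeasurable; fun_prop
    have s2 : ∀ x2, ∫⁻ x3, ∫⁻ u, ∫⁻ x4, w (u - x2 + x3 + x4) * w x2 * w x3 * w x4 * h u =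
        ∫⁻ u, ∫⁻ x3, ∫⁻ x4, w (u - x2 + x3 + x4) * w x2 * w x3 * w x4 * h u := by
      intro x2
      rw [lintegral_lintegral_swap]
      apply Measurable.aemeasurable
      exact Measurable.lintegral_prod_right' (f := fun p : (ℝ × ℝ) × ℝ =>
          w (p.1.2 - x2 + p.1.1 + p.2) * w x2 * w p.1.1 * w p.2 * h p.1.2) (by fun_prop)
    simp only [s1, s2]
    rw [lintegral_lintegral_swap]
    apply Measurable.aemeasurable
    refine Measurable.lintegral_prod_right' (f := fun p : (ℝ × ℝ) × ℝ =>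
        ∫⁻ x4, w (p.1.2 - p.1.1 + p.2 + x4) * w p.1.1 * w p.2 * w x4 * h p.1.2) ?_
    exact Measurable.lintegral_prod_right' (f := fun p : ((ℝ × ℝ) × ℝ) × ℝ =>
        w (p.1.1.2 - p.1.1.1 + p.1.2 + p.2) * w p.1.1.1 * w p.1.2 * w p.2 * h p.1.1.2)
        (by fun_prop)
  have e4 : ∀ u, ∫⁻ x2, ∫⁻ x3, ∫⁻ x4, w (u - x2 + x3 + x4) * w x2 * w x3 * w x4 * h u =
      h u * ∫⁻ a, rr W a * rr W (u + a) := by
    intro u
    have t1 : ∀ x2, ∫⁻ x3, ∫⁻ x4, w (u - x2 + x3 + x4) * w x2 * w x3 * w x4 * h u =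
        ∫⁻ a, ∫⁻ x4, w (u + a + x4) * w x2 * w (x2 + a) * w x4 * h u := by
      intro x2
      rw [← lintegral_add_left_eq_self (fun x3 => ∫⁻ x4, w (u - x2 + x3 + x4) * w x2 * w x3 * w x4 *
        h u) x2]
      refine lintegral_congr fun a => lintegral_congr fun x4 => ?_
      congr 4
      congr 1
      ring
    simp only [t1]
    rw [lintegral_lintegral_swap]
    · have hq : Measurable fun a => rr W a * rr W (u + a) :=
        hr.mul (hr.comp (measurable_const_add u))
      rw [← lintegral_const_mul _ hq]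
      refine lintegral_congr fun a => ?_
      have t2 : ∀ x2, ∫⁻ x4, w (u + a + x4) * w x2 * w (x2 + a) * w x4 * h u =
          (w x2 * w (x2 + a)) * (h u * rr W (u + a)) := by
        intro x2
        rw [← mul_assoc]
        unfold rr
        rw [← lintegral_const_mul _ (by fun_prop)]
        refine lintegral_congr fun x4 => ?_
        rw [add_comm (u + a) x4]
        ring
      simp only [t2]
      rw [lintegral_mul_const _ (by fun_prop)]
      show rr W a * (h u * rr W (u + a)) = _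
      ring
    · apply Measurable.aemeasurable
      exact Measurable.lintegral_prod_right' (f := fun p : (ℝ × ℝ) × ℝ =>
          w (u + p.1.2 + p.2) * w p.1.1 * w (p.1.1 + p.1.2) * w p.2 * h u) (by fun_prop)
  rw [e1, e2, e3]
  simp only [e4]
  calc ∫⁻ u, h u * ∫⁻ a, rr W a * rr W (u + a) ≤ ∫⁻ u, h u * El W :=
        lintegral_mono fun u => mul_le_mul_right (shift_le hW u) _
    _ = _ := lintegral_mul_const _ hh

/-- The energy. -/
theorem El_eq {W : Set ℝ} (hW : MeasurableSet W) :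
    ∫⁻ x1 in W, ∫⁻ x2 in W, ∫⁻ x3 in W, W.indicator 1 (x1 + x2 - x3) = El W := by
  have mw := meas_w hW
  have hr := meas_rr hW
  set w : ℝ → ℝ≥0∞ := W.indicator 1 with hw
  have fin : ∀ x, w x ≠ ∞ := by intro x; simp only [hw, indicator]; split_ifs <;> simp
  have e1 : ∫⁻ x1 in W, ∫⁻ x2 in W, ∫⁻ x3 in W, w (x1 + x2 - x3) =
      ∫⁻ x1, ∫⁻ x2, ∫⁻ x3, w x1 * w x2 * w x3 * w (x1 + x2 - x3) := by
    rw [set_ind hW]
    refine lintegral_congr fun x1 => ?_
    rw [set_ind hW, ← lintegral_const_mul' _ _ (fin x1)]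
    refine lintegral_congr fun x2 => ?_
    rw [set_ind hW, ← mul_assoc, ← lintegral_const_mul' _ _ (ENNReal.mul_ne_top (fin x1) (fin x2))]
    refine lintegral_congr fun x3 => ?_
    rw [← mul_assoc]
  have e2 : ∫⁻ x1, ∫⁻ x2, ∫⁻ x3, w x1 * w x2 * w x3 * w (x1 + x2 - x3) =
      ∫⁻ x2, ∫⁻ x3, ∫⁻ a, w (a + x3) * w x2 * w x3 * w (a + x2) := by
    rw [lintegral_lintegral_swap]
    · refine lintegral_congr fun x2 => ?_
      rw [lintegral_lintegral_swap]
      · refine lintegral_congr fun x3 => ?_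
        rw [← lintegral_add_right_eq_self (fun x1 => w x1 * w x2 * w x3 * w (x1 + x2 - x3)) x3]
        refine lintegral_congr fun a => ?_
        congr 2
        ring
      · apply Measurable.aemeasurable; fun_prop
    · apply Measurable.aemeasurable
      exact Measurable.lintegral_prod_right' (f := fun p : (ℝ × ℝ) × ℝ =>
        w p.1.1 * w p.1.2 * w p.2 * w (p.1.1 + p.1.2 - p.2)) (by fun_prop)
  have e3 : ∫⁻ x2, ∫⁻ x3, ∫⁻ a, w (a + x3) * w x2 * w x3 * w (a + x2) =
      ∫⁻ a, rr W a * rr W a := by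
    have s1 : ∀ x2, ∫⁻ x3, ∫⁻ a, w (a + x3) * w x2 * w x3 * w (a + x2) =
        ∫⁻ a, ∫⁻ x3, w (a + x3) * w x2 * w x3 * w (a + x2) := by
      intro x2
      rw [lintegral_lintegral_swap]
      apply Measurable.aemeasurable; fun_prop
    simp only [s1]
    rw [lintegral_lintegral_swap]
    · refine lintegral_congr fun a => ?_
      have t1 : ∀ x2, ∫⁻ x3, w (a + x3) * w x2 * w x3 * w (a + x2) =
          (w x2 * w (x2 + a)) * rr W a := by
        intro x2
        unfold rr
        rw [← lintegral_const_mul _ (by fun_prop)]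
        refine lintegral_congr fun x3 => ?_
        rw [add_comm a x3, add_comm a x2]
        ring
      simp only [t1]
      rw [lintegral_mul_const _ (by fun_prop)]
      rfl
    · apply Measurable.aemeasurable
      exact Measurable.lintegral_prod_right' (f := fun p : (ℝ × ℝ) × ℝ =>
          w (p.1.2 + p.2) * w p.1.1 * w p.2 * w (p.1.2 + p.1.1)) (by fun_prop)
  rw [e1, e2, e3]
  rfl

/-- `E(W) ≤ |W|^3`. -/
theorem El_le {W : Set ℝ} (hW : MeasurableSet W) : El W ≤ volume W ^ 3 := by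
  rw [← El_eq hW]
  calc ∫⁻ x1 in W, ∫⁻ x2 in W, ∫⁻ x3 in W, W.indicator 1 (x1 + x2 - x3)
      ≤ ∫⁻ x1 in W, ∫⁻ x2 in W, ∫⁻ x3 in W, 1 := by
        refine lintegral_mono fun x1 => lintegral_mono fun x2 => lintegral_mono fun x3 => ?_
        simp only [indicator]; split_ifs <;> simp
    _ = volume W ^ 3 := by
        simp only [lintegral_const, Measure.restrict_apply_univ, one_mul]
        ring

/-- Iterated integral of a nonnegative function against the iterated lower integral. -/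
theorem int_le {g : ℝ → ℝ} {G : ℝ → ℝ≥0∞} {W : Set ℝ} (h0 : ∀ x, 0 ≤ g x)
    (h : ∀ x, ENNReal.ofReal (g x) ≤ G x) :
    ENNReal.ofReal (∫ x in W, g x) ≤ ∫⁻ x in W, G x := by
  by_cases hi : Integrable g (volume.restrict W)
  · rw [ofReal_integral_eq_lintegral_ofReal hi (Eventually.of_forall h0)]
    exact lintegral_mono h
  · rw [integral_undef hi]; simp

/-- The energy as an iterated real integral. -/
theorem E_real {W : Set ℝ} (hW : MeasurableSet W) (hfin : volume W ≠ ∞) :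
    ∫ x1 in W, ∫ x2 in W, ∫ x3 in W, W.indicator (1 : ℝ → ℝ) (x1 + x2 - x3) = (El W).toReal := by
  have mw := meas_w hW
  set w : ℝ → ℝ≥0∞ := W.indicator 1 with hw
  have hf : volume W < ∞ := lt_top_iff_ne_top.2 hfin
  have le1 : ∀ x, w x ≤ 1 := by intro x; simp only [hw, indicator]; split_ifs <;> simp
  have a1 : ∀ x, W.indicator (1 : ℝ → ℝ) x = (w x).toReal := by
    intro x; simp only [hw, indicator]; split_ifs <;> simp
  have b1 : ∀ x1 x2, ∫⁻ x3 in W, w (x1 + x2 - x3) ≤ volume W := by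
    intro x1 x2
    calc _ ≤ ∫⁻ x3 in W, 1 := lintegral_mono fun x => le1 _
      _ = volume W := by simp
  have b2 : ∀ x1, ∫⁻ x2 in W, ∫⁻ x3 in W, w (x1 + x2 - x3) ≤ volume W * volume W := by
    intro x1
    calc _ ≤ ∫⁻ x3 in W, volume W := lintegral_mono fun x => b1 _ _
      _ = volume W * volume W := by simp
  have s1 : ∀ x1 x2, ∫ x3 in W, W.indicator (1 : ℝ → ℝ) (x1 + x2 - x3) =
      (∫⁻ x3 in W, w (x1 + x2 - x3)).toReal := by
    intro x1 x2
    simp only [a1]
    rw [integral_toReal]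
    · apply Measurable.aemeasurable; fun_prop
    · exact Eventually.of_forall fun x => (le1 _).trans_lt ENNReal.one_lt_top
  have m2 : ∀ x1, Measurable fun x2 => ∫⁻ x3 in W, w (x1 + x2 - x3) := by
    intro x1
    exact Measurable.lintegral_prod_right' (f := fun p : ℝ × ℝ => w (x1 + p.1 - p.2)) (by fun_prop)
  have s2 : ∀ x1, ∫ x2 in W, ∫ x3 in W, W.indicator (1 : ℝ → ℝ) (x1 + x2 - x3) =
      (∫⁻ x2 in W, ∫⁻ x3 in W, w (x1 + x2 - x3)).toReal := by
    intro x1
    simp only [s1]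
    rw [integral_toReal (m2 x1).aemeasurable]
    exact Eventually.of_forall fun x => (b1 _ _).trans_lt hf
  have m3 : Measurable fun x1 => ∫⁻ x2 in W, ∫⁻ x3 in W, w (x1 + x2 - x3) := by
    refine Measurable.lintegral_prod_right' (f := fun p : ℝ × ℝ =>
      ∫⁻ x3 in W, w (p.1 + p.2 - x3)) ?_
    exact Measurable.lintegral_prod_right' (f := fun p : (ℝ × ℝ) × ℝ => w (p.1.1 + p.1.2 - p.2))
      (by fun_prop)
  simp only [s2]
  rw [integral_toReal m3.aemeasurable]
  · rw [El_eq hW]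
  · exact Eventually.of_forall fun x => (b2 _).trans_lt (ENNReal.mul_lt_top hf hf)

theorem El_ne_top {W : Set ℝ} (hW : MeasurableSet W) (hfin : volume W ≠ ∞) : El W ≠ ∞ :=
  ((El_le hW).trans_lt (ENNReal.pow_lt_top (lt_top_iff_ne_top.2 hfin))).ne

/-- The fourfold integral, real version. -/
theorem four_real {W : Set ℝ} (hW : MeasurableSet W) (hfin : volume W ≠ ∞) {h : ℝ → ℝ}
    (h0 : ∀ x, 0 ≤ h x) (hm : Measurable h) (hi : Integrable h) :
    ∫ x1 in W, ∫ x2 in W, ∫ x3 in W, ∫ x4 in W, h (x1 + x2 - x3 - x4) ≤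
      (∫ u, h u) *
        ∫ x1 in W, ∫ x2 in W, ∫ x3 in W, W.indicator (1 : ℝ → ℝ) (x1 + x2 - x3) := by
  have F := four hW (h := fun x => ENNReal.ofReal (h x)) hm.ennreal_ofReal
  have hI : ∫⁻ u, ENNReal.ofReal (h u) = ENNReal.ofReal (∫ u, h u) :=
    (ofReal_integral_eq_lintegral_ofReal hi (Eventually.of_forall h0)).symm
  have n4 : ∀ x1 x2 x3, 0 ≤ ∫ x4 in W, h (x1 + x2 - x3 - x4) := fun _ _ _ =>
    integral_nonneg fun x => h0 _
  have n3 : ∀ x1 x2, 0 ≤ ∫ x3 in W, ∫ x4 in W, h (x1 + x2 - x3 - x4) := fun _ _ =>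
    integral_nonneg fun x => n4 _ _ _
  have n2 : ∀ x1, 0 ≤ ∫ x2 in W, ∫ x3 in W, ∫ x4 in W, h (x1 + x2 - x3 - x4) := fun _ =>
    integral_nonneg fun x => n3 _ _
  have L : ENNReal.ofReal (∫ x1 in W, ∫ x2 in W, ∫ x3 in W, ∫ x4 in W, h (x1 + x2 - x3 - x4)) ≤
      ∫⁻ x1 in W, ∫⁻ x2 in W, ∫⁻ x3 in W, ∫⁻ x4 in W, ENNReal.ofReal (h (x1 + x2 - x3 - x4)) :=
    int_le n2 fun x1 => int_le (n3 x1) fun x2 => int_le (n4 x1 x2) fun x3 =>
      int_le (fun x4 => h0 _) fun x4 => le_rfl
  rw [E_real hW hfin]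
  have n1 : 0 ≤ ∫ u, h u := integral_nonneg h0
  have hE := El_ne_top hW hfin
  have L2 := L.trans F
  rw [hI] at L2
  have L3 := ENNReal.toReal_mono (ENNReal.mul_ne_top ENNReal.ofReal_ne_top hE) L2
  rw [ENNReal.toReal_mul, ENNReal.toReal_ofReal n1, ENNReal.toReal_ofReal
    (integral_nonneg n2)] at L3
  exact L3

end Pool.Agent.Work.MP_56b8f5_nt.UB.En
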