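import Pool.Agent.Work.MP_56b8f5_nt.UB.Osc
import Pool.Agent.Work.MP_56b8f5_nt.UB.Vdc

/-!
# MP_56b8f5_nt, block UB: the fourth order correlation of the dual kernel (the function `H_m`)

`s = sqrt N`.  The kernel is `A x * e (Phi X m x)` on `J = [m s / 2, 2 m s]` and zero outside.
-/

set_option autoImplicit false

open MeasureTheory Set intervalIntegral

noncomputable section

namespace Pool.Agent.UB.Hm

open Vdc

/-- `exp (2 pi i x)` -/
abbrev e : ℝ → ℂ := Pool.Agent.Work.MP_56b8f5_nt.UB.Osc.e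

lemma ee_eq (x : ℝ) : ee x = e x := by
  unfold ee e Pool.Agent.Work.MP_56b8f5_nt.UB.Osc.e
  congr 1
  push_cast
  ring

/-! ### The phase -/

/-- `sqrt (1 + z^2)`, `z = x / (m X)` -/
def sq (X m x : ℝ) : ℝ := Real.sqrt (1 + (x / (m * X)) ^ 2)

/-- the phase of the dual kernel -/
def Phi (X m x : ℝ) : ℝ :=
  2 * X * x * Real.arsinh (x / (m * X)) - 2 * m * X ^ 2 * (Real.sqrt (1 + (x / (m * X)) ^ 2) - 1)

def ps (X m x : ℝ) : ℝ := 2 * X * Real.arsinh (x / (m * X))

def ps1 (X m x : ℝ) : ℝ := 2 / (m * sq X m x)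

def ps2 (X m x : ℝ) : ℝ := -(2 * (x / (m * X))) / (m ^ 2 * X * sq X m x ^ 3)

def ps3 (X m x : ℝ) : ℝ :=
  -(2 * (1 - 2 * (x / (m * X)) ^ 2)) / (m ^ 3 * X ^ 2 * sq X m x ^ 5)

lemma sq_pos (X m x : ℝ) : 0 < sq X m x := Real.sqrt_pos.2 (by positivity)

lemma sq_sq (X m x : ℝ) : sq X m x ^ 2 = 1 + (x / (m * X)) ^ 2 := Real.sq_sqrt (by positivity)

lemma one_le_sq (X m x : ℝ) : 1 ≤ sq X m x := by
  have h := sq_sq X m x
  have h1 := sq_pos X m x
  have h2 : 0 ≤ (x / (m * X)) ^ 2 := sq_nonneg _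
  nlinarith

section der

variable {X m : ℝ} (hX : 0 < X) (hm : 0 < m)

include hX hm

lemma der_z (x : ℝ) : HasDerivAt (fun y => y / (m * X)) (1 / (m * X)) x :=
  (hasDerivAt_id x).div_const _

lemma der_sq (x : ℝ) : HasDerivAt (sq X m) ((x / (m * X)) / (m * X * sq X m x)) x := by
  have h1 : HasDerivAt (fun y => 1 + (y / (m * X)) ^ 2) (2 * (x / (m * X)) * (1 / (m * X))) x := by
    have := ((der_z hX hm x).fun_pow 2).const_add 1
    refine this.congr_deriv ?_
    norm_num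
  have h2 := h1.sqrt (by positivity)
  refine h2.congr_deriv ?_
  have : Real.sqrt (1 + (x / (m * X)) ^ 2) ≠ 0 := (sq_pos X m x).ne'
  unfold sq
  field_simp

lemma der_ars (x : ℝ) : HasDerivAt (fun y => Real.arsinh (y / (m * X)))
    (1 / (m * X * sq X m x)) x := by
  have h := (der_z hX hm x).arsinh
  refine h.congr_deriv ?_
  have h0 : Real.sqrt (1 + (x / (m * X)) ^ 2) ≠ 0 := (sq_pos X m x).ne'
  unfold sq
  rw [smul_eq_mul]
  field_simp

lemma der_ps (x : ℝ) : HasDerivAt (ps X m) (ps1 X m x) x := by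
  have h := (der_ars hX hm x).const_mul (2 * X)
  refine HasDerivAt.congr_deriv h ?_
  unfold ps1
  have := (sq_pos X m x).ne'
  field_simp

lemma der_Phi (x : ℝ) : HasDerivAt (Phi X m) (ps X m x) x := by
  have h1 : HasDerivAt (fun y => 2 * X * y) (2 * X) x := by
    simpa using (hasDerivAt_id x).const_mul (2 * X)
  have h2 := h1.mul (der_ars hX hm x)
  have h3 := ((der_sq hX hm x).sub_const 1).const_mul (2 * m * X ^ 2)
  have h4 := h2.sub h3
  have h0 := (sq_pos X m x).ne'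
  have e1 : ps X m x = 2 * X * Real.arsinh (x / (m * X)) + 2 * X * x * (1 / (m * X * sq X m x)) -
      2 * m * X ^ 2 * ((x / (m * X)) / (m * X * sq X m x)) := by
    unfold ps
    field_simp
    ring
  rw [e1]
  exact h4

lemma der_ps1 (x : ℝ) : HasDerivAt (ps1 X m) (ps2 X m x) x := by
  have h0 := (sq_pos X m x).ne'
  have h1 : HasDerivAt (fun y => m * sq X m y) (m * ((x / (m * X)) / (m * X * sq X m x))) x :=
    (der_sq hX hm x).const_mul m
  have h2 := (hasDerivAt_const x (2 : ℝ)).div h1 (mul_ne_zero hm.ne' h0)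
  have e1 : ps2 X m x = (0 * (m * sq X m x) - 2 * (m * ((x / (m * X)) / (m * X * sq X m x)))) /
      (m * sq X m x) ^ 2 := by
    unfold ps2
    field_simp
    ring
  rw [e1]
  exact h2

lemma der_ps2 (x : ℝ) : HasDerivAt (ps2 X m) (ps3 X m x) x := by
  have h0 := (sq_pos X m x).ne'
  have h1 : HasDerivAt (fun y => -(2 * (y / (m * X)))) (-(2 * (1 / (m * X)))) x :=
    ((der_z hX hm x).const_mul 2).neg
  have h2 : HasDerivAt (fun y => m ^ 2 * X * sq X m y ^ 3)
      (m ^ 2 * X * (3 * sq X m x ^ 2 * ((x / (m * X)) / (m * X * sq X m x)))) x := by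
    have h3 := ((der_sq hX hm x).fun_pow 3).const_mul (m ^ 2 * X)
    refine h3.congr_deriv ?_
    norm_num
  have h4 := h1.div h2 (by positivity)
  have e2 := sq_sq X m x
  have e1 : ps3 X m x = (-(2 * (1 / (m * X))) * (m ^ 2 * X * sq X m x ^ 3) -
      -(2 * (x / (m * X))) * (m ^ 2 * X * (3 * sq X m x ^ 2 *
        ((x / (m * X)) / (m * X * sq X m x))))) / (m ^ 2 * X * sq X m x ^ 3) ^ 2 := by
    unfold ps3
    have e3 : 1 - 2 * (x / (m * X)) ^ 2 = sq X m x ^ 2 - 3 * (x / (m * X)) ^ 2 := by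
      rw [e2]
      ring
    rw [e3]
    field_simp
    ring
  rw [e1]
  exact h4

end der

/-! ### Differences -/

lemma mvt {g g' : ℝ → ℝ} (h : ∀ x, HasDerivAt g (g' x) x) (u v : ℝ) :
    ∃ ξ ∈ uIcc u v, g v - g u = g' ξ * (v - u) := by
  have hc : Continuous g := continuous_iff_continuousAt.2 fun x => (h x).continuousAt
  rcases lt_trichotomy u v with huv | rfl | huv
  · obtain ⟨c, hc', he⟩ := exists_hasDerivAt_eq_slope g g' huv hc.continuousOn
      (fun z _ => h z)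
    refine ⟨c, ?_, ?_⟩
    · rw [uIcc_of_le huv.le]
      exact ⟨hc'.1.le, hc'.2.le⟩
    · rw [he, div_mul_cancel₀ _ (sub_ne_zero.2 huv.ne')]
  · exact ⟨u, left_mem_uIcc, by simp⟩
  · obtain ⟨c, hc', he⟩ := exists_hasDerivAt_eq_slope g g' huv hc.continuousOn
      (fun z _ => h z)
    refine ⟨c, ?_, ?_⟩
    · rw [uIcc_of_ge huv.le]
      exact ⟨hc'.1.le, hc'.2.le⟩
    · rw [he]
      have : u - v ≠ 0 := sub_ne_zero.2 huv.ne'
      field_simp
      ring

lemma mem_of_uIcc {u v lo hi x : ℝ} (hu : u ∈ Icc lo hi) (hv : v ∈ Icc lo hi)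
    (hx : x ∈ uIcc u v) : x ∈ Icc lo hi := by
  rcases le_total u v with h | h
  · rw [uIcc_of_le h] at hx
    exact ⟨hu.1.trans hx.1, hx.2.trans hv.2⟩
  · rw [uIcc_of_ge h] at hx
    exact ⟨hv.1.trans hx.1, hx.2.trans hu.2⟩

lemma first_diff {g g' : ℝ → ℝ} (h : ∀ x, HasDerivAt g (g' x) x) {u v lo hi : ℝ}
    (hu : u ∈ Icc lo hi) (hv : v ∈ Icc lo hi) :
    ∃ ξ ∈ Icc lo hi, g v - g u = g' ξ * (v - u) := by
  obtain ⟨ξ, hξ, he⟩ := mvt h u v
  exact ⟨ξ, mem_of_uIcc hu hv hξ, he⟩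

lemma second_diff {g g' g'' : ℝ → ℝ} (h1 : ∀ x, HasDerivAt g (g' x) x)
    (h2 : ∀ x, HasDerivAt g' (g'' x) x) {p a c lo hi : ℝ} (k1 : p ∈ Icc lo hi)
    (k2 : p + a ∈ Icc lo hi) (k3 : p + c ∈ Icc lo hi) (k4 : p + a + c ∈ Icc lo hi) :
    ∃ η ∈ Icc lo hi, g (p + a + c) - g (p + a) - g (p + c) + g p = a * c * g'' η := by
  have hG : ∀ x, HasDerivAt (fun u => g (u + c) - g u) (g' (x + c) - g' x) x := fun x =>
    ((h1 (x + c)).comp_add_const x c).sub (h1 x)
  obtain ⟨ξ, hξ, he⟩ := mvt hG p (p + a)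
  have hξ1 : ξ ∈ Icc lo hi := mem_of_uIcc k1 k2 hξ
  have hξ2 : ξ + c ∈ Icc lo hi := by
    have h3 : ξ + c ∈ uIcc (p + c) (p + a + c) := by
      rcases le_total p (p + a) with h | h
      · rw [uIcc_of_le h] at hξ
        rw [uIcc_of_le (by linarith)]
        exact ⟨by linarith [hξ.1], by linarith [hξ.2]⟩
      · rw [uIcc_of_ge h] at hξ
        rw [uIcc_of_ge (by linarith)]
        exact ⟨by linarith [hξ.1], by linarith [hξ.2]⟩
    exact mem_of_uIcc k3 k4 h3
  obtain ⟨η, hη, he'⟩ := mvt h2 ξ (ξ + c)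
  refine ⟨η, mem_of_uIcc hξ1 hξ2 hη, ?_⟩
  have e1 : g (p + a + c) - g (p + a) - g (p + c) + g p =
      (g (p + a + c) - g (p + a)) - (g (p + c) - g p) := by ring
  rw [e1, he, he']
  ring

/-! ### Bounds for the derivatives of the phase -/

section bounds

variable {X m s : ℝ} (hX : 0 < X) (hm : 0 < m) (hs : 0 < s) (hXs : 250 * s ^ 2 ≤ X ^ 2)

include hX hm hs hXs

lemma z_bound {x : ℝ} (hx : |x| ≤ 7 / 2 * (m * s)) : (x / (m * X)) ^ 2 ≤ 49 / 1000 := by
  rw [div_pow, div_le_iff₀ (by positivity)]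
  have h1 : x ^ 2 ≤ (7 / 2 * (m * s)) ^ 2 := by
    rw [← sq_abs]
    exact pow_le_pow_left₀ (abs_nonneg _) hx 2
  have h2 : m ^ 2 * (250 * s ^ 2) ≤ m ^ 2 * X ^ 2 := mul_le_mul_of_nonneg_left hXs (by positivity)
  nlinarith

lemma sq_bound {x : ℝ} (hx : |x| ≤ 7 / 2 * (m * s)) : sq X m x ≤ 103 / 100 := by
  have h1 := z_bound hX hm hs hXs hx
  have h2 := sq_sq X m x
  have h3 := sq_pos X m x
  nlinarith

lemma ps1_bound {x : ℝ} (hx : |x| ≤ 7 / 2 * (m * s)) : 19 / 10 / m ≤ ps1 X m x := by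
  have h1 := sq_bound hX hm hs hXs hx
  have h3 := sq_pos X m x
  unfold ps1
  rw [div_le_div_iff₀ hm (by positivity)]
  nlinarith

lemma ps2_bound {x : ℝ} (hx : |x| ≤ 7 / 2 * (m * s)) :
    |ps2 X m x| ≤ 7 * s / (m ^ 2 * X ^ 2) := by
  have h1 := one_le_sq X m x
  have h2 : 1 ≤ sq X m x ^ 3 := one_le_pow₀ h1
  unfold ps2
  rw [abs_div, abs_neg, abs_mul, abs_div, abs_of_pos (show (0 : ℝ) < 2 by norm_num),
    abs_of_pos (show 0 < m * X by positivity),
    abs_of_pos (show 0 < m ^ 2 * X * sq X m x ^ 3 by positivity)]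
  rw [div_le_div_iff₀ (by positivity) (by positivity)]
  have h3 : 2 * (|x| / (m * X)) * (m ^ 2 * X ^ 2) = 2 * |x| * m * X := by
    field_simp
  rw [h3]
  have h4 : 2 * |x| * m * X ≤ 2 * (7 / 2 * (m * s)) * m * X := by gcongr
  have h5 : 7 * s * (m ^ 2 * X) * 1 ≤ 7 * s * (m ^ 2 * X) * sq X m x ^ 3 :=
    mul_le_mul_of_nonneg_left h2 (by positivity)
  nlinarith

lemma ps3_bound {x : ℝ} (hx : |x| ≤ 7 / 2 * (m * s)) :
    3 / 2 / (m ^ 3 * X ^ 2) ≤ -ps3 X m x ∧ -ps3 X m x ≤ 2 / (m ^ 3 * X ^ 2) := by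
  have h1 := one_le_sq X m x
  have h2 : 1 ≤ sq X m x ^ 5 := one_le_pow₀ h1
  have h3 := z_bound hX hm hs hXs hx
  have h4 := sq_bound hX hm hs hXs hx
  have h5 : sq X m x ^ 5 ≤ (103 / 100 : ℝ) ^ 5 := pow_le_pow_left₀ (sq_pos X m x).le h4 5
  have h5' : sq X m x ^ 5 ≤ 6 / 5 := h5.trans (by norm_num)
  have h6 : 0 ≤ (x / (m * X)) ^ 2 := sq_nonneg _
  have e1 : -ps3 X m x = 2 * (1 - 2 * (x / (m * X)) ^ 2) / (m ^ 3 * X ^ 2 * sq X m x ^ 5) := by
    unfold ps3
    ring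
  rw [e1]
  set w := (x / (m * X)) ^ 2 with hw
  set q := sq X m x ^ 5 with hq
  have hq0 : 0 < q := by positivity
  have hP : 0 < m ^ 3 * X ^ 2 := by positivity
  have e2 : 2 * (1 - 2 * w) / (m ^ 3 * X ^ 2 * q) = (2 * (1 - 2 * w) / q) / (m ^ 3 * X ^ 2) := by
    field_simp
  rw [e2]
  constructor
  · refine div_le_div_of_nonneg_right ?_ hP.le
    rw [le_div_iff₀ hq0]
    nlinarith
  · refine div_le_div_of_nonneg_right ?_ hP.le
    rw [div_le_iff₀ hq0]
    nlinarith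

end bounds

/-! ### The core estimate -/

lemma ps1_pos {X m : ℝ} (hm : 0 < m) (x : ℝ) : 0 < ps1 X m x := by
  have := sq_pos X m x
  unfold ps1
  positivity

section core

variable {X m s : ℝ} (hX : 0 < X) (hm : 0 < m) (hs : 0 < s) (hXs : 250 * s ^ 2 ≤ X ^ 2)
  {Φ : ℝ → ℝ} (hΦ : ∀ x, HasDerivAt Φ (ps X m x) x) {a b x1 x2 x3 x4 : ℝ} (hab : a ≤ b)
  (h1 : ∀ x ∈ Icc a b, x - x1 ∈ Icc (m * s / 2) (2 * m * s))
  (h2 : ∀ x ∈ Icc a b, x - x2 ∈ Icc (m * s / 2) (2 * m * s))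
  (h3 : ∀ x ∈ Icc a b, x - x3 ∈ Icc (m * s / 2) (2 * m * s))
  (h4 : ∀ x ∈ Icc a b, x - x4 ∈ Icc (m * s / 2) (2 * m * s))

include hX hm hs h1 h2 h3 h4 in
lemma diffs {x : ℝ} (hx : x ∈ Icc a b) :
    (∃ η ζ, |η| ≤ 7 / 2 * (m * s) ∧ |ζ| ≤ 7 / 2 * (m * s) ∧
      ps X m (x - x1) + ps X m (x - x2) - ps X m (x - x3) - ps X m (x - x4) =
        -((x3 - x1) * (x3 - x2) * ps2 X m η) - ps1 X m ζ * (x1 + x2 - x3 - x4)) ∧
    (∃ η ζ, |η| ≤ 7 / 2 * (m * s) ∧ |ζ| ≤ 7 / 2 * (m * s) ∧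
      ps1 X m (x - x1) + ps1 X m (x - x2) - ps1 X m (x - x3) - ps1 X m (x - x4) =
        -((x3 - x1) * (x3 - x2) * ps3 X m η) - ps2 X m ζ * (x1 + x2 - x3 - x4)) := by
  have hms : 0 < m * s := mul_pos hm hs
  obtain ⟨k1, k1'⟩ := h1 x hx
  obtain ⟨k2, k2'⟩ := h2 x hx
  obtain ⟨k3, k3'⟩ := h3 x hx
  obtain ⟨k4, k4'⟩ := h4 x hx
  have habs : ∀ y ∈ Icc (-(m * s)) (7 / 2 * (m * s)), |y| ≤ 7 / 2 * (m * s) := fun y hy =>
    abs_le.2 ⟨by linarith [hy.1], hy.2⟩
  have e1 : (x - x3) + (x3 - x1) = x - x1 := by ring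
  have e2 : (x - x3) + (x3 - x2) = x - x2 := by ring
  have m1 : (x - x3) ∈ Icc (-(m * s)) (7 / 2 * (m * s)) := ⟨by linarith, by linarith⟩
  have m2 : (x - x3) + (x3 - x1) ∈ Icc (-(m * s)) (7 / 2 * (m * s)) := by
    rw [e1]
    exact ⟨by linarith, by linarith⟩
  have m3 : (x - x3) + (x3 - x2) ∈ Icc (-(m * s)) (7 / 2 * (m * s)) := by
    rw [e2]
    exact ⟨by linarith, by linarith⟩
  have m4 : (x - x3) + (x3 - x1) + (x3 - x2) ∈ Icc (-(m * s)) (7 / 2 * (m * s)) :=
    ⟨by linarith, by linarith⟩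
  have m5 : x - x4 ∈ Icc (-(m * s)) (7 / 2 * (m * s)) := ⟨by linarith, by linarith⟩
  constructor
  · obtain ⟨η, hη, he⟩ := second_diff (der_ps hX hm) (der_ps1 hX hm) m1 m2 m3 m4
    obtain ⟨ζ, hζ, hf⟩ := first_diff (der_ps hX hm) m4 m5
    refine ⟨η, ζ, habs η hη, habs ζ hζ, ?_⟩
    rw [e1, e2] at he
    rw [e1] at hf
    have e3 : ps1 X m ζ * (x1 + x2 - x3 - x4) = ps1 X m ζ * (x - x4 - (x - x1 + (x3 - x2))) := by
      ring
    rw [e3, ← hf, ← he]
    ring
  · obtain ⟨η, hη, he⟩ := second_diff (der_ps1 hX hm) (der_ps2 hX hm) m1 m2 m3 m4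
    obtain ⟨ζ, hζ, hf⟩ := first_diff (der_ps1 hX hm) m4 m5
    refine ⟨η, ζ, habs η hη, habs ζ hζ, ?_⟩
    rw [e1, e2] at he
    rw [e1] at hf
    have e3 : ps2 X m ζ * (x1 + x2 - x3 - x4) = ps2 X m ζ * (x - x4 - (x - x1 + (x3 - x2))) := by
      ring
    rw [e3, ← hf, ← he]
    ring

include hX hm hs hXs hΦ hab h1 h2 h3 h4 in
theorem core_s {g g1 : ℝ → ℂ} (hg : ∀ x ∈ Icc a b, HasDerivAt g (g1 x) x)
    (hg1 : ContinuousOn g1 (Icc a b)) {G V : ℝ} (hG : ∀ x ∈ Icc a b, ‖g x‖ ≤ G)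
    (hV : ∫ x in a..b, ‖g1 x‖ ≤ V) (hd : x1 + x2 - x3 - x4 ≠ 0) :
    ‖∫ x in a..b, g x * e (Φ (x - x1) + Φ (x - x2) - Φ (x - x3) - Φ (x - x4))‖ ≤
      11 * (G + V) * (m / |x1 + x2 - x3 - x4| + if |x1 + x2 - x3 - x4| ≤ 18 * m * s ^ 3 / X ^ 2
        then m * Real.sqrt s / Real.sqrt |x1 + x2 - x3 - x4| else 0) := by
  have hms : 0 < m * s := mul_pos hm hs
  set d0 : ℝ := x1 + x2 - x3 - x4 with hd0
  set W : ℝ := |d0| with hW
  have hW0 : 0 < W := abs_pos.2 hd
  have hG0 : 0 ≤ G := (norm_nonneg _).trans (hG a ⟨le_refl a, hab⟩)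
  have hV0 : 0 ≤ V := (intervalIntegral.integral_nonneg hab fun x _ => norm_nonneg _).trans hV
  set w : ℝ := (x3 - x1) * (x3 - x2) with hw
  set U : ℝ := |w| / (m ^ 3 * X ^ 2) with hU
  have hU0 : 0 ≤ U := by positivity
  set r : ℝ := s ^ 2 / X ^ 2 with hr
  have hr0 : 0 ≤ r := by positivity
  have hr1 : r ≤ 1 / 250 := by
    rw [hr, div_le_div_iff₀ (by positivity) (by norm_num)]
    linarith
  have hsm : 0 < s * m ^ 2 := by positivity
  have eU1 : |w| * (7 * s / (m ^ 2 * X ^ 2)) = 7 / m * (U * (s * m ^ 2)) := by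
    rw [hU]
    field_simp
  have eU2 : |w| * (2 / (m ^ 3 * X ^ 2)) = 2 * U := by
    rw [hU]
    ring
  have eU3 : |w| * (3 / 2 / (m ^ 3 * X ^ 2)) = 3 / 2 * U := by
    rw [hU]
    ring
  have eW : W * (7 * s / (m ^ 2 * X ^ 2)) = 7 * W * r / (s * m ^ 2) := by
    rw [hr]
    field_simp
  -- derivatives
  have hosc : Osc a b (fun x => Φ (x - x1) + Φ (x - x2) - Φ (x - x3) - Φ (x - x4))
      (fun x => ps X m (x - x1) + ps X m (x - x2) - ps X m (x - x3) - ps X m (x - x4))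
      (fun x => ps1 X m (x - x1) + ps1 X m (x - x2) - ps1 X m (x - x3) - ps1 X m (x - x4))
      g g1 := by
    refine ⟨hab, fun x _ => ?_, fun x _ => ?_, ?_, hg, hg1⟩
    · exact ((((hΦ _).comp_sub_const x x1).add ((hΦ _).comp_sub_const x x2)).sub
        ((hΦ _).comp_sub_const x x3)).sub ((hΦ _).comp_sub_const x x4)
    · exact ((((der_ps hX hm _).comp_sub_const x x1).add
        ((der_ps hX hm _).comp_sub_const x x2)).sub
        ((der_ps hX hm _).comp_sub_const x x3)).sub ((der_ps hX hm _).comp_sub_const x x4)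
    · have hc : Continuous (ps1 X m) :=
        continuous_iff_continuousAt.2 fun x => (der_ps1 hX hm x).continuousAt
      exact Continuous.continuousOn (by fun_prop)
  have hlen : b - a ≤ 3 / 2 * (m * s) := by
    have k1 := (h1 a ⟨le_refl a, hab⟩).1
    have k2 := (h1 b ⟨hab, le_refl b⟩).2
    linarith
  have eint : ∫ x in a..b, g x * e (Φ (x - x1) + Φ (x - x2) - Φ (x - x3) - Φ (x - x4)) =
      ∫ x in a..b, g x * ee (Φ (x - x1) + Φ (x - x2) - Φ (x - x3) - Φ (x - x4)) := by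
    refine intervalIntegral.integral_congr fun x _ => ?_
    simp only [ee_eq]
  rw [eint]
  rcases le_or_gt (8 * (U * (s * m ^ 2))) W with hA | hB
  · -- case A
    have hD1 : ∀ x ∈ Icc a b, W / m ≤
        |ps X m (x - x1) + ps X m (x - x2) - ps X m (x - x3) - ps X m (x - x4)| := by
      intro x hx
      obtain ⟨⟨η, ζ, hη, hζ, he⟩, -⟩ := diffs hX hm hs h1 h2 h3 h4 hx
      rw [he]
      have q1 := ps2_bound hX hm hs hXs hη
      have q2 := ps1_bound hX hm hs hXs hζ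
      have q3 : |w * ps2 X m η| ≤ 7 / 8 * (W / m) := by
        rw [abs_mul]
        calc |w| * |ps2 X m η| ≤ |w| * (7 * s / (m ^ 2 * X ^ 2)) :=
              mul_le_mul_of_nonneg_left q1 (abs_nonneg _)
          _ = 7 / m * (U * (s * m ^ 2)) := eU1
          _ = 7 / 8 * (8 * (U * (s * m ^ 2)) / m) := by ring
          _ ≤ 7 / 8 * (W / m) := by
              refine mul_le_mul_of_nonneg_left ?_ (by norm_num)
              exact div_le_div_of_nonneg_right hA hm.le
      have q4 : 19 / 10 * (W / m) ≤ |ps1 X m ζ * d0| := by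
        rw [abs_mul, abs_of_pos (ps1_pos hm ζ)]
        calc 19 / 10 * (W / m) = 19 / 10 / m * W := by ring
          _ ≤ ps1 X m ζ * W := mul_le_mul_of_nonneg_right q2 hW0.le
      have q5 : |ps1 X m ζ * d0| - |w * ps2 X m η| ≤ |-(w * ps2 X m η) - ps1 X m ζ * d0| := by
        have := abs_sub_abs_le_abs_sub (ps1 X m ζ * d0) (-(w * ps2 X m η))
        rw [abs_neg] at this
        rw [abs_sub_comm]
        exact this
      have q6 : 0 < W / m := by positivity
      linarith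
    have hD2 : ∀ x ∈ Icc a b,
        |ps1 X m (x - x1) + ps1 X m (x - x2) - ps1 X m (x - x3) - ps1 X m (x - x4)| ≤
          W / (3 * (s * m ^ 2)) := by
      intro x hx
      obtain ⟨-, η, ζ, hη, hζ, he⟩ := diffs hX hm hs h1 h2 h3 h4 hx
      rw [he]
      have q1 := ps3_bound hX hm hs hXs hη
      have q2 := ps2_bound hX hm hs hXs hζ
      have q3 : |w * ps3 X m η| ≤ 2 * U := by
        rw [abs_mul, ← eU2]
        refine mul_le_mul_of_nonneg_left ?_ (abs_nonneg _)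
        have : 0 < 3 / 2 / (m ^ 3 * X ^ 2) := by positivity
        rw [abs_le]
        constructor
        · linarith [q1.2]
        · have : 0 < 2 / (m ^ 3 * X ^ 2) := by positivity
          linarith [q1.1]
      have q4 : |ps2 X m ζ * d0| ≤ 7 * W * r / (s * m ^ 2) := by
        rw [abs_mul, mul_comm, ← eW]
        exact mul_le_mul_of_nonneg_left q2 hW0.le
      have q5 : |-(w * ps3 X m η) - ps2 X m ζ * d0| ≤ |w * ps3 X m η| + |ps2 X m ζ * d0| := by
        have := abs_sub (-(w * ps3 X m η)) (ps2 X m ζ * d0)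
        rwa [abs_neg] at this
      refine q5.trans ((add_le_add q3 q4).trans ?_)
      rw [← sub_nonneg]
      have e3 : W / (3 * (s * m ^ 2)) - (2 * U + 7 * W * r / (s * m ^ 2)) =
          (W / 3 - 2 * (U * (s * m ^ 2)) - 7 * W * r) / (s * m ^ 2) := by
        field_simp
        ring
      rw [e3]
      refine div_nonneg ?_ hsm.le
      have q6 : 7 * W * r ≤ 7 * W * (1 / 250) := mul_le_mul_of_nonneg_left hr1 (by positivity)
      linarith
    have hL : ∫ x in a..b,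
        |ps1 X m (x - x1) + ps1 X m (x - x2) - ps1 X m (x - x3) - ps1 X m (x - x4)| ≤
          W / (2 * m) := by
      have hc : Continuous (ps1 X m) :=
        continuous_iff_continuousAt.2 fun x => (der_ps1 hX hm x).continuousAt
      have t1 : ∫ x in a..b,
          |ps1 X m (x - x1) + ps1 X m (x - x2) - ps1 X m (x - x3) - ps1 X m (x - x4)| ≤
          ∫ x in a..b, W / (3 * (s * m ^ 2)) := by
        refine intervalIntegral.integral_mono_on hab ?_ ?_ hD2
        · exact Continuous.intervalIntegrable (by fun_prop) _ _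
        · exact intervalIntegrable_const
      refine t1.trans ?_
      rw [intervalIntegral.integral_const, smul_eq_mul]
      calc (b - a) * (W / (3 * (s * m ^ 2))) ≤ 3 / 2 * (m * s) * (W / (3 * (s * m ^ 2))) :=
            mul_le_mul_of_nonneg_right hlen (by positivity)
        _ = W / (2 * m) := by field_simp
    have hWm : 0 < W / m := by positivity
    refine (hosc.first_var hWm hD1 hG hV hL).trans ?_
    have e4 : 2 * G / (W / m) + V / (W / m) + G * (W / (2 * m)) / (W / m) ^ 2 =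
        (5 / 2 * G + V) * (m / W) := by
      field_simp
      ring
    rw [e4]
    have hpi : 3 < Real.pi := Real.pi_gt_three
    have t2 : (5 / 2 * G + V) * (m / W) / (2 * Real.pi) ≤ (G + V) * (m / W) := by
      rw [div_le_iff₀ (by positivity)]
      have t3 : 0 ≤ m / W := by positivity
      have t4 : (5 / 2 * G + V) ≤ (G + V) * (2 * Real.pi) := by nlinarith
      calc (5 / 2 * G + V) * (m / W) ≤ (G + V) * (2 * Real.pi) * (m / W) :=
            mul_le_mul_of_nonneg_right t4 t3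
        _ = _ := by ring
    refine t2.trans ?_
    have t5 : 0 ≤ (if W ≤ 18 * m * s ^ 3 / X ^ 2 then m * Real.sqrt s / Real.sqrt W else 0) := by
      split_ifs
      · positivity
      · exact le_rfl
    have t6 : 0 ≤ m / W := by positivity
    have t7 : 0 ≤ G + V := by positivity
    nlinarith [mul_nonneg t7 t6, mul_nonneg t7 t5]
  · -- case B
    set l : ℝ := W / (7 * (s * m ^ 2)) with hl
    have hl0 : 0 < l := by positivity
    have hkey : l ≤ 3 / 2 * U - 7 * W * r / (s * m ^ 2) := by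
      rw [← sub_nonneg]
      have e3 : 3 / 2 * U - 7 * W * r / (s * m ^ 2) - l =
          (3 / 2 * (U * (s * m ^ 2)) - 7 * W * r - W / 7) / (s * m ^ 2) := by
        rw [hl]
        field_simp
      rw [e3]
      refine div_nonneg ?_ hsm.le
      have q6 : 7 * W * r ≤ 7 * W * (1 / 250) := mul_le_mul_of_nonneg_left hr1 (by positivity)
      linarith
    have hsgn : (∀ x ∈ Icc a b, l ≤
        ps1 X m (x - x1) + ps1 X m (x - x2) - ps1 X m (x - x3) - ps1 X m (x - x4)) ∨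
        ∀ x ∈ Icc a b,
        ps1 X m (x - x1) + ps1 X m (x - x2) - ps1 X m (x - x3) - ps1 X m (x - x4) ≤ -l := by
      rcases le_total 0 w with hw0 | hw0
      · left
        intro x hx
        obtain ⟨-, η, ζ, hη, hζ, he⟩ := diffs hX hm hs h1 h2 h3 h4 hx
        rw [he]
        have q1 := (ps3_bound hX hm hs hXs hη).1
        have q2 := ps2_bound hX hm hs hXs hζ
        have q3 : 3 / 2 * U ≤ -(w * ps3 X m η) := by
          rw [← eU3, abs_of_nonneg hw0]
          have := mul_le_mul_of_nonneg_left q1 hw0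
          linarith
        have q4 : ps2 X m ζ * d0 ≤ 7 * W * r / (s * m ^ 2) := by
          refine (le_abs_self _).trans ?_
          rw [abs_mul, mul_comm, ← eW]
          exact mul_le_mul_of_nonneg_left q2 hW0.le
        linarith
      · right
        intro x hx
        obtain ⟨-, η, ζ, hη, hζ, he⟩ := diffs hX hm hs h1 h2 h3 h4 hx
        rw [he]
        have q1 := (ps3_bound hX hm hs hXs hη).1
        have q2 := ps2_bound hX hm hs hXs hζ
        have q3 : 3 / 2 * U ≤ w * ps3 X m η := by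
          rw [← eU3, abs_of_nonpos hw0]
          have := mul_le_mul_of_nonneg_left q1 (neg_nonneg.2 hw0)
          linarith
        have q4 : -(ps2 X m ζ * d0) ≤ 7 * W * r / (s * m ^ 2) := by
          refine (neg_le_abs _).trans ?_
          rw [abs_mul, mul_comm, ← eW]
          exact mul_le_mul_of_nonneg_left q2 hW0.le
        linarith
    refine (hosc.second hl0 hsgn hG hV).trans ?_
    have hcond : W ≤ 18 * m * s ^ 3 / X ^ 2 := by
      have ka := h1 a ⟨le_refl a, hab⟩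
      have kb := h2 a ⟨le_refl a, hab⟩
      have kc := h3 a ⟨le_refl a, hab⟩
      have u1 : |x3 - x1| ≤ 3 / 2 * (m * s) :=
        abs_le.2 ⟨by linarith [ka.1, kc.2], by linarith [ka.2, kc.1]⟩
      have u2 : |x3 - x2| ≤ 3 / 2 * (m * s) :=
        abs_le.2 ⟨by linarith [kb.1, kc.2], by linarith [kb.2, kc.1]⟩
      have u3 : |w| ≤ 3 / 2 * (m * s) * (3 / 2 * (m * s)) := by
        rw [hw, abs_mul]
        exact mul_le_mul u1 u2 (abs_nonneg _) (by positivity)
      refine hB.le.trans ?_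
      calc 8 * (U * (s * m ^ 2)) = |w| * (8 * s / (m * X ^ 2)) := by
            rw [hU]
            field_simp
        _ ≤ 3 / 2 * (m * s) * (3 / 2 * (m * s)) * (8 * s / (m * X ^ 2)) :=
            mul_le_mul_of_nonneg_right u3 (by positivity)
        _ = 18 * m * s ^ 3 / X ^ 2 := by
            field_simp
            ring
    rw [if_pos hcond]
    have hsl : 1 / Real.sqrt l ≤ 11 / 4 * (m * Real.sqrt s / Real.sqrt W) := by
      have v1 : Real.sqrt l = Real.sqrt W / (Real.sqrt 7 * (Real.sqrt s * m)) := by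
        rw [hl, Real.sqrt_div hW0.le, Real.sqrt_mul (by norm_num), Real.sqrt_mul hs.le,
          Real.sqrt_sq hm.le]
      have v2 : Real.sqrt 7 ≤ 11 / 4 := by
        rw [Real.sqrt_le_left (by norm_num)]
        norm_num
      have v3 : 0 < Real.sqrt W := Real.sqrt_pos.2 hW0
      have v4 : 0 < Real.sqrt s := Real.sqrt_pos.2 hs
      rw [v1, one_div_div]
      calc Real.sqrt 7 * (Real.sqrt s * m) / Real.sqrt W ≤
            11 / 4 * (Real.sqrt s * m) / Real.sqrt W := by gcongr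
        _ = _ := by ring
    have t7 : 0 ≤ G + V := by positivity
    have t6 : 0 ≤ m / W := by positivity
    calc 4 * (G + V) / Real.sqrt l = 4 * (G + V) * (1 / Real.sqrt l) := by ring
      _ ≤ 4 * (G + V) * (11 / 4 * (m * Real.sqrt s / Real.sqrt W)) :=
          mul_le_mul_of_nonneg_left hsl (by positivity)
      _ = 11 * (G + V) * (m * Real.sqrt s / Real.sqrt W) := by ring
      _ ≤ 11 * (G + V) * (m / W + m * Real.sqrt s / Real.sqrt W) := by
          refine mul_le_mul_of_nonneg_left ?_ (by positivity)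
          linarith

end core

end Pool.Agent.UB.Hm
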