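import Pool.Agent.Work.MP_56b8f5_nt.UB.Stmts

/-!
MP_56b8f5_nt, block UB, item AL (amplitude lemma).
-/

open MeasureTheory Set Filter Topology

noncomputable section

namespace Pool.Agent.Work.MP_56b8f5_nt.UB

namespace AL_aux

lemma norm_ee (x : ℝ) : ‖ee x‖ = 1 := by
  unfold ee
  rw [Complex.norm_exp_ofReal_mul_I]

lemma continuous_ee : Continuous ee := by
  unfold ee
  fun_prop

lemma hasDerivAt_ee {f : ℝ → ℝ} {f' x : ℝ} (h : HasDerivAt f f' x) :
    HasDerivAt (fun t => ee (f t)) (((2 * Real.pi * f' : ℝ) : ℂ) * Complex.I * ee (f x)) x := by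
  have h1 : HasDerivAt (fun t => 2 * Real.pi * f t) (2 * Real.pi * f') x := h.const_mul _
  have h2 := (h1.ofReal_comp.mul_const Complex.I).cexp
  unfold ee
  convert h2 using 1
  ring

/-- derivative of the averaged function -/
lemma avg_deriv {c b w0 Bd : ℝ} (hw0 : w0 ∈ Icc c b) (F F' : ℝ → ℝ)
    (hF : ∀ w ∈ Icc c b, HasDerivAt F (F' w) w) (hF' : ContinuousOn F' (Icc c b))
    (hb : ∀ w ∈ Icc c b, |F' w| ≤ Bd) (j : ℕ) (w : ℝ) (hw : w ∈ Ioo c b) :
    HasDerivAt (fun w => ∫ σ in (0 : ℝ)..1, σ ^ j * F (w0 + σ * (w - w0)))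
      (∫ σ in (0 : ℝ)..1, σ ^ (j + 1) * F' (w0 + σ * (w - w0))) w := by
  have hmem : ∀ w' ∈ Icc c b, ∀ σ ∈ Icc (0 : ℝ) 1, w0 + σ * (w' - w0) ∈ Icc c b := by
    intro w' hw' σ hσ
    obtain ⟨h1, h2⟩ := hw'
    obtain ⟨h3, h4⟩ := hσ
    obtain ⟨h5, h6⟩ := hw0
    constructor <;> nlinarith
  have hFc : ContinuousOn F (Icc c b) := fun w hw => (hF w hw).continuousAt.continuousWithinAt
  have hcomp : ∀ (G : ℝ → ℝ) (k : ℕ), ContinuousOn G (Icc c b) → ∀ w' ∈ Icc c b,
      ContinuousOn (fun σ : ℝ => σ ^ k * G (w0 + σ * (w' - w0))) (Icc (0 : ℝ) 1) := by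
    intro G k hG w' hw'
    refine ContinuousOn.mul (by fun_prop) ?_
    exact hG.comp (by fun_prop) (fun σ hσ => hmem w' hw' σ hσ)
  have hU : Set.uIoc (0 : ℝ) 1 = Ioc 0 1 := Set.uIoc_of_le zero_le_one
  refine (intervalIntegral.hasDerivAt_integral_of_dominated_loc_of_deriv_le
    (F := fun w σ => σ ^ j * F (w0 + σ * (w - w0)))
    (F' := fun w σ => σ ^ (j + 1) * F' (w0 + σ * (w - w0)))
    (s := Ioo c b) (bound := fun _ => Bd) (Ioo_mem_nhds hw.1 hw.2) ?_ ?_ ?_ ?_ ?_ ?_).2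
  · filter_upwards [Ioo_mem_nhds hw.1 hw.2] with w' hw'
    rw [hU]
    exact ((hcomp F j hFc w' (Ioo_subset_Icc_self hw')).mono Ioc_subset_Icc_self).aestronglyMeasurable
      measurableSet_Ioc
  · apply ContinuousOn.intervalIntegrable
    rw [Set.uIcc_of_le zero_le_one]
    exact hcomp F j hFc w (Ioo_subset_Icc_self hw)
  · rw [hU]
    exact ((hcomp F' (j + 1) hF' w (Ioo_subset_Icc_self hw)).mono
      Ioc_subset_Icc_self).aestronglyMeasurable measurableSet_Ioc
  · refine Eventually.of_forall (fun σ hσ w' hw' => ?_)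
    rw [hU] at hσ
    have h1 := hb _ (hmem w' (Ioo_subset_Icc_self hw') σ (Ioc_subset_Icc_self hσ))
    rw [Real.norm_eq_abs, abs_mul]
    have h2 : |σ ^ (j + 1)| ≤ 1 := by
      rw [abs_of_nonneg (pow_nonneg hσ.1.le _)]
      exact pow_le_one₀ hσ.1.le hσ.2
    calc |σ ^ (j + 1)| * |F' (w0 + σ * (w' - w0))| ≤ 1 * Bd :=
          mul_le_mul h2 h1 (abs_nonneg _) zero_le_one
      _ = Bd := one_mul _
  · exact intervalIntegrable_const
  · refine Eventually.of_forall (fun σ hσ w' hw' => ?_)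
    rw [hU] at hσ
    have h1 := hF _ (hmem w' (Ioo_subset_Icc_self hw') σ (Ioc_subset_Icc_self hσ))
    have h2 : HasDerivAt (fun w : ℝ => w0 + σ * (w - w0)) σ w' := by
      have := (((hasDerivAt_id w').sub_const w0).const_mul σ).const_add w0
      simpa using this
    have h3 : HasDerivAt (fun w : ℝ => σ ^ j * F (w0 + σ * (w - w0)))
        (σ ^ j * (F' (w0 + σ * (w' - w0)) * σ)) w' := (HasDerivAt.comp w' h1 h2).const_mul (σ ^ j)
    have h4 : σ ^ (j + 1) * F' (w0 + σ * (w' - w0)) = σ ^ j * (F' (w0 + σ * (w' - w0)) * σ) := by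
      ring
    rw [h4]
    exact h3

/-- continuity of the averaged function -/
lemma avg_cont {c b w0 : ℝ} (hcb : c ≤ b) (hw0 : w0 ∈ Icc c b) (F : ℝ → ℝ)
    (hF : ContinuousOn F (Icc c b)) (j : ℕ) :
    ContinuousOn (fun w => ∫ σ in (0 : ℝ)..1, σ ^ j * F (w0 + σ * (w - w0))) (Icc c b) := by
  have hmem : ∀ w' ∈ Icc c b, ∀ σ ∈ Icc (0 : ℝ) 1, w0 + σ * (w' - w0) ∈ Icc c b := by
    intro w' hw' σ hσ
    obtain ⟨h1, h2⟩ := hw'
    obtain ⟨h3, h4⟩ := hσ
    obtain ⟨h5, h6⟩ := hw0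
    constructor <;> nlinarith
  set G : ℝ → ℝ := Set.IccExtend hcb (Set.domRestrict (Icc c b) F) with hG
  have hGc : Continuous G := (continuousOn_iff_continuous_domRestrict.1 hF).Icc_extend'
  have hGF : ∀ y ∈ Icc c b, G y = F y := by
    intro y hy
    rw [hG, Set.IccExtend_of_mem _ _ hy]
    rfl
  have h1 : Continuous (fun w => ∫ σ in (0 : ℝ)..1, σ ^ j * G (w0 + σ * (w - w0))) := by
    apply intervalIntegral.continuous_parametric_intervalIntegral_of_continuous'
    · fun_prop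
  refine h1.continuousOn.congr (fun w hw => ?_)
  apply intervalIntegral.integral_congr
  intro σ hσ
  rw [Set.uIcc_of_le zero_le_one] at hσ
  simp only
  rw [hGF _ (hmem w hw σ hσ)]

/-- bounds of the averaged function -/
lemma avg_abs {c b w0 Bd : ℝ} (hw0 : w0 ∈ Icc c b) (F : ℝ → ℝ)
    (hb : ∀ w ∈ Icc c b, |F w| ≤ Bd) (j : ℕ) (w : ℝ) (hw : w ∈ Icc c b) :
    |∫ σ in (0 : ℝ)..1, σ ^ j * F (w0 + σ * (w - w0))| ≤ Bd := by
  have hmem : ∀ w' ∈ Icc c b, ∀ σ ∈ Icc (0 : ℝ) 1, w0 + σ * (w' - w0) ∈ Icc c b := by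
    intro w' hw' σ hσ
    obtain ⟨h1, h2⟩ := hw'
    obtain ⟨h3, h4⟩ := hσ
    obtain ⟨h5, h6⟩ := hw0
    constructor <;> nlinarith
  have h := intervalIntegral.norm_integral_le_of_norm_le_const (a := (0 : ℝ)) (b := 1) (C := Bd)
    (f := fun σ => σ ^ j * F (w0 + σ * (w - w0))) ?_
  · simpa using h
  · intro σ hσ
    rw [Set.uIoc_of_le zero_le_one] at hσ
    have h1 := hb _ (hmem w hw σ (Ioc_subset_Icc_self hσ))
    rw [Real.norm_eq_abs, abs_mul]
    have h2 : |σ ^ j| ≤ 1 := by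
      rw [abs_of_nonneg (pow_nonneg hσ.1.le _)]
      exact pow_le_one₀ hσ.1.le hσ.2
    calc |σ ^ j| * |F (w0 + σ * (w - w0))| ≤ 1 * Bd :=
          mul_le_mul h2 h1 (abs_nonneg _) zero_le_one
      _ = Bd := one_mul _

/-- lower bound of the average -/
lemma avg_lower {c b w0 m : ℝ} (hw0 : w0 ∈ Icc c b) (F : ℝ → ℝ)
    (hF : ContinuousOn F (Icc c b))
    (hb : ∀ w ∈ Icc c b, m ≤ F w) (w : ℝ) (hw : w ∈ Icc c b) :
    m ≤ ∫ σ in (0 : ℝ)..1, σ ^ 0 * F (w0 + σ * (w - w0)) := by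
  have hmem : ∀ w' ∈ Icc c b, ∀ σ ∈ Icc (0 : ℝ) 1, w0 + σ * (w' - w0) ∈ Icc c b := by
    intro w' hw' σ hσ
    obtain ⟨h1, h2⟩ := hw'
    obtain ⟨h3, h4⟩ := hσ
    obtain ⟨h5, h6⟩ := hw0
    constructor <;> nlinarith
  have hc : ContinuousOn (fun σ : ℝ => σ ^ 0 * F (w0 + σ * (w - w0))) (Icc (0 : ℝ) 1) := by
    refine ContinuousOn.mul (by fun_prop) ?_
    exact hF.comp (by fun_prop) (fun σ hσ => hmem w hw σ hσ)
  have h := intervalIntegral.integral_mono_on (μ := volume) (a := (0 : ℝ)) (b := 1) zero_le_one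
    (f := fun _ => m) (g := fun σ => σ ^ 0 * F (w0 + σ * (w - w0)))
    intervalIntegrable_const
    (by
      apply ContinuousOn.intervalIntegrable
      rw [Set.uIcc_of_le zero_le_one]
      exact hc)
    (by
      intro σ hσ
      simpa using hb _ (hmem w hw σ hσ))
  simpa using h

/-- the fundamental theorem for the average -/
lemma avg_ftc {c b w0 : ℝ} (hw0 : w0 ∈ Icc c b) (F F' : ℝ → ℝ)
    (hF : ∀ w ∈ Icc c b, HasDerivAt F (F' w) w) (hF' : ContinuousOn F' (Icc c b))
    (w : ℝ) (hw : w ∈ Icc c b) :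
    F w - F w0 = (w - w0) * ∫ σ in (0 : ℝ)..1, σ ^ 0 * F' (w0 + σ * (w - w0)) := by
  have hmem : ∀ w' ∈ Icc c b, ∀ σ ∈ Icc (0 : ℝ) 1, w0 + σ * (w' - w0) ∈ Icc c b := by
    intro w' hw' σ hσ
    obtain ⟨h1, h2⟩ := hw'
    obtain ⟨h3, h4⟩ := hσ
    obtain ⟨h5, h6⟩ := hw0
    constructor <;> nlinarith
  have hc : ContinuousOn (fun σ : ℝ => (w - w0) * F' (w0 + σ * (w - w0))) (Icc (0 : ℝ) 1) := by
    refine ContinuousOn.mul (by fun_prop) ?_
    exact hF'.comp (by fun_prop) (fun σ hσ => hmem w hw σ hσ)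
  have h := intervalIntegral.integral_eq_sub_of_hasDerivAt (a := (0 : ℝ)) (b := 1)
    (f := fun σ => F (w0 + σ * (w - w0))) (f' := fun σ => (w - w0) * F' (w0 + σ * (w - w0)))
    (by
      intro σ hσ
      rw [Set.uIcc_of_le zero_le_one] at hσ
      have h1 := hF _ (hmem w hw σ hσ)
      have h2 : HasDerivAt (fun σ : ℝ => w0 + σ * (w - w0)) (w - w0) σ := by
        have := ((hasDerivAt_id σ).mul_const (w - w0)).const_add w0
        simpa using this
      have h3 : HasDerivAt (fun σ : ℝ => F (w0 + σ * (w - w0)))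
          (F' (w0 + σ * (w - w0)) * (w - w0)) σ := HasDerivAt.comp σ h1 h2
      have h4 : (w - w0) * F' (w0 + σ * (w - w0)) = F' (w0 + σ * (w - w0)) * (w - w0) := by
        ring
      rw [h4]
      exact h3)
    (by
      apply ContinuousOn.intervalIntegrable
      rw [Set.uIcc_of_le zero_le_one]
      exact hc)
  rw [← intervalIntegral.integral_const_mul]
  simp only [pow_zero, one_mul]
  rw [h]
  congr 1
  · congr 1; ring
  · congr 1; ring

/-- derivative of the oscillatory integral in the parameter -/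
lemma I_deriv {c b : ℝ} (hcb : c ≤ b) (κ h : ℝ → ℝ) (hκ : ContinuousOn κ (Icc c b))
    (hh : ContinuousOn h (Icc c b)) (x : ℝ) :
    HasDerivAt (fun t : ℝ => ∫ w in c..b, (κ w : ℂ) * ee (t * w - h w))
      (∫ w in c..b, (κ w : ℂ) * (((2 * Real.pi * w : ℝ) : ℂ) * Complex.I * ee (x * w - h w))) x := by
  have hU : Set.uIoc c b = Ioc c b := Set.uIoc_of_le hcb
  have hκc : ContinuousOn (fun w => (κ w : ℂ)) (Icc c b) :=
    Complex.continuous_ofReal.comp_continuousOn hκ
  have he : ∀ t : ℝ, ContinuousOn (fun w => ee (t * w - h w)) (Icc c b) := by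
    intro t
    exact continuous_ee.comp_continuousOn (ContinuousOn.sub (by fun_prop) hh)
  have hF : ∀ t : ℝ, ContinuousOn (fun w => (κ w : ℂ) * ee (t * w - h w)) (Icc c b) :=
    fun t => hκc.mul (he t)
  have hF' : ∀ t : ℝ, ContinuousOn
      (fun w => (κ w : ℂ) * (((2 * Real.pi * w : ℝ) : ℂ) * Complex.I * ee (t * w - h w)))
      (Icc c b) := by
    intro t
    refine hκc.mul (ContinuousOn.mul ?_ (he t))
    fun_prop
  refine (intervalIntegral.hasDerivAt_integral_of_dominated_loc_of_deriv_le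
    (F := fun t w => (κ w : ℂ) * ee (t * w - h w))
    (F' := fun t w => (κ w : ℂ) * (((2 * Real.pi * w : ℝ) : ℂ) * Complex.I * ee (t * w - h w)))
    (s := univ) (bound := fun w => |κ w| * (2 * Real.pi * |w|)) univ_mem ?_ ?_ ?_ ?_ ?_ ?_).2
  · refine Eventually.of_forall (fun t => ?_)
    rw [hU]
    exact ((hF t).mono Ioc_subset_Icc_self).aestronglyMeasurable measurableSet_Ioc
  · apply ContinuousOn.intervalIntegrable
    rw [Set.uIcc_of_le hcb]
    exact hF x
  · rw [hU]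
    exact ((hF' x).mono Ioc_subset_Icc_self).aestronglyMeasurable measurableSet_Ioc
  · refine Eventually.of_forall (fun w _ t _ => ?_)
    rw [norm_mul, norm_mul, norm_mul, norm_ee, Complex.norm_I, mul_one, mul_one,
      Complex.norm_real, Complex.norm_real, Real.norm_eq_abs, Real.norm_eq_abs, abs_mul (2 * Real.pi),
      abs_of_pos Real.two_pi_pos]
  · apply ContinuousOn.intervalIntegrable
    rw [Set.uIcc_of_le hcb]
    exact hκ.abs.mul (by fun_prop)
  · refine Eventually.of_forall (fun w _ t _ => ?_)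
    have h1 : HasDerivAt (fun t : ℝ => t * w - h w) w t := by
      have := ((hasDerivAt_id t).mul_const w).sub_const (h w)
      simpa using this
    exact (hasDerivAt_ee h1).const_mul _

end AL_aux

open AL_aux in
theorem iAL (hVp : StVp) (hV2 : StV2) : StAL := by
  intro c b B hc hcb hB
  have hcb' : c ≤ b := hcb.le
  have hB0 : 0 < B := by linarith
  have hbc : 0 ≤ b - c := by linarith
  have hsB : 0 ≤ Real.sqrt B := Real.sqrt_nonneg _
  refine ⟨1 + 48 * B ^ 6 * Real.sqrt B * (b - c), ?_, ?_⟩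
  · have : 0 ≤ 48 * B ^ 6 * Real.sqrt B * (b - c) := by positivity
    linarith
  intro κ κ1 κ2 g g1 g2 g3 g4 Z hZ hd hκ2c hg4c hκc hκb hκ1c hκ1b hbd
  have hsZ : 0 < Real.sqrt Z := Real.sqrt_pos.2 hZ
  have hdκ : ∀ w ∈ Icc c b, HasDerivAt κ (κ1 w) w := fun w hw => (hd w hw).1
  have hdκ1 : ∀ w ∈ Icc c b, HasDerivAt κ1 (κ2 w) w := fun w hw => (hd w hw).2.1
  have hdg : ∀ w ∈ Icc c b, HasDerivAt g (g1 w) w := fun w hw => (hd w hw).2.2.1
  have hdg1 : ∀ w ∈ Icc c b, HasDerivAt g1 (g2 w) w := fun w hw => (hd w hw).2.2.2.1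
  have hdg2 : ∀ w ∈ Icc c b, HasDerivAt g2 (g3 w) w := fun w hw => (hd w hw).2.2.2.2.1
  have hdg3 : ∀ w ∈ Icc c b, HasDerivAt g3 (g4 w) w := fun w hw => (hd w hw).2.2.2.2.2
  have cκ : ContinuousOn κ (Icc c b) := fun w hw => (hdκ w hw).continuousAt.continuousWithinAt
  have cκ1 : ContinuousOn κ1 (Icc c b) := fun w hw => (hdκ1 w hw).continuousAt.continuousWithinAt
  have cg : ContinuousOn g (Icc c b) := fun w hw => (hdg w hw).continuousAt.continuousWithinAt
  have cg1 : ContinuousOn g1 (Icc c b) := fun w hw => (hdg1 w hw).continuousAt.continuousWithinAt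
  have cg2 : ContinuousOn g2 (Icc c b) := fun w hw => (hdg2 w hw).continuousAt.continuousWithinAt
  have cg3 : ContinuousOn g3 (Icc c b) := fun w hw => (hdg3 w hw).continuousAt.continuousWithinAt
  have hdp : ∀ x : ℝ, ∀ w ∈ Icc c b, HasDerivAt (fun w => x * w - Z * g w) (x - Z * g1 w) w := by
    intro x w hw
    have h1 : HasDerivAt (fun w => x * w - Z * g w) (x * 1 - Z * g1 w) w :=
      ((hasDerivAt_id w).const_mul x).sub ((hdg w hw).const_mul Z)
    rw [mul_one] at h1
    exact h1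
  have cp : ∀ x : ℝ, ContinuousOn (fun w => x * w - Z * g w) (Icc c b) :=
    fun x w hw => (hdp x w hw).continuousAt.continuousWithinAt
  -- the pure exponential integral
  have hEeq : (8 : ℝ) / Real.sqrt (Z / B) = 8 * Real.sqrt B / Real.sqrt Z := by
    rw [Real.sqrt_div hZ.le]
    rw [div_div_eq_mul_div]
  have hE : ∀ x : ℝ, ∀ y ∈ Icc c b, ‖∫ w in c..y, ee (x * w - Z * g w)‖ ≤
      8 * Real.sqrt B / Real.sqrt Z := by
    intro x y hy
    rw [← hEeq]
    refine hV2 c y (Z / B) (fun w => x * w - Z * g w) (fun w => x - Z * g1 w)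
      (fun w => - (Z * g2 w)) hy.1 (by positivity) ?_ ?_ ?_ (Or.inr ?_)
    · intro w hw
      exact hdp x w ⟨hw.1, hw.2.trans hy.2⟩
    · intro w hw
      have h1 := ((hdg1 w ⟨hw.1, hw.2.trans hy.2⟩).const_mul Z).const_sub x
      exact h1
    · exact (ContinuousOn.neg (continuousOn_const.mul cg2)).mono
        (Icc_subset_Icc_right hy.2)
    · intro w hw
      have h1 := (hbd w ⟨hw.1, hw.2.trans hy.2⟩).2.2.2.1
      have h2 : Z * (1 / B) ≤ Z * g2 w := mul_le_mul_of_nonneg_left h1 hZ.le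
      have h3 : Z * (1 / B) = Z / B := by ring
      linarith
  have hEnn : 0 ≤ 8 * Real.sqrt B / Real.sqrt Z := by positivity
  constructor
  · intro x
    have h1 := hVp c b (8 * Real.sqrt B / Real.sqrt Z) B (fun w => (κ w : ℂ))
      (fun w => x * w - Z * g w) hcb' hB0.le
      (Complex.continuous_ofReal.comp_continuousOn cκ)
      (by
        intro w hw
        have h2 := (hdκ w (Ioo_subset_Icc_self hw)).ofReal_comp
        refine ⟨h2.differentiableAt, ?_⟩
        rw [h2.deriv, Complex.norm_real, Real.norm_eq_abs]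
        exact (hbd w (Ioo_subset_Icc_self hw)).2.1)
      (cp x) (hE x)
    refine h1.trans ?_
    simp only [hκb, Complex.ofReal_zero, norm_zero, zero_add]
    rw [div_mul_eq_mul_div]
    apply div_le_div_of_nonneg_right _ hsZ.le
    have h6 : B ≤ B ^ 6 := by
      calc B = B ^ 1 := (pow_one B).symm
        _ ≤ B ^ 6 := pow_le_pow_right₀ hB (by norm_num)
    have h7 : 8 * Real.sqrt B * (B * (b - c)) ≤ 8 * Real.sqrt B * (B ^ 6 * (b - c)) := by
      gcongr
    have h8 : 0 ≤ Real.sqrt B * (B ^ 6 * (b - c)) := by positivity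
    nlinarith
  · intro x Φ w0 hw0 hx hΦ
    have habs3 : ∀ w ∈ Icc c b, |g3 w| ≤ B := fun w hw => (hbd w hw).2.2.2.2.1
    have habs4 : ∀ w ∈ Icc c b, |g4 w| ≤ B := fun w hw => (hbd w hw).2.2.2.2.2
    set q : ℝ → ℝ := fun w => ∫ σ in (0 : ℝ)..1, σ ^ 0 * g2 (w0 + σ * (w - w0)) with hq
    set q1 : ℝ → ℝ := fun w => ∫ σ in (0 : ℝ)..1, σ ^ (0 + 1) * g3 (w0 + σ * (w - w0)) with hq1
    set q2 : ℝ → ℝ := fun w => ∫ σ in (0 : ℝ)..1, σ ^ (0 + 1 + 1) * g4 (w0 + σ * (w - w0)) with hq2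
    have bq : ∀ w ∈ Icc c b, 1 / B ≤ q w :=
      avg_lower hw0 g2 cg2 (fun w hw => (hbd w hw).2.2.2.1)
    have bq1 : ∀ w ∈ Icc c b, |q1 w| ≤ B := avg_abs hw0 g3 habs3 _
    have bq2 : ∀ w ∈ Icc c b, |q2 w| ≤ B := avg_abs hw0 g4 habs4 _
    have dq : ∀ w ∈ Ioo c b, HasDerivAt q (q1 w) w := avg_deriv hw0 g2 g3 hdg2 cg3 habs3 0
    have dq1 : ∀ w ∈ Ioo c b, HasDerivAt q1 (q2 w) w := avg_deriv hw0 g3 g4 hdg3 hg4c habs4 (0 + 1)
    have cq : ContinuousOn q (Icc c b) := avg_cont hcb' hw0 g2 cg2 0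
    have cq1 : ContinuousOn q1 (Icc c b) := avg_cont hcb' hw0 g3 cg3 (0 + 1)
    have hftc : ∀ w ∈ Icc c b, g1 w - g1 w0 = (w - w0) * q w := avg_ftc hw0 g1 g2 hdg1 cg2
    have qpos : ∀ w ∈ Icc c b, 0 < q w := fun w hw =>
      lt_of_lt_of_le (by positivity) (bq w hw)
    have qne : ∀ w ∈ Icc c b, q w ≠ 0 := fun w hw => (qpos w hw).ne'
    clear_value q q1 q2
    set u : ℝ → ℝ := fun w => κ w / q w with hu
    set u1 : ℝ → ℝ := fun w => κ1 w / q w - κ w * q1 w / q w ^ 2 with hu1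
    set u2 : ℝ → ℝ := fun w => κ2 w / q w - 2 * κ1 w * q1 w / q w ^ 2 - κ w * q2 w / q w ^ 2 +
      2 * κ w * q1 w ^ 2 / q w ^ 3 with hu2
    have cu : ContinuousOn u (Icc c b) := cκ.div cq qne
    have cu1 : ContinuousOn u1 (Icc c b) :=
      (cκ1.div cq qne).sub ((cκ.mul cq1).div (cq.pow 2) (fun w hw => pow_ne_zero 2 (qne w hw)))
    have du : ∀ w ∈ Ioo c b, HasDerivAt u (u1 w) w := by
      intro w hw
      have hw' := Ioo_subset_Icc_self hw
      have h1 := (hdκ w hw').div (dq w hw) (qne w hw')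
      have h2 : u1 w = (κ1 w * q w - κ w * q1 w) / q w ^ 2 := by
        have := qne w hw'
        simp only [hu1]
        field_simp
      rw [h2]
      exact h1
    have du1 : ∀ w ∈ Ioo c b, HasDerivAt u1 (u2 w) w := by
      intro w hw
      have hw' := Ioo_subset_Icc_self hw
      have h1 := (hdκ1 w hw').div (dq w hw) (qne w hw')
      have h2 := ((hdκ w hw').mul (dq1 w hw)).div ((dq w hw).pow 2) (pow_ne_zero 2 (qne w hw'))
      have h3 := h1.sub h2
      refine HasDerivAt.congr_deriv (f' := _) h3 ?_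
      have := qne w hw'
      simp only [hu2, Pi.pow_apply, Pi.mul_apply]
      field_simp
      push_cast
      ring
    have bu2 : ∀ w ∈ Icc c b, |u2 w| ≤ 6 * B ^ 6 := by
      intro w hw
      obtain ⟨b0, b1, b2, -, -, -⟩ := hbd w hw
      have p1 := bq1 w hw
      have p2 := bq2 w hw
      have p0 := qpos w hw
      have pinv : (q w)⁻¹ ≤ B := by
        have := bq w hw
        rw [inv_le_comm₀ p0 hB0]
        simpa using this
      have pinv0 : 0 ≤ (q w)⁻¹ := by positivity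
      have e : u2 w = κ2 w * (q w)⁻¹ - 2 * κ1 w * q1 w * (q w)⁻¹ ^ 2 - κ w * q2 w * (q w)⁻¹ ^ 2 +
          2 * κ w * q1 w ^ 2 * (q w)⁻¹ ^ 3 := by
        simp only [hu2]
        field_simp
      have t1 : |κ2 w * (q w)⁻¹| ≤ B * B := by
        rw [abs_mul, abs_of_nonneg pinv0]
        gcongr
      have t2 : |2 * κ1 w * q1 w * (q w)⁻¹ ^ 2| ≤ 2 * B * B * B ^ 2 := by
        rw [abs_mul, abs_mul, abs_mul, abs_of_pos (zero_lt_two' ℝ),
          abs_of_nonneg (pow_nonneg pinv0 2)]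
        gcongr
      have t3 : |κ w * q2 w * (q w)⁻¹ ^ 2| ≤ B * B * B ^ 2 := by
        rw [abs_mul, abs_mul, abs_of_nonneg (pow_nonneg pinv0 2)]
        gcongr
      have t4 : |2 * κ w * q1 w ^ 2 * (q w)⁻¹ ^ 3| ≤ 2 * B * B ^ 2 * B ^ 3 := by
        rw [abs_mul, abs_mul, abs_mul, abs_of_pos (zero_lt_two' ℝ),
          abs_of_nonneg (pow_nonneg pinv0 3), abs_pow]
        gcongr
      have k1 : B ^ 2 ≤ B ^ 6 := pow_le_pow_right₀ hB (by norm_num)
      have k2 : B ^ 4 ≤ B ^ 6 := pow_le_pow_right₀ hB (by norm_num)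
      have k3 : B * B = B ^ 2 := by ring
      have k4 : 2 * B * B * B ^ 2 = 2 * B ^ 4 := by ring
      have k5 : B * B * B ^ 2 = B ^ 4 := by ring
      have k6 : 2 * B * B ^ 2 * B ^ 3 = 2 * B ^ 6 := by ring
      rw [k3] at t1
      rw [k4] at t2
      rw [k5] at t3
      rw [k6] at t4
      obtain ⟨a1, a2⟩ := abs_le.1 t1
      obtain ⟨a3, a4⟩ := abs_le.1 t2
      obtain ⟨a5, a6⟩ := abs_le.1 t3
      obtain ⟨a7, a8⟩ := abs_le.1 t4
      rw [e, abs_le]
      constructor <;> linarith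
    -- the derivative
    have hI := I_deriv hcb' κ (fun w => Z * g w) cκ (continuousOn_const.mul cg) x
    have hEΦ : HasDerivAt (fun t => ee (-(Φ t)))
        (((2 * Real.pi * (-w0) : ℝ) : ℂ) * Complex.I * ee (-(Φ x))) x := hasDerivAt_ee hΦ.neg
    have hA := hEΦ.mul hI
    refine ⟨_, hA, ?_⟩
    have hR := hVp c b (8 * Real.sqrt B / Real.sqrt Z) (6 * B ^ 6) (fun w => (u1 w : ℂ))
      (fun w => x * w - Z * g w) hcb' (by positivity)
      (Complex.continuous_ofReal.comp_continuousOn cu1)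
      (by
        intro w hw
        have h2 := (du1 w hw).ofReal_comp
        refine ⟨h2.differentiableAt, ?_⟩
        rw [h2.deriv, Complex.norm_real, Real.norm_eq_abs]
        exact bu2 w (Ioo_subset_Icc_self hw))
      (cp x) (hE x)
    have hub : u b = 0 := by simp [hu, hκb]
    have huc : u c = 0 := by simp [hu, hκc]
    have hu1b : u1 b = 0 := by simp [hu1, hκb, hκ1b]
    simp only [hu1b, Complex.ofReal_zero, norm_zero, zero_add] at hR
    -- integration by parts
    have cee : ContinuousOn (fun w => ee (x * w - Z * g w)) (Icc c b) :=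
      continuous_ee.comp_continuousOn (cp x)
    have cu2' : ContinuousOn (fun w => (u w : ℂ)) (Icc c b) :=
      Complex.continuous_ofReal.comp_continuousOn cu
    have cu1' : ContinuousOn (fun w => (u1 w : ℂ)) (Icc c b) :=
      Complex.continuous_ofReal.comp_continuousOn cu1
    have cv' : ContinuousOn (fun w => ((2 * Real.pi * (x - Z * g1 w) : ℝ) : ℂ) * Complex.I *
        ee (x * w - Z * g w)) (Icc c b) := by
      refine ContinuousOn.mul (ContinuousOn.mul ?_ continuousOn_const) cee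
      refine Complex.continuous_ofReal.comp_continuousOn ?_
      exact continuousOn_const.mul (continuousOn_const.sub (continuousOn_const.mul cg1))
    have hparts := intervalIntegral.integral_mul_deriv_eq_deriv_mul_of_hasDeriv_right
      (a := c) (b := b) (u := fun w => (u w : ℂ)) (u' := fun w => (u1 w : ℂ))
      (v := fun w => ee (x * w - Z * g w))
      (v' := fun w => ((2 * Real.pi * (x - Z * g1 w) : ℝ) : ℂ) * Complex.I *
        ee (x * w - Z * g w))
      (by rw [Set.uIcc_of_le hcb']; exact cu2')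
      (by rw [Set.uIcc_of_le hcb']; exact cee)
      (by
        intro w hw
        rw [min_eq_left hcb', max_eq_right hcb'] at hw
        exact (du w hw).ofReal_comp.hasDerivWithinAt)
      (by
        intro w hw
        rw [min_eq_left hcb', max_eq_right hcb'] at hw
        exact (hasDerivAt_ee (hdp x w (Ioo_subset_Icc_self hw))).hasDerivWithinAt)
      (by
        apply ContinuousOn.intervalIntegrable
        rw [Set.uIcc_of_le hcb']
        exact cu1')
      (by
        apply ContinuousOn.intervalIntegrable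
        rw [Set.uIcc_of_le hcb']
        exact cv')
    simp only [hub, huc, Complex.ofReal_zero, zero_mul, sub_zero, zero_sub] at hparts
    -- the two integrands
    have ci1 : IntervalIntegrable (fun w => (κ w : ℂ) *
        (((2 * Real.pi * w : ℝ) : ℂ) * Complex.I * ee (x * w - Z * g w))) volume c b := by
      apply ContinuousOn.intervalIntegrable
      rw [Set.uIcc_of_le hcb']
      refine ContinuousOn.mul (Complex.continuous_ofReal.comp_continuousOn cκ)
        (ContinuousOn.mul ?_ cee)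
      fun_prop
    have ci2 : IntervalIntegrable (fun w => (κ w : ℂ) * ee (x * w - Z * g w)) volume c b := by
      apply ContinuousOn.intervalIntegrable
      rw [Set.uIcc_of_le hcb']
      exact ContinuousOn.mul (Complex.continuous_ofReal.comp_continuousOn cκ) cee
    have hkey : (∫ w in c..b, (κ w : ℂ) *
          (((2 * Real.pi * w : ℝ) : ℂ) * Complex.I * ee (x * w - Z * g w))) +
        ((2 * Real.pi * (-w0) : ℝ) : ℂ) * Complex.I *
          (∫ w in c..b, (κ w : ℂ) * ee (x * w - Z * g w)) =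
        ((1 / Z : ℝ) : ℂ) * ∫ w in c..b, (u1 w : ℂ) * ee (x * w - Z * g w) := by
      have e1 : (∫ w in c..b, (u1 w : ℂ) * ee (x * w - Z * g w)) =
          - ∫ w in c..b, (u w : ℂ) * (((2 * Real.pi * (x - Z * g1 w) : ℝ) : ℂ) * Complex.I *
            ee (x * w - Z * g w)) := by
        rw [hparts, neg_neg]
      rw [e1, ← intervalIntegral.integral_const_mul, ← intervalIntegral.integral_add ci1
        (ci2.const_mul _), ← intervalIntegral.integral_neg, ← intervalIntegral.integral_const_mul]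
      apply intervalIntegral.integral_congr
      intro w hw
      rw [Set.uIcc_of_le hcb'] at hw
      have f1 : x - Z * g1 w = - (Z * ((w - w0) * q w)) := by
        rw [← hftc w hw, ← hx]; ring
      have f2 := qne w hw
      have f3 : (q w : ℂ) ≠ 0 := by exact_mod_cast f2
      have f4 : (Z : ℂ) ≠ 0 := by exact_mod_cast hZ.ne'
      simp only [hu]
      rw [f1]
      push_cast
      field_simp
      ring
    have hval : (((2 * Real.pi * (-w0) : ℝ) : ℂ) * Complex.I * ee (-(Φ x)) *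
          (∫ w in c..b, (κ w : ℂ) * ee (x * w - Z * g w)) +
        ee (-(Φ x)) * ∫ w in c..b, (κ w : ℂ) *
          (((2 * Real.pi * w : ℝ) : ℂ) * Complex.I * ee (x * w - Z * g w))) =
        ee (-(Φ x)) * (((1 / Z : ℝ) : ℂ) * ∫ w in c..b, (u1 w : ℂ) * ee (x * w - Z * g w)) := by
      rw [← hkey]
      ring
    rw [hval, norm_mul, norm_ee, one_mul, norm_mul, Complex.norm_real, Real.norm_eq_abs,
      abs_of_pos (by positivity : (0 : ℝ) < 1 / Z)]
    calc 1 / Z * ‖∫ w in c..b, (u1 w : ℂ) * ee (x * w - Z * g w)‖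
        ≤ 1 / Z * (8 * Real.sqrt B / Real.sqrt Z * (6 * B ^ 6 * (b - c))) := by
          gcongr
      _ = (48 * B ^ 6 * Real.sqrt B * (b - c)) / (Z * Real.sqrt Z) := by
          field_simp
          ring
      _ ≤ (1 + 48 * B ^ 6 * Real.sqrt B * (b - c)) / (Z * Real.sqrt Z) := by
          apply div_le_div_of_nonneg_right _ (by positivity)
          linarith

end Pool.Agent.Work.MP_56b8f5_nt.UB
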