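import Pool.Agent.Work.MP_56b8f5_nt.UB.Stmts
import Pool.Agent.Work.MP_56b8f5_nt.EM.Stmts

/-!
MP_56b8f5_nt, block UB, item Dx: expansion of the short mean square.
-/

set_option autoImplicit false

open MeasureTheory Set Filter Topology

noncomputable section

namespace Pool.Agent.Work.MP_56b8f5_nt.UB

namespace Dx_aux

/-- the coefficient -/
def bc (K : ℝ) (k : ℕ) : ℝ := Real.exp (-((k : ℝ) / K)) / Real.sqrt k

lemma bc_nonneg (K : ℝ) (k : ℕ) : 0 ≤ bc K k := by unfold bc; positivity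

lemma bc_zero (K : ℝ) : bc K 0 = 0 := by simp [bc]

lemma exp_aux1 (K t : ℝ) (k : ℕ) :
    (Real.exp (-((k : ℝ) / K)) : ℂ) * (k : ℂ) ^ (-(1 / 2 + t * Complex.I)) =
      (bc K k : ℂ) * Complex.exp (-(Complex.I * ((t * Real.log k : ℝ) : ℂ))) := by
  rcases Nat.eq_zero_or_pos k with hk | hk
  · subst hk
    have h0 : (-(1 / 2 + (t : ℂ) * Complex.I)) ≠ 0 := by
      intro h
      have := congrArg Complex.re h
      norm_num at this
    rw [show ((0 : ℕ) : ℂ) = 0 from Nat.cast_zero, Complex.zero_cpow h0, bc_zero]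
    simp
  · have hk' : (0 : ℝ) < k := by exact_mod_cast hk
    have hk0 : (k : ℂ) ≠ 0 := by exact_mod_cast hk.ne'
    have hs : Real.sqrt k = Real.exp (Real.log k / 2) := by
      rw [Real.sqrt_eq_rpow, Real.rpow_def_of_pos hk']; ring_nf
    have h1 : (k : ℂ) ^ (-(1 / 2 + t * Complex.I)) =
        ((1 / Real.sqrt k : ℝ) : ℂ) * Complex.exp (-(Complex.I * ((t * Real.log k : ℝ) : ℂ))) := by
      have h2 : (1 / Real.exp (Real.log k / 2) : ℝ) = Real.exp (-(Real.log k / 2)) := by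
        rw [Real.exp_neg, one_div]
      rw [Complex.cpow_def_of_ne_zero hk0, ← Complex.natCast_log, hs, h2,
        Complex.ofReal_exp, ← Complex.exp_add]
      congr 1
      push_cast
      ring
    rw [h1, bc]
    push_cast
    ring

lemma exp_norm (t : ℝ) : ‖Complex.exp (Complex.I * ((t : ℝ) : ℂ))‖ = 1 := by
  rw [mul_comm]; exact Complex.norm_exp_ofReal_mul_I t

/-- `log a - log b` -/
def ll (p : ℕ × ℕ) : ℝ := Real.log p.1 - Real.log p.2

/-- the integrand for the pair `p` -/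
def gp (φ : ℝ → ℝ) (K G t : ℝ) (p : ℕ × ℕ) (u : ℝ) : ℂ :=
  ((φ (u / G) * (bc K p.1 * bc K p.2) : ℝ) : ℂ) *
    Complex.exp (Complex.I * (((t + u) * ll p : ℝ) : ℂ))

/-- the term for the pair `p` (divided by `G`) -/
def fp (Θ : ℝ → ℝ) (K G t : ℝ) (p : ℕ × ℕ) : ℂ :=
  ((bc K p.1 * bc K p.2 * Θ (G * ll p) : ℝ) : ℂ) * Complex.exp (Complex.I * ((t * ll p : ℝ) : ℂ))

lemma gp_norm {φ Θ : ℝ → ℝ} (h : IsPhi φ Θ) (K G t : ℝ) (p : ℕ × ℕ) (u : ℝ) :
    ‖gp φ K G t p u‖ = φ (u / G) * (bc K p.1 * bc K p.2) := by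
  unfold gp
  rw [norm_mul, exp_norm, mul_one, Complex.norm_real, Real.norm_eq_abs, abs_of_nonneg]
  exact mul_nonneg (h.nonneg _) (mul_nonneg (bc_nonneg _ _) (bc_nonneg _ _))

lemma phi_int {φ Θ : ℝ → ℝ} (h : IsPhi φ Θ) : Integrable φ := by
  obtain ⟨C, hC⟩ := h.dec
  have hC0 : 0 ≤ C := by
    have := (h.nonneg 0).trans (hC 0)
    simpa using this
  refine Integrable.mono' (g := fun x => C * (1 + x ^ 2)⁻¹)
    (integrable_inv_one_add_sq.const_mul C) h.cont.aestronglyMeasurable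
    (Eventually.of_forall fun x => ?_)
  rw [Real.norm_eq_abs, abs_of_nonneg (h.nonneg x)]
  refine (hC x).trans ?_
  rw [← div_eq_mul_inv]
  apply div_le_div_of_nonneg_left hC0 (by positivity)
  nlinarith [sq_nonneg x]

lemma gp_int {φ Θ : ℝ → ℝ} (h : IsPhi φ Θ) (K : ℝ) {G : ℝ} (hG : 0 < G) (t : ℝ) (p : ℕ × ℕ) :
    Integrable (gp φ K G t p) := by
  have h1 : Integrable (fun u : ℝ => φ (u / G)) := (phi_int h).comp_div hG.ne'
  refine Integrable.mono' (h1.mul_const (bc K p.1 * bc K p.2)) ?_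
    (Eventually.of_forall fun u => (gp_norm h K G t p u).le)
  apply Continuous.aestronglyMeasurable
  unfold gp
  have := h.cont
  fun_prop

lemma gp_integral {φ Θ : ℝ → ℝ} (h : IsPhi φ Θ) (K : ℝ) {G : ℝ} (hG : 0 < G) (t : ℝ) (p : ℕ × ℕ) :
    ∫ u, gp φ K G t p u = (G : ℂ) * fp Θ K G t p := by
  have e1 : ∀ u, gp φ K G t p u = (((bc K p.1 * bc K p.2 : ℝ) : ℂ) *
      Complex.exp (Complex.I * ((t * ll p : ℝ) : ℂ))) *
      ((φ (u / G) : ℂ) * Complex.exp (Complex.I * (((G * ll p) * (u / G) : ℝ) : ℂ))) := by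
    intro u
    unfold gp
    have e2 : (G * ll p) * (u / G) = u * ll p := by field_simp
    have e3 : Complex.exp (Complex.I * (((t + u) * ll p : ℝ) : ℂ)) =
        Complex.exp (Complex.I * ((t * ll p : ℝ) : ℂ)) *
        Complex.exp (Complex.I * ((u * ll p : ℝ) : ℂ)) := by
      rw [← Complex.exp_add]
      congr 1
      push_cast
      ring
    rw [e2, e3]
    push_cast
    ring
  simp only [e1]
  rw [integral_const_mul, Measure.integral_comp_div (fun z : ℝ =>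
    (φ z : ℂ) * Complex.exp (Complex.I * (((G * ll p) * z : ℝ) : ℂ))) G, h.four, abs_of_pos hG,
    Complex.real_smul]
  unfold fp
  push_cast
  ring

lemma gp_tsum (φ : ℝ → ℝ) (hP : EM.StPc) {K : ℝ} (hK : 1 ≤ K) (G t : ℝ) (u : ℝ) :
    ∑' p : ℕ × ℕ, gp φ K G t p u = ((φ (u / G) * ‖EM.P K (t + u)‖ ^ 2 : ℝ) : ℂ) := by
  obtain ⟨-, -, hs, -, -⟩ := hP K hK
  set a : ℕ → ℂ := fun k => (Real.exp (-((k : ℝ) / K)) : ℂ) *
    (k : ℂ) ^ (-(1 / 2 + ((t + u : ℝ) : ℂ) * Complex.I)) with ha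
  have hsa : Summable fun k => ‖a k‖ := hs ((t + u : ℝ))
  have hPa : EM.P K (t + u) = ∑' k, a k := rfl
  have hsc : Summable fun k => ‖(starRingEnd ℂ) (a k)‖ := by
    simpa only [RCLike.norm_conj] using hsa
  have h1 : ((‖EM.P K (t + u)‖ ^ 2 : ℝ) : ℂ) = ∑' p : ℕ × ℕ, (starRingEnd ℂ) (a p.1) * a p.2 := by
    rw [← tsum_mul_tsum_of_summable_norm hsc hsa, ← Complex.conj_tsum, ← hPa,
      ← Complex.normSq_eq_conj_mul_self, Complex.normSq_eq_norm_sq]
  rw [Complex.ofReal_mul, h1, ← tsum_mul_left]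
  refine tsum_congr fun p => ?_
  have e1 : a p.2 = (bc K p.2 : ℂ) *
      Complex.exp (-(Complex.I * (((t + u) * Real.log p.2 : ℝ) : ℂ))) := exp_aux1 K (t + u) p.2
  have e2 : (starRingEnd ℂ) (a p.1) = (bc K p.1 : ℂ) *
      Complex.exp (Complex.I * (((t + u) * Real.log p.1 : ℝ) : ℂ)) := by
    have e3 : a p.1 = (bc K p.1 : ℂ) *
      Complex.exp (-(Complex.I * (((t + u) * Real.log p.1 : ℝ) : ℂ))) := exp_aux1 K (t + u) p.1
    rw [e3, map_mul, Complex.conj_ofReal, ← Complex.exp_conj]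
    congr 2
    rw [map_neg, map_mul, Complex.conj_I, Complex.conj_ofReal]
    ring
  rw [e1, e2]
  unfold gp ll
  have e4 : Complex.exp (Complex.I *
    (((t + u) * (Real.log p.1 - Real.log p.2) : ℝ) : ℂ)) =
      Complex.exp (Complex.I * (((t + u) * Real.log p.1 : ℝ) : ℂ)) *
      Complex.exp (-(Complex.I * (((t + u) * Real.log p.2 : ℝ) : ℂ))) := by
    rw [← Complex.exp_add]
    congr 1
    push_cast
    ring
  rw [e4]
  push_cast
  ring

/-- the pairs above the diagonal -/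
def i1 (q : ℕ × ℕ) : ℕ × ℕ := (q.2 + 1 + (q.1 + 1), q.2 + 1)

lemma i1_inj : Function.Injective i1 := by
  rintro ⟨k, b⟩ ⟨k', b'⟩ h
  simp only [i1, Prod.mk.injEq] at h ⊢
  omega

/-- the diagonal -/
def i0 (a : ℕ) : ℕ × ℕ := (a + 1, a + 1)

lemma i0_inj : Function.Injective i0 := by
  intro a b h
  simp only [i0, Prod.mk.injEq] at h
  omega

lemma fp_zero (Θ : ℝ → ℝ) (K G t : ℝ) (p : ℕ × ℕ) (h : p.1 = 0 ∨ p.2 = 0) :
    fp Θ K G t p = 0 := by
  unfold fp
  rcases h with h | h <;> rw [h, bc_zero] <;> simp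

lemma ll_swap (p : ℕ × ℕ) : ll p.swap = -ll p := by
  simp only [ll, Prod.fst_swap, Prod.snd_swap]; ring

lemma fp_swap {φ Θ : ℝ → ℝ} (h : IsPhi φ Θ) (K G t : ℝ) (p : ℕ × ℕ) :
    fp Θ K G t p.swap = (starRingEnd ℂ) (fp Θ K G t p) := by
  unfold fp
  rw [ll_swap, map_mul, Complex.conj_ofReal, ← Complex.exp_conj, map_mul, Complex.conj_I,
    Complex.conj_ofReal, mul_neg, h.evenT]
  simp only [Prod.fst_swap, Prod.snd_swap]
  congr 1
  · push_cast; ring
  · congr 1; push_cast; ring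

lemma fp_i0 (Θ : ℝ → ℝ) (K G t : ℝ) (a : ℕ) :
    fp Θ K G t (i0 a) = ((Θ 0 * (Real.exp (-(2 * ((a : ℝ) + 1) / K)) / ((a : ℝ) + 1)) : ℝ) : ℂ) := by
  unfold fp
  have h0 : ll (i0 a) = 0 := by simp [ll, i0]
  rw [h0, mul_zero, mul_zero, Complex.ofReal_zero, mul_zero, Complex.exp_zero, mul_one]
  congr 1
  simp only [i0, bc]
  have ha : (0 : ℝ) < ((a + 1 : ℕ) : ℝ) := by positivity
  have e1 : Real.exp (-(2 * ((a : ℝ) + 1) / K)) =
      Real.exp (-(((a + 1 : ℕ) : ℝ) / K)) * Real.exp (-(((a + 1 : ℕ) : ℝ) / K)) := by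
    rw [← Real.exp_add]
    congr 1
    push_cast
    ring
  have e2 : ((a : ℝ) + 1) = Real.sqrt ((a + 1 : ℕ) : ℝ) * Real.sqrt ((a + 1 : ℕ) : ℝ) := by
    rw [Real.mul_self_sqrt ha.le]; push_cast; ring
  rw [e1, e2]
  have s1 : Real.sqrt ((a + 1 : ℕ) : ℝ) ≠ 0 := (Real.sqrt_pos.2 ha).ne'
  field_simp

lemma fp_i1 (Θ : ℝ → ℝ) (K G t : ℝ) (q : ℕ × ℕ) :
    fp Θ K G t (i1 q) = ff Θ K G (t / (2 * Real.pi)) (q.1 + 1) ((q.2 : ℝ) + 1) := by
  obtain ⟨k, b⟩ := q
  have hb : (0 : ℝ) < (b : ℝ) + 1 := by positivity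
  have hk : (0 : ℝ) < (k : ℝ) + 1 := by positivity
  have hl : ll (i1 (k, b)) = Real.log (1 + ((k + 1 : ℕ) : ℝ) / ((b : ℝ) + 1)) := by
    simp only [ll, i1]
    push_cast
    rw [← Real.log_div (by positivity) (by positivity)]
    congr 1
    field_simp
  unfold fp ff
  rw [hl, if_pos hb]
  have e3 : Complex.exp (Complex.I * ((t * Real.log (1 + ((k + 1 : ℕ) : ℝ) / ((b : ℝ) + 1)) : ℝ) : ℂ)) =
      ee (t / (2 * Real.pi) * Real.log (1 + ((k + 1 : ℕ) : ℝ) / ((b : ℝ) + 1))) := by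
    unfold ee
    congr 1
    rw [mul_comm]
    congr 2
    have := Real.pi_ne_zero
    field_simp
  rw [e3]
  congr 2
  simp only [i1, bc]
  have s1 : Real.sqrt ((b + 1 : ℕ) : ℝ) ≠ 0 := (Real.sqrt_pos.2 (by positivity)).ne'
  have s2 : Real.sqrt ((b + 1 + (k + 1) : ℕ) : ℝ) ≠ 0 := (Real.sqrt_pos.2 (by positivity)).ne'
  have e4 : Real.sqrt (((b : ℝ) + 1) * ((b : ℝ) + 1 + ((k + 1 : ℕ) : ℝ))) =
      Real.sqrt ((b + 1 : ℕ) : ℝ) * Real.sqrt ((b + 1 + (k + 1) : ℕ) : ℝ) := by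
    rw [← Real.sqrt_mul (by positivity)]
    congr 1
    push_cast
    ring
  have e5 : Real.exp (-((2 * ((b : ℝ) + 1) + ((k + 1 : ℕ) : ℝ)) / K)) =
      Real.exp (-(((b + 1 + (k + 1) : ℕ) : ℝ) / K)) * Real.exp (-(((b + 1 : ℕ) : ℝ) / K)) := by
    rw [← Real.exp_add]
    congr 1
    push_cast
    ring
  rw [e4, e5]
  field_simp

end Dx_aux

open Dx_aux in
theorem iDx (hPc : EM.StPc) : StDx := by
  intro φ Θ hφ T G t hT hG
  have hK : (1 : ℝ) ≤ T ^ 2 := one_le_pow₀ hT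
  set K : ℝ := T ^ 2 with hKdef
  have hbs : Summable (bc K) := (hPc K hK).2.2.2.1
  have hprod : Summable fun p : ℕ × ℕ => bc K p.1 * bc K p.2 :=
    hbs.mul_of_nonneg hbs (fun k => bc_nonneg K k) (fun k => bc_nonneg K k)
  have hin : ∀ p : ℕ × ℕ, ∫ u, ‖gp φ K G t p u‖ = (∫ u, φ (u / G)) * (bc K p.1 * bc K p.2) := by
    intro p
    rw [← integral_mul_const]
    exact integral_congr_ae (Filter.Eventually.of_forall fun u => gp_norm hφ K G t p u)
  have hsum : Summable fun p : ℕ × ℕ => ∫ u, ‖gp φ K G t p u‖ := by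
    simp only [hin]
    exact hprod.mul_left _
  have hS := hasSum_integral_of_summable_integral_norm (fun p => gp_int hφ K hG t p) hsum
  have e1 : (fun p => ∫ u, gp φ K G t p u) = fun p : ℕ × ℕ => (G : ℂ) * fp Θ K G t p := by
    funext p; exact gp_integral hφ K hG t p
  have e2 : (∫ u, ∑' p : ℕ × ℕ, gp φ K G t p u) = ((IG φ T G t : ℝ) : ℂ) := by
    unfold IG
    rw [← integral_complex_ofReal]
    exact integral_congr_ae (Filter.Eventually.of_forall fun u => gp_tsum φ hPc hK G t u)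
  have hG0 : (G : ℂ) ≠ 0 := by exact_mod_cast hG.ne'
  have hfn : Summable fun p : ℕ × ℕ => ‖fp Θ K G t p‖ := by
    have h1 : Summable fun p : ℕ × ℕ => ‖(G : ℂ) * fp Θ K G t p‖ := by
      refine Summable.of_nonneg_of_le (fun p => norm_nonneg _) (fun p => ?_) hsum
      rw [← congrFun e1 p]
      exact norm_integral_le_integral_norm _
    have h2 : Summable fun p : ℕ × ℕ => ‖(G : ℂ)‖ * ‖fp Θ K G t p‖ := by
      simpa only [norm_mul] using h1
    exact (summable_mul_left_iff (norm_ne_zero_iff.2 hG0)).1 h2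
  have hf : Summable fun p : ℕ × ℕ => fp Θ K G t p := hfn.of_norm
  rw [e1, e2] at hS
  have hIG : ((IG φ T G t : ℝ) : ℂ) = (G : ℂ) * ∑' p : ℕ × ℕ, fp Θ K G t p := by
    rw [← hS.tsum_eq, tsum_mul_left]
  -- the upper part
  have hU : Summable fun q : ℕ × ℕ => fp Θ K G t (i1 q) := hf.comp_injective i1_inj
  have hUn : Summable fun q : ℕ × ℕ => ‖fp Θ K G t (i1 q)‖ := hfn.comp_injective i1_inj
  refine ⟨?_, ?_⟩
  · simpa only [fp_i1] using hUn
  -- splitting
  set A : ℕ × ℕ → ℂ := fun p => if p.1 = p.2 then fp Θ K G t p else 0 with hA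
  set B : ℕ × ℕ → ℂ := fun p => if p.2 < p.1 then fp Θ K G t p else 0 with hB
  set D : ℕ × ℕ → ℂ := fun p => if p.1 < p.2 then fp Θ K G t p else 0 with hD
  have sA : Summable A := by
    refine Summable.of_norm_bounded hfn fun p => ?_
    simp only [hA]; split_ifs
    · exact le_rfl
    · rw [norm_zero]; exact norm_nonneg _
  have sB : Summable B := by
    refine Summable.of_norm_bounded hfn fun p => ?_
    simp only [hB]; split_ifs
    · exact le_rfl
    · rw [norm_zero]; exact norm_nonneg _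
  have sD : Summable D := by
    refine Summable.of_norm_bounded hfn fun p => ?_
    simp only [hD]; split_ifs
    · exact le_rfl
    · rw [norm_zero]; exact norm_nonneg _
  have hsplit : ∑' p : ℕ × ℕ, fp Θ K G t p = ∑' p, A p + ∑' p, B p + ∑' p, D p := by
    rw [← sA.tsum_add sB, ← (sA.add sB).tsum_add sD]
    refine tsum_congr fun p => ?_
    simp only [hA, hB, hD]
    rcases lt_trichotomy p.1 p.2 with h | h | h
    · rw [if_neg h.ne, if_neg (by omega), if_pos h]; ring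
    · rw [if_pos h, if_neg (by omega), if_neg (by omega)]; ring
    · rw [if_neg h.ne', if_pos h, if_neg (by omega)]; ring
  have tA : ∑' p, A p = ∑' a : ℕ, fp Θ K G t (i0 a) := by
    rw [← i0_inj.tsum_eq (f := A)]
    · refine tsum_congr fun a => ?_
      simp only [hA, i0, if_true]
    · intro p hp
      rw [Function.mem_support] at hp
      simp only [hA] at hp
      by_cases h : p.1 = p.2
      · rw [if_pos h] at hp
        have h1 : p.1 ≠ 0 := fun h0 => hp (fp_zero _ _ _ _ _ (Or.inl h0))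
        refine ⟨p.1 - 1, ?_⟩
        obtain ⟨x, y⟩ := p
        simp only [i0, Prod.mk.injEq] at h h1 ⊢
        omega
      · rw [if_neg h] at hp; exact absurd rfl hp
  have tB : ∑' p, B p = ∑' q : ℕ × ℕ, fp Θ K G t (i1 q) := by
    rw [← i1_inj.tsum_eq (f := B)]
    · refine tsum_congr fun q => ?_
      simp only [hB]
      rw [if_pos]
      simp only [i1]; omega
    · intro p hp
      rw [Function.mem_support] at hp
      simp only [hB] at hp
      by_cases h : p.2 < p.1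
      · rw [if_pos h] at hp
        have h1 : p.2 ≠ 0 := fun h0 => hp (fp_zero _ _ _ _ _ (Or.inr h0))
        refine ⟨(p.1 - p.2 - 1, p.2 - 1), ?_⟩
        obtain ⟨x, y⟩ := p
        simp only [i1, Prod.mk.injEq] at h h1 ⊢
        omega
      · rw [if_neg h] at hp; exact absurd rfl hp
  have tD : ∑' p, D p = (starRingEnd ℂ) (∑' p, B p) := by
    rw [Complex.conj_tsum, ← (Equiv.prodComm ℕ ℕ).tsum_eq D]
    refine tsum_congr fun p => ?_
    simp only [hD, hB, Equiv.prodComm_apply, Prod.fst_swap, Prod.snd_swap]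
    split_ifs
    · exact fp_swap hφ K G t p
    · rw [map_zero]
  have hprodU : ∑' q : ℕ × ℕ, fp Θ K G t (i1 q) =
      ∑' k : ℕ, ∑' b : ℕ, ff Θ K G (t / (2 * Real.pi)) (k + 1) ((b : ℝ) + 1) := by
    rw [hU.tsum_prod]
    refine tsum_congr fun k => tsum_congr fun b => ?_
    exact fp_i1 Θ K G t (k, b)
  have hdiag : ∑' a : ℕ, fp Θ K G t (i0 a) = ((Θ 0 * (∑' a : ℕ,
      Real.exp (-(2 * ((a : ℝ) + 1) / K)) / ((a : ℝ) + 1)) : ℝ) : ℂ) := by
    simp only [fp_i0]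
    rw [← Complex.ofReal_tsum, tsum_mul_left]
  rw [hsplit, tD, tB, tA, hprodU, hdiag] at hIG
  set U : ℂ := ∑' k : ℕ, ∑' b : ℕ, ff Θ K G (t / (2 * Real.pi)) (k + 1) ((b : ℝ) + 1) with hUdef
  have hre := congrArg Complex.re hIG
  rw [Complex.ofReal_re, Complex.re_ofReal_mul] at hre
  simp only [Complex.add_re, Complex.ofReal_re, Complex.conj_re] at hre
  rw [hre]
  ring

end Pool.Agent.Work.MP_56b8f5_nt.UB
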