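import Pool.Agent.Work.MP_56b8f5_nt.UB.Stmts

/-!
Block UB of MP_56b8f5_nt, item Fw: a block of the dual sum on a window is a sum `SS`.
-/

open MeasureTheory Set Filter Topology

noncomputable section

namespace Pool.Agent.Work.MP_56b8f5_nt.UB

namespace Fw_aux

lemma norm_ee (x : ℝ) : ‖ee x‖ = 1 := by
  unfold ee
  exact Complex.norm_exp_ofReal_mul_I _

lemma ee_add (x y : ℝ) : ee (x + y) = ee x * ee y := by
  unfold ee
  rw [← Complex.exp_add]
  congr 1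
  push_cast
  ring

lemma ee_neg_mul (x : ℝ) : ee x * ee (-x) = 1 := by
  rw [← ee_add]
  simp [ee]

lemma norm_ee_sub (x y : ℝ) : ‖ee x - ee y‖ ≤ 2 * Real.pi * |x - y| := by
  have h : ee x - ee y = ee y * (ee (x - y) - 1) := by
    rw [mul_sub, ← ee_add, mul_one]
    congr 2
    ring
  rw [h, norm_mul, norm_ee, one_mul]
  have h2 : ee (x - y) = Complex.exp (Complex.I * ((2 * Real.pi * (x - y) : ℝ) : ℂ)) := by
    unfold ee
    rw [mul_comm]
  rw [h2]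
  refine Real.norm_exp_I_mul_ofReal_sub_one_le.trans ?_
  rw [Real.norm_eq_abs, abs_mul, abs_of_pos (by positivity)]

lemma term_bound (C1 q x X E : ℝ) (J0 J1 : ℂ) (F0 F1 v : ℝ) (hC1 : 0 ≤ C1) (hq : 0 < q)
    (hJ : ‖J0‖ ≤ C1 / q)
    (hA : ‖ee (-F1) * J1 - ee (-F0) * J0‖ ≤ C1 / q * (2 * (x / X)))
    (hL : |F1 - F0 - x * v| ≤ E) :
    ‖J1 - J0 * ee (x * v)‖ ≤ C1 / q * (2 * (x / X) + 2 * Real.pi * E) := by
  have e : J1 - J0 * ee (x * v) = ee F1 * (ee (-F1) * J1 - ee (-F0) * J0) +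
      (ee (-F0) * J0) * (ee F1 - ee (F0 + x * v)) := by
    have h1 : ee F1 * (ee (-F1) * J1) = J1 := by
      rw [← mul_assoc, ee_neg_mul, one_mul]
    have h2 : ee (-F0) * J0 * ee (F0 + x * v) = J0 * ee (x * v) := by
      rw [ee_add]
      calc ee (-F0) * J0 * (ee F0 * ee (x * v)) = (ee F0 * ee (-F0)) * (J0 * ee (x * v)) := by ring
        _ = J0 * ee (x * v) := by rw [ee_neg_mul, one_mul]
    rw [mul_sub, mul_sub, h1, h2]
    ring
  rw [e]
  have hpos : 0 ≤ C1 / q := by positivity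
  calc ‖ee F1 * (ee (-F1) * J1 - ee (-F0) * J0) + (ee (-F0) * J0) * (ee F1 - ee (F0 + x * v))‖
      ≤ ‖ee F1 * (ee (-F1) * J1 - ee (-F0) * J0)‖ + ‖(ee (-F0) * J0) * (ee F1 - ee (F0 + x * v))‖ :=
        norm_add_le _ _
    _ = ‖ee (-F1) * J1 - ee (-F0) * J0‖ + ‖J0‖ * ‖ee F1 - ee (F0 + x * v)‖ := by
        rw [norm_mul, norm_mul, norm_mul, norm_ee, norm_ee, one_mul, one_mul]
    _ ≤ C1 / q * (2 * (x / X)) + C1 / q * (2 * Real.pi * E) := by
        have h3 : ‖ee F1 - ee (F0 + x * v)‖ ≤ 2 * Real.pi * E := by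
          refine (norm_ee_sub _ _).trans ?_
          refine mul_le_mul_of_nonneg_left ?_ (by positivity)
          rw [show F1 - (F0 + x * v) = F1 - F0 - x * v by ring]
          exact hL
        exact add_le_add hA (mul_le_mul hJ h3 (norm_nonneg _) hpos)
    _ = C1 / q * (2 * (x / X) + 2 * Real.pi * E) := by ring

end Fw_aux

open Fw_aux in
theorem iFw (hAM : StAM) (hLn : StLn) : StFw := by
  intro φ Θ hφ C' hC'
  obtain ⟨C1, hC1, hAM1⟩ := hAM φ Θ hφ C' hC'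
  refine ⟨40 * C1, by linarith, ?_⟩
  intro T G N X a hCT hCG hGT hN h2N ha hX hX2
  have hC10 : 0 < C1 := by linarith
  have hT1 : C1 ≤ T := by linarith
  have hG1 : C1 ≤ G := by linarith
  have hT0 : 0 < T := by linarith
  have hN0 : 0 < N := by linarith
  set q : ℝ := Real.sqrt (Real.sqrt (N * T)) with hqdef
  have hq : 0 < q := by
    rw [hqdef]
    positivity
  have hmem : ∀ n ∈ Finset.Ioc ⌊N⌋₊ ⌊2 * N⌋₊, N < (n : ℝ) ∧ (n : ℝ) ≤ 2 * N ∧ 1 ≤ n := by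
    intro n hn
    rw [Finset.mem_Ioc] at hn
    have h1 : N < (n : ℝ) := (Nat.floor_lt hN0.le).1 hn.1
    have h2 : (n : ℝ) ≤ 2 * N := (Nat.le_floor_iff (by linarith)).1 hn.2
    refine ⟨h1, h2, ?_⟩
    have h3 : (1 : ℝ) < n := by linarith
    have h4 : 1 < n := by exact_mod_cast h3
    omega
  have hJb : ∀ n ∈ Finset.Ioc ⌊N⌋₊ ⌊2 * N⌋₊, ∀ s ∈ sI T, ‖JJ Θ T G n s‖ ≤ C1 / q ∧
      ∃ A' : ℂ, HasDerivAt (fun t => ee (-(FF n t)) * JJ Θ T G n t) A' s ∧ ‖A'‖ ≤ C1 / q / T := by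
    intro n hn s hs
    obtain ⟨h1, h2, h3⟩ := hmem n hn
    obtain ⟨b1, _, A', b2, b3⟩ := hAM1 T G s n hT1 hG1 hGT hs h3 (by linarith)
    have hqn : q ≤ Real.sqrt (Real.sqrt (n * T)) := by
      rw [hqdef]
      exact Real.sqrt_le_sqrt (Real.sqrt_le_sqrt (mul_le_mul_of_nonneg_right h1.le hT0.le))
    have h5 : C1 / Real.sqrt (Real.sqrt (n * T)) ≤ C1 / q :=
      div_le_div_of_nonneg_left hC10.le hq hqn
    refine ⟨b1.trans h5, A', b2, b3.trans ?_⟩
    rw [div_div]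
    refine div_le_div_of_nonneg_left hC10.le (by positivity) ?_
    rw [mul_comm]
    exact mul_le_mul_of_nonneg_left hqn hT0.le
  refine ⟨fun n => if n ∈ Finset.Ioc ⌊N⌋₊ ⌊2 * N⌋₊ then
    a n * JJ Θ T G n (X ^ 2) * ((q / (40 * C1) : ℝ) : ℂ) else 0, ?_, ?_⟩
  · intro n
    dsimp only
    by_cases hn : n ∈ Finset.Ioc ⌊N⌋₊ ⌊2 * N⌋₊
    · rw [if_pos hn, norm_mul, norm_mul, Complex.norm_real, Real.norm_eq_abs,
        abs_of_pos (by positivity)]
      have hb := (hJb n hn _ hX2).1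
      calc ‖a n‖ * ‖JJ Θ T G n (X ^ 2)‖ * (q / (40 * C1)) ≤ 1 * (C1 / q) * (q / (40 * C1)) := by
            gcongr
            exact ha n
        _ = 1 / 40 := by field_simp
        _ ≤ 1 := by norm_num
    · rw [if_neg hn]
      simp
  · intro x hx hξ
    have hpi := Real.pi_gt_three
    have hXb : X ^ 2 ≤ 2 * T / Real.pi := hX2.2
    have hξb : (X + x) ^ 2 ≤ 2 * T / Real.pi := hξ.2
    have hsq : (X + x) ^ 2 - X ^ 2 = x * (2 * X + x) := by ring
    have hpT : 2 * T / Real.pi ≤ T * (2 / 3) := by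
      rw [div_le_iff₀ (by linarith)]
      nlinarith
    have hdiff : (X + x) ^ 2 - X ^ 2 ≤ 2 * (x / X) * T := by
      have h1 : X * (2 * X + x) ≤ 2 * T := by
        nlinarith [sq_nonneg x, mul_nonneg hX.le hx]
      rw [hsq]
      have h2 : x * (2 * X + x) = x / X * (X * (2 * X + x)) := by
        field_simp
      rw [h2]
      have h3 : 0 ≤ x / X := by positivity
      nlinarith [mul_le_mul_of_nonneg_left h1 h3]
    have hterm : ∀ n ∈ Finset.Ioc ⌊N⌋₊ ⌊2 * N⌋₊,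
        ‖JJ Θ T G n ((X + x) ^ 2) - JJ Θ T G n (X ^ 2) * ee (x * vv X n)‖ ≤
        C1 / q * (2 * (x / X) + 2 * Real.pi * (3 * (x ^ 2 * (N * Real.sqrt N) / X ^ 3))) := by
      intro n hn
      obtain ⟨h1, h2, h3⟩ := hmem n hn
      have hn0 : (0 : ℝ) < n := by linarith
      refine term_bound C1 q x X _ _ _ (FF n (X ^ 2)) (FF n ((X + x) ^ 2)) _ hC10.le hq
        (hJb n hn _ hX2).1 ?_ ?_
      · choose! D hD1 hD2 using fun s hs => (hJb n hn s hs).2
        have hmv := Convex.norm_image_sub_le_of_norm_hasDerivWithin_le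
          (f := fun t => ee (-(FF n t)) * JJ Θ T G n t) (f' := D) (s := sI T) (C := C1 / q / T)
          (fun s hs => (hD1 s hs).hasDerivWithinAt) (fun s hs => hD2 s hs) (convex_Icc _ _) hX2 hξ
        refine hmv.trans ?_
        rw [Real.norm_eq_abs, abs_of_nonneg (by rw [hsq]; positivity)]
        calc C1 / q / T * ((X + x) ^ 2 - X ^ 2) ≤ C1 / q / T * (2 * (x / X) * T) := by
              gcongr
          _ = C1 / q * (2 * (x / X)) := by field_simp
      · refine (hLn X x n hX hx hn0).trans ?_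
        have h4 : (n : ℝ) * Real.sqrt n ≤ 3 * (N * Real.sqrt N) := by
          have h5 : Real.sqrt n ≤ 3 / 2 * Real.sqrt N := by
            rw [show (3 / 2 : ℝ) * Real.sqrt N = Real.sqrt ((9 / 4) * N) by
              rw [Real.sqrt_mul (by norm_num), show (9 / 4 : ℝ) = (3 / 2) ^ 2 by norm_num,
                Real.sqrt_sq (by norm_num)]]
            exact Real.sqrt_le_sqrt (by linarith)
          calc (n : ℝ) * Real.sqrt n ≤ (2 * N) * (3 / 2 * Real.sqrt N) := by gcongr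
            _ = 3 * (N * Real.sqrt N) := by ring
        calc x ^ 2 * ((n : ℝ) * Real.sqrt n) / X ^ 3 ≤ x ^ 2 * (3 * (N * Real.sqrt N)) / X ^ 3 := by
              gcongr
          _ = 3 * (x ^ 2 * (N * Real.sqrt N) / X ^ 3) := by ring
    have hsum : SJ Θ T G a N ((X + x) ^ 2) - ((40 * C1 / q : ℝ) : ℂ) *
        SS X N (fun n => if n ∈ Finset.Ioc ⌊N⌋₊ ⌊2 * N⌋₊ then
          a n * JJ Θ T G n (X ^ 2) * ((q / (40 * C1) : ℝ) : ℂ) else 0) x =
        ∑ n ∈ Finset.Ioc ⌊N⌋₊ ⌊2 * N⌋₊,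
          a n * (JJ Θ T G n ((X + x) ^ 2) - JJ Θ T G n (X ^ 2) * ee (x * vv X n)) := by
      unfold SJ SS
      rw [Finset.mul_sum, ← Finset.sum_sub_distrib]
      refine Finset.sum_congr rfl fun n hn => ?_
      dsimp only
      rw [if_pos hn]
      have hc : ((40 * C1 / q : ℝ) : ℂ) * ((q / (40 * C1) : ℝ) : ℂ) = 1 := by
        rw [← Complex.ofReal_mul]
        have : 40 * C1 / q * (q / (40 * C1)) = 1 := by field_simp
        rw [this]
        simp
      calc a n * JJ Θ T G n ((X + x) ^ 2) - ((40 * C1 / q : ℝ) : ℂ) *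
            (a n * JJ Θ T G n (X ^ 2) * ((q / (40 * C1) : ℝ) : ℂ) * ee (x * vv X n))
          = a n * JJ Θ T G n ((X + x) ^ 2) - (((40 * C1 / q : ℝ) : ℂ) * ((q / (40 * C1) : ℝ) : ℂ)) *
            (a n * JJ Θ T G n (X ^ 2) * ee (x * vv X n)) := by ring
        _ = _ := by
            rw [hc]
            ring
    rw [hsum]
    have hcard : ((Finset.Ioc ⌊N⌋₊ ⌊2 * N⌋₊).card : ℝ) ≤ 2 * N := by
      rw [Nat.card_Ioc]
      have h1 : ((⌊2 * N⌋₊ - ⌊N⌋₊ : ℕ) : ℝ) ≤ (⌊2 * N⌋₊ : ℝ) := by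
        exact_mod_cast Nat.sub_le _ _
      exact h1.trans (Nat.floor_le (by linarith))
    have hB : 0 ≤ C1 / q * (2 * (x / X) + 2 * Real.pi * (3 * (x ^ 2 * (N * Real.sqrt N) / X ^ 3))) := by
      positivity
    calc ‖∑ n ∈ Finset.Ioc ⌊N⌋₊ ⌊2 * N⌋₊,
          a n * (JJ Θ T G n ((X + x) ^ 2) - JJ Θ T G n (X ^ 2) * ee (x * vv X n))‖
        ≤ ∑ n ∈ Finset.Ioc ⌊N⌋₊ ⌊2 * N⌋₊,
          ‖a n * (JJ Θ T G n ((X + x) ^ 2) - JJ Θ T G n (X ^ 2) * ee (x * vv X n))‖ :=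
          norm_sum_le _ _
      _ ≤ ∑ n ∈ Finset.Ioc ⌊N⌋₊ ⌊2 * N⌋₊,
          C1 / q * (2 * (x / X) + 2 * Real.pi * (3 * (x ^ 2 * (N * Real.sqrt N) / X ^ 3))) := by
          refine Finset.sum_le_sum fun n hn => ?_
          rw [norm_mul]
          calc ‖a n‖ * ‖JJ Θ T G n ((X + x) ^ 2) - JJ Θ T G n (X ^ 2) * ee (x * vv X n)‖
              ≤ 1 * (C1 / q * (2 * (x / X) + 2 * Real.pi * (3 * (x ^ 2 * (N * Real.sqrt N) / X ^ 3)))) :=
                mul_le_mul (ha n) (hterm n hn) (norm_nonneg _) zero_le_one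
            _ = _ := one_mul _
      _ = (Finset.Ioc ⌊N⌋₊ ⌊2 * N⌋₊).card *
          (C1 / q * (2 * (x / X) + 2 * Real.pi * (3 * (x ^ 2 * (N * Real.sqrt N) / X ^ 3)))) := by
          rw [Finset.sum_const, nsmul_eq_mul]
      _ ≤ (2 * N) * (C1 / q * (2 * (x / X) + 2 * Real.pi * (3 * (x ^ 2 * (N * Real.sqrt N) / X ^ 3)))) :=
          mul_le_mul_of_nonneg_right hcard hB
      _ = 4 * C1 * (N / q) * (x / X) + 12 * Real.pi * C1 * (N / q) * (x ^ 2 * (N * Real.sqrt N) / X ^ 3) := by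
          ring
      _ ≤ 40 * C1 * (N / q) * (x / X) + 40 * C1 * (N / q) * (x ^ 2 * (N * Real.sqrt N) / X ^ 3) := by
          have hpi2 : 12 * Real.pi ≤ 40 := by
            have := Real.pi_lt_d2
            linarith
          have h1 : 0 ≤ C1 * (N / q) * (x / X) := by positivity
          have h2 : 0 ≤ C1 * (N / q) * (x ^ 2 * (N * Real.sqrt N) / X ^ 3) := by positivity
          nlinarith [mul_le_mul_of_nonneg_right hpi2 h2]
      _ = 40 * C1 * (N / q) * (x ^ 2 * (N * Real.sqrt N) / X ^ 3 + x / X) := by ring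

end Pool.Agent.Work.MP_56b8f5_nt.UB
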