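import Pool.Agent.Work.MP_56b8f5_nt.UB.Stmts

/-!
Block UB of MP_56b8f5_nt, item Ka: elementary facts on the frequencies and the chirps.
-/

open MeasureTheory Set Filter Topology

noncomputable section

namespace Pool.Agent.Work.MP_56b8f5_nt.UB

namespace Ka_aux

lemma nn_eq (X v : ℝ) : nn X v = 4 * X ^ 2 * Real.sinh (v / (4 * X)) ^ 2 := by
  have h : v / (2 * X) = 2 * (v / (4 * X)) := by
    by_cases hX : X = 0
    · simp [hX]
    · field_simp
      ring
  unfold nn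
  rw [h, Real.cosh_two_mul, Real.cosh_sq]
  ring

lemma sqrt_nn (X v : ℝ) (hX : 0 < X) (hv : 0 ≤ v) :
    Real.sqrt (nn X v) = 2 * X * Real.sinh (v / (4 * X)) := by
  have h0 : 0 ≤ Real.sinh (v / (4 * X)) := Real.sinh_nonneg_iff.2 (by positivity)
  rw [nn_eq, show 4 * X ^ 2 * Real.sinh (v / (4 * X)) ^ 2 = (2 * X * Real.sinh (v / (4 * X))) ^ 2 by ring]
  exact Real.sqrt_sq (by positivity)

lemma nn_vv (X y : ℝ) (hX : 0 < X) (hy : 0 ≤ y) : nn X (vv X y) = y := by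
  rw [nn_eq]
  have h : vv X y / (4 * X) = Real.arsinh (Real.sqrt y / (2 * X)) := by
    unfold vv
    field_simp
  rw [h, Real.sinh_arsinh, div_pow, Real.sq_sqrt hy]
  field_simp
  ring

lemma vv_nn (X v : ℝ) (hX : 0 < X) (hv : 0 ≤ v) : vv X (nn X v) = v := by
  unfold vv
  rw [sqrt_nn X v hX hv]
  have h : 2 * X * Real.sinh (v / (4 * X)) / (2 * X) = Real.sinh (v / (4 * X)) := by
    field_simp
  rw [h, Real.arsinh_sinh]
  field_simp

lemma d_nn (X v : ℝ) (hX : 0 < X) : HasDerivAt (nn X) (nd X v) v := by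
  have h1 : HasDerivAt (fun v : ℝ => v / (2 * X)) (1 / (2 * X)) v := (hasDerivAt_id v).div_const _
  have h2 := ((h1.cosh).sub_const 1).const_mul (2 * X ^ 2)
  have h3 : 2 * X ^ 2 * (Real.sinh (v / (2 * X)) * (1 / (2 * X))) = nd X v := by
    unfold nd
    field_simp
  rw [h3] at h2
  exact h2

lemma d_nd (X v : ℝ) (hX : 0 < X) : HasDerivAt (nd X) (Real.cosh (v / (2 * X)) / 2) v := by
  have h1 : HasDerivAt (fun v : ℝ => v / (2 * X)) (1 / (2 * X)) v := (hasDerivAt_id v).div_const _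
  have h2 := (h1.sinh).const_mul X
  have h3 : X * (Real.cosh (v / (2 * X)) * (1 / (2 * X))) = Real.cosh (v / (2 * X)) / 2 := by
    field_simp
  rw [h3] at h2
  exact h2

lemma d_vv (X y : ℝ) (hX : 0 < X) (hy : 0 < y) :
    HasDerivAt (vv X) (1 / (Real.sqrt y * Real.sqrt (1 + y / (4 * X ^ 2)))) y := by
  have h1 : HasDerivAt (fun y : ℝ => Real.sqrt y / (2 * X)) (1 / (2 * Real.sqrt y) / (2 * X)) y :=
    (Real.hasDerivAt_sqrt hy.ne').div_const _
  have h2 := (h1.arsinh).const_mul (4 * X)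
  have h4 : (Real.sqrt y / (2 * X)) ^ 2 = y / (4 * X ^ 2) := by
    rw [div_pow, Real.sq_sqrt hy.le]
    ring
  have hs : 0 < Real.sqrt y := Real.sqrt_pos.2 hy
  have hs2 : 0 < Real.sqrt (1 + y / (4 * X ^ 2)) := Real.sqrt_pos.2 (by positivity)
  refine HasDerivAt.congr_deriv h2 ?_
  rw [smul_eq_mul, h4]
  field_simp
  norm_num

lemma nd_eq (X v : ℝ) (hX : 0 < X) (hv : 0 ≤ v) :
    nd X v = Real.sqrt (nn X v) * Real.sqrt (1 + nn X v / (4 * X ^ 2)) := by
  have hc : 0 < Real.cosh (v / (4 * X)) := Real.cosh_pos _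
  have h1 : 1 + nn X v / (4 * X ^ 2) = Real.cosh (v / (4 * X)) ^ 2 := by
    rw [nn_eq, Real.cosh_sq]
    field_simp
    ring
  rw [h1, sqrt_nn X v hX hv, Real.sqrt_sq hc.le]
  have h : v / (2 * X) = 2 * (v / (4 * X)) := by
    field_simp
    ring
  unfold nd
  rw [h, Real.sinh_two_mul]
  ring

lemma nd_ws (X m x : ℝ) (hX : 0 < X) (hm : 0 < m) : nd X (ws X m x) = x / m := by
  have h : ws X m x / (2 * X) = Real.arsinh (x / (m * X)) := by
    unfold ws
    field_simp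
  unfold nd
  rw [h, Real.sinh_arsinh]
  field_simp

lemma d_ws (X m x : ℝ) (hX : 0 < X) (hm : 0 < m) :
    HasDerivAt (ws X m) (2 / m / Real.sqrt (1 + (x / (m * X)) ^ 2)) x := by
  have h1 : HasDerivAt (fun x : ℝ => x / (m * X)) (1 / (m * X)) x := (hasDerivAt_id x).div_const _
  have h2 := (h1.arsinh).const_mul (2 * X)
  have hs2 : 0 < Real.sqrt (1 + (x / (m * X)) ^ 2) := Real.sqrt_pos.2 (by positivity)
  refine HasDerivAt.congr_deriv h2 ?_
  rw [smul_eq_mul]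
  field_simp

lemma d_Ph (X m x : ℝ) (hX : 0 < X) (hm : 0 < m) : HasDerivAt (Ph X m) (ws X m x) x := by
  have hw := d_ws X m x hX hm
  have h1 := (hasDerivAt_id x).mul hw
  have h2 := ((d_nn X (ws X m x) hX).comp x hw).const_mul m
  have h3 := h1.sub h2
  refine HasDerivAt.congr_deriv h3 ?_
  rw [nd_ws X m x hX hm]
  simp only [id]
  field_simp
  ring

end Ka_aux

theorem iKa : StKa := by
  intro X hX
  refine ⟨fun y hy => Ka_aux.nn_vv X y hX hy, fun v hv => Ka_aux.vv_nn X v hX hv,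
    fun v => Ka_aux.d_nn X v hX, fun v => Ka_aux.d_nd X v hX, fun y hy => Ka_aux.d_vv X y hX hy,
    fun v hv => Ka_aux.nd_eq X v hX hv, fun m x hm => ⟨Ka_aux.nd_ws X m x hX hm,
      Ka_aux.d_Ph X m x hX hm, Ka_aux.d_ws X m x hX hm⟩⟩

end Pool.Agent.Work.MP_56b8f5_nt.UB
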