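import Pool.Agent.Work.MP_56b8f5_nt.UB.Stmts
import Pool.Agent.Work.MP_56b8f5_nt.UB.Vdc

/-!
MP_56b8f5_nt, block UB, item V1: first derivative test.
-/

open MeasureTheory Set Filter Topology

noncomputable section

namespace Pool.Agent.Work.MP_56b8f5_nt.UB

namespace V1_aux

lemma osc {a b : ℝ} {f f1 f2 : ℝ → ℝ} (hab : a ≤ b)
    (hf : ∀ x ∈ Icc a b, HasDerivAt f (f1 x) x) (hf1 : ∀ x ∈ Icc a b, HasDerivAt f1 (f2 x) x)
    (hc : ContinuousOn f2 (Icc a b)) :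
    Pool.Agent.UB.Vdc.Osc a b f f1 f2 (fun _ => (1 : ℂ)) (fun _ => (0 : ℂ)) where
  le := hab
  hf := hf
  hf' := hf1
  cf'' := hc
  hA := fun x _ => hasDerivAt_const x (1 : ℂ)
  cA' := continuousOn_const

lemma int_one (a b : ℝ) (f : ℝ → ℝ) :
    ∫ x in a..b, (fun _ => (1 : ℂ)) x * Pool.Agent.UB.Vdc.ee (f x) = ∫ x in a..b, ee (f x) := by
  refine intervalIntegral.integral_congr fun x _ => ?_
  show (1 : ℂ) * Pool.Agent.UB.Vdc.ee (f x) = ee (f x)
  rw [one_mul]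
  rfl

end V1_aux

theorem iV1 : StV1 := by
  intro a b l f f1 f2 hab hl hf hf1 hc hlow
  have h := V1_aux.osc hab hf hf1 hc
  have hB : ∀ x ∈ Icc a b, ‖(fun _ : ℝ => (1 : ℂ)) x‖ ≤ 1 := fun x _ => by simp
  have hB' : ∫ x in a..b, ‖(fun _ : ℝ => (0 : ℂ)) x‖ ≤ 0 := by simp
  refine ⟨?_, ?_⟩
  · have h1 := h.first hl hlow hB hB' le_rfl
    rw [V1_aux.int_one] at h1
    refine h1.trans ?_
    have hpi : 3 < Real.pi := Real.pi_gt_three
    have hL : 0 ≤ ∫ x in a..b, |f2 x| / f1 x ^ 2 :=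
      intervalIntegral.integral_nonneg hab fun x _ => by positivity
    have hl' : 0 < 1 / l := by positivity
    rw [div_le_iff₀ (by positivity)]
    have e : 2 * 1 / l + 0 / l + 1 * (∫ x in a..b, |f2 x| / f1 x ^ 2) =
        2 * (1 / l) + ∫ x in a..b, |f2 x| / f1 x ^ 2 := by ring
    rw [e]
    nlinarith [mul_nonneg hl'.le (sub_nonneg.2 hpi.le), mul_nonneg hL (sub_nonneg.2 hpi.le)]
  · intro hs
    have h1 := h.first_mono hl hlow hs hB hB'
    rw [V1_aux.int_one] at h1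
    simpa using h1

end Pool.Agent.Work.MP_56b8f5_nt.UB
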