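import Mathlib

/-!
MP_56b8f5_nt, block UB: first and second derivative tests for oscillatory integrals.
-/

open MeasureTheory Set Filter Topology Complex

noncomputable section

namespace Pool.Agent.Work.MP_56b8f5_nt.UB.Osc

/-- `e(x) = exp(2 π i x)`. -/
def e (x : ℝ) : ℂ := Complex.exp (2 * Real.pi * x * Complex.I)

theorem norm_e (x : ℝ) : ‖e x‖ = 1 := by
  unfold e
  have : (2 * (Real.pi : ℂ) * x * Complex.I) = ((2 * Real.pi * x : ℝ) : ℂ) * Complex.I := by
    push_cast; ring
  rw [this, Complex.norm_exp_ofReal_mul_I]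

theorem e_deriv {f : ℝ → ℝ} {f' x : ℝ} (h : HasDerivAt f f' x) :
    HasDerivAt (fun y => e (f y)) (2 * Real.pi * Complex.I * f' * e (f x)) x := by
  unfold e
  have h1 : HasDerivAt (fun y => ((f y : ℝ) : ℂ)) (f' : ℂ) x := h.ofReal_comp
  have h2 : HasDerivAt (fun y => (2 * (Real.pi : ℂ) * (f y : ℂ) * Complex.I))
      (2 * (Real.pi : ℂ) * f' * Complex.I) x := (h1.const_mul _).mul_const _
  convert h2.cexp using 1
  ring

theorem e_cont : Continuous e := by
  unfold e; fun_prop

/-- First derivative test with amplitude. -/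
theorem test1 {a b : ℝ} (hab : a ≤ b) {f f1 f2 : ℝ → ℝ} {A A1 : ℝ → ℂ}
    (hf : ∀ x ∈ Icc a b, HasDerivAt f (f1 x) x) (hf1 : ∀ x ∈ Icc a b, HasDerivAt f1 (f2 x) x)
    (hf2 : ContinuousOn f2 (Icc a b)) (hA : ∀ x ∈ Icc a b, HasDerivAt A (A1 x) x)
    (hA1 : ContinuousOn A1 (Icc a b)) (h0 : ∀ x ∈ Icc a b, f1 x ≠ 0) :
    ‖∫ x in a..b, A x * e (f x)‖ ≤ (1 / (2 * Real.pi)) * (‖A a‖ / |f1 a| + ‖A b‖ / |f1 b| +
      ∫ x in a..b, (‖A1 x‖ / |f1 x| + ‖A x‖ * |f2 x| / (f1 x) ^ 2)) := by
  have hu : uIcc a b = Icc a b := uIcc_of_le hab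
  have cf : ContinuousOn f (Icc a b) := fun x hx => (hf x hx).continuousAt.continuousWithinAt
  have cf1 : ContinuousOn f1 (Icc a b) := fun x hx => (hf1 x hx).continuousAt.continuousWithinAt
  have cA : ContinuousOn A (Icc a b) := fun x hx => (hA x hx).continuousAt.continuousWithinAt
  have ce : ContinuousOn (fun x => e (f x)) (Icc a b) := e_cont.comp_continuousOn cf
  have cF1 : ContinuousOn (fun x => ((f1 x : ℝ) : ℂ)) (Icc a b) :=
    Complex.continuous_ofReal.comp_continuousOn cf1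
  have cF2 : ContinuousOn (fun x => ((f2 x : ℝ) : ℂ)) (Icc a b) :=
    Complex.continuous_ofReal.comp_continuousOn hf2
  have h0' : ∀ x ∈ Icc a b, ((f1 x : ℝ) : ℂ) ≠ 0 := fun x hx => by
    exact_mod_cast h0 x hx
  have hpi : (2 * (Real.pi : ℂ) * Complex.I) ≠ 0 := by
    simp [Real.pi_ne_zero]
  set G : ℝ → ℂ := fun x => A x * e (f x) / (2 * Real.pi * Complex.I * f1 x) with hG
  set R : ℝ → ℂ := fun x => (A1 x / f1 x - A x * f2 x / (f1 x) ^ 2) * e (f x) /
    (2 * Real.pi * Complex.I) with hR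
  have hd : ∀ x ∈ Icc a b, HasDerivAt G (A x * e (f x) + R x) x := by
    intro x hx
    have h1 := (hA x hx).mul (e_deriv (hf x hx))
    have h2 : HasDerivAt (fun y => (2 * (Real.pi : ℂ) * Complex.I * (f1 y : ℂ)))
        (2 * Real.pi * Complex.I * f2 x) x := ((hf1 x hx).ofReal_comp).const_mul _
    have h3 := h1.div h2 (mul_ne_zero hpi (h0' x hx))
    have hx0 := h0' x hx
    refine HasDerivAt.congr_deriv h3 ?_
    simp only [hR, Pi.mul_apply]
    field_simp
    ring
  have cR : ContinuousOn R (Icc a b) := by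
    have q1 : ContinuousOn (fun x => A1 x / f1 x) (Icc a b) := hA1.div cF1 h0'
    have q2 : ContinuousOn (fun x => A x * f2 x / ((f1 x : ℝ) : ℂ) ^ 2) (Icc a b) :=
      (cA.mul cF2).div (cF1.pow 2) fun x hx => pow_ne_zero 2 (h0' x hx)
    exact ((q1.sub q2).mul ce).div_const _
  have i1 : IntervalIntegrable (fun x => A x * e (f x)) volume a b := by
    apply ContinuousOn.intervalIntegrable
    rw [hu]; exact cA.mul ce
  have i2 : IntervalIntegrable R volume a b := by
    apply ContinuousOn.intervalIntegrable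
    rw [hu]; exact cR
  have ftc : ∫ x in a..b, (A x * e (f x) + R x) = G b - G a := by
    apply intervalIntegral.integral_eq_sub_of_hasDerivAt
    · intro x hx; rw [hu] at hx; exact hd x hx
    · exact i1.add i2
  rw [intervalIntegral.integral_add i1 i2] at ftc
  have e1 : ∫ x in a..b, A x * e (f x) = G b - G a - ∫ x in a..b, R x := by
    rw [← ftc]; ring
  have hp : (0 : ℝ) < 2 * Real.pi := by positivity
  have nG : ∀ x ∈ Icc a b, ‖G x‖ = (1 / (2 * Real.pi)) * (‖A x‖ / |f1 x|) := by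
    intro x hx
    simp only [hG, norm_div, norm_mul, norm_e, Complex.norm_I, Complex.norm_real, Real.norm_eq_abs,
      abs_of_pos Real.pi_pos, Complex.norm_ofNat]
    have := abs_pos.2 (h0 x hx)
    field_simp
  have nR : ∀ x ∈ Icc a b, ‖R x‖ ≤ (1 / (2 * Real.pi)) *
      (‖A1 x‖ / |f1 x| + ‖A x‖ * |f2 x| / (f1 x) ^ 2) := by
    intro x hx
    simp only [hR, norm_div, norm_mul, norm_e, Complex.norm_I, Complex.norm_real, Real.norm_eq_abs,
      abs_of_pos Real.pi_pos, Complex.norm_ofNat, mul_one]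
    rw [one_div, inv_mul_eq_div]
    apply div_le_div_of_nonneg_right _ hp.le
    refine (norm_sub_le _ _).trans ?_
    rw [norm_div, norm_div, norm_mul, norm_pow, Complex.norm_real, Complex.norm_real,
      Real.norm_eq_abs, Real.norm_eq_abs, sq_abs]
  have cRn : ContinuousOn (fun x => (‖A1 x‖ / |f1 x| + ‖A x‖ * |f2 x| / (f1 x) ^ 2)) (Icc a b) := by
    refine (hA1.norm.div cf1.abs fun x hx => abs_ne_zero.2 (h0 x hx)).add ?_
    exact (cA.norm.mul hf2.abs).div (cf1.pow 2) fun x hx => pow_ne_zero 2 (h0 x hx)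
  have bR : ‖∫ x in a..b, R x‖ ≤ (1 / (2 * Real.pi)) *
      ∫ x in a..b, (‖A1 x‖ / |f1 x| + ‖A x‖ * |f2 x| / (f1 x) ^ 2) := by
    rw [← intervalIntegral.integral_const_mul]
    refine (intervalIntegral.norm_integral_le_integral_norm hab).trans ?_
    apply intervalIntegral.integral_mono_on hab
    · apply ContinuousOn.intervalIntegrable; rw [hu]; exact cR.norm
    · apply ContinuousOn.intervalIntegrable; rw [hu]; exact continuousOn_const.mul cRn
    · exact nR
  have bG : ‖G b - G a‖ ≤ (1 / (2 * Real.pi)) * (‖A b‖ / |f1 b|) +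
      (1 / (2 * Real.pi)) * (‖A a‖ / |f1 a|) := by
    refine (norm_sub_le _ _).trans (le_of_eq ?_)
    rw [nG b (right_mem_Icc.2 hab), nG a (left_mem_Icc.2 hab)]
  rw [e1]
  refine (norm_sub_le _ _).trans ((add_le_add bG bR).trans (le_of_eq ?_))
  ring

/-- First derivative test, monotone derivative, no amplitude, one end. -/
theorem test1m {a b s : ℝ} (hab : a ≤ b) (hs : 0 < s) {f f1 f2 : ℝ → ℝ}
    (hf : ∀ x ∈ Icc a b, HasDerivAt f (f1 x) x) (hf1 : ∀ x ∈ Icc a b, HasDerivAt f1 (f2 x) x)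
    (hf2 : ContinuousOn f2 (Icc a b)) (h2 : ∀ x ∈ Icc a b, 0 ≤ f2 x)
    (h0 : (∀ x ∈ Icc a b, f1 x ≤ -s) ∨ (∀ x ∈ Icc a b, s ≤ f1 x)) :
    ‖∫ x in a..b, e (f x)‖ ≤ 1 / s := by
  have h0' : ∀ x ∈ Icc a b, f1 x ≠ 0 := by
    intro x hx
    rcases h0 with h | h
    · have := h x hx; intro h3; rw [h3] at this; linarith
    · have := h x hx; intro h3; rw [h3] at this; linarith
  have hu : uIcc a b = Icc a b := uIcc_of_le hab
  have cf1 : ContinuousOn f1 (Icc a b) := fun x hx => (hf1 x hx).continuousAt.continuousWithinAt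
  have T := test1 (A := fun _ => 1) (A1 := fun _ => 0) hab hf hf1 hf2
    (fun x _ => hasDerivAt_const x _) continuousOn_const h0'
  simp only [one_mul, norm_one, norm_zero, zero_div, zero_add] at T
  have I1 : ∫ x in a..b, |f2 x| / (f1 x) ^ 2 = (f1 a)⁻¹ - (f1 b)⁻¹ := by
    have hh : ∀ x ∈ uIcc a b, HasDerivAt (fun y => -(f1 y)⁻¹) (|f2 x| / (f1 x) ^ 2) x := by
      intro x hx
      rw [hu] at hx
      have := ((hf1 x hx).inv (h0' x hx)).neg
      rw [abs_of_nonneg (h2 x hx)]
      refine HasDerivAt.congr_deriv this ?_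
      ring
    rw [intervalIntegral.integral_eq_sub_of_hasDerivAt hh]
    · ring
    · apply ContinuousOn.intervalIntegrable; rw [hu]
      exact hf2.abs.div (cf1.pow 2) fun x hx => pow_ne_zero 2 (h0' x hx)
  rw [I1] at T
  have ha := left_mem_Icc.2 hab
  have hb := right_mem_Icc.2 hab
  have key : 1 / |f1 a| + 1 / |f1 b| + ((f1 a)⁻¹ - (f1 b)⁻¹) ≤ 2 / s := by
    rcases h0 with h | h
    · have h3 := h a ha
      have h4 := h b hb
      rw [abs_of_neg (by linarith), abs_of_neg (by linarith)]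
      have : 1 / -f1 a + 1 / -f1 b + ((f1 a)⁻¹ - (f1 b)⁻¹) = 2 / (-f1 b) := by
        have := h0' a ha
        have := h0' b hb
        field_simp
        ring
      rw [this]
      apply div_le_div_of_nonneg_left (by norm_num) hs (by linarith)
    · have h3 := h a ha
      have h4 := h b hb
      rw [abs_of_pos (by linarith), abs_of_pos (by linarith)]
      have : 1 / f1 a + 1 / f1 b + ((f1 a)⁻¹ - (f1 b)⁻¹) = 2 / f1 a := by
        have := h0' a ha
        have := h0' b hb
        field_simp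
        ring
      rw [this]
      apply div_le_div_of_nonneg_left (by norm_num) hs (by linarith)
  refine T.trans ?_
  have hp : (0 : ℝ) < 2 * Real.pi := by positivity
  calc (1 / (2 * Real.pi)) * (1 / |f1 a| + 1 / |f1 b| + ((f1 a)⁻¹ - (f1 b)⁻¹))
      ≤ (1 / (2 * Real.pi)) * (2 / s) := by
        apply mul_le_mul_of_nonneg_left key; positivity
    _ ≤ (1 / 2) * (2 / s) := by
        apply mul_le_mul_of_nonneg_right _ (by positivity)
        apply one_div_le_one_div_of_le (by norm_num)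
        linarith [Real.pi_gt_three]
    _ = 1 / s := by field_simp

theorem norm_int_e_le {a b : ℝ} (hab : a ≤ b) (f : ℝ → ℝ) : ‖∫ x in a..b, e (f x)‖ ≤ b - a := by
  have := intervalIntegral.norm_integral_le_of_norm_le_const (a := a) (b := b) (C := 1)
    (f := fun x => e (f x)) (fun x _ => (norm_e _).le)
  rwa [one_mul, abs_of_nonneg (by linarith)] at this

/-- Second derivative test, no amplitude. -/
theorem test2 {a b lam : ℝ} (hab : a ≤ b) (hl : 0 < lam) {f f1 f2 : ℝ → ℝ}
    (hf : ∀ x ∈ Icc a b, HasDerivAt f (f1 x) x) (hf1 : ∀ x ∈ Icc a b, HasDerivAt f1 (f2 x) x)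
    (hf2 : ContinuousOn f2 (Icc a b)) (h2 : ∀ x ∈ Icc a b, lam ≤ f2 x) :
    ‖∫ x in a..b, e (f x)‖ ≤ 4 / Real.sqrt lam := by
  set s := Real.sqrt lam with hs
  have hs0 : 0 < s := Real.sqrt_pos.2 hl
  have hss : s * s = lam := Real.mul_self_sqrt hl.le
  have cf : ContinuousOn f (Icc a b) := fun x hx => (hf x hx).continuousAt.continuousWithinAt
  have cf1 : ContinuousOn f1 (Icc a b) := fun x hx => (hf1 x hx).continuousAt.continuousWithinAt
  -- growth of `f1`
  have gr : ∀ x ∈ Icc a b, ∀ y ∈ Icc a b, x ≤ y → lam * (y - x) ≤ f1 y - f1 x := by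
    intro x hx y hy hxy
    have hconv : Convex ℝ (Icc a b) := convex_Icc a b
    refine hconv.mul_sub_le_image_sub_of_le_deriv cf1 ?_ ?_ x hx y hy hxy
    · intro z hz
      exact (hf1 z (interior_subset hz)).differentiableAt.differentiableWithinAt
    · intro z hz
      rw [(hf1 z (interior_subset hz)).deriv]
      exact h2 z (interior_subset hz)
  have ha := left_mem_Icc.2 hab
  have hb := right_mem_Icc.2 hab
  obtain ⟨c, hc, hca, hcb⟩ : ∃ c ∈ Icc a b, (c = a ∨ f1 c ≤ -s) ∧ (c = b ∨ -s ≤ f1 c) := by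
    by_cases h1 : -s ≤ f1 a
    · exact ⟨a, ha, Or.inl rfl, Or.inr h1⟩
    by_cases h3 : f1 b ≤ -s
    · exact ⟨b, hb, Or.inr h3, Or.inl rfl⟩
    push Not at h1 h3
    obtain ⟨c, hc, hc2⟩ := intermediate_value_Icc hab cf1 ⟨h1.le, h3.le⟩
    exact ⟨c, hc, Or.inr hc2.le, Or.inr hc2.ge⟩
  obtain ⟨d, hd, hdb, hda⟩ : ∃ d ∈ Icc a b, (d = b ∨ s ≤ f1 d) ∧ (d = a ∨ f1 d ≤ s) := by
    by_cases h1 : f1 b ≤ s
    · exact ⟨b, hb, Or.inl rfl, Or.inr h1⟩
    by_cases h3 : s ≤ f1 a
    · exact ⟨a, ha, Or.inr h3, Or.inl rfl⟩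
    push Not at h1 h3
    obtain ⟨c, hc, hc2⟩ := intermediate_value_Icc hab cf1 ⟨h3.le, h1.le⟩
    exact ⟨c, hc, Or.inr hc2.ge, Or.inr hc2.le⟩
  have hcd : c ≤ d := by
    by_contra hlt
    push Not at hlt
    have h3 : d ≠ b := fun h => by rw [h] at hlt; linarith [hc.2]
    have h4 : c ≠ a := fun h => by rw [h] at hlt; linarith [hd.1]
    have h5 := hdb.resolve_left h3
    have h6 := hca.resolve_left h4
    have h7 := gr d hd c hc hlt.le
    have h8 : 0 ≤ lam * (c - d) := mul_nonneg hl.le (by linarith)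
    linarith
  have hmid : d - c ≤ 2 / s := by
    rcases hcd.eq_or_lt with h | h
    · rw [h, sub_self]; positivity
    have h3 : c ≠ b := fun h' => by rw [h'] at h; linarith [hd.2]
    have h4 : d ≠ a := fun h' => by rw [h'] at h; linarith [hc.1]
    have h5 := hcb.resolve_left h3
    have h6 := hda.resolve_left h4
    have h7 := gr c hc d hd h.le
    rw [le_div_iff₀ hs0]
    have : s * (s * (d - c)) ≤ s * 2 := by nlinarith
    nlinarith
  have iI : ∀ x ∈ Icc a b, ∀ y ∈ Icc a b, IntervalIntegrable (fun x => e (f x)) volume x y := by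
    intro x hx y hy
    apply ContinuousOn.intervalIntegrable
    exact (e_cont.comp_continuousOn cf).mono (uIcc_subset_Icc hx hy)
  have split : ∫ x in a..b, e (f x) = (∫ x in a..c, e (f x)) + (∫ x in c..d, e (f x)) +
      ∫ x in d..b, e (f x) := by
    rw [intervalIntegral.integral_add_adjacent_intervals (iI a ha c hc) (iI c hc d hd),
      intervalIntegral.integral_add_adjacent_intervals (iI a ha d hd) (iI d hd b hb)]
  have b1 : ‖∫ x in a..c, e (f x)‖ ≤ 1 / s := by
    rcases hca with h | h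
    · rw [h, intervalIntegral.integral_same, norm_zero]; positivity
    have sub : Icc a c ⊆ Icc a b := Icc_subset_Icc_right hc.2
    refine test1m hc.1 hs0 (fun x hx => hf x (sub hx)) (fun x hx => hf1 x (sub hx)) (hf2.mono sub)
      (fun x hx => hl.le.trans (h2 x (sub hx))) (Or.inl fun x hx => ?_)
    have h7 := gr x (sub hx) c hc hx.2
    have h8 : 0 ≤ lam * (c - x) := mul_nonneg hl.le (by linarith [hx.2])
    linarith
  have b2 : ‖∫ x in c..d, e (f x)‖ ≤ 2 / s := (norm_int_e_le hcd f).trans hmid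
  have b3 : ‖∫ x in d..b, e (f x)‖ ≤ 1 / s := by
    rcases hdb with h | h
    · rw [h, intervalIntegral.integral_same, norm_zero]; positivity
    have sub : Icc d b ⊆ Icc a b := Icc_subset_Icc_left hd.1
    refine test1m hd.2 hs0 (fun x hx => hf x (sub hx)) (fun x hx => hf1 x (sub hx)) (hf2.mono sub)
      (fun x hx => hl.le.trans (h2 x (sub hx))) (Or.inr fun x hx => ?_)
    have h7 := gr d hd x (sub hx) hx.1
    have h8 : 0 ≤ lam * (x - d) := mul_nonneg hl.le (by linarith [hx.1])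
    linarith
  rw [split]
  calc _ ≤ 1 / s + 2 / s + 1 / s := (norm_add₃_le).trans (add_le_add (add_le_add b1 b2) b3)
    _ = 4 / s := by ring

theorem e_neg (x : ℝ) : e (-x) = (starRingEnd ℂ) (e x) := by
  unfold e
  rw [← Complex.exp_conj]
  congr 1
  simp only [map_mul, Complex.conj_ofReal, Complex.conj_I, map_ofNat]
  push_cast
  ring

theorem conj_int (a b : ℝ) (f : ℝ → ℝ) :
    ‖∫ x in a..b, e (-(f x))‖ = ‖∫ x in a..b, e (f x)‖ := by
  have : ∫ x in a..b, e (-(f x)) = (starRingEnd ℂ) (∫ x in a..b, e (f x)) := by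
    simp only [e_neg]
    rw [intervalIntegral, intervalIntegral, map_sub, integral_conj, integral_conj]
  rw [this, RCLike.norm_conj]

/-- Second derivative test, constant sign. -/
theorem test2s {a b lam : ℝ} (hab : a ≤ b) (hl : 0 < lam) {f f1 f2 : ℝ → ℝ}
    (hf : ∀ x ∈ Icc a b, HasDerivAt f (f1 x) x) (hf1 : ∀ x ∈ Icc a b, HasDerivAt f1 (f2 x) x)
    (hf2 : ContinuousOn f2 (Icc a b))
    (h2 : (∀ x ∈ Icc a b, lam ≤ f2 x) ∨ (∀ x ∈ Icc a b, f2 x ≤ -lam)) :
    ‖∫ x in a..b, e (f x)‖ ≤ 4 / Real.sqrt lam := by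
  rcases h2 with h | h
  · exact test2 hab hl hf hf1 hf2 h
  · rw [← conj_int]
    exact test2 (f := fun x => -f x) (f1 := fun x => -f1 x) (f2 := fun x => -f2 x) hab hl
      (fun x hx => (hf x hx).neg) (fun x hx => (hf1 x hx).neg) hf2.neg
      (fun x hx => by have := h x hx; linarith)

/-- Second derivative test with amplitude. -/
theorem test2A {a b lam : ℝ} (hab : a ≤ b) (hl : 0 < lam) {f f1 f2 : ℝ → ℝ} {A A1 : ℝ → ℂ}
    (hf : ∀ x ∈ Icc a b, HasDerivAt f (f1 x) x) (hf1 : ∀ x ∈ Icc a b, HasDerivAt f1 (f2 x) x)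
    (hf2 : ContinuousOn f2 (Icc a b))
    (h2 : (∀ x ∈ Icc a b, lam ≤ f2 x) ∨ (∀ x ∈ Icc a b, f2 x ≤ -lam))
    (hA : ∀ x ∈ Icc a b, HasDerivAt A (A1 x) x) (hA1 : ContinuousOn A1 (Icc a b)) :
    ‖∫ x in a..b, A x * e (f x)‖ ≤ (4 / Real.sqrt lam) * (‖A b‖ + ∫ x in a..b, ‖A1 x‖) := by
  have hu : uIcc a b = Icc a b := uIcc_of_le hab
  have cf : ContinuousOn f (Icc a b) := fun x hx => (hf x hx).continuousAt.continuousWithinAt
  have ce : ContinuousOn (fun x => e (f x)) (Icc a b) := e_cont.comp_continuousOn cf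
  have cA : ContinuousOn A (Icc a b) := fun x hx => (hA x hx).continuousAt.continuousWithinAt
  have iE : IntervalIntegrable (fun x => e (f x)) volume a b := by
    apply ContinuousOn.intervalIntegrable; rw [hu]; exact ce
  have iA1 : IntervalIntegrable A1 volume a b := by
    apply ContinuousOn.intervalIntegrable; rw [hu]; exact hA1
  set F : ℝ → ℂ := fun x => ∫ t in a..x, e (f t) with hF
  have bF : ∀ x ∈ Icc a b, ‖F x‖ ≤ 4 / Real.sqrt lam := by
    intro x hx
    have sub : Icc a x ⊆ Icc a b := Icc_subset_Icc_right hx.2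
    exact test2s hx.1 hl (fun y hy => hf y (sub hy)) (fun y hy => hf1 y (sub hy)) (hf2.mono sub)
      (h2.imp (fun h y hy => h y (sub hy)) (fun h y hy => h y (sub hy)))
  have cF : ContinuousOn F (Icc a b) := by
    have := intervalIntegral.continuousOn_primitive_interval (a := a) (b := b) (μ := volume)
      (f := fun x => e (f x)) (by
        have := (intervalIntegrable_iff_integrableOn_Icc_of_le hab).1 iE
        rwa [hu])
    rwa [hu] at this
  have hdF : ∀ x ∈ Ioo (min a b) (max a b), HasDerivWithinAt F (e (f x)) (Ioi x) x := by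
    intro x hx
    rw [min_eq_left hab, max_eq_right hab] at hx
    have hx' : x ∈ Icc a b := ⟨hx.1.le, hx.2.le⟩
    have cx : ContinuousAt (fun x => e (f x)) x := e_cont.continuousAt.comp (hf x hx').continuousAt
    have iax : IntervalIntegrable (fun x => e (f x)) volume a x := by
      apply ContinuousOn.intervalIntegrable
      exact ce.mono (uIcc_subset_Icc (left_mem_Icc.2 hab) hx')
    have sm : StronglyMeasurableAtFilter (fun x => e (f x)) (𝓝 x) volume := by
      refine ⟨Ioo a b, Ioo_mem_nhds hx.1 hx.2, ?_⟩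
      exact (ce.mono Ioo_subset_Icc_self).aestronglyMeasurable measurableSet_Ioo
    exact (intervalIntegral.integral_hasDerivAt_right iax sm cx).hasDerivWithinAt
  have parts := intervalIntegral.integral_mul_deriv_eq_deriv_mul_of_hasDeriv_right
    (a := a) (b := b) (u := A) (v := F) (u' := A1) (v' := fun x => e (f x))
    (by rw [hu]; exact cA) (by rw [hu]; exact cF)
    (fun x hx => by
      rw [min_eq_left hab, max_eq_right hab] at hx
      exact (hA x ⟨hx.1.le, hx.2.le⟩).hasDerivWithinAt)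
    hdF iA1 iE
  rw [parts]
  have Fa : F a = 0 := by simp [hF]
  rw [Fa, mul_zero, sub_zero]
  have n1 : ‖A b * F b‖ ≤ (4 / Real.sqrt lam) * ‖A b‖ := by
    rw [norm_mul, mul_comm]
    exact mul_le_mul_of_nonneg_right (bF b (right_mem_Icc.2 hab)) (norm_nonneg _)
  have n2 : ‖∫ x in a..b, A1 x * F x‖ ≤ (4 / Real.sqrt lam) * ∫ x in a..b, ‖A1 x‖ := by
    rw [← intervalIntegral.integral_const_mul]
    refine (intervalIntegral.norm_integral_le_integral_norm hab).trans ?_
    apply intervalIntegral.integral_mono_on hab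
    · apply ContinuousOn.intervalIntegrable; rw [hu]; exact (hA1.mul cF).norm
    · apply ContinuousOn.intervalIntegrable; rw [hu]; exact continuousOn_const.mul hA1.norm
    · intro x hx
      rw [norm_mul, mul_comm]
      exact mul_le_mul_of_nonneg_right (bF x hx) (norm_nonneg _)
  calc _ ≤ ‖A b * F b‖ + ‖∫ x in a..b, A1 x * F x‖ := norm_sub_le _ _
    _ ≤ _ := by rw [mul_add]; exact add_le_add n1 n2

end Pool.Agent.Work.MP_56b8f5_nt.UB.Osc
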