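import Pool.Agent.Work.MP_33c50c_an.Lat2

/-!
MP_56b8f5_nt, block UB: van der Corput's first and second derivative tests with a `C^1` amplitude (helper54).
Phases are written `exp (I * f x)`, so `f = 2 π F` for `e(F)`.
-/

set_option autoImplicit false

open MeasureTheory intervalIntegral Set

noncomputable section

namespace Pool.Agent.Work.MP_56b8f5_nt.UB.OscI

/-- The exponential. -/
lemma norm_expI (y : ℝ) : ‖Complex.exp (Complex.I * (y : ℂ))‖ = 1 := by
  rw [mul_comm]; exact Complex.norm_exp_ofReal_mul_I _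

lemma hasDerivAt_expI {f : ℝ → ℝ} {f1 x : ℝ} (h : HasDerivAt f f1 x) :
    HasDerivAt (fun y => Complex.exp (Complex.I * (f y : ℂ)))
      (Complex.exp (Complex.I * (f x : ℂ)) * (Complex.I * (f1 : ℂ))) x :=
  ((h.ofReal_comp.const_mul Complex.I)).cexp

/-- **Integration by parts** with the phase `f`, `f' ≠ 0`: exact formula. -/
theorem parts {a b : ℝ} (hab : a ≤ b) (f f1 f2 : ℝ → ℝ) (g g1 : ℝ → ℂ)
    (h1 : ∀ x ∈ Icc a b, HasDerivAt f (f1 x) x) (h2 : ∀ x ∈ Icc a b, HasDerivAt f1 (f2 x) x)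
    (hc2 : ContinuousOn f2 (Icc a b)) (hg : ∀ x ∈ Icc a b, HasDerivAt g (g1 x) x)
    (hcg : ContinuousOn g1 (Icc a b)) (hne : ∀ x ∈ Icc a b, f1 x ≠ 0) :
    ∫ x in a..b, g x * Complex.exp (Complex.I * (f x : ℂ)) =
      g b / (Complex.I * (f1 b : ℂ)) * Complex.exp (Complex.I * (f b : ℂ)) -
      g a / (Complex.I * (f1 a : ℂ)) * Complex.exp (Complex.I * (f a : ℂ)) -
      ∫ x in a..b, (g1 x * (f1 x : ℂ) - g x * (f2 x : ℂ)) / (Complex.I * (f1 x : ℂ) ^ 2) *
        Complex.exp (Complex.I * (f x : ℂ)) := by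
  have hu : uIcc a b = Icc a b := uIcc_of_le hab
  have hcf : ContinuousOn f (Icc a b) := fun x hx => (h1 x hx).continuousAt.continuousWithinAt
  have hcf1 : ContinuousOn f1 (Icc a b) := fun x hx => (h2 x hx).continuousAt.continuousWithinAt
  have hcg0 : ContinuousOn g (Icc a b) := fun x hx => (hg x hx).continuousAt.continuousWithinAt
  have hcE : ContinuousOn (fun x => Complex.exp (Complex.I * (f x : ℂ))) (Icc a b) :=
    fun x hx => (hasDerivAt_expI (h1 x hx)).continuousAt.continuousWithinAt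
  have hcF1 : ContinuousOn (fun x => (f1 x : ℂ)) (Icc a b) :=
    Complex.continuous_ofReal.comp_continuousOn hcf1
  have hcF2 : ContinuousOn (fun x => (f2 x : ℂ)) (Icc a b) :=
    Complex.continuous_ofReal.comp_continuousOn hc2
  have hneC : ∀ x ∈ Icc a b, (f1 x : ℂ) ≠ 0 := fun x hx => by exact_mod_cast hne x hx
  have hne2 : ∀ x ∈ Icc a b, Complex.I * (f1 x : ℂ) ^ 2 ≠ 0 := fun x hx =>
    mul_ne_zero Complex.I_ne_zero (pow_ne_zero 2 (hneC x hx))
  have i1 : IntervalIntegrable (fun x => g x * Complex.exp (Complex.I * (f x : ℂ))) volume a b := by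
    apply ContinuousOn.intervalIntegrable; rw [hu]; exact hcg0.mul hcE
  have i2 : IntervalIntegrable (fun x => (g1 x * (f1 x : ℂ) - g x * (f2 x : ℂ)) /
      (Complex.I * (f1 x : ℂ) ^ 2) * Complex.exp (Complex.I * (f x : ℂ))) volume a b := by
    apply ContinuousOn.intervalIntegrable; rw [hu]
    exact (((hcg.mul hcF1).sub (hcg0.mul hcF2)).div (continuousOn_const.mul (hcF1.pow 2)) hne2).mul hcE
  have hD : ∀ x ∈ uIcc a b, HasDerivAt (fun y => g y / (Complex.I * (f1 y : ℂ)) *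
      Complex.exp (Complex.I * (f y : ℂ)))
      (g x * Complex.exp (Complex.I * (f x : ℂ)) + (g1 x * (f1 x : ℂ) - g x * (f2 x : ℂ)) /
      (Complex.I * (f1 x : ℂ) ^ 2) * Complex.exp (Complex.I * (f x : ℂ))) x := by
    intro x hx
    rw [hu] at hx
    have hn : Complex.I * (f1 x : ℂ) ≠ 0 := mul_ne_zero Complex.I_ne_zero (hneC x hx)
    have h := ((hg x hx).div (((h2 x hx).ofReal_comp).const_mul Complex.I) hn).mul
      (hasDerivAt_expI (h1 x hx))
    refine h.congr_deriv ?_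
    have hf := hneC x hx
    have hI := Complex.I_ne_zero
    simp only [Pi.div_apply]
    have e1 : (g1 x * (Complex.I * (f1 x : ℂ)) - g x * (Complex.I * (f2 x : ℂ))) /
        (Complex.I * (f1 x : ℂ)) ^ 2 = (g1 x * (f1 x : ℂ) - g x * (f2 x : ℂ)) /
        (Complex.I * (f1 x : ℂ) ^ 2) := by
      field_simp
    have e2 : g x / (Complex.I * (f1 x : ℂ)) * (Complex.exp (Complex.I * (f x : ℂ)) *
        (Complex.I * (f1 x : ℂ))) = g x * Complex.exp (Complex.I * (f x : ℂ)) := by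
      field_simp
    rw [e1, e2]
    ring
  have h := intervalIntegral.integral_eq_sub_of_hasDerivAt hD (i1.add i2)
  rw [intervalIntegral.integral_add i1 i2] at h
  rw [eq_sub_iff_add_eq]
  exact h

/-- **First derivative test**, `|f'| ≥ lam`, `|g| ≤ G`, `∫ |g'| ≤ V`, `∫ |f''| ≤ A`. -/
theorem osc1 {a b lam G V A : ℝ} (hab : a ≤ b) (hlam : 0 < lam) (f f1 f2 : ℝ → ℝ) (g g1 : ℝ → ℂ)
    (h1 : ∀ x ∈ Icc a b, HasDerivAt f (f1 x) x) (h2 : ∀ x ∈ Icc a b, HasDerivAt f1 (f2 x) x)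
    (hc2 : ContinuousOn f2 (Icc a b)) (hg : ∀ x ∈ Icc a b, HasDerivAt g (g1 x) x)
    (hcg : ContinuousOn g1 (Icc a b)) (hl : ∀ x ∈ Icc a b, lam ≤ |f1 x|)
    (hG : ∀ x ∈ Icc a b, ‖g x‖ ≤ G) (hV : ∫ x in a..b, ‖g1 x‖ ≤ V)
    (hA : ∫ x in a..b, |f2 x| ≤ A) :
    ‖∫ x in a..b, g x * Complex.exp (Complex.I * (f x : ℂ))‖ ≤
      (2 * G + V) / lam + G * A / lam ^ 2 := by
  have hu : uIcc a b = Icc a b := uIcc_of_le hab
  have hne : ∀ x ∈ Icc a b, f1 x ≠ 0 := fun x hx h0 => by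
    have := hl x hx; rw [h0, abs_zero] at this; linarith
  have hG0 : 0 ≤ G := (norm_nonneg _).trans (hG a ⟨le_rfl, hab⟩)
  rw [parts hab f f1 f2 g g1 h1 h2 hc2 hg hcg hne]
  have hbd : ∀ x ∈ Icc a b, ‖g x / (Complex.I * (f1 x : ℂ)) * Complex.exp (Complex.I * (f x : ℂ))‖ ≤
      G / lam := by
    intro x hx
    rw [norm_mul, norm_expI, mul_one, norm_div, norm_mul, Complex.norm_I, one_mul,
      Complex.norm_real, Real.norm_eq_abs]
    exact div_le_div₀ hG0 (hG x hx) hlam (hl x hx)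
  have hcg1 : ContinuousOn (fun x => ‖g1 x‖) (Icc a b) := hcg.norm
  have hcf2 : ContinuousOn (fun x => |f2 x|) (Icc a b) := hc2.abs
  have j1 : IntervalIntegrable (fun x => ‖g1 x‖) volume a b := by
    apply ContinuousOn.intervalIntegrable; rw [hu]; exact hcg1
  have j2 : IntervalIntegrable (fun x => |f2 x|) volume a b := by
    apply ContinuousOn.intervalIntegrable; rw [hu]; exact hcf2
  have hmain : ‖∫ x in a..b, (g1 x * (f1 x : ℂ) - g x * (f2 x : ℂ)) / (Complex.I * (f1 x : ℂ) ^ 2) *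
      Complex.exp (Complex.I * (f x : ℂ))‖ ≤ V / lam + G * A / lam ^ 2 := by
    have h3 : ‖∫ x in a..b, (g1 x * (f1 x : ℂ) - g x * (f2 x : ℂ)) / (Complex.I * (f1 x : ℂ) ^ 2) *
        Complex.exp (Complex.I * (f x : ℂ))‖ ≤
        ∫ x in a..b, (1 / lam * ‖g1 x‖ + G / lam ^ 2 * |f2 x|) := by
      apply intervalIntegral.norm_integral_le_of_norm_le hab _
        ((j1.const_mul _).add (j2.const_mul _))
      filter_upwards with x hx
      have hx' : x ∈ Icc a b := ⟨hx.1.le, hx.2⟩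
      have hpos : 0 < |f1 x| := hlam.trans_le (hl x hx')
      rw [norm_mul, norm_expI, mul_one, norm_div, norm_mul, Complex.norm_I, one_mul, norm_pow,
        Complex.norm_real, Real.norm_eq_abs]
      have h4 : ‖g1 x * (f1 x : ℂ) - g x * (f2 x : ℂ)‖ ≤ ‖g1 x‖ * |f1 x| + G * |f2 x| := by
        refine (norm_sub_le _ _).trans ?_
        rw [norm_mul, norm_mul, Complex.norm_real, Complex.norm_real, Real.norm_eq_abs,
          Real.norm_eq_abs]
        have := mul_le_mul_of_nonneg_right (hG x hx') (abs_nonneg (f2 x))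
        linarith
      calc ‖g1 x * (f1 x : ℂ) - g x * (f2 x : ℂ)‖ / |f1 x| ^ 2
          ≤ (‖g1 x‖ * |f1 x| + G * |f2 x|) / |f1 x| ^ 2 :=
            div_le_div_of_nonneg_right h4 (by positivity)
        _ = 1 / |f1 x| * ‖g1 x‖ + G / |f1 x| ^ 2 * |f2 x| := by
            field_simp
        _ ≤ 1 / lam * ‖g1 x‖ + G / lam ^ 2 * |f2 x| := by
            apply add_le_add
            · exact mul_le_mul_of_nonneg_right (one_div_le_one_div_of_le hlam (hl x hx'))
                (norm_nonneg _)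
            · apply mul_le_mul_of_nonneg_right _ (abs_nonneg _)
              exact div_le_div_of_nonneg_left hG0 (by positivity)
                (pow_le_pow_left₀ hlam.le (hl x hx') 2)
    refine h3.trans ?_
    rw [intervalIntegral.integral_add (j1.const_mul _) (j2.const_mul _),
      intervalIntegral.integral_const_mul, intervalIntegral.integral_const_mul]
    have e1 : 1 / lam * ∫ x in a..b, ‖g1 x‖ ≤ 1 / lam * V :=
      mul_le_mul_of_nonneg_left hV (by positivity)
    have e2 : G / lam ^ 2 * ∫ x in a..b, |f2 x| ≤ G / lam ^ 2 * A :=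
      mul_le_mul_of_nonneg_left hA (by positivity)
    have e3 : 1 / lam * V = V / lam := by ring
    have e4 : G / lam ^ 2 * A = G * A / lam ^ 2 := by ring
    linarith
  have hb := hbd b ⟨hab, le_rfl⟩
  have ha := hbd a ⟨le_rfl, hab⟩
  refine (norm_sub_le _ _).trans ?_
  refine (add_le_add (norm_sub_le _ _) hmain).trans ?_
  have : (2 * G + V) / lam = G / lam + G / lam + V / lam := by ring
  linarith

/-- Second derivative test without amplitude, either sign of `f''`. -/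
theorem osc2a {a b lam : ℝ} (hab : a ≤ b) (hlam : 0 < lam) (f f1 f2 : ℝ → ℝ)
    (h1 : ∀ x ∈ Icc a b, HasDerivAt f (f1 x) x) (h2 : ∀ x ∈ Icc a b, HasDerivAt f1 (f2 x) x)
    (hc2 : ContinuousOn f2 (Icc a b))
    (hl : (∀ x ∈ Icc a b, lam ≤ f2 x) ∨ (∀ x ∈ Icc a b, f2 x ≤ -lam)) :
    ‖∫ x in a..b, Complex.exp (Complex.I * (f x : ℂ))‖ ≤ 8 / Real.sqrt lam := by
  have hs : 0 < Real.sqrt lam := Real.sqrt_pos.2 hlam
  have h8 : (2 * Real.pi + 1) / Real.sqrt lam ≤ 8 / Real.sqrt lam := by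
    apply div_le_div_of_nonneg_right _ hs.le
    have := Real.pi_lt_d2
    linarith
  rcases hl with hl | hl
  · exact (MP_33c50c_an.vdc f f1 f2 a b lam hab hlam h1 h2 hc2 hl).trans h8
  · have h3 := MP_33c50c_an.vdc (fun x => -f x) (fun x => -f1 x) (fun x => -f2 x) a b lam hab hlam
      (fun x hx => (h1 x hx).neg) (fun x hx => (h2 x hx).neg) hc2.neg
      (fun x hx => by have := hl x hx; linarith)
    have h4 : (∫ x in a..b, Complex.exp (Complex.I * ((-f x : ℝ) : ℂ))) =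
        (starRingEnd ℂ) (∫ x in a..b, Complex.exp (Complex.I * (f x : ℂ))) := by
      rw [intervalIntegral.integral_of_le hab, intervalIntegral.integral_of_le hab, ← integral_conj]
      congr 1
      funext x
      rw [← Complex.exp_conj, map_mul, Complex.conj_I, Complex.conj_ofReal]
      push_cast
      ring_nf
    rw [h4, RCLike.norm_conj] at h3
    exact h3.trans h8

/-- **Second derivative test** with a `C^1` amplitude: `|f''| ≥ lam` of constant sign, `|g| ≤ G`, `∫ |g'| ≤ V`. -/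
theorem osc2 {a b lam G V : ℝ} (hab : a ≤ b) (hlam : 0 < lam) (f f1 f2 : ℝ → ℝ) (g g1 : ℝ → ℂ)
    (h1 : ∀ x ∈ Icc a b, HasDerivAt f (f1 x) x) (h2 : ∀ x ∈ Icc a b, HasDerivAt f1 (f2 x) x)
    (hc2 : ContinuousOn f2 (Icc a b)) (hg : ∀ x ∈ Icc a b, HasDerivAt g (g1 x) x)
    (hcg : ContinuousOn g1 (Icc a b))
    (hl : (∀ x ∈ Icc a b, lam ≤ f2 x) ∨ (∀ x ∈ Icc a b, f2 x ≤ -lam))
    (hG : ∀ x ∈ Icc a b, ‖g x‖ ≤ G) (hV : ∫ x in a..b, ‖g1 x‖ ≤ V) :
    ‖∫ x in a..b, g x * Complex.exp (Complex.I * (f x : ℂ))‖ ≤ 8 * (G + V) / Real.sqrt lam := by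
  have hs : 0 < Real.sqrt lam := Real.sqrt_pos.2 hlam
  have hu : uIcc a b = Icc a b := uIcc_of_le hab
  have hcg0 : ContinuousOn g (Icc a b) := fun x hx => (hg x hx).continuousAt.continuousWithinAt
  have hcE : ContinuousOn (fun x => Complex.exp (Complex.I * (f x : ℂ))) (Icc a b) :=
    fun x hx => (hasDerivAt_expI (h1 x hx)).continuousAt.continuousWithinAt
  set E : ℝ → ℂ := fun x => Complex.exp (Complex.I * (f x : ℂ)) with hE
  set H : ℝ → ℂ := fun x => ∫ y in a..x, E y with hH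
  have iE : IntervalIntegrable E volume a b := by
    apply ContinuousOn.intervalIntegrable; rw [hu]; exact hcE
  have hHb : ∀ x ∈ Icc a b, ‖H x‖ ≤ 8 / Real.sqrt lam := by
    intro x hx
    apply osc2a hx.1 hlam f f1 f2 (fun y hy => h1 y ⟨hy.1, hy.2.trans hx.2⟩)
      (fun y hy => h2 y ⟨hy.1, hy.2.trans hx.2⟩) (hc2.mono (Icc_subset_Icc_right hx.2))
    rcases hl with hl | hl
    · exact Or.inl fun y hy => hl y ⟨hy.1, hy.2.trans hx.2⟩
    · exact Or.inr fun y hy => hl y ⟨hy.1, hy.2.trans hx.2⟩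
  have hHc : ContinuousOn H (Icc a b) := by
    have := intervalIntegral.continuousOn_primitive_interval' iE (left_mem_uIcc)
    rwa [hu] at this
  have hHd : ∀ x ∈ Ioo a b, HasDerivAt H (E x) x := by
    intro x hx
    have hx' : x ∈ Icc a b := ⟨hx.1.le, hx.2.le⟩
    apply intervalIntegral.integral_hasDerivAt_right
    · exact iE.mono_set (by rw [hu, uIcc_of_le hx.1.le]; exact Icc_subset_Icc_right hx.2.le)
    · exact ContinuousOn.stronglyMeasurableAtFilter_nhdsWithin hcE measurableSet_Icc x |>.filter_mono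
        (by rw [nhdsWithin_eq_nhds.2 (Icc_mem_nhds hx.1 hx.2)])
    · exact (hasDerivAt_expI (h1 x hx')).continuousAt
  have ig1 : IntervalIntegrable g1 volume a b := by
    apply ContinuousOn.intervalIntegrable; rw [hu]; exact hcg
  have hparts := intervalIntegral.integral_mul_deriv_eq_deriv_mul_of_hasDeriv_right
    (a := a) (b := b) (u := g) (v := H) (u' := g1) (v' := E)
    (by rw [hu]; exact hcg0) (by rw [hu]; exact hHc)
    (fun x hx => by
      rw [min_eq_left hab, max_eq_right hab] at hx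
      exact (hg x ⟨hx.1.le, hx.2.le⟩).hasDerivWithinAt)
    (fun x hx => by
      rw [min_eq_left hab, max_eq_right hab] at hx
      exact (hHd x hx).hasDerivWithinAt) ig1 iE
  have hHa : H a = 0 := by simp [hH]
  rw [hparts, hHa, mul_zero, sub_zero]
  have e1 : ‖g b * H b‖ ≤ G * (8 / Real.sqrt lam) := by
    rw [norm_mul]
    exact mul_le_mul (hG b ⟨hab, le_rfl⟩) (hHb b ⟨hab, le_rfl⟩) (norm_nonneg _)
      ((norm_nonneg _).trans (hG b ⟨hab, le_rfl⟩))
  have e2 : ‖∫ x in a..b, g1 x * H x‖ ≤ V * (8 / Real.sqrt lam) := by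
    have h3 : ‖∫ x in a..b, g1 x * H x‖ ≤ ∫ x in a..b, ‖g1 x‖ * (8 / Real.sqrt lam) := by
      apply intervalIntegral.norm_integral_le_of_norm_le hab _ (ig1.norm.mul_const _)
      filter_upwards with x hx
      rw [norm_mul]
      exact mul_le_mul_of_nonneg_left (hHb x ⟨hx.1.le, hx.2⟩) (norm_nonneg _)
    refine h3.trans ?_
    rw [intervalIntegral.integral_mul_const]
    exact mul_le_mul_of_nonneg_right hV (by positivity)
  refine (norm_sub_le _ _).trans ?_
  have e3 : 8 * (G + V) / Real.sqrt lam = G * (8 / Real.sqrt lam) + V * (8 / Real.sqrt lam) := by ring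
  linarith

end Pool.Agent.Work.MP_56b8f5_nt.UB.OscI
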