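import Pool.Agent.Work.MP_56b8f5_nt.UB.Vdc

/-!
# Poisson summation for `C²` functions
-/

set_option autoImplicit false

namespace Pool.Agent.Work.MP_56b8f5_nt.UB

open MeasureTheory Filter Asymptotics Topology
open scoped FourierTransform

/-- `cis (2π (-m y))` is the kernel of the Fourier transform. -/
theorem fourier_eq_cis (f : ℝ → ℂ) (w : ℝ) :
    𝓕 f w = ∫ y, f y * cis (2 * Real.pi * (-(w * y))) := by
  rw [Real.fourier_real_eq_integral_exp_smul]
  refine integral_congr_ae (Eventually.of_forall fun y => ?_)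
  simp only [smul_eq_mul]
  rw [mul_comm, cis]
  congr 2
  push_cast
  ring

/-- The Fourier transform of a `C²` function. -/
theorem fourier_C2 {f f1 f2 : ℝ → ℂ} (h1 : ∀ x, HasDerivAt f (f1 x) x)
    (h2 : ∀ x, HasDerivAt f1 (f2 x) x) (i0 : Integrable f) (i1 : Integrable f1)
    (i2 : Integrable f2) (w : ℝ) :
    (2 * Real.pi * w) ^ 2 * ‖𝓕 f w‖ ≤ ∫ y, ‖f2 y‖ := by
  have d1 : deriv f = f1 := funext fun x => (h1 x).deriv
  have d2 : deriv f1 = f2 := funext fun x => (h2 x).deriv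
  have e1 := congrFun (Real.fourier_deriv i0 (fun x => (h1 x).differentiableAt) (by rwa [d1])) w
  have e2 := congrFun (Real.fourier_deriv i1 (fun x => (h2 x).differentiableAt) (by rwa [d2])) w
  rw [d1] at e1
  rw [d2] at e2
  have e3 : ‖𝓕 f2 w‖ = (2 * Real.pi * w) ^ 2 * ‖𝓕 f w‖ := by
    rw [e2, e1]
    simp only [norm_smul, norm_mul, Complex.norm_I, Complex.norm_real, Complex.norm_ofNat,
      Real.norm_eq_abs]
    have h5 : |Real.pi| = Real.pi := abs_of_pos Real.pi_pos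
    rw [h5, mul_one]
    have h6 : |w| * |w| = w * w := abs_mul_abs_self w
    linear_combination (2 * Real.pi) ^ 2 * ‖𝓕 f w‖ * h6
  rw [← e3]
  have h4 : 𝓕 f2 w = ∫ y, f2 y * cis (2 * Real.pi * (-(w * y))) := fourier_eq_cis f2 w
  rw [h4]
  refine (norm_integral_le_integral_norm _).trans (le_of_eq ?_)
  refine integral_congr_ae (Eventually.of_forall fun y => ?_)
  simp only [norm_mul, norm_cis, mul_one]

/-- **Poisson summation** for `C²` functions. -/
theorem poisson {f f1 f2 : ℝ → ℂ} (h1 : ∀ x, HasDerivAt f (f1 x) x)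
    (h2 : ∀ x, HasDerivAt f1 (f2 x) x) (i1 : Integrable f1)
    (i2 : Integrable f2) {C : ℝ} (hC : ∀ x, ‖f x‖ ≤ C / (1 + x ^ 2)) :
    Integrable f ∧ Summable (fun n : ℤ => f n) ∧
    (∀ m : ℤ, m ≠ 0 → ‖∫ y, f y * cis (2 * Real.pi * (-(m * y)))‖ ≤
      (∫ y, ‖f2 y‖) / (2 * Real.pi * m) ^ 2) ∧
    Summable (fun m : ℤ => ∫ y, f y * cis (2 * Real.pi * (-(m * y)))) ∧
    ∑' n : ℤ, f n = ∑' m : ℤ, ∫ y, f y * cis (2 * Real.pi * (-(m * y))) := by
  have hfc : Continuous f := continuous_iff_continuousAt.2 fun x => (h1 x).continuousAt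
  have i0 : Integrable f := by
    have h : Integrable fun x : ℝ => C * (1 + x ^ 2)⁻¹ := integrable_inv_one_add_sq.const_mul C
    refine h.mono' hfc.aestronglyMeasurable (Eventually.of_forall fun x => ?_)
    have := hC x
    rwa [div_eq_mul_inv] at this
  -- decay of `f`
  have hC0 : 0 ≤ C := by
    have h := (norm_nonneg _).trans (hC 0)
    simpa using h
  have hdec : f =O[cocompact ℝ] (fun x : ℝ => |x| ^ (-(2 : ℝ))) := by
    refine IsBigO.of_bound C ?_
    have : ∀ᶠ x : ℝ in cocompact ℝ, x ≠ 0 := by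
      have h := (isCompact_singleton (x := (0 : ℝ))).compl_mem_cocompact
      exact h
    filter_upwards [this] with x hx
    refine (hC x).trans ?_
    have hx2 : 0 < x ^ 2 := by positivity
    have e1 : ‖|x| ^ (-(2 : ℝ))‖ = (x ^ 2)⁻¹ := by
      rw [Real.norm_eq_abs, abs_of_nonneg (by positivity), Real.rpow_neg (abs_nonneg _)]
      norm_cast
      rw [sq_abs]
    rw [e1, div_eq_mul_inv]
    refine mul_le_mul_of_nonneg_left (inv_anti₀ hx2 (by linarith)) hC0
  have hbd := fourier_C2 h1 h2 i0 i1 i2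
  have hm : ∀ m : ℤ, m ≠ 0 → ‖𝓕 f m‖ ≤ (∫ y, ‖f2 y‖) / (2 * Real.pi * m) ^ 2 := by
    intro m hm
    have hm' : (m : ℝ) ≠ 0 := by exact_mod_cast hm
    rw [le_div_iff₀ (by positivity), mul_comm]
    exact hbd m
  have hs : Summable fun m : ℤ => 𝓕 f m := by
    have h3 : Summable fun m : ℤ => (∫ y, ‖f2 y‖) / (2 * Real.pi) ^ 2 * |(m : ℝ)| ^ (-(2 : ℝ)) :=
      (Real.summable_abs_int_rpow (by norm_num : (1 : ℝ) < 2)).mul_left _
    refine Summable.of_norm_bounded_eventually h3 ?_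
    have h4 : ∀ᶠ m : ℤ in cofinite, m ≠ 0 := by
      have := (Set.finite_singleton (0 : ℤ)).compl_mem_cofinite
      exact this
    filter_upwards [h4] with m h0
    refine (hm m h0).trans (le_of_eq ?_)
    have hm' : (m : ℝ) ≠ 0 := by exact_mod_cast h0
    have e1 : |(m : ℝ)| ^ (-(2 : ℝ)) = ((m : ℝ) ^ 2)⁻¹ := by
      rw [Real.rpow_neg (abs_nonneg _)]
      norm_cast
      rw [sq_abs]
    rw [e1]
    field_simp
  have hP := Real.tsum_eq_tsum_fourier_of_rpow_decay_of_summable hfc (by norm_num : (1 : ℝ) < 2)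
    hdec hs 0
  have hfs : Summable (fun n : ℤ => f n) :=
    summable_of_isBigO (Real.summable_abs_int_rpow (by norm_num : (1 : ℝ) < 2))
      (hdec.comp_tendsto Int.tendsto_coe_cofinite)
  have hcis : ∀ m : ℤ, (∫ y, f y * cis (2 * Real.pi * (-(m * y)))) = 𝓕 f m :=
    fun m => (fourier_eq_cis f m).symm
  refine ⟨i0, hfs, fun m h0 => by rw [hcis]; exact hm m h0, ?_, ?_⟩
  · simp only [hcis]
    exact hs
  · simp only [hcis]
    simpa using hP

end Pool.Agent.Work.MP_56b8f5_nt.UB
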